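import Pool.Agent.Run7.h421.Cpt

/-!
# Inequalities which hold in the regular representation hold in every representation
-/

set_option autoImplicit false
set_option linter.unusedSectionVars false

namespace Run7.h421

open MeasureTheory InnerProductSpace Topology Set
open scoped ComplexConjugate

noncomputable section

/-- the defect in terms of norms -/
lemma dfc_eq {E : Type*} [NormedAddCommGroup E] [InnerProductSpace ℂ E] [CompleteSpace E]
    {Γ : Type*} [Group Γ] (π : Γ →* (E ≃ₗᵢ[ℂ] E)) (S : Finset Γ) {σ : ℝ}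
    (hσ : σ = 1 ∨ σ = -1) (v : E) :
    dfc π S σ v = (∑ s ∈ S, ‖π s v - (σ : ℂ) • v‖ ^ 2) / 2 := by
  rw [sum_norm_sq]
  have hs : σ ^ 2 = 1 := by rcases hσ with rfl | rfl <;> norm_num
  rw [hs]
  unfold dfc
  ring

lemma norm_sub_le_dfc {E : Type*} [NormedAddCommGroup E] [InnerProductSpace ℂ E] [CompleteSpace E]
    {Γ : Type*} [Group Γ] (π : Γ →* (E ≃ₗᵢ[ℂ] E)) (S : Finset Γ) {σ : ℝ}
    (hσ : σ = 1 ∨ σ = -1) (v : E) {s : Γ} (hs : s ∈ S) :
    ‖π s v - (σ : ℂ) • v‖ ^ 2 ≤ 2 * dfc π S σ v := by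
  rw [dfc_eq π S hσ]
  have := Finset.single_le_sum (f := fun s => ‖π s v - (σ : ℂ) • v‖ ^ 2)
    (fun i _ => by positivity) hs
  linarith

section

variable {H : Type*} [TopologicalSpace H] [Group H] [IsTopologicalGroup H] [CompactSpace H]
variable {E : Type*} [NormedAddCommGroup E] [InnerProductSpace ℂ E] [CompleteSpace E]
variable (π : H →* (E ≃ₗᵢ[ℂ] E)) (hπ : ∀ v, Continuous fun g => π g v)

/-- The vectors which lie in finite-dimensional invariant subspaces. -/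
def fdVec : Submodule ℂ E :=
  sSup {V | FiniteDimensional ℂ V ∧ ∀ g, ∀ x ∈ V, π g x ∈ V}

lemma mem_fdVec (v : E) : v ∈ fdVec π ↔
    ∃ V : Submodule ℂ E, (FiniteDimensional ℂ V ∧ ∀ g, ∀ x ∈ V, π g x ∈ V) ∧ v ∈ V := by
  unfold fdVec
  rw [Submodule.mem_sSup_of_directed]
  · rfl
  · exact ⟨⊥, inferInstance, fun g x hx => by
      rw [Submodule.mem_bot] at hx ⊢
      rw [hx, map_zero]⟩
  · rintro V ⟨hV1, hV2⟩ W ⟨hW1, hW2⟩
    refine ⟨V ⊔ W, ⟨inferInstance, ?_⟩, le_sup_left, le_sup_right⟩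
    intro g x hx
    obtain ⟨a, ha, b, hb, rfl⟩ := Submodule.mem_sup.1 hx
    rw [map_add]
    exact Submodule.add_mem_sup (hV2 g a ha) (hW2 g b hb)

include hπ in
lemma fdVec_dense : (fdVec π).topologicalClosure = ⊤ := by
  rw [Submodule.topologicalClosure_eq_top_iff, Submodule.eq_bot_iff]
  intro v hv
  by_contra hv0
  obtain ⟨V, hfin, hinv, x, hx, hxv⟩ := exists_fd' π hπ v hv0
  apply hxv
  exact (Submodule.mem_orthogonal _ _).1 hv x ((mem_fdVec π x).2 ⟨V, ⟨hfin, hinv⟩, hx⟩)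

variable [T2Space H] [MeasurableSpace H] [BorelSpace H] (ν : Measure H) [ν.IsHaarMeasure]

/-- matrix coefficients -/
def mco (w v : E) : C(H, ℂ) := ⟨fun x => inner ℂ w (π x⁻¹ v), continuous_const.inner
  ((hπ v).comp continuous_inv)⟩

lemma lreg_mco (w v : E) (g : H) :
    lreg ν g (ContinuousMap.toLp 2 ν ℂ (mco π hπ w v)) =
      ContinuousMap.toLp 2 ν ℂ (mco π hπ w (π g v)) := by
  rw [lreg_toLp]
  congr 1
  ext x
  show inner ℂ w (π (g⁻¹ * x)⁻¹ v) = inner ℂ w (π x⁻¹ (π g v))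
  rw [mul_inv_rev, inv_inv, pi_mul]

lemma mco_sub (w v v' : E) : mco π hπ w (v - v') = mco π hπ w v - mco π hπ w v' := by
  ext x
  show inner ℂ w (π x⁻¹ (v - v')) = inner ℂ w (π x⁻¹ v) - inner ℂ w (π x⁻¹ v')
  rw [map_sub, inner_sub_right]

lemma mco_smul (w v : E) (c : ℂ) : mco π hπ w (c • v) = c • mco π hπ w v := by
  ext x
  show inner ℂ w (π x⁻¹ (c • v)) = c • inner ℂ w (π x⁻¹ v)
  rw [map_smul, inner_smul_right, smul_eq_mul]

lemma sum_mco (V : Submodule ℂ E) [FiniteDimensional ℂ V] (hV : ∀ g, ∀ x ∈ V, π g x ∈ V)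
    {v : E} (hv : v ∈ V) :
    ∑ i, ‖ContinuousMap.toLp 2 ν ℂ (mco π hπ (stdOrthonormalBasis ℂ V i : E) v)‖ ^ 2 =
      ν.real univ * ‖v‖ ^ 2 := by
  simp_rw [norm_toLp_sq]
  rw [← integral_finset_sum]
  · have h1 : ∀ x : H, ∑ i, ‖mco π hπ (stdOrthonormalBasis ℂ V i : E) v x‖ ^ 2 = ‖v‖ ^ 2 := by
      intro x
      have h2 := (stdOrthonormalBasis ℂ V).sum_sq_norm_inner_right ⟨π x⁻¹ v, hV _ _ hv⟩
      refine (Eq.trans ?_ h2).trans ?_
      · rfl
      · show ‖π x⁻¹ v‖ ^ 2 = _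
        rw [LinearIsometryEquiv.norm_map]
    simp_rw [h1]
    rw [integral_const, smul_eq_mul]
  · intro i _
    exact integrable_cont ν ((mco π hπ _ v).continuous.norm.pow 2)

include hπ in
/-- The transfer of inequalities. -/
theorem transfer {σ : ℝ} (hσ : σ = 1 ∨ σ = -1) (S : Finset H) (h : H) {a b : ℝ}
    (hL : ∀ f : Lp ℂ 2 ν, ‖lreg ν h f - f‖ ^ 2 ≤ a * dfc (lreg ν) S σ f + b * ‖f‖ ^ 2) (v : E) :
    ‖π h v - v‖ ^ 2 ≤ a * dfc π S σ v + b * ‖v‖ ^ 2 := by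
  have hclosed : IsClosed {v : E | ‖π h v - v‖ ^ 2 ≤ a * dfc π S σ v + b * ‖v‖ ^ 2} := by
    have h1 : ∀ g : H, Continuous (fun v => π g v) := fun g => (π g).continuous
    refine isClosed_le (((h1 h).sub continuous_id).norm.pow 2) ?_
    refine (continuous_const.mul ?_).add (continuous_const.mul (continuous_norm.pow 2))
    unfold dfc
    refine (continuous_const.mul (continuous_norm.pow 2)).sub (continuous_const.mul ?_)
    exact Complex.continuous_re.comp ((Dl_cont π S).inner continuous_id)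
  have hsub : (fdVec π : Set E) ⊆ {v : E | ‖π h v - v‖ ^ 2 ≤ a * dfc π S σ v + b * ‖v‖ ^ 2} := by
    intro v hv
    obtain ⟨V, ⟨hfin, hinv⟩, hvV⟩ := (mem_fdVec π v).1 hv
    show ‖π h v - v‖ ^ 2 ≤ a * dfc π S σ v + b * ‖v‖ ^ 2
    have hpos : 0 < ν.real univ := by
      have h1 : ν univ ≠ 0 := ((isOpen_univ (X := H)).measure_pos ν ⟨1, trivial⟩).ne'
      exact ENNReal.toReal_pos h1 (measure_lt_top ν univ).ne
    set J : Fin (Module.finrank ℂ V) → E → Lp ℂ 2 ν := fun i v =>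
      ContinuousMap.toLp 2 ν ℂ (mco π hπ (stdOrthonormalBasis ℂ V i : E) v) with hJ
    have hJs : ∀ v ∈ V, ∑ i, ‖J i v‖ ^ 2 = ν.real univ * ‖v‖ ^ 2 := fun v hv =>
      sum_mco π hπ ν V hinv hv
    have hJl : ∀ i g v, lreg ν g (J i v) = J i (π g v) := fun i g v => lreg_mco π hπ ν _ v g
    have hJsub : ∀ i v v', J i (v - v') = J i v - J i v' := by
      intro i v v'
      simp only [hJ]
      rw [mco_sub, map_sub]
    have hJsmul : ∀ i (c : ℂ) v, J i (c • v) = c • J i v := by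
      intro i c v
      simp only [hJ]
      rw [mco_smul, map_smul]
    have h2 : ∀ i, ‖J i (π h v - v)‖ ^ 2 ≤
        a * ((∑ s ∈ S, ‖J i (π s v - (σ : ℂ) • v)‖ ^ 2) / 2) + b * ‖J i v‖ ^ 2 := by
      intro i
      have h3 := hL (J i v)
      rw [dfc_eq (lreg ν) S hσ] at h3
      rw [hJsub, ← hJl]
      refine h3.trans (le_of_eq ?_)
      congr 3
      refine Finset.sum_congr rfl fun s _ => ?_
      rw [hJsub, hJsmul, ← hJl]
    have h4 := Finset.sum_le_sum (s := Finset.univ) fun i _ => h2 i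
    rw [Finset.sum_add_distrib, ← Finset.mul_sum, ← Finset.mul_sum, ← Finset.sum_div,
      Finset.sum_comm, hJs _ hvV, hJs _ (V.sub_mem (hinv h v hvV) hvV)] at h4
    have h5 : ∑ s ∈ S, ∑ i, ‖J i (π s v - (σ : ℂ) • v)‖ ^ 2 =
        ν.real univ * ∑ s ∈ S, ‖π s v - (σ : ℂ) • v‖ ^ 2 := by
      rw [Finset.mul_sum]
      refine Finset.sum_congr rfl fun s _ => ?_
      exact hJs _ (V.sub_mem (hinv s v hvV) (V.smul_mem _ hvV))
    rw [h5] at h4
    rw [dfc_eq π S hσ]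
    have h6 : ν.real univ * ‖π h v - v‖ ^ 2 ≤ ν.real univ *
        (a * ((∑ s ∈ S, ‖π s v - (σ : ℂ) • v‖ ^ 2) / 2) + b * ‖v‖ ^ 2) := by
      refine h4.trans (le_of_eq ?_)
      ring
    exact le_of_mul_le_mul_left h6 hpos
  have h1 := closure_minimal hsub hclosed
  have h2 : v ∈ (fdVec π).topologicalClosure := by rw [fdVec_dense π hπ]; trivial
  exact h1 h2

end

end

end Run7.h421
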