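import Pool.Agent.Run7.h421.ProdN
import Pool.Agent.Run7.h421.Trans

/-!
# Propagation of the uniform gap from closed subgroups
-/

set_option autoImplicit false
set_option linter.unusedSectionVars false

namespace Run7.h421

open MeasureTheory Set Filter Topology Matrix
open scoped Matrix.Norms.L2Operator
open Pool.Agent.E8helper46.FL

noncomputable section

section lie

variable {G : Type*} [TopologicalSpace G] [Group G] [IsTopologicalGroup G] [CompactSpace G]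
  [T2Space G] {r : ℕ} {ρ : G →* (Mt r)ˣ} (hρ : IsFRep ρ)

/-- the adjoint action -/
def adj (ρ : G →* (Mt r)ˣ) : G →* Module.End ℝ (Mt r) where
  toFun g := (LinearMap.mulLeft ℝ (ρ g : Mt r)).comp (LinearMap.mulRight ℝ (((ρ g)⁻¹ : (Mt r)ˣ) : Mt r))
  map_one' := by
    ext1 X
    simp
  map_mul' g h := by
    ext1 X
    simp [mul_assoc]

lemma adj_apply (g : G) (X : Mt r) :
    adj ρ g X = (ρ g : Mt r) * X * (((ρ g)⁻¹ : (Mt r)ˣ) : Mt r) := by
  simp [adj, mul_assoc]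

include hρ in
lemma adj_cont (X : Mt r) : Continuous fun g : G => adj ρ g X := by
  simp_rw [adj_apply]
  have h1 : Continuous fun g => (ρ g : Mt r) := Units.continuous_val.comp hρ.cont
  have h2 : Continuous fun g => (((ρ g)⁻¹ : (Mt r)ˣ) : Mt r) := by
    have : Continuous fun g => (ρ g)⁻¹ := hρ.cont.inv
    exact Units.continuous_val.comp this
  exact (h1.mul continuous_const).mul h2

include hρ in
/-- A subspace invariant under a set generating a dense subgroup is invariant. -/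
lemma inv_of_dense {S : Set G} (hS : ∀ s ∈ S, s⁻¹ ∈ S)
    (hd : Dense ((Subgroup.closure S : Subgroup G) : Set G)) (V : Submodule ℝ (Mt r))
    (hV : ∀ s ∈ S, ∀ X ∈ V, adj ρ s X ∈ V) (g : G) {X : Mt r} (hX : X ∈ V) : adj ρ g X ∈ V := by
  have h1 : ∀ g ∈ Subgroup.closure S, ∀ X ∈ V, adj ρ g X ∈ V := by
    intro g hg
    induction hg using Subgroup.closure_induction with
    | mem s hs => exact hV s hs
    | one => intro X hX; rw [map_one]; exact hX
    | mul a b _ _ iha ihb =>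
      intro X hX
      rw [map_mul]
      exact iha _ (ihb _ hX)
    | inv a _ iha =>
      intro X hX
      -- `adj a` is injective on the finite-dimensional space `V`, so surjective
      let T : V →ₗ[ℝ] V := (adj ρ a).restrict iha
      have hinj : Function.Injective T := by
        intro x y hxy
        have h2 : adj ρ a (x : Mt r) = adj ρ a (y : Mt r) := congrArg Subtype.val hxy
        have h3 := congrArg (adj ρ a⁻¹) h2
        rw [← Module.End.mul_apply, ← Module.End.mul_apply, ← map_mul, inv_mul_cancel, map_one] at h3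
        exact Subtype.ext h3
      obtain ⟨y, hy⟩ := (LinearMap.injective_iff_surjective.1 hinj) ⟨X, hX⟩
      have h4 : adj ρ a (y : Mt r) = X := congrArg Subtype.val hy
      rw [← h4, ← Module.End.mul_apply, ← map_mul, inv_mul_cancel, map_one]
      exact y.2
  have hcl : IsClosed {g : G | adj ρ g X ∈ V} :=
    V.closed_of_finiteDimensional.preimage (adj_cont hρ X)
  exact closure_minimal (fun g hg => h1 g hg X hX) hcl (hd g)

variable [ConnectedSpace G] (hG : Simp G)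

include hρ hG in
/-- Conjugates of one element of the Lie algebra by short words form a basis. -/
theorem exists_basis {S : Set G} (hS : ∀ s ∈ S, s⁻¹ ∈ S)
    (hd : Dense ((Subgroup.closure S : Subgroup G) : Set G)) {X : Mt r} (hX : X ∈ lieT hρ)
    (hX0 : X ≠ 0) :
    ∃ (d : ℕ) (w : Fin d → G), d ≤ Module.finrank ℝ (Mt r) ∧
      (∀ i, Wd S (Module.finrank ℝ (Mt r)) (w i)) ∧
      LinearIndependent ℝ (fun i => adj ρ (w i) X) ∧
      Submodule.span ℝ (range fun i => adj ρ (w i) X) = lieT hρ := by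
  set N := Module.finrank ℝ (Mt r) with hN
  set V := wspan (adj ρ) S X N with hV
  have hinv : ∀ s ∈ S, ∀ Y ∈ V, adj ρ s Y ∈ V := fun s hs Y hY => wspan_inv (adj ρ) S X hs hY
  have hinv' : ∀ g : G, ∀ Y ∈ V, (ρ g : Mt r) * Y * ((ρ g)⁻¹ : (Mt r)ˣ) ∈ V := by
    intro g Y hY
    rw [← adj_apply]
    exact inv_of_dense hρ hS hd V hinv g hY
  have hXV : X ∈ V := Submodule.subset_span ⟨1, Wd.one S N, by rw [map_one]; rfl⟩
  have hVle : V ≤ lieT hρ := by
    refine Submodule.span_le.2 ?_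
    rintro w ⟨g, -, rfl⟩
    rw [adj_apply]
    exact lie_conj hρ hX (Subgroup.mem_top g)
  have hVeq : V = lieT hρ := by
    rcases irred hρ hG hVle hinv' with h | h
    · exfalso
      rw [h, Submodule.mem_bot] at hXV
      exact hX0 hXV
    · exact h
  obtain ⟨f, hf1, hf2, hf3⟩ := Submodule.exists_fun_fin_finrank_span_eq ℝ
    {w | ∃ g, Wd S N g ∧ w = adj ρ g X}
  choose w hw1 hw2 using hf1
  refine ⟨_, w, ?_, hw1, ?_, ?_⟩
  · exact Submodule.finrank_le _
  · have : (fun i => adj ρ (w i) X) = f := funext fun i => (hw2 i).symm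
    rw [this]
    exact hf3
  · have : (fun i => adj ρ (w i) X) = f := funext fun i => (hw2 i).symm
    rw [this, hf2]
    exact hVeq

include hρ hG in
/-- Products of conjugates of small elements of an infinite closed subgroup by short words cover a
neighbourhood of the identity. -/
theorem conj_cover {S : Set G} (hS : ∀ s ∈ S, s⁻¹ ∈ S)
    (hd : Dense ((Subgroup.closure S : Subgroup G) : Set G)) (H : Subgroup G)
    (hH : IsClosed (H : Set G)) (hHi : (H : Set G).Infinite) :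
    ∃ (d : ℕ) (w : Fin d → G), d ≤ Module.finrank ℝ (Mt r) ∧
      (∀ i, Wd S (Module.finrank ℝ (Mt r)) (w i)) ∧
      ∀ U : Set G, IsOpen U → (1 : G) ∈ U → ∀ᶠ g : G in 𝓝 1, ∃ h : Fin d → G,
        (∀ i, h i ∈ H ∧ h i ∈ U) ∧
          g = ((List.finRange d).map fun i => w i * h i * (w i)⁻¹).prod := by
  have h1 : lie hρ H hH ≠ ⊥ := fun h => hHi (finite_of_lie_eq_bot hρ h)
  obtain ⟨X, hX, hX0⟩ := Submodule.exists_mem_ne_zero_of_ne_bot h1
  have hXT : X ∈ lieT hρ := lie_mono hρ le_top hX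
  obtain ⟨d, w, hd1, hw, hli, hsp⟩ := exists_basis hρ hG hS hd hXT hX0
  refine ⟨d, w, hd1, hw, fun U hU h1U => ?_⟩
  obtain ⟨O, hO, h1O, hinj⟩ := inj_near hρ
  -- shrink `U`
  let Φ : (Fin d → G) → G := fun h => ((List.finRange d).map fun i => w i * h i * (w i)⁻¹).prod
  have hΦc : Continuous Φ := by
    refine continuous_list_prod _ fun i _ => ?_
    fun_prop
  have hΦ1 : Φ (fun _ => 1) = 1 := by
    simp only [Φ, mul_one, mul_inv_cancel, List.map_const', List.prod_replicate, one_pow]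
  have h2 : Φ ⁻¹' O ∈ 𝓝 (fun _ : Fin d => (1 : G)) :=
    hΦc.continuousAt.preimage_mem_nhds (by rw [hΦ1]; exact hO.mem_nhds h1O)
  rw [nhds_pi, Filter.mem_pi] at h2
  obtain ⟨I, -, t, ht, htO⟩ := h2
  set U' : Set G := interior (U ∩ ⋂ i, t i) with hU'
  have h3 : U ∩ ⋂ i, t i ∈ 𝓝 (1 : G) := by
    refine inter_mem (hU.mem_nhds h1U) ?_
    rw [Filter.iInter_mem]
    exact ht
  have h1U' : (1 : G) ∈ U' := mem_interior_iff_mem_nhds.2 h3
  have hlift := lift_near hρ H hH (isOpen_interior : IsOpen U') h1U'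
  have hexp : Tendsto (fun s : ℝ => ex (s • X)) (𝓝 0) (𝓝 1) := by
    have h4 : Continuous (fun s : ℝ => ex (s • X)) := ex_cont.comp (by fun_prop)
    have h5 := h4.tendsto 0
    rwa [zero_smul, ex_zero] at h5
  obtain ⟨δ, hδ, h4⟩ := Metric.eventually_nhds_iff_ball.1 (hexp.eventually hlift)
  have hpn := prod_near ((⊤ : Subgroup G).map ρ) (closed_map hρ ⊤ isClosed_univ)
    (fun i => adj ρ (w i) X) hli hsp hδ
  have hρ1 : Tendsto ρ (𝓝 1) (𝓝 1) := by
    have := hρ.cont.tendsto 1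
    rwa [map_one] at this
  filter_upwards [hρ1.eventually hpn, hO.mem_nhds h1O] with g hg hgO
  obtain ⟨s, hs, hgs⟩ := hg ⟨g, trivial, rfl⟩
  have h5 : ∀ i, ∃ h ∈ H, h ∈ U' ∧ ρ h = ex (s i • X) := by
    intro i
    refine h4 (s i) ?_ (hX (s i))
    rw [Metric.mem_ball, dist_zero_right]
    exact hs i
  choose h hhH hhU hhρ using h5
  refine ⟨h, fun i => ⟨hhH i, (interior_subset (hhU i)).1⟩, ?_⟩
  apply hinj g hgO
  · have h6 : (fun i => h i) ∈ Φ ⁻¹' O := by
      apply htO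
      intro i _
      have := (interior_subset (hhU i)).2
      rw [mem_iInter] at this
      exact this i
    exact h6
  · rw [hgs, map_list_prod, List.map_map]
    congr 1
    refine List.map_congr_left fun i _ => ?_
    rw [Function.comp_apply, map_mul, map_mul, map_inv, hhρ, ← ex_conj, adj_apply]
    congr 1
    rw [mul_smul_comm, smul_mul_assoc]

end lie

section rep

variable {Γ : Type*} [Group Γ] {E : Type*} [NormedAddCommGroup E] [InnerProductSpace ℂ E]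
  [CompleteSpace E] (π : Γ →* (E ≃ₗᵢ[ℂ] E)) (S : Finset Γ)

lemma word_near {σ : ℝ} (hσ : σ = 1 ∨ σ = -1) {ε : ℝ} (hε : 0 ≤ ε) {v : E}
    (hv : dfc π S σ v ≤ ε * ‖v‖ ^ 2) (l : List Γ) (hl : ∀ x ∈ l, x ∈ S) :
    ‖π l.prod v - ((σ ^ l.length : ℝ) : ℂ) • v‖ ≤ l.length * (Real.sqrt (2 * ε) * ‖v‖) := by
  induction l with
  | nil => simp
  | cons s l ih =>
    have h1 : ‖π s v - (σ : ℂ) • v‖ ≤ Real.sqrt (2 * ε) * ‖v‖ := by
      have h2 := norm_sub_le_dfc π S hσ v (hl s (by simp))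
      have h3 : ‖π s v - (σ : ℂ) • v‖ ^ 2 ≤ (Real.sqrt (2 * ε) * ‖v‖) ^ 2 := by
        rw [mul_pow, Real.sq_sqrt (by positivity)]
        linarith
      exact (pow_le_pow_iff_left₀ (norm_nonneg _) (by positivity) two_ne_zero).1 h3
    have h2 := ih fun x hx => hl x (by simp [hx])
    have h3 : π (s :: l).prod v - ((σ ^ (s :: l).length : ℝ) : ℂ) • v =
        π s (π l.prod v - ((σ ^ l.length : ℝ) : ℂ) • v) +
          ((σ ^ l.length : ℝ) : ℂ) • (π s v - (σ : ℂ) • v) := by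
      rw [List.prod_cons, pi_mul, map_sub, map_smul, smul_sub, smul_smul, List.length_cons, pow_succ]
      push_cast
      abel
    have h4 : ‖((σ ^ l.length : ℝ) : ℂ)‖ = 1 := by
      rw [Complex.norm_real, norm_pow]
      rcases hσ with rfl | rfl <;> simp
    rw [h3]
    refine (norm_add_le _ _).trans ?_
    rw [LinearIsometryEquiv.norm_map, norm_smul, h4, one_mul, List.length_cons, Nat.cast_add,
      Nat.cast_one, add_mul, one_mul]
    exact add_le_add h2 h1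

/-- Conjugating by a short word. -/
lemma conj_near {σ : ℝ} (hσ : σ = 1 ∨ σ = -1) {ε : ℝ} (hε : 0 ≤ ε) {v : E}
    (hv : dfc π S σ v ≤ ε * ‖v‖ ^ 2) (hS : ∀ s ∈ S, s⁻¹ ∈ S) {N : ℕ} {w : Γ}
    (hw : Wd (S : Set Γ) N w) (h : Γ) :
    ‖π (w * h * w⁻¹) v - v‖ ≤ 2 * N * (Real.sqrt (2 * ε) * ‖v‖) + ‖π h v - v‖ := by
  obtain ⟨l, hl1, hl2, rfl⟩ := hw
  set τ : ℂ := ((σ ^ l.length : ℝ) : ℂ) with hτ
  have hτn : ‖τ‖ = 1 := by
    rw [hτ, Complex.norm_real, norm_pow]
    rcases hσ with rfl | rfl <;> simp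
  have hττ : τ * τ = 1 := by
    rw [hτ, ← Complex.ofReal_mul, ← mul_pow]
    rcases hσ with rfl | rfl <;> simp
  set q := (N : ℝ) * (Real.sqrt (2 * ε) * ‖v‖) with hq
  have h1 : ‖π l.prod v - τ • v‖ ≤ q := by
    refine (word_near π S hσ hε hv l hl2).trans ?_
    refine mul_le_mul_of_nonneg_right ?_ (by positivity)
    exact_mod_cast hl1
  have h2 : ‖π (l.prod)⁻¹ v - τ • v‖ ≤ q := by
    have h3 : π (l.prod)⁻¹ v - τ • v = - τ • π (l.prod)⁻¹ (π l.prod v - τ • v) := by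
      rw [map_sub, map_smul, pi_inv', smul_sub, smul_smul, neg_mul, hττ, neg_smul, neg_smul,
        one_smul]
      abel
    rw [h3, norm_smul, norm_neg, hτn, one_mul, LinearIsometryEquiv.norm_map]
    exact h1
  have h4 : π (l.prod * h * (l.prod)⁻¹) v - v =
      π (l.prod * h) (π (l.prod)⁻¹ v - τ • v) + τ • π l.prod (π h v - v) +
        τ • (π l.prod v - τ • v) := by
    rw [pi_mul, map_sub, map_smul, map_sub, smul_sub, smul_sub, smul_smul, hττ, one_smul,
      ← pi_mul π l.prod h v]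
    abel
  rw [h4]
  refine (norm_add₃_le).trans ?_
  rw [LinearIsometryEquiv.norm_map, norm_smul, norm_smul, hτn, one_mul, one_mul,
    LinearIsometryEquiv.norm_map]
  have h5 : 2 * (N : ℝ) * (Real.sqrt (2 * ε) * ‖v‖) = q + q := by rw [hq]; ring
  rw [h5]
  linarith

lemma prod_near_rep {v : E} {q : ℝ} (l : List Γ) (hl : ∀ x ∈ l, ‖π x v - v‖ ≤ q) :
    ‖π l.prod v - v‖ ≤ l.length * q := by
  induction l with
  | nil => simp [pi_one]
  | cons s l ih =>
    have h1 := ih fun x hx => hl x (by simp [hx])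
    have h2 := hl s (by simp)
    have h3 : π (s :: l).prod v - v = π s (π l.prod v - v) + (π s v - v) := by
      rw [List.prod_cons, pi_mul, map_sub]
      abel
    rw [h3]
    refine (norm_add_le _ _).trans ?_
    rw [LinearIsometryEquiv.norm_map, List.length_cons]
    push_cast
    linarith

end rep

section main

/-- The elements of `G` which are products of `m` elements of `S`. -/
def PowSet {G : Type*} [Monoid G] (S : Finset G) (m : ℕ) : Set G :=
  {g | ∃ l : List G, l.length = m ∧ (∀ x ∈ l, x ∈ S) ∧ l.prod = g}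

theorem thmC (G : Type) [TopologicalSpace G] [T2Space G] [Group G] [IsTopologicalGroup G]
    [CompactSpace G] [ConnectedSpace G] [MeasurableSpace G] [BorelSpace G] (μ : Measure G)
    [μ.IsHaarMeasure] (hG : Simp G) (m k₀ : ℕ) {η : ℝ} (hη : 0 < η) :
    ∃ ε : ℝ, 0 < ε ∧ ∀ S : Finset G, (∀ s ∈ S, s⁻¹ ∈ S) →
      Dense ((Subgroup.closure (S : Set G) : Subgroup G) : Set G) →
      ∀ H : Subgroup G, IsClosed (H : Set G) → (H : Set G).Infinite →
      ∀ (ν : Measure H) [ν.IsHaarMeasure] (S₀ : Finset H), S₀.card ≤ k₀ → (∀ s ∈ S₀, s⁻¹ ∈ S₀) →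
        (∀ s ∈ S₀, (s : G) ∈ PowSet S m) → FiniteDimensional ℂ (excSpace ν S₀ η) →
        FiniteDimensional ℂ (excSpace μ S ε) := by
  obtain ⟨r, ρ, hρ⟩ := exists_rep G hG
  set N : ℕ := Module.finrank ℝ (Mt r) + 1 with hN
  have hN1 : (1 : ℝ) ≤ N := by rw [hN]; push_cast; linarith [Nat.cast_nonneg (α := ℝ) (Module.finrank ℝ (Mt r))]
  set K : ℝ := (k₀ : ℝ) * (m : ℝ) ^ 2 + 1 with hK
  have hK1 : 1 ≤ K := by rw [hK]; nlinarith [Nat.cast_nonneg (α := ℝ) k₀, sq_nonneg (m : ℝ), mul_nonneg (Nat.cast_nonneg (α := ℝ) k₀) (sq_nonneg (m : ℝ))]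
  set ε : ℝ := min (1 / (128 * (N : ℝ) ^ 4)) (η / (256 * (N : ℝ) ^ 2 * K)) with hε
  have hε0 : 0 < ε := lt_min (by positivity) (by positivity)
  have hε1 : ε ≤ 1 / (128 * (N : ℝ) ^ 4) := min_le_left _ _
  have hε2 : ε ≤ η / (256 * (N : ℝ) ^ 2 * K) := min_le_right _ _
  refine ⟨ε, hε0, fun S hS hd H hH hHi ν _ S₀ hcard hS₀ hpow hfin => ?_⟩
  haveI : CompactSpace H := isCompact_iff_compactSpace.1 hH.isCompact
  rw [excSpace_eq ν S₀ hS₀] at hfin
  rw [excSpace_eq μ S hS]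
  -- the estimate on `L²(H)`
  set ε' : ℝ := 1 / (8 * (N : ℝ)) with hε'
  have hε'0 : 0 < ε' := by positivity
  have hnear := near_of_finExc (lreg ν) (lreg_cont ν) S₀ hS₀ hη hε'0
  -- transfer to `L²(G)`
  let π : H →* (Lp ℂ 2 μ ≃ₗᵢ[ℂ] Lp ℂ 2 μ) := (lreg μ).comp H.subtype
  have hπc : ∀ v, Continuous fun g => π g v := fun v =>
    (lreg_cont μ v).comp continuous_subtype_val
  have hnear2 : ∀ᶠ h : H in 𝓝 1, ∀ (f : Lp ℂ 2 μ) (σ : ℝ), σ = 1 ∨ σ = -1 →
      ‖lreg μ (h : G) f - f‖ ^ 2 ≤ 8 / η * dfc π S₀ σ f + 2 * ε' ^ 2 * ‖f‖ ^ 2 := by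
    filter_upwards [hnear] with h hh f σ hσ
    exact transfer π hπc ν hσ S₀ h (fun f => hh f σ hσ) f
  rw [nhds_subtype_eq_comap, eventually_comap] at hnear2
  obtain ⟨U, hU1, hU2, hU3⟩ := eventually_nhds_iff.1 hnear2
  obtain ⟨d, w, hd1, hw, hcov⟩ := conj_cover hρ hG (S := (S : Set G)) (by exact_mod_cast hS) hd H hH hHi
  refine finExc_of (lreg μ) S hS fun σ hσ V hV => ?_
  refine fd_of_near μ (c := 1 / 2) (by norm_num) V ?_
  filter_upwards [hcov U hU2 hU3] with g hg f hf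
  obtain ⟨h, hh, rfl⟩ := hg
  have hdf := hV f hf
  -- the defect with respect to `S₀`
  have hστ : (σ ^ m = 1 ∨ σ ^ m = -1) := by
    rcases hσ with rfl | rfl
    · left; simp
    · exact neg_one_pow_eq_or ℝ m
  have hdf0 : dfc π S₀ (σ ^ m) f ≤ K * ε * ‖f‖ ^ 2 := by
    rw [dfc_eq π S₀ hστ]
    have h1 : ∀ s ∈ S₀, ‖π s f - ((σ ^ m : ℝ) : ℂ) • f‖ ^ 2 ≤ 2 * (m : ℝ) ^ 2 * ε * ‖f‖ ^ 2 := by
      intro s hs
      obtain ⟨l, hl1, hl2, hl3⟩ := hpow s hs
      have h2 := word_near (lreg μ) S hσ hε0.le hdf l hl2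
      rw [hl3, hl1] at h2
      have h3 : ‖π s f - ((σ ^ m : ℝ) : ℂ) • f‖ ^ 2 ≤ (m * (Real.sqrt (2 * ε) * ‖f‖)) ^ 2 :=
        pow_le_pow_left₀ (norm_nonneg _) h2 2
      rw [mul_pow, mul_pow, Real.sq_sqrt (by positivity)] at h3
      linarith
    have h2 := Finset.sum_le_sum h1
    rw [Finset.sum_const, nsmul_eq_mul] at h2
    have h3 : (S₀.card : ℝ) ≤ k₀ := by exact_mod_cast hcard
    have h4 : (S₀.card : ℝ) * (2 * (m : ℝ) ^ 2 * ε * ‖f‖ ^ 2) ≤
        (k₀ : ℝ) * (2 * (m : ℝ) ^ 2 * ε * ‖f‖ ^ 2) :=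
      mul_le_mul_of_nonneg_right h3 (by positivity)
    have h5 : (∑ s ∈ S₀, ‖π s f - ((σ ^ m : ℝ) : ℂ) • f‖ ^ 2) / 2 ≤
        (k₀ : ℝ) * (m : ℝ) ^ 2 * ε * ‖f‖ ^ 2 := by linarith
    refine h5.trans ?_
    rw [hK]
    have h6 : 0 ≤ ε * ‖f‖ ^ 2 := by positivity
    nlinarith
  have hNp : (0 : ℝ) < N := by linarith
  -- small elements of `H`
  have hsmall : ∀ i, ‖lreg μ (h i) f - f‖ ≤ 1 / (4 * N) * ‖f‖ := by
    intro i
    have h1 := hU1 (h i) (hh i).2 ⟨h i, (hh i).1⟩ rfl f (σ ^ m) hστ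
    have h2 : ‖lreg μ (h i) f - f‖ ^ 2 ≤ (1 / (4 * N) * ‖f‖) ^ 2 := by
      have h3 : 8 / η * dfc π S₀ (σ ^ m) f ≤ 8 / η * (K * ε * ‖f‖ ^ 2) :=
        mul_le_mul_of_nonneg_left hdf0 (by positivity)
      have h4 : 8 / η * (K * ε * ‖f‖ ^ 2) ≤ 1 / (32 * (N : ℝ) ^ 2) * ‖f‖ ^ 2 := by
        have h5 : 8 / η * (K * ε) ≤ 1 / (32 * (N : ℝ) ^ 2) := by
          calc 8 / η * (K * ε) ≤ 8 / η * (K * (η / (256 * (N : ℝ) ^ 2 * K))) := by gcongr
            _ = 1 / (32 * (N : ℝ) ^ 2) := by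
              field_simp
              norm_num
        nlinarith [sq_nonneg ‖f‖]
      have h6 : 2 * ε' ^ 2 = 1 / (32 * (N : ℝ) ^ 2) := by
        rw [hε']; field_simp; norm_num
      have h7 : (1 / (4 * (N : ℝ)) * ‖f‖) ^ 2 = 1 / (32 * (N : ℝ) ^ 2) * ‖f‖ ^ 2 +
          1 / (32 * (N : ℝ) ^ 2) * ‖f‖ ^ 2 := by
        field_simp; ring
      rw [h7]
      rw [h6] at h1
      linarith
    exact (pow_le_pow_iff_left₀ (norm_nonneg _) (by positivity) two_ne_zero).1 h2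
  have hsq : Real.sqrt (2 * ε) ≤ 1 / (8 * (N : ℝ) ^ 2) := by
    rw [show (1 / (8 * (N : ℝ) ^ 2)) = Real.sqrt ((1 / (8 * (N : ℝ) ^ 2)) ^ 2) by
      rw [Real.sqrt_sq (by positivity)]]
    refine Real.sqrt_le_sqrt ?_
    calc 2 * ε ≤ 2 * (1 / (128 * (N : ℝ) ^ 4)) := by gcongr
      _ = (1 / (8 * (N : ℝ) ^ 2)) ^ 2 := by field_simp; norm_num
  have hconj : ∀ x ∈ (List.finRange d).map (fun i => w i * h i * (w i)⁻¹),
      ‖lreg μ x f - f‖ ≤ 1 / (2 * N) * ‖f‖ := by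
    intro x hx
    obtain ⟨i, -, rfl⟩ := List.mem_map.1 hx
    have hwN : Wd (S : Set G) N (w i) := (hw i).mono (by omega)
    refine (conj_near (lreg μ) S hσ hε0.le hdf hS hwN (h i)).trans ?_
    have h1 : 2 * (N : ℝ) * (Real.sqrt (2 * ε) * ‖f‖) ≤ 2 * N * (1 / (8 * (N : ℝ) ^ 2) * ‖f‖) := by
      gcongr
    have h2 : 2 * (N : ℝ) * (1 / (8 * (N : ℝ) ^ 2) * ‖f‖) = 1 / (4 * N) * ‖f‖ := by
      field_simp; ring
    have h3 : 1 / (2 * (N : ℝ)) * ‖f‖ = 1 / (4 * N) * ‖f‖ + 1 / (4 * N) * ‖f‖ := by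
      field_simp; ring
    rw [h3]
    linarith [hsmall i]
  refine (prod_near_rep (lreg μ) _ hconj).trans ?_
  rw [List.length_map, List.length_finRange]
  have hdN : (d : ℝ) ≤ N := by
    have : d ≤ N := by omega
    exact_mod_cast this
  calc (d : ℝ) * (1 / (2 * N) * ‖f‖) ≤ N * (1 / (2 * N) * ‖f‖) := by gcongr
    _ = 1 / 2 * ‖f‖ := by field_simp

end main

end

end Run7.h421
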