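import Pool.Agent.Run7.h421.LieC

/-!
# Elements of a finite unitary group which are close to the identity commute
-/

set_option autoImplicit false
set_option linter.unusedSectionVars false

namespace Run7.h421

open Set Filter Topology Matrix
open scoped Matrix.Norms.L2Operator

noncomputable section

/-- unitary units -/
def Un {r : ℕ} (u : (Mt r)ˣ) : Prop := (u⁻¹ : (Mt r)ˣ).val = (u : Mt r)ᴴ

lemma Un.mem {r : ℕ} {u : (Mt r)ˣ} (hu : Un u) : (u : Mt r) ∈ unitary (Mt r) := by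
  have h : star (u : Mt r) = (u⁻¹ : (Mt r)ˣ).val := by rw [hu]; rfl
  rw [Unitary.mem_iff, h]
  exact ⟨Units.inv_mul u, Units.mul_inv u⟩

lemma Un.mul {r : ℕ} {u v : (Mt r)ˣ} (hu : Un u) (hv : Un v) : Un (u * v) := by
  unfold Un at *
  rw [_root_.mul_inv_rev, Units.val_mul, Units.val_mul, conjTranspose_mul, hu, hv]

lemma Un.inv {r : ℕ} {u : (Mt r)ˣ} (hu : Un u) : Un u⁻¹ := by
  unfold Un at *
  rw [inv_inv, hu, conjTranspose_conjTranspose]

lemma norm_un_mul {r : ℕ} {u : (Mt r)ˣ} (hu : Un u) (x : Mt r) : ‖(u : Mt r) * x‖ = ‖x‖ :=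
  CStarRing.norm_mem_unitary_mul x hu.mem

lemma norm_mul_un {r : ℕ} {u : (Mt r)ˣ} (hu : Un u) (x : Mt r) : ‖x * (u : Mt r)‖ = ‖x‖ :=
  CStarRing.norm_mul_mem_unitary x hu.mem

lemma norm_comm_le {r : ℕ} {a b : (Mt r)ˣ} (ha : Un a) (hb : Un b) :
    ‖((a * b * a⁻¹ * b⁻¹ : (Mt r)ˣ) : Mt r) - 1‖ ≤ 2 * ‖(a : Mt r) - 1‖ * ‖(b : Mt r) - 1‖ := by
  have h1 : ((a * b * a⁻¹ * b⁻¹ : (Mt r)ˣ) : Mt r) - 1 =
      ((a : Mt r) * b - b * a) * ((a⁻¹ * b⁻¹ : (Mt r)ˣ) : Mt r) := by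
    rw [sub_mul, ← Units.val_mul, ← Units.val_mul, ← Units.val_mul, ← Units.val_mul]
    have e1 : a * b * (a⁻¹ * b⁻¹) = a * b * a⁻¹ * b⁻¹ := by group
    have e2 : b * a * (a⁻¹ * b⁻¹) = 1 := by group
    rw [e1, e2, Units.val_one]
  rw [h1, norm_mul_un (ha.inv.mul hb.inv)]
  have h3 : (a : Mt r) * b - b * a =
      ((a : Mt r) - 1) * ((b : Mt r) - 1) - ((b : Mt r) - 1) * ((a : Mt r) - 1) := by
    noncomm_ring
  rw [h3]
  refine (norm_sub_le _ _).trans ?_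
  have h4 := norm_mul_le ((a : Mt r) - 1) ((b : Mt r) - 1)
  have h5 := norm_mul_le ((b : Mt r) - 1) ((a : Mt r) - 1)
  nlinarith

lemma tr_bound {r : ℕ} (Z γ : Mt r) {ε : ℝ} (hγ : ∀ i j, ‖γ i j‖ ≤ ε) :
    ‖((Zᴴ * Z) * γ).trace‖ ≤ ε * r * ((Zᴴ * Z).trace).re := by
  have h1 : ((Zᴴ * Z) * γ).trace = ∑ i, ∑ j, ∑ k, star (Z k i) * Z k j * γ j i := by
    simp only [trace, diag_apply, mul_apply, conjTranspose_apply]
    refine Finset.sum_congr rfl fun i _ => Finset.sum_congr rfl fun j _ => ?_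
    rw [Finset.sum_mul]
  have h2 : ((Zᴴ * Z).trace).re = ∑ i, ∑ k, ‖Z k i‖ ^ 2 := by
    simp only [trace, diag_apply, mul_apply, conjTranspose_apply, Complex.re_sum]
    refine Finset.sum_congr rfl fun i _ => Finset.sum_congr rfl fun k _ => ?_
    rw [← Complex.normSq_eq_norm_sq, Complex.normSq_apply]
    simp
  rw [h1, h2]
  calc ‖∑ i, ∑ j, ∑ k, star (Z k i) * Z k j * γ j i‖
      ≤ ∑ i, ∑ j, ∑ k, ‖star (Z k i) * Z k j * γ j i‖ := by
        refine (norm_sum_le _ _).trans (Finset.sum_le_sum fun i _ => ?_)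
        refine (norm_sum_le _ _).trans (Finset.sum_le_sum fun j _ => ?_)
        exact norm_sum_le _ _
    _ ≤ ∑ i : Fin r, ∑ j : Fin r, ∑ k, (ε / 2 * ‖Z k i‖ ^ 2 + ε / 2 * ‖Z k j‖ ^ 2) := by
        refine Finset.sum_le_sum fun i _ => Finset.sum_le_sum fun j _ =>
          Finset.sum_le_sum fun k _ => ?_
        rw [norm_mul, norm_mul, norm_star]
        have h3 := hγ j i
        have h4 : 0 ≤ ‖Z k i‖ * ‖Z k j‖ := by positivity
        have h5 : 0 ≤ ε := (norm_nonneg _).trans h3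
        have h6 : ‖Z k i‖ * ‖Z k j‖ * ‖γ j i‖ ≤ ‖Z k i‖ * ‖Z k j‖ * ε :=
          mul_le_mul_of_nonneg_left h3 h4
        nlinarith [sq_nonneg (‖Z k i‖ - ‖Z k j‖)]
    _ = ε * r * ∑ i, ∑ k, ‖Z k i‖ ^ 2 := by
        simp only [Finset.sum_add_distrib, ← Finset.mul_sum, Finset.sum_const, Finset.card_univ,
          Fintype.card_fin, nsmul_eq_mul]
        ring

lemma frob (r : ℕ) : ∃ δ > 0, ∀ a b : (Mt r)ˣ, Un a → Un b →
    ‖((b * a : (Mt r)ˣ) : Mt r) - 1‖ < δ →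
    (a * b * a⁻¹ * b⁻¹) * a = a * (a * b * a⁻¹ * b⁻¹) → a * b * a⁻¹ * b⁻¹ = 1 := by
  -- small norm implies small entries
  obtain ⟨δ, hδ, hent⟩ : ∃ δ > 0, ∀ γ : Mt r, ‖γ‖ < δ → ∀ i j, ‖γ i j‖ ≤ 1 / ((r : ℝ) + 1) := by
    have h1 : ∀ᶠ γ : Mt r in 𝓝 0, ∀ i j, ‖γ i j‖ < 1 / ((r : ℝ) + 1) := by
      rw [eventually_all]
      intro i
      rw [eventually_all]
      intro j
      have hc : Continuous fun γ : Mt r => ‖γ i j‖ := by fun_prop
      have h2 := hc.tendsto 0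
      simp only [Matrix.zero_apply, norm_zero] at h2
      exact h2.eventually (gt_mem_nhds (by positivity))
    obtain ⟨δ, hδ, h2⟩ := Metric.eventually_nhds_iff_ball.1 h1
    exact ⟨δ, hδ, fun γ hγ i j => (h2 γ (by rwa [mem_ball_zero_iff]) i j).le⟩
  refine ⟨δ, hδ, fun a b ha hb hba hcomm => ?_⟩
  set c := a * b * a⁻¹ * b⁻¹ with hc
  have hcu : Un c := ((ha.mul hb).mul ha.inv).mul hb.inv
  set Z : Mt r := (c : Mt r) - 1 with hZ
  have hZH : Zᴴ = ((c⁻¹ : (Mt r)ˣ) : Mt r) - 1 := by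
    rw [hZ, conjTranspose_sub, conjTranspose_one, ← hcu]
  have hcomm' : c⁻¹ * a = a * c⁻¹ := by
    have : c * a * c⁻¹ = a := by rw [hcomm]; group
    calc c⁻¹ * a = c⁻¹ * (c * a * c⁻¹) := by rw [this]
      _ = a * c⁻¹ := by group
  have h1 : Zᴴ * (a : Mt r) = a * Zᴴ := by
    rw [hZH, sub_mul, mul_sub, ← Units.val_mul, ← Units.val_mul, hcomm', one_mul, mul_one]
  have h2 : Z * ((b * a : (Mt r)ˣ) : Mt r) = (a : Mt r) * b - b * a := by
    rw [hZ, sub_mul, one_mul, ← Units.val_mul]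
    have : c * (b * a) = a * b := by rw [hc]; group
    rw [this, Units.val_mul, Units.val_mul]
  have h3 : (Zᴴ * (Z * ((b * a : (Mt r)ˣ) : Mt r))).trace = 0 := by
    rw [h2, mul_sub, trace_sub]
    have h4 : (Zᴴ * ((b : Mt r) * a)).trace = (Zᴴ * ((a : Mt r) * b)).trace := by
      rw [← Matrix.mul_assoc, Matrix.trace_mul_comm, ← Matrix.mul_assoc, ← h1, Matrix.mul_assoc]
    rw [h4, sub_self]
  set γ : Mt r := ((b * a : (Mt r)ˣ) : Mt r) - 1 with hγ
  have h4 : (Zᴴ * Z).trace = - (Zᴴ * Z * γ).trace := by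
    have : Zᴴ * (Z * ((b * a : (Mt r)ˣ) : Mt r)) = Zᴴ * Z * γ + Zᴴ * Z := by
      rw [hγ, Matrix.mul_sub, Matrix.mul_one, Matrix.mul_assoc]
      abel
    rw [this, trace_add] at h3
    exact eq_neg_of_add_eq_zero_right h3
  have h5 := tr_bound Z γ (hent γ hba)
  have h6 : ((Zᴴ * Z).trace).re ≤ ‖(Zᴴ * Z * γ).trace‖ := by
    rw [h4]
    exact (Complex.re_le_norm _).trans (by rw [norm_neg])
  have h7 : (1 / ((r : ℝ) + 1) * r) < 1 := by
    rw [div_mul_eq_mul_div, one_mul, div_lt_one (by positivity)]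
    linarith
  have h8 : trf r Z Z = 0 := by
    rw [trf_apply]
    have h9 : 0 ≤ ((Zᴴ * Z).trace).re := by
      have h2 : ((Zᴴ * Z).trace).re = ∑ i, ∑ k, ‖Z k i‖ ^ 2 := by
        simp only [trace, diag_apply, mul_apply, conjTranspose_apply, Complex.re_sum]
        refine Finset.sum_congr rfl fun i _ => Finset.sum_congr rfl fun k _ => ?_
        rw [← Complex.normSq_eq_norm_sq, Complex.normSq_apply]
        simp
      rw [h2]
      exact Finset.sum_nonneg fun i _ => Finset.sum_nonneg fun k _ => by positivity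
    nlinarith
  have h9 : Z = 0 := trf_self h8
  ext1
  rw [Units.val_one]
  exact sub_eq_zero.1 h9

/-- Small elements of a finite unitary group commute. -/
theorem zass (r : ℕ) : ∃ δ > 0, ∀ F : Subgroup (Mt r)ˣ, (F : Set (Mt r)ˣ).Finite →
    (∀ u ∈ F, Un u) → ∀ a ∈ F, ∀ b ∈ F, ‖(a : Mt r) - 1‖ < δ → ‖(b : Mt r) - 1‖ < δ →
    a * b = b * a := by
  obtain ⟨δ₁, hδ₁, hfrob⟩ := frob r
  refine ⟨min (δ₁ / 2) (1 / 4), lt_min (by positivity) (by norm_num), ?_⟩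
  intro F hF hun a ha b hb ha1 hb1
  have ha2 : ‖(a : Mt r) - 1‖ < δ₁ / 2 := ha1.trans_le (min_le_left _ _)
  have ha3 : ‖(a : Mt r) - 1‖ < 1 / 4 := ha1.trans_le (min_le_right _ _)
  have hb2 : ‖(b : Mt r) - 1‖ < δ₁ / 2 := hb1.trans_le (min_le_left _ _)
  obtain ⟨s, hs0, hs1⟩ : ∃ s : ℕ → (Mt r)ˣ, s 0 = b ∧
      ∀ n, s (n + 1) = a * s n * a⁻¹ * (s n)⁻¹ :=
    ⟨fun n => Nat.rec (motive := fun _ => (Mt r)ˣ) b (fun _ x => a * x * a⁻¹ * x⁻¹) n, rfl,
      fun _ => rfl⟩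
  have hsF : ∀ n, s n ∈ F := by
    intro n
    induction n with
    | zero => rw [hs0]; exact hb
    | succ n ih =>
      rw [hs1]
      exact F.mul_mem (F.mul_mem (F.mul_mem ha ih) (F.inv_mem ha)) (F.inv_mem ih)
  have hsn : ∀ n, ‖((s n : (Mt r)ˣ) : Mt r) - 1‖ ≤ (1 / 2) ^ n * ‖(b : Mt r) - 1‖ := by
    intro n
    induction n with
    | zero => simp [hs0]
    | succ n ih =>
      rw [hs1]
      refine (norm_comm_le (hun a ha) (hun _ (hsF n))).trans ?_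
      have h1 : 2 * ‖(a : Mt r) - 1‖ ≤ 1 / 2 := by linarith
      calc 2 * ‖(a : Mt r) - 1‖ * ‖((s n : (Mt r)ˣ) : Mt r) - 1‖ ≤ 1 / 2 * ((1 / 2) ^ n * ‖(b : Mt r) - 1‖) :=
            mul_le_mul h1 ih (norm_nonneg _) (by norm_num)
        _ = (1 / 2) ^ (n + 1) * ‖(b : Mt r) - 1‖ := by ring
  have hsle : ∀ n, ‖((s n : (Mt r)ˣ) : Mt r) - 1‖ ≤ ‖(b : Mt r) - 1‖ := by
    intro n
    refine (hsn n).trans ?_
    have h1 : ((1 : ℝ) / 2) ^ n ≤ 1 := pow_le_one₀ (by norm_num) (by norm_num)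
    nlinarith [norm_nonneg ((b : Mt r) - 1)]
  -- the sequence reaches `1`
  have hex : ∃ n, s n = 1 := by
    by_contra hcon
    push Not at hcon
    have h1 : Tendsto (fun n => ‖((s n : (Mt r)ˣ) : Mt r) - 1‖) atTop (𝓝 0) := by
      have h2 : Tendsto (fun n : ℕ => ((1 : ℝ) / 2) ^ n * ‖(b : Mt r) - 1‖) atTop (𝓝 0) := by
        have := (tendsto_pow_atTop_nhds_zero_of_lt_one (r := (1 / 2 : ℝ)) (by norm_num)
          (by norm_num)).mul_const ‖(b : Mt r) - 1‖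
        rwa [zero_mul] at this
      exact squeeze_zero (fun n => norm_nonneg _) hsn h2
    have hfin : ((F : Set (Mt r)ˣ) \ {1}).Finite := hF.subset diff_subset
    have hne : ((F : Set (Mt r)ˣ) \ {1}).Nonempty := ⟨s 0, hsF 0, hcon 0⟩
    obtain ⟨x, hx, hmin⟩ := exists_min_image _ (fun x : (Mt r)ˣ => ‖(x : Mt r) - 1‖) hfin hne
    have hxpos : 0 < ‖(x : Mt r) - 1‖ := by
      rw [norm_pos_iff, sub_ne_zero]
      intro h
      exact hx.2 (Units.ext h)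
    obtain ⟨n, hn⟩ := (h1.eventually (gt_mem_nhds hxpos)).exists
    have := hmin (s n) ⟨hsF n, hcon n⟩
    linarith
  have hdown : ∀ n, s (n + 1) = 1 → s 1 = 1 := by
    intro n
    induction n with
    | zero => exact id
    | succ n ih =>
      intro h
      apply ih
      rw [hs1 (n + 1)] at h
      rw [hs1 n]
      have hba : ‖((s n * a : (Mt r)ˣ) : Mt r) - 1‖ < δ₁ := by
        have h2 : ((s n * a : (Mt r)ˣ) : Mt r) - 1 =
            (((s n : (Mt r)ˣ) : Mt r) - 1) * a + ((a : Mt r) - 1) := by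
          rw [Units.val_mul, sub_mul, one_mul]
          abel
        rw [h2]
        refine (norm_add_le _ _).trans_lt ?_
        rw [norm_mul_un (hun a ha)]
        linarith [hsle n]
      refine hfrob a (s n) (hun a ha) (hun _ (hsF n)) hba ?_
      rw [← hs1]
      have h3 : a * s (n + 1) * a⁻¹ = s (n + 1) := mul_inv_eq_one.1 h
      have h4 : a * s (n + 1) = s (n + 1) * a := by
        rw [mul_inv_eq_iff_eq_mul] at h3
        exact h3
      exact h4.symm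
  have h1 : s 1 = 1 := by
    obtain ⟨n, hn⟩ := hex
    cases n with
    | zero =>
      have h2 := hs1 0
      rw [hn, zero_add] at h2
      rw [h2]
      group
    | succ n => exact hdown n hn
  have h0 := hs1 0
  rw [zero_add, h1, hs0] at h0
  have h1 := h0.symm
  have h2 : a * b * a⁻¹ = b := mul_inv_eq_one.1 h1
  rw [mul_inv_eq_iff_eq_mul] at h2
  exact h2

end

end Run7.h421
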