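import Pool.Agent.Run7.h421.LieG
import Pool.Agent.Run7.h421.Zas
import Pool.Agent.Run7.h421.ThmC

/-!
# The adjoint algebra, and a criterion for a pair to generate a dense subgroup
-/

set_option autoImplicit false
set_option linter.unusedSectionVars false

namespace Run7.h421

open Set Filter Topology Matrix
open scoped Matrix.Norms.L2Operator
open Pool.Agent.E8helper46.FL

noncomputable section

variable {G : Type*} [TopologicalSpace G] [Group G] [IsTopologicalGroup G] [CompactSpace G]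
  [T2Space G] {r : ℕ} {ρ : G →* (Mt r)ˣ} (hρ : IsFRep ρ)

/-- The adjoint representation on the Lie algebra. -/
def Adg : G →* Module.End ℝ (lieT hρ) where
  toFun g := (adj ρ g).restrict (fun X hX => by
    rw [adj_apply]; exact lie_conj hρ hX (Subgroup.mem_top g))
  map_one' := by
    ext1 X
    apply Subtype.ext
    show adj ρ 1 (X : Mt r) = X
    rw [map_one]; rfl
  map_mul' g h := by
    ext1 X
    apply Subtype.ext
    show adj ρ (g * h) (X : Mt r) = adj ρ g (adj ρ h (X : Mt r))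
    rw [map_mul]; rfl

lemma Adg_coe (g : G) (X : lieT hρ) :
    ((Adg hρ g X : lieT hρ) : Mt r) = (ρ g : Mt r) * X * ((ρ g)⁻¹ : (Mt r)ˣ) := adj_apply g _

lemma Adg_congr {g h : G} (e : ρ g = ρ h) : Adg hρ g = Adg hρ h := by
  ext1 X
  apply Subtype.ext
  rw [Adg_coe, Adg_coe, e]

lemma Adg_cont (X : lieT hρ) : Continuous fun g => Adg hρ g X :=
  Continuous.subtype_mk (adj_cont hρ (X : Mt r)) _

lemma Adg_functional (φ : Module.End ℝ (lieT hρ) →ₗ[ℝ] ℝ) : Continuous fun g => φ (Adg hρ g) := by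
  let b := Module.finBasis ℝ (lieT hρ)
  let ψ : Fin (Module.finrank ℝ (lieT hρ)) → (lieT hρ →ₗ[ℝ] ℝ) := fun j =>
    φ.comp (LinearMap.smulRightₗ (b.coord j))
  have h1 : ∀ T : Module.End ℝ (lieT hρ), φ T = ∑ j, ψ j (T (b j)) := by
    intro T
    have h2 : T = ∑ j, LinearMap.smulRightₗ (b.coord j) (T (b j)) := by
      refine b.ext fun i => ?_
      rw [LinearMap.sum_apply]
      simp only [LinearMap.smulRightₗ_apply, LinearMap.smulRight_apply, Module.Basis.coord_apply,
        Module.Basis.repr_self]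
      rw [Finset.sum_eq_single i]
      · simp
      · intro j _ hj
        rw [Finsupp.single_eq_of_ne hj, zero_smul]
      · intro h; exact absurd (Finset.mem_univ i) h
    conv_lhs => rw [h2]
    rw [map_sum]
    rfl
  simp_rw [h1]
  refine continuous_finsetSum _ fun j _ => ?_
  exact ((ψ j).continuous_of_finiteDimensional).comp (Adg_cont hρ (b j))

lemma Adg_closed (C : Submodule ℝ (Module.End ℝ (lieT hρ))) :
    IsClosed {g : G | Adg hρ g ∈ C} := by
  have h1 : {g : G | Adg hρ g ∈ C} = ⋂ φ ∈ C.dualAnnihilator, {g | φ (Adg hρ g) = 0} := by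
    ext g
    simp only [mem_setOf_eq, mem_iInter]
    exact (Subspace.forall_mem_dualAnnihilator_apply_eq_zero_iff C (Adg hρ g)).symm
  rw [h1]
  exact isClosed_biInter fun φ _ => isClosed_eq (Adg_functional hρ φ) continuous_const

/-- The inverse of an element of a finite-dimensional subalgebra. -/
lemma inv_mem_sub {W : Type*} [AddCommGroup W] [Module ℝ W] [FiniteDimensional ℝ W]
    (C : Subalgebra ℝ (Module.End ℝ W)) {T T' : Module.End ℝ W} (h1 : T' * T = 1)
    (hT : T ∈ C) : T' ∈ C := by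
  let L : (Subalgebra.toSubmodule C) →ₗ[ℝ] (Subalgebra.toSubmodule C) :=
    (LinearMap.mulLeft ℝ T).restrict (fun x hx => C.mul_mem hT hx)
  have hinj : Function.Injective L := by
    intro x y hxy
    have h2 : T * (x : Module.End ℝ W) = T * (y : Module.End ℝ W) := congrArg Subtype.val hxy
    have h3 : T' * (T * (x : Module.End ℝ W)) = T' * (T * (y : Module.End ℝ W)) := by rw [h2]
    rw [← mul_assoc, ← mul_assoc, h1, one_mul, one_mul] at h3
    exact Subtype.ext h3
  obtain ⟨y, hy⟩ := (LinearMap.injective_iff_surjective.1 hinj) ⟨1, C.one_mem⟩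
  have h2 : T * (y : Module.End ℝ W) = 1 := congrArg Subtype.val hy
  have h3 : T' = y := by
    calc T' = T' * (T * (y : Module.End ℝ W)) := by rw [h2, mul_one]
      _ = y := by rw [← mul_assoc, h1, one_mul]
  rw [h3]
  exact y.2

/-- The group of elements whose adjoint lies in a subalgebra. -/
def HC (C : Subalgebra ℝ (Module.End ℝ (lieT hρ))) : Subgroup G where
  carrier := {g | Adg hρ g ∈ C}
  one_mem' := by
    show Adg hρ 1 ∈ C
    rw [map_one]; exact C.one_mem
  mul_mem' := by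
    intro a b ha hb
    show Adg hρ (a * b) ∈ C
    rw [map_mul]
    exact C.mul_mem ha hb
  inv_mem' := by
    intro a ha
    show Adg hρ a⁻¹ ∈ C
    refine inv_mem_sub C (T := Adg hρ a) ?_ ha
    rw [← map_mul, inv_mul_cancel, map_one]

lemma mem_HC {C : Subalgebra ℝ (Module.End ℝ (lieT hρ))} {g : G} :
    g ∈ HC hρ C ↔ Adg hρ g ∈ C := Iff.rfl

lemma HC_closed (C : Subalgebra ℝ (Module.End ℝ (lieT hρ))) : IsClosed (HC hρ C : Set G) :=
  Adg_closed hρ (Subalgebra.toSubmodule C)

variable [ConnectedSpace G] (hG : Simp G)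

include hG

/-- The adjoint group is not commutative. -/
lemma noncomm (h : ∀ g k : G, Adg hρ g * Adg hρ k = Adg hρ k * Adg hρ g) : False := by
  have hcl : IsClosed (((Adg hρ).ker : Subgroup G) : Set G) := by
    have h1 : (((Adg hρ).ker : Subgroup G) : Set G) = {g | Adg hρ g ∈ (Submodule.span ℝ {1})} ∩
        ⋂ X : lieT hρ, {g | Adg hρ g X = X} := by
      ext g
      simp only [SetLike.mem_coe, MonoidHom.mem_ker, mem_inter_iff, mem_setOf_eq, mem_iInter]
      constructor
      · intro h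
        refine ⟨by rw [h]; exact Submodule.subset_span rfl, fun X => by rw [h]; rfl⟩
      · rintro ⟨-, h⟩
        ext1 X
        exact h X
    rw [h1]
    exact (Adg_closed hρ _).inter (isClosed_iInter fun X => isClosed_eq (Adg_cont hρ X)
      continuous_const)
  obtain ⟨a, b, hab⟩ := hG.nonab
  rcases hG.norm (Adg hρ).ker inferInstance hcl with hf | ht
  · apply hab
    haveI : Finite (Adg hρ).ker := hf
    let f : G → (Adg hρ).ker := fun k => ⟨a * k * a⁻¹ * k⁻¹, by
      rw [MonoidHom.mem_ker, map_mul, map_mul, map_mul, h a k, mul_assoc (Adg hρ k),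
        ← map_mul (Adg hρ) a, mul_inv_cancel, map_one, mul_one, ← map_mul, mul_inv_cancel,
        map_one]⟩
    have hfc : Continuous f := Continuous.subtype_mk (by fun_prop) _
    have h1 : f b = f 1 := PreconnectedSpace.constant inferInstance hfc
    have h2 : a * b * a⁻¹ * b⁻¹ = a * 1 * a⁻¹ * 1⁻¹ := congrArg Subtype.val h1
    simp only [mul_one, mul_inv_cancel, inv_one] at h2
    exact mul_inv_eq_iff_eq_mul.1 (mul_inv_eq_one.1 h2)
  · have hbot : lieT hρ = ⊥ := by
      rw [Submodule.eq_bot_iff]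
      intro X hX
      refine no_center hρ hG hX fun g => ?_
      have hg : g ∈ (Adg hρ).ker := by rw [ht]; trivial
      have h1 : Adg hρ g ⟨X, hX⟩ = ⟨X, hX⟩ := by rw [MonoidHom.mem_ker.1 hg]; rfl
      have h2 : (ρ g : Mt r) * X * ((ρ g)⁻¹ : (Mt r)ˣ) = X := by
        have := congrArg Subtype.val h1
        rwa [Adg_coe] at this
      calc (ρ g : Mt r) * X = (ρ g : Mt r) * X * (((ρ g)⁻¹ : (Mt r)ˣ) * (ρ g : Mt r)) := by
            rw [Units.inv_mul, Matrix.mul_one]
        _ = (ρ g : Mt r) * X * ((ρ g)⁻¹ : (Mt r)ˣ) * (ρ g : Mt r) := by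
            simp only [Matrix.mul_assoc]
        _ = X * (ρ g : Mt r) := by rw [h2]
    have hfin := finite_of_lie_eq_bot hρ hbot
    haveI : Finite G := by
      rw [Subgroup.coe_top] at hfin
      exact finite_univ_iff.1 hfin
    have h1 : a = b := by
      have : (id : G → G) a = id b := PreconnectedSpace.constant inferInstance continuous_id
      exact this
    exact hab (by rw [h1])

lemma Adg_ne_one_of {a b : G} (hgen : ∀ g, Adg hρ g ∈ Algebra.adjoin ℝ {Adg hρ a, Adg hρ b})
    (hc : Adg hρ a * Adg hρ b = Adg hρ b * Adg hρ a) : False := by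
  refine noncomm hρ hG fun g k => ?_
  have hcomm : ∀ x ∈ ({Adg hρ a, Adg hρ b} : Set (Module.End ℝ (lieT hρ))),
      ∀ y ∈ ({Adg hρ a, Adg hρ b} : Set (Module.End ℝ (lieT hρ))), x * y = y * x := by
    intro x hx y hy
    rcases hx with rfl | rfl <;> rcases hy with rfl | rfl
    · rfl
    · exact hc
    · exact hc.symm
    · rfl
  refine Algebra.commute_of_mem_adjoin_of_forall_mem_commute (hgen k) fun y hy => ?_
  refine (Algebra.commute_of_mem_adjoin_of_forall_mem_commute (hgen g) fun x hx => ?_).symm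
  exact hcomm y hy x hx

/-- A criterion for a pair of small elements to generate a dense subgroup. -/
theorem dense_of_gen : ∃ δ > 0, ∀ a b : G, ‖(ρ a : Mt r) - 1‖ < δ → ‖(ρ b : Mt r) - 1‖ < δ →
    (∀ g, Adg hρ g ∈ Algebra.adjoin ℝ {Adg hρ a, Adg hρ b}) →
    Dense ((Subgroup.closure {a, b} : Subgroup G) : Set G) := by
  obtain ⟨δ, hδ, hz⟩ := zass r
  refine ⟨δ, hδ, fun a b ha hb hgen => ?_⟩
  set H : Subgroup G := (Subgroup.closure {a, b}).topologicalClosure with hHd
  have hH : IsClosed (H : Set G) := Subgroup.isClosed_topologicalClosure _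
  have haH : a ∈ H := Subgroup.le_topologicalClosure _ (Subgroup.subset_closure (by simp))
  have hbH : b ∈ H := Subgroup.le_topologicalClosure _ (Subgroup.subset_closure (by simp))
  -- the Lie algebra of `H` is invariant under everything
  have hinv : ∀ g : G, ∀ X ∈ lie hρ H hH, (ρ g : Mt r) * X * ((ρ g)⁻¹ : (Mt r)ˣ) ∈ lie hρ H hH := by
    let A : Subalgebra ℝ (Module.End ℝ (lieT hρ)) :=
      { carrier := {T | ∀ X : lieT hρ, (X : Mt r) ∈ lie hρ H hH → ((T X : lieT hρ) : Mt r) ∈ lie hρ H hH}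
        mul_mem' := fun hS hT X hX => hS _ (hT X hX)
        add_mem' := fun hS hT X hX => (lie hρ H hH).add_mem (hS X hX) (hT X hX)
        algebraMap_mem' := fun c X hX => (lie hρ H hH).smul_mem c hX }
    have hle : Algebra.adjoin ℝ {Adg hρ a, Adg hρ b} ≤ A := by
      refine Algebra.adjoin_le ?_
      rintro T (rfl | rfl) X hX
      · rw [Adg_coe]
        exact lie_conj hρ hX haH
      · rw [Adg_coe]
        exact lie_conj hρ hX hbH
    intro g X hX
    have hXT : X ∈ lieT hρ := lie_mono hρ le_top hX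
    have h1 := hle (hgen g) ⟨X, hXT⟩ hX
    rwa [Adg_coe] at h1
  have hle : lie hρ H hH ≤ lieT hρ := lie_mono hρ le_top
  rcases irred hρ hG hle hinv with h | h
  · exfalso
    have hfin := finite_of_lie_eq_bot hρ h
    have h1 : ρ a * ρ b = ρ b * ρ a := by
      refine hz (H.map ρ) ?_ ?_ (ρ a) ⟨a, haH, rfl⟩ (ρ b) ⟨b, hbH, rfl⟩ ha hb
      · rw [Subgroup.coe_map]
        exact hfin.image _
      · rintro _ ⟨g, -, rfl⟩
        exact hρ.unit g
    refine Adg_ne_one_of hρ hG hgen ?_
    rw [← map_mul, ← map_mul]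
    apply Adg_congr
    rw [map_mul, map_mul, h1]
  · have h1 := top_of_lie hρ h
    have h2 : ((Subgroup.closure {a, b}).topologicalClosure : Set G) = univ := by
      rw [← hHd, h1]; rfl
    rw [Subgroup.topologicalClosure_coe] at h2
    exact dense_iff_closure_eq.2 h2

/-- There are pairs all of whose small powers generate the adjoint algebra. -/
theorem exists_gen (M : ℕ) : ∃ x y : G, ∀ m m' : ℕ, 1 ≤ m → m ≤ M → 1 ≤ m' → m' ≤ M →
    ∀ g, Adg hρ g ∈ Algebra.adjoin ℝ {Adg hρ (x ^ m), Adg hρ (y ^ m')} := by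
  obtain ⟨X, hX, Y, hY, hXY⟩ := exists_pair hρ hG
  choose xs hxs using fun n : ℕ => exists_ex hρ hX ((1 / 2 : ℝ) ^ n)
  choose ys hys using fun n : ℕ => exists_ex hρ hY ((1 / 2 : ℝ) ^ n)
  -- the algebras
  let C : ℕ → ℕ → ℕ → Subalgebra ℝ (Module.End ℝ (lieT hρ)) := fun m m' n =>
    Algebra.adjoin ℝ {Adg hρ (xs n ^ m), Adg hρ (ys n ^ m')}
  have hsq : ∀ (Z : Mt r) (zs : ℕ → G), (∀ n, ρ (zs n) = ex (((1 / 2 : ℝ) ^ n) • Z)) → ∀ m n,
      Adg hρ (zs n ^ m) = Adg hρ (zs (n + 1) ^ m) * Adg hρ (zs (n + 1) ^ m) := by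
    intro Z zs hzs m n
    rw [← map_mul, ← pow_add]
    apply Adg_congr
    rw [map_pow, map_pow, hzs, hzs]
    have h1 : ((1 / 2 : ℝ) ^ n) • Z = ((1 / 2 : ℝ) ^ (n + 1)) • Z + ((1 / 2 : ℝ) ^ (n + 1)) • Z := by
      rw [← add_smul]
      congr 1
      rw [pow_succ]; ring
    rw [h1, ex_add (Commute.refl _), ← pow_two, ← pow_mul, two_mul]
  have hmono : ∀ m m', Monotone (C m m') := by
    intro m m'
    refine monotone_nat_of_le_succ fun n => ?_
    refine Algebra.adjoin_le ?_
    rintro T (rfl | rfl)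
    · rw [hsq X xs hxs]
      exact Subalgebra.mul_mem _ (Algebra.subset_adjoin (by simp)) (Algebra.subset_adjoin (by simp))
    · rw [hsq Y ys hys]
      exact Subalgebra.mul_mem _ (Algebra.subset_adjoin (by simp)) (Algebra.subset_adjoin (by simp))
  have key : ∀ m m', 1 ≤ m → 1 ≤ m' → ∃ n₀, ∀ g, Adg hρ g ∈ C m m' n₀ := by
    intro m m' hm hm'
    obtain ⟨n₀, hn₀⟩ := monotone_stabilizes_iff_noetherian.2
      (inferInstance : IsNoetherian ℝ (Module.End ℝ (lieT hρ)))
      ⟨fun n => Subalgebra.toSubmodule (C m m' n), fun a b hab => hmono m m' hab⟩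
    refine ⟨n₀, ?_⟩
    have hst : ∀ n, n₀ ≤ n → C m m' n ≤ C m m' n₀ := by
      intro n hn
      have h1 := hn₀ n hn
      exact (le_of_eq h1.symm : Subalgebra.toSubmodule (C m m' n) ≤ Subalgebra.toSubmodule (C m m' n₀))
    set H := HC hρ (C m m' n₀) with hHd
    have hH : IsClosed (H : Set G) := HC_closed hρ _
    have hgen : ∀ (Z : Mt r) (zs : ℕ → G), (∀ n, ρ (zs n) = ex (((1 / 2 : ℝ) ^ n) • Z)) →
        ∀ k, 1 ≤ k → (∀ n, n₀ ≤ n → zs n ^ k ∈ H) → Z ∈ lie hρ H hH := by
      intro Z zs hzs k hk hmem t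
      have hkp : (0 : ℝ) < k := by exact_mod_cast hk
      -- approximate `t`
      have h1 : Tendsto (fun n : ℕ => ((⌊t * 2 ^ n / k⌋ : ℤ) : ℝ) * (k * (1 / 2) ^ n)) atTop (𝓝 t) := by
        have h2 : Tendsto (fun n : ℕ => (k : ℝ) * (1 / 2) ^ n) atTop (𝓝 0) := by
          have := (tendsto_pow_atTop_nhds_zero_of_lt_one (r := (1 / 2 : ℝ)) (by norm_num)
            (by norm_num)).const_mul (k : ℝ)
          rwa [mul_zero] at this
        rw [tendsto_iff_norm_sub_tendsto_zero]
        refine squeeze_zero (fun n => norm_nonneg _) (fun n => ?_) h2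
        have h3 : t = (t * 2 ^ n / k) * (k * (1 / 2) ^ n) := by
          field_simp
          rw [mul_assoc, ← mul_pow]
          norm_num
        have h4 : ((⌊t * 2 ^ n / k⌋ : ℤ) : ℝ) * (k * (1 / 2) ^ n) - t =
            - (Int.fract (t * 2 ^ n / k)) * (k * (1 / 2) ^ n) := by
          nth_rewrite 2 [h3]
          rw [Int.fract]
          ring
        rw [h4, norm_mul, norm_neg, Real.norm_of_nonneg (Int.fract_nonneg _),
          Real.norm_of_nonneg (by positivity)]
        have h5 := (Int.fract_lt_one (t * 2 ^ n / k)).le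
        have h6 : 0 ≤ (k : ℝ) * (1 / 2) ^ n := by positivity
        nlinarith
      have hcl := closed_map hρ H hH
      have h2 : Tendsto (fun n : ℕ => ex ((((⌊t * 2 ^ n / k⌋ : ℤ) : ℝ) * (k * (1 / 2) ^ n)) • Z))
          atTop (𝓝 (ex (t • Z))) := by
        have hc : Continuous fun s : ℝ => ex (s • Z) := ex_cont.comp (by fun_prop)
        exact (hc.tendsto t).comp h1
      refine hcl.mem_of_tendsto h2 ?_
      filter_upwards [eventually_ge_atTop n₀] with n hn
      refine ⟨(zs n ^ k) ^ (⌊t * 2 ^ n / k⌋), H.zpow_mem (hmem n hn) _, ?_⟩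
      rw [map_zpow, map_pow, hzs, ← ex_nsmul]
      have h3 : ∀ (z : ℤ) (W : Mt r), ex ((z : ℝ) • W) = ex W ^ z := by
        intro z W
        cases z with
        | ofNat a =>
          rw [Int.ofNat_eq_natCast, Int.cast_natCast, zpow_natCast, Nat.cast_smul_eq_nsmul, ex_nsmul]
        | negSucc a =>
          rw [Int.cast_negSucc, zpow_negSucc, neg_smul, ex_neg, Nat.cast_smul_eq_nsmul, ex_nsmul]
      rw [← h3, ← Nat.cast_smul_eq_nsmul ℝ, smul_smul, smul_smul]
      congr 2
      ring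
    have hXH : X ∈ lie hρ H hH := hgen X xs hxs m hm fun n hn =>
      hst n hn (Algebra.subset_adjoin (by simp))
    have hYH : Y ∈ lie hρ H hH := hgen Y ys hys m' hm' fun n hn =>
      hst n hn (Algebra.subset_adjoin (by simp))
    have h1 := hXY (lie hρ H hH) (lie_mono hρ le_top) hXH hYH
      (fun a ha b hb => lie_bracket hρ ha hb)
    have h2 := top_of_lie hρ h1
    intro g
    have h3 : g ∈ H := by rw [h2]; trivial
    exact h3
  have hex : ∀ m m', ∃ n₀, 1 ≤ m → 1 ≤ m' → ∀ g, Adg hρ g ∈ C m m' n₀ := by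
    intro m m'
    by_cases h : 1 ≤ m ∧ 1 ≤ m'
    · obtain ⟨n₀, hn₀⟩ := key m m' h.1 h.2
      exact ⟨n₀, fun _ _ => hn₀⟩
    · exact ⟨0, fun h1 h2 => absurd ⟨h1, h2⟩ h⟩
  choose n₀ hn₀ using hex
  obtain ⟨n, hn⟩ : ∃ n, ∀ m ≤ M, ∀ m' ≤ M, n₀ m m' ≤ n := by
    refine ⟨(Finset.range (M + 1) ×ˢ Finset.range (M + 1)).sup fun p => n₀ p.1 p.2, ?_⟩
    intro m hm m' hm'
    exact Finset.le_sup (f := fun p : ℕ × ℕ => n₀ p.1 p.2) (b := (m, m'))
      (Finset.mem_product.2 ⟨Finset.mem_range.2 (by omega), Finset.mem_range.2 (by omega)⟩)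
  refine ⟨xs n, ys n, fun m m' hm hmM hm' hmM' g => ?_⟩
  exact hmono m m' (hn m hmM m' hmM') (hn₀ m m' hm hm' g)

end

end Run7.h421
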