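import Mathlib

/-!
Second derivatives of an almost transitive norm: definitions.
-/

set_option autoImplicit false

open Set Topology Filter Asymptotics

namespace Run7.h421.BM

/-- `E` is linearly isometric to a Hilbert space. -/
def IsHilbert (E : Type) [NormedAddCommGroup E] [NormedSpace ℝ E] : Prop :=
  ∃ (H : Type) (_ : NormedAddCommGroup H) (_ : InnerProductSpace ℝ H) (_ : CompleteSpace H),
    Nonempty (E ≃ₗᵢ[ℝ] H)

/-- The square of the norm has, at one point of the unit sphere, a second order Taylor expansion with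
remainder `o(‖w‖²)` uniformly in the direction (it is twice Fréchet differentiable there, in the sense
of Peano), with a positive definite second derivative. -/
def TaylorPoint (E : Type) [NormedAddCommGroup E] [NormedSpace ℝ E] : Prop :=
  ∃ (x : E) (f : E →L[ℝ] ℝ) (a : E →L[ℝ] E →L[ℝ] ℝ) (c : ℝ), ‖x‖ = 1 ∧ 0 < c ∧
    (∀ w, c * ‖w‖ ^ 2 ≤ a w w) ∧
    (fun w => ‖x + w‖ ^ 2 - 1 - f w - a w w) =o[𝓝 0] fun w => ‖w‖ ^ 2

/-- The functions `y ↦ ‖x + y‖²`, where `x` is a unit vector. -/
def funs (E : Type) [NormedAddCommGroup E] : Set (E → ℝ) :=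
  {g | ∃ x : E, ‖x‖ = 1 ∧ g = fun y => ‖x + y‖ ^ 2}

/-- The norm is stable in the sense of Krivine and Maurey: the iterated limits of `‖x n + y m‖` agree
whenever they exist, for bounded sequences. -/
def Stable (E : Type) [NormedAddCommGroup E] : Prop :=
  ∀ (x y : ℕ → E) (C : ℝ), (∀ n, ‖x n‖ ≤ C) → (∀ n, ‖y n‖ ≤ C) →
    ∀ (α β : ℕ → ℝ) (a b : ℝ), (∀ n, Tendsto (fun m => ‖x n + y m‖) atTop (𝓝 (α n))) →
      (∀ m, Tendsto (fun n => ‖x n + y m‖) atTop (𝓝 (β m))) →
      Tendsto α atTop (𝓝 a) → Tendsto β atTop (𝓝 b) → a = b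

/-- The space of the types over `E` realised by unit vectors (the limits of functions
`y ↦ ‖x + y‖²` in the topology of pointwise convergence) is separable for the uniform convergence on
bounded sets. -/
def SeparableTypes (E : Type) [NormedAddCommGroup E] : Prop :=
  ∀ r : ℝ, ∃ D : ℕ → E → ℝ, ∀ g ∈ closure (funs E), ∀ δ : ℝ, 0 < δ →
    ∃ k, ∀ y, ‖y‖ ≤ r → |g y - D k y| ≤ δ

end Run7.h421.BM
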