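import Pool.Agent.Run7.h658.QU.RN

/-!
A fixed point theorem (Ryll-Nardzewski) for groups acting on compact convex sets of functions, in the
topology of pointwise convergence, which are separable for uniform convergence on invariant sets.
-/

set_option autoImplicit false

open Set Topology

namespace Run7.h421.BM

section slice

variable {X : Type}

theorem isClosed_fball (Y : Set X) (a : X → ℝ) (δ : ℝ) :
    IsClosed {g : X → ℝ | ∀ y ∈ Y, |g y - a y| ≤ δ} := by
  simp only [setOf_forall]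
  refine isClosed_iInter fun y => isClosed_iInter fun _ => ?_
  exact isClosed_le ((continuous_apply y).sub continuous_const).abs continuous_const

theorem convex_fball (Y : Set X) (a : X → ℝ) (δ : ℝ) :
    Convex ℝ {g : X → ℝ | ∀ y ∈ Y, |g y - a y| ≤ δ} := by
  intro g hg g' hg' s t hs ht hst y hy
  have h1 := hg y hy
  have h2 := hg' y hy
  show |(s * g y + t * g' y) - a y| ≤ δ
  have e : (s * g y + t * g' y) - a y = s * (g y - a y) + t * (g' y - a y) := by
    have : a y = (s + t) * a y := by rw [hst, one_mul]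
    linear_combination -this
  rw [e]
  calc |s * (g y - a y) + t * (g' y - a y)| ≤ |s * (g y - a y)| + |t * (g' y - a y)| := abs_add_le _ _
    _ = s * |g y - a y| + t * |g' y - a y| := by rw [abs_mul, abs_mul, abs_of_nonneg hs,
        abs_of_nonneg ht]
    _ ≤ s * δ + t * δ := add_le_add (mul_le_mul_of_nonneg_left h1 hs)
        (mul_le_mul_of_nonneg_left h2 ht)
    _ = δ := by rw [← add_mul, hst, one_mul]

/-- Slices of small diameter. -/
theorem exists_slice {K : Set (X → ℝ)} (hK : IsCompact K) (hKc : Convex ℝ K)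
    (hKn : K.Nonempty) (Y : Set X) (D : ℕ → X → ℝ)
    (hD : ∀ x ∈ K, ∀ δ : ℝ, 0 < δ → ∃ n, ∀ y ∈ Y, |x y - D n y| ≤ δ) (M : ℝ) (hM0 : 0 ≤ M)
    (hM : ∀ x ∈ K, ∀ x' ∈ K, ∀ y ∈ Y, |x y - x' y| ≤ M)
    (ε : ℝ) (hε : 0 < ε) :
    ∃ (φ : StrongDual ℝ (X → ℝ)) (c : ℝ), (∃ x ∈ K, c < φ x) ∧
      ∀ x ∈ K, ∀ x' ∈ K, c < φ x → c < φ x' → ∀ y ∈ Y, |x y - x' y| ≤ ε := by
  classical
  set δ := ε / 4 with hδ
  have hδ0 : 0 < δ := by positivity
  let P : Set (X → ℝ) := closure (K.extremePoints ℝ)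
  have hPK : P ⊆ K := closure_minimal extremePoints_subset hK.isClosed
  have hPc : IsCompact P := hK.of_isClosed_subset isClosed_closure hPK
  have hPn : P.Nonempty := (hK.extremePoints_nonempty hKn).mono subset_closure
  have : CompactSpace P := isCompact_iff_compactSpace.1 hPc
  have : Nonempty P := hPn.to_subtype
  obtain ⟨n, ⟨p, hp⟩⟩ := nonempty_interior_of_iUnion_of_closed (X := P) (ι := ℕ)
    (f := fun n => {p : P | ∀ y ∈ Y, |(p : X → ℝ) y - D n y| ≤ δ})
    (fun n => (isClosed_fball Y (D n) δ).preimage continuous_subtype_val)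
    (by
      rw [eq_univ_iff_forall]
      intro p
      obtain ⟨n, hn⟩ := hD p (hPK p.2) δ hδ0
      exact mem_iUnion.2 ⟨n, hn⟩)
  obtain ⟨U, hU, hUo, hpU⟩ := mem_interior.1 hp
  obtain ⟨O, hO, rfl⟩ := isOpen_induced_iff.1 hUo
  obtain ⟨e, heO, he⟩ := mem_closure_iff.1 p.2 O hO hpU
  obtain ⟨C, hC1, hC2, hC3, hC4, hC5⟩ := Run7.h658.QU.milman hK hKc (B := P \ O) (hPc.diff hO)
    (sdiff_subset.trans hPK) he (fun h => h.2 heO)
  let K2 : Set (X → ℝ) := K ∩ {g | ∀ y ∈ Y, |g y - D n y| ≤ δ}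
  have hK2 : IsCompact K2 := hK.inter_right (isClosed_fball Y (D n) δ)
  have hK2c : Convex ℝ K2 := hKc.inter (convex_fball Y (D n) δ)
  have hP2 : ∀ x ∈ P, x ∈ O → x ∈ K2 := fun x hx hxO =>
    ⟨hPK hx, hU (show (⟨x, hx⟩ : P) ∈ _ from hxO)⟩
  have hK2n : K2.Nonempty := ⟨p, hP2 p p.2 hpU⟩
  -- the set is in the join
  have hjoin : ∀ x ∈ K, ∃ b ∈ K2, ∃ s : ℝ, 0 ≤ s ∧ s ≤ 1 ∧ ∃ a ∈ K,
      (s ≠ 0 → a ∈ C) ∧ x = s • a + (1 - s) • b := by
    intro x hx
    rcases C.eq_empty_or_nonempty with h0 | h0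
    · have h1 : K ⊆ K2 := by
        rw [← closure_convexHull_extremePoints hK hKc]
        refine closure_minimal (convexHull_min (fun y hy => ?_) hK2c) hK2.isClosed
        refine hP2 y (subset_closure hy) ?_
        by_contra hyO
        have := hC3 ⟨subset_closure hy, hyO⟩
        rw [h0] at this
        exact this
      exact ⟨x, h1 hx, 0, le_rfl, zero_le_one, x, hx, fun h => absurd rfl h, by simp⟩
    · have h1 : K ⊆ convexJoin ℝ C K2 := by
        rw [← closure_convexHull_extremePoints hK hKc]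
        refine closure_minimal (convexHull_min (fun y hy => ?_) (hC2.convexJoin hK2c))
          (Run7.h658.QU.isCompact_convexJoin hC1 hK2).isClosed
        by_cases hyO : y ∈ O
        · exact subset_convexJoin_right h0 (hP2 y (subset_closure hy) hyO)
        · exact subset_convexJoin_left hK2n (hC3 ⟨subset_closure hy, hyO⟩)
      obtain ⟨a, ha, b, hb, hx⟩ := mem_convexJoin.1 (h1 hx)
      obtain ⟨s, t, hs, ht, hst, rfl⟩ := hx
      refine ⟨b, hb, s, hs, by linarith, a, hC4 ha, fun _ => ha, ?_⟩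
      rw [← hst]
      congr 2
      ring
  obtain ⟨φ, u, hφC, hφe⟩ := geometric_hahn_banach_closed_point hC2 hC1.isClosed hC5
  obtain ⟨z, hzK, hz⟩ := hK.exists_isMaxOn hKn φ.continuous.continuousOn
  have hz' : ∀ x ∈ K, φ x ≤ φ z := fun x hx => hz hx
  have hum : u < φ z := hφe.trans_le (hz' e he.1)
  -- the level
  let c : ℝ := φ z - (φ z - u) * (δ / (M + δ))
  have hMδ : 0 < M + δ := by linarith
  have hc1 : c < φ z := by
    have : 0 < (φ z - u) * (δ / (M + δ)) := mul_pos (by linarith) (by positivity)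
    simp only [c]
    linarith
  have key : ∀ x ∈ K, c < φ x → ∀ y ∈ Y, |x y - D n y| ≤ 2 * δ := by
    intro x hx hcx y hy
    obtain ⟨b, hb, s, hs0, hs1, a, ha, haC, hxab⟩ := hjoin x hx
    have h1 : |x y - b y| ≤ δ := by
      have e1 : x y - b y = s * (a y - b y) := by
        rw [hxab]
        show (s * a y + (1 - s) * b y) - b y = _
        ring
      rw [e1, abs_mul, abs_of_nonneg hs0]
      rcases eq_or_ne s 0 with h0 | h0
      · rw [h0, zero_mul]
        exact hδ0.le
      · have h2 : φ x ≤ s * u + (1 - s) * φ z := by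
          rw [hxab, map_add, map_smul, map_smul, smul_eq_mul, smul_eq_mul]
          have := hφC a (haC h0)
          have := hz' b hb.1
          have h3 : s * φ a ≤ s * u := mul_le_mul_of_nonneg_left (by linarith) hs0
          have h4 : (1 - s) * φ b ≤ (1 - s) * φ z :=
            mul_le_mul_of_nonneg_left (by linarith) (by linarith)
          linarith
        have h3 : s * (φ z - u) < (φ z - u) * (δ / (M + δ)) := by
          have : c = φ z - (φ z - u) * (δ / (M + δ)) := rfl
          nlinarith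
        have h4 : s < δ / (M + δ) := by
          rw [mul_comm] at h3
          exact lt_of_mul_lt_mul_left h3 (by linarith)
        calc s * |a y - b y| ≤ (δ / (M + δ)) * M :=
              mul_le_mul h4.le (hM a ha b hb.1 y hy) (abs_nonneg _) (by positivity)
          _ ≤ δ := by
              rw [div_mul_eq_mul_div, div_le_iff₀ hMδ]
              nlinarith
    have h2 : |b y - D n y| ≤ δ := hb.2 y hy
    calc |x y - D n y| = |(x y - b y) + (b y - D n y)| := by congr 1; ring
      _ ≤ |x y - b y| + |b y - D n y| := abs_add_le _ _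
      _ ≤ 2 * δ := by linarith
  refine ⟨φ, c, ⟨z, hzK, hc1⟩, fun x hx x' hx' hcx hcx' y hy => ?_⟩
  have h1 := key x hx hcx y hy
  have h2 := key x' hx' hcx' y hy
  calc |x y - x' y| = |(x y - D n y) - (x' y - D n y)| := by congr 1; ring
    _ ≤ |x y - D n y| + |x' y - D n y| := abs_sub _ _
    _ ≤ ε := by linarith

end slice

variable {X : Type} {G : Type} [Group G] [MulAction G X]

/-- the action on functions -/
def act (g : G) (f : X → ℝ) : X → ℝ := fun y => f (g⁻¹ • y)

theorem act_apply (g : G) (f : X → ℝ) (y : X) : act g f y = f (g⁻¹ • y) := rfl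

theorem act_mul (g h : G) (f : X → ℝ) : act (g * h) f = act g (act h f) := by
  funext y
  rw [act_apply, act_apply, act_apply, mul_inv_rev, mul_smul]

theorem act_one (f : X → ℝ) : act (1 : G) f = f := by
  funext y
  rw [act_apply, inv_one, one_smul]

theorem continuous_act (g : G) : Continuous (act g : (X → ℝ) → (X → ℝ)) :=
  continuous_pi fun y => continuous_apply (g⁻¹ • y)

theorem act_comb (g : G) (s t : ℝ) (f f' : X → ℝ) :
    act g (s • f + t • f') = s • act g f + t • act g f' := rfl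

theorem hull_act (v : X → ℝ) (h : G) {x : X → ℝ}
    (hx : x ∈ closure (convexHull ℝ (range fun g : G => act g v))) :
    act h x ∈ closure (convexHull ℝ (range fun g : G => act g v)) := by
  have h1 : MapsTo (act h) (convexHull ℝ (range fun g : G => act g v))
      (convexHull ℝ (range fun g : G => act g v)) := by
    have hc : Convex ℝ (act h ⁻¹' (convexHull ℝ (range fun g : G => act g v))) := by
      intro a ha b hb s t hs ht hst
      have h2 : s • act h a + t • act h b ∈ convexHull ℝ (range fun g : G => act g v) :=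
        (convex_convexHull ℝ _) ha hb hs ht hst
      exact h2
    refine convexHull_min ?_ hc
    rintro _ ⟨g, rfl⟩
    refine subset_convexHull ℝ _ ⟨h * g, ?_⟩
    rw [← act_mul]
  exact h1.closure (continuous_act h) hx

/-- **Ryll-Nardzewski**, for sets of functions. -/
theorem fixed_fun (C : Set (X → ℝ)) (hn : C.Nonempty) (hcomp : IsCompact C) (hconv : Convex ℝ C)
    (hinv : ∀ g : G, ∀ f ∈ C, act g f ∈ C) (Y : ℕ → Set X)
    (hY : ∀ n, ∀ g : G, ∀ y ∈ Y n, g • y ∈ Y n) (hcov : ∀ y, ∃ n, y ∈ Y n)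
    (hbd : ∀ n, ∃ M : ℝ, ∀ f ∈ C, ∀ y ∈ Y n, |f y| ≤ M)
    (hsep : ∀ n, ∃ D : ℕ → X → ℝ, ∀ f ∈ C, ∀ δ : ℝ, 0 < δ → ∃ k, ∀ y ∈ Y n, |f y - D k y| ≤ δ) :
    ∃ f ∈ C, ∀ (g : G) (y : X), f (g • y) = f y := by
  classical
  let S : Set (Set (X → ℝ)) := {K | K.Nonempty ∧ IsClosed K ∧ Convex ℝ K ∧ K ⊆ C ∧
    ∀ h : G, ∀ v ∈ K, act h v ∈ K}
  obtain ⟨K, -, hKm⟩ : ∃ K, K ⊆ C ∧ Minimal (· ∈ S) K := by
    refine zorn_superset_nonempty S (fun c hcS hchain hcn => ?_) C
      ⟨hn, hcomp.isClosed, hconv, subset_rfl, hinv⟩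
    refine ⟨⋂₀ c, ⟨?_, isClosed_sInter fun t ht => (hcS ht).2.1,
      convex_sInter fun t ht => (hcS ht).2.2.1, ?_, ?_⟩, fun t ht => sInter_subset_of_mem ht⟩
    · have : Nonempty c := hcn.to_subtype
      rw [sInter_eq_iInter]
      refine IsCompact.nonempty_iInter_of_directed_nonempty_isCompact_isClosed _ ?_ ?_ ?_ ?_
      · intro s t
        rcases hchain.total s.2 t.2 with h | h
        · exact ⟨s, subset_rfl, h⟩
        · exact ⟨t, h, subset_rfl⟩
      · intro t
        exact (hcS t.2).1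
      · intro t
        exact hcomp.of_isClosed_subset (hcS t.2).2.1 (hcS t.2).2.2.2.1
      · intro t
        exact (hcS t.2).2.1
    · obtain ⟨t, ht⟩ := hcn
      exact (sInter_subset_of_mem ht).trans (hcS ht).2.2.2.1
    · intro h v hv
      rw [mem_sInter] at hv ⊢
      exact fun t ht => (hcS ht).2.2.2.2 h v (hv t ht)
  obtain ⟨⟨hKn, hKcl, hKc, hKK, hKinv⟩, hmin⟩ := hKm
  have hKcomp : IsCompact K := hcomp.of_isClosed_subset hKcl hKK
  -- minimality
  have horb : ∀ v ∈ K, K ⊆ closure (convexHull ℝ (range fun g : G => act g v)) := by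
    intro v hv
    refine hmin ⟨⟨v, subset_closure (subset_convexHull ℝ _ ⟨1, act_one v⟩)⟩, isClosed_closure,
      (convex_convexHull ℝ _).closure, ?_, fun h x hx => hull_act v h hx⟩ ?_
    · refine (closure_minimal (convexHull_min ?_ hKc) hKcl).trans hKK
      rintro _ ⟨g, rfl⟩
      exact hKinv g v hv
    · refine closure_minimal (convexHull_min ?_ hKc) hKcl
      rintro _ ⟨g, rfl⟩
      exact hKinv g v hv
  obtain ⟨v₀, hv₀⟩ := hKn
  refine ⟨v₀, hKK hv₀, fun g₀ y₀ => ?_⟩
  by_contra hne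
  -- two distinct points
  set y := v₀ with hy
  set z := act g₀⁻¹ v₀ with hz
  have hyK : y ∈ K := hv₀
  have hzK : z ∈ K := hKinv g₀⁻¹ _ hv₀
  have hzy : z y₀ ≠ y y₀ := by
    show v₀ ((g₀⁻¹)⁻¹ • y₀) ≠ v₀ y₀
    rw [inv_inv]
    exact hne
  obtain ⟨n, hn0⟩ := hcov y₀
  obtain ⟨M, hM⟩ := hbd n
  obtain ⟨D, hD⟩ := hsep n
  set d : ℝ := |y y₀ - z y₀| with hd
  have hd0 : 0 < d := abs_pos.2 (sub_ne_zero.2 fun h => hzy h.symm)
  have hMn : ∀ x ∈ K, ∀ x' ∈ K, ∀ w ∈ Y n, |x w - x' w| ≤ 2 * M := by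
    intro x hx x' hx' w hw
    have h1 := hM x (hKK hx) w hw
    have h2 := hM x' (hKK hx') w hw
    calc |x w - x' w| ≤ |x w| + |x' w| := abs_sub _ _
      _ ≤ 2 * M := by linarith
  have hM0 : 0 ≤ 2 * M := (abs_nonneg _).trans (hMn y hyK y hyK y₀ hn0)
  obtain ⟨φ, u, ⟨x₁, hx₁, hux₁⟩, hsmall⟩ := exists_slice hKcomp hKc ⟨v₀, hv₀⟩ (Y n) D
    (fun x hx => hD x (hKK hx)) (2 * M) hM0 hMn (d / 4) (by positivity)
  let m : X → ℝ := (1 / 2 : ℝ) • y + (1 / 2 : ℝ) • z
  have hmK : m ∈ K := hKc hyK hzK (by norm_num) (by norm_num) (by norm_num)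
  obtain ⟨g, hg⟩ : ∃ g : G, u < φ (act g m) := by
    by_contra hcon
    push Not at hcon
    have h1 : closure (convexHull ℝ (range fun g : G => act g m)) ⊆ {x | φ x ≤ u} := by
      refine closure_minimal (convexHull_min ?_ (convex_halfSpace_le φ.toLinearMap.isLinear _))
        (isClosed_le φ.continuous continuous_const)
      rintro _ ⟨g, rfl⟩
      exact hcon g
    have h2 : φ x₁ ≤ u := h1 (horb m hmK hx₁)
    exact not_lt.2 h2 hux₁
  have hgm : act g m = (1 / 2 : ℝ) • act g y + (1 / 2 : ℝ) • act g z := act_comb g _ _ _ _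
  have hor : u < φ (act g y) ∨ u < φ (act g z) := by
    by_contra hcon
    push Not at hcon
    rw [hgm, map_add, map_smul, map_smul, smul_eq_mul, smul_eq_mul] at hg
    linarith [hcon.1, hcon.2]
  have hfin : ∀ t ∈ K, |m y₀ - t y₀| = d / 2 → ¬ u < φ (act g t) := by
    intro t ht hmt hut
    have h1 := hsmall _ (hKinv g m hmK) _ (hKinv g t ht) hg hut (g • y₀) (hY n g y₀ hn0)
    rw [act_apply, act_apply, inv_smul_smul, hmt] at h1
    linarith
  have hmy : m y₀ = (1 / 2 : ℝ) * y y₀ + (1 / 2 : ℝ) * z y₀ := rfl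
  rcases hor with h | h
  · refine hfin y hyK ?_ h
    have e1 : m y₀ - y y₀ = (-(1 / 2) : ℝ) * (y y₀ - z y₀) := by
      rw [hmy]; ring
    rw [e1, abs_mul, ← hd]
    norm_num
    ring
  · refine hfin z hzK ?_ h
    have e1 : m y₀ - z y₀ = ((1 / 2) : ℝ) * (y y₀ - z y₀) := by
      rw [hmy]; ring
    rw [e1, abs_mul, ← hd]
    norm_num
    ring

end Run7.h421.BM
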