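import Mathlib

/-!
The closed convex hull of a compact set of functions which is separable for uniform convergence on a
set is separable for uniform convergence on this set.
-/

set_option autoImplicit false

open Set Topology MeasureTheory Filter
open scoped BoundedContinuousFunction ENNReal

namespace Run7.h421.BM

section bar

variable {X : Type} (K : Set (X → ℝ))

instance instMK : MeasurableSpace K := borel K

instance instBK : BorelSpace K := ⟨rfl⟩

theorem cont_ev (y : X) : Continuous fun τ : K => (τ : X → ℝ) y :=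
  (continuous_apply y).comp continuous_subtype_val

/-- the barycentre -/
noncomputable def bar (μ : ProbabilityMeasure K) : X → ℝ := fun y => ∫ τ : K, (τ : X → ℝ) y ∂μ

theorem continuous_bar [CompactSpace K] : Continuous (bar K) := by
  refine continuous_pi fun y => ?_
  let f : K →ᵇ ℝ := BoundedContinuousFunction.mkOfCompact ⟨fun τ : K => (τ : X → ℝ) y, cont_ev K y⟩
  exact ProbabilityMeasure.continuous_integral_boundedContinuousFunction f

theorem integrable_ev [CompactSpace K] (μ : Measure K) [IsFiniteMeasure μ] (y : X) :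
    Integrable (fun τ : K => (τ : X → ℝ) y) μ := by
  have h : IntegrableOn (fun τ : K => (τ : X → ℝ) y) univ μ :=
    (cont_ev K y).continuousOn.integrableOn_compact isCompact_univ
  rwa [integrableOn_univ] at h

theorem convex_range_bar [CompactSpace K] : Convex ℝ (range (bar K)) := by
  rintro _ ⟨μ, rfl⟩ _ ⟨ν, rfl⟩ s t hs ht hst
  let ρ : Measure K := ENNReal.ofReal s • (μ : Measure K) + ENNReal.ofReal t • (ν : Measure K)
  have hρ : IsProbabilityMeasure ρ := ⟨by
    show (ENNReal.ofReal s • (μ : Measure K) + ENNReal.ofReal t • (ν : Measure K)) univ = 1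
    rw [Measure.add_apply, Measure.smul_apply, Measure.smul_apply, measure_univ, measure_univ,
      smul_eq_mul, smul_eq_mul, mul_one, mul_one, ← ENNReal.ofReal_add hs ht, hst,
      ENNReal.ofReal_one]⟩
  refine ⟨⟨ρ, hρ⟩, ?_⟩
  funext y
  show ∫ τ : K, (τ : X → ℝ) y ∂ρ = s * bar K μ y + t * bar K ν y
  have i1 : Integrable (fun τ : K => (τ : X → ℝ) y) (ENNReal.ofReal s • (μ : Measure K)) :=
    (integrable_ev K μ y).smul_measure ENNReal.ofReal_ne_top
  have i2 : Integrable (fun τ : K => (τ : X → ℝ) y) (ENNReal.ofReal t • (ν : Measure K)) :=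
    (integrable_ev K ν y).smul_measure ENNReal.ofReal_ne_top
  rw [integral_add_measure i1 i2, integral_smul_measure, integral_smul_measure,
    ENNReal.toReal_ofReal hs, ENNReal.toReal_ofReal ht]
  rfl

theorem hull_sub_range (hK : IsCompact K) :
    closure (convexHull ℝ K) ⊆ range (bar K) := by
  have : CompactSpace K := isCompact_iff_compactSpace.1 hK
  refine closure_minimal (convexHull_min (fun f hf => ?_) (convex_range_bar K))
    (isCompact_range (continuous_bar K)).isClosed
  refine ⟨⟨Measure.dirac ⟨f, hf⟩, inferInstance⟩, ?_⟩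
  funext y
  show ∫ τ : K, (τ : X → ℝ) y ∂(Measure.dirac (⟨f, hf⟩ : K)) = f y
  rw [integral_dirac']
  exact (cont_ev K y).stronglyMeasurable

end bar

theorem isClosed_fball' {X : Type} (K : Set (X → ℝ)) (Y : Set X) (a : X → ℝ) (δ : ℝ) :
    IsClosed {g : K | ∀ y ∈ Y, |(g : X → ℝ) y - a y| ≤ δ} := by
  simp only [setOf_forall]
  refine isClosed_iInter fun y => isClosed_iInter fun _ => ?_
  exact isClosed_le ((cont_ev K y).sub continuous_const).abs continuous_const

theorem hull_sep {X : Type} (K : Set (X → ℝ)) (hK : IsCompact K) (Y : Set X) (M : ℝ)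
    (hM0 : 0 ≤ M) (hM : ∀ f ∈ K, ∀ y ∈ Y, |f y| ≤ M)
    (hsep : ∃ D : ℕ → X → ℝ, ∀ f ∈ K, ∀ δ : ℝ, 0 < δ → ∃ k, ∀ y ∈ Y, |f y - D k y| ≤ δ) :
    ∃ D' : ℕ → X → ℝ, ∀ f ∈ closure (convexHull ℝ K), ∀ δ : ℝ, 0 < δ →
      ∃ k, ∀ y ∈ Y, |f y - D' k y| ≤ δ := by
  classical
  -- a dense sequence of bounded functions
  obtain ⟨D, hDM, hD⟩ : ∃ D : ℕ → X → ℝ, (∀ k, ∀ y ∈ Y, |D k y| ≤ M) ∧
      ∀ f ∈ K, ∀ δ : ℝ, 0 < δ → ∃ k, ∀ y ∈ Y, |f y - D k y| ≤ δ := by
    obtain ⟨D, hD⟩ := hsep
    let P : ℕ × ℕ → (X → ℝ) → Prop := fun q e => e ∈ K ∧ ∀ y ∈ Y, |e y - D q.1 y| ≤ 1 / ((q.2 : ℝ) + 1)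
    let e : ℕ × ℕ → X → ℝ := fun q => if h : ∃ e, P q e then h.choose else 0
    have he : ∀ q, (∃ e, P q e) → P q (e q) := by
      intro q h
      have h1 : e q = h.choose := dif_pos h
      rw [h1]
      exact h.choose_spec
    refine ⟨fun k => e (Nat.unpair k), fun k y hy => ?_, fun f hf δ hδ => ?_⟩
    · by_cases h : ∃ e', P (Nat.unpair k) e'
      · exact hM _ (he _ h).1 y hy
      · have h1 : e (Nat.unpair k) = 0 := dif_neg h
        show |e (Nat.unpair k) y| ≤ M
        rw [h1]
        simpa using hM0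
    · obtain ⟨m, hm⟩ := exists_nat_one_div_lt (half_pos hδ)
      obtain ⟨k, hk⟩ := hD f hf (1 / ((m : ℝ) + 1)) (by positivity)
      have h := he (k, m) ⟨f, hf, hk⟩
      refine ⟨Nat.pair k m, fun y hy => ?_⟩
      show |f y - e (Nat.unpair (Nat.pair k m)) y| ≤ δ
      rw [Nat.unpair_pair]
      have h1 := hk y hy
      have h2 : |e (k, m) y - D k y| ≤ 1 / ((m : ℝ) + 1) := h.2 y hy
      calc |f y - e (k, m) y| = |(f y - D k y) - (e (k, m) y - D k y)| := by congr 1; ring
        _ ≤ |f y - D k y| + |e (k, m) y - D k y| := abs_sub _ _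
        _ ≤ δ := by linarith
  obtain ⟨Q, hQ⟩ := exists_surjective_nat (ℕ →₀ ℚ)
  refine ⟨fun n y => (Q n).sum fun k c => (c : ℝ) * D k y, fun f hf δ hδ => ?_⟩
  have : CompactSpace K := isCompact_iff_compactSpace.1 hK
  obtain ⟨μ, rfl⟩ := hull_sub_range K hK hf
  set η : ℝ := δ / 3 with hη
  have hη0 : 0 < η := by positivity
  let C : ℕ → Set K := fun k => {g : K | ∀ y ∈ Y, |(g : X → ℝ) y - D k y| ≤ η}
  have hCcl : ∀ k, MeasurableSet (C k) := fun k => (isClosed_fball' K Y (D k) η).measurableSet
  have hCu : (⋃ k, C k) = univ := by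
    rw [eq_univ_iff_forall]
    intro g
    obtain ⟨k, hk⟩ := hD g g.2 η hη0
    exact mem_iUnion.2 ⟨k, hk⟩
  let C' : ℕ → Set K := fun k => C k \ ⋃ j ∈ Finset.range k, C j
  have hC'm : ∀ k, MeasurableSet (C' k) := fun k =>
    (hCcl k).diff (Finset.measurableSet_biUnion _ fun j _ => hCcl j)
  have hfirst : ∀ (N : ℕ) (τ : K), τ ∈ accumulate C N → ∃ k ∈ Finset.range (N + 1),
      τ ∈ C' k ∧ ∀ k', k' ≠ k → τ ∉ C' k' := by
    intro N τ hτ
    obtain ⟨j, hj, hτj⟩ := mem_accumulate.1 hτ
    have hex : ∃ k, τ ∈ C k := ⟨j, hτj⟩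
    refine ⟨Nat.find hex, ?_, ⟨Nat.find_spec hex, ?_⟩, ?_⟩
    · rw [Finset.mem_range]
      exact lt_of_le_of_lt ((Nat.find_min' hex hτj).trans hj) (Nat.lt_succ_self _)
    · intro h
      rw [mem_iUnion₂] at h
      obtain ⟨i, hi, hi2⟩ := h
      exact Nat.find_min hex (Finset.mem_range.1 hi) hi2
    · rintro k' hne ⟨h1, h2⟩
      rcases lt_or_gt_of_ne hne with h | h
      · exact Nat.find_min hex h h1
      · apply h2
        rw [mem_iUnion₂]
        exact ⟨Nat.find hex, Finset.mem_range.2 h, Nat.find_spec hex⟩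
  -- the tail
  obtain ⟨N, hN⟩ : ∃ N, (μ : Measure K).real (accumulate C N)ᶜ ≤ η / (M + 1) := by
    have h1 : Tendsto (fun i => (μ : Measure K) (accumulate C i)) atTop
        (𝓝 ((μ : Measure K) (⋃ i, C i))) := tendsto_measure_iUnion_accumulate
    rw [hCu, measure_univ] at h1
    have h2 : Tendsto (fun i => (μ : Measure K).real (accumulate C i)) atTop (𝓝 1) := by
      have h3 := (ENNReal.tendsto_toReal ENNReal.one_ne_top).comp h1
      rw [ENNReal.toReal_one] at h3
      exact h3
    have h3 : ∀ᶠ i in atTop, 1 - η / (M + 1) < (μ : Measure K).real (accumulate C i) :=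
      h2.eventually_const_lt (by
        have : 0 < η / (M + 1) := by positivity
        linarith)
    obtain ⟨N, hN⟩ := h3.exists
    refine ⟨N, ?_⟩
    have hm : MeasurableSet (accumulate C N) := by
      rw [accumulate_def]
      exact MeasurableSet.biUnion (to_countable _) fun k _ => hCcl k
    rw [probReal_compl_eq_one_sub hm]
    linarith
  -- the approximation
  let p : ℕ → ℝ := fun k => (μ : Measure K).real (C' k)
  have hstep1 : ∀ y ∈ Y, |bar K μ y - ∑ k ∈ Finset.range (N + 1), p k * D k y| ≤ 2 * η := by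
    intro y hy
    let h : K → ℝ := fun τ => (τ : X → ℝ) y - ∑ k ∈ Finset.range (N + 1),
      (C' k).indicator (fun _ => D k y) τ
    have hint : ∀ k, Integrable ((C' k).indicator fun _ => D k y) (μ : Measure K) := fun k =>
      (integrable_const _).indicator (hC'm k)
    have e1 : ∫ τ, h τ ∂μ = bar K μ y - ∑ k ∈ Finset.range (N + 1), p k * D k y := by
      rw [integral_sub (integrable_ev K μ y) (integrable_finset_sum _ fun k _ => hint k),
        integral_finset_sum _ fun k _ => hint k]
      congr 1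
      refine Finset.sum_congr rfl fun k _ => ?_
      rw [integral_indicator_const _ (hC'm k), smul_eq_mul]
    rw [← e1]
    have hmB : MeasurableSet (accumulate C N)ᶜ := by
      refine MeasurableSet.compl ?_
      rw [accumulate_def]
      exact MeasurableSet.biUnion (to_countable _) fun k _ => hCcl k
    have hb : ∀ τ, ‖h τ‖ ≤ η + (accumulate C N)ᶜ.indicator (fun _ => M) τ := by
      intro τ
      by_cases hτ : τ ∈ accumulate C N
      · obtain ⟨k, hk, hτk, hk'⟩ := hfirst N τ hτ
        have e2 : ∑ k ∈ Finset.range (N + 1), (C' k).indicator (fun _ => D k y) τ = D k y := by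
          rw [Finset.sum_eq_single k]
          · exact indicator_of_mem hτk _
          · intro j _ hj
            exact indicator_of_notMem (hk' j hj) _
          · intro h
            exact absurd hk h
        have e3 : h τ = (τ : X → ℝ) y - D k y := by
          show (τ : X → ℝ) y - _ = _
          rw [e2]
        rw [indicator_of_notMem (show τ ∉ (accumulate C N)ᶜ from fun h => h hτ), add_zero, e3, Real.norm_eq_abs]
        exact hτk.1 y hy
      · have e2 : ∑ k ∈ Finset.range (N + 1), (C' k).indicator (fun _ => D k y) τ = 0 := by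
          refine Finset.sum_eq_zero fun k hk => indicator_of_notMem (fun h => hτ ?_) _
          exact mem_accumulate.2 ⟨k, Nat.lt_succ_iff.1 (Finset.mem_range.1 hk), h.1⟩
        have e3 : h τ = (τ : X → ℝ) y := by
          show (τ : X → ℝ) y - _ = _
          rw [e2, sub_zero]
        rw [indicator_of_mem (show τ ∈ (accumulate C N)ᶜ from hτ), e3, Real.norm_eq_abs]
        have := hM τ τ.2 y hy
        linarith
    have hgi : Integrable (fun τ => η + (accumulate C N)ᶜ.indicator (fun _ => M) τ)
        (μ : Measure K) := (integrable_const _).add ((integrable_const _).indicator hmB)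
    have h4 := norm_integral_le_of_norm_le hgi (Eventually.of_forall hb)
    rw [Real.norm_eq_abs] at h4
    refine h4.trans ?_
    rw [integral_add (integrable_const _) ((integrable_const _).indicator hmB),
      integral_indicator_const _ hmB, integral_const, smul_eq_mul, smul_eq_mul]
    simp only [probReal_univ, one_mul]
    have h5 : (μ : Measure K).real (accumulate C N)ᶜ * M ≤ η := by
      calc (μ : Measure K).real (accumulate C N)ᶜ * M ≤ η / (M + 1) * M :=
            mul_le_mul_of_nonneg_right hN hM0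
        _ ≤ η := by
            rw [div_mul_eq_mul_div, div_le_iff₀ (by linarith)]
            nlinarith
    linarith
  -- rational coefficients
  have hrat : ∀ k, ∃ q : ℚ, |p k - q| ≤ η / ((N + 1) * (M + 1)) := by
    intro k
    have hpos : 0 < η / (((N : ℝ) + 1) * (M + 1)) := by positivity
    obtain ⟨q, h1, h2⟩ := exists_rat_btwn (show p k < p k + η / (((N : ℝ) + 1) * (M + 1)) by linarith)
    refine ⟨q, ?_⟩
    rw [abs_le]
    constructor <;> linarith
  choose q hq using hrat
  obtain ⟨n, hn⟩ := hQ (Finsupp.onFinset (Finset.range (N + 1))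
    (fun k => if k < N + 1 then q k else 0) (by
      intro k hk
      rw [Finset.mem_range]
      by_contra h
      exact hk (if_neg h)))
  refine ⟨n, fun y hy => ?_⟩
  have e5 : ((Q n).sum fun k c => (c : ℝ) * D k y) = ∑ k ∈ Finset.range (N + 1), (q k : ℝ) * D k y := by
    rw [hn, Finsupp.onFinset_sum _ (fun k => by simp)]
    refine Finset.sum_congr rfl fun k hk => ?_
    rw [if_pos (Finset.mem_range.1 hk)]
  show |bar K μ y - (Q n).sum fun k c => (c : ℝ) * D k y| ≤ δ
  rw [e5]
  have h6 : |∑ k ∈ Finset.range (N + 1), p k * D k y -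
      ∑ k ∈ Finset.range (N + 1), (q k : ℝ) * D k y| ≤ η := by
    rw [← Finset.sum_sub_distrib]
    refine (Finset.abs_sum_le_sum_abs _ _).trans ?_
    have h7 : ∀ k ∈ Finset.range (N + 1), |p k * D k y - (q k : ℝ) * D k y| ≤ η / (N + 1) := by
      intro k _
      rw [← sub_mul, abs_mul]
      calc |p k - q k| * |D k y| ≤ η / ((N + 1) * (M + 1)) * M :=
            mul_le_mul (hq k) (hDM k y hy) (abs_nonneg _) (by positivity)
        _ ≤ η / (N + 1) := by
            rw [div_mul_eq_mul_div, div_le_div_iff₀ (by positivity) (by positivity)]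
            have : 0 ≤ η * (N + 1) := by positivity
            nlinarith
    refine (Finset.sum_le_sum h7).trans ?_
    rw [Finset.sum_const, Finset.card_range, nsmul_eq_mul]
    push_cast
    rw [mul_div_cancel₀]
    positivity
  have h8 := hstep1 y hy
  calc |bar K μ y - ∑ k ∈ Finset.range (N + 1), (q k : ℝ) * D k y|
      = |(bar K μ y - ∑ k ∈ Finset.range (N + 1), p k * D k y) +
          (∑ k ∈ Finset.range (N + 1), p k * D k y -
            ∑ k ∈ Finset.range (N + 1), (q k : ℝ) * D k y)| := by congr 1; ring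
    _ ≤ 2 * η + η := (abs_add_le _ _).trans (add_le_add h8 h6)
    _ = δ := by rw [hη]; ring

end Run7.h421.BM
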