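import Pool.Agent.Run7.h421.BMDef

/-!
Second derivatives of an almost transitive norm: an invariant function in the closed convex hull of the
functions `y ↦ ‖x + y‖²` forces the parallelogram law.
-/

set_option autoImplicit false

open Set Topology Filter Asymptotics

namespace Run7.h421.BM

variable {E : Type} [NormedAddCommGroup E] [NormedSpace ℝ E]

/-- quadratic functions above `c ‖·‖²` -/
structure Quad (c : ℝ) (q : E → ℝ) : Prop where
  par : ∀ u v, q (u + v) + q (u - v) = 2 * q u + 2 * q v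
  hom : ∀ (t : ℝ) (w : E), q (t • w) = t ^ 2 * q w
  low : ∀ w, c * ‖w‖ ^ 2 ≤ q w

theorem Quad.comb {c : ℝ} {q q' : E → ℝ} (h : Quad c q) (h' : Quad c q') {s t : ℝ} (hs : 0 ≤ s)
    (ht : 0 ≤ t) (hst : s + t = 1) : Quad c (fun w => s * q w + t * q' w) := by
  refine ⟨fun u v => ?_, fun r w => ?_, fun w => ?_⟩
  · linear_combination s * h.par u v + t * h'.par u v
  · rw [h.hom, h'.hom]; ring
  · have h1 := mul_le_mul_of_nonneg_left (h.low w) hs
    have h2 := mul_le_mul_of_nonneg_left (h'.low w) ht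
    have h3 : c * ‖w‖ ^ 2 = s * (c * ‖w‖ ^ 2) + t * (c * ‖w‖ ^ 2) := by
      rw [← add_mul, hst, one_mul]
    linarith

theorem quad_form (a : E →L[ℝ] E →L[ℝ] ℝ) {c : ℝ} (ha : ∀ w, c * ‖w‖ ^ 2 ≤ a w w)
    (T : E ≃ₗᵢ[ℝ] E) : Quad c (fun w => a (T.symm w) (T.symm w)) := by
  refine ⟨fun u v => ?_, fun r w => ?_, fun w => ?_⟩
  · simp only [map_add, map_sub, ContinuousLinearMap.add_apply, ContinuousLinearMap.sub_apply]
    ring
  · simp only [map_smul, ContinuousLinearMap.smul_apply, smul_eq_mul]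
    ring
  · have := ha (T.symm w)
    rwa [T.symm.norm_map] at this

theorem sq_lip (x x' y y' : E) : |‖x + y‖ ^ 2 - ‖x' + y'‖ ^ 2| ≤
    (‖x‖ + ‖x'‖ + ‖y‖ + ‖y'‖) * (‖x - x'‖ + ‖y - y'‖) := by
  have e : ‖x + y‖ ^ 2 - ‖x' + y'‖ ^ 2 = (‖x + y‖ + ‖x' + y'‖) * (‖x + y‖ - ‖x' + y'‖) := by ring
  rw [e, abs_mul, abs_of_nonneg (by positivity)]
  have h1 : |‖x + y‖ - ‖x' + y'‖| ≤ ‖x - x'‖ + ‖y - y'‖ := by
    refine (abs_norm_sub_norm_le _ _).trans ?_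
    have : x + y - (x' + y') = (x - x') + (y - y') := by abel
    rw [this]
    exact norm_add_le _ _
  have h2 : ‖x + y‖ + ‖x' + y'‖ ≤ ‖x‖ + ‖x'‖ + ‖y‖ + ‖y'‖ := by
    linarith [norm_add_le x y, norm_add_le x' y']
  exact mul_le_mul h2 h1 (abs_nonneg _) (by positivity)

/-- The expansion at all points of the sphere. -/
theorem expand {x0 : E} {f : E →L[ℝ] ℝ} {a : E →L[ℝ] E →L[ℝ] ℝ} {c : ℝ}
    (hA : ∀ x y : E, ‖x‖ = 1 → ‖y‖ = 1 → ∀ ε : ℝ, 0 < ε → ∃ T : E ≃ₗᵢ[ℝ] E, ‖T x - y‖ < ε)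
    (hx0 : ‖x0‖ = 1) (ha : ∀ w, c * ‖w‖ ^ 2 ≤ a w w) {ε δ : ℝ} (hδ : 0 < δ)
    (hT : ∀ w, ‖w‖ ≤ δ → |‖x0 + w‖ ^ 2 - 1 - f w - a w w| ≤ ε * ‖w‖ ^ 2)
    {x : E} (hx : ‖x‖ = 1) {η : ℝ} (hη : 0 < η) :
    ∃ q : E → ℝ, Quad c q ∧ ∀ y, ‖y‖ ≤ δ →
      |(‖x + y‖ ^ 2 + ‖x + -y‖ ^ 2) / 2 - 1 - q y| ≤ ε * ‖y‖ ^ 2 + η := by
  obtain ⟨T, hTx⟩ := hA x0 x hx0 hx (η / (2 + 2 * δ)) (by positivity)
  refine ⟨_, quad_form a ha T, fun y hy => ?_⟩
  have h1 : ∀ z : E, ‖T x0 + z‖ = ‖x0 + T.symm z‖ := fun z => by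
    rw [← T.norm_map (x0 + T.symm z), map_add, T.apply_symm_apply]
  have h2 := hT (T.symm y) (by rw [T.symm.norm_map]; exact hy)
  have h3 := hT (-(T.symm y)) (by rw [norm_neg, T.symm.norm_map]; exact hy)
  have e1 : -(T.symm y) = T.symm (-y) := by rw [map_neg]
  rw [← h1, T.symm.norm_map] at h2
  rw [norm_neg, T.symm.norm_map] at h3
  have e2 : a (-(T.symm y)) (-(T.symm y)) = a (T.symm y) (T.symm y) := by
    simp only [map_neg, ContinuousLinearMap.neg_apply, neg_neg]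
  rw [e2, map_neg] at h3
  rw [e1, ← h1] at h3
  have h4 : ∀ z : E, ‖z‖ ≤ δ → |‖x + z‖ ^ 2 - ‖T x0 + z‖ ^ 2| ≤ η := by
    intro z hz
    refine (sq_lip x (T x0) z z).trans ?_
    rw [sub_self, norm_zero, add_zero, hx, T.norm_map, hx0]
    have h5 : ‖x - T x0‖ ≤ η / (2 + 2 * δ) := by rw [norm_sub_rev]; exact hTx.le
    calc (1 + 1 + ‖z‖ + ‖z‖) * ‖x - T x0‖ ≤ (2 + 2 * δ) * (η / (2 + 2 * δ)) :=
          mul_le_mul (by linarith) h5 (norm_nonneg _) (by positivity)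
      _ = η := by field_simp
  have h5 := abs_le.1 (h4 y hy)
  have h6 := abs_le.1 (h4 (-y) (by rw [norm_neg]; exact hy))
  have h7 := abs_le.1 h2
  have h8 := abs_le.1 h3
  rw [abs_le]
  constructor <;> linarith [h5.1, h5.2, h6.1, h6.2, h7.1, h7.2, h8.1, h8.2]

/-- the functions of the closed convex hull are locally Lipschitz -/
theorem hull_lip {Ψ : E → ℝ} (h : Ψ ∈ closure (convexHull ℝ (funs E))) (y y' : E) :
    |Ψ y - Ψ y'| ≤ (2 + ‖y‖ + ‖y'‖) * ‖y - y'‖ := by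
  have hcl : IsClosed {g : E → ℝ | |g y - g y'| ≤ (2 + ‖y‖ + ‖y'‖) * ‖y - y'‖} :=
    isClosed_le ((continuous_apply y).sub (continuous_apply y')).abs continuous_const
  have hcv : Convex ℝ {g : E → ℝ | |g y - g y'| ≤ (2 + ‖y‖ + ‖y'‖) * ‖y - y'‖} := by
    intro g hg g' hg' s t hs ht hst
    have h1 : |g y - g y'| ≤ (2 + ‖y‖ + ‖y'‖) * ‖y - y'‖ := hg
    have h2 : |g' y - g' y'| ≤ (2 + ‖y‖ + ‖y'‖) * ‖y - y'‖ := hg'
    show |(s * g y + t * g' y) - (s * g y' + t * g' y')| ≤ _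
    have e : (s * g y + t * g' y) - (s * g y' + t * g' y') =
        s * (g y - g y') + t * (g' y - g' y') := by ring
    rw [e]
    refine (abs_add_le _ _).trans ?_
    rw [abs_mul, abs_mul, abs_of_nonneg hs, abs_of_nonneg ht]
    have h3 := mul_le_mul_of_nonneg_left h1 hs
    have h4 := mul_le_mul_of_nonneg_left h2 ht
    have h5 : s * ((2 + ‖y‖ + ‖y'‖) * ‖y - y'‖) + t * ((2 + ‖y‖ + ‖y'‖) * ‖y - y'‖) =
        (2 + ‖y‖ + ‖y'‖) * ‖y - y'‖ := by rw [← add_mul, hst, one_mul]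
    linarith
  refine closure_minimal (convexHull_min ?_ hcv) hcl h
  rintro _ ⟨x, hx, rfl⟩
  show |‖x + y‖ ^ 2 - ‖x + y'‖ ^ 2| ≤ _
  refine (sq_lip x x y y').trans ?_
  rw [sub_self, norm_zero, zero_add, hx]
  refine mul_le_mul_of_nonneg_right ?_ (norm_nonneg _)
  linarith

/-- an invariant function depends only on the norm -/
theorem radial {Ψ : E → ℝ} (h : Ψ ∈ closure (convexHull ℝ (funs E)))
    (hA : ∀ x y : E, ‖x‖ = 1 → ‖y‖ = 1 → ∀ ε : ℝ, 0 < ε → ∃ T : E ≃ₗᵢ[ℝ] E, ‖T x - y‖ < ε)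
    (hinv : ∀ (T : E ≃ₗᵢ[ℝ] E) (y : E), Ψ (T y) = Ψ y) {x y : E} (hx : ‖x‖ = 1) (hy : ‖y‖ = 1)
    {r : ℝ} (hr : 0 ≤ r) : Ψ (r • x) = Ψ (r • y) := by
  by_contra hne
  have h0 : 0 < |Ψ (r • x) - Ψ (r • y)| := abs_pos.2 (sub_ne_zero.2 hne)
  set d := |Ψ (r • x) - Ψ (r • y)| with hd
  obtain ⟨T, hT⟩ := hA x y hx hy (d / (2 * ((2 + r + r) * (r + 1)))) (by positivity)
  have h1 := hull_lip h (T (r • x)) (r • y)
  rw [hinv, ← hd, T.norm_map, norm_smul, norm_smul, hx, hy, mul_one, Real.norm_of_nonneg hr,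
    map_smul, ← smul_sub, norm_smul, Real.norm_of_nonneg hr] at h1
  have h2 : (2 + r + r) * (r * ‖T x - y‖) ≤ (2 + r + r) * ((r + 1) *
      (d / (2 * ((2 + r + r) * (r + 1))))) := by
    refine mul_le_mul_of_nonneg_left ?_ (by positivity)
    exact mul_le_mul (by linarith) hT.le (norm_nonneg _) (by positivity)
  have h3 : (2 + r + r) * ((r + 1) * (d / (2 * ((2 + r + r) * (r + 1))))) = d / 2 := by
    field_simp
  linarith

/-- **The main step.** -/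
theorem par_of_inv (hA : ∀ x y : E, ‖x‖ = 1 → ‖y‖ = 1 → ∀ ε : ℝ, 0 < ε →
      ∃ T : E ≃ₗᵢ[ℝ] E, ‖T x - y‖ < ε) (hT : TaylorPoint E) {Ψ : E → ℝ}
    (hΨ : Ψ ∈ closure (convexHull ℝ (funs E)))
    (hinv : ∀ (T : E ≃ₗᵢ[ℝ] E) (y : E), Ψ (T y) = Ψ y) (u v : E) :
    ‖u + v‖ * ‖u + v‖ + ‖u - v‖ * ‖u - v‖ = 2 * (‖u‖ * ‖u‖ + ‖v‖ * ‖v‖) := by
  obtain ⟨x0, f, a, c, hx0, hc, ha, ho⟩ := hT
  -- the key estimate
  have key : ∀ ε : ℝ, 0 < ε → ε ≤ c / 6 → ∃ (h : ℝ) (q : E → ℝ), Quad c q ∧ c / 2 ≤ h ∧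
      ∀ w ∈ ({u + v, u - v, u, v} : Set E), |h * ‖w‖ ^ 2 - q w| ≤ 3 * ε * ‖w‖ ^ 2 := by
    intro ε hε hεc
    obtain ⟨δ, hδ, hδ2⟩ : ∃ δ : ℝ, 0 < δ ∧ ∀ w, ‖w‖ ≤ δ →
        |‖x0 + w‖ ^ 2 - 1 - f w - a w w| ≤ ε * ‖w‖ ^ 2 := by
      have h1 := ho.def hε
      obtain ⟨δ, hδ, hδ2⟩ := Metric.eventually_nhds_iff.1 h1
      refine ⟨δ / 2, by positivity, fun w hw => ?_⟩
      have h2 := hδ2 (y := w) (by rw [dist_zero_right]; linarith)
      rw [Real.norm_eq_abs, Real.norm_of_nonneg (by positivity)] at h2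
      exact h2
    set η : ℝ := ε * δ ^ 2 with hη
    have hη0 : 0 < η := by positivity
    -- the convex set
    let P : Set (E → ℝ) := {g | ∃ q : E → ℝ, Quad c q ∧ ∀ y, ‖y‖ ≤ δ →
      |(g y + g (-y)) / 2 - 1 - q y| ≤ ε * ‖y‖ ^ 2 + η}
    have hPc : Convex ℝ P := by
      rintro g ⟨q, hq, h1⟩ g' ⟨q', hq', h2⟩ s t hs ht hst
      refine ⟨_, hq.comb hq' hs ht hst, fun y hy => ?_⟩
      have h3 := h1 y hy
      have h4 := h2 y hy
      show |((s * g y + t * g' y) + (s * g (-y) + t * g' (-y))) / 2 - 1 - (s * q y + t * q' y)| ≤ _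
      have e : ((s * g y + t * g' y) + (s * g (-y) + t * g' (-y))) / 2 - 1 -
          (s * q y + t * q' y) = s * ((g y + g (-y)) / 2 - 1 - q y) +
            t * ((g' y + g' (-y)) / 2 - 1 - q' y) := by
        linear_combination (1 : ℝ) * hst
      rw [e]
      refine (abs_add_le _ _).trans ?_
      rw [abs_mul, abs_mul, abs_of_nonneg hs, abs_of_nonneg ht]
      have h5 := mul_le_mul_of_nonneg_left h3 hs
      have h6 := mul_le_mul_of_nonneg_left h4 ht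
      have h7 : s * (ε * ‖y‖ ^ 2 + η) + t * (ε * ‖y‖ ^ 2 + η) = ε * ‖y‖ ^ 2 + η := by
        rw [← add_mul, hst, one_mul]
      linarith
    have hPf : convexHull ℝ (funs E) ⊆ P := by
      refine convexHull_min ?_ hPc
      rintro _ ⟨x, hx, rfl⟩
      exact expand hA hx0 ha hδ hδ2 hx hη0
    -- the test vectors
    let W : Fin 5 → E := ![u + v, u - v, u, v, x0]
    let y : Fin 5 → E := fun i => (δ / ‖W i‖) • W i
    have hy : ∀ i, ‖y i‖ ≤ δ := by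
      intro i
      show ‖(δ / ‖W i‖) • W i‖ ≤ δ
      rw [norm_smul, Real.norm_of_nonneg (by positivity)]
      rcases eq_or_ne ‖W i‖ 0 with h0 | h0
      · rw [h0]; simp [hδ.le]
      · rw [div_mul_cancel₀ _ h0]
    have hopen : IsOpen {g : E → ℝ | ∀ i, |g (y i) - Ψ (y i)| < η ∧ |g (-(y i)) - Ψ (-(y i))| < η} := by
      simp only [setOf_forall, setOf_and]
      refine isOpen_iInter_of_finite fun i => ?_
      exact (isOpen_lt ((continuous_apply (y i)).sub continuous_const).abs continuous_const).inter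
        (isOpen_lt ((continuous_apply (-(y i))).sub continuous_const).abs continuous_const)
    obtain ⟨g, hg, hgC⟩ := mem_closure_iff.1 hΨ _ hopen (fun i => by
      rw [sub_self, sub_self, abs_zero]; exact ⟨hη0, hη0⟩)
    obtain ⟨q, hq, hgq⟩ := hPf hgC
    set h : ℝ := (Ψ (δ • x0) - 1) / δ ^ 2 with hh
    have hest : ∀ i, |h * ‖W i‖ ^ 2 - q (W i)| ≤ 3 * ε * ‖W i‖ ^ 2 := by
      intro i
      rcases eq_or_ne (W i) 0 with h0 | h0
      · rw [h0]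
        have : q 0 = 0 := by
          have := hq.hom 0 0
          simpa using this
        rw [this]
        simp
      · have hW : 0 < ‖W i‖ := norm_pos_iff.2 h0
        have h1 := hgq (y i) (hy i)
        have h2 := hg i
        have hneg : Ψ (-(y i)) = Ψ (y i) := hinv (LinearIsometryEquiv.neg ℝ) (y i)
        have hrad : Ψ (y i) = Ψ (δ • x0) := by
          have e : y i = δ • ((1 / ‖W i‖) • W i) := by
            show (δ / ‖W i‖) • W i = _
            rw [smul_smul]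
            congr 1
            ring
          rw [e]
          refine radial hΨ hA hinv ?_ hx0 hδ.le
          rw [norm_smul, norm_div, norm_one, norm_norm, one_div, inv_mul_cancel₀ hW.ne']
        have hny : ‖y i‖ = δ := by
          show ‖(δ / ‖W i‖) • W i‖ = δ
          rw [norm_smul, Real.norm_of_nonneg (by positivity), div_mul_cancel₀ _ hW.ne']
        have hqy : q (y i) = (δ / ‖W i‖) ^ 2 * q (W i) := hq.hom _ _
        rw [hny, hqy] at h1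
        rw [hneg, hrad] at h2
        have h3 := abs_le.1 h1
        have h4 := abs_lt.1 h2.1
        have h5 := abs_lt.1 h2.2
        have h6 : |(Ψ (δ • x0) - 1) - (δ / ‖W i‖) ^ 2 * q (W i)| ≤ 3 * ε * δ ^ 2 := by
          have e7 : ε * δ ^ 2 = η := rfl
          rw [abs_le]
          constructor <;> nlinarith [h3.1, h3.2, h4.1, h4.2, h5.1, h5.2]
        have e8 : h * ‖W i‖ ^ 2 - q (W i) =
            (‖W i‖ / δ) ^ 2 * ((Ψ (δ • x0) - 1) - (δ / ‖W i‖) ^ 2 * q (W i)) := by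
          rw [hh]
          field_simp
        rw [e8, abs_mul, abs_of_nonneg (by positivity)]
        calc (‖W i‖ / δ) ^ 2 * |(Ψ (δ • x0) - 1) - (δ / ‖W i‖) ^ 2 * q (W i)|
            ≤ (‖W i‖ / δ) ^ 2 * (3 * ε * δ ^ 2) := mul_le_mul_of_nonneg_left h6 (by positivity)
          _ = 3 * ε * ‖W i‖ ^ 2 := by field_simp
    refine ⟨h, q, hq, ?_, ?_⟩
    · have h1 : |h * ‖x0‖ ^ 2 - q x0| ≤ 3 * ε * ‖x0‖ ^ 2 := hest 4
      have h2 := hq.low x0
      rw [hx0] at h1 h2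
      have h3 := abs_le.1 h1
      linarith [h3.1]
    · rintro w (rfl | rfl | rfl | rfl)
      · exact hest 0
      · exact hest 1
      · exact hest 2
      · exact hest 3
  -- conclusion
  set Dd : ℝ := ‖u + v‖ ^ 2 + ‖u - v‖ ^ 2 - 2 * ‖u‖ ^ 2 - 2 * ‖v‖ ^ 2 with hDd
  set S : ℝ := ‖u + v‖ ^ 2 + ‖u - v‖ ^ 2 + 2 * ‖u‖ ^ 2 + 2 * ‖v‖ ^ 2 with hS
  have hS0 : 0 ≤ S := by positivity
  have hDS : ∀ ε : ℝ, 0 < ε → ε ≤ c / 6 → |Dd| ≤ 6 * ε * S / c := by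
    intro ε hε hεc
    obtain ⟨h, q, hq, hh, hw⟩ := key ε hε hεc
    have h1 := abs_le.1 (hw (u + v) (by simp))
    have h2 := abs_le.1 (hw (u - v) (by simp))
    have h3 := abs_le.1 (hw u (by simp))
    have h4 := abs_le.1 (hw v (by simp))
    have h5 := hq.par u v
    have h6 : |h * Dd| ≤ 3 * ε * S := by
      rw [abs_le]
      constructor <;> nlinarith [h1.1, h1.2, h2.1, h2.2, h3.1, h3.2, h4.1, h4.2]
    have hh0 : 0 < h := by linarith
    rw [abs_mul, abs_of_pos hh0] at h6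
    rw [le_div_iff₀ hc]
    nlinarith [abs_nonneg Dd]
  have hD0 : Dd = 0 := by
    by_contra hne
    have hD : 0 < |Dd| := abs_pos.2 hne
    have hS1 : 0 < S + 1 := by linarith
    have h1 : 0 < min (c / 6) (|Dd| * c / (12 * (S + 1))) := by positivity
    have h2 := hDS _ h1 (min_le_left _ _)
    have h3 : 6 * min (c / 6) (|Dd| * c / (12 * (S + 1))) * S / c ≤
        6 * (|Dd| * c / (12 * (S + 1))) * (S + 1) / c := by
      gcongr
      · exact min_le_right _ _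
      · linarith
    have h4 : 6 * (|Dd| * c / (12 * (S + 1))) * (S + 1) / c = |Dd| / 2 := by
      field_simp
      norm_num
    linarith
  rw [hDd] at hD0
  nlinarith [hD0]

theorem hilbert_of_par [CompleteSpace E]
    (h : ∀ u v : E, ‖u + v‖ * ‖u + v‖ + ‖u - v‖ * ‖u - v‖ = 2 * (‖u‖ * ‖u‖ + ‖v‖ * ‖v‖)) :
    IsHilbert E :=
  ⟨E, inferInstance, InnerProductSpace.ofNorm ℝ h, inferInstance, ⟨LinearIsometryEquiv.refl ℝ E⟩⟩

end Run7.h421.BM
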