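import Pool.Agent.Run7.h421.BMc

/-!
A separable space with a stable norm has separable types.
-/

set_option autoImplicit false

open Set Topology Filter

namespace Run7.h421.BM

variable {E : Type} [NormedAddCommGroup E] [NormedSpace ℝ E]

theorem subseq (F : ℕ → ℕ → ℝ) (M : ℕ → ℝ) (hM : ∀ m n, |F m n| ≤ M n) :
    ∃ φ : ℕ → ℕ, StrictMono φ ∧ ∃ α : ℕ → ℝ,
      ∀ n, Tendsto (fun m => F (φ m) n) atTop (𝓝 (α n)) := by
  have hc : IsCompact (Set.pi univ fun n : ℕ => Icc (-(M n)) (M n)) :=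
    isCompact_univ_pi fun n => isCompact_Icc
  obtain ⟨α, -, φ, hφ, h⟩ := hc.tendsto_subseq (x := F) (fun m => fun n _ => abs_le.1 (hM m n))
  exact ⟨φ, hφ, α, fun n => (tendsto_pi_nhds.1 h) n⟩

theorem approx {g : E → ℝ} (hg : g ∈ closure (funs E)) (S : Finset E) {η : ℝ} (hη : 0 < η) :
    ∃ x : E, ‖x‖ = 1 ∧ ∀ y ∈ S, |‖x + y‖ ^ 2 - g y| < η := by
  have hopen : IsOpen {f : E → ℝ | ∀ y ∈ S, |f y - g y| < η} := by
    have h1 : {f : E → ℝ | ∀ y ∈ S, |f y - g y| < η} = ⋂ y ∈ S, {f | |f y - g y| < η} := by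
      ext; simp
    rw [h1]
    exact isOpen_biInter_finset fun y _ =>
      isOpen_lt ((continuous_apply y).sub continuous_const).abs continuous_const
  obtain ⟨f, hf, x, hx, rfl⟩ := mem_closure_iff.1 hg _ hopen (fun y _ => by
    rw [sub_self, abs_zero]; exact hη)
  exact ⟨x, hx, hf⟩

theorem hull_bd {Ψ : E → ℝ} (h : Ψ ∈ closure (convexHull ℝ (funs E))) (y : E) :
    0 ≤ Ψ y ∧ Ψ y ≤ (1 + ‖y‖) ^ 2 := by
  have hcl : IsClosed {g : E → ℝ | g y ∈ Icc 0 ((1 + ‖y‖) ^ 2)} :=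
    isClosed_Icc.preimage (continuous_apply y)
  have hcv : Convex ℝ {g : E → ℝ | g y ∈ Icc 0 ((1 + ‖y‖) ^ 2)} := by
    intro g hg g' hg' s t hs ht hst
    exact (convex_Icc (0 : ℝ) ((1 + ‖y‖) ^ 2)) hg hg' hs ht hst
  refine closure_minimal (convexHull_min ?_ hcv) hcl h
  rintro _ ⟨x, hx, rfl⟩
  show ‖x + y‖ ^ 2 ∈ Icc 0 ((1 + ‖y‖) ^ 2)
  refine ⟨by positivity, ?_⟩
  have := norm_add_le x y
  rw [hx] at this
  exact pow_le_pow_left₀ (norm_nonneg _) this 2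

theorem type_bd {g : E → ℝ} (h : g ∈ closure (funs E)) (y : E) :
    0 ≤ g y ∧ g y ≤ (1 + ‖y‖) ^ 2 :=
  hull_bd (closure_mono (subset_convexHull ℝ _) h) y

theorem type_sqrt {g : E → ℝ} (h : g ∈ closure (funs E)) {y : E} {r : ℝ} (hy : ‖y‖ ≤ r) :
    |√(g y)| ≤ 1 + r := by
  obtain ⟨h1, h2⟩ := type_bd h y
  rw [abs_of_nonneg (Real.sqrt_nonneg _)]
  have h3 : √(g y) ≤ √((1 + ‖y‖) ^ 2) := Real.sqrt_le_sqrt h2
  rw [Real.sqrt_sq (by positivity)] at h3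
  linarith

theorem type_lim {g : E → ℝ} {x z : ℕ → E}
    (h : ∀ n, ∀ m ≤ n, |‖x n + z m‖ ^ 2 - g (z m)| < 1 / ((n : ℝ) + 1)) (m : ℕ) :
    Tendsto (fun n => ‖x n + z m‖) atTop (𝓝 √(g (z m))) := by
  have h1 : Tendsto (fun n => ‖x n + z m‖ ^ 2) atTop (𝓝 (g (z m))) := by
    rw [tendsto_iff_dist_tendsto_zero]
    refine squeeze_zero' (Eventually.of_forall fun _ => dist_nonneg) ?_
      tendsto_one_div_add_atTop_nhds_zero_nat
    filter_upwards [eventually_ge_atTop m] with n hn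
    rw [Real.dist_eq]
    exact (h n m hn).le
  have h2 := (Real.continuous_sqrt.tendsto _).comp h1
  refine h2.congr fun n => ?_
  show √(‖x n + z m‖ ^ 2) = _
  rw [Real.sqrt_sq (norm_nonneg _)]

/-- The limits along two sequences which are asymptotically not distinguished by a dense sequence. -/
theorem same_lim {d : ℕ → E} (hd : DenseRange d) {y y' : ℕ → E} {r : ℝ}
    (hy : ∀ m, ‖y m‖ ≤ r) (hy' : ∀ m, ‖y' m‖ ≤ r)
    (hk : ∀ m, ∀ k < m, |‖d k + y m‖ ^ 2 - ‖d k + y' m‖ ^ 2| ≤ 1 / ((m : ℝ) + 1))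
    {φ : ℕ → ℕ} (hφ : StrictMono φ) {x : E} {α : ℝ} 
    (h : Tendsto (fun m => ‖x + y (φ m)‖) atTop (𝓝 α)) :
    Tendsto (fun m => ‖x + y' (φ m)‖) atTop (𝓝 α) := by
  have hr : 0 ≤ r := (norm_nonneg _).trans (hy 0)
  have hα : 0 ≤ α := ge_of_tendsto' h fun m => norm_nonneg _
  have h0 : Tendsto (fun m => ‖x + y' (φ m)‖ ^ 2 - ‖x + y (φ m)‖ ^ 2) atTop (𝓝 0) := by
    rw [Metric.tendsto_atTop]
    intro η hη
    set B : ℝ := 2 * ‖x‖ + 1 + 2 * r with hB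
    have hB0 : 0 < B := by positivity
    obtain ⟨k, hk1⟩ := hd.exists_dist_lt x (show 0 < min 1 (η / (4 * B)) by positivity)
    rw [dist_eq_norm] at hk1
    have hk2 : ‖x - d k‖ ≤ η / (4 * B) := hk1.le.trans (min_le_right _ _)
    have hk3 : ‖x - d k‖ ≤ 1 := hk1.le.trans (min_le_left _ _)
    have hdk : ‖d k‖ ≤ ‖x‖ + 1 := by
      have : d k = x - (x - d k) := by abel
      rw [this]
      exact (norm_sub_le _ _).trans (by linarith)
    have hz : ∀ z : E, ‖z‖ ≤ r → |‖x + z‖ ^ 2 - ‖d k + z‖ ^ 2| ≤ η / 4 := by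
      intro z hz
      refine (sq_lip x (d k) z z).trans ?_
      rw [sub_self, norm_zero, add_zero]
      calc (‖x‖ + ‖d k‖ + ‖z‖ + ‖z‖) * ‖x - d k‖ ≤ B * (η / (4 * B)) :=
            mul_le_mul (by rw [hB]; linarith) hk2 (norm_nonneg _) hB0.le
        _ = η / 4 := by field_simp
    obtain ⟨N, hN⟩ := exists_nat_one_div_lt (show (0 : ℝ) < η / 4 by positivity)
    refine ⟨max N (k + 1), fun m hm => ?_⟩
    have hm1 : m ≤ φ m := hφ.id_le m
    have hmk : k < φ m := by have := (le_max_right _ _).trans hm; omega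
    have hmN : N ≤ φ m := ((le_max_left _ _).trans hm).trans hm1
    have h1 := hz _ (hy (φ m))
    have h2 := hz _ (hy' (φ m))
    have h3 := hk (φ m) k hmk
    have h4 : 1 / ((φ m : ℝ) + 1) ≤ 1 / ((N : ℝ) + 1) := by
      have : (N : ℝ) ≤ φ m := by exact_mod_cast hmN
      gcongr
    rw [dist_zero_right, Real.norm_eq_abs]
    have h1' := abs_le.1 h1
    have h2' := abs_le.1 h2
    have h3' := abs_le.1 h3
    rw [abs_lt]
    constructor <;> linarith [h1'.1, h1'.2, h2'.1, h2'.2, h3'.1, h3'.2]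
  have h1 : Tendsto (fun m => ‖x + y' (φ m)‖ ^ 2) atTop (𝓝 (α ^ 2)) := by
    have h2 := h0.add (h.pow 2)
    rw [zero_add] at h2
    refine h2.congr fun m => ?_
    ring
  have h2 := (Real.continuous_sqrt.tendsto _).comp h1
  rw [Real.sqrt_sq hα] at h2
  refine h2.congr fun n => ?_
  show √(‖x + y' (φ n)‖ ^ 2) = _
  rw [Real.sqrt_sq (norm_nonneg _)]

theorem unif (hst : Stable E) {d : ℕ → E} (hd : DenseRange d) {g : E → ℝ}
    (hg : g ∈ closure (funs E)) (r : ℝ) {ε : ℝ} (hε : 0 < ε) :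
    ∃ m : ℕ, ∀ y y' : E, ‖y‖ ≤ r → ‖y'‖ ≤ r →
      (∀ k < m, |‖d k + y‖ ^ 2 - ‖d k + y'‖ ^ 2| ≤ 1 / ((m : ℝ) + 1)) → |g y - g y'| ≤ ε := by
  classical
  by_contra hcon
  push Not at hcon
  choose y y' hy hy' hk hne using hcon
  have h1 : ∀ n : ℕ, ∃ x : E, ‖x‖ = 1 ∧ ∀ z ∈ (Finset.range (n + 1)).image y ∪
      (Finset.range (n + 1)).image y', |‖x + z‖ ^ 2 - g z| < 1 / ((n : ℝ) + 1) :=
    fun n => approx hg _ (by positivity)
  choose x hx hxg using h1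
  have hl : ∀ m, Tendsto (fun n => ‖x n + y m‖) atTop (𝓝 √(g (y m))) :=
    type_lim fun n m hm => hxg n (y m) (Finset.mem_union_left _ (Finset.mem_image_of_mem _
      (Finset.mem_range.2 (by omega))))
  have hl' : ∀ m, Tendsto (fun n => ‖x n + y' m‖) atTop (𝓝 √(g (y' m))) :=
    type_lim fun n m hm => hxg n (y' m) (Finset.mem_union_right _ (Finset.mem_image_of_mem _
      (Finset.mem_range.2 (by omega))))
  have hr : 0 ≤ r := (norm_nonneg _).trans (hy 0)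
  -- first subsequence
  let F : ℕ → ℕ → ℝ := fun m n => match n with
    | 0 => √(g (y m))
    | 1 => √(g (y' m))
    | (n + 2) => ‖x n + y m‖
  have hF : ∀ m n, |F m n| ≤ 1 + r := by
    intro m n
    match n with
    | 0 => exact type_sqrt hg (hy m)
    | 1 => exact type_sqrt hg (hy' m)
    | (n + 2) =>
      show |‖x n + y m‖| ≤ 1 + r
      rw [abs_of_nonneg (norm_nonneg _)]
      refine (norm_add_le _ _).trans ?_
      rw [hx n]
      linarith [hy m]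
  obtain ⟨φ, hφ, α, hα⟩ := subseq F (fun _ => 1 + r) hF
  have hα0 : Tendsto (fun m => √(g (y (φ m)))) atTop (𝓝 (α 0)) := hα 0
  have hα1 : Tendsto (fun m => √(g (y' (φ m)))) atTop (𝓝 (α 1)) := hα 1
  have hα2 : ∀ n, Tendsto (fun m => ‖x n + y (φ m)‖) atTop (𝓝 (α (n + 2))) := fun n => hα (n + 2)
  have hα3 : ∀ n, Tendsto (fun m => ‖x n + y' (φ m)‖) atTop (𝓝 (α (n + 2))) :=
    fun n => same_lim hd hy hy' hk hφ (hα2 n)
  have hαb : ∀ n, |α (n + 2)| ≤ 1 + r := by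
    intro n
    have h2 := (hα2 n).abs
    exact le_of_tendsto' h2 fun m => hF (φ m) (n + 2)
  obtain ⟨ψ, hψ, β, hβ⟩ := subseq (fun m _ => α (m + 2)) (fun _ => 1 + r) (fun m _ => hαb m)
  have hβ0 : Tendsto (fun n => α (ψ n + 2)) atTop (𝓝 (β 0)) := hβ 0
  have hC : ∀ n, ‖(x ∘ ψ) n‖ ≤ 1 + r := fun n => by
    show ‖x (ψ n)‖ ≤ 1 + r
    rw [hx]; linarith
  have e1 : β 0 = α 0 := hst (x ∘ ψ) (y ∘ φ) (1 + r) hC (fun n => (hy _).trans (by linarith))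
    (fun n => α (ψ n + 2)) (fun m => √(g (y (φ m)))) _ _ (fun n => hα2 (ψ n))
    (fun m => (hl (φ m)).comp hψ.tendsto_atTop) hβ0 hα0
  have e2 : β 0 = α 1 := hst (x ∘ ψ) (y' ∘ φ) (1 + r) hC (fun n => (hy' _).trans (by linarith))
    (fun n => α (ψ n + 2)) (fun m => √(g (y' (φ m)))) _ _ (fun n => hα3 (ψ n))
    (fun m => (hl' (φ m)).comp hψ.tendsto_atTop) hβ0 hα1
  have e3 : α 0 = α 1 := e1.symm.trans e2
  have h5 : Tendsto (fun m => |g (y (φ m)) - g (y' (φ m))|) atTop (𝓝 0) := by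
    have h6 := ((hα0.pow 2).sub (hα1.pow 2)).abs
    rw [e3, sub_self, abs_zero] at h6
    refine h6.congr fun m => ?_
    rw [Real.sq_sqrt (type_bd hg _).1, Real.sq_sqrt (type_bd hg _).1]
  have h7 : ε ≤ 0 := ge_of_tendsto' h5 fun m => (hne (φ m)).le
  linarith

/-- **Haydon, Maurey**: the types are separable for uniform convergence on bounded sets. -/
theorem separableTypes_of_stable [TopologicalSpace.SeparableSpace E] (hst : Stable E) :
    SeparableTypes E := by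
  classical
  intro r
  set d : ℕ → E := TopologicalSpace.denseSeq E with hdd
  have hd : DenseRange d := TopologicalSpace.denseRange_denseSeq E
  let cell : (m : ℕ) → E → Fin m → ℤ := fun m y k => ⌊((m : ℝ) + 1) * ‖d k + y‖ ^ 2⌋
  let D' : (Σ m : ℕ, ((Fin m → ℤ) →₀ ℚ)) → E → ℝ := fun i y => ((i.2 (cell i.1 y) : ℚ) : ℝ)
  have : Nonempty (Σ m : ℕ, ((Fin m → ℤ) →₀ ℚ)) := ⟨⟨0, 0⟩⟩
  obtain ⟨e, he⟩ := exists_surjective_nat (Σ m : ℕ, ((Fin m → ℤ) →₀ ℚ))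
  refine ⟨fun k => D' (e k), fun g hg δ hδ => ?_⟩
  obtain ⟨m, hm⟩ := unif hst hd hg r (show 0 < δ / 2 by positivity)
  have hcell : ∀ y y' : E, ‖y‖ ≤ r → ‖y'‖ ≤ r → cell m y = cell m y' → |g y - g y'| ≤ δ / 2 := by
    intro y y' hy hy' h
    refine hm y y' hy hy' fun k hk => ?_
    have h1 : ⌊((m : ℝ) + 1) * ‖d k + y‖ ^ 2⌋ = ⌊((m : ℝ) + 1) * ‖d k + y'‖ ^ 2⌋ :=
      congrFun h ⟨k, hk⟩
    have h2 := Int.abs_sub_lt_one_of_floor_eq_floor h1
    rw [← mul_sub, abs_mul, abs_of_pos (show (0 : ℝ) < (m : ℝ) + 1 by positivity)] at h2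
    rw [le_div_iff₀ (by positivity)]
    linarith
  have hfin : (cell m '' {y | ‖y‖ ≤ r}).Finite := by
    refine (Set.Finite.pi (t := fun k : Fin m =>
      Icc (0 : ℤ) ⌊((m : ℝ) + 1) * (‖d k‖ + r) ^ 2⌋) fun k => finite_Icc _ _).subset ?_
    rintro _ ⟨y, hy, rfl⟩ k -
    have hy' : ‖y‖ ≤ r := hy
    have h1 : ‖d k + y‖ ≤ ‖d k‖ + r := (norm_add_le _ _).trans (by linarith)
    refine ⟨Int.floor_nonneg.2 (by positivity), Int.floor_le_floor ?_⟩
    have := pow_le_pow_left₀ (norm_nonneg _) h1 2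
    gcongr
  have hv : ∀ c : Fin m → ℤ, ∃ v : ℚ, (∀ y, ‖y‖ ≤ r → cell m y = c → |g y - v| ≤ δ) ∧
      (c ∉ cell m '' {y | ‖y‖ ≤ r} → v = 0) := by
    intro c
    by_cases hc : c ∈ cell m '' {y | ‖y‖ ≤ r}
    · obtain ⟨y₀, hy₀, rfl⟩ := hc
      obtain ⟨v, hv1, hv2⟩ := exists_rat_btwn (show g y₀ - δ / 2 < g y₀ + δ / 2 by linarith)
      refine ⟨v, fun y hy h => ?_, fun h => absurd ⟨y₀, hy₀, rfl⟩ h⟩
      have h1 := abs_le.1 (hcell y y₀ hy hy₀ h)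
      rw [abs_le]
      constructor <;> linarith [h1.1, h1.2]
    · refine ⟨0, fun y hy h => absurd ⟨y, hy, h⟩ hc, fun _ => rfl⟩
  choose v hv1 hv2 using hv
  let q : (Fin m → ℤ) →₀ ℚ := Finsupp.onFinset hfin.toFinset v fun c hc => by
    rw [Set.Finite.mem_toFinset]
    by_contra h
    exact hc (hv2 c h)
  obtain ⟨k, hk⟩ := he ⟨m, q⟩
  refine ⟨k, fun y hy => ?_⟩
  show |g y - D' (e k) y| ≤ δ
  rw [hk]
  exact hv1 _ y hy rfl

end Run7.h421.BM
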