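import Pool.Agent.Run7.h421.BMa
import Pool.Agent.Run7.h421.BMb
import Pool.Agent.Run7.h421.BMd

/-!
Separable types: an invariant function in the closed convex hull.
-/

set_option autoImplicit false

open Set Topology Filter

namespace Run7.h421.BM

variable {E : Type} [NormedAddCommGroup E] [NormedSpace ℝ E]

theorem compact_hull : IsCompact (closure (convexHull ℝ (funs E))) := by
  have hc : IsCompact (Set.pi univ fun y : E => Icc (0 : ℝ) ((1 + ‖y‖) ^ 2)) :=
    isCompact_univ_pi fun n => isCompact_Icc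
  exact hc.of_isClosed_subset isClosed_closure fun g hg y _ => hull_bd hg y

theorem compact_types : IsCompact (closure (funs E)) :=
  (compact_hull (E := E)).of_isClosed_subset isClosed_closure
    (closure_mono (subset_convexHull ℝ _))

/-- **Existence of an invariant function.** -/
theorem exists_inv (hS : SeparableTypes E) (hne : ∃ x : E, ‖x‖ = 1) :
    ∃ Ψ ∈ closure (convexHull ℝ (funs E)), ∀ (T : E ≃ₗᵢ[ℝ] E) (y : E), Ψ (T y) = Ψ y := by
  classical
  letI : MulAction (E ≃ₗᵢ[ℝ] E) E :=
    { smul := fun T x => T x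
      one_smul := fun _ => rfl
      mul_smul := fun _ _ _ => rfl }
  obtain ⟨x₀, hx₀⟩ := hne
  have hinv1 : ∀ T : E ≃ₗᵢ[ℝ] E, ∀ f ∈ funs E, act T f ∈ funs E := by
    rintro T _ ⟨x, hx, rfl⟩
    refine ⟨T x, by rw [T.norm_map, hx], ?_⟩
    funext y
    show ‖x + T.symm y‖ ^ 2 = ‖T x + y‖ ^ 2
    rw [← T.norm_map (x + T.symm y), map_add, T.apply_symm_apply]
  have hinv2 : ∀ T : E ≃ₗᵢ[ℝ] E, MapsTo (act T) (convexHull ℝ (funs E))
      (convexHull ℝ (funs E)) := by
    intro T
    have hc : Convex ℝ (act T ⁻¹' (convexHull ℝ (funs E))) := by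
      intro a ha b hb s t hs ht hst
      have h2 : s • act T a + t • act T b ∈ convexHull ℝ (funs E) :=
        (convex_convexHull ℝ _) ha hb hs ht hst
      exact h2
    exact convexHull_min (fun f hf => subset_convexHull ℝ _ (hinv1 T f hf)) hc
  have h := fixed_fun (G := E ≃ₗᵢ[ℝ] E) (closure (convexHull ℝ (funs E)))
    ⟨_, subset_closure (subset_convexHull ℝ _ ⟨x₀, hx₀, rfl⟩)⟩ compact_hull
    (convex_convexHull ℝ _).closure
    (fun T f hf => (hinv2 T).closure (continuous_act T) hf)
    (fun n => {y | ‖y‖ ≤ (n : ℝ)})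
    (fun n T y hy => by
      show ‖T y‖ ≤ (n : ℝ)
      rw [T.norm_map]
      exact hy)
    (fun y => exists_nat_ge ‖y‖)
    (fun n => ⟨(1 + (n : ℝ)) ^ 2, fun f hf y hy => by
      obtain ⟨h1, h2⟩ := hull_bd hf y
      have hy' : ‖y‖ ≤ (n : ℝ) := hy
      rw [abs_of_nonneg h1]
      refine h2.trans ?_
      gcongr⟩)
    (fun n => by
      obtain ⟨D, hD⟩ := hull_sep (closure (funs E)) compact_types {y | ‖y‖ ≤ (n : ℝ)}
        ((1 + (n : ℝ)) ^ 2) (by positivity)
        (fun f hf y hy => by
          obtain ⟨h1, h2⟩ := type_bd hf y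
          have hy' : ‖y‖ ≤ (n : ℝ) := hy
          rw [abs_of_nonneg h1]
          refine h2.trans ?_
          gcongr)
        (hS n)
      exact ⟨D, fun f hf => hD f (closure_mono (convexHull_mono subset_closure) hf)⟩)
  exact h

end Run7.h421.BM
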