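import Pool.Agent.Run7.h421.BMe

/-!
Hilbert spaces: Taylor expansion, invariant function, stability.
-/

set_option autoImplicit false

open Set Topology Filter Asymptotics
open scoped InnerProductSpace

namespace Run7.h421.BM

section H

variable {H : Type} [NormedAddCommGroup H] [InnerProductSpace ℝ H]

theorem exists_lim (U : Ultrafilter ℕ) (f : ℕ → ℝ) (C : ℝ) (hC : ∀ n, |f n| ≤ C) :
    ∃ l, Tendsto f U (𝓝 l) := by
  have hc : IsCompact (Icc (-C) C) := isCompact_Icc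
  obtain ⟨l, -, hl⟩ := hc.ultrafilter_le_nhds' (U.map f) (by
    rw [Ultrafilter.mem_map]
    exact Filter.univ_mem' fun n => abs_le.1 (hC n))
  exact ⟨l, hl⟩

theorem exists_wlim [CompleteSpace H] (U : Ultrafilter ℕ) (y : ℕ → H) (C : ℝ)
    (hC : ∀ n, ‖y n‖ ≤ C) : ∃ y₀ : H, ∀ z, Tendsto (fun n => ⟪y n, z⟫_ℝ) U (𝓝 ⟪y₀, z⟫_ℝ) := by
  have hb : ∀ z n, |⟪y n, z⟫_ℝ| ≤ C * ‖z‖ := fun z n =>
    (abs_real_inner_le_norm _ _).trans (mul_le_mul_of_nonneg_right (hC n) (norm_nonneg _))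
  choose l hl using fun z => exists_lim U (fun n => ⟪y n, z⟫_ℝ) (C * ‖z‖) (hb z)
  let L : H →ₗ[ℝ] ℝ :=
    { toFun := l
      map_add' := fun u v => by
        have h1 := (hl u).add (hl v)
        refine tendsto_nhds_unique (hl (u + v)) (h1.congr fun n => ?_)
        rw [inner_add_right]
      map_smul' := fun c u => by
        have h1 := (hl u).const_mul c
        refine tendsto_nhds_unique (hl (c • u)) (h1.congr fun n => ?_)
        rw [real_inner_smul_right] }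
  let L' : StrongDual ℝ H := L.mkContinuous C fun z => by
    rw [Real.norm_eq_abs]
    exact le_of_tendsto' (hl z).abs fun n => hb z n
  refine ⟨(InnerProductSpace.toDual ℝ H).symm L', fun z => ?_⟩
  rw [InnerProductSpace.toDual_symm_apply]
  exact hl z

end H

variable {E : Type} [NormedAddCommGroup E] [NormedSpace ℝ E]

theorem sq_add {H : Type} [NormedAddCommGroup H] [InnerProductSpace ℝ H] (Φ : E ≃ₗᵢ[ℝ] H)
    (x y : E) : ‖x + y‖ ^ 2 = ‖x‖ ^ 2 + 2 * ⟪Φ x, Φ y⟫_ℝ + ‖y‖ ^ 2 := by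
  rw [← Φ.norm_map (x + y), map_add, norm_add_sq_real, Φ.norm_map, Φ.norm_map]

theorem taylor_of_hilbert (h : IsHilbert E) (hne : ∃ x : E, ‖x‖ = 1) : TaylorPoint E := by
  obtain ⟨H, _, _, _, ⟨Φ⟩⟩ := h
  obtain ⟨x, hx⟩ := hne
  let A : E →ₗ[ℝ] E →ₗ[ℝ] ℝ := LinearMap.mk₂ ℝ (fun u v => ⟪Φ u, Φ v⟫_ℝ)
    (fun u v w => by rw [map_add, inner_add_left])
    (fun c u v => by rw [map_smul, real_inner_smul_left, smul_eq_mul])
    (fun u v w => by rw [map_add, inner_add_right])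
    (fun c u v => by rw [map_smul, real_inner_smul_right, smul_eq_mul])
  let a : E →L[ℝ] E →L[ℝ] ℝ := LinearMap.mkContinuous₂ A 1 fun u v => by
    rw [Real.norm_eq_abs, one_mul]
    refine (abs_real_inner_le_norm _ _).trans ?_
    rw [Φ.norm_map, Φ.norm_map]
  have ha : ∀ u v, a u v = ⟪Φ u, Φ v⟫_ℝ := fun u v => rfl
  refine ⟨x, (2 : ℝ) • a x, a, 1, hx, one_pos, fun w => ?_, ?_⟩
  · rw [ha, real_inner_self_eq_norm_sq, Φ.norm_map, one_mul]
  · have h0 : (fun w => ‖x + w‖ ^ 2 - 1 - ((2 : ℝ) • a x) w - a w w) = fun _ => (0 : ℝ) := by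
      funext w
      rw [sq_add Φ, hx, ContinuousLinearMap.smul_apply, ha, ha, real_inner_self_eq_norm_sq,
        Φ.norm_map, smul_eq_mul]
      ring
    rw [h0]
    exact isLittleO_zero _ _

theorem inv_of_hilbert (h : IsHilbert E) (hne : ∃ x : E, ‖x‖ = 1) :
    ∃ Ψ ∈ closure (convexHull ℝ (funs E)), ∀ (T : E ≃ₗᵢ[ℝ] E) (y : E), Ψ (T y) = Ψ y := by
  obtain ⟨H, _, _, _, ⟨Φ⟩⟩ := h
  obtain ⟨x, hx⟩ := hne
  refine ⟨fun y => 1 + ‖y‖ ^ 2, subset_closure ?_, fun T y => by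
    show 1 + ‖T y‖ ^ 2 = 1 + ‖y‖ ^ 2
    rw [T.norm_map]⟩
  have h1 : (fun y : E => ‖x + y‖ ^ 2) ∈ convexHull ℝ (funs E) :=
    subset_convexHull ℝ _ ⟨x, hx, rfl⟩
  have h2 : (fun y : E => ‖-x + y‖ ^ 2) ∈ convexHull ℝ (funs E) :=
    subset_convexHull ℝ _ ⟨-x, by rw [norm_neg, hx], rfl⟩
  have h3 := (convex_convexHull ℝ (funs E)) h1 h2 (a := 1 / 2) (b := 1 / 2) (by norm_num)
    (by norm_num) (by norm_num)
  have h4 : (fun y : E => 1 + ‖y‖ ^ 2) = (1 / 2 : ℝ) • (fun y : E => ‖x + y‖ ^ 2) +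
      (1 / 2 : ℝ) • (fun y : E => ‖-x + y‖ ^ 2) := by
    funext y
    show 1 + ‖y‖ ^ 2 = (1 / 2 : ℝ) * ‖x + y‖ ^ 2 + (1 / 2 : ℝ) * ‖-x + y‖ ^ 2
    rw [sq_add Φ, sq_add Φ, map_neg, inner_neg_left, norm_neg, hx]
    ring
  rw [h4]
  exact h3

theorem stable_of_hilbert (h : IsHilbert E) : Stable E := by
  obtain ⟨H, _, _, _, ⟨Φ⟩⟩ := h
  intro x y C hx hy α β a b hα hβ ha hb
  let U : Ultrafilter ℕ := hyperfilter ℕ
  have hU : (U : Filter ℕ) ≤ atTop := by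
    rw [← Nat.cofinite_eq_atTop]
    exact hyperfilter_le_cofinite
  have hC : 0 ≤ C := (norm_nonneg _).trans (hx 0)
  have hb2 : ∀ z : ℕ → E, (∀ n, ‖z n‖ ≤ C) → ∀ n, |‖z n‖ ^ 2| ≤ C ^ 2 := by
    intro z hz n
    rw [abs_of_nonneg (by positivity)]
    exact pow_le_pow_left₀ (norm_nonneg _) (hz n) 2
  obtain ⟨A, hA⟩ := exists_lim U (fun n => ‖x n‖ ^ 2) (C ^ 2) (hb2 x hx)
  obtain ⟨B, hB⟩ := exists_lim U (fun n => ‖y n‖ ^ 2) (C ^ 2) (hb2 y hy)
  obtain ⟨X, hX⟩ := exists_wlim U (fun n => Φ (x n)) C fun n => by rw [Φ.norm_map]; exact hx n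
  obtain ⟨Y, hY⟩ := exists_wlim U (fun n => Φ (y n)) C fun n => by rw [Φ.norm_map]; exact hy n
  have h1 : ∀ n, α n ^ 2 = ‖x n‖ ^ 2 + 2 * ⟪Φ (x n), Y⟫_ℝ + B := by
    intro n
    refine tendsto_nhds_unique (((hα n).mono_left hU).pow 2) ?_
    have h2 := ((tendsto_const_nhds (x := ‖x n‖ ^ 2) (f := (U : Filter ℕ))).add
      ((hY (Φ (x n))).const_mul 2)).add hB
    rw [real_inner_comm] at h2
    refine h2.congr fun m => ?_
    rw [sq_add Φ, real_inner_comm]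
  have h2 : ∀ m, β m ^ 2 = A + 2 * ⟪X, Φ (y m)⟫_ℝ + ‖y m‖ ^ 2 := by
    intro m
    refine tendsto_nhds_unique (((hβ m).mono_left hU).pow 2) ?_
    have h2 := (hA.add ((hX (Φ (y m))).const_mul 2)).add
      (tendsto_const_nhds (x := ‖y m‖ ^ 2) (f := (U : Filter ℕ)))
    refine h2.congr fun n => ?_
    rw [sq_add Φ]
  have h3 : a ^ 2 = A + 2 * ⟪X, Y⟫_ℝ + B := by
    refine tendsto_nhds_unique ((ha.mono_left hU).pow 2) ?_
    refine ((hA.add ((hX Y).const_mul 2)).add tendsto_const_nhds).congr fun n => (h1 n).symm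
  have h4 : b ^ 2 = A + 2 * ⟪X, Y⟫_ℝ + B := by
    refine tendsto_nhds_unique ((hb.mono_left hU).pow 2) ?_
    have h5 := ((tendsto_const_nhds (x := A) (f := (U : Filter ℕ))).add
      ((hY X).const_mul 2)).add hB
    rw [real_inner_comm] at h5
    refine h5.congr fun m => ?_
    rw [h2, real_inner_comm]
  have ha0 : 0 ≤ a := ge_of_tendsto' ha fun n => ge_of_tendsto' (hα n) fun m => norm_nonneg _
  have hb0 : 0 ≤ b := ge_of_tendsto' hb fun n => ge_of_tendsto' (hβ n) fun m => norm_nonneg _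
  have h5 : a ^ 2 = b ^ 2 := h3.trans h4.symm
  exact (pow_left_inj₀ ha0 hb0 two_ne_zero).1 h5

end Run7.h421.BM
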