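import Pool.Agent.Run7.h421.BMf

/-!
Quadratic scales: the parallelogram defect of the second differences at one point of the sphere is
negligible compared with their least value, at some scales. Together with an invariant function this
forces the parallelogram law.
-/

set_option autoImplicit false

open Set Topology Filter Asymptotics

namespace Run7.h421.BM

/-- the second difference of the square of the norm at `x` (a unit vector) -/
def sdiff {E : Type} [NormedAddCommGroup E] (x w : E) : ℝ := ‖x + w‖ ^ 2 + ‖x - w‖ ^ 2 - 2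

/-- **Quadratic scales.** At some point `x` of the unit sphere and for every `ε > 0` there is a scale
`r > 0` such that the second differences of the square of the norm at `x` satisfy the parallelogram law
on the ball of radius `r` up to `ε` times a lower bound of them on the sphere of radius `r`. -/
def QuadraticScales (E : Type) [NormedAddCommGroup E] : Prop :=
  ∃ x : E, ‖x‖ = 1 ∧ ∀ ε : ℝ, 0 < ε → ∃ r m : ℝ, 0 < r ∧ 0 < m ∧ (∀ w, ‖w‖ = r → m ≤ sdiff x w) ∧
    ∀ u v : E, ‖u‖ ≤ r → ‖v‖ ≤ r →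
      |sdiff x (u + v) + sdiff x (u - v) - 2 * sdiff x u - 2 * sdiff x v| ≤ ε * m

variable {E : Type} [NormedAddCommGroup E] [NormedSpace ℝ E]

/-- the functions of the orbit of a point -/
def orb (x : E) : Set (E → ℝ) := {g | ∃ T : E ≃ₗᵢ[ℝ] E, g = fun y => ‖T x + y‖ ^ 2}

theorem hull_orb (hA : ∀ x y : E, ‖x‖ = 1 → ‖y‖ = 1 → ∀ ε : ℝ, 0 < ε →
      ∃ T : E ≃ₗᵢ[ℝ] E, ‖T x - y‖ < ε) {x₀ : E} (hx₀ : ‖x₀‖ = 1) :
    closure (convexHull ℝ (funs E)) ⊆ closure (convexHull ℝ (orb x₀)) := by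
  refine closure_minimal (convexHull_min ?_ (convex_convexHull ℝ _).closure) isClosed_closure
  rintro _ ⟨x, hx, rfl⟩
  have hc : Continuous fun z : E => (fun y : E => ‖z + y‖ ^ 2) :=
    continuous_pi fun y => by fun_prop
  have hx' : x ∈ closure (range fun T : E ≃ₗᵢ[ℝ] E => T x₀) := by
    rw [Metric.mem_closure_range_iff]
    intro ε hε
    obtain ⟨T, hT⟩ := hA x₀ x hx₀ hx ε hε
    refine ⟨T, ?_⟩
    rw [dist_comm, dist_eq_norm]
    exact hT
  have h1 : (fun y : E => ‖x + y‖ ^ 2) ∈ closure (orb x₀) := by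
    refine map_mem_closure hc hx' ?_
    rintro _ ⟨T, rfl⟩
    exact ⟨T, rfl⟩
  exact closure_mono (subset_convexHull ℝ _) h1

theorem hull_le {x₀ : E} {Ψ : E → ℝ} (hΨ : Ψ ∈ closure (convexHull ℝ (orb x₀)))
    (L : (E → ℝ) → ℝ) (hL : Continuous L)
    (hL2 : ∀ f g : E → ℝ, ∀ s t : ℝ, 0 ≤ s → 0 ≤ t → s + t = 1 →
      L (s • f + t • g) ≤ s * L f + t * L g)
    {C : ℝ} (h : ∀ T : E ≃ₗᵢ[ℝ] E, L (fun y => ‖T x₀ + y‖ ^ 2) ≤ C) : L Ψ ≤ C := by
  have hcl : IsClosed {g : E → ℝ | L g ≤ C} := isClosed_le hL continuous_const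
  have hcv : Convex ℝ {g : E → ℝ | L g ≤ C} := by
    intro g hg g' hg' s t hs ht hst
    have h1 : L g ≤ C := hg
    have h2 : L g' ≤ C := hg'
    have h3 := mul_le_mul_of_nonneg_left h1 hs
    have h4 := mul_le_mul_of_nonneg_left h2 ht
    have h5 : s * C + t * C = C := by rw [← add_mul, hst, one_mul]
    exact (hL2 g g' s t hs ht hst).trans (by linarith)
  refine closure_minimal (convexHull_min ?_ hcv) hcl hΨ
  rintro _ ⟨T, rfl⟩
  exact h T

theorem sdiff_map (T : E ≃ₗᵢ[ℝ] E) (x w : E) :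
    ‖T x + w‖ ^ 2 + ‖T x + -w‖ ^ 2 - 2 = sdiff x (T.symm w) := by
  unfold sdiff
  have h1 : ∀ z : E, ‖T x + z‖ = ‖x + T.symm z‖ := fun z => by
    rw [← T.norm_map (x + T.symm z), map_add, T.apply_symm_apply]
  rw [h1, h1, map_neg, ← sub_eq_add_neg]

/-- a function on `[0,1]` with the quadratic functional equation -/
theorem sq_of_par {G : ℝ → ℝ} (h1 : G 1 = 1) (h0 : G 0 = 0)
    (hm : ∀ s t, 0 ≤ s → s ≤ t → t ≤ 1 → G s ≤ G t)
    (hp : ∀ s t, 0 ≤ t → t ≤ s → s + t ≤ 1 → G (s + t) + G (s - t) = 2 * G s + 2 * G t)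
    {q : ℝ} (hq0 : 0 ≤ q) (hq1 : q ≤ 1) : G q = q ^ 2 := by
  have hk : ∀ N : ℕ, 0 < N → ∀ k : ℕ, k + 1 ≤ N →
      G (k / N) = k ^ 2 * G (1 / N) ∧ G ((k + 1 : ℕ) / N) = (k + 1 : ℕ) ^ 2 * G (1 / N) := by
    intro N hN k
    have hN' : (0 : ℝ) < N := by exact_mod_cast hN
    induction k with
    | zero => intro _; simp [h0]
    | succ k ih =>
      intro hk
      obtain ⟨h2, h3⟩ := ih (by omega)
      refine ⟨h3, ?_⟩
      have h4 := hp ((k + 1 : ℕ) / N) (1 / N) (by positivity) (by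
        gcongr
        push_cast
        linarith [(Nat.cast_nonneg k : (0 : ℝ) ≤ k)]) (by
        rw [← add_div, div_le_one hN']
        exact_mod_cast hk)
      have e1 : ((k + 1 : ℕ) : ℝ) / N + 1 / N = ((k + 1 + 1 : ℕ) : ℝ) / N := by
        push_cast; ring
      have e2 : ((k + 1 : ℕ) : ℝ) / N - 1 / N = (k : ℝ) / N := by
        push_cast; ring
      rw [e1, e2, h2, h3] at h4
      push_cast at h4 ⊢
      linarith
  have hkN : ∀ N : ℕ, 0 < N → ∀ k : ℕ, k ≤ N → G (k / N) = ((k : ℝ) / N) ^ 2 := by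
    intro N hN k hkN
    have hN' : (0 : ℝ) < N := by exact_mod_cast hN
    have h2 : G (1 / N) = 1 / (N : ℝ) ^ 2 := by
      have h3 := (hk N hN (N - 1) (by omega)).2
      have e : N - 1 + 1 = N := by omega
      rw [e, div_self hN'.ne', h1] at h3
      field_simp
      linarith
    rcases k with _ | k
    · simp [h0]
    · rw [(hk N hN k hkN).2, h2]
      field_simp
  rcases hq1.lt_or_eq with hq1 | rfl
  · -- approximation
    have hb : ∀ N : ℕ, 0 < N → |G q - q ^ 2| ≤ 3 / N := by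
      intro N hN
      have hN' : (0 : ℝ) < N := by exact_mod_cast hN
      set k := ⌊q * N⌋₊ with hkd
      have h2 : (k : ℝ) ≤ q * N := Nat.floor_le (by positivity)
      have h3 : q * N < k + 1 := Nat.lt_floor_add_one _
      have h4 : k + 1 ≤ N := by
        have : (k : ℝ) < N := h2.trans_lt (by nlinarith)
        exact_mod_cast this
      have h5 : (k : ℝ) / N ≤ q := by rwa [div_le_iff₀ hN']
      have h6 : q ≤ ((k + 1 : ℕ) : ℝ) / N := by
        rw [le_div_iff₀ hN']; push_cast; exact h3.le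
      have h7 : ((k + 1 : ℕ) : ℝ) / N ≤ 1 := by
        rw [div_le_one hN']; exact_mod_cast h4
      have h8 := hm _ _ (by positivity) h5 hq1.le
      have h9 := hm _ _ hq0 h6 h7
      rw [hkN N hN k (by omega)] at h8
      rw [hkN N hN (k + 1) h4] at h9
      have e1 : ((k + 1 : ℕ) : ℝ) / N = (k : ℝ) / N + 1 / N := by push_cast; ring
      rw [e1] at h9 h6
      set a : ℝ := (k : ℝ) / N with ha
      set d : ℝ := 1 / N with hd
      have ha0 : 0 ≤ a := by positivity
      have hd0 : 0 < d := by positivity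
      have hd1 : d ≤ 1 := by
        rw [hd, div_le_one hN']
        exact_mod_cast hN
      have e3 : (3 : ℝ) / N = 3 * d := by rw [hd]; ring
      rw [e3, abs_le]
      constructor <;> nlinarith
    by_contra hne
    have h2 : 0 < |G q - q ^ 2| := abs_pos.2 (sub_ne_zero.2 hne)
    obtain ⟨N, hN⟩ := exists_nat_gt (3 / |G q - q ^ 2|)
    have hN0 : 0 < N := by
      have : (0 : ℝ) < N := lt_trans (by positivity) hN
      exact_mod_cast this
    have h3 := hb N hN0
    have hN' : (0 : ℝ) < N := by exact_mod_cast hN0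
    rw [div_lt_iff₀ h2] at hN
    rw [le_div_iff₀ hN'] at h3
    linarith
  · rw [h1]; norm_num


/-- **The main step**, with quadratic scales. -/
theorem par_of_scales (hA : ∀ x y : E, ‖x‖ = 1 → ‖y‖ = 1 → ∀ ε : ℝ, 0 < ε →
      ∃ T : E ≃ₗᵢ[ℝ] E, ‖T x - y‖ < ε) (hQ : QuadraticScales E) {Ψ : E → ℝ}
    (hΨ : Ψ ∈ closure (convexHull ℝ (funs E)))
    (hinv : ∀ (T : E ≃ₗᵢ[ℝ] E) (y : E), Ψ (T y) = Ψ y) (u v : E) :
    ‖u + v‖ * ‖u + v‖ + ‖u - v‖ * ‖u - v‖ = 2 * (‖u‖ * ‖u‖ + ‖v‖ * ‖v‖) := by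
  classical
  obtain ⟨x₀, hx₀, hQ⟩ := hQ
  have hΨ' := hull_orb hA hx₀ hΨ
  have hneg : ∀ y, Ψ (-y) = Ψ y := fun y => hinv (LinearIsometryEquiv.neg ℝ) y
  obtain ⟨F, hF⟩ : ∃ F : ℝ → ℝ, F = fun s => Ψ (s • x₀) := ⟨_, rfl⟩
  have hFs : ∀ s, F s = Ψ (s • x₀) := fun s => by rw [hF]
  have hrad : ∀ y, Ψ y = F ‖y‖ := by
    intro y
    rw [hFs]
    rcases eq_or_ne y 0 with rfl | hy
    · rw [norm_zero, zero_smul]
    · have hy0 : 0 < ‖y‖ := norm_pos_iff.2 hy
      have e : y = ‖y‖ • (‖y‖⁻¹ • y) := by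
        rw [smul_smul, mul_inv_cancel₀ hy0.ne', one_smul]
      conv_lhs => rw [e]
      refine radial hΨ hA hinv ?_ hx₀ hy0.le
      rw [norm_smul, norm_inv, norm_norm, inv_mul_cancel₀ hy0.ne']
  have hF0 : F 0 = 1 := by
    rw [hFs, zero_smul]
    refine le_antisymm ?_ ?_
    · refine hull_le hΨ' (fun g => g 0) (continuous_apply 0) (fun f g s t _ _ _ => le_rfl)
        fun T => ?_
      show ‖T x₀ + 0‖ ^ 2 ≤ 1
      rw [add_zero, T.norm_map, hx₀]; norm_num
    · have := hull_le hΨ' (fun g => -g 0) (continuous_apply 0).neg (C := -1)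
        (fun f g s t _ _ _ => by
          show -(s * f 0 + t * g 0) ≤ s * -f 0 + t * -g 0
          linarith) fun T => by
          show -‖T x₀ + 0‖ ^ 2 ≤ -1
          rw [add_zero, T.norm_map, hx₀]; norm_num
      linarith
  have hmono : ∀ s t, 0 ≤ s → s ≤ t → F s ≤ F t := by
    intro s t hs hst
    rcases hs.eq_or_lt with rfl | hs0
    · rcases hst.eq_or_lt with rfl | ht0
      · exact le_rfl
      · have h1 := hull_le hΨ' (fun g => g ((0 : ℝ) • x₀) - (1 / 2 * g (t • x₀) +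
          1 / 2 * g (-(t • x₀)))) (((continuous_apply _).sub
            (((continuous_apply _).const_mul _).add ((continuous_apply _).const_mul _))))
          (C := 0)
          (fun f g s t _ _ _ => by
            simp only [Pi.add_apply, Pi.smul_apply, smul_eq_mul]
            linarith) fun T => by
            show ‖T x₀ + (0 : ℝ) • x₀‖ ^ 2 - (1 / 2 * ‖T x₀ + t • x₀‖ ^ 2 +
              1 / 2 * ‖T x₀ + -(t • x₀)‖ ^ 2) ≤ 0
            have h2 : ‖T x₀ + (0 : ℝ) • x₀‖ ≤ 1 / 2 * ‖T x₀ + t • x₀‖ +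
                1 / 2 * ‖T x₀ + -(t • x₀)‖ := by
              have e : T x₀ + (0 : ℝ) • x₀ = (1 / 2 : ℝ) • (T x₀ + t • x₀) +
                  (1 / 2 : ℝ) • (T x₀ + -(t • x₀)) := by
                module
              rw [e]
              refine (norm_add_le _ _).trans ?_
              rw [norm_smul, norm_smul, Real.norm_of_nonneg (by norm_num : (0 : ℝ) ≤ 1 / 2)]
            nlinarith [norm_nonneg (T x₀ + (0 : ℝ) • x₀),
              sq_nonneg (‖T x₀ + t • x₀‖ - ‖T x₀ + -(t • x₀)‖),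
              norm_nonneg (T x₀ + t • x₀), norm_nonneg (T x₀ + -(t • x₀))]
        rw [hneg] at h1
        rw [hFs, hFs]
        linarith
    · have ht0 : 0 < t := hs0.trans_le hst
      set l : ℝ := (t + s) / (2 * t) with hl
      have hl0 : 0 ≤ l := by positivity
      have hl1 : l ≤ 1 := by rw [hl, div_le_one (by positivity)]; linarith
      have hlt : l * t + (1 - l) * (-t) = s := by rw [hl]; field_simp; ring
      have h1 := hull_le hΨ' (fun g => g (s • x₀) - (l * g (t • x₀) +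
        (1 - l) * g (-(t • x₀)))) (((continuous_apply _).sub
          (((continuous_apply _).const_mul _).add ((continuous_apply _).const_mul _))))
        (C := 0)
        (fun f g s t _ _ _ => by
          simp only [Pi.add_apply, Pi.smul_apply, smul_eq_mul]
          nlinarith) fun T => by
          show ‖T x₀ + s • x₀‖ ^ 2 - (l * ‖T x₀ + t • x₀‖ ^ 2 +
            (1 - l) * ‖T x₀ + -(t • x₀)‖ ^ 2) ≤ 0
          have h2 : ‖T x₀ + s • x₀‖ ≤ l * ‖T x₀ + t • x₀‖ +
              (1 - l) * ‖T x₀ + -(t • x₀)‖ := by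
            have e : T x₀ + s • x₀ = l • (T x₀ + t • x₀) +
                (1 - l) • (T x₀ + -(t • x₀)) := by
              rw [← hlt]
              module
            rw [e]
            refine (norm_add_le _ _).trans ?_
            rw [norm_smul, norm_smul, Real.norm_of_nonneg hl0,
              Real.norm_of_nonneg (by linarith : (0 : ℝ) ≤ 1 - l)]
          set a := ‖T x₀ + t • x₀‖ with ha
          set b := ‖T x₀ + -(t • x₀)‖ with hb
          have ha0 : 0 ≤ a := norm_nonneg _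
          have hb0 : 0 ≤ b := norm_nonneg _
          have h3 : ‖T x₀ + s • x₀‖ ^ 2 ≤ (l * a + (1 - l) * b) ^ 2 :=
            pow_le_pow_left₀ (norm_nonneg _) h2 2
          have h4 : (l * a + (1 - l) * b) ^ 2 ≤ l * a ^ 2 + (1 - l) * b ^ 2 := by
            have : l * a ^ 2 + (1 - l) * b ^ 2 - (l * a + (1 - l) * b) ^ 2 =
              l * (1 - l) * (a - b) ^ 2 := by ring
            have h5 : 0 ≤ l * (1 - l) * (a - b) ^ 2 := by
              have : 0 ≤ 1 - l := by linarith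
              positivity
            linarith
          linarith
      rw [hneg] at h1
      rw [hFs, hFs]
      linarith
  -- the scales
  have hH : ∀ ε : ℝ, 0 < ε → ∃ r m : ℝ, 0 < r ∧ 0 < m ∧ m ≤ 2 * F r - 2 ∧ ∀ u v : E, ‖u‖ ≤ r →
      ‖v‖ ≤ r → |(2 * F ‖u + v‖ - 2) + (2 * F ‖u - v‖ - 2) - 2 * (2 * F ‖u‖ - 2) -
        2 * (2 * F ‖v‖ - 2)| ≤ ε * m := by
    intro ε hε
    obtain ⟨r, m, hr, hm, h1, h2⟩ := hQ ε hε
    refine ⟨r, m, hr, hm, ?_, fun u v hu hv => ?_⟩
    · have h3 := hull_le hΨ' (fun g => -(g (r • x₀) + g (-(r • x₀)) - 2))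
        (((continuous_apply (r • x₀)).add (continuous_apply (-(r • x₀)))).sub
          (continuous_const (y := (2 : ℝ)))).neg (C := -m)
        (fun f g s t _ _ hst => by
          simp only [Pi.add_apply, Pi.smul_apply, smul_eq_mul]
          nlinarith) fun T => by
          show -(‖T x₀ + r • x₀‖ ^ 2 + ‖T x₀ + -(r • x₀)‖ ^ 2 - 2) ≤ -m
          rw [sdiff_map]
          have := h1 (T.symm (r • x₀)) (by
            rw [T.symm.norm_map, norm_smul, hx₀, mul_one, Real.norm_of_nonneg hr.le])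
          linarith
      rw [hneg, ← hFs] at h3
      linarith
    · have hs : ∀ (T : E ≃ₗᵢ[ℝ] E),
          |(‖T x₀ + (u + v)‖ ^ 2 + ‖T x₀ + -(u + v)‖ ^ 2 - 2) +
            (‖T x₀ + (u - v)‖ ^ 2 + ‖T x₀ + -(u - v)‖ ^ 2 - 2) -
            2 * (‖T x₀ + u‖ ^ 2 + ‖T x₀ + -u‖ ^ 2 - 2) -
            2 * (‖T x₀ + v‖ ^ 2 + ‖T x₀ + -v‖ ^ 2 - 2)| ≤ ε * m := by
        intro T
        rw [sdiff_map, sdiff_map, sdiff_map, sdiff_map, map_add, map_sub]
        exact h2 _ _ (by rw [T.symm.norm_map]; exact hu) (by rw [T.symm.norm_map]; exact hv)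
      let L : (E → ℝ) → ℝ := fun g => (g (u + v) + g (-(u + v)) - 2) +
        (g (u - v) + g (-(u - v)) - 2) - 2 * (g u + g (-u) - 2) - 2 * (g v + g (-v) - 2)
      have hLc : Continuous L := by
        have : ∀ z : E, Continuous fun g : E → ℝ => g z + g (-z) - 2 := fun z =>
          ((continuous_apply z).add (continuous_apply (-z))).sub continuous_const
        exact (((this _).add (this _)).sub ((this _).const_mul 2)).sub ((this _).const_mul 2)
      have hL2 : ∀ f g : E → ℝ, ∀ s t : ℝ, s + t = 1 → L (s • f + t • g) = s * L f + t * L g := by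
        intro f g s t hst
        simp only [L, Pi.add_apply, Pi.smul_apply, smul_eq_mul]
        linear_combination (-4 : ℝ) * hst
      have h3 : L Ψ ≤ ε * m := hull_le hΨ' L hLc
        (fun f g s t _ _ hst => (hL2 f g s t hst).le) fun T => (abs_le.1 (hs T)).2
      have h4 : -L Ψ ≤ ε * m := hull_le hΨ' (fun g => -L g) hLc.neg
        (fun f g s t _ _ hst => by
          rw [hL2 f g s t hst]
          linarith) fun T => by
          have := (abs_le.1 (hs T)).1
          show -((‖T x₀ + (u + v)‖ ^ 2 + ‖T x₀ + -(u + v)‖ ^ 2 - 2) +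
            (‖T x₀ + (u - v)‖ ^ 2 + ‖T x₀ + -(u - v)‖ ^ 2 - 2) -
            2 * (‖T x₀ + u‖ ^ 2 + ‖T x₀ + -u‖ ^ 2 - 2) -
            2 * (‖T x₀ + v‖ ^ 2 + ‖T x₀ + -v‖ ^ 2 - 2)) ≤ ε * m
          linarith
      have e : L Ψ = (2 * F ‖u + v‖ - 2) + (2 * F ‖u - v‖ - 2) - 2 * (2 * F ‖u‖ - 2) -
          2 * (2 * F ‖v‖ - 2) := by
        show (Ψ (u + v) + Ψ (-(u + v)) - 2) + (Ψ (u - v) + Ψ (-(u - v)) - 2) -
          2 * (Ψ u + Ψ (-u) - 2) - 2 * (Ψ v + Ψ (-v) - 2) = _
        rw [hneg, hneg, hneg, hneg, hrad (u + v), hrad (u - v), hrad u, hrad v]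
        ring
      rw [← e, abs_le]
      constructor <;> linarith
  choose r m hr hm hmH hpar using fun n : ℕ => hH (1 / ((n : ℝ) + 1)) (by positivity)
  let U : Ultrafilter ℕ := hyperfilter ℕ
  have hU : (U : Filter ℕ) ≤ atTop := by
    rw [← Nat.cofinite_eq_atTop]
    exact hyperfilter_le_cofinite
  obtain ⟨Gn, hGn⟩ : ∃ Gn : ℕ → ℝ → ℝ, Gn = fun n ρ =>
      (2 * F (ρ * r n) - 2) / (2 * F (r n) - 2) := ⟨_, rfl⟩
  have hpos : ∀ n, 0 < 2 * F (r n) - 2 := fun n => (hm n).trans_le (hmH n)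
  have hG01 : ∀ n ρ, 0 ≤ ρ → ρ ≤ 1 → 0 ≤ Gn n ρ ∧ Gn n ρ ≤ 1 := by
    intro n ρ h0 h1
    rw [hGn]
    have h2 := hmono 0 (ρ * r n) le_rfl (by have := hr n; positivity)
    have h3 := hmono (ρ * r n) (r n) (by have := hr n; positivity) (by nlinarith [hr n])
    rw [hF0] at h2
    exact ⟨div_nonneg (by linarith) (hpos n).le, (div_le_one (hpos n)).2 (by linarith)⟩
  have hlim : ∀ ρ : ℝ, ∃ l : ℝ, 0 ≤ ρ → ρ ≤ 1 → Tendsto (fun n => Gn n ρ) U (𝓝 l) := by
    intro ρ
    by_cases h : 0 ≤ ρ ∧ ρ ≤ 1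
    · obtain ⟨l, hl⟩ := exists_lim U (fun n => Gn n ρ) 1 fun n => by
        obtain ⟨h1, h2⟩ := hG01 n ρ h.1 h.2
        rwa [abs_of_nonneg h1]
      exact ⟨l, fun _ _ => hl⟩
    · exact ⟨0, fun h1 h2 => absurd ⟨h1, h2⟩ h⟩
  choose G hG using hlim
  have hG1 : G 1 = 1 := by
    refine tendsto_nhds_unique (hG 1 zero_le_one le_rfl) ?_
    refine tendsto_const_nhds.congr fun n => ?_
    rw [hGn]
    show (1 : ℝ) = (2 * F (1 * r n) - 2) / (2 * F (r n) - 2)
    rw [one_mul, div_self (hpos n).ne']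
  have hG0 : G 0 = 0 := by
    refine tendsto_nhds_unique (hG 0 le_rfl zero_le_one) ?_
    refine tendsto_const_nhds.congr fun n => ?_
    rw [hGn]
    show (0 : ℝ) = (2 * F (0 * r n) - 2) / (2 * F (r n) - 2)
    rw [zero_mul, hF0]
    norm_num
  have hGm : ∀ s t, 0 ≤ s → s ≤ t → t ≤ 1 → G s ≤ G t := by
    intro s t hs hst ht
    refine le_of_tendsto_of_tendsto' (hG s hs (hst.trans ht)) (hG t (hs.trans hst) ht) fun n => ?_
    rw [hGn]
    have := hmono (s * r n) (t * r n) (by have := hr n; positivity) (by nlinarith [hr n])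
    show (2 * F (s * r n) - 2) / (2 * F (r n) - 2) ≤ (2 * F (t * r n) - 2) / (2 * F (r n) - 2)
    exact div_le_div_of_nonneg_right (by linarith) (hpos n).le
  have hGp : ∀ u v : E, ‖u‖ ≤ 1 → ‖v‖ ≤ 1 → ‖u + v‖ ≤ 1 → ‖u - v‖ ≤ 1 →
      G ‖u + v‖ + G ‖u - v‖ = 2 * G ‖u‖ + 2 * G ‖v‖ := by
    intro u v hu hv huv huv'
    have h1 := (((hG _ (norm_nonneg _) huv).add (hG _ (norm_nonneg _) huv')).sub
      ((hG _ (norm_nonneg _) hu).const_mul 2)).sub ((hG _ (norm_nonneg _) hv).const_mul 2)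
    have h2 : Tendsto (fun n : ℕ => 1 / ((n : ℝ) + 1)) U (𝓝 0) :=
      tendsto_one_div_add_atTop_nhds_zero_nat.mono_left hU
    have h3 := squeeze_zero_norm' (a := fun n : ℕ => 1 / ((n : ℝ) + 1))
      (f := fun n => Gn n ‖u + v‖ + Gn n ‖u - v‖ - 2 * Gn n ‖u‖ - 2 * Gn n ‖v‖) (t₀ := (U : Filter ℕ))
      (Eventually.of_forall fun n => by
        have hrn := hr n
        have hnz : ∀ z : E, ‖r n • z‖ = ‖z‖ * r n := fun z => by
          rw [norm_smul, Real.norm_of_nonneg hrn.le, mul_comm]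
        have h4 := hpar n (r n • u) (r n • v) (by rw [hnz]; nlinarith) (by rw [hnz]; nlinarith)
        rw [← smul_add, ← smul_sub, hnz, hnz, hnz, hnz] at h4
        rw [Real.norm_eq_abs, hGn]
        have e : (2 * F (‖u + v‖ * r n) - 2) / (2 * F (r n) - 2) +
            (2 * F (‖u - v‖ * r n) - 2) / (2 * F (r n) - 2) -
            2 * ((2 * F (‖u‖ * r n) - 2) / (2 * F (r n) - 2)) -
            2 * ((2 * F (‖v‖ * r n) - 2) / (2 * F (r n) - 2)) =
            ((2 * F (‖u + v‖ * r n) - 2) + (2 * F (‖u - v‖ * r n) - 2) -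
            2 * (2 * F (‖u‖ * r n) - 2) - 2 * (2 * F (‖v‖ * r n) - 2)) /
              (2 * F (r n) - 2) := by ring
        show |(2 * F (‖u + v‖ * r n) - 2) / (2 * F (r n) - 2) +
            (2 * F (‖u - v‖ * r n) - 2) / (2 * F (r n) - 2) -
            2 * ((2 * F (‖u‖ * r n) - 2) / (2 * F (r n) - 2)) -
            2 * ((2 * F (‖v‖ * r n) - 2) / (2 * F (r n) - 2))| ≤ _
        rw [e, abs_div, abs_of_pos (hpos n), div_le_iff₀ (hpos n)]
        refine h4.trans ?_
        exact mul_le_mul_of_nonneg_left (hmH n) (by positivity)) h2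
    have h4 := tendsto_nhds_unique h1 h3
    linarith
  have hGs : ∀ q, 0 ≤ q → q ≤ 1 → G q = q ^ 2 := by
    intro q hq0 hq1
    refine sq_of_par hG1 hG0 hGm (fun s t ht hts hst => ?_) hq0 hq1
    have hn : ∀ a : ℝ, 0 ≤ a → ‖a • x₀‖ = a := fun a ha => by
      rw [norm_smul, hx₀, mul_one, Real.norm_of_nonneg ha]
    have h1 := hGp (s • x₀) (t • x₀) (by rw [hn _ (ht.trans hts)]; linarith)
      (by rw [hn _ ht]; linarith) (by rw [← add_smul, hn _ (by linarith)]; linarith)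
      (by rw [← sub_smul, hn _ (by linarith)]; linarith)
    rwa [← add_smul, ← sub_smul, hn _ (by linarith), hn _ (by linarith), hn _ (by linarith),
      hn _ ht] at h1
  -- the parallelogram law
  set l : ℝ := 1 / (2 * (‖u‖ + ‖v‖ + 1)) with hl
  have hl0 : 0 < l := by positivity
  have hl1 : l * (‖u‖ + ‖v‖) ≤ 1 := by
    rw [hl, one_div, inv_mul_le_iff₀ (by positivity)]
    linarith [norm_nonneg u, norm_nonneg v]
  have hn : ∀ z : E, ‖l • z‖ = l * ‖z‖ := fun z => by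
    rw [norm_smul, Real.norm_of_nonneg hl0.le]
  have h1 : ‖l • u‖ ≤ 1 := by rw [hn]; nlinarith [norm_nonneg v]
  have h2 : ‖l • v‖ ≤ 1 := by rw [hn]; nlinarith [norm_nonneg u]
  have h3 : ‖l • u + l • v‖ ≤ 1 := by
    rw [← smul_add, hn]; nlinarith [norm_add_le u v]
  have h4 : ‖l • u - l • v‖ ≤ 1 := by
    rw [← smul_sub, hn]; nlinarith [norm_sub_le u v]
  have h5 := hGp _ _ h1 h2 h3 h4
  rw [hGs _ (norm_nonneg _) h1, hGs _ (norm_nonneg _) h2, hGs _ (norm_nonneg _) h3,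
    hGs _ (norm_nonneg _) h4, ← smul_add, ← smul_sub, hn, hn, hn, hn] at h5
  have h6 : l ^ 2 * (‖u + v‖ * ‖u + v‖ + ‖u - v‖ * ‖u - v‖) =
      l ^ 2 * (2 * (‖u‖ * ‖u‖ + ‖v‖ * ‖v‖)) := by linear_combination h5
  exact mul_left_cancel₀ (by positivity) h6

end Run7.h421.BM
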