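import Pool.Agent.N314.OP.Mod
import Pool.Agent.Run7.h421.BMg

/-!
Second order Taylor expansions give quadratic scales.
-/

set_option autoImplicit false

open Set Topology Filter Asymptotics

namespace Run7.h421.BM

variable {E : Type} [NormedAddCommGroup E] [NormedSpace ℝ E]

/-- `E` is linearly isomorphic to a space with a modulus of convexity of power type 2 (for instance to
a Hilbert space). -/
def TwoConvexIso (E : Type) [NormedAddCommGroup E] [NormedSpace ℝ E] : Prop :=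
  ∃ (F : Type) (_ : NormedAddCommGroup F) (_ : NormedSpace ℝ F) (c : ℝ), 0 < c ∧
    Nonempty (E ≃L[ℝ] F) ∧
    ∀ x w : F, c * ‖w‖ ^ 2 ≤ ‖x + w‖ ^ 2 + ‖x - w‖ ^ 2 - 2 * ‖x‖ ^ 2

theorem taylor_sdiff {x : E} {f : E →L[ℝ] ℝ} {a : E →L[ℝ] E →L[ℝ] ℝ}
    (ho : (fun w => ‖x + w‖ ^ 2 - 1 - f w - a w w) =o[𝓝 0] fun w => ‖w‖ ^ 2) {ε : ℝ}
    (hε : 0 < ε) : ∃ δ : ℝ, 0 < δ ∧ ∀ w, ‖w‖ ≤ δ → |sdiff x w - 2 * a w w| ≤ 2 * ε * ‖w‖ ^ 2 := by
  obtain ⟨δ, hδ, hδ2⟩ := Metric.eventually_nhds_iff.1 (ho.def hε)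
  refine ⟨δ / 2, by positivity, fun w hw => ?_⟩
  have h1 : ∀ z : E, ‖z‖ ≤ δ / 2 → |‖x + z‖ ^ 2 - 1 - f z - a z z| ≤ ε * ‖z‖ ^ 2 := by
    intro z hz
    have h2 := hδ2 (y := z) (by rw [dist_zero_right]; linarith)
    rwa [Real.norm_eq_abs, Real.norm_of_nonneg (by positivity)] at h2
  have h2 := abs_le.1 (h1 w hw)
  have h3 := abs_le.1 (h1 (-w) (by rwa [norm_neg]))
  have e : a (-w) (-w) = a w w := by
    simp only [map_neg, ContinuousLinearMap.neg_apply, neg_neg]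
  rw [e, map_neg, norm_neg, ← sub_eq_add_neg] at h3
  unfold sdiff
  rw [abs_le]
  constructor <;> linarith [h2.1, h2.2, h3.1, h3.2]

theorem scales_of_taylor {x : E} (hx : ‖x‖ = 1) {f : E →L[ℝ] ℝ} {a : E →L[ℝ] E →L[ℝ] ℝ} {c : ℝ}
    (hc : 0 < c) (ha : ∀ w, c * ‖w‖ ^ 2 ≤ a w w)
    (ho : (fun w => ‖x + w‖ ^ 2 - 1 - f w - a w w) =o[𝓝 0] fun w => ‖w‖ ^ 2) :
    QuadraticScales E := by
  refine ⟨x, hx, fun ε hε => ?_⟩
  set η : ℝ := min (c / 2) (ε * c / 24) with hη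
  have hη0 : 0 < η := by positivity
  have hη1 : η ≤ c / 2 := min_le_left _ _
  have hη2 : η ≤ ε * c / 24 := min_le_right _ _
  obtain ⟨δ, hδ, hδ2⟩ := taylor_sdiff ho hη0
  refine ⟨δ / 2, c * (δ / 2) ^ 2, by positivity, by positivity, fun w hw => ?_, fun u v hu hv => ?_⟩
  · have h1 := (abs_le.1 (hδ2 w (by rw [hw]; linarith))).1
    have h2 := ha w
    rw [hw] at h1 h2
    have h3 : η * (δ / 2) ^ 2 ≤ c / 2 * (δ / 2) ^ 2 :=
      mul_le_mul_of_nonneg_right hη1 (by positivity)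
    linarith
  · have huv : ‖u + v‖ ≤ δ := (norm_add_le _ _).trans (by linarith)
    have huv' : ‖u - v‖ ≤ δ := (norm_sub_le _ _).trans (by linarith)
    have h1 := abs_le.1 (hδ2 _ huv)
    have h2 := abs_le.1 (hδ2 _ huv')
    have h3 := abs_le.1 (hδ2 u (by linarith))
    have h4 := abs_le.1 (hδ2 v (by linarith))
    have e : a (u + v) (u + v) + a (u - v) (u - v) = 2 * a u u + 2 * a v v := by
      simp only [map_add, map_sub, ContinuousLinearMap.add_apply, ContinuousLinearMap.sub_apply]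
      ring
    have hs : ∀ z : E, ∀ b : ℝ, ‖z‖ ≤ b → 2 * η * ‖z‖ ^ 2 ≤ 2 * η * b ^ 2 := by
      intro z b hz
      have := pow_le_pow_left₀ (norm_nonneg _) hz 2
      exact mul_le_mul_of_nonneg_left this (by positivity)
    have g1 := hs _ _ huv
    have g2 := hs _ _ huv'
    have g3 := hs _ _ hu
    have g4 := hs _ _ hv
    have h5 : 24 * η * (δ / 2) ^ 2 ≤ ε * (c * (δ / 2) ^ 2) := by
      have : η * (δ / 2) ^ 2 ≤ ε * c / 24 * (δ / 2) ^ 2 :=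
        mul_le_mul_of_nonneg_right hη2 (by positivity)
      linarith
    have h6 : 2 * η * δ ^ 2 = 8 * η * (δ / 2) ^ 2 := by ring
    rw [abs_le]
    constructor <;> nlinarith [h1.1, h1.2, h2.1, h2.2, h3.1, h3.2, h4.1, h4.2]

/-- In an almost transitive space isomorphic to a 2-uniformly convex space the second derivative is
positive definite. -/
theorem pos_of_twoConvex (hA : ∀ x y : E, ‖x‖ = 1 → ‖y‖ = 1 → ∀ ε : ℝ, 0 < ε →
      ∃ T : E ≃ₗᵢ[ℝ] E, ‖T x - y‖ < ε) (hF : TwoConvexIso E) {x : E} (hx : ‖x‖ = 1)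
    {f : E →L[ℝ] ℝ} {a : E →L[ℝ] E →L[ℝ] ℝ}
    (ho : (fun w => ‖x + w‖ ^ 2 - 1 - f w - a w w) =o[𝓝 0] fun w => ‖w‖ ^ 2) :
    ∃ c : ℝ, 0 < c ∧ ∀ w, c * ‖w‖ ^ 2 ≤ a w w := by
  obtain ⟨F, _, _, c, hc, ⟨Φ⟩, hc2⟩ := hF
  obtain ⟨c', hc', h⟩ := Pool.Agent.N314.OP.Mod.convex_AT (H := F) hA Φ (q := 2) (c := c)
    (by norm_num) hc (fun x w => by
      have := hc2 x w
      simp only [Real.rpow_two]
      exact this)
  refine ⟨c' / 4, by positivity, fun w => ?_⟩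
  obtain ⟨δ, hδ, hδ2⟩ := taylor_sdiff ho (show (0 : ℝ) < c' / 4 by positivity)
  -- scale `w`
  rcases eq_or_ne w 0 with rfl | hw
  · simp
  · have hw0 : 0 < ‖w‖ := norm_pos_iff.2 hw
    set t : ℝ := δ / ‖w‖ with ht
    have ht0 : 0 < t := by positivity
    have htw : ‖t • w‖ = δ := by
      rw [norm_smul, Real.norm_of_nonneg ht0.le, ht, div_mul_cancel₀ _ hw0.ne']
    have h1 := (abs_le.1 (hδ2 (t • w) htw.le)).2
    have h2 : c' * ‖t • w‖ ^ 2 ≤ ‖x + t • w‖ ^ 2 + ‖x - t • w‖ ^ 2 - 2 * ‖x‖ ^ 2 := by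
      have := h x (t • w)
      simp only [Real.rpow_two] at this
      exact this
    have h3 : sdiff x (t • w) = ‖x + t • w‖ ^ 2 + ‖x - t • w‖ ^ 2 - 2 * ‖x‖ ^ 2 := by
      unfold sdiff
      rw [hx]; ring
    rw [← h3] at h2
    have h4 : a (t • w) (t • w) = t ^ 2 * a w w := by
      simp only [map_smul, ContinuousLinearMap.smul_apply, smul_eq_mul]
      ring
    rw [h4, norm_smul, Real.norm_of_nonneg ht0.le] at h1
    rw [norm_smul, Real.norm_of_nonneg ht0.le] at h2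
    have h5 : t ^ 2 * (c' / 4 * ‖w‖ ^ 2) ≤ t ^ 2 * a w w := by nlinarith
    exact le_of_mul_le_mul_left h5 (by positivity)

end Run7.h421.BM
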