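import Pool.Agent.H305R3.Rot.Conv
import Pool.Agent.TH578.Rot.Pairs
import Pool.Agent.Y278.Rot.HessMain
import Pool.Agent.Run7.h421.BMh

/-!
Transitive norms with a totally bounded space of pair orbits: the second differences of the square of
the norm are uniformly quadratic.
-/

set_option autoImplicit false

open Set Topology Filter Asymptotics

namespace Run7.h421.BM

open Pool.TH578.Rot Pool.Agent.Y278.Rot Pool.H305R3.Rot

variable {E : Type} [NormedAddCommGroup E] [NormedSpace ℝ E]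

/-- finitely many balls of prescribed radii cover (the argument of `Pool.TH578.Rot.cover`) -/
theorem cover_rho [CompleteSpace E]
    (htr : ∀ x y : E, ‖x‖ = 1 → ‖y‖ = 1 → ∃ T : E ≃ₗᵢ[ℝ] E, T x = y)
    (hP : PairCompact E) (x : E) (hx : ‖x‖ = 1) (ρ : E → ℝ) (hρ0 : ∀ e, 0 < ρ e) :
    ∃ F : Finset E, (∀ e ∈ F, ‖e‖ = 1) ∧ ∀ z : E, ‖z‖ = 1 → ∃ e ∈ F, Rl x (ρ e) z e := by
  classical
  by_contra hcon
  have hno : ∀ F : Finset E, (∀ e ∈ F, ‖e‖ = 1) → ∃ z : E, ‖z‖ = 1 ∧ ∀ e ∈ F, ¬ Rl x (ρ e) z e := by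
    intro F hF
    by_contra h
    push Not at h
    exact hcon ⟨F, hF, h⟩
  let S := {z : E // ‖z‖ = 1}
  let U : S → Set S := fun e => {z | ¬ Rl x (ρ e) (z : E) (e : E)}
  have hne : (Filter.generate (Set.range U)).NeBot := by
    rw [Filter.generate_neBot_iff]
    intro t ht htf
    have : ∃ F : Finset S, t ⊆ U '' (F : Set S) := by
      obtain ⟨s', hs1, hs2⟩ := (Set.exists_subset_image_finite_and (f := U) (s := Set.univ)
        (p := fun t' => t ⊆ t')).1 ⟨t, by rw [Set.image_univ]; exact ht, htf, le_refl _⟩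
      exact ⟨hs2.1.toFinset, by simpa using hs2.2⟩
    obtain ⟨F, hF⟩ := this
    obtain ⟨z, hz, hz2⟩ := hno (F.image (fun e : S => (e : E))) (by
      intro e he
      obtain ⟨e', -, rfl⟩ := Finset.mem_image.1 he
      exact e'.2)
    refine ⟨⟨z, hz⟩, ?_⟩
    rw [Set.mem_sInter]
    intro A hA
    obtain ⟨e, he, rfl⟩ := hF hA
    exact hz2 (e : E) (Finset.mem_image_of_mem _ (by simpa using he))
  let 𝓤 : Ultrafilter S := @Ultrafilter.of _ (Filter.generate (Set.range U)) hne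
  have hUmem : ∀ e : S, U e ∈ 𝓤 := by
    intro e
    have h1 : U e ∈ Filter.generate (Set.range U) :=
      Filter.mem_generate_of_mem (Set.mem_range_self e)
    exact (@Ultrafilter.of_le _ (Filter.generate (Set.range U)) hne) h1
  -- small balls in the ultrafilter
  have hball : ∀ k : ℕ, ∃ f : E, ‖f‖ = 1 ∧ {z : S | Rl x ((1 / 2) ^ k) (z : E) f} ∈ 𝓤 := by
    intro k
    obtain ⟨F, hF1, hF2⟩ := totally hP x hx (ε := (1 / 2) ^ k) (by positivity)
    have h1 : (⋃ f ∈ (F : Set E), {z : S | Rl x ((1 / 2) ^ k) (z : E) f}) ∈ 𝓤 := by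
      have : (⋃ f ∈ (F : Set E), {z : S | Rl x ((1 / 2) ^ k) (z : E) f}) = Set.univ := by
        rw [Set.eq_univ_iff_forall]
        intro z
        obtain ⟨f, hf, hR⟩ := hF2 (z : E) z.2
        exact Set.mem_biUnion (by simpa using hf) hR
      rw [this]
      exact Filter.univ_mem
    obtain ⟨f, hf, h2⟩ := (Ultrafilter.finite_biUnion_mem_iff F.finite_toSet).1 h1
    exact ⟨f, hF1 f (by simpa using hf), h2⟩
  choose f hf1 hf2 using hball
  have hstep : ∀ k : ℕ, ∃ T : E ≃ₗᵢ[ℝ] E, ‖T x - x‖ ≤ 2 * (1 / 2) ^ k ∧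
      ‖T (f k) - f (k + 1)‖ ≤ 2 * (1 / 2) ^ k := by
    intro k
    obtain ⟨z, hz1, hz2⟩ := Filter.nonempty_of_mem (Filter.inter_mem (hf2 k) (hf2 (k + 1)))
    have h := Rl.trans (Rl.symm hz1) hz2
    obtain ⟨T, h1, h2⟩ := h.mono (δ := 2 * (1 / 2) ^ k) (by
      have : ((1 : ℝ) / 2) ^ (k + 1) ≤ (1 / 2) ^ k :=
        pow_le_pow_of_le_one (by norm_num) (by norm_num) (Nat.le_succ k)
      linarith)
    exact ⟨T, h1, h2⟩
  choose T hT1 hT2 using hstep
  let P : ℕ → (E ≃ₗᵢ[ℝ] E) := fun n =>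
    Nat.rec (LinearIsometryEquiv.refl ℝ E) (fun k Q => Q.trans (T k)) n
  have hPs : ∀ k, P (k + 1) = (P k).trans (T k) := fun k => rfl
  let w : ℕ → E := fun k => (P k).symm (f k)
  let y : ℕ → E := fun k => (P k).symm x
  have hw : CauchySeq w := by
    refine cauchySeq_of_le_geometric (1 / 2) 2 (by norm_num) (fun k => ?_)
    have h1 : w (k + 1) = (P k).symm ((T k).symm (f (k + 1))) := by
      show (P (k + 1)).symm (f (k + 1)) = _
      rw [hPs]; rfl
    have h2 : w k - w (k + 1) = (P k).symm ((T k).symm ((T k) (f k) - f (k + 1))) := by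
      rw [h1, map_sub, map_sub, (T k).symm_apply_apply]
    rw [dist_eq_norm, h2, LinearIsometryEquiv.norm_map, LinearIsometryEquiv.norm_map]
    exact hT2 k
  have hy : CauchySeq y := by
    refine cauchySeq_of_le_geometric (1 / 2) 2 (by norm_num) (fun k => ?_)
    have h1 : y (k + 1) = (P k).symm ((T k).symm x) := by
      show (P (k + 1)).symm x = _
      rw [hPs]; rfl
    have h2 : y k - y (k + 1) = (P k).symm ((T k).symm ((T k) x - x)) := by
      rw [h1, map_sub, map_sub, (T k).symm_apply_apply]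
    rw [dist_eq_norm, h2, LinearIsometryEquiv.norm_map, LinearIsometryEquiv.norm_map]
    exact hT1 k
  obtain ⟨w0, hw0⟩ := cauchySeq_tendsto_of_complete hw
  obtain ⟨y0, hy0⟩ := cauchySeq_tendsto_of_complete hy
  have hw1 : ‖w0‖ = 1 := by
    refine tendsto_nhds_unique hw0.norm ?_
    have : (fun k => ‖w k‖) = fun _ => (1 : ℝ) := by
      funext k
      show ‖(P k).symm (f k)‖ = 1
      rw [LinearIsometryEquiv.norm_map, hf1]
    rw [this]
    exact tendsto_const_nhds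
  have hy1 : ‖y0‖ = 1 := by
    refine tendsto_nhds_unique hy0.norm ?_
    have : (fun k => ‖y k‖) = fun _ => (1 : ℝ) := by
      funext k
      show ‖(P k).symm x‖ = 1
      rw [LinearIsometryEquiv.norm_map, hx]
    rw [this]
    exact tendsto_const_nhds
  obtain ⟨Q, hQ⟩ := htr y0 x hy1 hx
  let e : S := ⟨Q w0, by rw [Q.norm_map, hw1]⟩
  -- choose `k`
  have hρe : 0 < ρ (Q w0) := hρ0 _
  have h1 : ∀ᶠ k in atTop, ‖w k - w0‖ < ρ (Q w0) / 2 := by
    have := (tendsto_iff_norm_sub_tendsto_zero.1 hw0)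
    exact this.eventually (gt_mem_nhds (by positivity))
  have h2 : ∀ᶠ k in atTop, ‖y k - y0‖ < ρ (Q w0) / 2 := by
    have := (tendsto_iff_norm_sub_tendsto_zero.1 hy0)
    exact this.eventually (gt_mem_nhds (by positivity))
  have h3 : ∀ᶠ k : ℕ in atTop, ((1 : ℝ) / 2) ^ k < ρ (Q w0) / 2 := by
    have := tendsto_pow_atTop_nhds_zero_of_lt_one (r := (1 : ℝ) / 2) (by norm_num) (by norm_num)
    exact this.eventually (gt_mem_nhds (by positivity))
  obtain ⟨k, hk1, hk2, hk3⟩ := (h1.and (h2.and h3)).exists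
  have hR : Rl x (ρ (Q w0) / 2) (f k) (Q w0) := by
    refine ⟨(P k).symm.trans Q, ?_, ?_⟩
    · rw [LinearIsometryEquiv.trans_apply]
      have : Q ((P k).symm x) - x = Q (y k - y0) := by
        show Q (y k) - x = _
        rw [map_sub, hQ]
      rw [this, Q.norm_map]
      exact hk2.le
    · rw [LinearIsometryEquiv.trans_apply]
      have : Q ((P k).symm (f k)) - Q w0 = Q (w k - w0) := by
        show Q (w k) - Q w0 = _
        rw [map_sub]
      rw [this, Q.norm_map]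
      exact hk1.le
  have h4 : {z : S | Rl x ((1 / 2) ^ k) (z : E) (f k)} ⊆ (U e)ᶜ := by
    intro z hz
    simp only [U, e, Set.mem_compl_iff, Set.mem_ofPred_eq, not_not]
    exact (Rl.trans hz hR).mono (by linarith)
  have h5 : (U e)ᶜ ∈ 𝓤 := Filter.mem_of_superset (hf2 k) h4
  have h6 := Filter.inter_mem (hUmem e) h5
  rw [Set.inter_compl_self] at h6
  exact 𝓤.empty_notMem h6

/-- **The second difference quotients converge uniformly in the direction.** -/
theorem unif_second [CompleteSpace E] [TopologicalSpace.SeparableSpace E]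
    (htr : ∀ x y : E, ‖x‖ = 1 → ‖y‖ = 1 → ∃ T : E ≃ₗᵢ[ℝ] E, T x = y)
    (hP : PairCompact E) {x : E} (hx : ‖x‖ = 1) {f : StrongDual ℝ E} {A : E →L[ℝ] E →L[ℝ] ℝ}
    {K : ℝ} (h : HessAt x f A K) {ε : ℝ} (hε : 0 < ε) :
    ∀ᶠ t in 𝓝[≠] (0 : ℝ), ∀ z : E, ‖z‖ = 1 → |QS t x z - A z z| ≤ ε := by
  choose κ hκ hev using fun e : E => h.near e (ε / 2) (by positivity)
  choose r hr hopen using fun e : E =>
    near_open htr (fun _ : Unit => e) x hx (κ := κ e / 2) (by have := hκ e; positivity)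
  obtain ⟨F, hF1, hF2⟩ := cover_rho htr hP x hx (fun e => min (κ e / 2) (r e)) fun e =>
    lt_min (by have := hκ e; positivity) (hr e)
  -- the quotients are close to the value at `e`
  have key : ∀ z : E, ∀ e : E, Rl x (min (κ e / 2) (r e)) z e → ∀ t : ℝ,
      (∀ w' : E, ‖w' - e‖ ≤ κ e → |QS t x w' - A e e| ≤ ε / 2) → |QS t x z - A e e| ≤ ε / 2 := by
    rintro z e ⟨T, hT1, hT2⟩ t ht
    refine le_of_forall_pos_le_add fun η hη => ?_
    obtain ⟨s, hs, hcont⟩ := Metric.continuous_iff.1 (QS_cont t z) x η hη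
    obtain ⟨S, hS1, hS2⟩ := hopen e (T x) (by rw [T.norm_map, hx]) (hT1.trans (min_le_right _ _))
      (s / 2) (by positivity)
    have h1 : ‖T.symm (S x) - x‖ ≤ s / 2 := by
      have : T.symm (S x) - x = T.symm (S x - T x) := by rw [map_sub, T.symm_apply_apply]
      rw [this, T.symm.norm_map]; exact hS1
    have h2 := hcont (T.symm (S x)) (by rw [dist_eq_norm]; linarith)
    rw [Real.dist_eq] at h2
    have h3 : QS t (T.symm (S x)) z = QS t x (S.symm (T z)) := by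
      have e1 : z = T.symm (S (S.symm (T z))) := by
        rw [S.apply_symm_apply, T.symm_apply_apply]
      conv_lhs => rw [e1]
      rw [QS_map, QS_map]
    have h4 : ‖S.symm (T z) - e‖ ≤ κ e := by
      have e2 : S.symm (T z) - e = S.symm ((T z - e) - (S e - e)) := by
        rw [sub_sub_sub_cancel_right, map_sub, S.symm_apply_apply]
      rw [e2, S.symm.norm_map]
      refine (norm_sub_le _ _).trans ?_
      have h5 := hS2 ()
      have h6 := hT2.trans (min_le_left (κ e / 2) (r e))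
      linarith
    have h5 := ht _ h4
    rw [← h3] at h5
    calc |QS t x z - A e e| = |(QS t (T.symm (S x)) z - A e e) -
          (QS t (T.symm (S x)) z - QS t x z)| := by ring_nf
      _ ≤ |QS t (T.symm (S x)) z - A e e| + |QS t (T.symm (S x)) z - QS t x z| := abs_sub _ _
      _ ≤ ε / 2 + η := by linarith
  have hall : ∀ᶠ t in 𝓝[≠] (0 : ℝ), ∀ e ∈ F, ∀ w' : E, ‖w' - e‖ ≤ κ e →
      |QS t x w' - A e e| ≤ ε / 2 := (Filter.eventually_all_finset F).2 fun e _ => hev e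
  filter_upwards [hall] with t ht
  intro z hz
  obtain ⟨e, he, hR⟩ := hF2 z hz
  have h1 := key z e hR t (ht e he)
  have h2 : |A z z - A e e| ≤ ε / 2 := by
    refine le_of_tendsto ((h.lim z).sub_const _).abs ?_
    filter_upwards [hall] with s hs
    exact key z e hR s (hs e he)
  calc |QS t x z - A z z| = |(QS t x z - A e e) - (A z z - A e e)| := by ring_nf
    _ ≤ |QS t x z - A e e| + |A z z - A e e| := abs_sub _ _
    _ ≤ ε := by linarith

/-- uniform expansion of the second differences -/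
theorem unif_sdiff [CompleteSpace E] [TopologicalSpace.SeparableSpace E]
    (htr : ∀ x y : E, ‖x‖ = 1 → ‖y‖ = 1 → ∃ T : E ≃ₗᵢ[ℝ] E, T x = y)
    (hP : PairCompact E) {x : E} (hx : ‖x‖ = 1) {f : StrongDual ℝ E} {A : E →L[ℝ] E →L[ℝ] ℝ}
    {K : ℝ} (h : HessAt x f A K) {ε : ℝ} (hε : 0 < ε) :
    ∃ δ : ℝ, 0 < δ ∧ ∀ w, ‖w‖ ≤ δ → |sdiff x w - 2 * A w w| ≤ 2 * ε * ‖w‖ ^ 2 := by
  have h1 := unif_second htr hP hx h hε
  rw [eventually_nhdsWithin_iff, Metric.eventually_nhds_iff] at h1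
  obtain ⟨δ, hδ, h2⟩ := h1
  refine ⟨δ / 2, by positivity, fun w hw => ?_⟩
  rcases eq_or_ne w 0 with rfl | hw0
  · unfold sdiff
    rw [add_zero, sub_zero, hx]
    simp
    norm_num
  · have hn : 0 < ‖w‖ := norm_pos_iff.2 hw0
    have h3 := h2 (y := ‖w‖) (by
      rw [dist_zero_right, norm_norm]; linarith) hn.ne' (‖w‖⁻¹ • w) (by
      rw [norm_smul, norm_inv, norm_norm, inv_mul_cancel₀ hn.ne'])
    have e1 : ‖w‖ • (‖w‖⁻¹ • w) = w := by rw [smul_smul, mul_inv_cancel₀ hn.ne', one_smul]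
    have e2 : QS ‖w‖ x (‖w‖⁻¹ • w) = sdiff x w / (2 * ‖w‖ ^ 2) := by
      unfold QS sdiff
      rw [e1, hx]
      norm_num
    have e3 : A (‖w‖⁻¹ • w) (‖w‖⁻¹ • w) = A w w / ‖w‖ ^ 2 := by
      rw [map_smul, map_smul]
      show ‖w‖⁻¹ * (‖w‖⁻¹ * A w w) = _
      field_simp
    rw [e2, e3] at h3
    have e4 : sdiff x w - 2 * A w w = (2 * ‖w‖ ^ 2) *
        (sdiff x w / (2 * ‖w‖ ^ 2) - A w w / ‖w‖ ^ 2) := by
      field_simp
    rw [e4, abs_mul, abs_of_pos (by positivity)]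
    nlinarith [abs_nonneg (sdiff x w / (2 * ‖w‖ ^ 2) - A w w / ‖w‖ ^ 2)]

theorem scales_of_sdiff {x : E} (hx : ‖x‖ = 1) {a : E →L[ℝ] E →L[ℝ] ℝ} {c : ℝ}
    (hc : 0 < c) (ha : ∀ w, c * ‖w‖ ^ 2 ≤ a w w)
    (ho : ∀ ε : ℝ, 0 < ε → ∃ δ : ℝ, 0 < δ ∧ ∀ w, ‖w‖ ≤ δ →
      |sdiff x w - 2 * a w w| ≤ 2 * ε * ‖w‖ ^ 2) :
    QuadraticScales E := by
  refine ⟨x, hx, fun ε hε => ?_⟩
  set η : ℝ := min (c / 2) (ε * c / 24) with hη
  have hη0 : 0 < η := by positivity
  have hη1 : η ≤ c / 2 := min_le_left _ _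
  have hη2 : η ≤ ε * c / 24 := min_le_right _ _
  obtain ⟨δ, hδ, hδ2⟩ := ho η hη0
  refine ⟨δ / 2, c * (δ / 2) ^ 2, by positivity, by positivity, fun w hw => ?_, fun u v hu hv => ?_⟩
  · have h1 := (abs_le.1 (hδ2 w (by rw [hw]; linarith))).1
    have h2 := ha w
    rw [hw] at h1 h2
    have h3 : η * (δ / 2) ^ 2 ≤ c / 2 * (δ / 2) ^ 2 :=
      mul_le_mul_of_nonneg_right hη1 (by positivity)
    linarith
  · have huv : ‖u + v‖ ≤ δ := (norm_add_le _ _).trans (by linarith)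
    have huv' : ‖u - v‖ ≤ δ := (norm_sub_le _ _).trans (by linarith)
    have h1 := abs_le.1 (hδ2 _ huv)
    have h2 := abs_le.1 (hδ2 _ huv')
    have h3 := abs_le.1 (hδ2 u (by linarith))
    have h4 := abs_le.1 (hδ2 v (by linarith))
    have e : a (u + v) (u + v) + a (u - v) (u - v) = 2 * a u u + 2 * a v v := by
      simp only [map_add, map_sub, ContinuousLinearMap.add_apply, ContinuousLinearMap.sub_apply]
      ring
    have hs : ∀ z : E, ∀ b : ℝ, ‖z‖ ≤ b → 2 * η * ‖z‖ ^ 2 ≤ 2 * η * b ^ 2 := by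
      intro z b hz
      have := pow_le_pow_left₀ (norm_nonneg _) hz 2
      exact mul_le_mul_of_nonneg_left this (by positivity)
    have g1 := hs _ _ huv
    have g2 := hs _ _ huv'
    have g3 := hs _ _ hu
    have g4 := hs _ _ hv
    have h5 : 24 * η * (δ / 2) ^ 2 ≤ ε * (c * (δ / 2) ^ 2) := by
      have : η * (δ / 2) ^ 2 ≤ ε * c / 24 * (δ / 2) ^ 2 :=
        mul_le_mul_of_nonneg_right hη2 (by positivity)
      linarith
    have h6 : 2 * η * δ ^ 2 = 8 * η * (δ / 2) ^ 2 := by ring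
    rw [abs_le]
    constructor <;> nlinarith [h1.1, h1.2, h2.1, h2.2, h3.1, h3.2, h4.1, h4.2]

/-- **Transitive norms with a totally bounded space of pair orbits have quadratic scales.** -/
theorem scales_of_pairs [CompleteSpace E] [TopologicalSpace.SeparableSpace E]
    (htr : ∀ x y : E, ‖x‖ = 1 → ‖y‖ = 1 → ∃ T : E ≃ₗᵢ[ℝ] E, T x = y)
    (hP : PairCompact E) (hne : ∃ x : E, ‖x‖ = 1) : QuadraticScales E := by
  obtain ⟨x, hx⟩ := hne
  obtain ⟨F, hF1, hF2⟩ := cover htr hP x hx (κ := 1 / 2) (by norm_num)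
  obtain ⟨H, _, _, _, ⟨Φ⟩⟩ := dichotomy htr x hx (not_nullDual F hF2) (not_nullVec F hF1 hF2)
  obtain ⟨c, hc0, hc⟩ := two_convex htr Φ
  obtain ⟨K, hK0, hK⟩ := two_smooth htr Φ
  obtain ⟨f, A, h⟩ := exists_hessAt htr hK0 hK hx
  exact scales_of_sdiff hx (c := c / 2) (by positivity) (hess_lower h hc)
    fun ε hε => unif_sdiff htr hP hx h hε

end Run7.h421.BM
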