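import Pool.Agent.Run7.h421.BMi

/-!
The norm of a Hilbert space is transitive and its space of pair orbits is totally bounded.
-/

set_option autoImplicit false

open Set Topology Filter
open scoped InnerProductSpace

namespace Run7.h421.BM

section H

variable {H : Type} [NormedAddCommGroup H] [InnerProductSpace ℝ H]

/-- pairs of unit vectors with the same inner product are moved to each other -/
theorem move_pair {x z x' z' : H} (hx : ‖x‖ = 1) (hz : ‖z‖ = 1) (hx' : ‖x'‖ = 1)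
    (hz' : ‖z'‖ = 1) (h : ⟪x, z⟫_ℝ = ⟪x', z'⟫_ℝ) :
    ∃ T : H ≃ₗᵢ[ℝ] H, T x = x' ∧ T z = z' := by
  obtain ⟨R, hR⟩ : ∃ R : H ≃ₗᵢ[ℝ] H, R x = x' :=
    ⟨(ℝ ∙ (x - x'))ᗮ.reflection, Submodule.reflection_sub (by rw [hx, hx'])⟩
  have h1 : ‖R z‖ = ‖z'‖ := by rw [R.norm_map, hz, hz']
  have h2 : (ℝ ∙ (R z - z'))ᗮ.reflection (R z) = z' := Submodule.reflection_sub h1
  have h3 : (ℝ ∙ (R z - z'))ᗮ.reflection x' = x' := by
    apply Submodule.reflection_mem_subspace_eq_self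
    rw [Submodule.mem_orthogonal_singleton_iff_inner_right, inner_sub_left, ← hR,
      R.inner_map_map, hR, real_inner_comm, h, real_inner_comm]
    ring
  refine ⟨R.trans (ℝ ∙ (R z - z'))ᗮ.reflection, ?_, ?_⟩
  · rw [LinearIsometryEquiv.trans_apply, hR, h3]
  · rw [LinearIsometryEquiv.trans_apply, h2]

/-- finitely many pairs -/
theorem pairs_hilbert {ε : ℝ} (hε : 0 < ε) : ∃ P : Finset (H × H), ∀ x z : H, ‖x‖ = 1 → ‖z‖ = 1 →
    ∃ p ∈ P, ∃ T : H ≃ₗᵢ[ℝ] H, ‖T x - p.1‖ ≤ ε ∧ ‖T z - p.2‖ ≤ ε := by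
  classical
  by_cases hne : ∃ x : H, ‖x‖ = 1
  · obtain ⟨e, he⟩ := hne
    -- a second vector, orthonormal to `e` if possible
    obtain ⟨f, hf1, hf2⟩ : ∃ f : H, ⟪e, f⟫_ℝ = 0 ∧ ((∃ g : H, ‖g‖ = 1 ∧ ⟪e, g⟫_ℝ = 0) → ‖f‖ = 1) := by
      by_cases h : ∃ g : H, ‖g‖ = 1 ∧ ⟪e, g⟫_ℝ = 0
      · obtain ⟨g, hg1, hg2⟩ := h
        exact ⟨g, hg2, fun _ => hg1⟩
      · exact ⟨0, inner_zero_right _, fun h' => absurd h' h⟩
    have hf3 : ‖f‖ ≤ 1 := by
      by_cases h : ∃ g : H, ‖g‖ = 1 ∧ ⟪e, g⟫_ℝ = 0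
      · exact (hf2 h).le
      · have : f = 0 := by
          by_contra hf
          refine h ⟨‖f‖⁻¹ • f, ?_, ?_⟩
          · rw [norm_smul, norm_inv, norm_norm, inv_mul_cancel₀ (norm_ne_zero_iff.2 hf)]
          · rw [real_inner_smul_right, hf1, mul_zero]
        rw [this, norm_zero]; exact zero_le_one
    let q : ℝ → H := fun c => c • e + √(1 - c ^ 2) • f
    -- every pair is moved to a pair `(e, q c)`
    have hmove : ∀ x z : H, ‖x‖ = 1 → ‖z‖ = 1 → ∃ c : ℝ, -1 ≤ c ∧ c ≤ 1 ∧ ∃ T : H ≃ₗᵢ[ℝ] H,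
        T x = e ∧ T z = q c := by
      intro x z hx hz
      obtain ⟨R, hR⟩ : ∃ R : H ≃ₗᵢ[ℝ] H, R x = e :=
        ⟨(ℝ ∙ (x - e))ᗮ.reflection, Submodule.reflection_sub (by rw [hx, he])⟩
      set c : ℝ := ⟪x, z⟫_ℝ with hc
      have hc1 : |c| ≤ 1 := by
        have := abs_real_inner_le_norm x z
        rwa [hx, hz, mul_one] at this
      obtain ⟨hc2, hc3⟩ := abs_le.1 hc1
      have hc4 : 0 ≤ 1 - c ^ 2 := by nlinarith
      have hRz : ⟪e, R z⟫_ℝ = c := by rw [← hR, R.inner_map_map]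
      by_cases h : ∃ g : H, ‖g‖ = 1 ∧ ⟪e, g⟫_ℝ = 0
      · have hf := hf2 h
        have hq1 : ⟪e, q c⟫_ℝ = c := by
          show ⟪e, c • e + √(1 - c ^ 2) • f⟫_ℝ = c
          rw [inner_add_right, real_inner_smul_right, real_inner_smul_right, hf1,
            real_inner_self_eq_norm_sq, he]
          ring
        have hq2 : ‖q c‖ = 1 := by
          have h1 : ‖q c‖ ^ 2 = 1 := by
            show ‖c • e + √(1 - c ^ 2) • f‖ ^ 2 = 1
            rw [norm_add_sq_real, real_inner_smul_left, real_inner_smul_right, hf1, norm_smul,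
              norm_smul, he, hf, mul_one, mul_one, Real.norm_eq_abs, sq_abs, Real.norm_eq_abs,
              sq_abs, Real.sq_sqrt hc4]
            ring
          have h2 := norm_nonneg (q c)
          nlinarith
        obtain ⟨T, hT1, hT2⟩ := move_pair hx hz he hq2 (by rw [← hc, hq1])
        exact ⟨c, hc2, hc3, T, hT1, hT2⟩
      · -- the orthogonal complement of `e` is zero
        have h1 : R z - c • e = 0 := by
          by_contra h2
          refine h ⟨‖R z - c • e‖⁻¹ • (R z - c • e), ?_, ?_⟩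
          · rw [norm_smul, norm_inv, norm_norm, inv_mul_cancel₀ (norm_ne_zero_iff.2 h2)]
          · rw [real_inner_smul_right, inner_sub_right, hRz, real_inner_smul_right,
              real_inner_self_eq_norm_sq, he]
            ring
        have h2 : R z = c • e := sub_eq_zero.1 h1
        have h3 : |c| = 1 := by
          have := congrArg norm h2
          rw [R.norm_map, hz, norm_smul, he, mul_one, Real.norm_eq_abs] at this
          exact this.symm
        have h4 : 1 - c ^ 2 = 0 := by rw [← sq_abs, h3]; norm_num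
        refine ⟨c, hc2, hc3, R, hR, ?_⟩
        show R z = c • e + √(1 - c ^ 2) • f
        rw [h4, Real.sqrt_zero, zero_smul, add_zero, h2]
    -- the grid
    obtain ⟨N, hN⟩ := exists_nat_gt (max (2 / ε) (8 / ε ^ 2))
    have hN1 : 2 / ε < N := (le_max_left _ _).trans_lt hN
    have hN2 : 8 / ε ^ 2 < N := (le_max_right _ _).trans_lt hN
    have hN0 : (0 : ℝ) < N := lt_trans (by positivity) hN1
    refine ⟨(Finset.Icc (-(N : ℤ)) N).image fun j : ℤ => (e, q ((j : ℝ) / N)), fun x z hx hz => ?_⟩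
    obtain ⟨c, hc1, hc2, T, hT1, hT2⟩ := hmove x z hx hz
    set j : ℤ := ⌊c * N⌋ with hj
    have hj1 : (j : ℝ) ≤ c * N := Int.floor_le _
    have hj2 : c * N < j + 1 := Int.lt_floor_add_one _
    have hj3 : j ∈ Finset.Icc (-(N : ℤ)) N := by
      rw [Finset.mem_Icc]
      constructor
      · rw [hj, Int.le_floor]
        push_cast
        nlinarith
      · have : (j : ℝ) ≤ N := hj1.trans (by nlinarith)
        exact_mod_cast this
    refine ⟨_, Finset.mem_image_of_mem _ hj3, T, ?_, ?_⟩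
    · show ‖T x - e‖ ≤ ε
      rw [hT1, sub_self, norm_zero]
      exact hε.le
    · show ‖T z - q ((j : ℝ) / N)‖ ≤ ε
      rw [hT2]
      set c' : ℝ := (j : ℝ) / N with hc'
      have g1 : c' ≤ c := by rw [hc', div_le_iff₀ hN0]; exact hj1
      have g2 : c ≤ c' + 1 / N := by
        rw [hc', ← add_div, le_div_iff₀ hN0]
        exact hj2.le
      have g3 : -1 ≤ c' := by
        rw [hc', le_div_iff₀ hN0]
        rw [Finset.mem_Icc] at hj3
        have : (-(N : ℝ)) ≤ j := by exact_mod_cast hj3.1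
        linarith
      have g4 : c' ≤ 1 := g1.trans hc2
      have hd : |c - c'| ≤ 1 / N := by rw [abs_of_nonneg (by linarith)]; linarith
      have g5 : 0 ≤ 1 - c ^ 2 := by nlinarith
      have g6 : 0 ≤ 1 - c' ^ 2 := by nlinarith
      have e1 : q c - q c' = (c - c') • e + (√(1 - c ^ 2) - √(1 - c' ^ 2)) • f := by
        show (c • e + √(1 - c ^ 2) • f) - (c' • e + √(1 - c' ^ 2) • f) = _
        module
      have g7 : |√(1 - c ^ 2) - √(1 - c' ^ 2)| ≤ ε / 2 := by
        have s1 := Real.sqrt_nonneg (1 - c ^ 2)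
        have s2 := Real.sqrt_nonneg (1 - c' ^ 2)
        have s3 := Real.sq_sqrt g5
        have s4 := Real.sq_sqrt g6
        set a := √(1 - c ^ 2) with ha
        set b := √(1 - c' ^ 2) with hb
        have s5 : |a - b| ^ 2 ≤ |a ^ 2 - b ^ 2| := by
          have : a ^ 2 - b ^ 2 = (a - b) * (a + b) := by ring
          rw [this, abs_mul, sq]
          refine mul_le_mul_of_nonneg_left ?_ (abs_nonneg _)
          rw [abs_of_nonneg (by linarith : 0 ≤ a + b), abs_le]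
          constructor <;> linarith
        have s6 : |a ^ 2 - b ^ 2| ≤ 2 * (1 / N) := by
          rw [s3, s4]
          have : 1 - c ^ 2 - (1 - c' ^ 2) = -((c - c') * (c + c')) := by ring
          rw [this, abs_neg, abs_mul, mul_comm]
          refine mul_le_mul ?_ hd (abs_nonneg _) (by norm_num)
          rw [abs_le]
          constructor <;> linarith
        have s7 : 2 * (1 / (N : ℝ)) ≤ (ε / 2) ^ 2 := by
          rw [div_lt_iff₀ (by positivity)] at hN2
          rw [mul_one_div, div_le_iff₀ hN0]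
          nlinarith
        exact abs_le_of_sq_le_sq' (by rw [← sq_abs]; linarith) (by positivity) |> abs_le.2
      rw [e1]
      refine (norm_add_le _ _).trans ?_
      rw [norm_smul, norm_smul, he, mul_one, Real.norm_eq_abs, Real.norm_eq_abs]
      have g8 : 1 / (N : ℝ) ≤ ε / 2 := by
        rw [div_lt_iff₀ hε] at hN1
        rw [div_le_iff₀ hN0]
        linarith
      have g9 : |√(1 - c ^ 2) - √(1 - c' ^ 2)| * ‖f‖ ≤ ε / 2 * 1 :=
        mul_le_mul g7 hf3 (norm_nonneg _) (by positivity)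
      linarith
  · exact ⟨∅, fun x z hx _ => absurd ⟨x, hx⟩ hne⟩

end H

variable {E : Type} [NormedAddCommGroup E] [NormedSpace ℝ E]

theorem transitive_of_hilbert (h : IsHilbert E) {x y : E} (hx : ‖x‖ = 1) (hy : ‖y‖ = 1) :
    ∃ T : E ≃ₗᵢ[ℝ] E, T x = y := by
  obtain ⟨H, _, _, _, ⟨Φ⟩⟩ := h
  have h1 : (ℝ ∙ (Φ x - Φ y))ᗮ.reflection (Φ x) = Φ y :=
    Submodule.reflection_sub (by rw [Φ.norm_map, Φ.norm_map, hx, hy])
  refine ⟨(Φ.trans (ℝ ∙ (Φ x - Φ y))ᗮ.reflection).trans Φ.symm, ?_⟩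
  rw [LinearIsometryEquiv.trans_apply, LinearIsometryEquiv.trans_apply, h1, Φ.symm_apply_apply]

theorem pairs_of_hilbert (h : IsHilbert E) {ε : ℝ} (hε : 0 < ε) : ∃ P : Finset (E × E),
    ∀ x z : E, ‖x‖ = 1 → ‖z‖ = 1 →
    ∃ p ∈ P, ∃ T : E ≃ₗᵢ[ℝ] E, ‖T x - p.1‖ ≤ ε ∧ ‖T z - p.2‖ ≤ ε := by
  classical
  obtain ⟨H, _, _, _, ⟨Φ⟩⟩ := h
  obtain ⟨P, hP⟩ := pairs_hilbert (H := H) hε
  refine ⟨P.image fun p => (Φ.symm p.1, Φ.symm p.2), fun x z hx hz => ?_⟩
  obtain ⟨p, hp, T, hT1, hT2⟩ := hP (Φ x) (Φ z) (by rw [Φ.norm_map, hx]) (by rw [Φ.norm_map, hz])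
  have e : ∀ (y : E) (v : H), Φ.symm (T (Φ y)) - Φ.symm v = Φ.symm (T (Φ y) - v) := fun y v => by
    rw [map_sub]
  refine ⟨_, Finset.mem_image_of_mem _ hp, (Φ.trans T).trans Φ.symm, ?_, ?_⟩
  · show ‖Φ.symm (T (Φ x)) - Φ.symm p.1‖ ≤ ε
    rw [e, Φ.symm.norm_map]; exact hT1
  · show ‖Φ.symm (T (Φ z)) - Φ.symm p.2‖ ≤ ε
    rw [e, Φ.symm.norm_map]; exact hT2

end Run7.h421.BM
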