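import Pool.Agent.Run7.h421.BMj

/-!
One type with a separable orbit closure gives an invariant function.
-/

set_option autoImplicit false

open Set Topology Filter

namespace Run7.h421.BM

/-- Some type `τ` over `E` realised by unit vectors (a pointwise limit of functions `y ↦ ‖x + y‖²`,
`‖x‖ = 1`) is such that the pointwise closure of the set of the functions `y ↦ τ (T y)`, `T` an
isometry of `E`, is separable for the uniform convergence on bounded sets. -/
def SeparableOrbit (E : Type) [NormedAddCommGroup E] [NormedSpace ℝ E] : Prop :=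
  ∃ τ ∈ closure (funs E), ∀ r : ℝ, ∃ D : ℕ → E → ℝ,
    ∀ g ∈ closure {h : E → ℝ | ∃ T : E ≃ₗᵢ[ℝ] E, h = fun y => τ (T y)}, ∀ δ : ℝ, 0 < δ →
      ∃ k, ∀ y, ‖y‖ ≤ r → |g y - D k y| ≤ δ

variable {E : Type} [NormedAddCommGroup E] [NormedSpace ℝ E]

theorem funs_map (T : E ≃ₗᵢ[ℝ] E) {f : E → ℝ} (hf : f ∈ funs E) : (fun y => f (T y)) ∈ funs E := by
  obtain ⟨x, hx, rfl⟩ := hf
  refine ⟨T.symm x, by rw [T.symm.norm_map, hx], ?_⟩
  funext y
  show ‖x + T y‖ ^ 2 = ‖T.symm x + y‖ ^ 2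
  rw [← T.norm_map (T.symm x + y), map_add, T.apply_symm_apply]

theorem continuous_comp (T : E ≃ₗᵢ[ℝ] E) : Continuous fun f : E → ℝ => fun y => f (T y) :=
  continuous_pi fun y => continuous_apply (T y)

theorem orbit_sub {τ : E → ℝ} (hτ : τ ∈ closure (funs E)) :
    closure {h : E → ℝ | ∃ T : E ≃ₗᵢ[ℝ] E, h = fun y => τ (T y)} ⊆ closure (funs E) := by
  refine closure_minimal ?_ isClosed_closure
  rintro _ ⟨T, rfl⟩
  exact map_mem_closure (continuous_comp T) hτ fun f hf => funs_map T hf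

/-- **Existence of an invariant function.** -/
theorem exists_inv_orbit (hS : SeparableOrbit E) :
    ∃ Ψ ∈ closure (convexHull ℝ (funs E)), ∀ (T : E ≃ₗᵢ[ℝ] E) (y : E), Ψ (T y) = Ψ y := by
  classical
  letI : MulAction (E ≃ₗᵢ[ℝ] E) E :=
    { smul := fun T x => T x
      one_smul := fun _ => rfl
      mul_smul := fun _ _ _ => rfl }
  obtain ⟨τ, hτ, hS⟩ := hS
  obtain ⟨K, hK⟩ : ∃ K : Set (E → ℝ), K = closure {h : E → ℝ | ∃ T : E ≃ₗᵢ[ℝ] E,
    h = fun y => τ (T y)} := ⟨_, rfl⟩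
  rw [← hK] at hS
  have hKc : IsClosed K := by rw [hK]; exact isClosed_closure
  have hKf : K ⊆ closure (funs E) := by rw [hK]; exact orbit_sub hτ
  have hKcomp : IsCompact K := compact_types.of_isClosed_subset hKc hKf
  have hKn : K.Nonempty := by
    rw [hK]
    exact ⟨_, subset_closure ⟨LinearIsometryEquiv.refl ℝ E, rfl⟩⟩
  have hKinv : ∀ T : E ≃ₗᵢ[ℝ] E, MapsTo (act T) K K := by
    intro T
    rw [hK]
    refine MapsTo.closure ?_ (continuous_act T)
    rintro _ ⟨S, rfl⟩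
    exact ⟨T.symm.trans S, rfl⟩
  have hhull : closure (convexHull ℝ K) ⊆ closure (convexHull ℝ (funs E)) :=
    closure_minimal (convexHull_min (hKf.trans (closure_mono (subset_convexHull ℝ _)))
      (convex_convexHull ℝ _).closure) isClosed_closure
  have hinv2 : ∀ T : E ≃ₗᵢ[ℝ] E, MapsTo (act T) (convexHull ℝ K) (convexHull ℝ K) := by
    intro T
    have hc : Convex ℝ (act T ⁻¹' (convexHull ℝ K)) := by
      intro a ha b hb s t hs ht hst
      have h2 : s • act T a + t • act T b ∈ convexHull ℝ K :=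
        (convex_convexHull ℝ _) ha hb hs ht hst
      exact h2
    exact convexHull_min (fun f hf => subset_convexHull ℝ _ (hKinv T hf)) hc
  obtain ⟨Ψ, hΨ, h⟩ := fixed_fun (G := E ≃ₗᵢ[ℝ] E) (closure (convexHull ℝ K))
    (hKn.mono ((subset_convexHull ℝ _).trans subset_closure))
    (compact_hull.of_isClosed_subset isClosed_closure hhull)
    (convex_convexHull ℝ _).closure
    (fun T f hf => (hinv2 T).closure (continuous_act T) hf)
    (fun n => {y | ‖y‖ ≤ (n : ℝ)})
    (fun n T y hy => by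
      show ‖T y‖ ≤ (n : ℝ)
      rw [T.norm_map]
      exact hy)
    (fun y => exists_nat_ge ‖y‖)
    (fun n => ⟨(1 + (n : ℝ)) ^ 2, fun f hf y hy => by
      obtain ⟨h1, h2⟩ := hull_bd (hhull hf) y
      have hy' : ‖y‖ ≤ (n : ℝ) := hy
      rw [abs_of_nonneg h1]
      refine h2.trans ?_
      gcongr⟩)
    (fun n => by
      obtain ⟨D, hD⟩ := hull_sep K hKcomp {y | ‖y‖ ≤ (n : ℝ)}
        ((1 + (n : ℝ)) ^ 2) (by positivity)
        (fun f hf y hy => by
          obtain ⟨h1, h2⟩ := type_bd (hKf hf) y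
          have hy' : ‖y‖ ≤ (n : ℝ) := hy
          rw [abs_of_nonneg h1]
          refine h2.trans ?_
          gcongr)
        (hS n)
      exact ⟨D, hD⟩)
  exact ⟨Ψ, hhull hΨ, h⟩

theorem separableOrbit_of_types (h : SeparableTypes E) (hne : ∃ x : E, ‖x‖ = 1) :
    SeparableOrbit E := by
  obtain ⟨x, hx⟩ := hne
  have hτ : (fun y : E => ‖x + y‖ ^ 2) ∈ closure (funs E) := subset_closure ⟨x, hx, rfl⟩
  refine ⟨_, hτ, fun r => ?_⟩
  obtain ⟨D, hD⟩ := h r
  exact ⟨D, fun g hg => hD g (orbit_sub hτ hg)⟩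

end Run7.h421.BM
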