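import Pool.Agent.Run7.h421.BMi
import Pool.Agent.H821.Rot.Sep
import Pool.Agent.H821.Rot.Main

/-!
Norm-separable second derivatives: the second derivative is uniformly continuous in the operator
norm (Baire category and transitivity), so the second differences are uniformly quadratic (mean value
theorem for symmetric second derivatives), and the norm has quadratic scales.
-/

set_option autoImplicit false

open Set Topology Filter Pool.Agent.Y278.Rot

namespace Run7.h421.BM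

variable {E : Type} [NormedAddCommGroup E] [NormedSpace ℝ E]

/-- The second derivatives of the square of the norm at the unit vectors are contained in a set of
bilinear forms which is separable for the operator norm: there are countably many bounded bilinear
forms `a n` such that for every unit vector `x` and every `ε > 0` some `a n` agrees with the second
symmetric derivative of `‖x‖²` at `x`, in every direction `w` separately, up to `ε ‖w‖²`. -/
def SeparableHessians (E : Type) [NormedAddCommGroup E] [NormedSpace ℝ E] : Prop :=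
  ∃ a : ℕ → E →L[ℝ] E →L[ℝ] ℝ, ∀ x : E, ‖x‖ = 1 → ∀ ε : ℝ, 0 < ε → ∃ n, ∀ w : E,
    ∀ᶠ t : ℝ in 𝓝 0, |‖x + t • w‖ ^ 2 + ‖x - t • w‖ ^ 2 - 2 - t ^ 2 * a n w w| ≤
      ε * t ^ 2 * ‖w‖ ^ 2

/-- mean value inequality for symmetric second derivatives -/
theorem schwarz_le {φ : ℝ → ℝ} {M : ℝ} (hc : Continuous φ)
    (h : ∀ s : ℝ, |s| ≤ 1 → ∃ L : ℝ, L ≤ M ∧
      Tendsto (fun t => (φ (s + t) + φ (s - t) - 2 * φ s) / t ^ 2) (𝓝[≠] 0) (𝓝 L)) :
    φ 1 + φ (-1) - 2 * φ 0 ≤ M := by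
  by_contra hcon
  push Not at hcon
  obtain ⟨q, hq⟩ : ∃ q, q = φ 1 + φ (-1) - 2 * φ 0 := ⟨_, rfl⟩
  rw [← hq] at hcon
  obtain ⟨g, hg⟩ : ∃ g : ℝ → ℝ, ∀ s, g s = φ s - (φ 0 + (φ 1 - φ (-1)) / 2 * s + q / 2 * s ^ 2) :=
    ⟨_, fun s => rfl⟩
  have hgc : Continuous g := by
    have : g = fun s => φ s - (φ 0 + (φ 1 - φ (-1)) / 2 * s + q / 2 * s ^ 2) := funext hg
    rw [this]
    fun_prop
  have g0 : g 0 = 0 := by rw [hg]; ring
  have g1 : g 1 = 0 := by rw [hg, hq]; ring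
  have gm : g (-1) = 0 := by rw [hg, hq]; ring
  obtain ⟨s, hs1, hs2⟩ : ∃ s ∈ Ioo (-1 : ℝ) 1, ∀ s' ∈ Icc (-1 : ℝ) 1, g s ≤ g s' := by
    obtain ⟨s0, h1, h2⟩ := isCompact_Icc.exists_isMinOn
      (nonempty_Icc.2 (by norm_num : (-1 : ℝ) ≤ 1)) hgc.continuousOn
    by_cases h3 : s0 ∈ Ioo (-1 : ℝ) 1
    · exact ⟨s0, h3, fun s' hs' => h2 hs'⟩
    · have h4 : g s0 = 0 := by
        rw [mem_Ioo, not_and_or] at h3
        rcases h3 with h3 | h3
        · have : s0 = -1 := le_antisymm (not_lt.1 h3) h1.1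
          rw [this, gm]
        · have : s0 = 1 := le_antisymm h1.2 (not_lt.1 h3)
          rw [this, g1]
      refine ⟨0, by norm_num, fun s' hs' => ?_⟩
      rw [g0, ← h4]
      exact h2 hs'
  obtain ⟨L, hL, hlim⟩ := h s (abs_le.2 ⟨hs1.1.le, hs1.2.le⟩)
  have h5 : q ≤ L := by
    refine ge_of_tendsto hlim ?_
    have h6 : ∀ᶠ t in 𝓝 (0 : ℝ), s + t ∈ Icc (-1 : ℝ) 1 ∧ s - t ∈ Icc (-1 : ℝ) 1 := by
      have a1 : Tendsto (fun t : ℝ => s + t) (𝓝 0) (𝓝 s) := by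
        have : Continuous fun t : ℝ => s + t := by fun_prop
        simpa using this.tendsto 0
      have a2 : Tendsto (fun t : ℝ => s - t) (𝓝 0) (𝓝 s) := by
        have : Continuous fun t : ℝ => s - t := by fun_prop
        simpa using this.tendsto 0
      exact (a1.eventually (Icc_mem_nhds hs1.1 hs1.2)).and
        (a2.eventually (Icc_mem_nhds hs1.1 hs1.2))
    filter_upwards [h6.filter_mono nhdsWithin_le_nhds, self_mem_nhdsWithin] with t ht ht0
    have ht0 : t ≠ 0 := ht0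
    rw [le_div_iff₀ (by positivity)]
    have h7 := hs2 _ ht.1
    have h8 := hs2 _ ht.2
    rw [hg, hg] at h7 h8
    nlinarith
  linarith

theorem schwarz_ge {φ : ℝ → ℝ} {M : ℝ} (hc : Continuous φ)
    (h : ∀ s : ℝ, |s| ≤ 1 → ∃ L : ℝ, M ≤ L ∧
      Tendsto (fun t => (φ (s + t) + φ (s - t) - 2 * φ s) / t ^ 2) (𝓝[≠] 0) (𝓝 L)) :
    M ≤ φ 1 + φ (-1) - 2 * φ 0 := by
  have := schwarz_le (φ := fun s => -φ s) (M := -M) hc.neg fun s hs => by
    obtain ⟨L, hL, h1⟩ := h s hs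
    refine ⟨-L, neg_le_neg hL, h1.neg.congr fun t => ?_⟩
    ring
  linarith

theorem QS_homog {p : E} (hp : p ≠ 0) (t : ℝ) (w : E) :
    QS t p w = QS (t / ‖p‖) (‖p‖⁻¹ • p) w := by
  have hρ : 0 < ‖p‖ := norm_pos_iff.2 hp
  have e1 : p + t • w = ‖p‖ • (‖p‖⁻¹ • p + (t / ‖p‖) • w) := by
    rw [smul_add, smul_smul, smul_smul, mul_inv_cancel₀ hρ.ne', one_smul, mul_div_cancel₀ _ hρ.ne']
  have e2 : p - t • w = ‖p‖ • (‖p‖⁻¹ • p - (t / ‖p‖) • w) := by
    rw [smul_sub, smul_smul, smul_smul, mul_inv_cancel₀ hρ.ne', one_smul, mul_div_cancel₀ _ hρ.ne']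
  have e3 : ‖‖p‖⁻¹ • p‖ = 1 := by
    rw [norm_smul, norm_inv, norm_norm, inv_mul_cancel₀ hρ.ne']
  unfold QS
  rw [e1, e2, norm_smul, norm_smul, norm_norm, e3]
  rcases eq_or_ne t 0 with rfl | ht
  · simp
  · field_simp

theorem lim_at {f : E → StrongDual ℝ E} {A : E → E →L[ℝ] E →L[ℝ] ℝ} {K : ℝ}
    (h : ∀ x, ‖x‖ = 1 → HessAt x (f x) (A x) K) {p : E} (hp : p ≠ 0) (w : E) :
    Tendsto (fun t => QS t p w) (𝓝[≠] 0) (𝓝 (A (‖p‖⁻¹ • p) w w)) := by
  have hρ : 0 < ‖p‖ := norm_pos_iff.2 hp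
  have e3 : ‖‖p‖⁻¹ • p‖ = 1 := by
    rw [norm_smul, norm_inv, norm_norm, inv_mul_cancel₀ hρ.ne']
  have h1 : Tendsto (fun t : ℝ => t / ‖p‖) (𝓝[≠] 0) (𝓝[≠] 0) := by
    refine tendsto_nhdsWithin_iff.2 ⟨?_, ?_⟩
    · have : Continuous fun t : ℝ => t / ‖p‖ := by fun_prop
      have := (this.tendsto 0).mono_left (nhdsWithin_le_nhds (s := {(0 : ℝ)}ᶜ))
      rwa [zero_div] at this
    · filter_upwards [self_mem_nhdsWithin] with t ht
      exact div_ne_zero ht hρ.ne'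
  refine (((h _ e3).lim w).comp h1).congr fun t => ?_
  exact (QS_homog hp t w).symm

/-- the second differences at `x` are quadratic up to the oscillation of the second derivative -/
theorem sdiff_of_osc {f : E → StrongDual ℝ E} {A : E → E →L[ℝ] E →L[ℝ] ℝ} {K : ℝ}
    (h : ∀ x, ‖x‖ = 1 → HessAt x (f x) (A x) K) {x : E} (hx : ‖x‖ = 1) {δ ε : ℝ}
    (hU : ∀ y, ‖y‖ = 1 → ‖y - x‖ ≤ δ → ∀ w, |A y w w - A x w w| ≤ ε * ‖w‖ ^ 2) {w : E}
    (hw1 : ‖w‖ ≤ δ / 2) (hw2 : ‖w‖ ≤ 1 / 2) : |sdiff x w - 2 * A x w w| ≤ 2 * ε * ‖w‖ ^ 2 := by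
  obtain ⟨φ, hφ⟩ : ∃ φ : ℝ → ℝ, ∀ s, φ s = ‖x + s • w‖ ^ 2 := ⟨_, fun s => rfl⟩
  have hφc : Continuous φ := by
    have : φ = fun s => ‖x + s • w‖ ^ 2 := funext hφ
    rw [this]
    fun_prop
  have hs : sdiff x w = φ 1 + φ (-1) - 2 * φ 0 := by
    rw [hφ, hφ, hφ, one_smul, zero_smul, add_zero, neg_smul, one_smul, ← sub_eq_add_neg, hx]
    unfold sdiff
    ring
  have key : ∀ s : ℝ, |s| ≤ 1 → ∃ L : ℝ, |L - 2 * A x w w| ≤ 2 * ε * ‖w‖ ^ 2 ∧
      Tendsto (fun t => (φ (s + t) + φ (s - t) - 2 * φ s) / t ^ 2) (𝓝[≠] 0) (𝓝 L) := by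
    intro s hs
    have hsw : ‖s • w‖ ≤ ‖w‖ := by
      rw [norm_smul, Real.norm_eq_abs]
      exact mul_le_of_le_one_left (norm_nonneg _) hs
    have hn1 : |‖x + s • w‖ - 1| ≤ ‖w‖ := by
      have := abs_norm_sub_norm_le (x + s • w) x
      rw [hx, add_sub_cancel_left] at this
      exact this.trans hsw
    have hn2 := abs_le.1 hn1
    have hp0 : 0 < ‖x + s • w‖ := by linarith
    have hp : x + s • w ≠ 0 := norm_pos_iff.1 hp0
    have e3 : ‖‖x + s • w‖⁻¹ • (x + s • w)‖ = 1 := by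
      rw [norm_smul, norm_inv, norm_norm, inv_mul_cancel₀ hp0.ne']
    have hd : ‖‖x + s • w‖⁻¹ • (x + s • w) - x‖ ≤ δ := by
      have h1 : ‖‖x + s • w‖⁻¹ • (x + s • w) - (x + s • w)‖ ≤ ‖w‖ := by
        have e : ‖x + s • w‖⁻¹ • (x + s • w) - (x + s • w) =
            (‖x + s • w‖⁻¹ - 1) • (x + s • w) := by rw [sub_smul, one_smul]
        rw [e, norm_smul, Real.norm_eq_abs]
        have e' : |‖x + s • w‖⁻¹ - 1| * ‖x + s • w‖ = |‖x + s • w‖ - 1| := by
          calc |‖x + s • w‖⁻¹ - 1| * ‖x + s • w‖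
              = |(‖x + s • w‖⁻¹ - 1) * ‖x + s • w‖| := by rw [abs_mul, abs_of_pos hp0]
            _ = |1 - ‖x + s • w‖| := by rw [sub_mul, inv_mul_cancel₀ hp0.ne', one_mul]
            _ = |‖x + s • w‖ - 1| := abs_sub_comm _ _
        rw [e']
        exact hn1
      have h2 : ‖x + s • w - x‖ ≤ ‖w‖ := by
        rw [add_sub_cancel_left]; exact hsw
      have h3 := norm_add_le (‖x + s • w‖⁻¹ • (x + s • w) - (x + s • w)) (x + s • w - x)
      rw [sub_add_sub_cancel] at h3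
      linarith
    refine ⟨2 * A (‖x + s • w‖⁻¹ • (x + s • w)) w w, ?_, ?_⟩
    · rw [← mul_sub, abs_mul, abs_of_pos (by norm_num : (0 : ℝ) < 2), mul_assoc]
      exact mul_le_mul_of_nonneg_left (hU _ e3 hd w) (by norm_num)
    · refine ((lim_at h hp w).const_mul 2).congr fun t => ?_
      rw [hφ, hφ, hφ]
      unfold QS
      have e4 : x + (s + t) • w = x + s • w + t • w := by rw [add_smul, add_assoc]
      have e5 : x + (s - t) • w = x + s • w - t • w := by rw [sub_smul, add_sub_assoc]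
      rw [e4, e5]
      rcases eq_or_ne t 0 with rfl | ht
      · simp
      · field_simp
  rw [hs, abs_le]
  constructor
  · have := schwarz_ge (M := 2 * A x w w - 2 * ε * ‖w‖ ^ 2) hφc fun s hs => by
      obtain ⟨L, hL, h1⟩ := key s hs
      exact ⟨L, by linarith [(abs_le.1 hL).1], h1⟩
    linarith
  · have := schwarz_le (M := 2 * A x w w + 2 * ε * ‖w‖ ^ 2) hφc fun s hs => by
      obtain ⟨L, hL, h1⟩ := key s hs
      exact ⟨L, by linarith [(abs_le.1 hL).2], h1⟩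
    linarith

/-- **The second derivative is uniformly continuous in norm if its values are norm-separable.** -/
theorem unif_of_sep [CompleteSpace E] [TopologicalSpace.SeparableSpace E]
    (htr : ∀ x y : E, ‖x‖ = 1 → ‖y‖ = 1 → ∃ T : E ≃ₗᵢ[ℝ] E, T x = y)
    {f : E → StrongDual ℝ E} {A : E → E →L[ℝ] E →L[ℝ] ℝ} {K : ℝ}
    (h : ∀ x, ‖x‖ = 1 → HessAt x (f x) (A x) K) (hne : ∃ x : E, ‖x‖ = 1)
    (a : ℕ → E →L[ℝ] E →L[ℝ] ℝ)
    (ha : ∀ x : E, ‖x‖ = 1 → ∀ ε : ℝ, 0 < ε → ∃ n, ∀ w : E, |A x w w - a n w w| ≤ ε * ‖w‖ ^ 2)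
    {ε : ℝ} (hε : 0 < ε) : ∃ δ : ℝ, 0 < δ ∧ ∀ x y : E, ‖x‖ = 1 → ‖y‖ = 1 → ‖y - x‖ ≤ δ →
      ∀ w, |A y w w - A x w w| ≤ ε * ‖w‖ ^ 2 := by
  let S := {x : E // ‖x‖ = 1}
  have hScl : IsClosed {x : E | ‖x‖ = 1} := isClosed_eq continuous_norm continuous_const
  haveI : CompleteSpace S := hScl.completeSpace_coe
  haveI : Nonempty S := by
    obtain ⟨x, hx⟩ := hne
    exact ⟨⟨x, hx⟩⟩
  let C : ℕ → Set S := fun n => {x | ∀ w : E, |A (x : E) w w - a n w w| ≤ ε / 2 * ‖w‖ ^ 2}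
  have hC : ∀ n, IsClosed (C n) := by
    intro n
    have e : C n = ⋂ w : E, {x : S | |A (x : E) w w - a n w w| ≤ ε / 2 * ‖w‖ ^ 2} := by
      ext x
      simp [C]
    rw [e]
    refine isClosed_iInter fun w => ?_
    have hc : Continuous fun x : S => A (x : E) w w := by
      have := hess_cont htr h w
      rw [continuousOn_iff_continuous_restrict] at this
      exact this
    exact isClosed_le (hc.sub continuous_const).abs continuous_const
  have hU : ⋃ n, C n = univ := by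
    refine eq_univ_of_forall fun x => ?_
    obtain ⟨n, hn⟩ := ha x x.2 (ε / 2) (by positivity)
    exact mem_iUnion.2 ⟨n, hn⟩
  obtain ⟨n, ⟨z, hz⟩⟩ := nonempty_interior_of_iUnion_of_closed hC hU
  rw [mem_interior_iff_mem_nhds, Metric.mem_nhds_iff] at hz
  obtain ⟨δ, hδ, hball⟩ := hz
  refine ⟨δ / 2, by positivity, fun x y hx hy hxy w => ?_⟩
  obtain ⟨T, hT⟩ := htr (z : E) x z.2 hx
  -- move to `z`
  have hzz := hball (Metric.mem_ball_self hδ)
  have hy' : ‖T.symm y‖ = 1 := by rw [T.symm.norm_map, hy]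
  have hyz := hball (show (⟨T.symm y, hy'⟩ : S) ∈ Metric.ball z δ by
    rw [Metric.mem_ball, Subtype.dist_eq, dist_eq_norm]
    show ‖T.symm y - (z : E)‖ < δ
    have : T.symm y - (z : E) = T.symm (y - x) := by
      rw [map_sub, ← hT, T.symm_apply_apply]
    rw [this, T.symm.norm_map]
    linarith)
  have h1 := hzz (T.symm w)
  have h2 := hyz (T.symm w)
  have e1 : A x w w = A (z : E) (T.symm w) (T.symm w) := by
    have h3 := hess_map (h z z.2) T (h (T z) (by rw [T.norm_map]; exact z.2)) (T.symm w) (T.symm w)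
    rw [T.apply_symm_apply, hT] at h3
    exact h3
  have e2 : A y w w = A (T.symm y) (T.symm w) (T.symm w) := by
    have h3 := hess_map (h _ hy') T (h (T (T.symm y)) (by rw [T.norm_map]; exact hy')) (T.symm w)
      (T.symm w)
    rw [T.apply_symm_apply, T.apply_symm_apply] at h3
    exact h3
  rw [T.symm.norm_map] at h1 h2
  rw [e1, e2]
  have h2' : |A (T.symm y) (T.symm w) (T.symm w) - a n (T.symm w) (T.symm w)| ≤
      ε / 2 * ‖w‖ ^ 2 := h2
  calc |A (T.symm y) (T.symm w) (T.symm w) - A (z : E) (T.symm w) (T.symm w)|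
      = |(A (T.symm y) (T.symm w) (T.symm w) - a n (T.symm w) (T.symm w)) -
        (A (z : E) (T.symm w) (T.symm w) - a n (T.symm w) (T.symm w))| := by ring_nf
    _ ≤ |A (T.symm y) (T.symm w) (T.symm w) - a n (T.symm w) (T.symm w)| +
        |A (z : E) (T.symm w) (T.symm w) - a n (T.symm w) (T.symm w)| := abs_sub _ _
    _ ≤ ε * ‖w‖ ^ 2 := by linarith

end Run7.h421.BM
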