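import Pool.Agent.Run7.h421.BMl
import Pool.Agent.Run7.h421.BMk

/-!
Norm-separable second derivatives and norm-separable transitive groups.
-/

set_option autoImplicit false

open Set Topology Filter Pool.Agent.Y278.Rot Pool.Agent.H821.Rot

namespace Run7.h421.BM

variable {E : Type} [NormedAddCommGroup E] [NormedSpace ℝ E]

/-- `E` is linearly isomorphic to a Hilbert space. -/
def Hilbertian (E : Type) [NormedAddCommGroup E] [NormedSpace ℝ E] : Prop :=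
  ∃ (H : Type) (_ : NormedAddCommGroup H) (_ : InnerProductSpace ℝ H) (_ : CompleteSpace H),
    Nonempty (E ≃L[ℝ] H)

/-- the field of second derivatives -/
theorem exists_field [CompleteSpace E] [TopologicalSpace.SeparableSpace E]
    (htr : ∀ x y : E, ‖x‖ = 1 → ‖y‖ = 1 → ∃ T : E ≃ₗᵢ[ℝ] E, T x = y) (hH : Hilbertian E) :
    ∃ (c K : ℝ) (f : E → StrongDual ℝ E) (A : E → E →L[ℝ] E →L[ℝ] ℝ), 0 < c ∧
      (∀ x, ‖x‖ = 1 → HessAt x (f x) (A x) K) ∧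
      ∀ x, ‖x‖ = 1 → ∀ w, c * ‖w‖ ^ 2 ≤ A x w w := by
  obtain ⟨H, _, _, _, ⟨Φ⟩⟩ := hH
  obtain ⟨c, hc0, hc⟩ := two_convex htr Φ
  obtain ⟨K, hK0, hK⟩ := two_smooth htr Φ
  have hex : ∀ x : E, ∃ (f : StrongDual ℝ E) (A : E →L[ℝ] E →L[ℝ] ℝ),
      ‖x‖ = 1 → HessAt x f A K := by
    intro x
    by_cases hx : ‖x‖ = 1
    · obtain ⟨f, A, h⟩ := exists_hessAt htr hK0 hK hx
      exact ⟨f, A, fun _ => h⟩
    · exact ⟨0, 0, fun h => absurd h hx⟩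
  choose f A h using hex
  exact ⟨c / 2, K, f, A, by positivity, h, fun x hx w => hess_lower (h x hx) hc w⟩

/-- limits of the second differences -/
theorem near_of_ev {x : E} (hx : ‖x‖ = 1) {f : StrongDual ℝ E} {A : E →L[ℝ] E →L[ℝ] ℝ} {K : ℝ}
    (h : HessAt x f A K) {b ε : ℝ} {w : E}
    (hb : ∀ᶠ t : ℝ in 𝓝 0, |‖x + t • w‖ ^ 2 + ‖x - t • w‖ ^ 2 - 2 - t ^ 2 * b| ≤
      ε * t ^ 2 * ‖w‖ ^ 2) : |2 * A w w - b| ≤ ε * ‖w‖ ^ 2 := by
  refine le_of_tendsto (((h.lim w).const_mul 2).sub_const b).abs ?_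
  filter_upwards [hb.filter_mono nhdsWithin_le_nhds, self_mem_nhdsWithin] with t ht ht0
  have ht0 : t ≠ 0 := ht0
  have ht2 : 0 < t ^ 2 := by positivity
  have e : 2 * QS t x w - b = (‖x + t • w‖ ^ 2 + ‖x - t • w‖ ^ 2 - 2 - t ^ 2 * b) / t ^ 2 := by
    unfold QS
    rw [hx]
    field_simp
  rw [e, abs_div, abs_of_pos ht2, div_le_iff₀ ht2]
  linarith

/-- conversely -/
theorem ev_of_near {x : E} (hx : ‖x‖ = 1) {f : StrongDual ℝ E} {A : E →L[ℝ] E →L[ℝ] ℝ} {K : ℝ}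
    (h : HessAt x f A K) {b ε : ℝ} (hε : 0 < ε) {w : E} (hb : |2 * A w w - b| ≤ ε / 2 * ‖w‖ ^ 2) :
    ∀ᶠ t : ℝ in 𝓝 0, |‖x + t • w‖ ^ 2 + ‖x - t • w‖ ^ 2 - 2 - t ^ 2 * b| ≤
      ε * t ^ 2 * ‖w‖ ^ 2 := by
  rcases eq_or_ne w 0 with rfl | hw
  · have hb0 : b = 0 := by
      simp at hb
      exact hb
    refine Filter.Eventually.of_forall fun t => ?_
    rw [hb0, smul_zero, add_zero, sub_zero, hx]
    norm_num
  · have hw0 : 0 < ‖w‖ := norm_pos_iff.2 hw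
    have h1 := (((h.lim w).const_mul 2).sub_const b).abs
    have h2 : |2 * A w w - b| < ε * ‖w‖ ^ 2 := by
      have : 0 < ε * ‖w‖ ^ 2 := by positivity
      linarith
    have h3 := h1.eventually (gt_mem_nhds h2)
    rw [eventually_nhdsWithin_iff] at h3
    filter_upwards [h3] with t ht
    rcases eq_or_ne t 0 with rfl | ht0
    · rw [zero_smul, add_zero, sub_zero, hx]
      norm_num
    · have ht1 := ht ht0
      have ht2 : 0 < t ^ 2 := by positivity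
      have e : ‖x + t • w‖ ^ 2 + ‖x - t • w‖ ^ 2 - 2 - t ^ 2 * b = t ^ 2 * (2 * QS t x w - b) := by
        unfold QS
        rw [hx]
        field_simp
      rw [e, abs_mul, abs_of_pos ht2]
      nlinarith

/-- norm-separable second derivatives give uniformly quadratic second differences -/
theorem unif_of_sepHess [CompleteSpace E] [TopologicalSpace.SeparableSpace E]
    (htr : ∀ x y : E, ‖x‖ = 1 → ‖y‖ = 1 → ∃ T : E ≃ₗᵢ[ℝ] E, T x = y)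
    (hS : SeparableHessians E) {f : E → StrongDual ℝ E} {A : E → E →L[ℝ] E →L[ℝ] ℝ} {K : ℝ}
    (h : ∀ x, ‖x‖ = 1 → HessAt x (f x) (A x) K) {x : E} (hx : ‖x‖ = 1) {ε : ℝ} (hε : 0 < ε) :
    ∃ δ : ℝ, 0 < δ ∧ ∀ w, ‖w‖ ≤ δ → |sdiff x w - 2 * A x w w| ≤ 2 * ε * ‖w‖ ^ 2 := by
  obtain ⟨a, ha⟩ := hS
  have ha' : ∀ x : E, ‖x‖ = 1 → ∀ ε : ℝ, 0 < ε → ∃ n, ∀ w : E,
      |A x w w - ((1 / 2 : ℝ) • a n) w w| ≤ ε * ‖w‖ ^ 2 := by
    intro x hx ε hε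
    obtain ⟨n, hn⟩ := ha x hx (2 * ε) (by positivity)
    refine ⟨n, fun w => ?_⟩
    have h1 := near_of_ev hx (h x hx) (hn w)
    have e : A x w w - ((1 / 2 : ℝ) • a n) w w = 1 / 2 * (2 * A x w w - a n w w) := by
      show A x w w - (1 / 2 : ℝ) * a n w w = _
      ring
    rw [e, abs_mul, abs_of_pos (by norm_num : (0 : ℝ) < 1 / 2)]
    linarith
  obtain ⟨δ, hδ, hU⟩ := unif_of_sep htr h ⟨x, hx⟩ (fun n => (1 / 2 : ℝ) • a n) ha' hε
  refine ⟨min (δ / 2) (1 / 2), by positivity, fun w hw => ?_⟩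
  exact sdiff_of_osc h hx (fun y hy hyx => hU x y hx hy hyx) (hw.trans (min_le_left _ _))
    (hw.trans (min_le_right _ _))

theorem scales_of_sepHess [CompleteSpace E] [TopologicalSpace.SeparableSpace E]
    (htr : ∀ x y : E, ‖x‖ = 1 → ‖y‖ = 1 → ∃ T : E ≃ₗᵢ[ℝ] E, T x = y) (hH : Hilbertian E)
    (hS : SeparableHessians E) (hne : ∃ x : E, ‖x‖ = 1) : QuadraticScales E := by
  obtain ⟨x, hx⟩ := hne
  obtain ⟨c, K, f, A, hc, h, hlow⟩ := exists_field htr hH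
  exact scales_of_sdiff hx hc (hlow x hx) fun ε hε => unif_of_sepHess htr hS h hx hε

/-- **Norm-separable transitive groups have norm-separable second derivatives.** -/
theorem sepHess_of_group [CompleteSpace E] [TopologicalSpace.SeparableSpace E]
    (G : Subgroup (E ≃ₗᵢ[ℝ] E)) (hsep : TopologicalSpace.IsSeparable (ops (G : Set (E ≃ₗᵢ[ℝ] E))))
    (htr : ∀ x y : E, ‖x‖ = 1 → ‖y‖ = 1 → ∃ T ∈ G, T x = y) (hne : ∃ x : E, ‖x‖ = 1) :
    SeparableHessians E := by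
  have htr' : ∀ x y : E, ‖x‖ = 1 → ‖y‖ = 1 → ∃ T : E ≃ₗᵢ[ℝ] E, T x = y := fun x y hx hy => by
    obtain ⟨T, -, h⟩ := htr x y hx hy
    exact ⟨T, h⟩
  obtain ⟨c, K, f, A, hc, h, hlow⟩ := exists_field htr' (hilbertian G hsep htr)
  obtain ⟨x₀, hx₀⟩ := hne
  obtain ⟨D, hD, hD2⟩ := hsep
  have hDne : D.Nonempty := by
    by_contra hcon
    rw [not_nonempty_iff_eq_empty] at hcon
    rw [hcon, closure_empty] at hD2
    exact hD2 ⟨1, G.one_mem, rfl⟩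
  obtain ⟨S, hS⟩ := hD.exists_eq_range hDne
  -- the forms `2 A x₀ (S ·) (S ·)`
  refine ⟨fun n => (2 : ℝ) • ((A x₀).bilinearComp (S n) (S n)), fun x hx ε hε => ?_⟩
  obtain ⟨T, hTG, hT⟩ := htr x x₀ hx hx₀
  have hmem : op T ∈ closure D := hD2 ⟨T, hTG, rfl⟩
  obtain ⟨κ, hκ⟩ : ∃ κ : ℝ, κ = min 1 (ε / (16 * (‖A x₀‖ + 1))) := ⟨_, rfl⟩
  have hκ0 : 0 < κ := by rw [hκ]; positivity
  obtain ⟨b, hbD, hb⟩ := Metric.mem_closure_iff.1 hmem κ hκ0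
  rw [hS] at hbD
  obtain ⟨n, rfl⟩ := hbD
  refine ⟨n, fun w => ev_of_near hx (h x hx) hε ?_⟩
  have e1 : A x w w = A x₀ (T w) (T w) := by
    have h3 := hess_map (h x hx) T (h (T x) (by rw [T.norm_map]; exact hx)) w w
    rw [hT] at h3
    exact h3.symm
  have hd : ‖T w - S n w‖ ≤ κ * ‖w‖ := by
    have h4 : ‖op T - S n‖ ≤ κ := by
      rw [← dist_eq_norm]; exact hb.le
    calc ‖T w - S n w‖ = ‖(op T - S n) w‖ := rfl
      _ ≤ ‖op T - S n‖ * ‖w‖ := (op T - S n).le_opNorm w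
      _ ≤ κ * ‖w‖ := mul_le_mul_of_nonneg_right h4 (norm_nonneg _)
  have hSn : ‖S n w‖ ≤ 2 * ‖w‖ := by
    have h5 : ‖S n w‖ ≤ ‖T w‖ + ‖T w - S n w‖ := by
      have := norm_sub_le (T w) (T w - S n w)
      rwa [sub_sub_cancel] at this
    rw [T.norm_map] at h5
    have h6 : κ ≤ 1 := by rw [hκ]; exact min_le_left _ _
    nlinarith [norm_nonneg w]
  have e2 : ((2 : ℝ) • ((A x₀).bilinearComp (S n) (S n))) w w = 2 * A x₀ (S n w) (S n w) := rfl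
  rw [e1, e2, ← mul_sub, abs_mul, abs_of_pos (by norm_num : (0 : ℝ) < 2)]
  have e3 : A x₀ (T w) (T w) - A x₀ (S n w) (S n w) =
      A x₀ (T w - S n w) (T w) + A x₀ (S n w) (T w - S n w) := by
    simp only [map_sub, _root_.sub_apply]
    ring
  have h7 : |A x₀ (T w - S n w) (T w)| ≤ ‖A x₀‖ * (κ * ‖w‖) * ‖w‖ := by
    refine ((A x₀).le_opNorm₂ _ _).trans ?_
    rw [T.norm_map]
    gcongr
  have h8 : |A x₀ (S n w) (T w - S n w)| ≤ ‖A x₀‖ * (2 * ‖w‖) * (κ * ‖w‖) := by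
    refine ((A x₀).le_opNorm₂ _ _).trans ?_
    gcongr
  have h9 : ‖A x₀‖ * κ ≤ ε / 16 := by
    have h10 : κ ≤ ε / (16 * (‖A x₀‖ + 1)) := by rw [hκ]; exact min_le_right _ _
    have h11 : 0 < ‖A x₀‖ + 1 := by positivity
    calc ‖A x₀‖ * κ ≤ (‖A x₀‖ + 1) * (ε / (16 * (‖A x₀‖ + 1))) := by
          gcongr
          linarith
      _ = ε / 16 := by field_simp
  rw [e3]
  have h12 := abs_add_le (A x₀ (T w - S n w) (T w)) (A x₀ (S n w) (T w - S n w))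
  have h13 : 0 ≤ ‖w‖ ^ 2 := by positivity
  have h14 := mul_le_mul_of_nonneg_right h9 h13
  nlinarith

end Run7.h421.BM
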