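import Pool.Agent.Run7.h421.BMm

/-!
Hilbert spaces: the isometries which are compact perturbations of the identity form a norm-separable
transitive group.
-/

set_option autoImplicit false

open Set Topology Filter Pool.Agent.Y278.Rot Pool.Agent.H821.Rot
open scoped InnerProductSpace

namespace Run7.h421.BM

variable {E : Type} [NormedAddCommGroup E] [NormedSpace ℝ E]

/-- in a Hilbert space any two unit vectors are interchanged by a reflection -/
theorem hilbert_compact {H : Type} [NormedAddCommGroup H] [InnerProductSpace ℝ H] (x y : H)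
    (h : ‖x‖ = ‖y‖) :
    ∃ T : H ≃ₗᵢ[ℝ] H, IsCompactOperator (fun z : H => T z - z) ∧ T x = y := by
  refine ⟨((ℝ ∙ (x - y))ᗮ : Submodule ℝ H).reflection, ?_, Submodule.reflection_sub h⟩
  have h1 : IsCompactOperator ((ℝ ∙ (x - y)).orthogonalProjectionOnto : H →L[ℝ] (ℝ ∙ (x - y))) :=
    isCompactOperator_of_locallyCompactSpace_dom _
  have h2 := h1.clm_comp (((-2 : ℝ) • (ℝ ∙ (x - y)).subtypeL) : (ℝ ∙ (x - y)) →L[ℝ] H)
  have h3 : (fun z : H => ((ℝ ∙ (x - y))ᗮ : Submodule ℝ H).reflection z - z) =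
      (((-2 : ℝ) • (ℝ ∙ (x - y)).subtypeL : (ℝ ∙ (x - y)) →L[ℝ] H)) ∘
        ((ℝ ∙ (x - y)).orthogonalProjectionOnto : H →L[ℝ] (ℝ ∙ (x - y))) := by
    funext z
    rw [Submodule.reflection_orthogonal_apply, Submodule.reflection_apply]
    show -((2 : ℕ) • (ℝ ∙ (x - y)).starProjection z - z) - z =
      (-2 : ℝ) • (ℝ ∙ (x - y)).starProjection z
    rw [two_smul, neg_smul, two_smul]
    abel
  rw [h3]
  exact h2

theorem compact_trans_of_hilbert (hE : IsHilbert E) {x y : E} (hx : ‖x‖ = 1) (hy : ‖y‖ = 1) :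
    ∃ T : E ≃ₗᵢ[ℝ] E, IsCompactOperator (fun z : E => T z - z) ∧ T x = y := by
  obtain ⟨H, i1, i2, i3, ⟨Φ⟩⟩ := hE
  obtain ⟨T, hT, hxy⟩ := hilbert_compact (Φ x) (Φ y) (by
    rw [Φ.norm_map, Φ.norm_map, hx, hy])
  refine ⟨(Φ.trans T).trans Φ.symm, ?_, ?_⟩
  · have h1 : IsCompactOperator (fun z : E => T (Φ z) - Φ z) :=
      hT.comp_clm (Φ.toContinuousLinearEquiv : E →L[ℝ] H)
    have h2 : IsCompactOperator (fun z : E =>
        (Φ.symm.toContinuousLinearEquiv : H →L[ℝ] E) (T (Φ z) - Φ z)) := h1.clm_comp _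
    have h3 : (fun z : E => ((Φ.trans T).trans Φ.symm) z - z) = fun z : E =>
        (Φ.symm.toContinuousLinearEquiv : H →L[ℝ] E) (T (Φ z) - Φ z) := by
      funext z
      rw [map_sub]
      show Φ.symm (T (Φ z)) - z = Φ.symm (T (Φ z)) - Φ.symm (Φ z)
      rw [Φ.symm_apply_apply]
    rw [h3]
    exact h2
  · show Φ.symm (T (Φ x)) = y
    rw [hxy, Φ.symm_apply_apply]

/-- a norm-separable transitive group of isometries of a separable Hilbert space -/
theorem group_of_hilbert [CompleteSpace E] [TopologicalSpace.SeparableSpace E]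
    (hE : IsHilbert E) : ∃ G : Subgroup (E ≃ₗᵢ[ℝ] E),
      TopologicalSpace.IsSeparable (ops (G : Set (E ≃ₗᵢ[ℝ] E))) ∧
      ∀ x y : E, ‖x‖ = 1 → ‖y‖ = 1 → ∃ T ∈ G, T x = y := by
  have h : ∀ x y : E, ‖x‖ = 1 → ‖y‖ = 1 → ∃ T : E ≃ₗᵢ[ℝ] E,
      IsCompactOperator (fun z : E => T z - z) ∧ T x = y := fun x y hx hy =>
    compact_trans_of_hilbert hE hx hy
  have := dual_separable h
  refine ⟨compactGroup E, compactGroup_separable, fun x y hx hy => ?_⟩
  obtain ⟨T, hT, hxy⟩ := h x y hx hy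
  exact ⟨T, hT, hxy⟩

end Run7.h421.BM
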