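import Pool.Agent.Run7.h421.BMn

/-!
A family of functions on a separable space with the double limit property has a closure which is
separable for uniform convergence on bounded sets.
-/

set_option autoImplicit false

open Set Topology Filter

namespace Run7.h421.BM

variable {E : Type} [NormedAddCommGroup E] [NormedSpace ℝ E]

/-- The double limit property: the iterated limits of `f n (y m)` agree whenever they exist, for
functions `f n` of the family and bounded sequences `y m`. -/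
def DoubleLimit (F : Set (E → ℝ)) : Prop :=
  ∀ (f : ℕ → E → ℝ) (y : ℕ → E) (C : ℝ), (∀ n, f n ∈ F) → (∀ n, ‖y n‖ ≤ C) →
    ∀ (α β : ℕ → ℝ) (a b : ℝ), (∀ n, Tendsto (fun m => f n (y m)) atTop (𝓝 (α n))) →
      (∀ m, Tendsto (fun n => f n (y m)) atTop (𝓝 (β m))) →
      Tendsto α atTop (𝓝 a) → Tendsto β atTop (𝓝 b) → a = b

/-- The pointwise closure of the family is separable for uniform convergence on bounded sets. -/
def SeparableClosure (F : Set (E → ℝ)) : Prop :=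
  ∀ r : ℝ, ∃ D : ℕ → E → ℝ, ∀ g ∈ closure F, ∀ δ : ℝ, 0 < δ →
    ∃ k, ∀ y, ‖y‖ ≤ r → |g y - D k y| ≤ δ

/-- uniformly quadratic growth of the functions and of their increments -/
def QuadBd (C : ℝ) (f : E → ℝ) : Prop :=
  (∀ y, |f y| ≤ C * ‖y‖ ^ 2) ∧ ∀ y y', |f y - f y'| ≤ C * (‖y‖ + ‖y'‖) * ‖y - y'‖

omit [NormedSpace ℝ E] in
theorem isClosed_quadBd (C : ℝ) : IsClosed {f : E → ℝ | QuadBd C f} := by
  have e : {f : E → ℝ | QuadBd C f} = (⋂ y, {f : E → ℝ | |f y| ≤ C * ‖y‖ ^ 2}) ∩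
      ⋂ y, ⋂ y', {f : E → ℝ | |f y - f y'| ≤ C * (‖y‖ + ‖y'‖) * ‖y - y'‖} := by
    ext f
    simp [QuadBd]
  rw [e]
  refine (isClosed_iInter fun y => ?_).inter (isClosed_iInter fun y => isClosed_iInter fun y' => ?_)
  · exact isClosed_le (continuous_apply y).abs continuous_const
  · exact isClosed_le ((continuous_apply y).sub (continuous_apply y')).abs continuous_const

omit [NormedSpace ℝ E] in
theorem convex_quadBd (C : ℝ) : Convex ℝ {f : E → ℝ | QuadBd C f} := by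
  intro f hf g hg s t hs ht hst
  refine ⟨fun y => ?_, fun y y' => ?_⟩
  · show |s * f y + t * g y| ≤ C * ‖y‖ ^ 2
    have h1 := abs_le.1 (hf.1 y)
    have h2 := abs_le.1 (hg.1 y)
    have e : C * ‖y‖ ^ 2 = s * (C * ‖y‖ ^ 2) + t * (C * ‖y‖ ^ 2) := by
      rw [← add_mul, hst, one_mul]
    rw [e, abs_le]
    constructor <;> nlinarith [h1.1, h1.2, h2.1, h2.2]
  · show |(s * f y + t * g y) - (s * f y' + t * g y')| ≤ _
    have h1 := abs_le.1 (hf.2 y y')
    have h2 := abs_le.1 (hg.2 y y')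
    obtain ⟨B, hB⟩ : ∃ B, B = C * (‖y‖ + ‖y'‖) * ‖y - y'‖ := ⟨_, rfl⟩
    rw [← hB] at h1 h2 ⊢
    have e : B = s * B + t * B := by rw [← add_mul, hst, one_mul]
    rw [e, abs_le]
    constructor <;> nlinarith [h1.1, h1.2, h2.1, h2.2]

theorem closure_quadBd {C : ℝ} {F : Set (E → ℝ)} (hF : ∀ f ∈ F, QuadBd C f) {g : E → ℝ}
    (hg : g ∈ closure F) : QuadBd C g :=
  closure_minimal (fun f hf => hF f hf) (isClosed_quadBd C) hg

/-- a countable subfamily which approximates the family at finitely many points -/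
theorem exists_seq [TopologicalSpace.SeparableSpace E] {C : ℝ} (hC : 0 ≤ C) {F : Set (E → ℝ)}
    (hF : ∀ f ∈ F, QuadBd C f) (hne : F.Nonempty) : ∃ Q : ℕ → E → ℝ, (∀ k, Q k ∈ F) ∧
      ∀ g ∈ closure F, ∀ S : Finset E, ∀ η : ℝ, 0 < η → ∃ k, ∀ y ∈ S, |Q k y - g y| < η := by
  classical
  set d : ℕ → E := TopologicalSpace.denseSeq E with hdd
  have hd : DenseRange d := TopologicalSpace.denseRange_denseSeq E
  let Φ : F → (ℕ → ℝ) := fun f j => (f : E → ℝ) (d j)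
  have : Nonempty (Set.range Φ) := ⟨⟨_, ⟨hne.some, hne.some_mem⟩, rfl⟩⟩
  let a := TopologicalSpace.denseSeq (Set.range Φ)
  have ha : DenseRange a := TopologicalSpace.denseRange_denseSeq _
  have hch : ∀ n, ∃ f : F, Φ f = a n := fun n => (a n).2
  choose h hh using hch
  refine ⟨fun k => (h k : E → ℝ), fun k => (h k).2, fun g hg S η hη => ?_⟩
  have hgq := closure_quadBd hF hg
  -- approximate the points of `S`
  have hj : ∀ y : E, ∃ j : ℕ, C * (‖y‖ + ‖d j‖) * ‖y - d j‖ < η / 4 := by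
    intro y
    obtain ⟨j, hj⟩ := hd.exists_dist_lt y
      (show 0 < min 1 (η / (4 * (C * (2 * ‖y‖ + 1) + 1))) by positivity)
    rw [dist_eq_norm] at hj
    have h1 : ‖y - d j‖ ≤ 1 := hj.le.trans (min_le_left _ _)
    have h2 : ‖y - d j‖ < η / (4 * (C * (2 * ‖y‖ + 1) + 1)) := hj.trans_le (min_le_right _ _)
    have h3 : ‖d j‖ ≤ ‖y‖ + 1 := by
      have e : d j = y - (y - d j) := by abel
      rw [e]
      exact (norm_sub_le _ _).trans (by linarith)
    refine ⟨j, ?_⟩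
    rw [lt_div_iff₀ (by positivity)] at h2
    have h4 : C * (‖y‖ + ‖d j‖) ≤ C * (2 * ‖y‖ + 1) :=
      mul_le_mul_of_nonneg_left (by linarith) hC
    have h5 : C * (‖y‖ + ‖d j‖) * ‖y - d j‖ ≤ C * (2 * ‖y‖ + 1) * ‖y - d j‖ :=
      mul_le_mul_of_nonneg_right h4 (norm_nonneg _)
    nlinarith [norm_nonneg (y - d j)]
  choose j hj using hj
  -- an element of `F` close to `g` at the points `d (j y)`
  have hopen : IsOpen {f : E → ℝ | ∀ y ∈ S, |f (d (j y)) - g (d (j y))| < η / 4} := by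
    have h1 : {f : E → ℝ | ∀ y ∈ S, |f (d (j y)) - g (d (j y))| < η / 4} =
        ⋂ y ∈ S, {f | |f (d (j y)) - g (d (j y))| < η / 4} := by
      ext; simp
    rw [h1]
    exact isOpen_biInter_finset fun y _ =>
      isOpen_lt ((continuous_apply _).sub continuous_const).abs continuous_const
  obtain ⟨f, hf, hfF⟩ := mem_closure_iff.1 hg _ hopen (fun y _ => by
    rw [sub_self, abs_zero]; positivity)
  -- an element of the sequence close to `f`
  have hopen2 : IsOpen {b : Set.range Φ | ∀ y ∈ S, |(b : ℕ → ℝ) (j y) - f (d (j y))| < η / 4} := by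
    have h1 : {b : Set.range Φ | ∀ y ∈ S, |(b : ℕ → ℝ) (j y) - f (d (j y))| < η / 4} =
        ⋂ y ∈ S, {b : Set.range Φ | |(b : ℕ → ℝ) (j y) - f (d (j y))| < η / 4} := by
      ext b
      simp only [mem_setOf_eq, mem_iInter]
    rw [h1]
    exact isOpen_biInter_finset fun y _ =>
      isOpen_lt (((continuous_apply _).comp continuous_subtype_val).sub continuous_const).abs
        continuous_const
  obtain ⟨k, hk⟩ := ha.exists_mem_open hopen2 ⟨⟨Φ ⟨f, hfF⟩, ⟨⟨f, hfF⟩, rfl⟩⟩, fun y _ => by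
    show |f (d (j y)) - f (d (j y))| < η / 4
    rw [sub_self, abs_zero]; positivity⟩
  refine ⟨k, fun y hy => ?_⟩
  have h1 := hk y hy
  rw [← hh k] at h1
  have h1' : |(h k : E → ℝ) (d (j y)) - f (d (j y))| < η / 4 := h1
  have h2 := hf y hy
  have h3 := ((hF _ (h k).2).2 y (d (j y))).trans_lt (hj y)
  have h4 := (hgq.2 y (d (j y))).trans_lt (hj y)
  rw [abs_lt] at h1' h2 h3 h4 ⊢
  constructor <;> linarith [h1'.1, h1'.2, h2.1, h2.2, h3.1, h3.2, h4.1, h4.2]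

theorem unif_dl {C : ℝ} {F : Set (E → ℝ)} (hF : ∀ f ∈ F, QuadBd C f)
    (hdl : DoubleLimit F) {Q : ℕ → E → ℝ} (hQ : ∀ k, Q k ∈ F)
    (happ : ∀ g ∈ closure F, ∀ S : Finset E, ∀ η : ℝ, 0 < η → ∃ k, ∀ y ∈ S, |Q k y - g y| < η)
    (hC : 0 ≤ C) {g : E → ℝ} (hg : g ∈ closure F) (r : ℝ) {ε : ℝ} (hε : 0 < ε) :
    ∃ m : ℕ, ∀ y y' : E, ‖y‖ ≤ r → ‖y'‖ ≤ r →
      (∀ k < m, |Q k y - Q k y'| ≤ 1 / ((m : ℝ) + 1)) → |g y - g y'| ≤ ε := by
  classical
  by_contra hcon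
  push Not at hcon
  choose y y' hy hy' hk hne using hcon
  have h1 : ∀ n : ℕ, ∃ k : ℕ, ∀ z ∈ (Finset.range (n + 1)).image y ∪
      (Finset.range (n + 1)).image y', |Q k z - g z| < 1 / ((n : ℝ) + 1) :=
    fun n => happ g hg _ _ (by positivity)
  choose κ hκ using h1
  have hlim : ∀ z : E, (∃ m, ∀ n, m ≤ n → z ∈ (Finset.range (n + 1)).image y ∪
      (Finset.range (n + 1)).image y') → Tendsto (fun n => Q (κ n) z) atTop (𝓝 (g z)) := by
    rintro z ⟨m, hm⟩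
    rw [tendsto_iff_dist_tendsto_zero]
    refine squeeze_zero' (Eventually.of_forall fun _ => dist_nonneg) ?_
      tendsto_one_div_add_atTop_nhds_zero_nat
    filter_upwards [eventually_ge_atTop m] with n hn
    rw [Real.dist_eq]
    exact (hκ n z (hm n hn)).le
  have hl : ∀ m, Tendsto (fun n => Q (κ n) (y m)) atTop (𝓝 (g (y m))) := fun m =>
    hlim _ ⟨m, fun n hn => Finset.mem_union_left _ (Finset.mem_image_of_mem _
      (Finset.mem_range.2 (by omega)))⟩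
  have hl' : ∀ m, Tendsto (fun n => Q (κ n) (y' m)) atTop (𝓝 (g (y' m))) := fun m =>
    hlim _ ⟨m, fun n hn => Finset.mem_union_right _ (Finset.mem_image_of_mem _
      (Finset.mem_range.2 (by omega)))⟩
  have hr : 0 ≤ r := (norm_nonneg _).trans (hy 0)
  have hb : ∀ f : E → ℝ, QuadBd C f → ∀ z : E, ‖z‖ ≤ r → |f z| ≤ C * r ^ 2 := by
    intro f hf z hz
    refine (hf.1 z).trans ?_
    gcongr
  have hgq := closure_quadBd hF hg
  let P : ℕ → ℕ → ℝ := fun m n => match n with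
    | 0 => g (y m)
    | 1 => g (y' m)
    | (n + 2) => Q n (y m)
  have hP : ∀ m n, |P m n| ≤ C * r ^ 2 := by
    intro m n
    match n with
    | 0 => exact hb g hgq _ (hy m)
    | 1 => exact hb g hgq _ (hy' m)
    | (n + 2) => exact hb _ (hF _ (hQ n)) _ (hy m)
  obtain ⟨φ, hφ, α, hα⟩ := subseq P (fun _ => C * r ^ 2) hP
  have hα0 : Tendsto (fun m => g (y (φ m))) atTop (𝓝 (α 0)) := hα 0
  have hα1 : Tendsto (fun m => g (y' (φ m))) atTop (𝓝 (α 1)) := hα 1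
  have hα2 : ∀ n, Tendsto (fun m => Q n (y (φ m))) atTop (𝓝 (α (n + 2))) := fun n => hα (n + 2)
  have hα3 : ∀ n, Tendsto (fun m => Q n (y' (φ m))) atTop (𝓝 (α (n + 2))) := by
    intro n
    have h2 : Tendsto (fun m => Q n (y (φ m)) - Q n (y' (φ m))) atTop (𝓝 0) := by
      refine squeeze_zero_norm' (a := fun m : ℕ => 1 / ((m : ℝ) + 1)) ?_
        tendsto_one_div_add_atTop_nhds_zero_nat
      filter_upwards [eventually_gt_atTop n] with m hm
      have h3 : m ≤ φ m := hφ.id_le m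
      rw [Real.norm_eq_abs]
      refine (hk (φ m) n (by omega)).trans ?_
      have : (m : ℝ) ≤ φ m := by exact_mod_cast h3
      gcongr
    have h3 := (hα2 n).sub h2
    rw [sub_zero] at h3
    refine h3.congr fun m => ?_
    ring
  have hαb : ∀ n, |α (n + 2)| ≤ C * r ^ 2 := by
    intro n
    exact le_of_tendsto' (hα2 n).abs fun m => hP (φ m) (n + 2)
  obtain ⟨ψ, hψ, β, hβ⟩ := subseq (fun m _ => α (κ m + 2)) (fun _ => C * r ^ 2)
    (fun m _ => hαb (κ m))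
  have hβ0 : Tendsto (fun n => α (κ (ψ n) + 2)) atTop (𝓝 (β 0)) := hβ 0
  have e1 : β 0 = α 0 := hdl (fun n => Q (κ (ψ n))) (fun m => y (φ m)) r (fun n => hQ _)
    (fun m => hy _) (fun n => α (κ (ψ n) + 2)) (fun m => g (y (φ m))) _ _
    (fun n => hα2 _) (fun m => (hl (φ m)).comp hψ.tendsto_atTop) hβ0 hα0
  have e2 : β 0 = α 1 := hdl (fun n => Q (κ (ψ n))) (fun m => y' (φ m)) r (fun n => hQ _)
    (fun m => hy' _) (fun n => α (κ (ψ n) + 2)) (fun m => g (y' (φ m))) _ _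
    (fun n => hα3 _) (fun m => (hl' (φ m)).comp hψ.tendsto_atTop) hβ0 hα1
  have e3 : α 0 = α 1 := e1.symm.trans e2
  have h5 : Tendsto (fun m => |g (y (φ m)) - g (y' (φ m))|) atTop (𝓝 0) := by
    have h6 := (hα0.sub hα1).abs
    rwa [e3, sub_self, abs_zero] at h6
  have h7 : ε ≤ 0 := ge_of_tendsto' h5 fun m => (hne (φ m)).le
  linarith

/-- **The double limit property implies separability of the closure.** -/
theorem sepClosure_of_dl [TopologicalSpace.SeparableSpace E] {C : ℝ} (hC : 0 ≤ C)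
    {F : Set (E → ℝ)} (hF : ∀ f ∈ F, QuadBd C f) (hne : F.Nonempty) (hdl : DoubleLimit F) :
    SeparableClosure F := by
  classical
  intro r
  obtain ⟨Q, hQ, happ⟩ := exists_seq hC hF hne
  let cell : (m : ℕ) → E → Fin m → ℤ := fun m y k => ⌊((m : ℝ) + 1) * Q k y⌋
  let D' : (Σ m : ℕ, ((Fin m → ℤ) →₀ ℚ)) → E → ℝ := fun i y => ((i.2 (cell i.1 y) : ℚ) : ℝ)
  have : Nonempty (Σ m : ℕ, ((Fin m → ℤ) →₀ ℚ)) := ⟨⟨0, 0⟩⟩
  obtain ⟨e, he⟩ := exists_surjective_nat (Σ m : ℕ, ((Fin m → ℤ) →₀ ℚ))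
  refine ⟨fun k => D' (e k), fun g hg δ hδ => ?_⟩
  obtain ⟨m, hm⟩ := unif_dl hF hdl hQ happ hC hg r (show 0 < δ / 2 by positivity)
  have hcell : ∀ y y' : E, ‖y‖ ≤ r → ‖y'‖ ≤ r → cell m y = cell m y' → |g y - g y'| ≤ δ / 2 := by
    intro y y' hy hy' h
    refine hm y y' hy hy' fun k hk => ?_
    have h1 : ⌊((m : ℝ) + 1) * Q k y⌋ = ⌊((m : ℝ) + 1) * Q k y'⌋ :=
      congrFun h ⟨k, hk⟩
    have h2 := Int.abs_sub_lt_one_of_floor_eq_floor h1
    rw [← mul_sub, abs_mul, abs_of_pos (show (0 : ℝ) < (m : ℝ) + 1 by positivity)] at h2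
    rw [le_div_iff₀ (by positivity)]
    linarith
  have hfin : (cell m '' {y | ‖y‖ ≤ r}).Finite := by
    refine (Set.Finite.pi (t := fun k : Fin m =>
      Icc ⌊-(((m : ℝ) + 1) * (C * r ^ 2))⌋ ⌊((m : ℝ) + 1) * (C * r ^ 2)⌋)
      fun k => finite_Icc _ _).subset ?_
    rintro _ ⟨y, hy, rfl⟩ k -
    have hy' : ‖y‖ ≤ r := hy
    have h1 : |Q k y| ≤ C * r ^ 2 := by
      refine ((hF _ (hQ k)).1 y).trans ?_
      gcongr
    have h2 := abs_le.1 h1
    have h3 : (0 : ℝ) ≤ (m : ℝ) + 1 := by positivity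
    exact ⟨Int.floor_le_floor (by nlinarith [h2.1]), Int.floor_le_floor (by nlinarith [h2.2])⟩
  have hv : ∀ c : Fin m → ℤ, ∃ v : ℚ, (∀ y, ‖y‖ ≤ r → cell m y = c → |g y - v| ≤ δ) ∧
      (c ∉ cell m '' {y | ‖y‖ ≤ r} → v = 0) := by
    intro c
    by_cases hc : c ∈ cell m '' {y | ‖y‖ ≤ r}
    · obtain ⟨y₀, hy₀, rfl⟩ := hc
      obtain ⟨v, hv1, hv2⟩ := exists_rat_btwn (show g y₀ - δ / 2 < g y₀ + δ / 2 by linarith)
      refine ⟨v, fun y hy h => ?_, fun h => absurd ⟨y₀, hy₀, rfl⟩ h⟩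
      have h1 := abs_le.1 (hcell y y₀ hy hy₀ h)
      rw [abs_le]
      constructor <;> linarith [h1.1, h1.2]
    · refine ⟨0, fun y hy h => absurd ⟨y, hy, h⟩ hc, fun _ => rfl⟩
  choose v hv1 hv2 using hv
  let q : (Fin m → ℤ) →₀ ℚ := Finsupp.onFinset hfin.toFinset v fun c hc => by
    rw [Set.Finite.mem_toFinset]
    by_contra h
    exact hc (hv2 c h)
  obtain ⟨k, hk⟩ := he ⟨m, q⟩
  refine ⟨k, fun y hy => ?_⟩
  show |g y - D' (e k) y| ≤ δ
  rw [hk]
  exact hv1 _ y hy rfl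

end Run7.h421.BM
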