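import Pool.Agent.Run7.h421.BMo

/-!
An equivalent inner product whose orbit has a separable pointwise closure can be averaged
(Ryll-Nardzewski), so a norm which is almost transitive is Hilbertian.
-/

set_option autoImplicit false

open Set Topology Filter

namespace Run7.h421.BM

variable {E : Type} [NormedAddCommGroup E] [NormedSpace ℝ E]

/-- The quadratic forms `y ↦ b (T y) (T y)`, for the isometries `T` in `G`. -/
def formOrbit {E : Type} [NormedAddCommGroup E] [NormedSpace ℝ E] (G : Subgroup (E ≃ₗᵢ[ℝ] E))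
    (b : E →L[ℝ] E →L[ℝ] ℝ) : Set (E → ℝ) :=
  {f | ∃ T ∈ G, f = fun y => b (T y) (T y)}

/-- quadratic functions which are bounded below -/
def PosQuad (C c : ℝ) (f : E → ℝ) : Prop :=
  QuadBd C f ∧ (∀ y, c * ‖y‖ ^ 2 ≤ f y) ∧ (∀ (s : ℝ) y, f (s • y) = s ^ 2 * f y) ∧
    ∀ u v, f (u + v) + f (u - v) = 2 * f u + 2 * f v

theorem isClosed_posQuad (C c : ℝ) : IsClosed {f : E → ℝ | PosQuad C c f} := by
  have e : {f : E → ℝ | PosQuad C c f} = {f : E → ℝ | QuadBd C f} ∩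
      ((⋂ y, {f : E → ℝ | c * ‖y‖ ^ 2 ≤ f y}) ∩
      ((⋂ (s : ℝ), ⋂ y, {f : E → ℝ | f (s • y) = s ^ 2 * f y}) ∩
      ⋂ u, ⋂ v, {f : E → ℝ | f (u + v) + f (u - v) = 2 * f u + 2 * f v})) := by
    ext f
    simp [PosQuad]
  rw [e]
  refine (isClosed_quadBd C).inter ((isClosed_iInter fun y => ?_).inter
    ((isClosed_iInter fun s => isClosed_iInter fun y => ?_).inter
      (isClosed_iInter fun u => isClosed_iInter fun v => ?_)))
  · exact isClosed_le continuous_const (continuous_apply y)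
  · exact isClosed_eq (continuous_apply _) ((continuous_apply y).const_mul _)
  · exact isClosed_eq ((continuous_apply (u + v)).add (continuous_apply (u - v)))
      (((continuous_apply u).const_mul _).add ((continuous_apply v).const_mul _))

theorem convex_posQuad (C c : ℝ) : Convex ℝ {f : E → ℝ | PosQuad C c f} := by
  intro f hf g hg s t hs ht hst
  refine ⟨convex_quadBd C hf.1 hg.1 hs ht hst, fun y => ?_, fun r y => ?_, fun u v => ?_⟩
  · show c * ‖y‖ ^ 2 ≤ s * f y + t * g y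
    have h1 := hf.2.1 y
    have h2 := hg.2.1 y
    have e : c * ‖y‖ ^ 2 = s * (c * ‖y‖ ^ 2) + t * (c * ‖y‖ ^ 2) := by
      rw [← add_mul, hst, one_mul]
    rw [e]
    nlinarith
  · show s * f (r • y) + t * g (r • y) = r ^ 2 * (s * f y + t * g y)
    rw [hf.2.2.1, hg.2.2.1]
    ring
  · show (s * f (u + v) + t * g (u + v)) + (s * f (u - v) + t * g (u - v)) =
      2 * (s * f u + t * g u) + 2 * (s * f v + t * g v)
    linear_combination s * hf.2.2.2 u v + t * hg.2.2.2 u v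

theorem posQuad_form {b : E →L[ℝ] E →L[ℝ] ℝ} {c : ℝ} (hb : ∀ x, c * ‖x‖ ^ 2 ≤ b x x)
    (T : E ≃ₗᵢ[ℝ] E) : PosQuad ‖b‖ c (fun y => b (T y) (T y)) := by
  refine ⟨⟨fun y => ?_, fun y y' => ?_⟩, fun y => ?_, fun s y => ?_, fun u v => ?_⟩
  · have h := b.le_opNorm₂ (T y) (T y)
    rw [T.norm_map, Real.norm_eq_abs] at h
    calc |b (T y) (T y)| ≤ ‖b‖ * ‖y‖ * ‖y‖ := h
      _ = ‖b‖ * ‖y‖ ^ 2 := by ring
  · have e : b (T y) (T y) - b (T y') (T y') =
        b (T (y - y')) (T y) + b (T y') (T (y - y')) := by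
      simp only [map_sub, _root_.sub_apply]
      ring
    have h1 := b.le_opNorm₂ (T (y - y')) (T y)
    have h2 := b.le_opNorm₂ (T y') (T (y - y'))
    rw [T.norm_map, T.norm_map, Real.norm_eq_abs] at h1 h2
    show |b (T y) (T y) - b (T y') (T y')| ≤ _
    rw [e]
    have h3 := abs_add_le (b (T (y - y')) (T y)) (b (T y') (T (y - y')))
    nlinarith
  · show c * ‖y‖ ^ 2 ≤ b (T y) (T y)
    have := hb (T y)
    rwa [T.norm_map] at this
  · show b (T (s • y)) (T (s • y)) = s ^ 2 * b (T y) (T y)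
    simp only [map_smul, _root_.smul_apply, smul_eq_mul]
    ring
  · show b (T (u + v)) (T (u + v)) + b (T (u - v)) (T (u - v)) =
      2 * b (T u) (T u) + 2 * b (T v) (T v)
    simp only [map_add, map_sub, _root_.add_apply, _root_.sub_apply]
    ring

/-- **Averaging an inner product** whose orbit has a separable pointwise closure. -/
theorem exists_inv_form (G : Subgroup (E ≃ₗᵢ[ℝ] E)) {b : E →L[ℝ] E →L[ℝ] ℝ} {c : ℝ}
    (hb : ∀ x, c * ‖x‖ ^ 2 ≤ b x x) (hS : SeparableClosure (formOrbit G b)) :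
    ∃ Ψ : E → ℝ, PosQuad ‖b‖ c Ψ ∧ ∀ T ∈ G, ∀ y, Ψ (T y) = Ψ y := by
  classical
  letI : MulAction G E :=
    { smul := fun T x => (T : E ≃ₗᵢ[ℝ] E) x
      one_smul := fun _ => rfl
      mul_smul := fun _ _ _ => rfl }
  obtain ⟨K, hK⟩ : ∃ K : Set (E → ℝ), K = closure (formOrbit G b) := ⟨_, rfl⟩
  have hKc : IsClosed K := by rw [hK]; exact isClosed_closure
  have hKq : ∀ f ∈ K, PosQuad ‖b‖ c f := by
    rw [hK]
    refine closure_minimal ?_ (isClosed_posQuad _ _)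
    rintro _ ⟨T, -, rfl⟩
    exact posQuad_form hb T
  have hcomp : ∀ L : Set (E → ℝ), IsClosed L → (∀ f ∈ L, PosQuad ‖b‖ c f) → IsCompact L := by
    intro L hL hLq
    refine (isCompact_univ_pi fun y : E =>
      isCompact_Icc (a := -(‖b‖ * ‖y‖ ^ 2)) (b := ‖b‖ * ‖y‖ ^ 2)).of_isClosed_subset hL ?_
    intro f hf y _
    exact abs_le.1 ((hLq f hf).1.1 y)
  have hKcomp : IsCompact K := hcomp K hKc hKq
  have hKn : K.Nonempty := by
    rw [hK]
    exact ⟨_, subset_closure ⟨1, G.one_mem, rfl⟩⟩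
  have hKinv : ∀ T : G, MapsTo (act T) K K := by
    intro T
    rw [hK]
    refine MapsTo.closure ?_ (continuous_act T)
    rintro _ ⟨S, hS, rfl⟩
    exact ⟨S * (T : E ≃ₗᵢ[ℝ] E)⁻¹, G.mul_mem hS (G.inv_mem T.2), rfl⟩
  have hHq : ∀ f ∈ closure (convexHull ℝ K), PosQuad ‖b‖ c f :=
    closure_minimal (convexHull_min hKq (convex_posQuad _ _)) (isClosed_posQuad _ _)
  have hinv2 : ∀ T : G, MapsTo (act T) (convexHull ℝ K) (convexHull ℝ K) := by
    intro T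
    have hc : Convex ℝ (act T ⁻¹' (convexHull ℝ K)) := by
      intro a ha b hb s t hs ht hst
      have h2 : s • act T a + t • act T b ∈ convexHull ℝ K :=
        (convex_convexHull ℝ _) ha hb hs ht hst
      exact h2
    exact convexHull_min (fun f hf => subset_convexHull ℝ _ (hKinv T hf)) hc
  have hbdn : ∀ n : ℕ, ∀ f : E → ℝ, PosQuad ‖b‖ c f → ∀ y ∈ {y : E | ‖y‖ ≤ (n : ℝ)},
      |f y| ≤ ‖b‖ * (n : ℝ) ^ 2 := by
    intro n f hf y hy
    have hy' : ‖y‖ ≤ (n : ℝ) := hy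
    refine (hf.1.1 y).trans ?_
    gcongr
  obtain ⟨Ψ, hΨ, h⟩ := fixed_fun (G := G) (closure (convexHull ℝ K))
    (hKn.mono ((subset_convexHull ℝ _).trans subset_closure))
    (hcomp _ isClosed_closure hHq)
    (convex_convexHull ℝ _).closure
    (fun T f hf => (hinv2 T).closure (continuous_act T) hf)
    (fun n => {y | ‖y‖ ≤ (n : ℝ)})
    (fun n T y hy => by
      show ‖(T : E ≃ₗᵢ[ℝ] E) y‖ ≤ (n : ℝ)
      rw [(T : E ≃ₗᵢ[ℝ] E).norm_map]
      exact hy)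
    (fun y => exists_nat_ge ‖y‖)
    (fun n => ⟨‖b‖ * (n : ℝ) ^ 2, fun f hf y hy => hbdn n f (hHq f hf) y hy⟩)
    (fun n => by
      have h1 := hS n
      rw [← hK] at h1
      obtain ⟨D, hD⟩ := hull_sep K hKcomp {y | ‖y‖ ≤ (n : ℝ)}
        (‖b‖ * (n : ℝ) ^ 2) (by positivity)
        (fun f hf y hy => hbdn n f (hKq f hf) y hy) h1
      exact ⟨D, hD⟩)
  exact ⟨Ψ, hHq Ψ hΨ, fun T hT y => h ⟨T, hT⟩ y⟩

/-- an invariant quadratic function on an almost transitive space -/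
theorem par_of_form (G : Subgroup (E ≃ₗᵢ[ℝ] E))
    (hA : ∀ x y : E, ‖x‖ = 1 → ‖y‖ = 1 → ∀ ε : ℝ, 0 < ε → ∃ T ∈ G, ‖T x - y‖ < ε)
    (hne : ∃ x : E, ‖x‖ = 1) {C c : ℝ} (hC : 0 ≤ C) (hc : 0 < c) {Ψ : E → ℝ} (hΨ : PosQuad C c Ψ)
    (hinv : ∀ T ∈ G, ∀ y, Ψ (T y) = Ψ y) (u v : E) :
    ‖u + v‖ * ‖u + v‖ + ‖u - v‖ * ‖u - v‖ = 2 * (‖u‖ * ‖u‖ + ‖v‖ * ‖v‖) := by
  obtain ⟨x₀, hx₀⟩ := hne
  have h1 : ∀ y : E, ‖y‖ = 1 → Ψ y = Ψ x₀ := by
    intro y hy
    refine eq_of_abs_sub_eq_zero ?_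
    refine le_antisymm (le_of_forall_pos_le_add fun ε hε => ?_) (abs_nonneg _)
    obtain ⟨T, hT, hT2⟩ := hA x₀ y hx₀ hy (ε / (2 * C + 1)) (by positivity)
    have h2 := hΨ.1.2 (T x₀) y
    rw [hinv T hT, T.norm_map, hx₀, hy, abs_sub_comm] at h2
    rw [lt_div_iff₀ (by positivity)] at hT2
    nlinarith [norm_nonneg (T x₀ - y)]
  have h2 : ∀ y : E, Ψ y = Ψ x₀ * (‖y‖ * ‖y‖) := by
    intro y
    rcases eq_or_ne y 0 with rfl | hy
    · have := hΨ.2.2.1 0 (0 : E)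
      rw [zero_smul] at this
      rw [this, norm_zero]
      ring
    · have hy0 : 0 < ‖y‖ := norm_pos_iff.2 hy
      have e : y = ‖y‖ • (‖y‖⁻¹ • y) := by
        rw [smul_smul, mul_inv_cancel₀ hy0.ne', one_smul]
      have e2 : Ψ y = ‖y‖ ^ 2 * Ψ (‖y‖⁻¹ • y) := by
        conv_lhs => rw [e]
        exact hΨ.2.2.1 _ _
      rw [e2, h1 _ (by rw [norm_smul, norm_inv, norm_norm, inv_mul_cancel₀ hy0.ne'])]
      ring
  have h3 : 0 < Ψ x₀ := by
    have := hΨ.2.1 x₀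
    rw [hx₀] at this
    linarith
  have h4 := hΨ.2.2.2 u v
  rw [h2 (u + v), h2 (u - v), h2 u, h2 v] at h4
  have h5 : Ψ x₀ * (‖u + v‖ * ‖u + v‖ + ‖u - v‖ * ‖u - v‖) =
      Ψ x₀ * (2 * (‖u‖ * ‖u‖ + ‖v‖ * ‖v‖)) := by linear_combination h4
  exact mul_left_cancel₀ h3.ne' h5

/-- **Almost transitive groups and inner products with a separable orbit closure.** -/
theorem hilbert_of_form [CompleteSpace E] (G : Subgroup (E ≃ₗᵢ[ℝ] E))
    (hA : ∀ x y : E, ‖x‖ = 1 → ‖y‖ = 1 → ∀ ε : ℝ, 0 < ε → ∃ T ∈ G, ‖T x - y‖ < ε)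
    (hne : ∃ x : E, ‖x‖ = 1) {b : E →L[ℝ] E →L[ℝ] ℝ} {c : ℝ} (hc : 0 < c)
    (hb : ∀ x, c * ‖x‖ ^ 2 ≤ b x x) (hS : SeparableClosure (formOrbit G b)) : IsHilbert E := by
  obtain ⟨Ψ, hΨ, hinv⟩ := exists_inv_form G hb hS
  exact hilbert_of_par (par_of_form G hA hne (norm_nonneg b) hc hΨ hinv)

end Run7.h421.BM
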