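import Pool.Agent.Run7.h421.BMp

/-!
The second derivatives of a transitive norm as the orbit of an inner product.
-/

set_option autoImplicit false

open Set Topology Filter Pool.Agent.Y278.Rot
open scoped InnerProductSpace

namespace Run7.h421.BM

variable {E : Type} [NormedAddCommGroup E] [NormedSpace ℝ E]

/-- The second derivatives of the square of the norm at the unit vectors: the functions `q` such that
for some unit vector `x` and every `w` the second difference quotient at `x` in the direction `w` tends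
to `q w` (each direction separately). -/
def secondDerivs (E : Type) [NormedAddCommGroup E] [NormedSpace ℝ E] : Set (E → ℝ) :=
  {q | ∃ x : E, ‖x‖ = 1 ∧ ∀ w : E,
    Tendsto (fun t : ℝ => (‖x + t • w‖ ^ 2 + ‖x - t • w‖ ^ 2 - 2) / t ^ 2) (𝓝[≠] 0) (𝓝 (q w))}

theorem lim_of_hess {x : E} (hx : ‖x‖ = 1) {f : StrongDual ℝ E} {A : E →L[ℝ] E →L[ℝ] ℝ} {K : ℝ}
    (h : HessAt x f A K) (w : E) :
    Tendsto (fun t : ℝ => (‖x + t • w‖ ^ 2 + ‖x - t • w‖ ^ 2 - 2) / t ^ 2) (𝓝[≠] 0)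
      (𝓝 (2 * A w w)) := by
  refine ((h.lim w).const_mul 2).congr' ?_
  filter_upwards [self_mem_nhdsWithin] with t ht
  have ht : t ≠ 0 := ht
  unfold QS
  rw [hx]
  field_simp

/-- the second derivatives form one orbit -/
theorem secondDerivs_eq [CompleteSpace E] [TopologicalSpace.SeparableSpace E]
    (htr : ∀ x y : E, ‖x‖ = 1 → ‖y‖ = 1 → ∃ T : E ≃ₗᵢ[ℝ] E, T x = y) (hH : Hilbertian E)
    (hne : ∃ x : E, ‖x‖ = 1) : ∃ (b : E →L[ℝ] E →L[ℝ] ℝ) (c : ℝ), 0 < c ∧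
      (∀ x, c * ‖x‖ ^ 2 ≤ b x x) ∧ secondDerivs E = formOrbit ⊤ b := by
  obtain ⟨c, K, f, A, hc, h, hlow⟩ := exists_field htr hH
  obtain ⟨x₀, hx₀⟩ := hne
  refine ⟨(2 : ℝ) • A x₀, c, hc, fun x => ?_, ?_⟩
  · show c * ‖x‖ ^ 2 ≤ 2 * A x₀ x x
    have h1 := hlow x₀ hx₀ x
    have h2 : 0 ≤ c * ‖x‖ ^ 2 := by positivity
    linarith
  · ext q
    constructor
    · rintro ⟨x, hx, hq⟩
      obtain ⟨T, hT⟩ := htr x x₀ hx hx₀
      refine ⟨T, trivial, funext fun w => ?_⟩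
      have h1 := tendsto_nhds_unique (hq w) (lim_of_hess hx (h x hx) w)
      have h3 := hess_map (h x hx) T (h (T x) (by rw [T.norm_map]; exact hx)) w w
      rw [hT] at h3
      show q w = 2 * A x₀ (T w) (T w)
      rw [h1, h3]
    · rintro ⟨T, -, rfl⟩
      have hx : ‖T.symm x₀‖ = 1 := by rw [T.symm.norm_map, hx₀]
      refine ⟨T.symm x₀, hx, fun w => ?_⟩
      have h3 := hess_map (h _ hx) T (h (T (T.symm x₀)) (by rw [T.norm_map]; exact hx)) w w
      rw [T.apply_symm_apply] at h3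
      show Tendsto _ _ (𝓝 (2 * A x₀ (T w) (T w)))
      rw [h3]
      exact lim_of_hess hx (h _ hx) w

theorem quadBd_orbit {b : E →L[ℝ] E →L[ℝ] ℝ} {c : ℝ} (hb : ∀ x, c * ‖x‖ ^ 2 ≤ b x x)
    (G : Subgroup (E ≃ₗᵢ[ℝ] E)) : ∀ f ∈ formOrbit G b, QuadBd ‖b‖ f := by
  rintro _ ⟨T, -, rfl⟩
  exact (posQuad_form hb T).1

theorem orbit_nonempty (b : E →L[ℝ] E →L[ℝ] ℝ) (G : Subgroup (E ≃ₗᵢ[ℝ] E)) :
    (formOrbit G b).Nonempty := ⟨_, 1, G.one_mem, rfl⟩

/-- a family with one element has the double limit property -/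
theorem dl_of_single {F : Set (E → ℝ)} {q : E → ℝ} (hF : ∀ f ∈ F, f = q) : DoubleLimit F := by
  intro f y C hf hy α β a b h1 h2 h3 h4
  have e : ∀ n, f n = q := fun n => hF _ (hf n)
  have h5 : ∀ m, β m = q (y m) := fun m => by
    refine tendsto_nhds_unique (h2 m) ?_
    simp only [e]
    exact tendsto_const_nhds
  have h6 : Tendsto (fun m => q (y m)) atTop (𝓝 b) := h4.congr h5
  have h7 : ∀ n, α n = b := fun n => by
    refine tendsto_nhds_unique (h1 n) ?_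
    rw [e]
    exact h6
  exact tendsto_nhds_unique h3 (tendsto_const_nhds.congr fun n => (h7 n).symm)

/-- the inner product of a Hilbert space -/
theorem form_of_hilbert (hE : IsHilbert E) : ∃ b : E →L[ℝ] E →L[ℝ] ℝ, ∀ x, b x x = ‖x‖ ^ 2 := by
  obtain ⟨H, _, _, _, ⟨Φ⟩⟩ := hE
  refine ⟨(innerSL ℝ (E := H)).bilinearComp (Φ.toContinuousLinearEquiv : E →L[ℝ] H)
    (Φ.toContinuousLinearEquiv : E →L[ℝ] H), fun x => ?_⟩
  show ⟪Φ x, Φ x⟫_ℝ = ‖x‖ ^ 2
  rw [real_inner_self_eq_norm_sq, Φ.norm_map]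

theorem secondDerivs_of_hilbert (hE : IsHilbert E) : ∀ q ∈ secondDerivs E,
    q = fun w => 2 * ‖w‖ ^ 2 := by
  obtain ⟨H, _, _, _, ⟨Φ⟩⟩ := hE
  rintro q ⟨x, hx, hq⟩
  funext w
  refine tendsto_nhds_unique (hq w) ?_
  refine tendsto_const_nhds.congr' ?_
  filter_upwards [self_mem_nhdsWithin] with t ht
  have ht : t ≠ 0 := ht
  have e1 : ‖x + t • w‖ ^ 2 + ‖x - t • w‖ ^ 2 = 2 * (‖x‖ ^ 2 + ‖t • w‖ ^ 2) := by
    have := parallelogram_law_with_norm ℝ (Φ x) (Φ (t • w))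
    rw [← map_add, ← map_sub, Φ.norm_map, Φ.norm_map, Φ.norm_map, Φ.norm_map] at this
    linear_combination this
  rw [e1, hx, norm_smul, mul_pow, Real.norm_eq_abs, sq_abs]
  field_simp
  ring

theorem hilbertian_of_hilbert (hE : IsHilbert E) : Hilbertian E := by
  obtain ⟨H, i1, i2, i3, ⟨Φ⟩⟩ := hE
  exact ⟨H, i1, i2, i3, ⟨Φ.toContinuousLinearEquiv⟩⟩

end Run7.h421.BM
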