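import Pool.Agent.Run7.h421.Reg

/-!
# Spaces of functions which are moved little by a neighbourhood of the identity are
finite-dimensional
-/

set_option autoImplicit false
set_option linter.unusedSectionVars false

namespace Run7.h421

open MeasureTheory InnerProductSpace Topology Set
open scoped ComplexConjugate

noncomputable section

variable {G : Type*} [TopologicalSpace G] [Group G] [IsTopologicalGroup G] [CompactSpace G]
  [MeasurableSpace G] [BorelSpace G] (μ : Measure G) [μ.IsHaarMeasure]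

lemma map_eq_of_left {F : G → G} (hF : Continuous F) (h : (μ.map F).IsMulLeftInvariant) :
    μ.map F = μ := by
  have h0 : (μ.map F) univ = μ univ := by
    rw [Measure.map_apply hF.measurable MeasurableSet.univ, preimage_univ]
  haveI : IsFiniteMeasure (μ.map F) := ⟨by rw [h0]; exact measure_lt_top μ univ⟩
  have h2 := Measure.isMulInvariant_eq_smul_of_compactSpace (μ.map F) μ
  rw [h2] at h0
  have h3 : (Measure.haarScalarFactor (μ.map F) μ : ENNReal) * μ univ = μ univ := h0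
  have h4 : (Measure.haarScalarFactor (μ.map F) μ : ENNReal) = 1 := by
    have h5 : μ univ ≠ 0 := by
      have := (isOpen_univ (X := G)).measure_pos μ ⟨1, trivial⟩
      exact this.ne'
    have h6 : μ univ ≠ ⊤ := (measure_lt_top μ univ).ne
    have h7 : (Measure.haarScalarFactor (μ.map F) μ : ENNReal) * μ univ = 1 * μ univ := by
      rw [one_mul]; exact h3
    exact (ENNReal.mul_left_inj h5 h6).1 h7
  rw [h2]
  have h8 : Measure.haarScalarFactor (μ.map F) μ = 1 := by exact_mod_cast h4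
  rw [h8, one_smul]

lemma right_inv : μ.IsMulRightInvariant := by
  constructor
  intro g
  refine map_eq_of_left μ (by fun_prop) ⟨fun a => ?_⟩
  rw [Measure.map_map (by fun_prop) (by fun_prop)]
  have : (fun x : G => a * x) ∘ (fun x => x * g) = (fun x => x * g) ∘ (fun x => a * x) := by
    funext x; simp [mul_assoc]
  rw [this, ← Measure.map_map (by fun_prop) (by fun_prop), map_mul_left_eq_self]

lemma inv_inv' : μ.IsInvInvariant := by
  haveI := right_inv μ
  constructor
  refine map_eq_of_left μ (by fun_prop) ⟨fun a => ?_⟩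
  rw [Measure.map_map (by fun_prop) (by fun_prop)]
  have : (fun x : G => a * x) ∘ (fun x => x⁻¹) = (fun x => x⁻¹) ∘ (fun x => x * a⁻¹) := by
    funext x; simp
  rw [this, ← Measure.map_map (by fun_prop) (by fun_prop), map_mul_right_eq_self]

lemma integral_inv_mul {F : Type*} [NormedAddCommGroup F] [NormedSpace ℝ F] (f : G → F) (x : G) :
    ∫ g, f (g⁻¹ * x) ∂μ = ∫ g, f g ∂μ := by
  haveI := right_inv μ
  haveI := inv_inv' μ
  rw [integral_inv_eq_self (fun g => f (g * x)) μ, integral_mul_right_eq_self f x]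

/-- The convolution kernel. -/
def kl (k : C(G, ℝ)) : C(G, Lp ℂ 2 μ) :=
  ⟨fun x => ContinuousMap.toLp 2 μ ℂ
    ((⟨fun q => ((k (q.1 * q.2⁻¹) : ℝ) : ℂ), by fun_prop⟩ : C(G × G, ℂ)).curry x), by fun_prop⟩

/-- The convolution operator with values in the continuous functions. -/
def Bop (k : C(G, ℝ)) : Lp ℂ 2 μ →L[ℂ] C(G, ℂ) :=
  LinearMap.mkContinuous
    { toFun := fun f => ⟨fun x => inner ℂ (kl μ k x) f, by fun_prop⟩
      map_add' := fun f g => by ext x; exact inner_add_right (𝕜 := ℂ) (kl μ k x) f g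
      map_smul' := fun c f => by ext x; exact inner_smul_right (𝕜 := ℂ) (kl μ k x) f c }
    ‖kl μ k‖ (by
    intro f
    rw [ContinuousMap.norm_le _ (by positivity)]
    intro x
    refine (norm_inner_le_norm (𝕜 := ℂ) (kl μ k x) f).trans ?_
    exact mul_le_mul_of_nonneg_right (ContinuousMap.norm_coe_le_norm (kl μ k) x) (norm_nonneg f))

lemma Bop_apply (k : C(G, ℝ)) (f : Lp ℂ 2 μ) (x : G) :
    Bop μ k f x = inner ℂ (kl μ k x) f := rfl

lemma Bop_toLp (k : C(G, ℝ)) (φ : C(G, ℂ)) (x : G) :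
    Bop μ k (ContinuousMap.toLp 2 μ ℂ φ) x = ∫ y, φ y * (k (x * y⁻¹) : ℂ) ∂μ := by
  rw [Bop_apply]
  refine (ContinuousMap.inner_toLp μ _ _).trans ?_
  refine integral_congr_ae (Filter.Eventually.of_forall fun y => ?_)
  show φ y * conj ((k (x * y⁻¹) : ℝ) : ℂ) = _
  rw [Complex.conj_ofReal]

/-- Left translation of continuous functions. -/
def Ltc (g : G) (φ : C(G, ℂ)) : C(G, ℂ) := φ.comp ⟨fun x => g⁻¹ * x, by fun_prop⟩

lemma Ltc_cont (φ : C(G, ℂ)) : Continuous (fun g : G => Ltc g φ) := by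
  have h : Continuous (fun g : G =>
      (ContinuousMap.curry (⟨fun q : G × G => φ (q.1⁻¹ * q.2), by fun_prop⟩ : C(G × G, ℂ))) g) :=
    ContinuousMap.continuous _
  exact h

lemma lreg_toLp (g : G) (φ : C(G, ℂ)) :
    lreg μ g (ContinuousMap.toLp 2 μ ℂ φ) = ContinuousMap.toLp 2 μ ℂ (Ltc g φ) := by
  apply Lp.ext
  refine (lreg_coe μ g _).trans ?_
  have h1 := (mpl μ g).quasiMeasurePreserving.ae_eq_comp
    (ContinuousMap.coeFn_toLp (p := 2) (𝕜 := ℂ) μ φ)
  refine Filter.EventuallyEq.trans h1 ?_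
  exact (ContinuousMap.coeFn_toLp (p := 2) (𝕜 := ℂ) μ (Ltc g φ)).symm

variable [T2Space G]

lemma conv_integrable (k : C(G, ℝ)) (f : Lp ℂ 2 μ) :
    Integrable (fun g => (k g : ℂ) • lreg μ g f) μ := by
  refine integrable_cont μ ?_
  exact (Complex.continuous_ofReal.comp k.continuous).smul (lreg_cont μ f)

lemma Bop_eq (k : C(G, ℝ)) (f : Lp ℂ 2 μ) :
    ContinuousMap.toLp 2 μ ℂ (Bop μ k f) = ∫ g, (k g : ℂ) • lreg μ g f ∂μ := by
  have hd := ContinuousMap.toLp_denseRange ℂ μ ℂ (p := 2) (by norm_num)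
  refine hd.induction_on (p := fun f => ContinuousMap.toLp 2 μ ℂ (Bop μ k f) =
    ∫ g, (k g : ℂ) • lreg μ g f ∂μ) f ?_ ?_
  · refine isClosed_eq (by fun_prop) ?_
    have hL : LipschitzWith (Real.toNNReal (∫ g, |k g| ∂μ))
        (fun f : Lp ℂ 2 μ => ∫ g, (k g : ℂ) • lreg μ g f ∂μ) := by
      refine LipschitzWith.of_dist_le_mul fun f f' => ?_
      rw [dist_eq_norm, dist_eq_norm, Real.coe_toNNReal _ (integral_nonneg fun _ => abs_nonneg _)]
      rw [← integral_sub (conv_integrable μ k f) (conv_integrable μ k f')]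
      refine (norm_integral_le_integral_norm _).trans ?_
      rw [← integral_mul_const]
      refine le_of_eq (integral_congr_ae (Filter.Eventually.of_forall fun g => ?_))
      show ‖(k g : ℂ) • lreg μ g f - (k g : ℂ) • lreg μ g f'‖ = |k g| * ‖f - f'‖
      rw [← smul_sub, norm_smul, ← map_sub, LinearIsometryEquiv.norm_map]
      simp
    exact hL.continuous
  · intro φ
    have h1 : ∀ g, (k g : ℂ) • lreg μ g (ContinuousMap.toLp 2 μ ℂ φ) =
        ContinuousMap.toLp 2 μ ℂ ((k g : ℂ) • Ltc g φ) := by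
      intro g
      rw [lreg_toLp, map_smul]
    simp_rw [h1]
    have hint : Integrable (fun g => (k g : ℂ) • Ltc g φ) μ := by
      refine integrable_cont μ ?_
      exact (Complex.continuous_ofReal.comp k.continuous).smul (Ltc_cont φ)
    rw [ContinuousLinearMap.integral_comp_comm (ContinuousMap.toLp 2 μ ℂ) hint]
    congr 1
    ext x
    rw [Bop_toLp]
    have h2 := (ContinuousMap.evalCLM ℂ x : C(G, ℂ) →L[ℂ] ℂ).integral_comp_comm hint
    have h3 : (∫ g, (k g : ℂ) • Ltc g φ ∂μ) x = ∫ g, (k g : ℂ) * φ (g⁻¹ * x) ∂μ := h2.symm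
    rw [h3, ← integral_inv_mul μ (fun y => φ y * (k (x * y⁻¹) : ℂ)) x]
    refine integral_congr_ae (Filter.Eventually.of_forall fun g => ?_)
    show φ (g⁻¹ * x) * (k (x * (g⁻¹ * x)⁻¹) : ℂ) = (k g : ℂ) * φ (g⁻¹ * x)
    rw [mul_inv_rev, inv_inv, mul_inv_cancel_left, mul_comm]

lemma norm_toLp_sq (φ : C(G, ℂ)) : ‖ContinuousMap.toLp 2 μ ℂ φ‖ ^ 2 = ∫ x, ‖φ x‖ ^ 2 ∂μ := by
  have h1 := ContinuousMap.inner_toLp (𝕜 := ℂ) μ φ φ
  rw [inner_self_eq_norm_sq_to_K] at h1
  have h2 : ∀ x, φ x * conj (φ x) = ((‖φ x‖ ^ 2 : ℝ) : ℂ) := by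
    intro x
    rw [RCLike.mul_conj]
    norm_cast
  simp_rw [h2] at h1
  rw [integral_complex_ofReal] at h1
  have h3 : ((‖ContinuousMap.toLp 2 μ ℂ φ‖ ^ 2 : ℝ) : ℂ) =
      ((∫ x, ‖φ x‖ ^ 2 ∂μ : ℝ) : ℂ) := by
    rw [← h1]
    push_cast
    rfl
  exact Complex.ofReal_injective h3

/-- The dimension bound. -/
theorem card_le_of_near {c : ℝ} (hc : c < 1) {O : Set G} (hO : IsOpen O) (h1O : (1 : G) ∈ O) :
    ∃ N : ℕ, ∀ (m : ℕ) (e : Fin m → Lp ℂ 2 μ), Orthonormal ℂ e →
      (∀ i, ∀ g ∈ O, ‖lreg μ g (e i) - e i‖ ≤ c * ‖e i‖) → m ≤ N := by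
  obtain ⟨k0, hk0, hk1, hk01⟩ := exists_continuous_zero_one_of_isClosed
    (hO.isClosed_compl) (isClosed_singleton (x := (1 : G)))
    (by rw [Set.disjoint_singleton_right]; exact fun h => h h1O)
  have hpos : 0 < ∫ g, k0 g ∂μ := by
    refine k0.continuous.integral_pos_of_hasCompactSupport_nonneg_nonzero
      (HasCompactSupport.of_compactSpace _) (fun g => (hk01 g).1) (x := 1) ?_
    rw [hk1 rfl]
    exact one_ne_zero
  set I := ∫ g, k0 g ∂μ with hI
  let k : C(G, ℝ) := ⟨fun g => I⁻¹ * k0 g, by fun_prop⟩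
  have hk : ∀ g, k g = I⁻¹ * k0 g := fun _ => rfl
  have hknn : ∀ g, 0 ≤ k g := fun g => mul_nonneg (inv_nonneg.2 hpos.le) (hk01 g).1
  have hkint : ∫ g, k g ∂μ = 1 := by
    simp_rw [hk]
    rw [integral_const_mul, ← hI, inv_mul_cancel₀ hpos.ne']
  have hkO : ∀ g ∉ O, k g = 0 := by
    intro g hg
    rw [hk, hk0 hg]
    simp
  have hki : Integrable (fun g => k g) μ := integrable_cont μ k.continuous
  have hlow : ∀ f : Lp ℂ 2 μ, (∀ g ∈ O, ‖lreg μ g f - f‖ ≤ c * ‖f‖) →
      (1 - c) * ‖f‖ ≤ ‖ContinuousMap.toLp 2 μ ℂ (Bop μ k f)‖ := by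
    intro f hf
    have h1 : f = ∫ g, (k g : ℂ) • f ∂μ := by
      rw [integral_smul_const, integral_complex_ofReal, hkint]
      simp
    have h2 : ‖ContinuousMap.toLp 2 μ ℂ (Bop μ k f) - f‖ ≤ c * ‖f‖ := by
      conv_lhs => rw [Bop_eq]
      conv_lhs => enter [1, 2]; rw [h1]
      have hi2 : Integrable (fun g => (k g : ℂ) • f) μ := by
        refine integrable_cont μ ?_
        exact (Complex.continuous_ofReal.comp k.continuous).smul continuous_const
      rw [← integral_sub (conv_integrable μ k f) hi2]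
      refine (norm_integral_le_integral_norm _).trans ?_
      have h3 : c * ‖f‖ = ∫ g, k g * (c * ‖f‖) ∂μ := by
        rw [integral_mul_const, hkint, one_mul]
      rw [h3]
      refine integral_mono_of_nonneg (Filter.Eventually.of_forall fun g => norm_nonneg _)
        (hki.mul_const _) (Filter.Eventually.of_forall fun g => ?_)
      show ‖(k g : ℂ) • lreg μ g f - (k g : ℂ) • f‖ ≤ k g * (c * ‖f‖)
      rw [← smul_sub, norm_smul]
      have h4 : ‖(k g : ℂ)‖ = k g := by
        rw [Complex.norm_real, Real.norm_of_nonneg (hknn g)]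
      rw [h4]
      by_cases hg : g ∈ O
      · exact mul_le_mul_of_nonneg_left (hf g hg) (hknn g)
      · rw [hkO g hg]; simp
    have h5 : ‖f‖ ≤ ‖ContinuousMap.toLp 2 μ ℂ (Bop μ k f)‖ +
        ‖ContinuousMap.toLp 2 μ ℂ (Bop μ k f) - f‖ := by
      have := norm_sub_norm_le f (ContinuousMap.toLp 2 μ ℂ (Bop μ k f))
      rw [norm_sub_rev] at this
      linarith
    linarith
  have hc1 : 0 < (1 - c) ^ 2 := by
    have : 0 < 1 - c := by linarith
    positivity
  obtain ⟨N, hN⟩ := exists_nat_gt (‖kl μ k‖ ^ 2 * μ.real univ / (1 - c) ^ 2)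
  refine ⟨N, fun m e he hnear => ?_⟩
  have h1 : ∀ x, ∑ i, ‖Bop μ k (e i) x‖ ^ 2 ≤ ‖kl μ k‖ ^ 2 := by
    intro x
    have h2 := he.sum_inner_products_le (kl μ k x) (s := Finset.univ)
    have h3 : ‖kl μ k x‖ ^ 2 ≤ ‖kl μ k‖ ^ 2 :=
      pow_le_pow_left₀ (norm_nonneg _) (ContinuousMap.norm_coe_le_norm (kl μ k) x) 2
    refine le_trans (le_of_eq ?_) (h2.trans h3)
    refine Finset.sum_congr rfl fun i _ => ?_
    rw [Bop_apply, ← inner_conj_symm, RCLike.norm_conj]
  have h4 : ∑ i, ‖ContinuousMap.toLp 2 μ ℂ (Bop μ k (e i))‖ ^ 2 ≤ ‖kl μ k‖ ^ 2 * μ.real univ := by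
    simp_rw [norm_toLp_sq]
    rw [← integral_finset_sum]
    · have h5 : ‖kl μ k‖ ^ 2 * μ.real univ = ∫ _x : G, ‖kl μ k‖ ^ 2 ∂μ := by
        rw [integral_const, smul_eq_mul, mul_comm]
      rw [h5]
      refine integral_mono_of_nonneg (Filter.Eventually.of_forall fun x =>
        Finset.sum_nonneg fun i _ => by positivity) (integrable_const _)
        (Filter.Eventually.of_forall h1)
    · intro i _
      exact integrable_cont μ ((Bop μ k (e i)).continuous.norm.pow 2)
  have h6 : ∑ i : Fin m, (1 - c) ^ 2 ≤ ∑ i, ‖ContinuousMap.toLp 2 μ ℂ (Bop μ k (e i))‖ ^ 2 := by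
    refine Finset.sum_le_sum fun i _ => ?_
    have h7 := hlow (e i) (hnear i)
    rw [he.1 i, mul_one] at h7
    exact pow_le_pow_left₀ (by linarith) h7 2
  rw [Finset.sum_const, Finset.card_univ, Fintype.card_fin, nsmul_eq_mul] at h6
  have h8 : (m : ℝ) ≤ ‖kl μ k‖ ^ 2 * μ.real univ / (1 - c) ^ 2 := by
    rw [le_div_iff₀ hc1]
    linarith
  exact_mod_cast (h8.trans hN.le)

/-- A space of functions which are moved little by a neighbourhood of the identity is
finite-dimensional. -/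
theorem fd_of_near {c : ℝ} (hc : c < 1) (V : Submodule ℂ (Lp ℂ 2 μ))
    (hV : ∀ᶠ g in 𝓝 (1 : G), ∀ f ∈ V, ‖lreg μ g f - f‖ ≤ c * ‖f‖) : FiniteDimensional ℂ V := by
  obtain ⟨O, hOV, hO, h1O⟩ := mem_nhds_iff.1 hV
  obtain ⟨N, hN⟩ := card_le_of_near μ hc hO h1O
  have hr : Module.rank ℂ V ≤ N := by
    refine rank_le fun s hs => ?_
    set W : Submodule ℂ V := Submodule.span ℂ (s : Set V) with hW
    haveI : FiniteDimensional ℂ W := FiniteDimensional.span_finset ℂ s
    have hcard : Module.finrank ℂ W = s.card := by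
      have := finrank_span_eq_card hs
      rw [Fintype.card_coe] at this
      have h9 : Set.range (fun i : s => (i : V)) = (s : Set V) := by
        ext v; simp
      rw [h9] at this
      exact this
    let b := stdOrthonormalBasis ℂ W
    have hb : Orthonormal ℂ (fun i => ((b i : V) : Lp ℂ 2 μ)) := by
      have h1 := b.orthonormal
      have h2 := h1.comp_linearIsometry W.subtypeₗᵢ
      exact h2.comp_linearIsometry V.subtypeₗᵢ
    have := hN _ _ hb (fun i g hg => hOV hg _ (b i : V).2)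
    rw [← hcard]
    exact this
  exact Module.rank_lt_aleph0_iff.1 (hr.trans_lt (Cardinal.natCast_lt_aleph0 (n := N)))

end

end Run7.h421
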