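import Pool.Agent.Run7.h421.ProdN

/-!
# Representative functions and escape
-/

set_option autoImplicit false
set_option linter.unusedSectionVars false

namespace Run7.h421

open Set

noncomputable section

section repr

variable {Ω : Type*} [Group Ω]

/-- right translation of functions -/
def rtr (h : Ω) : (Ω → ℝ) →ₗ[ℝ] (Ω → ℝ) where
  toFun f := fun ω => f (ω * h)
  map_add' _ _ := rfl
  map_smul' _ _ := rfl

lemma rtr_apply (h : Ω) (f : Ω → ℝ) (ω : Ω) : rtr h f ω = f (ω * h) := rfl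

lemma rtr_mul_fun (h : Ω) (f g : Ω → ℝ) : rtr h (f * g) = rtr h f * rtr h g := rfl

/-- A function whose right translates span a finite-dimensional space. -/
def IsRepr (f : Ω → ℝ) : Prop :=
  ∃ F : Submodule ℝ (Ω → ℝ), FiniteDimensional ℝ F ∧ (∀ h, ∀ g ∈ F, rtr h g ∈ F) ∧ f ∈ F

lemma IsRepr.add {f g : Ω → ℝ} (hf : IsRepr f) (hg : IsRepr g) : IsRepr (f + g) := by
  obtain ⟨F, h1, h2, h3⟩ := hf
  obtain ⟨F', h1', h2', h3'⟩ := hg
  refine ⟨F ⊔ F', inferInstance, ?_, Submodule.add_mem_sup h3 h3'⟩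
  intro h k hk
  obtain ⟨a, ha, b, hb, rfl⟩ := Submodule.mem_sup.1 hk
  rw [map_add]
  exact Submodule.add_mem_sup (h2 h a ha) (h2' h b hb)

lemma IsRepr.mul {f g : Ω → ℝ} (hf : IsRepr f) (hg : IsRepr g) : IsRepr (f * g) := by
  obtain ⟨F, h1, h2, h3⟩ := hf
  obtain ⟨F', h1', h2', h3'⟩ := hg
  have hfg : (F * F').FG :=
    Submodule.FG.mul (Module.Finite.iff_fg.1 h1) (Module.Finite.iff_fg.1 h1')
  refine ⟨F * F', Module.Finite.iff_fg.2 hfg, ?_, Submodule.mul_mem_mul h3 h3'⟩
  intro h k hk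
  induction hk using Submodule.mul_induction_on' with
  | mem_mul_mem m hm n hn =>
    rw [rtr_mul_fun]
    exact Submodule.mul_mem_mul (h2 h m hm) (h2' h n hn)
  | add x _ y _ hx hy =>
    rw [map_add]
    exact Submodule.add_mem _ hx hy

lemma IsRepr.const (c : ℝ) : IsRepr (fun _ : Ω => c) := by
  refine ⟨Submodule.span ℝ {fun _ => 1}, inferInstance, ?_, ?_⟩
  · intro h g hg
    obtain ⟨a, rfl⟩ := Submodule.mem_span_singleton.1 hg
    exact Submodule.mem_span_singleton.2 ⟨a, rfl⟩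
  · refine Submodule.mem_span_singleton.2 ⟨c, ?_⟩
    ext ω
    simp

lemma IsRepr.sum {ι : Type*} (s : Finset ι) (f : ι → Ω → ℝ) (hf : ∀ i ∈ s, IsRepr (f i)) :
    IsRepr (fun ω => ∑ i ∈ s, f i ω) := by
  classical
  induction s using Finset.induction_on with
  | empty => simpa using IsRepr.const (Ω := Ω) 0
  | insert a s ha ih =>
    have h1 : (fun ω => ∑ i ∈ insert a s, f i ω) = f a + fun ω => ∑ i ∈ s, f i ω := by
      ext ω
      rw [Finset.sum_insert ha]; rfl
    rw [h1]
    exact (hf a (by simp)).add (ih fun i hi => hf i (by simp [hi]))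

lemma IsRepr.prod {ι : Type*} (s : Finset ι) (f : ι → Ω → ℝ) (hf : ∀ i ∈ s, IsRepr (f i)) :
    IsRepr (fun ω => ∏ i ∈ s, f i ω) := by
  classical
  induction s using Finset.induction_on with
  | empty => simpa using IsRepr.const (Ω := Ω) 1
  | insert a s ha ih =>
    have h1 : (fun ω => ∏ i ∈ insert a s, f i ω) = f a * fun ω => ∏ i ∈ s, f i ω := by
      ext ω
      rw [Finset.prod_insert ha]; rfl
    rw [h1]
    exact (hf a (by simp)).mul (ih fun i hi => hf i (by simp [hi]))

/-- A determinant with representative entries. -/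
lemma IsRepr.det {n : ℕ} (A : Ω → Matrix (Fin n) (Fin n) ℝ)
    (hA : ∀ i j, IsRepr (fun ω => A ω i j)) : IsRepr (fun ω => (A ω).det) := by
  simp_rw [Matrix.det_apply]
  refine IsRepr.sum _ _ fun σ _ => ?_
  have h1 : (fun ω => Equiv.Perm.sign σ • ∏ i, A ω (σ i) i) =
      (fun _ => ((Equiv.Perm.sign σ : ℤ) : ℝ)) * fun ω => ∏ i, A ω (σ i) i := by
    ext ω
    rw [Pi.mul_apply, Units.smul_def, zsmul_eq_mul]
  rw [h1]
  exact (IsRepr.const _).mul (IsRepr.prod _ _ fun i _ => hA _ _)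

/-- The escape lemma: a representative function which vanishes on short words vanishes on all
words. -/
theorem escape {f : Ω → ℝ} (hf : IsRepr f) : ∃ N : ℕ, ∀ T : Set Ω, (∀ ω, Wd T N ω → f ω = 0) →
    ∀ n ω, Wd T n ω → f ω = 0 := by
  obtain ⟨F, hfd, hinv, hfF⟩ := hf
  let L : Ω →* Module.End ℝ F :=
    { toFun := fun h => (rtr h).restrict (fun g hg => hinv h g hg)
      map_one' := by
        ext1 g
        apply Subtype.ext
        ext ω
        show (g : Ω → ℝ) (ω * 1) = (g : Ω → ℝ) ω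
        rw [mul_one]
      map_mul' := fun a b => by
        ext1 g
        apply Subtype.ext
        ext ω
        show (g : Ω → ℝ) (ω * (a * b)) = (g : Ω → ℝ) (ω * a * b)
        rw [mul_assoc] }
  refine ⟨Module.finrank ℝ F, fun T hT n ω hω => ?_⟩
  have h1 : ∀ g ∈ wspan L T ⟨f, hfF⟩ (Module.finrank ℝ F), (g : Ω → ℝ) 1 = 0 := by
    intro g hg
    have hle : wspan L T ⟨f, hfF⟩ (Module.finrank ℝ F) ≤
        LinearMap.ker ((LinearMap.proj (R := ℝ) (φ := fun _ : Ω => ℝ) 1).comp F.subtype) := by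
      refine Submodule.span_le.2 ?_
      rintro _ ⟨ω, hω, rfl⟩
      show f (1 * ω) = 0
      rw [one_mul]
      exact hT ω hω
    exact hle hg
  obtain ⟨l, -, hl, rfl⟩ := hω
  have h2 : ∀ l : List Ω, (∀ x ∈ l, x ∈ T) →
      L l.prod ⟨f, hfF⟩ ∈ wspan L T ⟨f, hfF⟩ (Module.finrank ℝ F) := by
    intro l
    induction l with
    | nil =>
      intro _
      exact Submodule.subset_span ⟨1, Wd.one T _, rfl⟩
    | cons s l ih =>
      intro hl
      rw [List.prod_cons, map_mul]
      exact wspan_inv L T _ (hl s (by simp)) (ih fun x hx => hl x (by simp [hx]))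
  have h3 := h1 _ (h2 l hl)
  have h4 : f (1 * l.prod) = 0 := h3
  rwa [one_mul] at h4

/-- Representative functions with values in a finite-dimensional algebra. -/
def ERepr {𝓔 : Type*} [Ring 𝓔] [Algebra ℝ 𝓔] (T : Ω → 𝓔) : Prop :=
  ∀ φ : 𝓔 →ₗ[ℝ] ℝ, IsRepr (fun ω => φ (T ω))

variable {𝓔 : Type*} [Ring 𝓔] [Algebra ℝ 𝓔] [FiniteDimensional ℝ 𝓔]

omit [FiniteDimensional ℝ 𝓔] in
lemma ERepr.one : ERepr (fun _ : Ω => (1 : 𝓔)) := fun φ => IsRepr.const (φ 1)

lemma ERepr.mul {T T' : Ω → 𝓔} (hT : ERepr T) (hT' : ERepr T') :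
    ERepr (fun ω => T ω * T' ω) := by
  intro φ
  let b := Module.finBasis ℝ 𝓔
  have h1 : (fun ω => φ (T ω * T' ω)) = fun ω => ∑ i, ∑ j,
      (b.coord i (T ω) * b.coord j (T' ω)) * φ (b i * b j) := by
    ext ω
    conv_lhs => rw [← b.sum_repr (T ω), ← b.sum_repr (T' ω)]
    rw [Finset.sum_mul, map_sum]
    refine Finset.sum_congr rfl fun i _ => ?_
    rw [Finset.mul_sum, map_sum]
    refine Finset.sum_congr rfl fun j _ => ?_
    rw [smul_mul_smul_comm, map_smul, smul_eq_mul]
    rfl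
  rw [h1]
  refine IsRepr.sum _ _ fun i _ => IsRepr.sum _ _ fun j _ => ?_
  exact ((hT (b.coord i)).mul (hT' (b.coord j))).mul (IsRepr.const _)

lemma ERepr.pow {T : Ω → 𝓔} (hT : ERepr T) (n : ℕ) : ERepr (fun ω => T ω ^ n) := by
  induction n with
  | zero => simpa using ERepr.one
  | succ n ih =>
    simp_rw [pow_succ]
    exact ih.mul hT

lemma ERepr.list {ι : Type*} (T : ι → Ω → 𝓔) (hT : ∀ i, ERepr (T i)) (l : List ι) :
    ERepr (fun ω => (l.map fun i => T i ω).prod) := by
  induction l with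
  | nil => simpa using ERepr.one
  | cons i l ih =>
    simp only [List.map_cons, List.prod_cons]
    exact (hT i).mul ih

/-- Homomorphisms are representative. -/
lemma ERepr.hom (Θ : Ω →* 𝓔) : ERepr (fun ω => Θ ω) := by
  intro φ
  let J : (𝓔 →ₗ[ℝ] ℝ) →ₗ[ℝ] (Ω → ℝ) :=
    { toFun := fun ψ ω => ψ (Θ ω)
      map_add' := fun _ _ => rfl
      map_smul' := fun _ _ => rfl }
  refine ⟨LinearMap.range J, inferInstance, ?_, ⟨φ, rfl⟩⟩
  rintro h _ ⟨ψ, rfl⟩
  refine ⟨ψ.comp (LinearMap.mulRight ℝ (Θ h)), ?_⟩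
  ext ω
  show ψ (Θ ω * Θ h) = ψ (Θ (ω * h))
  rw [map_mul Θ]

end repr

section words

/-- `g` is a product of an even number, at most `n`, of elements of `S`. -/
def Ev {G : Type*} [Monoid G] (S : Set G) (n : ℕ) (g : G) : Prop :=
  ∃ l : List G, l.length ≤ n ∧ Even l.length ∧ (∀ x ∈ l, x ∈ S) ∧ l.prod = g

lemma Ev.one {G : Type*} [Monoid G] (S : Set G) (n : ℕ) : Ev S n 1 :=
  ⟨[], Nat.zero_le n, ⟨0, rfl⟩, by simp, rfl⟩

lemma Ev.mono {G : Type*} [Monoid G] {S : Set G} {n m : ℕ} (h : n ≤ m) {g : G} (hg : Ev S n g) :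
    Ev S m g := by
  obtain ⟨l, h1, h2⟩ := hg
  exact ⟨l, h1.trans h, h2⟩

lemma Ev.mul {G : Type*} [Monoid G] {S : Set G} {n m : ℕ} {g h : G} (hg : Ev S n g)
    (hh : Ev S m h) : Ev S (n + m) (g * h) := by
  obtain ⟨l, h1, h2, h3, h4⟩ := hg
  obtain ⟨l', h1', h2', h3', h4'⟩ := hh
  refine ⟨l ++ l', by rw [List.length_append]; omega, by rw [List.length_append]; exact h2.add h2',
    ?_, by rw [List.prod_append, h4, h4']⟩
  intro x hx
  rcases List.mem_append.1 hx with h | h
  · exact h3 x h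
  · exact h3' x h

lemma Ev.pow {G : Type*} [Monoid G] {S : Set G} {n : ℕ} {g : G} (hg : Ev S n g) (m : ℕ) :
    Ev S (m * n) (g ^ m) := by
  induction m with
  | zero => rw [zero_mul, pow_zero]; exact Ev.one S 0
  | succ m ih => rw [pow_succ, Nat.succ_mul]; exact ih.mul hg

lemma Ev.two {G : Type*} [Monoid G] {S : Set G} {s t : G} (hs : s ∈ S) (ht : t ∈ S) :
    Ev S 2 (s * t) :=
  ⟨[s, t], le_rfl, ⟨1, rfl⟩, by simp [hs, ht], by simp⟩

lemma exists_list_of_mem_clo {G : Type*} [Group G] {T : Set G} {g : G}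
    (hg : g ∈ Subgroup.closure T) :
    ∃ l : List G, (∀ x ∈ l, x ∈ T ∨ x⁻¹ ∈ T) ∧ l.prod = g := by
  induction hg using Subgroup.closure_induction_left with
  | one => exact ⟨[], by simp, rfl⟩
  | mul_left t ht g _ ih =>
    obtain ⟨l, h1, rfl⟩ := ih
    refine ⟨t :: l, ?_, by simp⟩
    intro x hx
    rcases List.mem_cons.1 hx with rfl | h
    · exact Or.inl ht
    · exact h1 x h
  | inv_mul_cancel t ht g _ ih =>
    obtain ⟨l, h1, rfl⟩ := ih
    refine ⟨t⁻¹ :: l, ?_, by simp⟩
    intro x hx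
    rcases List.mem_cons.1 hx with rfl | h
    · exact Or.inr (by rwa [inv_inv])
    · exact h1 x h

/-- pairs of products of two elements -/
def PT {G : Type*} [Monoid G] (S : Set G) : Set (G × G) :=
  {p | ∃ s ∈ S, ∃ t ∈ S, p = (s * t, 1) ∨ p = (1, s * t)}

lemma Wd_PT {G : Type*} [Monoid G] {S : Set G} {n : ℕ} {p : G × G} (hp : Wd (PT S) n p) :
    Ev S (2 * n) p.1 ∧ Ev S (2 * n) p.2 := by
  obtain ⟨l, hl1, hl2, rfl⟩ := hp
  have key : ∀ l : List (G × G), (∀ x ∈ l, x ∈ PT S) →
      Ev S (2 * l.length) l.prod.1 ∧ Ev S (2 * l.length) l.prod.2 := by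
    intro l
    induction l with
    | nil => intro _; exact ⟨Ev.one S _, Ev.one S _⟩
    | cons x l ih =>
      intro hl
      have h1 := ih fun y hy => hl y (by simp [hy])
      obtain ⟨s, hs, t, ht, h2⟩ := hl x (by simp)
      rw [List.prod_cons, List.length_cons, Prod.fst_mul, Prod.snd_mul]
      have e : 2 * (l.length + 1) = 2 + 2 * l.length := by ring
      rw [e]
      rcases h2 with rfl | rfl
      · exact ⟨(Ev.two hs ht).mul h1.1, by rw [one_mul]; exact h1.2.mono (by omega)⟩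
      · exact ⟨by rw [one_mul]; exact h1.1.mono (by omega), (Ev.two hs ht).mul h1.2⟩
  have h := key l hl2
  exact ⟨h.1.mono (by omega), h.2.mono (by omega)⟩

/-- The words of even length are dense. -/
lemma dense_even {G : Type*} [TopologicalSpace G] [Group G] [IsTopologicalGroup G]
    [ConnectedSpace G] [Nontrivial G] {S : Set G} (hS : ∀ s ∈ S, s⁻¹ ∈ S)
    (hd : Dense ((Subgroup.closure S : Subgroup G) : Set G)) [T2Space G] :
    Dense ((Subgroup.closure {g | ∃ s ∈ S, ∃ t ∈ S, g = s * t} : Subgroup G) : Set G) := by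
  set E : Subgroup G := Subgroup.closure {g | ∃ s ∈ S, ∃ t ∈ S, g = s * t} with hE
  set H := E.topologicalClosure with hH
  have hHc : IsClosed (H : Set G) := Subgroup.isClosed_topologicalClosure _
  have hEH : E ≤ H := Subgroup.le_topologicalClosure _
  -- `S` is nonempty
  obtain ⟨s, hs⟩ : S.Nonempty := by
    by_contra hne
    rw [not_nonempty_iff_eq_empty] at hne
    rw [hne, Subgroup.closure_empty] at hd
    have h1 : closure ((⊥ : Subgroup G) : Set G) = univ := hd.closure_eq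
    rw [Subgroup.coe_bot, closure_singleton] at h1
    obtain ⟨x, y, hxy⟩ := exists_pair_ne G
    have hx : x ∈ ({1} : Set G) := by rw [h1]; trivial
    have hy : y ∈ ({1} : Set G) := by rw [h1]; trivial
    exact hxy (by rw [mem_singleton_iff.1 hx, mem_singleton_iff.1 hy])
  have hst : ∀ t ∈ S, ∀ u ∈ S, t * u ∈ E := fun t ht u hu => Subgroup.subset_closure ⟨t, ht, u, hu, rfl⟩
  -- every element of `Γ` is in `E` or in `s E`
  have h1 : ∀ g ∈ Subgroup.closure S, g ∈ E ∨ s * g ∈ E := by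
    intro g hg
    have hcoset : ∀ t ∈ S, ∀ g, (g ∈ E → s * (t * g) ∈ E) ∧ (s * g ∈ E → t * g ∈ E) := by
      intro t ht g
      constructor
      · intro h
        rw [← mul_assoc]
        exact E.mul_mem (hst s hs t ht) h
      · intro h
        have : t * g = (t * s⁻¹) * (s * g) := by group
        rw [this]
        exact E.mul_mem (hst t ht _ (hS s hs)) h
    induction hg using Subgroup.closure_induction_left with
    | one => exact Or.inl E.one_mem
    | mul_left t ht g _ ih =>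
      rcases ih with h | h
      · exact Or.inr ((hcoset t ht g).1 h)
      · exact Or.inl ((hcoset t ht g).2 h)
    | inv_mul_cancel t ht g _ ih =>
      rcases ih with h | h
      · exact Or.inr ((hcoset _ (hS t ht) g).1 h)
      · exact Or.inl ((hcoset _ (hS t ht) g).2 h)
  have h2 : ∀ g : G, g ∈ H ∨ s * g ∈ H := by
    have hcl : IsClosed {g : G | g ∈ H ∨ s * g ∈ H} := by
      have : {g : G | g ∈ H ∨ s * g ∈ H} = (H : Set G) ∪ (fun g => s * g) ⁻¹' (H : Set G) := rfl
      rw [this]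
      exact hHc.union (hHc.preimage (by fun_prop))
    intro g
    exact closure_minimal (fun g hg => (h1 g hg).imp (fun h => hEH h) (fun h => hEH h)) hcl (hd g)
  have h3 : (H : Set G) = univ := by
    by_cases hsH : s ∈ H
    · ext g
      simp only [SetLike.mem_coe, mem_univ, iff_true]
      rcases h2 g with h | h
      · exact h
      · have : g = s⁻¹ * (s * g) := by group
        rw [this]
        exact H.mul_mem (H.inv_mem hsH) h
    · have hopen : IsOpen (H : Set G) := by
        have : (H : Set G) = ((fun g => s * g) ⁻¹' (H : Set G))ᶜ := by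
          ext g
          simp only [SetLike.mem_coe, mem_compl_iff, mem_preimage]
          constructor
          · intro hg hsg
            apply hsH
            have : s = (s * g) * g⁻¹ := by group
            rw [this]
            exact H.mul_mem hsg (H.inv_mem hg)
          · intro h
            exact (h2 g).resolve_right h
        rw [this]
        exact (hHc.preimage (by fun_prop)).isOpen_compl
      exact IsClopen.eq_univ ⟨hHc, hopen⟩ ⟨1, H.one_mem⟩
  rw [hH, Subgroup.topologicalClosure_coe] at h3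
  exact dense_iff_closure_eq.2 h3

/-- A continuous function which vanishes on all words in `PT S` vanishes. -/
lemma eq_zero_of_words {G : Type*} [TopologicalSpace G] [Group G] [IsTopologicalGroup G]
    [ConnectedSpace G] [Nontrivial G] [T2Space G] {S : Set G} (hS : ∀ s ∈ S, s⁻¹ ∈ S)
    (hd : Dense ((Subgroup.closure S : Subgroup G) : Set G)) {f : G × G → ℝ} (hf : Continuous f)
    (h : ∀ n p, Wd (PT S) n p → f p = 0) (p : G × G) : f p = 0 := by
  set E : Subgroup G := Subgroup.closure {g | ∃ s ∈ S, ∃ t ∈ S, g = s * t} with hE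
  have hE2 : ∀ g ∈ E, ∃ l : List G, (∀ x ∈ l, ∃ s ∈ S, ∃ t ∈ S, x = s * t) ∧ l.prod = g := by
    intro g hg
    obtain ⟨l, hl1, hl2⟩ := exists_list_of_mem_clo hg
    refine ⟨l, fun x hx => ?_, hl2⟩
    rcases hl1 x hx with h | h
    · exact h
    · obtain ⟨s, hs, t, ht, h5⟩ := h
      refine ⟨t⁻¹, hS t ht, s⁻¹, hS s hs, ?_⟩
      rw [← mul_inv_rev, ← h5, inv_inv]
  have h1 : ∀ p ∈ (E : Set G) ×ˢ (E : Set G), f p = 0 := by
    rintro ⟨a, b⟩ ⟨ha, hb⟩
    obtain ⟨la, hla, rfl⟩ := hE2 a ha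
    obtain ⟨lb, hlb, rfl⟩ := hE2 b hb
    refine h (la.length + lb.length) _ ?_
    have e : ((la.prod, lb.prod) : G × G) = (la.prod, 1) * (1, lb.prod) := by simp
    rw [e]
    refine Wd.mul ?_ ?_
    · refine ⟨la.map fun x => (x, 1), by simp, ?_, ?_⟩
      · intro x hx
        obtain ⟨y, hy, rfl⟩ := List.mem_map.1 hx
        obtain ⟨s, hs, t, ht, rfl⟩ := hla y hy
        exact ⟨s, hs, t, ht, Or.inl rfl⟩
      · have := (map_list_prod (MonoidHom.inl G G) la).symm
        exact this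
    · refine ⟨lb.map fun x => (1, x), by simp, ?_, ?_⟩
      · intro x hx
        obtain ⟨y, hy, rfl⟩ := List.mem_map.1 hx
        obtain ⟨s, hs, t, ht, rfl⟩ := hlb y hy
        exact ⟨s, hs, t, ht, Or.inr rfl⟩
      · have := (map_list_prod (MonoidHom.inr G G) lb).symm
        exact this
  have hcl : IsClosed {p | f p = 0} := isClosed_eq hf continuous_const
  have hd2 : Dense ((E : Set G) ×ˢ (E : Set G)) := (dense_even hS hd).prod (dense_even hS hd)
  exact closure_minimal h1 hcl (hd2 p)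

end words

end

end Run7.h421
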