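import Mathlib

/-!
# A Lie algebra with an invariant inner product and trivial centre is generated by two elements
-/

set_option autoImplicit false
set_option linter.unusedSectionVars false

namespace Run7.h421

open Module Module.End Set

noncomputable section

section gen

variable {V : Type*} [NormedAddCommGroup V] [InnerProductSpace ℝ V] [FiniteDimensional ℝ V]
  (br : V →ₗ[ℝ] V →ₗ[ℝ] V)

/-- the square of `ad X` -/
def sq2 (X : V) : Module.End ℝ V := (br X) * (br X)

lemma sq2_apply (X v : V) : sq2 br X v = br X (br X v) := rfl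

/-- the eigenvalues of the square of `ad X` -/
def evs (X : V) : Set ℝ := {μ | (sq2 br X).HasEigenvalue μ}

lemma evs_finite (X : V) : (evs br X).Finite := finite_hasEigenvalue _

lemma ncard_evs_le (X : V) : (evs br X).ncard ≤ finrank ℝ V := by
  haveI : Fintype (evs br X) := (evs_finite br X).fintype
  choose v hv using fun μ : evs br X => (μ.2 : (sq2 br X).HasEigenvalue μ).exists_hasEigenvector
  have h := eigenvectors_linearIndependent' (sq2 br X) (fun μ : evs br X => (μ : ℝ))
    Subtype.val_injective v hv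
  have h1 := h.fintype_card_le_finrank
  rwa [← Nat.card_eq_fintype_card, Nat.card_coe_set_eq] at h1

lemma exists_max : ∃ X, ∀ Y, (evs br Y).ncard ≤ (evs br X).ncard := by
  have hb : BddAbove (range fun Y => (evs br Y).ncard) := by
    refine ⟨finrank ℝ V, ?_⟩
    rintro _ ⟨Y, rfl⟩
    exact ncard_evs_le br Y
  obtain ⟨X, hX⟩ := Nat.sSup_mem (range_nonempty fun Y => (evs br Y).ncard) hb
  exact ⟨X, fun Y => by
    have := le_csSup hb ⟨Y, rfl⟩
    rw [← hX] at this
    exact this⟩

variable (alt : ∀ x y, br x y = - br y x)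
  (jac : ∀ x y z, br x (br y z) = br (br x y) z + br y (br x z))
  (skew : ∀ x y z, inner ℝ (br x y) z = - inner ℝ y (br x z))

include skew in
lemma sq2_symm (X : V) : (sq2 br X).IsSymmetric := by
  intro x y
  rw [sq2_apply, sq2_apply, skew, ← neg_eq_iff_eq_neg.2 (skew X x (br X y))]

include skew in
lemma inner_sq2 (X v : V) : inner ℝ (sq2 br X v) v = - ‖br X v‖ ^ 2 := by
  rw [sq2_apply, skew, real_inner_self_eq_norm_sq]

include skew in
lemma br_eq_zero_of {X v : V} (h : br X (br X v) = 0) : br X v = 0 := by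
  have h1 := inner_sq2 br skew X v
  rw [sq2_apply, h, inner_zero_left] at h1
  have : ‖br X v‖ = 0 := by
    have h2 : ‖br X v‖ ^ 2 = 0 := by linarith
    exact pow_eq_zero_iff two_ne_zero |>.1 h2
  exact norm_eq_zero.1 this

include alt in
lemma br_self (x : V) : br x x = 0 := by
  have h := alt x x
  have h2 : (2 : ℝ) • br x x = 0 := by
    rw [two_smul]
    nth_rewrite 2 [h]
    simp
  exact (smul_eq_zero.1 h2).resolve_left two_ne_zero

include jac in
lemma br_comm {X H : V} (h : br X H = 0) (z : V) : br X (br H z) = br H (br X z) := by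
  rw [jac, h]
  simp

include jac in
lemma eig_inv {X H : V} (h : br X H = 0) {μ : ℝ} {v : V} (hv : v ∈ (sq2 br X).eigenspace μ) :
    br H v ∈ (sq2 br X).eigenspace μ := by
  rw [mem_eigenspace_iff, sq2_apply] at hv ⊢
  rw [br_comm br jac h, br_comm br jac h, hv, map_smul]

lemma eig_inv_self {X : V} {μ : ℝ} {v : V} (hv : v ∈ (sq2 br X).eigenspace μ) :
    br X v ∈ (sq2 br X).eigenspace μ := by
  rw [mem_eigenspace_iff, sq2_apply] at hv ⊢
  rw [hv, map_smul]

/-- a symmetric operator preserving a nonzero subspace has an eigenvector there -/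
lemma exists_eig_in {T : Module.End ℝ V} (hT : T.IsSymmetric) {E : Submodule ℝ V}
    (hE : ∀ v ∈ E, T v ∈ E) (hE0 : E ≠ ⊥) : ∃ (c : ℝ) (v : V), v ∈ E ∧ v ≠ 0 ∧ T v = c • v := by
  have hs := hT.restrict_invariant hE
  have h1 := hs.orthogonalComplement_iSup_eigenspaces_eq_bot
  by_contra hcon
  push Not at hcon
  have h2 : ∀ c, Module.End.eigenspace (LinearMap.restrict T hE) c = ⊥ := by
    intro c
    rw [Submodule.eq_bot_iff]
    intro v hv
    by_contra hv0
    refine hcon c v v.2 (fun h => hv0 (Subtype.ext h)) ?_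
    exact congrArg Subtype.val (mem_eigenspace_iff.1 hv)
  simp only [h2, iSup_bot, Submodule.bot_orthogonal_eq_top] at h1
  apply hE0
  rw [Submodule.eq_bot_iff]
  intro v hv
  have h3 : (⟨v, hv⟩ : E) ∈ (⊤ : Submodule ℝ E) := trivial
  rw [h1, Submodule.mem_bot] at h3
  exact congrArg Subtype.val h3

/-- a symmetric operator preserving a subspace is scalar there or has two different
eigenvalues there -/
lemma scalar_or_two {T : Module.End ℝ V} (hT : T.IsSymmetric) {E : Submodule ℝ V}
    (hE : ∀ v ∈ E, T v ∈ E) (hE0 : E ≠ ⊥) : (∃ c : ℝ, ∀ v ∈ E, T v = c • v) ∨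
      ∃ (c d : ℝ) (v w : V), c ≠ d ∧ v ∈ E ∧ w ∈ E ∧ v ≠ 0 ∧ w ≠ 0 ∧ T v = c • v ∧
        T w = d • w := by
  obtain ⟨c, v, hvE, hv0, hv⟩ := exists_eig_in hT hE hE0
  by_cases h : ∀ (d : ℝ) (w : V), w ∈ E → w ≠ 0 → T w = d • w → d = c
  · left
    refine ⟨c, fun w hw => ?_⟩
    have hs := hT.restrict_invariant hE
    have h1 := hs.orthogonalComplement_iSup_eigenspaces_eq_bot
    have h2 : (⨆ d, Module.End.eigenspace (LinearMap.restrict T hE) d) ≤
        Module.End.eigenspace (LinearMap.restrict T hE) c := by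
      refine iSup_le fun d z hz => ?_
      by_cases hz0 : z = 0
      · rw [hz0]; exact Submodule.zero_mem _
      · have h3 : T (z : V) = d • (z : V) := congrArg Subtype.val (mem_eigenspace_iff.1 hz)
        have h4 := h d z z.2 (fun h5 => hz0 (Subtype.ext h5)) h3
        rw [← h4]
        exact hz
    have h3 : (Module.End.eigenspace (LinearMap.restrict T hE) c)ᗮ = ⊥ := by
      rw [eq_bot_iff, ← h1]
      exact Submodule.orthogonal_le h2
    rw [Submodule.orthogonal_eq_bot_iff] at h3
    have h4 : (⟨w, hw⟩ : E) ∈ Module.End.eigenspace (LinearMap.restrict T hE) c := by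
      rw [h3]; trivial
    exact congrArg Subtype.val (mem_eigenspace_iff.1 h4)
  · right
    push Not at h
    obtain ⟨d, w, hwE, hw0, hw, hdc⟩ := h
    exact ⟨c, d, v, w, hdc.symm, hvE, hwE, hv0, hw0, hv, hw⟩

lemma sq2_add {X H : V} (hc : ∀ z, br X (br H z) = br H (br X z)) (t : ℝ) (v : V) :
    sq2 br (X + t • H) v = sq2 br X v + (2 * t) • br X (br H v) + t ^ 2 • sq2 br H v := by
  simp only [sq2_apply, map_add, map_smul, LinearMap.add_apply, LinearMap.smul_apply, smul_add]
  rw [hc v]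
  module

include alt jac skew in
/-- the perturbation argument -/
lemma perturb {X : V} (hX : ∀ Y, (evs br Y).ncard ≤ (evs br X).ncard) {H : V}
    (hH : br X H = 0) : ∃ t₀ > 0, ∀ t : ℝ, |t| < t₀ → ∀ μ ∈ evs br X,
      ∃ c : ℝ, ∀ v ∈ (sq2 br X).eigenspace μ, sq2 br (X + t • H) v = c • v := by
  have hcm := br_comm br jac hH
  -- a bound for the perturbation
  obtain ⟨C, hC0, hC⟩ : ∃ C : ℝ, 0 < C ∧ ∀ t : ℝ, |t| < 1 → ∀ v,
      ‖sq2 br (X + t • H) v - sq2 br X v‖ ≤ C * |t| * ‖v‖ := by
    let A : V →L[ℝ] V := LinearMap.toContinuousLinearMap ((br X) ∘ₗ (br H))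
    let B : V →L[ℝ] V := LinearMap.toContinuousLinearMap (sq2 br H)
    refine ⟨2 * ‖A‖ + ‖B‖ + 1, by positivity, fun t ht v => ?_⟩
    rw [sq2_add br hcm]
    have h1 : sq2 br X v + (2 * t) • br X (br H v) + t ^ 2 • sq2 br H v - sq2 br X v =
        (2 * t) • A v + t ^ 2 • B v := by
      show _ = (2 * t) • br X (br H v) + t ^ 2 • sq2 br H v
      abel
    rw [h1]
    have h2 : ‖(2 * t) • A v‖ ≤ 2 * |t| * (‖A‖ * ‖v‖) := by
      rw [norm_smul, Real.norm_eq_abs, abs_mul, abs_two]
      exact mul_le_mul_of_nonneg_left (A.le_opNorm v) (by positivity)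
    have h3 : ‖t ^ 2 • B v‖ ≤ |t| * (‖B‖ * ‖v‖) := by
      rw [norm_smul, Real.norm_eq_abs, abs_pow, pow_two, mul_assoc]
      have h4 := B.le_opNorm v
      have h5 : |t| * ‖B v‖ ≤ 1 * (‖B‖ * ‖v‖) := mul_le_mul ht.le h4 (norm_nonneg _) zero_le_one
      rw [one_mul] at h5
      exact mul_le_mul_of_nonneg_left h5 (abs_nonneg t)
    have h6 : 0 ≤ |t| * ‖v‖ := by positivity
    calc ‖(2 * t) • A v + t ^ 2 • B v‖ ≤ 2 * |t| * (‖A‖ * ‖v‖) + |t| * (‖B‖ * ‖v‖) :=
          (norm_add_le _ _).trans (add_le_add h2 h3)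
      _ ≤ (2 * ‖A‖ + ‖B‖ + 1) * |t| * ‖v‖ := by nlinarith
  -- the gap
  obtain ⟨γ, hγ0, hγ⟩ : ∃ γ : ℝ, 0 < γ ∧ ∀ μ ∈ evs br X, ∀ μ' ∈ evs br X, μ ≠ μ' →
      γ ≤ |μ - μ'| := by
    have hf : ((evs br X) ×ˢ (evs br X) ∩ {p | p.1 ≠ p.2}).Finite :=
      ((evs_finite br X).prod (evs_finite br X)).inter_of_left _
    by_cases hne : ((evs br X) ×ˢ (evs br X) ∩ {p | p.1 ≠ p.2}).Nonempty
    · obtain ⟨p, hp, hmin⟩ := exists_min_image _ (fun p : ℝ × ℝ => |p.1 - p.2|) hf hne
      refine ⟨|p.1 - p.2|, abs_pos.2 (sub_ne_zero.2 hp.2), fun μ hμ μ' hμ' hne => ?_⟩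
      exact hmin (μ, μ') ⟨⟨hμ, hμ'⟩, hne⟩
    · refine ⟨1, one_pos, fun μ hμ μ' hμ' hne' => ?_⟩
      exact absurd ⟨(μ, μ'), ⟨hμ, hμ'⟩, hne'⟩ hne
  refine ⟨min 1 (γ / (2 * C)), lt_min one_pos (by positivity), fun t ht μ₀ hμ₀ => ?_⟩
  have ht1 : |t| < 1 := ht.trans_le (min_le_left _ _)
  have ht2 : C * |t| < γ / 2 := by
    have := ht.trans_le (min_le_right _ _)
    rw [lt_div_iff₀ (by positivity)] at this
    linarith
  set T := sq2 br (X + t • H) with hT
  have hTs : T.IsSymmetric := sq2_symm br skew _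
  have hinv : ∀ μ, ∀ v ∈ (sq2 br X).eigenspace μ, T v ∈ (sq2 br X).eigenspace μ := by
    intro μ v hv
    rw [hT, sq2_add br hcm]
    refine Submodule.add_mem _ (Submodule.add_mem _ ?_ (Submodule.smul_mem _ _ ?_))
      (Submodule.smul_mem _ _ ?_)
    · rw [mem_eigenspace_iff.1 hv]
      exact Submodule.smul_mem _ _ hv
    · exact eig_inv_self br (eig_inv br jac hH hv)
    · exact eig_inv br jac hH (eig_inv br jac hH hv)
  have hclose : ∀ μ c v, v ∈ (sq2 br X).eigenspace μ → v ≠ 0 → T v = c • v → |c - μ| < γ / 2 := by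
    intro μ c v hv hv0 hc
    have h1 := hC t ht1 v
    rw [← hT, hc, mem_eigenspace_iff.1 hv, ← sub_smul, norm_smul, Real.norm_eq_abs] at h1
    have h2 : 0 < ‖v‖ := norm_pos_iff.2 hv0
    have h3 : |c - μ| ≤ C * |t| := le_of_mul_le_mul_right h1 h2
    linarith
  have hne : ∀ μ ∈ evs br X, (sq2 br X).eigenspace μ ≠ ⊥ := fun μ hμ => hμ
  rcases scalar_or_two hTs (hinv μ₀) (hne μ₀ hμ₀) with h | ⟨c, d, v, w, hcd, hv, hw, hv0, hw0, hcv, hdw⟩
  · exact h
  exfalso
  have hex : ∀ μ : ℝ, ∃ c : ℝ, μ ∈ evs br X → ∃ v ∈ (sq2 br X).eigenspace μ, v ≠ 0 ∧ T v = c • v := by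
    intro μ
    by_cases hμ : μ ∈ evs br X
    · obtain ⟨c, v, h1, h2, h3⟩ := exists_eig_in hTs (hinv μ) (hne μ hμ)
      exact ⟨c, fun _ => ⟨v, h1, h2, h3⟩⟩
    · exact ⟨0, fun h => absurd h hμ⟩
  choose f₀ hf₀ using hex
  classical
  let f : ℝ → ℝ := fun μ => if μ = μ₀ then c else f₀ μ
  have hf : ∀ μ ∈ evs br X, ∃ v ∈ (sq2 br X).eigenspace μ, v ≠ 0 ∧ T v = f μ • v := by
    intro μ hμ
    by_cases h : μ = μ₀
    · subst h
      refine ⟨v, hv, hv0, ?_⟩
      simp only [f, if_true]
      exact hcv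
    · simp only [f, if_neg h]
      exact hf₀ μ hμ
  have hfclose : ∀ μ ∈ evs br X, |f μ - μ| < γ / 2 := by
    intro μ hμ
    obtain ⟨v, h1, h2, h3⟩ := hf μ hμ
    exact hclose μ _ v h1 h2 h3
  have hfinj : InjOn f (evs br X) := by
    intro μ hμ μ' hμ' he
    by_contra hn
    have h1 := hγ μ hμ μ' hμ' hn
    have h2 := hfclose μ hμ
    have h3 := hfclose μ' hμ'
    rw [← he] at h3
    have h4 : |μ - μ'| ≤ |f μ - μ| + |f μ - μ'| := by
      have := abs_sub_le μ (f μ) μ'
      rw [abs_sub_comm μ (f μ)] at this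
      exact this
    linarith
  have hd : d ∉ f '' evs br X := by
    rintro ⟨μ, hμ, hd⟩
    by_cases h : μ = μ₀
    · subst h
      simp only [f, if_true] at hd
      exact hcd hd
    · have h1 := hγ μ hμ μ₀ hμ₀ h
      have h2 := hfclose μ hμ
      have h3 := hclose μ₀ d w hw hw0 hdw
      rw [hd] at h2
      have h4 : |μ - μ₀| ≤ |d - μ| + |d - μ₀| := by
        have := abs_sub_le μ d μ₀
        rw [abs_sub_comm μ d] at this
        exact this
      linarith
  have hsub : insert d (f '' evs br X) ⊆ evs br (X + t • H) := by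
    rintro x (rfl | ⟨μ, hμ, rfl⟩)
    · exact hasEigenvalue_of_hasEigenvector (hasEigenvector_iff.2 ⟨mem_eigenspace_iff.2 hdw, hw0⟩)
    · obtain ⟨v, h1, h2, h3⟩ := hf μ hμ
      exact hasEigenvalue_of_hasEigenvector (hasEigenvector_iff.2 ⟨mem_eigenspace_iff.2 h3, h2⟩)
  have h1 := ncard_le_ncard hsub (evs_finite br _)
  rw [ncard_insert_of_notMem hd ((evs_finite br X).image f), ncard_image_of_injOn hfinj] at h1
  have h2 := hX (X + t • H)
  omega

include alt jac skew in
/-- For `X` with the maximal number of eigenvalues, the elements commuting with `X` act by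
multiples of `ad X` on the eigenspaces of its square. -/
lemma scalars {X : V} (hX : ∀ Y, (evs br Y).ncard ≤ (evs br X).ncard) {H : V}
    (hH : br X H = 0) (μ : ℝ) :
    ∃ c : ℝ, ∀ v ∈ (sq2 br X).eigenspace μ, br H v = c • br X v := by
  by_cases hμ : μ ∈ evs br X
  swap
  · refine ⟨0, fun v hv => ?_⟩
    have h1 : (sq2 br X).eigenspace μ = ⊥ := by
      by_contra h; exact hμ h
    rw [h1, Submodule.mem_bot] at hv
    rw [hv]; simp
  obtain ⟨t₀, ht₀, hpert⟩ := perturb br alt jac skew hX hH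
  obtain ⟨c1, hc1⟩ := hpert (t₀ / 2) (by rw [abs_of_pos (by positivity)]; linarith) μ hμ
  obtain ⟨c2, hc2⟩ := hpert (t₀ / 4) (by rw [abs_of_pos (by positivity)]; linarith) μ hμ
  have hcm := br_comm br jac hH
  obtain ⟨p, q, hpq⟩ : ∃ p q : ℝ, ∀ v ∈ (sq2 br X).eigenspace μ,
      br X (br H v) = p • v ∧ sq2 br H v = q • v := by
    -- `2 P + t Q = a v`
    set t1 := t₀ / 2 with ht1
    set t2 := t₀ / 4 with ht2
    have ht1p : t1 ≠ 0 := by positivity
    have ht2p : t2 ≠ 0 := by positivity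
    have ht12 : t1 - t2 ≠ 0 := by
      have : t1 - t2 = t₀ / 4 := by rw [ht1, ht2]; ring
      rw [this]; positivity
    set a1 := (c1 - μ) / t1
    set a2 := (c2 - μ) / t2
    set q := (a1 - a2) / (t1 - t2)
    refine ⟨(a1 - t1 * q) / 2, q, fun v hv => ?_⟩
    have e1 := hc1 v hv
    have e2 := hc2 v hv
    rw [sq2_add br hcm, mem_eigenspace_iff.1 hv] at e1 e2
    have f1 : (2 : ℝ) • br X (br H v) + t1 • sq2 br H v = a1 • v := by
      have : t1⁻¹ • (μ • v + (2 * t1) • br X (br H v) + t1 ^ 2 • sq2 br H v) = t1⁻¹ • (c1 • v) := by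
        rw [e1]
      have h1 : t1⁻¹ • (μ • v + (2 * t1) • br X (br H v) + t1 ^ 2 • sq2 br H v) =
          (t1⁻¹ * μ) • v + ((t1⁻¹ * t1) * 2) • br X (br H v) + ((t1⁻¹ * t1) * t1) • sq2 br H v := by
        module
      rw [h1, inv_mul_cancel₀ ht1p, one_mul, one_mul, smul_smul] at this
      have h2 : a1 = t1⁻¹ * c1 - t1⁻¹ * μ := by
        show (c1 - μ) / t1 = _
        field_simp
      rw [h2, sub_smul, ← this]
      abel
    have f2 : (2 : ℝ) • br X (br H v) + t2 • sq2 br H v = a2 • v := by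
      have : t2⁻¹ • (μ • v + (2 * t2) • br X (br H v) + t2 ^ 2 • sq2 br H v) = t2⁻¹ • (c2 • v) := by
        rw [e2]
      have h1 : t2⁻¹ • (μ • v + (2 * t2) • br X (br H v) + t2 ^ 2 • sq2 br H v) =
          (t2⁻¹ * μ) • v + ((t2⁻¹ * t2) * 2) • br X (br H v) + ((t2⁻¹ * t2) * t2) • sq2 br H v := by
        module
      rw [h1, inv_mul_cancel₀ ht2p, one_mul, one_mul, smul_smul] at this
      have h2 : a2 = t2⁻¹ * c2 - t2⁻¹ * μ := by
        show (c2 - μ) / t2 = _
        field_simp
      rw [h2, sub_smul, ← this]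
      abel
    have f3 : (t1 - t2) • sq2 br H v = (a1 - a2) • v := by
      rw [sub_smul, sub_smul, ← f1, ← f2]
      abel
    have f4 : sq2 br H v = q • v := by
      have : (t1 - t2)⁻¹ • ((t1 - t2) • sq2 br H v) = (t1 - t2)⁻¹ • ((a1 - a2) • v) := by rw [f3]
      rw [smul_smul, inv_mul_cancel₀ ht12, one_smul, smul_smul] at this
      rw [this]
      congr 1
      show _ = (a1 - a2) / (t1 - t2)
      rw [div_eq_inv_mul]
    refine ⟨?_, f4⟩
    rw [f4] at f1
    have : (2 : ℝ)⁻¹ • ((2 : ℝ) • br X (br H v)) = (2 : ℝ)⁻¹ • (a1 • v - t1 • q • v) := by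
      rw [← f1]; congr 1; abel
    rw [smul_smul, inv_mul_cancel₀ (two_ne_zero), one_smul] at this
    rw [this]
    module
  by_cases hμ0 : μ = 0
  · subst hμ0
    refine ⟨0, fun v hv => ?_⟩
    rw [zero_smul]
    by_cases hH0 : H = 0
    · rw [hH0]; simp
    have hHmem : H ∈ (sq2 br X).eigenspace 0 := by
      rw [mem_eigenspace_iff, sq2_apply, hH]; simp
    have h1 := (hpq H hHmem).2
    rw [sq2_apply, br_self br alt, map_zero] at h1
    have hq : q = 0 := by
      rcases smul_eq_zero.1 h1.symm with h | h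
      · exact h
      · exact absurd h hH0
    have h2 := (hpq v hv).2
    rw [hq, zero_smul, sq2_apply] at h2
    exact br_eq_zero_of br skew h2
  · refine ⟨p / μ, fun v hv => ?_⟩
    have h1 := (hpq v hv).1
    have h2 : sq2 br X (br H v) = μ • br H v := mem_eigenspace_iff.1 (eig_inv br jac hH hv)
    rw [sq2_apply, h1, map_smul] at h2
    have h3 : μ⁻¹ • (p • br X v) = μ⁻¹ • (μ • br H v) := by rw [h2]
    rw [smul_smul, smul_smul, inv_mul_cancel₀ hμ0, one_smul] at h3
    rw [← h3, div_eq_inv_mul]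

include alt jac skew in
/-- The nonzero eigenspaces are two-dimensional. -/
lemma mult_one {X : V} (hX : ∀ Y, (evs br Y).ncard ≤ (evs br X).ncard) {μ : ℝ} (hμ : μ ≠ 0)
    {e F : V} (he : e ∈ (sq2 br X).eigenspace μ) (he0 : e ≠ 0)
    (hF : F ∈ (sq2 br X).eigenspace μ) (h1 : inner ℝ e F = 0) (h2 : inner ℝ (br X e) F = 0) :
    F = 0 := by
  have skew' : ∀ x y z, inner ℝ y (br x z) = - inner ℝ (br x y) z := fun x y z => by
    rw [skew]; simp
  have heX : br X (br X e) = μ • e := mem_eigenspace_iff.1 he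
  have hFX : br X (br X F) = μ • F := mem_eigenspace_iff.1 hF
  have hμneg : μ < 0 := by
    have h3 := inner_sq2 br skew X e
    rw [sq2_apply, heX, inner_smul_left] at h3
    simp only [conj_trivial] at h3
    rw [real_inner_self_eq_norm_sq] at h3
    have h4 : 0 < ‖e‖ ^ 2 := by
      have := norm_pos_iff.2 he0
      positivity
    rcases lt_or_gt_of_ne hμ with h | h
    · exact h
    · nlinarith [sq_nonneg ‖br X e‖]
  have he'0 : br X e ≠ 0 := by
    intro h
    rw [h, map_zero] at heX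
    exact (smul_ne_zero hμ he0) heX.symm
  have he'm := eig_inv_self br he
  have hF'm := eig_inv_self br hF
  -- orthogonality to the centraliser
  have hperp : ∀ P : V, br X P = 0 → (∀ H, br X H = 0 → inner ℝ P H = 0) → P = 0 := by
    intro P hP hPH
    exact inner_self_eq_zero.1 (hPH P hP)
  have hXFe : inner ℝ (br X F) e = 0 := by
    rw [skew, real_inner_comm, h2, neg_zero]
  have hXFe' : inner ℝ (br X F) (br X e) = 0 := by
    rw [skew, heX, inner_smul_right, real_inner_comm, h1]
    simp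
  have hP1 : (-μ) • br e F + br (br X e) (br X F) = 0 := by
    apply hperp
    · rw [map_add, map_smul, jac X e F, jac X (br X e) (br X F), heX, hFX]
      simp only [map_smul, LinearMap.smul_apply]
      module
    · intro H hH
      obtain ⟨c, hc⟩ := scalars br alt jac skew hX hH μ
      have e1 : inner ℝ (br e F) H = 0 := by
        rw [skew, alt e H, inner_neg_right, neg_neg, hc e he, inner_smul_right, real_inner_comm, h2,
          mul_zero]
      have e2 : inner ℝ (br (br X e) (br X F)) H = 0 := by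
        rw [skew, alt (br X e) H, inner_neg_right, neg_neg, hc _ he'm, inner_smul_right, heX,
          inner_smul_right, hXFe, mul_zero, mul_zero]
      rw [inner_add_left, inner_smul_left, e1, e2]
      simp
  have hP2 : br (br X e) F - br e (br X F) = 0 := by
    apply hperp
    · rw [map_sub, jac X (br X e) F, jac X e (br X F), heX, hFX]
      simp only [map_smul, LinearMap.smul_apply]
      module
    · intro H hH
      obtain ⟨c, hc⟩ := scalars br alt jac skew hX hH μ
      have e1 : inner ℝ (br (br X e) F) H = 0 := by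
        rw [skew, alt (br X e) H, inner_neg_right, neg_neg, hc _ he'm, inner_smul_right, heX,
          inner_smul_right, real_inner_comm, h1]
        simp
      have e2 : inner ℝ (br e (br X F)) H = 0 := by
        rw [skew, alt e H, inner_neg_right, neg_neg, hc e he, inner_smul_right, hXFe', mul_zero]
      rw [inner_sub_left, e1, e2, sub_zero]
  set K := br e (br X e) with hK
  have hXK : br X K = 0 := by
    rw [hK, jac X e (br X e), br_self br alt, heX, map_smul, br_self br alt]
    simp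
  obtain ⟨c, hc⟩ := scalars br alt jac skew hX hXK μ
  have hcK : inner ℝ K K = c * ‖br X e‖ ^ 2 := by
    nth_rewrite 1 [hK]
    rw [skew, alt e K, inner_neg_right, neg_neg, hc e he, inner_smul_right,
      real_inner_self_eq_norm_sq]
  have hKX : inner ℝ K X = ‖br X e‖ ^ 2 := by
    rw [hK, skew, alt e X, inner_neg_right, neg_neg, real_inner_self_eq_norm_sq]
  have he'pos : 0 < ‖br X e‖ ^ 2 := by
    have := norm_pos_iff.2 he'0
    positivity
  have hcpos : 0 < c := by
    have hK0 : K ≠ 0 := by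
      intro h
      rw [h, inner_zero_left] at hKX
      linarith
    have h3 : 0 < inner ℝ K K := by
      rw [real_inner_self_eq_norm_sq]
      have := norm_pos_iff.2 hK0
      positivity
    rw [hcK] at h3
    by_contra hcn
    push Not at hcn
    nlinarith
  have hbrK : br K F = br e (br (br X e) F) - br (br X e) (br e F) := by
    have := jac e (br X e) F
    rw [this, hK]
    abel
  have hP1' : br e F = μ⁻¹ • br (br X e) (br X F) := by
    have h3 : br (br X e) (br X F) = μ • br e F := by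
      have := eq_neg_of_add_eq_zero_right hP1
      rw [this]
      module
    rw [h3, smul_smul, inv_mul_cancel₀ hμ, one_smul]
  have hP2' : br (br X e) F = br e (br X F) := sub_eq_zero.1 hP2
  have hfin : c * ‖br X F‖ ^ 2 ≤ 0 := by
    have h3 : inner ℝ (br K F) (br X F) = c * ‖br X F‖ ^ 2 := by
      rw [hc F hF, inner_smul_left, real_inner_self_eq_norm_sq]
      simp
    rw [← h3, hbrK, hP2', hP1', map_smul, inner_sub_left, inner_smul_left, skew e, skew (br X e),
      real_inner_self_eq_norm_sq, real_inner_self_eq_norm_sq]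
    simp only [conj_trivial]
    have h4 : μ⁻¹ < 0 := inv_lt_zero.2 hμneg
    nlinarith [sq_nonneg ‖br e (br X F)‖, mul_nonneg (neg_nonneg.2 h4.le) (sq_nonneg ‖br (br X e) (br X F)‖)]
  have hXF0 : br X F = 0 := by
    have h3 : ‖br X F‖ ^ 2 ≤ 0 := by
      by_contra h4
      push Not at h4
      nlinarith
    have h4 : ‖br X F‖ = 0 := by
      have := sq_nonneg ‖br X F‖
      exact pow_eq_zero_iff two_ne_zero |>.1 (le_antisymm h3 this)
    exact norm_eq_zero.1 h4
  rw [hXF0, map_zero] at hFX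
  rcases smul_eq_zero.1 hFX.symm with h | h
  · exact absurd h hμ
  · exact h

/-- extracting the components of a vector of an invariant subspace -/
lemma comp_mem {T : Module.End ℝ V} {h : Submodule ℝ V} (hT : ∀ v ∈ h, T v ∈ h) (s : Finset ℝ)
    (y : ℝ → V) (hy : ∀ μ ∈ s, T (y μ) = μ • y μ) (hs : ∑ μ ∈ s, y μ ∈ h) :
    ∀ μ ∈ s, y μ ∈ h := by
  classical
  induction s using Finset.induction_on generalizing y with
  | empty => intro μ hμ; simp at hμ
  | insert a s ha ih =>
    have h1 : ∑ μ ∈ s, (μ - a) • y μ ∈ h := by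
      have h2 := hT _ hs
      have h3 := h.sub_mem h2 (h.smul_mem a hs)
      have h4 : T (∑ μ ∈ insert a s, y μ) - a • ∑ μ ∈ insert a s, y μ =
          ∑ μ ∈ insert a s, (μ - a) • y μ := by
        rw [map_sum, Finset.smul_sum, ← Finset.sum_sub_distrib]
        refine Finset.sum_congr rfl fun μ hμ => ?_
        rw [hy μ hμ, sub_smul]
      rw [h4, Finset.sum_insert ha, sub_self, zero_smul, zero_add] at h3
      exact h3
    have h2 := ih (fun μ => (μ - a) • y μ) (fun μ hμ => by
      rw [map_smul, hy μ (Finset.mem_insert_of_mem hμ), smul_comm]) h1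
    have h3 : ∀ μ ∈ s, y μ ∈ h := by
      intro μ hμ
      have h4 := h2 μ hμ
      have h5 : μ - a ≠ 0 := by
        intro h6
        rw [sub_eq_zero.1 h6] at hμ
        exact ha hμ
      have h6 := h.smul_mem (μ - a)⁻¹ h4
      rwa [smul_smul, inv_mul_cancel₀ h5, one_smul] at h6
    intro μ hμ
    rcases Finset.mem_insert.1 hμ with rfl | h4
    · rw [Finset.sum_insert ha] at hs
      have := h.sub_mem hs (h.sum_mem h3)
      rwa [add_sub_cancel_right] at this
    · exact h3 μ h4

include alt jac skew in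
/-- **Two-generation**: no proper subalgebra contains both `X` and `Y`. -/
theorem gen2 (cent : ∀ x, (∀ y, br x y = 0) → x = 0) :
    ∃ X Y : V, ∀ h : Submodule ℝ V, X ∈ h → Y ∈ h → (∀ a ∈ h, ∀ b ∈ h, br a b ∈ h) → h = ⊤ := by
  classical
  have skew' : ∀ x y z, inner ℝ y (br x z) = - inner ℝ (br x y) z := fun x y z => by
    rw [skew]; simp
  obtain ⟨X, hX⟩ := exists_max br
  set s : Finset ℝ := (evs_finite br X).toFinset.erase 0 with hs
  have hsmem : ∀ μ, μ ∈ s ↔ μ ≠ 0 ∧ μ ∈ evs br X := by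
    intro μ
    rw [hs, Finset.mem_erase, Set.Finite.mem_toFinset]
  have hex : ∀ μ : ℝ, ∃ e : V, μ ∈ s → e ∈ (sq2 br X).eigenspace μ ∧ e ≠ 0 := by
    intro μ
    by_cases hμ : μ ∈ s
    · have h1 : (sq2 br X).HasEigenvalue μ := ((hsmem μ).1 hμ).2
      obtain ⟨e, he⟩ := h1.exists_hasEigenvector
      exact ⟨e, fun _ => ⟨he.1, he.2⟩⟩
    · exact ⟨0, fun h => absurd h hμ⟩
  choose e he using hex
  refine ⟨X, ∑ μ ∈ s, e μ, fun h hXh hYh hbr => ?_⟩
  have h1 : ∀ μ ∈ s, e μ ∈ h := comp_mem (T := sq2 br X)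
    (fun v hv => hbr _ hXh _ (hbr _ hXh _ hv)) s e
    (fun μ hμ => mem_eigenspace_iff.1 (he μ hμ).1) hYh
  have h2 : ∀ μ ≠ 0, ∀ F ∈ (sq2 br X).eigenspace μ, F ∈ h := by
    intro μ hμ0 F hF
    by_cases hF0 : F = 0
    · rw [hF0]; exact h.zero_mem
    have hμs : μ ∈ s := (hsmem μ).2 ⟨hμ0, hasEigenvalue_of_hasEigenvector
      (hasEigenvector_iff.2 ⟨hF, hF0⟩)⟩
    have heE := (he μ hμs).1
    have hee0 := (he μ hμs).2
    set a := e μ with ha
    set a' := br X a with ha'
    have haX : br X a' = μ • a := mem_eigenspace_iff.1 heE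
    have ha'0 : a' ≠ 0 := by
      intro h3
      rw [h3, map_zero] at haX
      exact (smul_ne_zero hμ0 hee0) haX.symm
    have hn : ‖a‖ ^ 2 ≠ 0 := pow_ne_zero 2 (norm_ne_zero_iff.2 hee0)
    have hn' : ‖a'‖ ^ 2 ≠ 0 := pow_ne_zero 2 (norm_ne_zero_iff.2 ha'0)
    have hort : inner ℝ a a' = 0 := by
      have h3 := skew X a a
      rw [← ha', real_inner_comm a a'] at h3
      linarith
    have hort' : inner ℝ a' a = 0 := by rw [real_inner_comm]; exact hort
    set G := F - (inner ℝ a F / ‖a‖ ^ 2) • a - (inner ℝ a' F / ‖a'‖ ^ 2) • a' with hG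
    have hGE : G ∈ (sq2 br X).eigenspace μ := by
      refine Submodule.sub_mem _ (Submodule.sub_mem _ hF (Submodule.smul_mem _ _ heE))
        (Submodule.smul_mem _ _ (eig_inv_self br heE))
    have hG1 : inner ℝ a G = 0 := by
      rw [hG, inner_sub_right, inner_sub_right, inner_smul_right, inner_smul_right, hort,
        real_inner_self_eq_norm_sq]
      field_simp
      ring
    have hG2 : inner ℝ a' G = 0 := by
      rw [hG, inner_sub_right, inner_sub_right, inner_smul_right, inner_smul_right, hort',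
        real_inner_self_eq_norm_sq]
      field_simp
      ring
    have hG0 := mult_one br alt jac skew hX hμ0 heE hee0 hGE hG1 hG2
    have hFeq : F = (inner ℝ a F / ‖a‖ ^ 2) • a + (inner ℝ a' F / ‖a'‖ ^ 2) • a' := by
      have h3 : F = G + (inner ℝ a F / ‖a‖ ^ 2) • a + (inner ℝ a' F / ‖a'‖ ^ 2) • a' := by
        rw [hG]; abel
      rw [hG0, zero_add] at h3
      exact h3
    rw [hFeq]
    exact h.add_mem (h.smul_mem _ (h1 μ hμs)) (h.smul_mem _ (hbr _ hXh _ (h1 μ hμs)))
  have htop := (sq2_symm br skew X).orthogonalComplement_iSup_eigenspaces_eq_bot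
  rw [Submodule.orthogonal_eq_bot_iff] at htop
  rw [← Submodule.orthogonal_eq_bot_iff, Submodule.eq_bot_iff]
  intro Z hZ
  have hZh : ∀ v ∈ h, inner ℝ v Z = 0 := fun v hv => (Submodule.mem_orthogonal _ _).1 hZ v hv
  have hXZ : br X Z = 0 := by
    apply br_eq_zero_of br skew
    have h3 : ∀ v ∈ (⨆ μ, (sq2 br X).eigenspace μ), inner ℝ v (sq2 br X Z) = 0 := by
      intro v hv
      induction hv using Submodule.iSup_induction' with
      | mem μ v hv =>
        have h4 := (sq2_symm br skew X) v Z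
        rw [← h4, mem_eigenspace_iff.1 hv, inner_smul_left]
        by_cases hμ : μ = 0
        · rw [hμ]; simp
        · rw [hZh v (h2 μ hμ v hv)]; simp
      | zero => simp
      | add x y _ _ hx hy => rw [inner_add_left, hx, hy, add_zero]
    have h4 := h3 (sq2 br X Z) (by rw [htop]; trivial)
    exact inner_self_eq_zero.1 h4
  apply cent
  have h3 : ∀ v ∈ (⨆ μ, (sq2 br X).eigenspace μ), br Z v = 0 := by
    intro v hv
    induction hv using Submodule.iSup_induction' with
    | mem μ v hv =>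
      obtain ⟨c, hc⟩ := scalars br alt jac skew hX hXZ μ
      by_cases hμ : μ = 0
      · subst hμ
        rw [hc v hv]
        have h4 : br X (br X v) = 0 := by
          have := mem_eigenspace_iff.1 hv
          rwa [zero_smul] at this
        rw [br_eq_zero_of br skew h4, smul_zero]
      · by_cases hv0 : v = 0
        · rw [hv0, map_zero]
        have h5 : inner ℝ (br v (br X v)) Z = 0 :=
          hZh _ (hbr _ (h2 μ hμ v hv) _ (hbr _ hXh _ (h2 μ hμ v hv)))
        rw [skew, alt v Z, inner_neg_right, neg_neg, hc v hv, inner_smul_right,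
          real_inner_self_eq_norm_sq] at h5
        rcases mul_eq_zero.1 h5 with h6 | h6
        · rw [hc v hv, h6, zero_smul]
        · have h7 : br X v = 0 := norm_eq_zero.1 (pow_eq_zero_iff two_ne_zero |>.1 h6)
          rw [hc v hv, h7, smul_zero]
    | zero => simp
    | add x y _ _ hx hy => rw [map_add, hx, hy, add_zero]
  intro v
  exact h3 v (by rw [htop]; trivial)

end gen

/-- Two-generation for an algebra with a positive definite invariant bilinear form. -/
theorem gen2' {V : Type*} [AddCommGroup V] [Module ℝ V] [FiniteDimensional ℝ V]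
    (B : V →ₗ[ℝ] V →ₗ[ℝ] ℝ) (hB : ∀ x y, B x y = B y x) (hB0 : ∀ x, 0 ≤ B x x)
    (hB1 : ∀ x, B x x = 0 → x = 0) (br : V →ₗ[ℝ] V →ₗ[ℝ] V)
    (alt : ∀ x y, br x y = - br y x)
    (jac : ∀ x y z, br x (br y z) = br (br x y) z + br y (br x z))
    (skew : ∀ x y z, B (br x y) z = - B y (br x z))
    (cent : ∀ x, (∀ y, br x y = 0) → x = 0) :
    ∃ X Y : V, ∀ h : Submodule ℝ V, X ∈ h → Y ∈ h → (∀ a ∈ h, ∀ b ∈ h, br a b ∈ h) → h = ⊤ := by
  let core : InnerProductSpace.Core ℝ V :=
    { inner := fun x y => B x y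
      conj_inner_symm := fun x y => by simp only [conj_trivial]; exact hB y x
      re_inner_nonneg := fun x => hB0 x
      add_left := fun x y z => by
        show B (x + y) z = B x z + B y z
        rw [map_add]; rfl
      smul_left := fun x y r => by
        show B (r • x) y = _ * B x y
        rw [map_smul]; rfl
      definite := fun x h => hB1 x h }
  letI : NormedAddCommGroup V := core.toNormedAddCommGroup
  letI : InnerProductSpace ℝ V := InnerProductSpace.ofCore core.toCore
  exact gen2 br alt jac skew cent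

end

end Run7.h421
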