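import Pool.Agent.Run7.h421.Zero3

/-!
# Finite coverings: compactness
-/

set_option autoImplicit false
set_option linter.unusedSectionVars false

namespace Run7.h421

open MeasureTheory InnerProductSpace Topology Set
open scoped ComplexConjugate

noncomputable section

section hs

variable {G : Type*} [TopologicalSpace G] [Group G] [IsTopologicalGroup G] [CompactSpace G]
  [T2Space G] [MeasurableSpace G] [BorelSpace G] (μ : Measure G) [μ.IsHaarMeasure]

/-- The Hilbert-Schmidt bound. -/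
lemma hs_bound (k : C(G, ℝ)) {m : ℕ} (e : Fin m → Lp ℂ 2 μ) (he : Orthonormal ℂ e) :
    ∑ i, ‖ContinuousMap.toLp 2 μ ℂ (Bop μ k (e i))‖ ^ 2 ≤ ‖kl μ k‖ ^ 2 * μ.real univ := by
  have h1 : ∀ x, ∑ i, ‖Bop μ k (e i) x‖ ^ 2 ≤ ‖kl μ k‖ ^ 2 := by
    intro x
    have h2 := he.sum_inner_products_le (kl μ k x) (s := Finset.univ)
    have h3 : ‖kl μ k x‖ ^ 2 ≤ ‖kl μ k‖ ^ 2 :=
      pow_le_pow_left₀ (norm_nonneg _) (ContinuousMap.norm_coe_le_norm (kl μ k) x) 2
    refine le_trans (le_of_eq ?_) (h2.trans h3)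
    refine Finset.sum_congr rfl fun i _ => ?_
    rw [Bop_apply, ← inner_conj_symm, RCLike.norm_conj]
  simp_rw [norm_toLp_sq]
  rw [← integral_finset_sum]
  · have h5 : ‖kl μ k‖ ^ 2 * μ.real univ = ∫ _x : G, ‖kl μ k‖ ^ 2 ∂μ := by
      rw [integral_const, smul_eq_mul, mul_comm]
    rw [h5]
    refine integral_mono_of_nonneg (Filter.Eventually.of_forall fun x =>
      Finset.sum_nonneg fun i _ => by positivity) (integrable_const _)
      (Filter.Eventually.of_forall h1)
  · intro i _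
    exact integrable_cont μ ((Bop μ k (e i)).continuous.norm.pow 2)

/-- The pairing bound. -/
lemma pair_bound (k : C(G, ℝ)) (z : G) {m : ℕ} (e : Fin m → Lp ℂ 2 μ) (he : Orthonormal ℂ e) :
    ∑ i, ‖∫ u, (k u : ℂ) * inner ℂ (lreg μ (u * z) (e i)) (e i) ∂μ‖ ≤
      Real.sqrt m * Real.sqrt (‖kl μ k‖ ^ 2 * μ.real univ) := by
  -- the operator
  set g : Fin m → Lp ℂ 2 μ := fun i => lreg μ z (e i) with hg
  have hgo : Orthonormal ℂ g := by
    rw [orthonormal_iff_ite] at he ⊢
    intro i j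
    rw [hg]
    simp only
    rw [LinearIsometryEquiv.inner_map_map]
    exact he i j
  have h1 : ∀ i, ‖∫ u, (k u : ℂ) * inner ℂ (lreg μ (u * z) (e i)) (e i) ∂μ‖ ≤
      ‖ContinuousMap.toLp 2 μ ℂ (Bop μ k (g i))‖ := by
    intro i
    have h2 : (starRingEnd ℂ) (∫ u, (k u : ℂ) * inner ℂ (lreg μ (u * z) (e i)) (e i) ∂μ) =
        inner ℂ (e i) (ContinuousMap.toLp 2 μ ℂ (Bop μ k (g i))) := by
      rw [Bop_eq]
      have h3 := integral_inner (𝕜 := ℂ) (conv_integrable μ k (g i)) (e i)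
      rw [← h3, ← integral_conj]
      refine integral_congr_ae (Filter.Eventually.of_forall fun u => ?_)
      show (starRingEnd ℂ) ((k u : ℂ) * inner ℂ (lreg μ (u * z) (e i)) (e i)) =
        inner ℂ (e i) ((k u : ℂ) • lreg μ u (g i))
      rw [inner_smul_right, map_mul, Complex.conj_ofReal, hg, ← pi_mul, inner_conj_symm]
    rw [← RCLike.norm_conj, h2]
    refine (norm_inner_le_norm _ _).trans ?_
    rw [he.1 i, one_mul]
  refine (Finset.sum_le_sum fun i _ => h1 i).trans ?_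
  have h2 : (∑ i, ‖ContinuousMap.toLp 2 μ ℂ (Bop μ k (g i))‖) ^ 2 ≤
      m * ∑ i, ‖ContinuousMap.toLp 2 μ ℂ (Bop μ k (g i))‖ ^ 2 := by
    have := sq_sum_le_card_mul_sum_sq (s := (Finset.univ : Finset (Fin m)))
      (f := fun i => ‖ContinuousMap.toLp 2 μ ℂ (Bop μ k (g i))‖)
    rwa [Finset.card_univ, Fintype.card_fin] at this
  rw [← Real.sqrt_mul (Nat.cast_nonneg _)]
  refine Real.le_sqrt_of_sq_le (h2.trans ?_)
  exact mul_le_mul_of_nonneg_left (hs_bound μ k g hgo) (Nat.cast_nonneg _)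

/-- the kernel is bounded -/
lemma kl_bound (k : C(G, ℝ)) {M : ℝ} (hM : 0 ≤ M) (hk : ∀ g, |k g| ≤ M) :
    ‖kl μ k‖ ^ 2 * μ.real univ ≤ (M * μ.real univ) ^ 2 := by
  have h1 : ‖kl μ k‖ ≤ Real.sqrt (M ^ 2 * μ.real univ) := by
    rw [ContinuousMap.norm_le _ (Real.sqrt_nonneg _)]
    intro x
    refine Real.le_sqrt_of_sq_le ?_
    have h2 : ‖kl μ k x‖ ^ 2 = ∫ y, ‖((k (x * y⁻¹) : ℝ) : ℂ)‖ ^ 2 ∂μ := norm_toLp_sq μ _
    rw [h2]
    have h3 : M ^ 2 * μ.real univ = ∫ _y : G, M ^ 2 ∂μ := by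
      rw [integral_const, smul_eq_mul, mul_comm]
    rw [h3]
    refine integral_mono_of_nonneg (Filter.Eventually.of_forall fun y => by positivity)
      (integrable_const _) (Filter.Eventually.of_forall fun y => ?_)
    show ‖((k (x * y⁻¹) : ℝ) : ℂ)‖ ^ 2 ≤ M ^ 2
    rw [Complex.norm_real]
    exact pow_le_pow_left₀ (norm_nonneg _) (hk _) 2
  have h2 : ‖kl μ k‖ ^ 2 ≤ M ^ 2 * μ.real univ := by
    have := pow_le_pow_left₀ (norm_nonneg _) h1 2
    rwa [Real.sq_sqrt (by positivity)] at this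
  have h3 := mul_le_mul_of_nonneg_right h2 (measureReal_nonneg (μ := μ) (s := univ))
  calc ‖kl μ k‖ ^ 2 * μ.real univ ≤ M ^ 2 * μ.real univ * μ.real univ := h3
    _ = (M * μ.real univ) ^ 2 := by ring

/-- A space with orthonormal families of bounded size only is finite-dimensional. -/
lemma fd_of_card (V : Submodule ℂ (Lp ℂ 2 μ)) (N : ℕ)
    (h : ∀ (m : ℕ) (e : Fin m → Lp ℂ 2 μ), Orthonormal ℂ e → (∀ i, e i ∈ V) → m ≤ N) :
    FiniteDimensional ℂ V := by
  have hr : Module.rank ℂ V ≤ N := by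
    refine rank_le fun s hs => ?_
    set W : Submodule ℂ V := Submodule.span ℂ (s : Set V) with hW
    haveI : FiniteDimensional ℂ W := FiniteDimensional.span_finset ℂ s
    have hcard : Module.finrank ℂ W = s.card := by
      have := finrank_span_eq_card hs
      rw [Fintype.card_coe] at this
      have h9 : Set.range (fun i : s => (i : V)) = (s : Set V) := by
        ext v; simp
      rw [h9] at this
      exact this
    let b := stdOrthonormalBasis ℂ W
    have hb : Orthonormal ℂ (fun i => ((b i : V) : Lp ℂ 2 μ)) := by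
      have h1 := b.orthonormal
      have h2 := h1.comp_linearIsometry W.subtypeₗᵢ
      exact h2.comp_linearIsometry V.subtypeₗᵢ
    have := h _ _ hb (fun i => (b i : V).2)
    rw [← hcard]
    exact this
  exact Module.rank_lt_aleph0_iff.1 (hr.trans_lt (Cardinal.natCast_lt_aleph0 (n := N)))

end hs

end

end Run7.h421
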