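import Pool.Agent.Run7.h421.Iso1
import Mathlib.Analysis.InnerProductSpace.TensorProduct

/-!
# Finite coverings: descending representations
-/

set_option autoImplicit false
set_option linter.unusedSectionVars false

namespace Run7.h421

open MeasureTheory InnerProductSpace Topology Set
open scoped ComplexConjugate TensorProduct

noncomputable section

section res

variable {Γ : Type*} [Group Γ] {E : Type*} [NormedAddCommGroup E] [InnerProductSpace ℂ E]

/-- restriction of an isometric equivalence to an invariant subspace -/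
def resIso (e : E ≃ₗᵢ[ℂ] E) (K : Submodule ℂ E) (h : ∀ x ∈ K, e x ∈ K)
    (h' : ∀ x ∈ K, e.symm x ∈ K) : K ≃ₗᵢ[ℂ] K where
  toFun x := ⟨e x, h x x.2⟩
  invFun x := ⟨e.symm x, h' x x.2⟩
  left_inv x := Subtype.ext (e.symm_apply_apply (x : E))
  right_inv x := Subtype.ext (e.apply_symm_apply (x : E))
  map_add' x y := Subtype.ext (map_add e (x : E) y)
  map_smul' c x := Subtype.ext (map_smul e c (x : E))
  norm_map' x := e.norm_map (x : E)

lemma resIso_coe (e : E ≃ₗᵢ[ℂ] E) (K : Submodule ℂ E) (h : ∀ x ∈ K, e x ∈ K)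
    (h' : ∀ x ∈ K, e.symm x ∈ K) (x : K) : (resIso e K h h' x : E) = e x := rfl

variable (π : Γ →* (E ≃ₗᵢ[ℂ] E))

lemma symm_eq (g : Γ) (x : E) : (π g).symm x = π g⁻¹ x := by
  rw [LinearIsometryEquiv.symm_apply_eq]
  have h : π g (π g⁻¹ x) = π (g * g⁻¹) x := by rw [map_mul]; rfl
  rw [h, mul_inv_cancel, map_one]
  rfl

/-- restriction of a representation -/
def resRep (V : Submodule ℂ E) (hV : ∀ g, ∀ x ∈ V, π g x ∈ V) : Γ →* (V ≃ₗᵢ[ℂ] V) where
  toFun g := resIso (π g) V (hV g) (fun x hx => by rw [symm_eq]; exact hV _ x hx)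
  map_one' := by
    ext1 x
    apply Subtype.ext
    rw [resIso_coe, map_one]
    rfl
  map_mul' g h := by
    ext1 x
    apply Subtype.ext
    rw [resIso_coe, map_mul]
    rfl

lemma resRep_coe (V : Submodule ℂ E) (hV : ∀ g, ∀ x ∈ V, π g x ∈ V) (g : Γ) (x : V) :
    (resRep π V hV g x : E) = π g x := rfl

end res

section tns

variable {Γ : Type*} [Group Γ] {E F : Type*} [NormedAddCommGroup E] [InnerProductSpace ℂ E]
  [NormedAddCommGroup F] [InnerProductSpace ℂ F] (π : Γ →* (E ≃ₗᵢ[ℂ] E)) (ρ : Γ →* (F ≃ₗᵢ[ℂ] F))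

/-- tensor product of representations -/
def tns : Γ →* ((E ⊗[ℂ] F) ≃ₗᵢ[ℂ] (E ⊗[ℂ] F)) where
  toFun g := TensorProduct.congrIsometry (π g) (ρ g)
  map_one' := by
    ext1 x
    rw [map_one, map_one]
    induction x using TensorProduct.induction_on with
    | zero => simp
    | tmul x y => simp; rfl
    | add x y hx hy => rw [map_add, hx, hy]; rfl
  map_mul' g h := by
    ext1 x
    show _ = TensorProduct.congrIsometry (π g) (ρ g) (TensorProduct.congrIsometry (π h) (ρ h) x)
    induction x using TensorProduct.induction_on with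
    | zero => simp
    | tmul x y => simp; rfl
    | add x y hx hy => rw [map_add, map_add, map_add, hx, hy]

lemma tns_tmul (g : Γ) (x : E) (y : F) : tns π ρ g (x ⊗ₜ y) = (π g x) ⊗ₜ (ρ g y) := by
  show TensorProduct.congrIsometry (π g) (ρ g) (x ⊗ₜ y) = _
  simp

lemma tns_cont [TopologicalSpace Γ] (hπ : ∀ v, Continuous fun g => π g v)
    (hρ : ∀ v, Continuous fun g => ρ g v) (x : E ⊗[ℂ] F) : Continuous fun g => tns π ρ g x := by
  induction x using TensorProduct.induction_on with
  | zero => simp only [map_zero]; exact continuous_const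
  | tmul x y =>
    simp_rw [tns_tmul]
    exact TensorProduct.continuous_tmul.comp ((hπ x).prodMk (hρ y))
  | add x y hx hy =>
    simp_rw [map_add]
    exact hx.add hy

end tns

section descend

variable {G G' : Type*} [Group G] [Group G'] (p : G →* G') (hps : Function.Surjective p)
  {E : Type*} [NormedAddCommGroup E] [InnerProductSpace ℂ E] (τ : G →* (E ≃ₗᵢ[ℂ] E))

lemma tau_mul (g h : G) (x : E) : τ (g * h) x = τ g (τ h x) := by rw [map_mul]; rfl

/-- the vectors fixed by the kernel -/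
def KZ : Submodule ℂ E where
  carrier := {x | ∀ z ∈ p.ker, τ z x = x}
  add_mem' := by
    intro a b ha hb z hz
    rw [map_add, ha z hz, hb z hz]
  zero_mem' := fun z _ => map_zero _
  smul_mem' := by
    intro c x hx z hz
    rw [map_smul, hx z hz]

lemma mem_KZ {x : E} : x ∈ KZ p τ ↔ ∀ z ∈ p.ker, τ z x = x := Iff.rfl

lemma KZ_inv (g : G) (x : E) (hx : x ∈ KZ p τ) : τ g x ∈ KZ p τ := by
  intro z hz
  have h1 : z * g = g * (g⁻¹ * z * g) := by group
  have h2 : g⁻¹ * z * g ∈ p.ker := by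
    have := (inferInstance : p.ker.Normal).conj_mem z hz g⁻¹
    rwa [inv_inv] at this
  rw [← tau_mul, h1, tau_mul, hx _ h2]

lemma tau_eq_of {g h : G} (e : p g = p h) {x : E} (hx : x ∈ KZ p τ) : τ g x = τ h x := by
  have h1 : h⁻¹ * g ∈ p.ker := by rw [MonoidHom.mem_ker, map_mul, map_inv, e, inv_mul_cancel]
  have h2 : g = h * (h⁻¹ * g) := by group
  rw [h2, tau_mul, hx _ h1]

/-- the descended representation -/
def dsc : G' →* (KZ p τ ≃ₗᵢ[ℂ] KZ p τ) where
  toFun g' := resIso (τ (Function.surjInv hps g')) (KZ p τ) (KZ_inv p τ _)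
    (fun x hx => by rw [symm_eq]; exact KZ_inv p τ _ x hx)
  map_one' := by
    ext1 x
    apply Subtype.ext
    rw [resIso_coe, tau_eq_of p τ (h := 1) (by rw [Function.surjInv_eq hps, map_one]) x.2, map_one]
    rfl
  map_mul' g h := by
    ext1 x
    apply Subtype.ext
    rw [resIso_coe, tau_eq_of p τ (h := Function.surjInv hps g * Function.surjInv hps h)
      (by rw [Function.surjInv_eq hps, map_mul, Function.surjInv_eq hps, Function.surjInv_eq hps]) x.2, tau_mul]
    rfl

lemma dsc_coe (g : G) (x : KZ p τ) : (dsc p hps τ (p g) x : E) = τ g x :=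
  tau_eq_of p τ (Function.surjInv_eq hps _) x.2

lemma dsc_cont [TopologicalSpace G] [TopologicalSpace G'] (hq : IsQuotientMap p)
    (hτ : ∀ v, Continuous fun g => τ g v) (x : KZ p τ) : Continuous fun g' => dsc p hps τ g' x := by
  rw [hq.continuous_iff]
  refine Continuous.subtype_mk (f := fun g => (dsc p hps τ (p g) x : E)) ?_ _
  simp_rw [dsc_coe]
  exact hτ x

variable [Fintype p.ker]

/-- averaging over the kernel -/
def avk (x : E) : E := ∑ z : p.ker, τ z x

lemma avk_mem (x : E) : avk p τ x ∈ KZ p τ := by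
  intro z hz
  unfold avk
  rw [map_sum]
  refine Fintype.sum_equiv (Equiv.mulLeft (⟨z, hz⟩ : p.ker)) _ _ fun w => ?_
  rw [← tau_mul]
  rfl

/-- the correlation function -/
def Rk (x : E) (g : G) : ℝ := (∑ z : p.ker, inner ℂ (τ (g * z) x) x).re

lemma inner_avk (x : E) (g : G) : (inner ℂ (τ g (avk p τ x)) (avk p τ x)).re =
    Fintype.card p.ker * Rk p τ x g := by
  have h1 : inner ℂ (τ g (avk p τ x)) (avk p τ x) =
      ∑ _z : p.ker, inner ℂ (τ g (avk p τ x)) x := by
    conv_lhs => rw [show avk p τ x = ∑ z : p.ker, τ z x from rfl]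
    rw [inner_sum]
    refine Finset.sum_congr rfl fun z _ => ?_
    have h2 : inner ℂ (τ g (avk p τ x)) (τ z x) = inner ℂ (τ z⁻¹ (τ g (avk p τ x))) x := by
      have h3 : τ g (avk p τ x) = τ z (τ z⁻¹ (τ g (avk p τ x))) := by
        rw [← tau_mul, mul_inv_cancel, map_one]; rfl
      conv_lhs => rw [h3]
      rw [LinearIsometryEquiv.inner_map_map]
    rw [show (∑ z : p.ker, τ z x) = avk p τ x from rfl, h2,
      KZ_inv p τ g _ (avk_mem p τ x) z⁻¹ (inv_mem z.2)]
  rw [h1, Finset.sum_const, Finset.card_univ, nsmul_eq_mul, Complex.mul_re, Complex.natCast_re,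
    Complex.natCast_im, zero_mul, sub_zero]
  congr 1
  unfold Rk avk
  rw [map_sum, sum_inner]
  congr 1
  refine Finset.sum_congr rfl fun z _ => ?_
  rw [tau_mul]

lemma norm_avk_sq (x : E) : ‖avk p τ x‖ ^ 2 = Fintype.card p.ker * Rk p τ x 1 := by
  rw [← inner_avk, map_one]
  exact (inner_self_eq_norm_sq (𝕜 := ℂ) _).symm

lemma norm_sub_avk_sq (x : E) (g : G) : ‖τ g (avk p τ x) - avk p τ x‖ ^ 2 =
    2 * Fintype.card p.ker * (Rk p τ x 1 - Rk p τ x g) := by
  have h1 := inner_avk p τ x g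
  rw [@norm_sub_sq ℂ, LinearIsometryEquiv.norm_map, norm_avk_sq]
  have h2 : RCLike.re (inner ℂ (τ g (avk p τ x)) (avk p τ x)) =
    Fintype.card p.ker * Rk p τ x g := h1
  rw [h2]
  ring

end descend

end

end Run7.h421
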