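import Pool.Agent.Run7.h421.Iso2

/-!
# Finite coverings: the descent inequality
-/

set_option autoImplicit false
set_option linter.unusedSectionVars false

namespace Run7.h421

open MeasureTheory InnerProductSpace Topology Set
open scoped ComplexConjugate TensorProduct

noncomputable section

variable {G G' : Type*} [TopologicalSpace G] [Group G] [IsTopologicalGroup G] [CompactSpace G]
  [TopologicalSpace G'] [Group G'] [IsTopologicalGroup G'] [CompactSpace G'] [T2Space G']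
  (p : G →* G') (hpc : Continuous p) (hps : Function.Surjective p) [Fintype p.ker]

/-- the correlation function of a pair of vectors -/
def Rp {E F : Type*} [NormedAddCommGroup E] [InnerProductSpace ℂ E]
    [NormedAddCommGroup F] [InnerProductSpace ℂ F] (π : G →* (E ≃ₗᵢ[ℂ] E)) (ρ : G →* (F ≃ₗᵢ[ℂ] F))
    (v : E) (w : F) (g : G) : ℝ :=
  (∑ z : p.ker, inner ℂ (π (g * z) v) v * inner ℂ (ρ (g * z) w) w).re

lemma Rp_eq {E F : Type*} [NormedAddCommGroup E] [InnerProductSpace ℂ E]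
    [NormedAddCommGroup F] [InnerProductSpace ℂ F] (π : G →* (E ≃ₗᵢ[ℂ] E)) (ρ : G →* (F ≃ₗᵢ[ℂ] F))
    (v : E) (w : F) (g : G) : Rp p π ρ v w g = Rk p (tns π ρ) (v ⊗ₜ w) g := by
  have h : ∀ z : p.ker, inner ℂ (tns π ρ (g * z) (v ⊗ₜ[ℂ] w)) (v ⊗ₜ[ℂ] w) =
      inner ℂ (π (g * z) v) v * inner ℂ (ρ (g * z) w) w := by
    intro z
    rw [tns_tmul, TensorProduct.inner_tmul]
  unfold Rp Rk
  simp_rw [h]

variable [MeasurableSpace G'] [BorelSpace G'] (ν : Measure G') [ν.IsHaarMeasure]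

include hpc hps in
/-- finite-dimensional case -/
lemma descent_fd {T : Type*} [NormedAddCommGroup T] [InnerProductSpace ℂ T] [FiniteDimensional ℂ T]
    (τ : G →* (T ≃ₗᵢ[ℂ] T)) (hτ : ∀ v, Continuous fun g => τ g v) (S : Finset G) (u : G) {a b : ℝ}
    (ha : 0 ≤ a) [DecidableEq G']
    (hL : ∀ f : Lp ℂ 2 ν, ‖lreg ν (p u) f - f‖ ^ 2 ≤
      a * dfc (lreg ν) (S.image p) 1 f + b * ‖f‖ ^ 2) (x : T) :
    2 * (Rk p τ x 1 - Rk p τ x u) ≤ a * ∑ s ∈ S, (Rk p τ x 1 - Rk p τ x s) + b * Rk p τ x 1 := by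
  haveI : CompleteSpace (KZ p τ) := FiniteDimensional.complete ℂ _
  have hq : IsQuotientMap p := hpc.isClosedMap.isQuotientMap hpc hps
  have h1 := transfer (dsc p hps τ) (dsc_cont p hps τ hq hτ) ν (Or.inl rfl : (1 : ℝ) = 1 ∨ _)
    (S.image p) (p u) hL ⟨avk p τ x, avk_mem p τ x⟩
  rw [dfc_eq (dsc p hps τ) _ (Or.inl rfl)] at h1
  have hn : ∀ g : G, ‖dsc p hps τ (p g) ⟨avk p τ x, avk_mem p τ x⟩ -
      (⟨avk p τ x, avk_mem p τ x⟩ : KZ p τ)‖ = ‖τ g (avk p τ x) - avk p τ x‖ := by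
    intro g
    have h2 : ‖dsc p hps τ (p g) ⟨avk p τ x, avk_mem p τ x⟩ -
      (⟨avk p τ x, avk_mem p τ x⟩ : KZ p τ)‖ =
      ‖((dsc p hps τ (p g) ⟨avk p τ x, avk_mem p τ x⟩ : KZ p τ) : T) - avk p τ x‖ := rfl
    rw [h2, dsc_coe]
  have h2 : ∑ s' ∈ S.image p, ‖dsc p hps τ s' ⟨avk p τ x, avk_mem p τ x⟩ -
      ((1 : ℝ) : ℂ) • (⟨avk p τ x, avk_mem p τ x⟩ : KZ p τ)‖ ^ 2 ≤
      ∑ s ∈ S, ‖τ s (avk p τ x) - avk p τ x‖ ^ 2 := by
    refine (Finset.sum_image_le_of_nonneg fun _ _ => by positivity).trans (le_of_eq ?_)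
    refine Finset.sum_congr rfl fun s _ => ?_
    rw [Complex.ofReal_one, one_smul, hn]
  have h3 : ‖(⟨avk p τ x, avk_mem p τ x⟩ : KZ p τ)‖ ^ 2 = Fintype.card p.ker * Rk p τ x 1 :=
    norm_avk_sq p τ x
  rw [hn, h3, norm_sub_avk_sq] at h1
  simp_rw [norm_sub_avk_sq] at h2
  rw [← Finset.mul_sum] at h2
  have hpos : (0 : ℝ) < Fintype.card p.ker := by
    exact_mod_cast Fintype.card_pos
  have h4 := mul_le_mul_of_nonneg_left h2 (by positivity : 0 ≤ a / 2)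
  have h5 : (Fintype.card p.ker : ℝ) * (2 * (Rk p τ x 1 - Rk p τ x u)) ≤
      (Fintype.card p.ker : ℝ) * (a * ∑ s ∈ S, (Rk p τ x 1 - Rk p τ x s) + b * Rk p τ x 1) := by
    nlinarith
  exact le_of_mul_le_mul_left h5 hpos

include hpc hps in
/-- **The descent inequality.** -/
theorem descent {E F : Type*} [NormedAddCommGroup E] [InnerProductSpace ℂ E] [CompleteSpace E]
    [NormedAddCommGroup F] [InnerProductSpace ℂ F] [CompleteSpace F]
    (π : G →* (E ≃ₗᵢ[ℂ] E)) (ρ : G →* (F ≃ₗᵢ[ℂ] F))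
    (hπ : ∀ v, Continuous fun g => π g v) (hρ : ∀ v, Continuous fun g => ρ g v)
    (S : Finset G) (u : G) {a b : ℝ} (ha : 0 ≤ a) [DecidableEq G']
    (hL : ∀ f : Lp ℂ 2 ν, ‖lreg ν (p u) f - f‖ ^ 2 ≤
      a * dfc (lreg ν) (S.image p) 1 f + b * ‖f‖ ^ 2) (v : E) (w : F) :
    2 * (Rp p π ρ v w 1 - Rp p π ρ v w u) ≤
      a * ∑ s ∈ S, (Rp p π ρ v w 1 - Rp p π ρ v w s) + b * Rp p π ρ v w 1 := by
  have hRc : ∀ g, Continuous fun q : E × F => Rp p π ρ q.1 q.2 g := by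
    intro g
    unfold Rp
    refine Complex.continuous_re.comp (continuous_finset_sum _ fun z _ => ?_)
    exact ((((π (g * z)).continuous.comp continuous_fst)).inner continuous_fst).mul
      ((((ρ (g * z)).continuous.comp continuous_snd)).inner continuous_snd)
  have hclosed : IsClosed {q : E × F | 2 * (Rp p π ρ q.1 q.2 1 - Rp p π ρ q.1 q.2 u) ≤
      a * ∑ s ∈ S, (Rp p π ρ q.1 q.2 1 - Rp p π ρ q.1 q.2 s) + b * Rp p π ρ q.1 q.2 1} := by
    refine isClosed_le (continuous_const.mul ((hRc 1).sub (hRc u))) ?_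
    refine (continuous_const.mul (continuous_finset_sum _ fun s _ => (hRc 1).sub (hRc s))).add ?_
    exact continuous_const.mul (hRc 1)
  have hsub : ((fdVec π : Set E) ×ˢ (fdVec ρ : Set F)) ⊆
      {q : E × F | 2 * (Rp p π ρ q.1 q.2 1 - Rp p π ρ q.1 q.2 u) ≤
      a * ∑ s ∈ S, (Rp p π ρ q.1 q.2 1 - Rp p π ρ q.1 q.2 s) + b * Rp p π ρ q.1 q.2 1} := by
    rintro ⟨v, w⟩ ⟨hv, hw⟩
    obtain ⟨V, ⟨hVf, hV⟩, hvV⟩ := (mem_fdVec π v).1 hv
    obtain ⟨W, ⟨hWf, hW⟩, hwW⟩ := (mem_fdVec ρ w).1 hw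
    set π' := resRep π V hV with hπ'
    set ρ' := resRep ρ W hW with hρ'
    have hπ'c : ∀ v, Continuous fun g => π' g v := fun v =>
      Continuous.subtype_mk (f := fun g => (π' g v : E)) (hπ v) _
    have hρ'c : ∀ v, Continuous fun g => ρ' g v := fun v =>
      Continuous.subtype_mk (f := fun g => (ρ' g v : F)) (hρ v) _
    have h1 := descent_fd p hpc hps ν (tns π' ρ') (tns_cont π' ρ' hπ'c hρ'c) S u ha hL
      ((⟨v, hvV⟩ : V) ⊗ₜ[ℂ] (⟨w, hwW⟩ : W))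
    have h2 : ∀ g, Rk p (tns π' ρ') ((⟨v, hvV⟩ : V) ⊗ₜ[ℂ] (⟨w, hwW⟩ : W)) g =
        Rp p π ρ v w g := by
      intro g
      rw [← Rp_eq]
      rfl
    simp_rw [h2] at h1
    exact h1
  have h1 := closure_minimal hsub hclosed
  have h2 : (v, w) ∈ closure ((fdVec π : Set E) ×ˢ (fdVec ρ : Set F)) := by
    rw [closure_prod_eq]
    constructor
    · have : v ∈ (fdVec π).topologicalClosure := by rw [fdVec_dense π hπ]; trivial
      exact this
    · have : w ∈ (fdVec ρ).topologicalClosure := by rw [fdVec_dense ρ hρ]; trivial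
      exact this
  exact h1 h2

end

end Run7.h421
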