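import Pool.Agent.Run7.h421.Iso3

/-!
# Finite coverings: lifting the gap
-/

set_option autoImplicit false
set_option linter.unusedSectionVars false

namespace Run7.h421

open MeasureTheory InnerProductSpace Topology Set
open scoped ComplexConjugate

noncomputable section

section star

variable {G : Type*} [TopologicalSpace G] [Group G] [IsTopologicalGroup G] [CompactSpace G]
  [MeasurableSpace G] [BorelSpace G] (μ : Measure G) [μ.IsHaarMeasure]

lemma lreg_star (g : G) (f : Lp ℂ 2 μ) : lreg μ g (star f) = star (lreg μ g f) := by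
  apply Lp.ext
  have h1 := (mpl μ g).quasiMeasurePreserving.ae_eq_comp (Lp.coeFn_star f)
  filter_upwards [lreg_coe μ g (star f), lreg_coe μ g f, Lp.coeFn_star (lreg μ g f), h1] with
    x h2 h3 h4 h5
  rw [h2, h4, Pi.star_apply, h3]
  exact h5

lemma inner_star' (f h : Lp ℂ 2 μ) : inner ℂ (star f) (star h) = conj (inner ℂ f h) := by
  rw [L2.inner_def, L2.inner_def, ← integral_conj]
  refine integral_congr_ae ?_
  filter_upwards [Lp.coeFn_star f, Lp.coeFn_star h] with x h1 h2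
  rw [h1, h2, Pi.star_apply, Pi.star_apply]
  simp

/-- the matrix coefficient -/
def Am (f : Lp ℂ 2 μ) (g : G) : ℂ := inner ℂ (lreg μ g f) f

lemma Am_norm (f : Lp ℂ 2 μ) (hf : ‖f‖ = 1) (g : G) : ‖Am μ f g‖ ≤ 1 := by
  refine (norm_inner_le_norm _ _).trans ?_
  rw [LinearIsometryEquiv.norm_map, hf, one_mul]

lemma Am_near (f : Lp ℂ 2 μ) (hf : ‖f‖ = 1) (s z : G) :
    ‖Am μ f (s * z) - Am μ f z‖ ≤ ‖lreg μ s f - f‖ := by
  have h1 : Am μ f (s * z) = inner ℂ (lreg μ z f) (lreg μ s⁻¹ f) := by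
    unfold Am
    rw [pi_mul]
    have h2 : f = lreg μ s (lreg μ s⁻¹ f) := (pi_inv (lreg μ) s f).symm
    conv_lhs => rw [show inner ℂ (lreg μ s (lreg μ z f)) f =
      inner ℂ (lreg μ s (lreg μ z f)) (lreg μ s (lreg μ s⁻¹ f)) by rw [← h2]]
    rw [LinearIsometryEquiv.inner_map_map]
  have h2 : Am μ f (s * z) - Am μ f z = inner ℂ (lreg μ z f) (lreg μ s⁻¹ f - f) := by
    rw [h1, inner_sub_right]; rfl
  rw [h2]
  refine (norm_inner_le_norm _ _).trans ?_
  rw [LinearIsometryEquiv.norm_map, hf, one_mul, inv_near]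

lemma Am_star (f : Lp ℂ 2 μ) (g : G) : inner ℂ (lreg μ g (star f)) (star f) = conj (Am μ f g) := by
  rw [lreg_star, inner_star']
  rfl

end star

section lift

variable {G G' : Type} [TopologicalSpace G] [T2Space G] [Group G] [IsTopologicalGroup G]
    [CompactSpace G] [MeasurableSpace G] [BorelSpace G] (μ : Measure G) [μ.IsHaarMeasure]
    [TopologicalSpace G'] [T2Space G'] [Group G'] [IsTopologicalGroup G']
    [CompactSpace G'] [MeasurableSpace G'] [BorelSpace G'] (ν : Measure G') [ν.IsHaarMeasure]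
    (p : G →* G')

lemma Am_cont (f : Lp ℂ 2 μ) : Continuous (Am μ f) :=
  (lreg_cont μ f).inner continuous_const

/-- the correlation function for `e` and `star f` -/
def Rs [Fintype p.ker] (e f : Lp ℂ 2 μ) (g : G) : ℝ :=
  (∑ z : p.ker, Am μ e (g * z) * conj (Am μ f (g * z))).re

lemma Rs_eq [Fintype p.ker] (e f : Lp ℂ 2 μ) (g : G) :
    Rs μ p e f g = Rp p (lreg μ) (lreg μ) e (star f) g := by
  unfold Rs Rp
  simp_rw [Am_star]
  rfl

/-- upper bound for the correlations, on average -/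
lemma corr_upper [Fintype p.ker] (k : C(G, ℝ)) (hk : ∀ g, |k g| ≤ 1) (e₀ : Lp ℂ 2 μ)
    (he₀ : ‖e₀‖ = 1) {n : ℕ} (e : Fin n → Lp ℂ 2 μ) (he : Orthonormal ℂ e) :
    ∑ j, ∫ u, k u * Rs μ p e₀ (e j) u ∂μ ≤
      2 * Fintype.card p.ker * (Real.sqrt n * μ.real univ) := by
  -- the kernels
  let kr : p.ker → C(G, ℝ) := fun z => ⟨fun u => k u * (Am μ e₀ (u * z)).re, by
    exact k.continuous.mul (Complex.continuous_re.comp ((Am_cont μ e₀).comp (by fun_prop)))⟩
  let ki : p.ker → C(G, ℝ) := fun z => ⟨fun u => k u * (Am μ e₀ (u * z)).im, by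
    exact k.continuous.mul (Complex.continuous_im.comp ((Am_cont μ e₀).comp (by fun_prop)))⟩
  have hkr : ∀ z g, |kr z g| ≤ 1 := by
    intro z g
    show |k g * (Am μ e₀ (g * z)).re| ≤ 1
    rw [abs_mul]
    have h1 := (Complex.abs_re_le_norm (Am μ e₀ (g * z))).trans (Am_norm μ e₀ he₀ _)
    exact mul_le_one₀ (hk g) (abs_nonneg _) h1
  have hki : ∀ z g, |ki z g| ≤ 1 := by
    intro z g
    show |k g * (Am μ e₀ (g * z)).im| ≤ 1
    rw [abs_mul]
    have h1 := (Complex.abs_im_le_norm (Am μ e₀ (g * z))).trans (Am_norm μ e₀ he₀ _)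
    exact mul_le_one₀ (hk g) (abs_nonneg _) h1
  have hb : ∀ κ : C(G, ℝ), (∀ g, |κ g| ≤ 1) → ∀ z : p.ker,
      ∑ j, ‖∫ u, (κ u : ℂ) * Am μ (e j) (u * z) ∂μ‖ ≤ Real.sqrt n * μ.real univ := by
    intro κ hκ z
    refine (pair_bound μ κ z e he).trans ?_
    refine mul_le_mul_of_nonneg_left ?_ (Real.sqrt_nonneg _)
    have h1 := kl_bound μ κ zero_le_one hκ
    rw [one_mul] at h1
    exact Real.sqrt_le_iff.2 ⟨measureReal_nonneg, h1⟩
  have hint : ∀ κ : C(G, ℝ), ∀ (z : p.ker) j,
      Integrable (fun u => (κ u : ℂ) * Am μ (e j) (u * z)) μ := by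
    intro κ z j
    refine integrable_cont μ ?_
    exact (Complex.continuous_ofReal.comp κ.continuous).mul ((Am_cont μ (e j)).comp (by fun_prop))
  have h1 : ∀ j, ∫ u, k u * Rs μ p e₀ (e j) u ∂μ ≤
      ∑ z : p.ker, (‖∫ u, (kr z u : ℂ) * Am μ (e j) (u * z) ∂μ‖ +
        ‖∫ u, (ki z u : ℂ) * Am μ (e j) (u * z) ∂μ‖) := by
    intro j
    have h2 : ∀ u, k u * Rs μ p e₀ (e j) u = ∑ z : p.ker,
        (((kr z u : ℂ) * Am μ (e j) (u * z)).re + ((ki z u : ℂ) * Am μ (e j) (u * z)).im) := by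
      intro u
      unfold Rs
      rw [Complex.re_sum, Finset.mul_sum]
      refine Finset.sum_congr rfl fun z _ => ?_
      rw [Complex.re_ofReal_mul, Complex.im_ofReal_mul, Complex.mul_re, Complex.conj_re,
        Complex.conj_im]
      show _ = k u * (Am μ e₀ (u * z)).re * (Am μ (e j) (u * z)).re +
        k u * (Am μ e₀ (u * z)).im * (Am μ (e j) (u * z)).im
      ring
    simp_rw [h2]
    rw [integral_finset_sum]
    · refine Finset.sum_le_sum fun z _ => ?_
      rw [integral_add]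
      · refine add_le_add ?_ ?_
        · have h3 : ∫ u, ((kr z u : ℂ) * Am μ (e j) (u * z)).re ∂μ =
              (∫ u, (kr z u : ℂ) * Am μ (e j) (u * z) ∂μ).re := integral_re (hint (kr z) z j)
          rw [h3]
          exact (le_abs_self _).trans (Complex.abs_re_le_norm _)
        · have h3 : ∫ u, ((ki z u : ℂ) * Am μ (e j) (u * z)).im ∂μ =
              (∫ u, (ki z u : ℂ) * Am μ (e j) (u * z) ∂μ).im := integral_im (hint (ki z) z j)
          rw [h3]
          exact (le_abs_self _).trans (Complex.abs_im_le_norm _)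
      · exact (hint (kr z) z j).re
      · exact (hint (ki z) z j).im
    · intro z _
      exact (hint (kr z) z j).re.add (hint (ki z) z j).im
  refine (Finset.sum_le_sum fun j _ => h1 j).trans ?_
  rw [Finset.sum_comm]
  have h2 : ∀ z ∈ (Finset.univ : Finset p.ker),
      ∑ j, (‖∫ u, (kr z u : ℂ) * Am μ (e j) (u * z) ∂μ‖ +
        ‖∫ u, (ki z u : ℂ) * Am μ (e j) (u * z) ∂μ‖) ≤ 2 * (Real.sqrt n * μ.real univ) := by
    intro z _
    rw [Finset.sum_add_distrib]
    have := hb (kr z) (hkr z) z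
    have := hb (ki z) (hki z) z
    linarith
  have h3 := Finset.sum_le_card_nsmul _ _ _ h2
  rw [Finset.card_univ, nsmul_eq_mul] at h3
  linarith

/-- lower bound for the correlations -/
lemma corr_lower [Fintype p.ker] {e f : Lp ℂ 2 μ} (he : ‖e‖ = 1) (hf : ‖f‖ = 1) {η : ℝ}
    (hclose : ∀ z : p.ker, ‖Am μ e z - Am μ f z‖ ≤ η) :
    1 - Fintype.card p.ker * η ≤ Rs μ p e f 1 := by
  unfold Rs
  rw [Complex.re_sum]
  have h1 : ∀ z : p.ker, ‖Am μ e z‖ ^ 2 - η ≤ (Am μ e (1 * z) * conj (Am μ f (1 * z))).re := by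
    intro z
    rw [one_mul]
    have h2 : Am μ e z * conj (Am μ f z) = Am μ e z * conj (Am μ e z) -
        Am μ e z * conj (Am μ e z - Am μ f z) := by
      rw [map_sub]; ring
    have h3 : (Am μ e z * conj (Am μ e z)).re = ‖Am μ e z‖ ^ 2 := by
      rw [Complex.mul_conj, Complex.ofReal_re, Complex.normSq_eq_norm_sq]
    rw [h2, Complex.sub_re, h3]
    have h4 : (Am μ e z * conj (Am μ e z - Am μ f z)).re ≤ η := by
      refine (le_abs_self _).trans ((Complex.abs_re_le_norm _).trans ?_)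
      rw [norm_mul, RCLike.norm_conj]
      have h5 := Am_norm μ e he z
      have h6 := hclose z
      nlinarith [norm_nonneg (Am μ e z), norm_nonneg (Am μ e z - Am μ f z)]
    linarith
  have h2 : (1 : ℝ) ≤ ∑ z : p.ker, ‖Am μ e z‖ ^ 2 := by
    have h3 := Finset.single_le_sum (f := fun z : p.ker => ‖Am μ e z‖ ^ 2)
      (fun _ _ => by positivity) (Finset.mem_univ (1 : p.ker))
    refine le_trans (le_of_eq ?_) h3
    have h4 : Am μ e ((1 : p.ker) : G) = 1 := by
      unfold Am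
      rw [OneMemClass.coe_one, map_one]
      show inner ℂ e e = 1
      rw [inner_self_eq_norm_sq_to_K, he]
      simp
    rw [h4]
    simp
  have h3 := Finset.sum_le_sum (s := Finset.univ) fun z _ => h1 z
  rw [Finset.sum_sub_distrib, Finset.sum_const, Finset.card_univ, nsmul_eq_mul] at h3
  linarith

lemma Rs_one_le [Fintype p.ker] {e f : Lp ℂ 2 μ} (he : ‖e‖ = 1) (hf : ‖f‖ = 1) (g : G) :
    Rs μ p e f g ≤ Fintype.card p.ker := by
  unfold Rs
  rw [Complex.re_sum]
  have h1 : ∀ z ∈ (Finset.univ : Finset p.ker),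
      (Am μ e (g * z) * conj (Am μ f (g * z))).re ≤ 1 := by
    intro z _
    refine (le_abs_self _).trans ((Complex.abs_re_le_norm _).trans ?_)
    rw [norm_mul, RCLike.norm_conj]
    exact mul_le_one₀ (Am_norm μ e he _) (norm_nonneg _) (Am_norm μ f hf _)
  have h2 := Finset.sum_le_card_nsmul _ _ _ h1
  rwa [Finset.card_univ, nsmul_eq_mul, mul_one] at h2

lemma Rs_sub_le [Fintype p.ker] {e f : Lp ℂ 2 μ} (he : ‖e‖ = 1) (hf : ‖f‖ = 1) (s : G) {κ : ℝ}
    (h1 : ‖lreg μ s e - e‖ ≤ κ) (h2 : ‖lreg μ s f - f‖ ≤ κ) :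
    Rs μ p e f 1 - Rs μ p e f s ≤ Fintype.card p.ker * (2 * κ) := by
  unfold Rs
  rw [← Complex.sub_re, ← Finset.sum_sub_distrib, Complex.re_sum]
  have h3 : ∀ z ∈ (Finset.univ : Finset p.ker),
      (Am μ e (1 * z) * conj (Am μ f (1 * z)) - Am μ e (s * z) * conj (Am μ f (s * z))).re ≤
      2 * κ := by
    intro z _
    rw [one_mul]
    refine (le_abs_self _).trans ((Complex.abs_re_le_norm _).trans ?_)
    have h4 : Am μ e z * conj (Am μ f z) - Am μ e (s * z) * conj (Am μ f (s * z)) =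
        - ((Am μ e (s * z) - Am μ e z) * conj (Am μ f (s * z))) -
        Am μ e z * conj (Am μ f (s * z) - Am μ f z) := by
      rw [map_sub]; ring
    rw [h4]
    refine (norm_sub_le _ _).trans ?_
    rw [norm_neg, norm_mul, norm_mul, RCLike.norm_conj, RCLike.norm_conj]
    have h5 := (Am_near μ e he s z).trans h1
    have h6 := (Am_near μ f hf s z).trans h2
    have h7 := Am_norm μ f hf (s * z)
    have h8 := Am_norm μ e he z
    nlinarith [norm_nonneg (Am μ e (s * z) - Am μ e z), norm_nonneg (Am μ f (s * z) - Am μ f z),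
      norm_nonneg (Am μ f (s * z)), norm_nonneg (Am μ e z)]
  have h4 := Finset.sum_le_card_nsmul _ _ _ h3
  rwa [Finset.card_univ, nsmul_eq_mul] at h4

end lift

end

end Run7.h421
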