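import Pool.Agent.Run7.h421.Iso4

/-!
# Finite coverings: lifting the gap
-/

set_option autoImplicit false
set_option linter.unusedSectionVars false

namespace Run7.h421

open MeasureTheory InnerProductSpace Topology Set
open scoped ComplexConjugate

noncomputable section

section card

variable {G G' : Type} [TopologicalSpace G] [T2Space G] [Group G] [IsTopologicalGroup G]
    [CompactSpace G] [MeasurableSpace G] [BorelSpace G] (μ : Measure G) [μ.IsHaarMeasure]
    [TopologicalSpace G'] [T2Space G'] [Group G'] [IsTopologicalGroup G']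
    [CompactSpace G'] [MeasurableSpace G'] [BorelSpace G'] (p : G →* G')

lemma Rs_cont [Fintype p.ker] (e f : Lp ℂ 2 μ) : Continuous (Rs μ p e f) := by
  unfold Rs
  refine Complex.continuous_re.comp (continuous_finset_sum _ fun z _ => ?_)
  exact ((Am_cont μ e).comp (by fun_prop)).mul
    (Complex.continuous_conj.comp ((Am_cont μ f).comp (by fun_prop)))

/-- Few orthonormal functions have large correlations with a given one. -/
lemma card_corr [Fintype p.ker] {O : Set G} (hO : IsOpen O) (h1O : (1 : G) ∈ O) :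
    ∃ N : ℕ, ∀ e₀ : Lp ℂ 2 μ, ‖e₀‖ = 1 → ∀ (n : ℕ) (e : Fin n → Lp ℂ 2 μ), Orthonormal ℂ e →
      (∀ j, ∀ u ∈ O, 1 / 2 ≤ Rs μ p e₀ (e j) u) → n ≤ N := by
  obtain ⟨k0, hk0, hk1, hk01⟩ := exists_continuous_zero_one_of_isClosed
    (hO.isClosed_compl) (isClosed_singleton (x := (1 : G)))
    (by rw [Set.disjoint_singleton_right]; exact fun h => h h1O)
  have hpos : 0 < ∫ g, k0 g ∂μ := by
    refine k0.continuous.integral_pos_of_hasCompactSupport_nonneg_nonzero
      (HasCompactSupport.of_compactSpace _) (fun g => (hk01 g).1) (x := 1) ?_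
    rw [hk1 rfl]
    exact one_ne_zero
  set I := ∫ g, k0 g ∂μ with hI
  set C : ℝ := 4 * Fintype.card p.ker * μ.real univ / I with hC
  obtain ⟨N, hN⟩ := exists_nat_gt (C ^ 2)
  refine ⟨N, fun e₀ he₀ n e he hcor => ?_⟩
  have hk : ∀ g, |k0 g| ≤ 1 := fun g => by
    rw [abs_of_nonneg (hk01 g).1]; exact (hk01 g).2
  have h1 := corr_upper μ p k0 hk e₀ he₀ e he
  have h2 : ∀ j, I / 2 ≤ ∫ u, k0 u * Rs μ p e₀ (e j) u ∂μ := by
    intro j
    have h3 : I / 2 = ∫ u, k0 u * (1 / 2) ∂μ := by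
      rw [integral_mul_const]
      ring
    rw [h3]
    refine integral_mono (integrable_cont μ (k0.continuous.mul continuous_const))
      (integrable_cont μ (k0.continuous.mul (Rs_cont μ p e₀ (e j)))) fun u => ?_
    by_cases hu : u ∈ O
    · exact mul_le_mul_of_nonneg_left (hcor j u hu) (hk01 u).1
    · show k0 u * (1 / 2) ≤ k0 u * Rs μ p e₀ (e j) u
      rw [hk0 hu]
      simp
  have h3 := Finset.card_nsmul_le_sum (Finset.univ : Finset (Fin n)) _ _ (fun j _ => h2 j)
  rw [Finset.card_univ, Fintype.card_fin, nsmul_eq_mul] at h3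
  have h4 := h3.trans h1
  set x := Real.sqrt n with hx
  have hxx : x ^ 2 = n := Real.sq_sqrt (Nat.cast_nonneg _)
  have hx0 : 0 ≤ x := Real.sqrt_nonneg _
  have h5 : x ≤ C := by
    rcases hx0.eq_or_lt with h0 | h0
    · rw [← h0, hC]
      have := measureReal_nonneg (μ := μ) (s := univ)
      positivity
    · rw [hC, le_div_iff₀ hpos]
      rw [← hxx] at h4
      have h6 : x * (x * I) ≤ x * (4 * Fintype.card p.ker * μ.real univ) := by nlinarith
      exact le_of_mul_le_mul_left h6 h0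
  have h6 : (n : ℝ) ≤ C ^ 2 := by
    rw [← hxx]
    exact pow_le_pow_left₀ hx0 h5 2
  exact_mod_cast (h6.trans hN.le)

/-- Compactness from correlations. -/
lemma fd_of_corr [Fintype p.ker] {O : Set G} (hO : IsOpen O) (h1O : (1 : G) ∈ O) {η : ℝ}
    (hη : 0 < η) (V : Submodule ℂ (Lp ℂ 2 μ))
    (hV : ∀ e ∈ V, ∀ f ∈ V, ‖e‖ = 1 → ‖f‖ = 1 → (∀ z : p.ker, ‖Am μ e z - Am μ f z‖ ≤ η) →
      ∀ u ∈ O, 1 / 2 ≤ Rs μ p e f u) : FiniteDimensional ℂ V := by
  classical
  obtain ⟨N, hN⟩ := card_corr μ p hO h1O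
  -- a finite net
  have hcpt : IsCompact (Metric.closedBall (0 : p.ker → ℂ) 1) := isCompact_closedBall _ _
  obtain ⟨t, htf, ht⟩ := (Metric.totallyBounded_iff.1 hcpt.totallyBounded) (η / 2) (by positivity)
  refine fd_of_card μ V (N * htf.toFinset.card) fun n e he heV => ?_
  by_contra hlt
  push Not at hlt
  -- the coefficients
  let F : Fin n → p.ker → ℂ := fun j z => Am μ (e j) z
  have hF : ∀ j, ∃ y ∈ htf.toFinset, F j ∈ Metric.ball y (η / 2) := by
    intro j
    have h1 : F j ∈ Metric.closedBall (0 : p.ker → ℂ) 1 := by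
      rw [mem_closedBall_zero_iff, pi_norm_le_iff_of_nonneg zero_le_one]
      exact fun z => Am_norm μ (e j) (he.1 j) z
    have h2 := ht h1
    rw [mem_iUnion₂] at h2
    obtain ⟨y, hy, h3⟩ := h2
    exact ⟨y, htf.mem_toFinset.2 hy, h3⟩
  choose c hc1 hc2 using hF
  have hcard : htf.toFinset.card * N < (Finset.univ : Finset (Fin n)).card := by
    rw [Finset.card_univ, Fintype.card_fin, mul_comm]
    exact hlt
  obtain ⟨y, hy, hy2⟩ := Finset.exists_lt_card_fiber_of_mul_lt_card_of_maps_to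
    (fun j _ => hc1 j) hcard
  set J := (Finset.univ : Finset (Fin n)).filter (fun j => c j = y) with hJ
  have hJm : ∀ j ∈ J, c j = y := fun j hj => (Finset.mem_filter.1 hj).2
  have hJne : J.Nonempty := Finset.card_pos.1 (lt_of_le_of_lt (Nat.zero_le _) hy2)
  obtain ⟨j₀, hj₀⟩ := hJne
  have hclose : ∀ i ∈ J, ∀ j ∈ J, ∀ z : p.ker, ‖Am μ (e i) z - Am μ (e j) z‖ ≤ η := by
    intro i hi j hj z
    have h1 : dist (F i) (F j) ≤ η := by
      have h2 := hc2 i
      have h3 := hc2 j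
      rw [hJm i hi, Metric.mem_ball] at h2
      rw [hJm j hj, Metric.mem_ball, dist_comm] at h3
      linarith [dist_triangle (F i) y (F j)]
    have h2 := (dist_pi_le_iff hη.le).1 h1 z
    rw [dist_eq_norm] at h2
    exact h2
  have h1 := hN (e j₀) (he.1 j₀) J.card (fun i => e (J.orderEmbOfFin rfl i))
    (he.comp _ (J.orderEmbOfFin rfl).injective) (fun i u hu => ?_)
  · exact absurd h1 (not_le.2 hy2)
  · refine hV _ (heV _) _ (heV _) (he.1 _) (he.1 _) (hclose _ hj₀ _ ?_) u hu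
    exact Finset.orderEmbOfFin_mem J rfl i

end card

section lift

variable {G G' : Type} [TopologicalSpace G] [T2Space G] [Group G] [IsTopologicalGroup G]
    [CompactSpace G] [MeasurableSpace G] [BorelSpace G] (μ : Measure G) [μ.IsHaarMeasure]
    [TopologicalSpace G'] [T2Space G'] [Group G'] [IsTopologicalGroup G']
    [CompactSpace G'] [MeasurableSpace G'] [BorelSpace G'] (ν : Measure G') [ν.IsHaarMeasure]
    (p : G →* G')

/-- vectors of the top space have small defect -/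
lemma top_dfc (S : Finset G) (hS : ∀ s ∈ S, s⁻¹ ∈ S) (ε : ℝ) :
    ∀ f ∈ topSpace μ S ε, dfc (lreg μ) S 1 f ≤ ε * ‖f‖ ^ 2 := by
  intro f hf
  rw [topSpace_eq μ S hS] at hf
  have h1 := eSpan_inner_le (Dl_symm (lreg μ) S hS) (σ := -1) (a := -(S.card - ε))
    (fun c hc _ => by
      have : (S.card : ℝ) - ε < c.re := hc
      linarith) hf
  unfold dfc
  linarith

lemma dense_image (hpc : Continuous p) (hps : Function.Surjective p) [DecidableEq G'] (S : Finset G)
    (hd : Dense ((Subgroup.closure (S : Set G) : Subgroup G) : Set G)) :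
    Dense ((Subgroup.closure ((S.image p : Finset G') : Set G') : Subgroup G') : Set G') := by
  have h1 := hps.denseRange.dense_image hpc hd
  refine h1.mono ?_
  rintro _ ⟨g, hg, rfl⟩
  have h2 : p g ∈ (Subgroup.closure (S : Set G)).map p := ⟨g, hg, rfl⟩
  rw [MonoidHom.map_closure] at h2
  rw [Finset.coe_image]
  exact h2

/-- **The gap lifts to finite coverings.** -/
theorem lift_gap (hpc : Continuous p) (hps : Function.Surjective p) [Fintype p.ker]
    (hyp : ∃ ε : ℝ, 0 < ε ∧ ∀ S : Finset G', (∀ s ∈ S, s⁻¹ ∈ S) →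
      Dense ((Subgroup.closure (S : Set G') : Subgroup G') : Set G') →
      FiniteDimensional ℂ (topSpace ν S ε)) :
    ∃ ε : ℝ, 0 < ε ∧ ∀ S : Finset G, S.card = 4 → (∀ s ∈ S, s⁻¹ ∈ S) →
      Dense ((Subgroup.closure (S : Set G) : Subgroup G) : Set G) →
      FiniteDimensional ℂ (topSpace μ S ε) := by
  classical
  obtain ⟨ε', hε', hyp⟩ := hyp
  set m : ℝ := (Fintype.card p.ker : ℝ) with hm
  have hm0 : 0 < m := by
    have h : 0 < Fintype.card p.ker := Fintype.card_pos
    rw [hm]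
    exact Nat.cast_pos.2 h
  set a : ℝ := 8 / ε' with ha
  have ha0 : 0 < a := by positivity
  set κ : ℝ := 1 / (32 * a * m) with hκ
  have hκ0 : 0 < κ := by positivity
  refine ⟨κ ^ 2 / 2, by positivity, fun S hcard hS hd => ?_⟩
  set S' := S.image p with hS'
  have hS's : ∀ s ∈ S', s⁻¹ ∈ S' := by
    intro s hs
    obtain ⟨t, ht, rfl⟩ := Finset.mem_image.1 hs
    exact Finset.mem_image.2 ⟨t⁻¹, hS t ht, map_inv p t⟩
  have hfd := hyp S' hS's (dense_image p hpc hps S hd)
  rw [topSpace_eq ν S' hS's] at hfd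
  set e₁ : ℝ := Real.sqrt (1 / (8 * m)) with he₁
  have he₁0 : 0 < e₁ := Real.sqrt_pos.2 (by positivity)
  have he₁2 : 2 * e₁ ^ 2 = 1 / (4 * m) := by
    rw [he₁, Real.sq_sqrt (by positivity)]
    field_simp
    norm_num
  have hnear := near_of_top (lreg ν) (lreg_cont ν) S' hS's hε' he₁0
  have hp1 : Filter.Tendsto p (𝓝 (1 : G)) (𝓝 (1 : G')) := by
    have := hpc.tendsto 1
    rwa [map_one] at this
  obtain ⟨O, hOsub, hO, h1O⟩ := mem_nhds_iff.1 (hp1.eventually hnear)
  refine fd_of_corr μ p hO h1O (η := 1 / (4 * m)) (by positivity) _ ?_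
  intro e he f hf he1 hf1 hclose u hu
  have hmove : ∀ f ∈ topSpace μ S (κ ^ 2 / 2), ‖f‖ = 1 → ∀ s ∈ S, ‖lreg μ s f - f‖ ≤ κ := by
    intro f hf hf1 s hs
    have h1 := norm_sub_le_dfc (lreg μ) S (Or.inl rfl : (1 : ℝ) = 1 ∨ (1 : ℝ) = -1) f hs
    have h2 := top_dfc μ S hS _ f hf
    rw [hf1, one_pow, mul_one] at h2
    rw [Complex.ofReal_one, one_smul] at h1
    exact le_of_sq_le_sq (by linarith) hκ0.le
  have h1 := descent p hpc hps ν (lreg μ) (lreg μ) (lreg_cont μ) (lreg_cont μ) S u ha0.le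
    (b := 2 * e₁ ^ 2) (fun f => hOsub hu f) e (star f)
  simp_rw [← Rs_eq] at h1
  have h2 : ∑ s ∈ S, (Rs μ p e f 1 - Rs μ p e f s) ≤ 4 * (m * (2 * κ)) := by
    have h3 := Finset.sum_le_card_nsmul S _ _ fun s hs =>
      Rs_sub_le μ p he1 hf1 s (hmove e he he1 s hs) (hmove f hf hf1 s hs)
    rw [hcard, nsmul_eq_mul] at h3
    exact_mod_cast h3
  have h3 := corr_lower μ p he1 hf1 hclose
  have h4 := Rs_one_le μ p he1 hf1 1
  have h5 : a * ∑ s ∈ S, (Rs μ p e f 1 - Rs μ p e f s) ≤ 1 / 4 := by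
    refine (mul_le_mul_of_nonneg_left h2 ha0.le).trans (le_of_eq ?_)
    rw [hκ]
    field_simp
    norm_num
  have h6 : 2 * e₁ ^ 2 * Rs μ p e f 1 ≤ 1 / 4 := by
    rw [he₁2]
    refine (mul_le_mul_of_nonneg_left h4 (by positivity)).trans (le_of_eq ?_)
    rw [← hm]
    field_simp
  have h7 : (Fintype.card p.ker : ℝ) * (1 / (4 * m)) = 1 / 4 := by
    rw [← hm]
    field_simp
  linarith

end lift

end

end Run7.h421
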