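import Pool.Agent.Run7.h421.Iso5

/-!
# Finite coverings: pushing the gap down, and simplicity
-/

set_option autoImplicit false
set_option linter.unusedSectionVars false

namespace Run7.h421

open MeasureTheory InnerProductSpace Topology Set
open scoped ComplexConjugate

noncomputable section

section push

variable {G G' : Type} [TopologicalSpace G] [T2Space G] [Group G] [IsTopologicalGroup G]
    [CompactSpace G] [MeasurableSpace G] [BorelSpace G] (μ : Measure G) [μ.IsHaarMeasure]
    [TopologicalSpace G'] [T2Space G'] [Group G'] [IsTopologicalGroup G']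
    [CompactSpace G'] [MeasurableSpace G'] [BorelSpace G'] (ν : Measure G') [ν.IsHaarMeasure]
    (p : G →* G')

lemma open_of_surj (hpc : Continuous p) (hps : Function.Surjective p) : IsOpenMap p := by
  have hq : IsQuotientMap p := hpc.isClosedMap.isQuotientMap hpc hps
  exact (MonoidHom.isOpenQuotientMap_of_isQuotientMap hq).isOpenMap

/-- the preimage of a finite set -/
def preS [Fintype p.ker] [DecidableEq G] (hps : Function.Surjective p) (S : Finset G') : Finset G :=
  S.biUnion fun s => (Finset.univ : Finset p.ker).image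
    fun z : p.ker => Function.surjInv hps s * (z : G)

lemma mem_preS [Fintype p.ker] [DecidableEq G] (hps : Function.Surjective p) (S : Finset G')
    (g : G) : g ∈ preS p hps S ↔ p g ∈ S := by
  unfold preS
  rw [Finset.mem_biUnion]
  constructor
  · rintro ⟨s, hs, h⟩
    obtain ⟨z, -, rfl⟩ := Finset.mem_image.1 h
    rw [map_mul, Function.surjInv_eq hps, MonoidHom.mem_ker.1 z.2, mul_one]
    exact hs
  · intro h
    refine ⟨p g, h, Finset.mem_image.2 ⟨⟨(Function.surjInv hps (p g))⁻¹ * g, ?_⟩,
      Finset.mem_univ _, ?_⟩⟩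
    · rw [MonoidHom.mem_ker, map_mul, map_inv, Function.surjInv_eq hps, inv_mul_cancel]
    · simp

lemma sum_preS [Fintype p.ker] [DecidableEq G] (hps : Function.Surjective p) (S : Finset G')
    (φ : G' → ℝ) (hφ : ∀ s, 0 ≤ φ s) :
    ∑ g ∈ preS p hps S, φ (p g) ≤ Fintype.card p.ker * ∑ s ∈ S, φ s := by
  unfold preS
  rw [Finset.sum_biUnion]
  swap
  · intro s _ t _ hst
    rw [Function.onFun, Finset.disjoint_left]
    intro g hg hg'
    apply hst
    obtain ⟨z, -, hz⟩ := Finset.mem_image.1 hg
    obtain ⟨w, -, hw⟩ := Finset.mem_image.1 hg'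
    have h1 := congrArg p (hz.trans hw.symm)
    rw [map_mul, map_mul, Function.surjInv_eq hps, Function.surjInv_eq hps,
      MonoidHom.mem_ker.1 z.2, MonoidHom.mem_ker.1 w.2, mul_one, mul_one] at h1
    exact h1
  rw [Finset.mul_sum]
  refine Finset.sum_le_sum fun s _ => ?_
  refine (Finset.sum_image_le_of_nonneg fun _ _ => hφ _).trans (le_of_eq ?_)
  rw [Finset.sum_congr rfl (g := fun _ => φ s) (fun z _ => by
    rw [map_mul, Function.surjInv_eq hps, MonoidHom.mem_ker.1 z.2, mul_one])]
  rw [Finset.sum_const, Finset.card_univ, nsmul_eq_mul]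

/-- **The gap descends to quotients by finite subgroups.** -/
theorem push_gap (hpc : Continuous p) (hps : Function.Surjective p) [Fintype p.ker]
    (hyp : ∃ ε : ℝ, 0 < ε ∧ ∀ S : Finset G, (∀ s ∈ S, s⁻¹ ∈ S) →
      Dense ((Subgroup.closure (S : Set G) : Subgroup G) : Set G) →
      FiniteDimensional ℂ (topSpace μ S ε)) :
    ∃ ε : ℝ, 0 < ε ∧ ∀ S : Finset G', (∀ s ∈ S, s⁻¹ ∈ S) →
      Dense ((Subgroup.closure (S : Set G') : Subgroup G') : Set G') →
      FiniteDimensional ℂ (topSpace ν S ε) := by
  classical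
  obtain ⟨ε, hε, hyp⟩ := hyp
  set m : ℝ := (Fintype.card p.ker : ℝ) with hm
  have hm0 : 0 < m := by
    have h : 0 < Fintype.card p.ker := Fintype.card_pos
    rw [hm]
    exact Nat.cast_pos.2 h
  set a : ℝ := 8 / ε with ha
  have ha0 : 0 < a := by positivity
  refine ⟨1 / (8 * a * m), by positivity, fun S' hS' hd => ?_⟩
  set S := preS p hps (insert 1 S') with hS
  have hSs : ∀ s ∈ S, s⁻¹ ∈ S := by
    intro s hs
    rw [hS, mem_preS, Finset.mem_insert] at hs ⊢
    rw [map_inv]
    rcases hs with h | h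
    · left; rw [h, inv_one]
    · right; exact hS' _ h
  have hop := open_of_surj p hpc hps
  have hSd : Dense ((Subgroup.closure (S : Set G) : Subgroup G) : Set G) := by
    have h1 := Dense.preimage hd hop
    refine h1.mono ?_
    have hker : ∀ z, p z = 1 → z ∈ Subgroup.closure (S : Set G) := by
      intro z hz
      refine Subgroup.subset_closure ?_
      rw [Finset.mem_coe, hS, mem_preS, hz]
      exact Finset.mem_insert_self _ _
    have h2 : ∀ g' ∈ Subgroup.closure (S' : Set G'), ∀ g, p g = g' →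
        g ∈ Subgroup.closure (S : Set G) := by
      intro g' hg'
      induction hg' using Subgroup.closure_induction with
      | mem s hs =>
        intro g hg
        refine Subgroup.subset_closure ?_
        rw [Finset.mem_coe, hS, mem_preS, hg]
        exact Finset.mem_insert_of_mem hs
      | one => exact hker
      | mul a b _ _ iha ihb =>
        intro g hg
        obtain ⟨x, hx⟩ := hps a
        have h3 := iha x hx
        have h4 := ihb (x⁻¹ * g) (by rw [map_mul, map_inv, hx, hg, inv_mul_cancel_left])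
        have h5 := Subgroup.mul_mem _ h3 h4
        rwa [mul_inv_cancel_left] at h5
      | inv a _ iha =>
        intro g hg
        have h3 := iha g⁻¹ (by rw [map_inv, hg, inv_inv])
        exact (Subgroup.inv_mem_iff _).1 h3
    intro g hg
    exact h2 _ hg g rfl
  have hfd := hyp S hSs hSd
  rw [topSpace_eq μ S hSs] at hfd
  have hnear := near_of_top (lreg μ) (lreg_cont μ) S hSs hε (ε := 1 / 4) (by norm_num)
  have hV := top_dfc ν S' hS' (1 / (8 * a * m))
  refine fd_of_near ν (c := 1 / 2) (by norm_num) _ ?_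
  have h1 := hop.image_mem_nhds hnear
  rw [map_one] at h1
  filter_upwards [h1]
  rintro _ ⟨g, hg, rfl⟩ f hf
  have h2 := transfer ((lreg ν).comp p) (fun v => (lreg_cont ν v).comp hpc) μ
    (Or.inl rfl : (1 : ℝ) = 1 ∨ (1 : ℝ) = -1) S g hg f
  have h3 : dfc ((lreg ν).comp p) S 1 f ≤ m * dfc (lreg ν) S' 1 f := by
    rw [dfc_eq _ _ (Or.inl rfl), dfc_eq _ _ (Or.inl rfl)]
    have h4 := sum_preS p hps (insert 1 S')
      (fun s => ‖lreg ν s f - ((1 : ℝ) : ℂ) • f‖ ^ 2) (fun _ => by positivity)
    have h5 : ∑ s ∈ insert 1 S', ‖lreg ν s f - ((1 : ℝ) : ℂ) • f‖ ^ 2 =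
        ∑ s ∈ S', ‖lreg ν s f - ((1 : ℝ) : ℂ) • f‖ ^ 2 := by
      refine Finset.sum_insert_of_eq_zero_if_notMem fun _ => ?_
      rw [map_one]
      show ‖f - _‖ ^ 2 = 0
      simp
    rw [h5] at h4
    have h6 : ∑ s ∈ S, ‖((lreg ν).comp p) s f - ((1 : ℝ) : ℂ) • f‖ ^ 2 =
      ∑ g ∈ preS p hps (insert 1 S'), ‖lreg ν (p g) f - ((1 : ℝ) : ℂ) • f‖ ^ 2 := rfl
    rw [h6]
    linarith
  have h4 := hV f hf
  have h5 : ‖((lreg ν).comp p) g f - f‖ ^ 2 ≤ ((1 / 2) * ‖f‖) ^ 2 := by
    refine h2.trans ?_
    have h6 : a * dfc ((lreg ν).comp p) S 1 f ≤ 1 / 8 * ‖f‖ ^ 2 := by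
      have h7 : dfc ((lreg ν).comp p) S 1 f ≤ m * (1 / (8 * a * m) * ‖f‖ ^ 2) :=
        h3.trans (mul_le_mul_of_nonneg_left h4 hm0.le)
      refine (mul_le_mul_of_nonneg_left h7 ha0.le).trans (le_of_eq ?_)
      field_simp
    linarith
  exact le_of_sq_le_sq h5 (by positivity)

end push

section simp

variable {G G' : Type*} [TopologicalSpace G] [T2Space G] [Group G] [IsTopologicalGroup G]
    [CompactSpace G] [ConnectedSpace G]
    [TopologicalSpace G'] [T2Space G'] [Group G'] [IsTopologicalGroup G']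
    (p : G →* G')

/-- Simplicity descends. -/
lemma Simp.descend (hpc : Continuous p) (hps : Function.Surjective p) [Finite p.ker]
    (hG : Simp G) : Simp G' := by
  refine ⟨?_, ?_⟩
  · by_contra hcon
    push Not at hcon
    obtain ⟨a, b, hab⟩ := hG.nonab
    -- the commutator map has finite image
    let c : G → p.ker := fun x => ⟨x * b * x⁻¹ * b⁻¹, by
      rw [MonoidHom.mem_ker, map_mul, map_mul, map_mul, map_inv, map_inv, hcon (p x) (p b)]
      group⟩
    have hc : Continuous c := Continuous.subtype_mk (by fun_prop) _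
    have h1 : c a = c 1 := PreconnectedSpace.constant inferInstance hc
    have h2 : a * b * a⁻¹ * b⁻¹ = 1 * b * 1⁻¹ * b⁻¹ := congrArg Subtype.val h1
    apply hab
    have h3 : a * b * a⁻¹ * b⁻¹ = 1 := by rw [h2]; group
    have h4 : a * b = a * b * a⁻¹ * b⁻¹ * (b * a) := by group
    rw [h4, h3, one_mul]
  · intro N hN hcl
    have h1 := hG.norm (N.comap p) (hN.comap p) (hcl.preimage hpc)
    rcases h1 with h1 | h1
    · left
      have h2 : (N : Set G') ⊆ p '' (N.comap p : Set G) := by
        intro x hx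
        obtain ⟨g, rfl⟩ := hps x
        exact ⟨g, hx, rfl⟩
      exact (h1.image p).subset h2
    · right
      rw [eq_top_iff]
      intro x _
      obtain ⟨g, rfl⟩ := hps x
      have h2 : g ∈ N.comap p := by rw [h1]; trivial
      exact h2

end simp

end

end Run7.h421
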