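import Pool.Agent.E8helper46.FL.ExpLie
import Pool.Agent.Y842.CX.Sep

/-!
# Compact groups with no proper infinite closed normal subgroups, and their Lie algebras
-/

set_option autoImplicit false
set_option linter.unusedSectionVars false

namespace Run7.h421

open Set Filter Topology NormedSpace Matrix
open scoped Matrix.Norms.L2Operator
open Pool.Agent.E8helper46.FL

noncomputable section

/-- square complex matrices -/
abbrev Mt (r : ℕ) := Matrix (Fin r) (Fin r) ℂ

/-- nonabelian, with all proper closed normal subgroups finite -/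
structure Simp (G : Type*) [TopologicalSpace G] [Group G] : Prop where
  nonab : ∃ a b : G, a * b ≠ b * a
  norm : ∀ N : Subgroup G, N.Normal → IsClosed (N : Set G) → (N : Set G).Finite ∨ N = ⊤

/-- a continuous unitary matrix representation with finite kernel -/
structure IsFRep {G : Type*} [TopologicalSpace G] [Group G] {r : ℕ} (ρ : G →* (Mt r)ˣ) :
    Prop where
  cont : Continuous ρ
  unit : ∀ g, ((ρ g)⁻¹ : (Mt r)ˣ).val = ((ρ g : Mt r))ᴴ
  fin : ((ρ.ker : Subgroup G) : Set G).Finite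

theorem exists_rep (G : Type) [TopologicalSpace G] [Group G] [IsTopologicalGroup G]
    [CompactSpace G] [T2Space G] (hG : Simp G) : ∃ (r : ℕ) (ρ : G →* (Mt r)ˣ), IsFRep ρ := by
  obtain ⟨a, b, hab⟩ := hG.nonab
  have ha : a ≠ 1 := by
    rintro rfl
    simp at hab
  obtain ⟨r, ρ₀, hc, hne⟩ := Pool.Agent.Y842.CX.separated_of_compact G a 1 ha
  let ρ : G →* (Mt r)ˣ := (Unitary.toUnits (R := Mt r)).comp ρ₀
  have hρ : ∀ g, (ρ g : Mt r) = (ρ₀ g : Mt r) := fun _ => rfl
  have hρi : ∀ g, ((ρ g)⁻¹ : (Mt r)ˣ).val = ((ρ₀ g : Mt r))ᴴ := fun _ => rfl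
  have hcont : Continuous ρ := by
    rw [Units.continuous_iff]
    refine ⟨continuous_subtype_val.comp hc, ?_⟩
    exact (continuous_subtype_val.comp hc).matrix_conjTranspose
  refine ⟨r, ρ, hcont, fun g => hρi g, ?_⟩
  have hcl : IsClosed ((ρ.ker : Subgroup G) : Set G) := by
    have : ((ρ.ker : Subgroup G) : Set G) = {g | ρ g = 1} := by
      ext g; simp [MonoidHom.mem_ker]
    rw [this]
    exact isClosed_eq hcont continuous_const
  rcases hG.norm ρ.ker inferInstance hcl with h | h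
  · exact h
  · exfalso
    apply hne
    have h1 : a ∈ ρ.ker := by rw [h]; trivial
    have h2 : ρ a = 1 := h1
    apply Subtype.ext
    have h3 := congrArg (fun u : (Mt r)ˣ => (u : Mt r)) h2
    rw [map_one]
    exact h3

section

variable {G : Type*} [TopologicalSpace G] [Group G] [IsTopologicalGroup G] [CompactSpace G]
  [T2Space G] {r : ℕ} {ρ : G →* (Mt r)ˣ} (hρ : IsFRep ρ)

include hρ

/-- injectivity near the identity -/
lemma inj_near : ∃ O : Set G, IsOpen O ∧ (1 : G) ∈ O ∧ ∀ g ∈ O, ∀ g' ∈ O, ρ g = ρ g' → g = g' := by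
  have h1 : IsOpen (((ρ.ker : Subgroup G) : Set G) \ {1})ᶜ := by
    refine IsClosed.isOpen_compl (self := ?_)
    exact (hρ.fin.subset diff_subset).isClosed
  have h2 : Continuous (fun p : G × G => p.1⁻¹ * p.2) := by fun_prop
  have h3 : IsOpen ((fun p : G × G => p.1⁻¹ * p.2) ⁻¹' (((ρ.ker : Subgroup G) : Set G) \ {1})ᶜ) :=
    h1.preimage h2
  have h4 : ((1 : G), (1 : G)) ∈
      ((fun p : G × G => p.1⁻¹ * p.2) ⁻¹' (((ρ.ker : Subgroup G) : Set G) \ {1})ᶜ) := by
    simp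
  obtain ⟨u, v, hu, hv, h1u, h1v, huv⟩ := isOpen_prod_iff.1 h3 1 1 h4
  refine ⟨u ∩ v, hu.inter hv, ⟨h1u, h1v⟩, fun g hg g' hg' he => ?_⟩
  have h5 : (g, g') ∈ u ×ˢ v := ⟨hg.1, hg'.2⟩
  have h6 : ¬ (g⁻¹ * g' ∈ ((ρ.ker : Subgroup G) : Set G) \ {1}) := huv h5
  have h7 : g⁻¹ * g' ∈ ρ.ker := by
    rw [MonoidHom.mem_ker, map_mul, map_inv, he, inv_mul_cancel]
  by_contra hne
  apply h6
  refine ⟨h7, fun h8 => hne ?_⟩
  rw [mem_singleton_iff] at h8
  exact inv_mul_eq_one.1 h8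

/-- the image of a closed subgroup is closed -/
lemma closed_map (H : Subgroup G) (hH : IsClosed (H : Set G)) :
    IsClosed ((H.map ρ : Subgroup (Mt r)ˣ) : Set (Mt r)ˣ) := by
  have h1 : IsCompact (ρ '' (H : Set G)) := hH.isCompact.image hρ.cont
  rw [Subgroup.coe_map]
  exact h1.isClosed

lemma compact_map (H : Subgroup G) (hH : IsClosed (H : Set G)) :
    IsCompact ((H.map ρ : Subgroup (Mt r)ˣ) : Set (Mt r)ˣ) := by
  rw [Subgroup.coe_map]
  exact hH.isCompact.image hρ.cont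

/-- small elements of the image of a closed subgroup are images of small elements -/
lemma lift_near (H : Subgroup G) (hH : IsClosed (H : Set G)) {U : Set G} (hU : IsOpen U)
    (h1U : (1 : G) ∈ U) :
    ∀ᶠ u : (Mt r)ˣ in 𝓝 1, u ∈ H.map ρ → ∃ h ∈ H, h ∈ U ∧ ρ h = u := by
  set W : Set G := ⋃ k ∈ ((ρ.ker ⊓ H : Subgroup G) : Set G), (fun x => x * k⁻¹) ⁻¹' U with hW
  have hWo : IsOpen W := by
    refine isOpen_biUnion fun k _ => hU.preimage (by fun_prop)
  set C : Set G := (H : Set G) \ W with hC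
  have hCc : IsCompact C := hH.isCompact.diff hWo
  have hV : IsOpen (ρ '' C)ᶜ := (hCc.image hρ.cont).isClosed.isOpen_compl
  have h1V : (1 : (Mt r)ˣ) ∈ (ρ '' C)ᶜ := by
    rintro ⟨h, ⟨hhH, hhW⟩, hh1⟩
    apply hhW
    rw [hW, mem_iUnion₂]
    refine ⟨h, ⟨hh1, hhH⟩, ?_⟩
    show h * h⁻¹ ∈ U
    rw [mul_inv_cancel]
    exact h1U
  filter_upwards [hV.mem_nhds h1V] with u hu huH
  obtain ⟨h, hh, rfl⟩ := huH
  have h2 : h ∈ W := by
    by_contra h3
    exact hu ⟨h, ⟨hh, h3⟩, rfl⟩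
  rw [hW, mem_iUnion₂] at h2
  obtain ⟨k, hk, hkU⟩ := h2
  have hk1 : k ∈ ρ.ker := hk.1
  have hk2 : k ∈ H := hk.2
  refine ⟨h * k⁻¹, H.mul_mem hh (H.inv_mem hk2), hkU, ?_⟩
  rw [map_mul, map_inv, MonoidHom.mem_ker.1 hk1]
  simp

/-- The Lie algebra of a closed subgroup. -/
def lie (H : Subgroup G) (hH : IsClosed (H : Set G)) : Submodule ℝ (Mt r) :=
  lieAlg (H.map ρ) (closed_map hρ H hH)

lemma mem_lie {H : Subgroup G} {hH : IsClosed (H : Set G)} {X : Mt r} :
    X ∈ lie hρ H hH ↔ ∀ t : ℝ, ex (t • X) ∈ H.map ρ := Iff.rfl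

lemma lie_mono {H K : Subgroup G} {hH : IsClosed (H : Set G)} {hK : IsClosed (K : Set G)}
    (h : H ≤ K) : lie hρ H hH ≤ lie hρ K hK := fun _ hX t => Subgroup.map_mono h (hX t)

lemma lie_conj {H : Subgroup G} {hH : IsClosed (H : Set G)} {X : Mt r} (hX : X ∈ lie hρ H hH)
    {g : G} (hg : g ∈ H) : (ρ g : Mt r) * X * ((ρ g)⁻¹ : (Mt r)ˣ) ∈ lie hρ H hH :=
  conj_mem_lieAlg hX ⟨g, hg, rfl⟩

omit hρ in
lemma infinite_ex {X : Mt r} (hX : X ≠ 0) : (range fun t : ℝ => ex (t • X)).Infinite := by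
  have h1 := (exp_strict (A := Mt r)).eventually_left_inverse
  have h2 : Tendsto (fun t : ℝ => t • X) (𝓝 0) (𝓝 0) := by
    have : Continuous (fun t : ℝ => t • X) := by fun_prop
    simpa using this.tendsto 0
  have h3 := h2.eventually h1
  obtain ⟨δ, hδ, h4⟩ := Metric.eventually_nhds_iff_ball.1 h3
  have h5 : InjOn (fun t : ℝ => ex (t • X)) (Metric.ball 0 δ) := by
    intro s hs t ht he
    have h6 := h4 s hs
    have h7 := h4 t ht
    have h8 : exp (s • X) = exp (t • X) := congrArg (fun u : (Mt r)ˣ => (u : Mt r)) he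
    rw [h8] at h6
    have h9 : s • X = t • X := h6.symm.trans h7
    exact smul_left_injective ℝ hX h9
  have h6 : (Metric.ball (0 : ℝ) δ).Infinite := infinite_of_mem_nhds 0 (Metric.ball_mem_nhds 0 hδ)
  exact (h6.image h5).mono (image_subset_range _ _)

lemma preimage_finite {s : Set (Mt r)ˣ} (hs : s.Finite) : (ρ ⁻¹' s).Finite := by
  refine hs.preimage' fun b _ => ?_
  by_cases h : ∃ g, ρ g = b
  · obtain ⟨g, rfl⟩ := h
    have h1 : ρ ⁻¹' {ρ g} ⊆ (fun x => g * x) '' ((ρ.ker : Subgroup G) : Set G) := by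
      intro x hx
      refine ⟨g⁻¹ * x, ?_, by simp⟩
      have h2 : ρ x = ρ g := hx
      show g⁻¹ * x ∈ ρ.ker
      rw [MonoidHom.mem_ker, map_mul, map_inv, h2, inv_mul_cancel]
    exact (hρ.fin.image _).subset h1
  · have h1 : ρ ⁻¹' {b} = ∅ := by
      ext x
      simp only [mem_preimage, mem_singleton_iff, mem_empty_iff_false, iff_false]
      exact fun h2 => h ⟨x, h2⟩
    rw [h1]
    exact finite_empty

/-- An infinite closed subgroup has a nonzero Lie algebra. -/
theorem finite_of_lie_eq_bot {H : Subgroup G} {hH : IsClosed (H : Set G)}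
    (h : lie hρ H hH = ⊥) : (H : Set G).Finite := by
  have h1 := near_one (H.map ρ) (closed_map hρ H hH)
  have h2 : ∀ᶠ u : (Mt r)ˣ in 𝓝 1, u ∈ H.map ρ → u = 1 := by
    filter_upwards [h1] with u hu huH
    obtain ⟨X, hX, rfl⟩ := hu huH
    have h3 : X ∈ lie hρ H hH := hX
    rw [h, Submodule.mem_bot] at h3
    rw [h3, ex_zero]
  haveI : DiscreteTopology (H.map ρ) := by
    apply discreteTopology_of_isOpen_singleton_one
    rw [isOpen_singleton_iff_nhds_eq_pure, eq_comm]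
    refine le_antisymm (pure_le_nhds _) ?_
    rw [le_pure_iff, nhds_subtype_eq_comap, mem_comap]
    refine ⟨_, h2, ?_⟩
    rintro ⟨u, hu⟩ hu'
    exact Subtype.ext (hu' hu)
  have h3 : (((H.map ρ : Subgroup (Mt r)ˣ)) : Set (Mt r)ˣ).Finite :=
    (compact_map hρ H hH).finite (isDiscrete_iff_discreteTopology.2 this)
  refine (preimage_finite hρ h3).subset fun g hg => ?_
  exact ⟨g, hg, rfl⟩

omit hρ in
/-- the real part of the trace form -/
def trf (r : ℕ) : LinearMap.BilinForm ℝ (Mt r) :=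
  LinearMap.mk₂ ℝ (fun X Y => ((Xᴴ * Y).trace).re)
    (by intro X X' Y; simp [conjTranspose_add, add_mul])
    (by intro c X Y; simp [conjTranspose_smul])
    (by intro X Y Y'; simp [mul_add])
    (by intro c X Y; simp)

omit hρ in
lemma trf_apply (X Y : Mt r) : trf r X Y = ((Xᴴ * Y).trace).re := rfl

omit hρ in
lemma trf_symm (X Y : Mt r) : trf r X Y = trf r Y X := by
  rw [trf_apply, trf_apply]
  have h : (Yᴴ * X) = (Xᴴ * Y)ᴴ := by rw [conjTranspose_mul, conjTranspose_conjTranspose]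
  rw [h, trace_conjTranspose]
  simp

omit hρ in
open scoped ComplexOrder in
lemma trf_self {X : Mt r} (h : trf r X X = 0) : X = 0 := by
  rw [trf_apply] at h
  have h1 : (Xᴴ * X).trace = 0 := by
    have h2 : 0 ≤ (Xᴴ * X).trace := (posSemidef_conjTranspose_mul_self X).trace_nonneg
    have h3 := (Complex.nonneg_iff.1 h2).2
    exact Complex.ext h h3.symm
  exact trace_conjTranspose_mul_self_eq_zero_iff.1 h1

/-- the trace form is invariant -/
lemma trf_conj (X Y : Mt r) (g : G) :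
    trf r X ((ρ g : Mt r) * Y * ((ρ g)⁻¹ : (Mt r)ˣ)) =
      trf r ((ρ g⁻¹ : Mt r) * X * ((ρ g⁻¹)⁻¹ : (Mt r)ˣ)) Y := by
  rw [trf_apply, trf_apply]
  have h1 : (ρ g⁻¹ : Mt r) = (ρ g : Mt r)ᴴ := by
    rw [map_inv]; exact hρ.unit g
  have h2 : ((ρ g⁻¹)⁻¹ : (Mt r)ˣ).val = (ρ g : Mt r) := by
    rw [map_inv, inv_inv]
  rw [h1, h2, hρ.unit g, conjTranspose_mul, conjTranspose_mul, conjTranspose_conjTranspose]
  congr 1
  rw [← Matrix.mul_assoc, ← Matrix.mul_assoc, Matrix.trace_mul_comm, Matrix.mul_assoc,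
    Matrix.mul_assoc, Matrix.mul_assoc]

variable [ConnectedSpace G] (hG : Simp G)

include hG

omit hG in
/-- An element which commutes with everything up to the kernel is central. -/
lemma central_of {z : G} (hz : ∀ g, ρ z * ρ g = ρ g * ρ z) (g : G) : z * g = g * z := by
  haveI : Finite (ρ.ker) := hρ.fin
  let f : G → ρ.ker := fun g => ⟨z * g * z⁻¹ * g⁻¹, by
    rw [MonoidHom.mem_ker, map_mul, map_mul, map_mul, hz, mul_assoc (ρ g), map_inv, map_inv,
      mul_inv_cancel, mul_one, mul_inv_cancel]⟩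
  have hf : Continuous f := Continuous.subtype_mk (by fun_prop) _
  have h1 : f g = f 1 := PreconnectedSpace.constant inferInstance hf
  have h2 : z * g * z⁻¹ * g⁻¹ = z * 1 * z⁻¹ * 1⁻¹ := congrArg Subtype.val h1
  simp only [mul_one, mul_inv_cancel, inv_one] at h2
  have h3 : z * g * z⁻¹ = g := by
    rw [← mul_inv_eq_one]; exact h2
  exact mul_inv_eq_iff_eq_mul.1 h3

/-- the whole Lie algebra -/
abbrev lieT : Submodule ℝ (Mt r) := lie hρ (⊤ : Subgroup G) isClosed_univ

omit hG in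
lemma exists_ex {X : Mt r} (hX : X ∈ lieT hρ) (t : ℝ) : ∃ g : G, ρ g = ex (t • X) := by
  obtain ⟨g, -, hg⟩ := hX t
  exact ⟨g, hg⟩

/-- Nothing nonzero in the Lie algebra is centralised by the whole group. -/
lemma no_center {X : Mt r} (hX : X ∈ lieT hρ) (h : ∀ g : G, (ρ g : Mt r) * X = X * (ρ g : Mt r)) :
    X = 0 := by
  by_contra hX0
  have h1 : (Subgroup.center G : Set G).Infinite := by
    have h2 : (ρ ⁻¹' (range fun t : ℝ => ex (t • X))).Infinite := by
      intro hfin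
      apply infinite_ex hX0
      refine (hfin.image ρ).subset ?_
      rintro _ ⟨t, rfl⟩
      obtain ⟨g, hg⟩ := exists_ex hρ hX t
      exact ⟨g, ⟨t, hg.symm⟩, hg⟩
    refine h2.mono ?_
    rintro z ⟨t, ht⟩
    rw [SetLike.mem_coe, Subgroup.mem_center_iff]
    intro g
    refine (central_of hρ (z := z) (fun g => ?_) g).symm
    have ht' : ρ z = ex (t • X) := ht.symm
    rw [ht']
    have h3 : (ρ g : Mt r) * (t • X) * ((ρ g)⁻¹ : (Mt r)ˣ) = t • X := by
      rw [mul_smul_comm, h g, ← smul_mul_assoc, Matrix.mul_assoc, Units.mul_inv, Matrix.mul_one]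
    have h4 := ex_conj (ρ g) (t • X)
    rw [h3] at h4
    rw [eq_mul_inv_iff_mul_eq] at h4
    exact h4
  have h2 : IsClosed (Subgroup.center G : Set G) := by
    have : (Subgroup.center G : Set G) = ⋂ g : G, {z | g * z = z * g} := by
      ext z
      simp [Subgroup.mem_center_iff]
    rw [this]
    exact isClosed_iInter fun g => isClosed_eq (by fun_prop) (by fun_prop)
  rcases hG.norm _ inferInstance h2 with h3 | h3
  · exact h1 h3
  · obtain ⟨a, b, hab⟩ := hG.nonab
    have h4 : b ∈ Subgroup.center G := by rw [h3]; trivial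
    exact hab (Subgroup.mem_center_iff.1 h4 a)

/-- The adjoint representation is irreducible. -/
theorem irred {a : Submodule ℝ (Mt r)} (ha : a ≤ lieT hρ)
    (hinv : ∀ g : G, ∀ X ∈ a, (ρ g : Mt r) * X * ((ρ g)⁻¹ : (Mt r)ˣ) ∈ a) :
    a = ⊥ ∨ a = lieT hρ := by
  set b : Submodule ℝ (Mt r) := lieT hρ ⊓ (trf r).orthogonal a with hb
  have hmemb : ∀ Y, Y ∈ b ↔ Y ∈ lieT hρ ∧ ∀ X ∈ a, trf r X Y = 0 := by
    intro Y
    rw [hb, Submodule.mem_inf, LinearMap.BilinForm.mem_orthogonal_iff]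
  have hinvb : ∀ g : G, ∀ Y ∈ b, (ρ g : Mt r) * Y * ((ρ g)⁻¹ : (Mt r)ˣ) ∈ b := by
    intro g Y hY
    rw [hmemb] at hY ⊢
    refine ⟨lie_conj hρ hY.1 (Subgroup.mem_top g), fun X hX => ?_⟩
    rw [trf_conj hρ]
    exact hY.2 _ (hinv _ _ hX)
  have hcomm : ∀ X ∈ a, ∀ Y ∈ b, X * Y = Y * X := by
    intro X hX Y hY
    have hconj : ∀ (c : Submodule ℝ (Mt r)) (Z W : Mt r), Z ∈ lieT hρ →
        (∀ g : G, ∀ X ∈ c, (ρ g : Mt r) * X * ((ρ g)⁻¹ : (Mt r)ˣ) ∈ c) → W ∈ c →
        Z * W - W * Z ∈ c := by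
      intro c Z W hZ hc hW
      refine bracket_mem c c.closed_of_finiteDimensional Z W hW (Eventually.of_forall fun t => ?_)
      obtain ⟨g, hg⟩ := exists_ex hρ hZ t
      have h1 := hc g W hW
      rw [hg] at h1
      exact h1
    have h1 : X * Y - Y * X ∈ b := hconj b X Y (ha hX) hinvb hY
    have h2 : Y * X - X * Y ∈ a := hconj a Y X ((hmemb Y).1 hY).1 hinv hX
    have h3 : X * Y - Y * X ∈ a := by
      have := a.neg_mem h2
      rwa [neg_sub] at this
    have h4 := ((hmemb _).1 h1).2 _ h3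
    exact sub_eq_zero.1 (trf_self h4)
  by_cases ha0 : a = ⊥
  · exact Or.inl ha0
  right
  have hb0 : b = ⊥ := by
    by_contra hb0
    obtain ⟨Y, hY, hY0⟩ := Submodule.exists_mem_ne_zero_of_ne_bot hb0
    obtain ⟨X, hX, hX0⟩ := Submodule.exists_mem_ne_zero_of_ne_bot ha0
    -- the centraliser of `a`
    let N : Subgroup G :=
      { carrier := {g | ∀ X ∈ a, (ρ g : Mt r) * X = X * (ρ g : Mt r)}
        one_mem' := by intro X _; simp
        mul_mem' := by
          intro g h hg hh X hX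
          rw [map_mul, Units.val_mul, Matrix.mul_assoc, hh X hX, ← Matrix.mul_assoc, hg X hX,
            Matrix.mul_assoc]
        inv_mem' := by
          intro g hg X hX
          rw [map_inv]
          have h1 := hg X hX
          calc ((ρ g)⁻¹ : (Mt r)ˣ).val * X
              = ((ρ g)⁻¹ : (Mt r)ˣ).val * (X * ((ρ g : Mt r) * ((ρ g)⁻¹ : (Mt r)ˣ))) := by
                rw [Units.mul_inv, Matrix.mul_one]
            _ = ((ρ g)⁻¹ : (Mt r)ˣ).val * ((X * (ρ g : Mt r)) * ((ρ g)⁻¹ : (Mt r)ˣ)) := by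
                rw [Matrix.mul_assoc X]
            _ = ((ρ g)⁻¹ : (Mt r)ˣ).val * (((ρ g : Mt r) * X) * ((ρ g)⁻¹ : (Mt r)ˣ)) := by
                rw [h1]
            _ = (((ρ g)⁻¹ : (Mt r)ˣ).val * (ρ g : Mt r)) * X * ((ρ g)⁻¹ : (Mt r)ˣ) := by
                simp only [Matrix.mul_assoc]
            _ = X * ((ρ g)⁻¹ : (Mt r)ˣ) := by
                rw [Units.inv_mul, Matrix.one_mul] }
    have hNmem : ∀ g, g ∈ N ↔ ∀ X ∈ a, (ρ g : Mt r) * X = X * (ρ g : Mt r) := fun _ => Iff.rfl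
    have hNn : N.Normal := by
      constructor
      intro n hn g
      rw [hNmem] at hn ⊢
      intro X hX
      have h1 := hn _ (hinv g⁻¹ X hX)
      rw [map_inv, inv_inv] at h1
      rw [map_mul, map_mul, map_inv, Units.val_mul, Units.val_mul]
      calc (ρ g : Mt r) * (ρ n : Mt r) * ((ρ g)⁻¹ : (Mt r)ˣ) * X
          = (ρ g : Mt r) * ((ρ n : Mt r) * (((ρ g)⁻¹ : (Mt r)ˣ) * X * (ρ g : Mt r))) *
            ((ρ g)⁻¹ : (Mt r)ˣ) := by
            simp only [Matrix.mul_assoc, Units.mul_inv, Matrix.mul_one]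
        _ = (ρ g : Mt r) * ((((ρ g)⁻¹ : (Mt r)ˣ) * X * (ρ g : Mt r)) * (ρ n : Mt r)) *
            ((ρ g)⁻¹ : (Mt r)ˣ) := by rw [h1]
        _ = X * ((ρ g : Mt r) * (ρ n : Mt r) * ((ρ g)⁻¹ : (Mt r)ˣ)) := by
            simp only [← Matrix.mul_assoc, Units.mul_inv, Matrix.one_mul]
    have hNc : IsClosed (N : Set G) := by
      have : (N : Set G) = ⋂ X ∈ a, {g | (ρ g : Mt r) * X = X * (ρ g : Mt r)} := by
        ext g
        simp only [SetLike.mem_coe, hNmem, mem_iInter, mem_setOf_eq]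
      rw [this]
      have hc : Continuous fun g => (ρ g : Mt r) := Units.continuous_val.comp hρ.cont
      exact isClosed_biInter fun X _ => isClosed_eq (hc.mul continuous_const)
        (continuous_const.mul hc)
    rcases hG.norm N hNn hNc with h1 | h1
    · have h2 : (ρ ⁻¹' (range fun t : ℝ => ex (t • Y))).Infinite := by
        intro hfin
        apply infinite_ex hY0
        refine (hfin.image ρ).subset ?_
        rintro _ ⟨t, rfl⟩
        obtain ⟨g, hg⟩ := exists_ex hρ ((hmemb Y).1 hY).1 t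
        exact ⟨g, ⟨t, hg.symm⟩, hg⟩
      apply h2
      refine h1.subset ?_
      rintro z ⟨t, ht⟩
      have ht' : ρ z = ex (t • Y) := ht.symm
      rw [SetLike.mem_coe, hNmem]
      intro X hX
      rw [ht', ex_val]
      have h3 : Commute (t • Y) X := by
        show t • Y * X = X * (t • Y)
        rw [smul_mul_assoc, mul_smul_comm, hcomm X hX Y hY]
      exact (h3.exp_left).eq
    · apply hX0
      refine no_center hρ hG (ha hX) fun g => ?_
      have h2 : g ∈ N := by rw [h1]; trivial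
      exact h2 X hX
  refine le_antisymm ha fun Y hY => ?_
  have hcompl : IsCompl a ((trf r).orthogonal a) := by
    rw [LinearMap.BilinForm.isCompl_orthogonal_iff_disjoint
      (fun X Y h => by rw [trf_symm]; exact h)]
    rw [Submodule.disjoint_def]
    intro X hX hX'
    rw [LinearMap.BilinForm.mem_orthogonal_iff] at hX'
    exact trf_self (hX' X hX)
  obtain ⟨X, hX, Z, hZ, hXZ⟩ := Submodule.mem_sup.1 (by
    rw [hcompl.sup_eq_top]; trivial : Y ∈ a ⊔ (trf r).orthogonal a)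
  have hZb : Z ∈ b := by
    rw [hb, Submodule.mem_inf]
    refine ⟨?_, hZ⟩
    have : Z = Y - X := by rw [← hXZ]; abel
    rw [this]
    exact (lieT hρ).sub_mem hY (ha hX)
  rw [hb0, Submodule.mem_bot] at hZb
  rw [hZb, add_zero] at hXZ
  rw [← hXZ]
  exact hX

end

end

end Run7.h421
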