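import Pool.Agent.Run7.h421.ProdN
import Pool.Agent.Run7.h421.Gen2

/-!
# Two one-parameter groups which generate a dense subgroup
-/

set_option autoImplicit false
set_option linter.unusedSectionVars false

namespace Run7.h421

open Set Filter Topology NormedSpace Matrix
open scoped Matrix.Norms.L2Operator
open Pool.Agent.E8helper46.FL

noncomputable section

variable {G : Type*} [TopologicalSpace G] [Group G] [IsTopologicalGroup G] [CompactSpace G]
  [T2Space G] {r : ℕ} {ρ : G →* (Mt r)ˣ} (hρ : IsFRep ρ)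

/-- Elements of the Lie algebra are skew-hermitian. -/
lemma skewH {X : Mt r} (hX : X ∈ lieT hρ) : Xᴴ = - X := by
  have h1 := (exp_strict (A := Mt r)).eventually_left_inverse
  have h2 : Tendsto (fun t : ℝ => t • Xᴴ) (𝓝 0) (𝓝 0) := by
    have : Continuous (fun t : ℝ => t • Xᴴ) := by fun_prop
    simpa using this.tendsto 0
  have h3 : Tendsto (fun t : ℝ => t • (-X)) (𝓝 0) (𝓝 0) := by
    have : Continuous (fun t : ℝ => t • (-X)) := by fun_prop
    simpa using this.tendsto 0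
  have h4 : ∀ t : ℝ, exp (t • Xᴴ) = exp (t • (-X)) := by
    intro t
    obtain ⟨g, -, hg⟩ := hX t
    have h5 := hρ.unit g
    rw [hg] at h5
    have h6 : ((ex (t • X))⁻¹ : (Mt r)ˣ).val = exp (-(t • X)) := rfl
    rw [h6, ex_val, ← Matrix.exp_conjTranspose, conjTranspose_smul] at h5
    rw [smul_neg, h5]
    simp
  have h5 := (h2.eventually h1).and (h3.eventually h1)
  obtain ⟨δ, hδ, h6⟩ := Metric.eventually_nhds_iff_ball.1 h5
  have hmem : δ / 2 ∈ Metric.ball (0 : ℝ) δ := by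
    rw [Metric.mem_ball, dist_zero_right, Real.norm_of_nonneg (by positivity)]
    linarith
  obtain ⟨h7, h8⟩ := h6 _ hmem
  rw [h4] at h7
  have h9 : (δ / 2) • Xᴴ = (δ / 2) • (-X) := h7.symm.trans h8
  exact smul_right_injective (Mt r) (by positivity : (δ / 2 : ℝ) ≠ 0) h9

lemma lie_bracket {H : Subgroup G} {hH : IsClosed (H : Set G)} {X Y : Mt r}
    (hX : X ∈ lie hρ H hH) (hY : Y ∈ lie hρ H hH) : X * Y - Y * X ∈ lie hρ H hH := by
  refine bracket_mem _ (lie hρ H hH).closed_of_finiteDimensional X Y hY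
    (Eventually.of_forall fun t => ?_)
  obtain ⟨g, hg, hgt⟩ := hX t
  have h1 := lie_conj hρ hY hg
  rw [hgt] at h1
  exact h1

lemma near_exp : ∀ᶠ g : G in 𝓝 1, ∃ X ∈ lieT hρ, ρ g = ex X := by
  have h1 := near_one ((⊤ : Subgroup G).map ρ) (closed_map hρ ⊤ isClosed_univ)
  have hρ1 : Tendsto ρ (𝓝 1) (𝓝 1) := by
    have := hρ.cont.tendsto 1
    rwa [map_one] at this
  filter_upwards [hρ1.eventually h1] with g hg
  exact hg ⟨g, trivial, rfl⟩

variable [ConnectedSpace G]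

omit [CompactSpace G] [T2Space G] in
lemma eq_top_of_nhds {H : Subgroup G} (h : ∀ᶠ g in 𝓝 (1 : G), g ∈ H) : H = ⊤ := by
  have h1 : IsOpen (H : Set G) := H.isOpen_of_mem_nhds h
  have h2 : IsClosed (H : Set G) := Subgroup.isClosed_of_isOpen H h1
  have h3 : IsClopen (H : Set G) := ⟨h2, h1⟩
  have h4 := h3.eq_univ ⟨1, H.one_mem⟩
  exact SetLike.coe_injective (by rw [h4]; rfl)

/-- A closed subgroup with the full Lie algebra is everything. -/
theorem top_of_lie {H : Subgroup G} {hH : IsClosed (H : Set G)} (h : lie hρ H hH = lieT hρ) :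
    H = ⊤ := by
  obtain ⟨O, hO, h1O, hinj⟩ := inj_near hρ
  have hρ1 : Tendsto ρ (𝓝 1) (𝓝 1) := by
    have := hρ.cont.tendsto 1
    rwa [map_one] at this
  apply eq_top_of_nhds
  filter_upwards [near_exp hρ, hρ1.eventually (lift_near hρ H hH hO h1O), hO.mem_nhds h1O] with
    g ⟨X, hX, hgX⟩ hg2 hgO
  rw [← h] at hX
  have h1 : ρ g ∈ H.map ρ := by
    rw [hgX]
    exact ex_mem hX
  obtain ⟨k, hk, hkO, hkg⟩ := hg2 h1
  rw [← hinj k hkO g hgO hkg]
  exact hk

variable (hG : Simp G)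

include hG

/-- The Lie algebra has no centre. -/
lemma no_center' {X : Mt r} (hX : X ∈ lieT hρ) (h : ∀ Y ∈ lieT hρ, X * Y - Y * X = 0) :
    X = 0 := by
  refine no_center hρ hG hX fun g => ?_
  let N : Subgroup G :=
    { carrier := {g | (ρ g : Mt r) * X * ((ρ g)⁻¹ : (Mt r)ˣ) = X}
      one_mem' := by simp
      mul_mem' := by
        intro a b ha hb
        show (ρ (a * b) : Mt r) * X * ((ρ (a * b))⁻¹ : (Mt r)ˣ) = X
        have ha' : (ρ a : Mt r) * X * ((ρ a)⁻¹ : (Mt r)ˣ) = X := ha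
        have hb' : (ρ b : Mt r) * X * ((ρ b)⁻¹ : (Mt r)ˣ) = X := hb
        rw [map_mul, _root_.mul_inv_rev, Units.val_mul, Units.val_mul]
        calc (ρ a : Mt r) * (ρ b : Mt r) * X * (((ρ b)⁻¹ : (Mt r)ˣ) * ((ρ a)⁻¹ : (Mt r)ˣ))
            = (ρ a : Mt r) * ((ρ b : Mt r) * X * ((ρ b)⁻¹ : (Mt r)ˣ)) * ((ρ a)⁻¹ : (Mt r)ˣ) := by
              simp only [Matrix.mul_assoc]
          _ = X := by rw [hb', ha']
      inv_mem' := by
        intro a ha
        have ha' : (ρ a : Mt r) * X * ((ρ a)⁻¹ : (Mt r)ˣ) = X := ha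
        show (ρ a⁻¹ : Mt r) * X * ((ρ a⁻¹)⁻¹ : (Mt r)ˣ) = X
        rw [map_inv, inv_inv]
        nth_rewrite 1 [← ha']
        simp only [← Matrix.mul_assoc, Units.inv_mul, Matrix.one_mul]
        rw [Matrix.mul_assoc, Units.inv_mul, Matrix.mul_one] }
  have hN : N = ⊤ := by
    apply eq_top_of_nhds
    filter_upwards [near_exp hρ] with g ⟨Y, hY, hgY⟩
    show (ρ g : Mt r) * X * ((ρ g)⁻¹ : (Mt r)ˣ) = X
    have hc : Commute Y X := (sub_eq_zero.1 (h Y hY)).symm
    have h1 : Commute (exp Y) X := hc.exp_left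
    rw [hgY, ex_val, h1.eq, ← ex_val, Matrix.mul_assoc, Units.mul_inv, Matrix.mul_one]
  have hg : g ∈ N := by rw [hN]; trivial
  have hg' : (ρ g : Mt r) * X * ((ρ g)⁻¹ : (Mt r)ˣ) = X := hg
  calc (ρ g : Mt r) * X = (ρ g : Mt r) * X * (((ρ g)⁻¹ : (Mt r)ˣ) * (ρ g : Mt r)) := by
        rw [Units.inv_mul, Matrix.mul_one]
    _ = (ρ g : Mt r) * X * ((ρ g)⁻¹ : (Mt r)ˣ) * (ρ g : Mt r) := by
        simp only [Matrix.mul_assoc]
    _ = X * (ρ g : Mt r) := by rw [hg']

omit [ConnectedSpace G] hG in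
lemma trf_skew {X : Mt r} (hX : Xᴴ = - X) (Y Z : Mt r) :
    trf r (X * Y - Y * X) Z = - trf r Y (X * Z - Z * X) := by
  rw [trf_apply, trf_apply, conjTranspose_sub, conjTranspose_mul, conjTranspose_mul, hX]
  have h1 : ((Yᴴ * -X - -X * Yᴴ) * Z).trace = -(Yᴴ * (X * Z - Z * X)).trace := by
    have h2 : (X * Yᴴ * Z).trace = (Yᴴ * Z * X).trace := by
      rw [Matrix.mul_assoc, Matrix.trace_mul_comm]
    simp only [Matrix.sub_mul, Matrix.mul_sub, Matrix.neg_mul, Matrix.mul_neg, trace_sub,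
      trace_neg, ← Matrix.mul_assoc]
    rw [h2]
    ring
  rw [h1, Complex.neg_re]

omit [TopologicalSpace G] [Group G] [IsTopologicalGroup G] [CompactSpace G]
  [T2Space G] [ConnectedSpace G] hG in
open scoped ComplexOrder in
lemma trf_nonneg (X : Mt r) : 0 ≤ trf r X X := by
  rw [trf_apply]
  have h2 : 0 ≤ (Xᴴ * X).trace := (posSemidef_conjTranspose_mul_self X).trace_nonneg
  exact (Complex.nonneg_iff.1 h2).1

/-- Two elements of the Lie algebra which lie in no proper subalgebra. -/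
theorem exists_pair : ∃ X ∈ lieT hρ, ∃ Y ∈ lieT hρ, ∀ h : Submodule ℝ (Mt r), h ≤ lieT hρ →
    X ∈ h → Y ∈ h → (∀ a ∈ h, ∀ b ∈ h, a * b - b * a ∈ h) → h = lieT hρ := by
  let br : lieT hρ →ₗ[ℝ] lieT hρ →ₗ[ℝ] lieT hρ :=
    LinearMap.mk₂ ℝ (fun x y => ⟨(x : Mt r) * y - y * x, lie_bracket hρ x.2 y.2⟩)
      (by intro x x' y; apply Subtype.ext; simp [add_mul, mul_add]; abel)
      (by intro c x y; apply Subtype.ext; simp [smul_sub])
      (by intro x y y'; apply Subtype.ext; simp [add_mul, mul_add]; abel)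
      (by intro c x y; apply Subtype.ext; simp [smul_sub])
  have hbr : ∀ x y : lieT hρ, ((br x y : lieT hρ) : Mt r) = (x : Mt r) * y - y * x :=
    fun _ _ => rfl
  let B : lieT hρ →ₗ[ℝ] lieT hρ →ₗ[ℝ] ℝ :=
    (trf r).domRestrict₁₂ (lieT hρ) (lieT hρ)
  have hB : ∀ x y : lieT hρ, B x y = trf r (x : Mt r) (y : Mt r) := fun _ _ => rfl
  obtain ⟨X, Y, hXY⟩ := gen2' B (fun x y => by rw [hB, hB, trf_symm]) (fun x => trf_nonneg _)
    (fun x h => Subtype.ext (trf_self h)) br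
    (fun x y => by apply Subtype.ext; rw [hbr]; show _ = -((y : Mt r) * x - x * y); abel)
    (fun x y z => by
      apply Subtype.ext
      show (x : Mt r) * (y * z - z * y) - (y * z - z * y) * x =
        ((x : Mt r) * y - y * x) * z - z * (x * y - y * x) + (y * (x * z - z * x) - (x * z - z * x) * y)
      simp only [mul_sub, sub_mul, Matrix.mul_assoc]
      abel)
    (fun x y z => by
      rw [hB, hB, hbr, hbr]
      exact trf_skew (skewH hρ x.2) _ _)
    (fun x h => Subtype.ext (no_center' hρ hG x.2 fun Y hY => by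
      have := congrArg Subtype.val (h ⟨Y, hY⟩)
      exact this))
  refine ⟨X, X.2, Y, Y.2, fun h hle hX hY hcl => ?_⟩
  have h1 := hXY (h.comap (lieT hρ).subtype) hX hY (fun a ha b hb => hcl _ ha _ hb)
  refine le_antisymm hle fun Z hZ => ?_
  have h2 : (⟨Z, hZ⟩ : lieT hρ) ∈ h.comap (lieT hρ).subtype := by rw [h1]; trivial
  exact h2

end

end Run7.h421
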