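import Mathlib

/-!
# Finite-dimensional invariant subspaces of unitary representations of compact groups

The first part (averaging of rank one operators) follows the starting files
`Pool/Agent/Helper110/Kuiper.lean` and `Pool/Agent/Y495/KP/Rep.lean`.
-/

set_option autoImplicit false
set_option linter.unusedSectionVars false

namespace Run7.h421

open MeasureTheory InnerProductSpace

noncomputable section

variable {G : Type*} [TopologicalSpace G] [Group G] [IsTopologicalGroup G] [CompactSpace G]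
variable {E : Type*} [NormedAddCommGroup E] [InnerProductSpace ℂ E] [CompleteSpace E]

/-- The operator `z ↦ ⟪x, z⟫ x`. -/
def prj (x : E) : E →L[ℂ] E := rankOne ℂ x x

/-- Compact selfadjoint operators. -/
def cptSa (E : Type*) [NormedAddCommGroup E] [InnerProductSpace ℂ E] [CompleteSpace E] :
    Set (E →L[ℂ] E) := {T | IsCompactOperator T ∧ IsSelfAdjoint T}

lemma prj_mem (x : E) : prj x ∈ cptSa E := by
  refine ⟨?_, ?_⟩
  · rw [prj, rankOne_def']
    exact (isCompactOperator_of_locallyCompactSpace_rng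
      (ContinuousLinearMap.toSpanSingleton ℂ x)).comp_clm (innerSL ℂ x)
  · rw [ContinuousLinearMap.isSelfAdjoint_iff', prj, InnerProductSpace.adjoint_rankOne]

lemma closed_cptSa : IsClosed (cptSa E) := by
  refine IsClosed.inter isClosed_setOfPred_isCompactOperator ?_
  exact isClosed_eq continuous_star continuous_id

lemma convex_cptSa : Convex ℝ (cptSa E) := by
  intro S hS T hT a b _ _ _
  refine ⟨?_, ?_⟩
  · exact (hS.1.smul a).add (hT.1.smul b)
  · exact (IsSelfAdjoint.smul (IsSelfAdjoint.all a) hS.2).add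
      (IsSelfAdjoint.smul (IsSelfAdjoint.all b) hT.2)

lemma prj_continuous : Continuous (prj : E → (E →L[ℂ] E)) := by
  have h1 : Continuous fun x : E => (innerSL ℂ x : E →L[ℂ] ℂ) := (innerSL ℂ).continuous
  exact ((ContinuousLinearMap.smulRightL ℂ E E).continuous.comp h1).clm_apply continuous_id

section meas

variable [MeasurableSpace G] [BorelSpace G]

lemma integrable_cont (μ : Measure G) [IsFiniteMeasureOnCompacts μ]
    {F : Type*} [NormedAddCommGroup F] {P : G → F} (hP : Continuous P) : Integrable P μ :=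
  hP.integrable_of_hasCompactSupport (HasCompactSupport.of_compactSpace P)

/-- The averaged operator. -/
def avg (μ : Measure G) (π : G →* (E ≃ₗᵢ[ℂ] E)) (v : E) : E →L[ℂ] E := ∫ g, prj (π g v) ∂μ

variable (μ : Measure G) [μ.IsHaarMeasure] [IsProbabilityMeasure μ]
  (π : G →* (E ≃ₗᵢ[ℂ] E)) (hπ : ∀ v, Continuous fun g => π g v) (v : E)

include hπ

lemma integrable_prj : Integrable (fun g => prj (π g v)) μ :=
  integrable_cont μ (prj_continuous.comp (hπ v))

lemma avg_mem : avg μ π v ∈ cptSa E := by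
  unfold avg
  have h1 := integrable_prj μ π hπ v
  have h2 : ∀ᵐ g ∂μ, prj (π g v) ∈ cptSa E := Filter.Eventually.of_forall fun g => prj_mem (π g v)
  have h3 := convex_cptSa (E := E)
  have h4 := closed_cptSa (E := E)
  exact h3.integral_mem h4 h2 h1

lemma avg_apply (x : E) : avg μ π v x = ∫ g, inner ℂ (π g v) x • π g v ∂μ := by
  rw [avg, ContinuousLinearMap.integral_apply (integrable_prj μ π hπ v)]
  rfl

lemma avg_comm (h : G) (x : E) : avg μ π v (π h x) = π h (avg μ π v x) := by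
  rw [avg_apply μ π hπ v, avg_apply μ π hπ v]
  have hc : Continuous fun g => inner ℂ (π g v) x • π g v :=
    ((hπ v).inner continuous_const).smul (hπ v)
  have h1 : π h (∫ g, inner ℂ (π g v) x • π g v ∂μ)
      = ∫ g, π h (inner ℂ (π g v) x • π g v) ∂μ :=
    ((π h).toContinuousLinearEquiv.toContinuousLinearMap.integral_comp_comm
      (integrable_cont μ hc)).symm
  rw [h1]
  rw [← integral_mul_left_eq_self (fun g => inner ℂ (π g v) (π h x) • π g v) h]
  refine integral_congr_ae (Filter.Eventually.of_forall fun g => ?_)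
  show inner ℂ (π (h * g) v) (π h x) • π (h * g) v = π h (inner ℂ (π g v) x • π g v)
  rw [map_mul, map_smul]
  show inner ℂ (π h (π g v)) (π h x) • π h (π g v) = _
  rw [LinearIsometryEquiv.inner_map_map]

lemma avg_pos (hv : v ≠ 0) : avg μ π v v ≠ 0 := by
  intro h0
  have h1 : inner ℂ v (avg μ π v v) = 0 := by rw [h0, inner_zero_right]
  rw [avg_apply μ π hπ v] at h1
  have hc : Continuous fun g => inner ℂ (π g v) v • π g v :=
    ((hπ v).inner continuous_const).smul (hπ v)
  have h2 : inner ℂ v (∫ g, inner ℂ (π g v) v • π g v ∂μ)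
      = ∫ g, inner ℂ v (inner ℂ (π g v) v • π g v) ∂μ :=
    ((innerSL ℂ v).integral_comp_comm (integrable_cont μ hc)).symm
  rw [h2] at h1
  have h3 : ∀ g, inner ℂ v (inner ℂ (π g v) v • π g v) = ((‖inner ℂ (π g v) v‖ ^ 2 : ℝ) : ℂ) := by
    intro g
    rw [inner_smul_right, ← inner_conj_symm v (π g v), RCLike.mul_conj]
    norm_cast
  simp_rw [h3] at h1
  rw [integral_complex_ofReal] at h1
  have h4 : ∫ g, ‖inner ℂ (π g v) v‖ ^ 2 ∂μ = 0 := by exact_mod_cast h1
  have hc2 : Continuous fun g => ‖inner ℂ (π g v) v‖ ^ 2 :=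
    (((hπ v).inner continuous_const).norm).pow 2
  have h5 : 0 < ∫ g, ‖inner ℂ (π g v) v‖ ^ 2 ∂μ := by
    refine hc2.integral_pos_of_hasCompactSupport_nonneg_nonzero
      (HasCompactSupport.of_compactSpace _) (fun g => by positivity) (x := 1) ?_
    rw [map_one]
    show ‖inner ℂ v v‖ ^ 2 ≠ 0
    rw [inner_self_eq_norm_sq_to_K]
    have : ‖v‖ ≠ 0 := norm_ne_zero_iff.2 hv
    simp [this]
  exact h5.ne' h4

include μ in
/-- A strongly continuous unitary representation of a compact group has many finite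
dimensional invariant subspaces. -/
theorem exists_fd (hv : v ≠ 0) :
    ∃ V : Submodule ℂ E, FiniteDimensional ℂ V ∧ (∀ g, ∀ x ∈ V, π g x ∈ V) ∧
      ∃ x ∈ V, inner ℂ x v ≠ 0 := by
  have hT := avg_mem μ π hπ v
  have hsym : (avg μ π v : E →ₗ[ℂ] E).IsSymmetric :=
    ContinuousLinearMap.isSelfAdjoint_iff_isSymmetric.1 hT.2
  by_contra hcon
  have hall : ∀ c : ℂ, c ≠ 0 → ∀ x ∈ Module.End.eigenspace (avg μ π v : E →ₗ[ℂ] E) c,
      inner ℂ x v = 0 := by
    intro c hc x hx
    by_contra hne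
    refine hcon ⟨Module.End.eigenspace (avg μ π v : E →ₗ[ℂ] E) c,
      ContinuousLinearMap.finite_dimensional_eigenspace hT.1 c hc, ?_, x, hx, hne⟩
    intro g y hy
    rw [Module.End.mem_eigenspace_iff] at hy ⊢
    show avg μ π v (π g y) = c • π g y
    rw [avg_comm μ π hπ v]
    have hy' : avg μ π v y = c • y := hy
    rw [hy', map_smul]
  have h0 : avg μ π v v ∈ (⨆ c, Module.End.eigenspace (avg μ π v : E →ₗ[ℂ] E) c)ᗮ := by
    rw [← Submodule.iInf_orthogonal, Submodule.mem_iInf]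
    intro c
    rw [Submodule.mem_orthogonal]
    intro x hx
    have h1 : inner ℂ x (avg μ π v v) = inner ℂ (avg μ π v x) v := (hsym x v).symm
    have h2 : avg μ π v x = c • x := Module.End.mem_eigenspace_iff.1 hx
    rw [h1, h2, inner_smul_left]
    by_cases hc : c = 0
    · rw [hc]; simp
    · rw [hall c hc x hx, mul_zero]
  rw [ContinuousLinearMap.orthogonalComplement_iSup_eigenspaces_eq_bot hT.1 hsym,
    Submodule.mem_bot] at h0
  exact avg_pos μ π hπ v hv h0

end meas

/-- every strongly continuous representation of a compact group -/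
theorem exists_fd' (π : G →* (E ≃ₗᵢ[ℂ] E)) (hπ : ∀ v, Continuous fun g => π g v) (v : E)
    (hv : v ≠ 0) :
    ∃ V : Submodule ℂ E, FiniteDimensional ℂ V ∧ (∀ g, ∀ x ∈ V, π g x ∈ V) ∧
      ∃ x ∈ V, inner ℂ x v ≠ 0 := by
  letI : MeasurableSpace G := borel G
  haveI : BorelSpace G := ⟨rfl⟩
  let K : TopologicalSpace.PositiveCompacts G := ⊤
  haveI : IsProbabilityMeasure (Measure.haarMeasure K) := ⟨by
    have h := Measure.haarMeasure_self (K₀ := K)
    exact h⟩
  exact exists_fd (Measure.haarMeasure K) π hπ v hv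

/-- The operator `∑ s ∈ S, π s`. -/
def Dl {Γ : Type*} [Group Γ] (π : Γ →* (E ≃ₗᵢ[ℂ] E)) (S : Finset Γ) : Module.End ℂ E :=
  ∑ s ∈ S, ((π s).toLinearEquiv : E →ₗ[ℂ] E)

lemma Dl_apply {Γ : Type*} [Group Γ] (π : Γ →* (E ≃ₗᵢ[ℂ] E)) (S : Finset Γ) (v : E) :
    Dl π S v = ∑ s ∈ S, π s v := by
  rw [Dl, LinearMap.sum_apply]
  rfl

section Dl

variable {Γ : Type*} [Group Γ] (π : Γ →* (E ≃ₗᵢ[ℂ] E)) (S : Finset Γ)

lemma inner_pi_left (s : Γ) (v w : E) : inner ℂ (π s v) w = inner ℂ v (π s⁻¹ w) := by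
  have h : π s (π s⁻¹ w) = w := by
    have := congrArg (fun T : E ≃ₗᵢ[ℂ] E => T w) (map_mul π s s⁻¹)
    rw [mul_inv_cancel, map_one] at this
    exact this.symm
  conv_lhs => rw [← h]
  rw [LinearIsometryEquiv.inner_map_map]

lemma pi_mul (s t : Γ) (v : E) : π (s * t) v = π s (π t v) := by
  rw [map_mul]; rfl

lemma pi_one (v : E) : π (1 : Γ) v = v := by rw [map_one]; rfl

lemma pi_inv (s : Γ) (v : E) : π s (π s⁻¹ v) = v := by
  rw [← pi_mul, mul_inv_cancel, pi_one]

lemma pi_inv' (s : Γ) (v : E) : π s⁻¹ (π s v) = v := by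
  rw [← pi_mul, inv_mul_cancel, pi_one]

variable (hS : ∀ s ∈ S, s⁻¹ ∈ S)

include hS in
lemma sum_inv {F : Type*} [AddCommMonoid F] (f : Γ → F) : ∑ s ∈ S, f s⁻¹ = ∑ s ∈ S, f s := by
  refine Finset.sum_bij' (fun s _ => s⁻¹) (fun s _ => s⁻¹) hS hS ?_ ?_ ?_
  · intro s _; exact inv_inv s
  · intro s _; exact inv_inv s
  · intro s _; rfl

include hS in
lemma Dl_symm : (Dl π S).IsSymmetric := by
  intro v w
  rw [Dl_apply, Dl_apply, sum_inner, inner_sum]
  rw [← sum_inv S hS (fun s => inner ℂ v (π s w))]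
  exact Finset.sum_congr rfl fun s _ => inner_pi_left π s v w

/-- the basic identity -/
lemma sum_norm_sq (c : ℝ) (v : E) :
    ∑ s ∈ S, ‖π s v - (c : ℂ) • v‖ ^ 2 =
      (1 + c ^ 2) * S.card * ‖v‖ ^ 2 - 2 * c * (inner ℂ (Dl π S v) v).re := by
  have h1 : ∀ s, ‖π s v - (c : ℂ) • v‖ ^ 2 =
      (1 + c ^ 2) * ‖v‖ ^ 2 - 2 * c * (inner ℂ (π s v) v).re := by
    intro s
    have h := norm_sub_sq (𝕜 := ℂ) (π s v) ((c : ℂ) • v)
    rw [h, norm_smul, LinearIsometryEquiv.norm_map, inner_smul_right]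
    have h2 : RCLike.re ((c : ℂ) * inner ℂ (π s v) v) = c * (inner ℂ (π s v) v).re := by
      simp
    rw [h2]
    have h3 : ‖(c : ℂ)‖ = |c| := by simp
    rw [h3, mul_pow, sq_abs]
    ring
  simp_rw [h1]
  rw [Finset.sum_sub_distrib, Finset.sum_const, nsmul_eq_mul, ← Finset.mul_sum, Dl_apply,
    sum_inner, Complex.re_sum]
  ring

lemma inner_Dl_le (σ : ℝ) (hσ : σ = 1 ∨ σ = -1) (v : E) :
    σ * (inner ℂ (Dl π S v) v).re ≤ S.card * ‖v‖ ^ 2 := by
  have h := sum_norm_sq π S σ v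
  have h0 : 0 ≤ ∑ s ∈ S, ‖π s v - (σ : ℂ) • v‖ ^ 2 := Finset.sum_nonneg fun s _ => by positivity
  rw [h] at h0
  have hs : σ ^ 2 = 1 := by rcases hσ with rfl | rfl <;> norm_num
  rw [hs] at h0
  linarith

end Dl

end

end Run7.h421
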