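import Pool.Agent.Run7.h421.LieC

/-!
# Products of one-parameter groups cover a neighbourhood of the identity; spans of words
-/

set_option autoImplicit false
set_option linter.unusedSectionVars false

namespace Run7.h421

open Set Filter Topology NormedSpace
open Pool.Agent.E8helper46.FL

noncomputable section

section prod

variable {A : Type*} [NormedRing A] [NormedAlgebra ℝ A] [FiniteDimensional ℝ A]
  [CompleteSpace A]

omit [FiniteDimensional ℝ A] in
lemma hasDeriv_list {d : ℕ} {F : Type*} [NormedAddCommGroup F] [NormedSpace ℝ F]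
    (X : Fin d → A) (c : Fin d → (F →L[ℝ] ℝ)) (l : List (Fin d)) :
    HasStrictFDerivAt (fun p : F => (l.map fun i => exp (c i p • X i)).prod)
      ((l.map fun i => (c i).smulRight (X i)).sum) 0 ∧
      (l.map fun i => exp (c i 0 • X i)).prod = 1 := by
  induction l with
  | nil =>
    refine ⟨?_, rfl⟩
    simp only [List.map_nil, List.prod_nil, List.sum_nil]
    exact hasStrictFDerivAt_const _ _
  | cons i l ih =>
    have h0 : exp (c i 0 • X i) = 1 := by rw [map_zero, zero_smul, exp_zero]
    refine ⟨?_, by rw [List.map_cons, List.prod_cons, ih.2, h0, mul_one]⟩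
    have h := (hasStrictFDerivAt_exp_zero (𝕂 := ℝ) (𝔸 := A))
    have h' : HasStrictFDerivAt (exp : A → A) (1 : A →L[ℝ] A)
        (((c i).smulRight (X i) : F →L[ℝ] A) 0) := by
      simpa using h
    have h1 : HasStrictFDerivAt (fun p : F => exp (c i p • X i))
        ((c i).smulRight (X i)) 0 := by
      have h2 := h'.comp 0 ((c i).smulRight (X i)).hasStrictFDerivAt
      exact h2
    have h3 := h1.mul' ih.1
    simp only [List.map_cons, List.prod_cons, List.sum_cons]
    refine h3.congr_fderiv ?_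
    rw [h0, ih.2]
    ext p
    simp [add_comm]

/-- Small elements of a closed subgroup are products of small elements of one-parameter groups. -/
theorem prod_near (D : Subgroup Aˣ) (hD : IsClosed (D : Set Aˣ)) {d : ℕ} (X : Fin d → A)
    (hli : LinearIndependent ℝ X) (hsp : Submodule.span ℝ (range X) = lieAlg D hD)
    {δ : ℝ} (hδ : 0 < δ) :
    ∀ᶠ u : Aˣ in 𝓝 1, u ∈ D → ∃ t : Fin d → ℝ, (∀ i, |t i| < δ) ∧
      u = ((List.finRange d).map fun i => ex (t i • X i)).prod := by
  obtain ⟨m, hm⟩ := (lieAlg D hD).exists_isCompl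
  let b : Module.Basis (Fin d) ℝ (lieAlg D hD) :=
    (Module.Basis.span hli).map (LinearEquiv.ofEq _ _ hsp)
  have hb : ∀ i, (b i : A) = X i := by
    intro i
    simp [b, Module.Basis.span_apply]
  obtain ⟨e, he⟩ : ∃ e : ((Fin d → ℝ) × m) ≃L[ℝ] A, ∀ p, e p = (∑ i, p.1 i • X i) + p.2 := by
    refine ⟨((LinearEquiv.prodCongr b.equivFun.symm (LinearEquiv.refl ℝ m)).trans
      (Submodule.prodEquivOfIsCompl _ _ hm)).toContinuousLinearEquiv, fun p => ?_⟩
    simp [Module.Basis.equivFun_symm_apply, hb]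
  obtain ⟨ψ, hψ⟩ : ∃ ψ : (Fin d → ℝ) × m → A, ψ = fun p =>
      ((List.finRange d).map fun i => exp (p.1 i • X i)).prod * exp (p.2 : A) := ⟨_, rfl⟩
  let c : Fin d → (((Fin d → ℝ) × m) →L[ℝ] ℝ) := fun i =>
    (ContinuousLinearMap.proj i).comp (ContinuousLinearMap.fst ℝ _ _)
  have hc : ∀ i p, c i p = p.1 i := fun _ _ => rfl
  have hlist := hasDeriv_list X c (List.finRange d)
  have hψ0 : ψ 0 = 1 := by
    rw [hψ]
    have := hlist.2
    simp only [hc] at this
    show ((List.finRange d).map fun i => exp (((0 : (Fin d → ℝ) × m)).1 i • X i)).prod *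
      exp (((0 : (Fin d → ℝ) × m).2 : m) : A) = 1
    rw [this]
    simp
  have hψd : HasStrictFDerivAt ψ (e : ((Fin d → ℝ) × m) →L[ℝ] A) 0 := by
    have h2 : HasStrictFDerivAt (fun p : (Fin d → ℝ) × m => exp (p.2 : A))
        (m.subtypeL.comp (ContinuousLinearMap.snd ℝ _ _)) 0 := by
      have h := (hasStrictFDerivAt_exp_zero (𝕂 := ℝ) (𝔸 := A))
      have h' : HasStrictFDerivAt (exp : A → A) (1 : A →L[ℝ] A)
          ((m.subtypeL.comp (ContinuousLinearMap.snd ℝ (Fin d → ℝ) m)) 0) := by
        simpa using h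
      exact h'.comp 0 ((m.subtypeL.comp
        (ContinuousLinearMap.snd ℝ (Fin d → ℝ) m)).hasStrictFDerivAt)
    have h3 := hlist.1.mul' h2
    rw [hψ]
    refine h3.congr_fderiv ?_
    have h4 := hlist.2
    rw [h4]
    have h5 : ((List.finRange d).map fun i => (c i).smulRight (X i)).sum =
        ∑ i, (c i).smulRight (X i) := by
      rw [Fin.sum_univ_def]
    rw [h5]
    ext p
    · simp [he, c]
    · simp [he, c]
  obtain ⟨L, hL⟩ : ∃ L, L = hψd.localInverse _ _ _ := ⟨_, rfl⟩
  have hL1 : ∀ᶠ y in 𝓝 (1 : A), ψ (L y) = y := by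
    have := hψd.eventually_right_inverse
    rwa [hψ0, ← hL] at this
  have hL2 : Tendsto L (𝓝 1) (𝓝 0) := by
    have := hψd.localInverse_tendsto
    rwa [hψ0, ← hL] at this
  by_contra hcon
  have hfr : ∃ᶠ u : Aˣ in 𝓝 1, u ∈ D ∧ ∀ t : Fin d → ℝ, (∀ i, |t i| < δ) →
      u ≠ ((List.finRange d).map fun i => ex (t i • X i)).prod := by
    intro h
    apply hcon
    filter_upwards [h] with u hu huD
    by_contra h'
    push Not at h'
    exact hu ⟨huD, h'⟩
  have hfc : FirstCountableTopology Aˣ :=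
    (Units.isOpenEmbedding_val (R := A)).isInducing.firstCountableTopology
  obtain ⟨u, hu1, hu2⟩ := exists_seq_forall_of_frequently hfr
  have huv : Tendsto (fun n => (u n : A)) atTop (𝓝 1) := by
    have := (Units.continuous_val (M := A)).tendsto 1
    exact this.comp hu1
  have hp : Tendsto (fun n => L (u n)) atTop (𝓝 0) := hL2.comp huv
  have hval : ∀ t : Fin d → ℝ,
      ((((List.finRange d).map fun i => ex (t i • X i)).prod : Aˣ) : A) =
      ((List.finRange d).map fun i => exp (t i • X i)).prod := by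
    intro t
    have h1 := map_list_prod (Units.coeHom A) ((List.finRange d).map fun i => ex (t i • X i))
    rw [List.map_map] at h1
    exact h1
  have hex : ∀ᶠ n in atTop, u n = ((List.finRange d).map fun i => ex ((L (u n)).1 i • X i)).prod *
      ex ((L (u n)).2 : A) := by
    filter_upwards [huv.eventually hL1] with n hn
    ext
    rw [Units.val_mul, ex_val, hval]
    rw [hψ] at hn
    exact hn.symm
  have hsm : ∀ᶠ n in atTop, ∀ i, |(L (u n)).1 i| < δ := by
    have h1 : Tendsto (fun n => (L (u n)).1) atTop (𝓝 0) := by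
      have := (continuous_fst (X := Fin d → ℝ) (Y := m)).tendsto 0
      exact this.comp hp
    rw [eventually_all]
    intro i
    have h2 : Tendsto (fun n => |(L (u n)).1 i|) atTop (𝓝 0) := by
      have h3 := ((continuous_apply i).tendsto (0 : Fin d → ℝ)).comp h1
      have h4 := h3.abs
      simpa using h4
    exact h2.eventually (gt_mem_nhds hδ)
  have hmemD : ∀ t : Fin d → ℝ, ((List.finRange d).map fun i => ex (t i • X i)).prod ∈ D := by
    intro t
    refine D.list_prod_mem ?_
    intro x hx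
    obtain ⟨i, -, rfl⟩ := List.mem_map.1 hx
    have h1 : X i ∈ lieAlg D hD := by rw [← hsp]; exact Submodule.subset_span ⟨i, rfl⟩
    exact h1 _
  have hZ0 : ∀ᶠ n in atTop, (L (u n)).2 ≠ 0 := by
    filter_upwards [hex, hsm] with n hn hs h0
    rw [h0, Submodule.coe_zero, ex_zero, mul_one] at hn
    exact (hu2 n).2 _ hs hn
  have hZD : ∀ᶠ n in atTop, ex ((L (u n)).2 : A) ∈ D := by
    filter_upwards [hex] with n hn
    have h1 : ex ((L (u n)).2 : A) =
        (((List.finRange d).map fun i => ex ((L (u n)).1 i • X i)).prod)⁻¹ * u n := by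
      rw [eq_inv_mul_iff_mul_eq]
      exact hn.symm
    rw [h1]
    exact D.mul_mem (D.inv_mem (hmemD _)) (hu2 n).1
  have hZt : Tendsto (fun n => (L (u n)).2) atTop (𝓝 0) := by
    have := (continuous_snd (X := Fin d → ℝ) (Y := m)).tendsto 0
    exact this.comp hp
  have hsph : ∀ᶠ n in atTop, (‖(L (u n)).2‖⁻¹ • (L (u n)).2) ∈ Metric.sphere (0 : m) 1 := by
    filter_upwards [hZ0] with n hn
    rw [mem_sphere_zero_iff_norm, norm_smul, norm_inv, norm_norm,
      inv_mul_cancel₀ (norm_ne_zero_iff.2 hn)]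
  obtain ⟨Z, hZ, φ, hφ, hlim⟩ := (isCompact_sphere (0 : m) 1).tendsto_subseq' hsph.frequently
  have hr : Tendsto (fun n => ‖(L (u n)).2‖⁻¹) atTop atTop := by
    refine tendsto_inv_nhdsGT_zero.comp ?_
    rw [tendsto_nhdsWithin_iff]
    refine ⟨?_, ?_⟩
    · have := hZt.norm
      rwa [norm_zero] at this
    · filter_upwards [hZ0] with n hn
      exact norm_pos_iff.2 hn
  have hmem : (Z : A) ∈ lieAlg D hD := by
    refine limit_power D hD Z (fun n => ((L (u (φ n))).2 : A)) (fun n => ‖(L (u (φ n))).2‖⁻¹)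
      (hr.comp hφ.tendsto_atTop) (hφ.tendsto_atTop.eventually hZD) ?_
    have := (m.subtypeL.continuous.tendsto Z).comp hlim
    exact this
  have h0 : (Z : A) = 0 := by
    have h1 : (Z : A) ∈ lieAlg D hD ⊓ m := ⟨hmem, Z.2⟩
    rw [hm.inf_eq_bot] at h1
    exact (Submodule.mem_bot ℝ).1 h1
  have h1 : Z = 0 := Subtype.ext h0
  rw [h1, mem_sphere_zero_iff_norm, norm_zero] at hZ
  exact zero_ne_one hZ

end prod

section words

/-- `g` is a product of at most `n` elements of `S`. -/
def Wd {G : Type*} [Monoid G] (S : Set G) (n : ℕ) (g : G) : Prop :=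
  ∃ l : List G, l.length ≤ n ∧ (∀ x ∈ l, x ∈ S) ∧ l.prod = g

lemma Wd.one {G : Type*} [Monoid G] (S : Set G) (n : ℕ) : Wd S n 1 :=
  ⟨[], Nat.zero_le n, by simp, rfl⟩

lemma Wd.mono {G : Type*} [Monoid G] {S : Set G} {n m : ℕ} (h : n ≤ m) {g : G} (hg : Wd S n g) :
    Wd S m g := by
  obtain ⟨l, h1, h2, h3⟩ := hg
  exact ⟨l, h1.trans h, h2, h3⟩

lemma Wd.mul {G : Type*} [Monoid G] {S : Set G} {n m : ℕ} {g h : G} (hg : Wd S n g)
    (hh : Wd S m h) : Wd S (n + m) (g * h) := by
  obtain ⟨l, h1, h2, h3⟩ := hg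
  obtain ⟨l', h1', h2', h3'⟩ := hh
  refine ⟨l ++ l', by rw [List.length_append]; omega, ?_, by rw [List.prod_append, h3, h3']⟩
  intro x hx
  rcases List.mem_append.1 hx with h | h
  · exact h2 x h
  · exact h2' x h

lemma Wd.of_mem {G : Type*} [Monoid G] {S : Set G} {g : G} (hg : g ∈ S) : Wd S 1 g :=
  ⟨[g], le_rfl, by simpa using hg, by simp⟩

lemma Wd.pow {G : Type*} [Monoid G] {S : Set G} {n : ℕ} {g : G} (hg : Wd S n g) (m : ℕ) :
    Wd S (m * n) (g ^ m) := by
  induction m with
  | zero => rw [zero_mul, pow_zero]; exact Wd.one S 0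
  | succ m ih => rw [pow_succ, Nat.succ_mul]; exact ih.mul hg

lemma Wd.inv {G : Type*} [Group G] {S : Set G} (hS : ∀ s ∈ S, s⁻¹ ∈ S) {n : ℕ} {g : G}
    (hg : Wd S n g) : Wd S n g⁻¹ := by
  obtain ⟨l, h1, h2, h3⟩ := hg
  refine ⟨(l.map (fun x => x⁻¹)).reverse, by simpa using h1, ?_, ?_⟩
  · intro x hx
    rw [List.mem_reverse, List.mem_map] at hx
    obtain ⟨y, hy, rfl⟩ := hx
    exact hS y (h2 y hy)
  · rw [← h3, List.prod_inv_reverse]

lemma Wd.mem_closure {G : Type*} [Group G] {S : Set G} {n : ℕ} {g : G} (hg : Wd S n g) :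
    g ∈ Subgroup.closure S := by
  obtain ⟨l, -, h2, rfl⟩ := hg
  exact Subgroup.list_prod_mem _ fun x hx => Subgroup.subset_closure (h2 x hx)

variable {K M : Type*} [Field K] [AddCommGroup M] [Module K M] [FiniteDimensional K M]
variable {G : Type*} [Monoid G] (L : G →* Module.End K M) (S : Set G)

/-- the span of the images of `v` under words -/
def wspan (v : M) (n : ℕ) : Submodule K M := Submodule.span K {w | ∃ g, Wd S n g ∧ w = L g v}

lemma wspan_mono (v : M) {n m : ℕ} (h : n ≤ m) : wspan L S v n ≤ wspan L S v m := by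
  refine Submodule.span_mono ?_
  rintro w ⟨g, hg, rfl⟩
  exact ⟨g, hg.mono h, rfl⟩

lemma wspan_succ (v : M) (n : ℕ) {s : G} (hs : s ∈ S) {w : M} (hw : w ∈ wspan L S v n) :
    L s w ∈ wspan L S v (n + 1) := by
  have h1 : wspan L S v n ≤ (wspan L S v (n + 1)).comap (L s) := by
    refine Submodule.span_le.2 ?_
    rintro w ⟨g, hg, rfl⟩
    refine Submodule.subset_span ⟨s * g, ?_, ?_⟩
    · rw [add_comm]
      exact (Wd.of_mem hs).mul hg
    · rw [map_mul]; rfl
  exact h1 hw

lemma wspan_step (v : M) {n : ℕ} (h : wspan L S v n = wspan L S v (n + 1)) :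
    ∀ m, n ≤ m → wspan L S v m = wspan L S v n := by
  have hinv : ∀ s ∈ S, ∀ w ∈ wspan L S v n, L s w ∈ wspan L S v n := by
    intro s hs w hw
    have := wspan_succ L S v n hs hw
    rwa [← h] at this
  intro m hm
  refine le_antisymm ?_ (wspan_mono L S v hm)
  refine Submodule.span_le.2 ?_
  rintro w ⟨g, ⟨l, -, hl, rfl⟩, rfl⟩
  clear hm
  induction l with
  | nil =>
    exact Submodule.subset_span ⟨1, Wd.one S n, rfl⟩
  | cons s l ih =>
    rw [List.prod_cons, map_mul]
    exact hinv s (hl s (by simp)) _ (ih fun x hx => hl x (by simp [hx]))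

/-- The span of the images under words of length at most the dimension is invariant. -/
theorem wspan_inv (v : M) {s : G} (hs : s ∈ S) {w : M}
    (hw : w ∈ wspan L S v (Module.finrank K M)) :
    L s w ∈ wspan L S v (Module.finrank K M) := by
  have hex : ∃ n ≤ Module.finrank K M, wspan L S v n = wspan L S v (n + 1) := by
    by_contra hcon
    push Not at hcon
    have h1 : ∀ n, n ≤ Module.finrank K M + 1 → n ≤ Module.finrank K (wspan L S v n) := by
      intro n
      induction n with
      | zero => intro _; exact Nat.zero_le _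
      | succ n ih =>
        intro hn
        have h2 := ih (by omega)
        have h3 : wspan L S v n < wspan L S v (n + 1) :=
          lt_of_le_of_ne (wspan_mono L S v (Nat.le_succ n)) (hcon n (by omega))
        have h4 := Submodule.finrank_lt_finrank_of_lt h3
        omega
    have h2 := h1 _ le_rfl
    have h3 := Submodule.finrank_le (wspan L S v (Module.finrank K M + 1))
    omega
  obtain ⟨n, hn, hst⟩ := hex
  have h1 := wspan_step L S v hst
  have h2 := wspan_succ L S v _ hs hw
  rw [h1 _ (by omega)] at h2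
  rw [h1 _ hn]
  exact h2

end words

end

end Run7.h421
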