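import Mathlib

/-!
Slice discs and their projections to three-space: definitions.
-/

set_option autoImplicit false

namespace Run7.h421.RP

open scoped ContDiff
open Set Metric

/-- Euclidean four-space; the last coordinate `x 3` is the height. -/
abbrev R4 := EuclideanSpace ℝ (Fin 4)

/-- Euclidean three-space. -/
abbrev R3 := EuclideanSpace ℝ (Fin 3)

/-- The projection of four-space to three-space which forgets the height. -/
noncomputable def pr (x : R4) : R3 := !₂[x 0, x 1, x 2]

/-- Smoothly embedded disc in the half-space `x 3 ≥ 0` with boundary in the hyperplane `x 3 = 0`,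
transversal to this hyperplane (parametrised by the closed unit disc of the plane). Its boundary
curve is a knot in three-space; the knots which arise in this way are the smoothly slice knots. -/
structure SliceDisc (φ : ℂ → R4) : Prop where
  smooth : ∃ W : Set ℂ, IsOpen W ∧ closedBall 0 1 ⊆ W ∧ ContDiffOn ℝ ∞ φ W
  inj : InjOn φ (closedBall 0 1)
  imm : ∀ z ∈ closedBall (0 : ℂ) 1, Function.Injective (fderiv ℝ φ z)
  inside : ∀ z ∈ ball (0 : ℂ) 1, 0 < φ z 3
  bdry : ∀ z ∈ sphere (0 : ℂ) 1, φ z 3 = 0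
  transv : ∀ z ∈ sphere (0 : ℂ) 1, fderiv ℝ (fun w => φ w 3) z ≠ 0

/-- The function `f` is smooth near the closed disc and zero on the circle, and the discs
`z ↦ φ z + t f z w` (`0 ≤ t ≤ 1`) are slice discs: the points of the disc `φ` can be pushed along the
parallel lines of direction `w`, by an isotopy which fixes the boundary, to the disc
`z ↦ φ z + f z w`. -/
structure Push (φ : ℂ → R4) (w : R4) (f : ℂ → ℝ) : Prop where
  smooth : ∃ W : Set ℂ, IsOpen W ∧ closedBall 0 1 ⊆ W ∧ ContDiffOn ℝ ∞ φ W ∧ ContDiffOn ℝ ∞ f W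
  disc : ∀ t ∈ Icc (0 : ℝ) 1, SliceDisc (fun z => φ z + (t * f z) • w)
  bdry : ∀ z ∈ sphere (0 : ℂ) 1, f z = 0

/-- The slice discs `φ` and `ψ` are the two ends of a smooth isotopy through slice discs which fixes
the boundary. -/
def Step (φ ψ : ℂ → R4) : Prop := ∃ H : ℝ → ℂ → R4,
  (∃ W : Set ℂ, IsOpen W ∧ closedBall 0 1 ⊆ W ∧
    ContDiffOn ℝ ∞ (fun p : ℝ × ℂ => H p.1 p.2) (univ ×ˢ W)) ∧
  (∀ t ∈ Icc (0 : ℝ) 1, SliceDisc (H t) ∧ ∀ z ∈ sphere (0 : ℂ) 1, H t z = φ z) ∧
  H 0 = φ ∧ H 1 = ψ

/-- Two slice discs are isotopic if they are connected by finitely many smooth isotopies through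
slice discs which fix the boundary. -/
def Isotopic : (ℂ → R4) → (ℂ → R4) → Prop := Relation.ReflTransGen Step

/-- The height is a Morse function on the open disc. -/
def MorseHt (φ : ℂ → R4) : Prop :=
  ∀ z ∈ ball (0 : ℂ) 1, fderiv ℝ (fun w => φ w 3) z = 0 → ∀ u : ℂ,
    (∀ v : ℂ, fderiv ℝ (fderiv ℝ (fun w => φ w 3)) z u v = 0) → u = 0

/-- The local minima of the height in the open disc. A slice disc whose height is a Morse function
without local minima in the open disc is a ribbon disc. -/
def minima (φ : ℂ → R4) : Set ℂ :=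
  {z | z ∈ ball (0 : ℂ) 1 ∧ IsLocalMin (fun w => φ w 3) z}

/-- The local maxima of the height in the open disc. -/
def maxima (φ : ℂ → R4) : Set ℂ :=
  {z | z ∈ ball (0 : ℂ) 1 ∧ IsLocalMax (fun w => φ w 3) z}

/-- The second derivative of `f` at `z` in the direction `v`. -/
noncomputable def q2 (f : ℂ → ℝ) (z v : ℂ) : ℝ := fderiv ℝ (fderiv ℝ f) z v v

/-- `L` has no critical points on the unit circle, and at every critical point in the disc there is
a direction with negative second derivative, or the second derivative is positive definite. -/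
def Good (L : ℂ → ℝ) : Prop := ∀ z ∈ closedBall (0 : ℂ) 1, fderiv ℝ L z = 0 →
  z ∈ ball (0 : ℂ) 1 ∧ ((∃ v, q2 L z v < 0) ∨ ∀ v, v ≠ 0 → 0 < q2 L z v)

/-- The cups of `L`: the critical points in the open disc with positive definite second
derivative. -/
def cups (L : ℂ → ℝ) : Set ℂ :=
  {z | z ∈ ball (0 : ℂ) 1 ∧ fderiv ℝ L z = 0 ∧ ∀ v, v ≠ 0 → 0 < q2 L z v}

end Run7.h421.RP
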