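import Mathlib
import Pool.Agent.Run7.h421.RPDef

/-!
Slice discs and their projections: calculus of the new height
`F = h + (R L + T) (1 - exp (- h / ε))`.
-/

set_option autoImplicit false

namespace Run7.h421.RP

open scoped ContDiff RealInnerProductSpace Topology
open Set Metric Filter

theorem evDiff {F : Type*} [NormedAddCommGroup F] [NormedSpace ℝ F] {f : ℂ → F} {z : ℂ}
    (hf : ContDiffAt ℝ ∞ f z) : ∀ᶠ w in 𝓝 z, DifferentiableAt ℝ f w := by
  have h1 : ContDiffAt ℝ 1 f z := hf.of_le (by exact_mod_cast le_top)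
  have h2 : ∀ᶠ w in 𝓝 z, ContDiffAt ℝ 1 f w := h1.eventually (by simp)
  exact h2.mono fun w hw => hw.differentiableAt (by simp)

theorem diffFderiv {F : Type*} [NormedAddCommGroup F] [NormedSpace ℝ F] {f : ℂ → F} {z : ℂ}
    (hf : ContDiffAt ℝ ∞ f z) : DifferentiableAt ℝ (fderiv ℝ f) z := by
  have h1 : ContDiffAt ℝ 1 (fderiv ℝ f) z :=
    hf.fderiv_right (m := 1) (by
      have : ((1 : ℕ∞ω) + 1) = ((2 : ℕ∞) : ℕ∞ω) := by norm_num
      rw [this]
      exact_mod_cast (le_top : (2 : ℕ∞) ≤ ⊤))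
  exact h1.differentiableAt (by simp)

theorem diffAt {F : Type*} [NormedAddCommGroup F] [NormedSpace ℝ F] {f : ℂ → F} {z : ℂ}
    (hf : ContDiffAt ℝ ∞ f z) : DifferentiableAt ℝ f z := (evDiff hf).self_of_nhds

theorem hline (z v : ℂ) (s : ℝ) : HasDerivAt (fun s : ℝ => z + s • v) v s := by
  have := ((hasDerivAt_id s).smul_const v).const_add z
  simpa using this

theorem line1 {f : ℂ → ℝ} {z v : ℂ} {s : ℝ} (hf : DifferentiableAt ℝ f (z + s • v)) :
    HasDerivAt (fun s : ℝ => f (z + s • v)) (fderiv ℝ f (z + s • v) v) s :=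
  hf.hasFDerivAt.comp_hasDerivAt s (hline z v s)

theorem line2 {f : ℂ → ℝ} {z v : ℂ} {s : ℝ} (hf : DifferentiableAt ℝ (fderiv ℝ f) (z + s • v)) :
    HasDerivAt (fun s : ℝ => fderiv ℝ f (z + s • v) v) (q2 f (z + s • v) v) s := by
  have h1 := hf.hasFDerivAt.comp_hasDerivAt s (hline z v s)
  exact h1.clm_apply (hasDerivAt_const s v) |>.congr_deriv (by simp [q2])

/-- the new height -/
noncomputable def newF (h L : ℂ → ℝ) (R T ε : ℝ) : ℂ → ℝ := fun w =>
  h w + (R * L w + T) * (1 - Real.exp (-(h w / ε)))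

/-- the coefficient `A` -/
noncomputable def cA (h L : ℂ → ℝ) (R T ε : ℝ) (w : ℂ) : ℝ :=
  (R * L w + T) * (Real.exp (-(h w / ε)) / ε)

/-- the coefficient `g` -/
noncomputable def cg (h : ℂ → ℝ) (ε : ℝ) (w : ℂ) : ℝ := 1 - Real.exp (-(h w / ε))

theorem hasFD_newF {h L : ℂ → ℝ} {w : ℂ} (hh : DifferentiableAt ℝ h w)
    (hL : DifferentiableAt ℝ L w) (R T ε : ℝ) :
    HasFDerivAt (newF h L R T ε)
      ((1 + cA h L R T ε w) • fderiv ℝ h w + (cg h ε w * R) • fderiv ℝ L w) w := by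
  have h1 := hh.hasFDerivAt
  have h2 := hL.hasFDerivAt
  have h3 : HasFDerivAt (fun w => Real.exp (-(h w / ε)))
      (Real.exp (-(h w / ε)) • (-((ε⁻¹) • fderiv ℝ h w))) w := by
    have h4 : HasFDerivAt (fun w => -(h w / ε)) (-((ε⁻¹) • fderiv ℝ h w)) w := by
      have e : (fun w => -(h w / ε)) = -fun y => h y * ε⁻¹ := by
        funext y
        simp [div_eq_mul_inv]
      rw [e]
      exact (h1.mul_const ε⁻¹).neg
    exact h4.exp
  have h5 := h1.add (((h2.const_mul R).add_const T).mul (h3.const_sub 1))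
  refine h5.congr_fderiv ?_
  ext v
  simp only [cA, cg, ContinuousLinearMap.add_apply, ContinuousLinearMap.smul_apply,
    ContinuousLinearMap.neg_apply, smul_eq_mul]
  ring

theorem fd_newF {h L : ℂ → ℝ} {w : ℂ} (hh : DifferentiableAt ℝ h w)
    (hL : DifferentiableAt ℝ L w) (R T ε : ℝ) (v : ℂ) :
    fderiv ℝ (newF h L R T ε) w v =
      (1 + cA h L R T ε w) * fderiv ℝ h w v + cg h ε w * R * fderiv ℝ L w v := by
  rw [(hasFD_newF hh hL R T ε).fderiv]
  simp

theorem contDiffAt_newF {h L : ℂ → ℝ} {z : ℂ} (hh : ContDiffAt ℝ ∞ h z)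
    (hL : ContDiffAt ℝ ∞ L z) (R T ε : ℝ) : ContDiffAt ℝ ∞ (newF h L R T ε) z := by
  unfold newF
  have h1 : ContDiffAt ℝ ∞ (fun w => Real.exp (-(h w / ε))) z :=
    (hh.div_const ε).neg.exp
  exact hh.add (((contDiffAt_const.mul hL).add contDiffAt_const).mul (contDiffAt_const.sub h1))

theorem q2_newF {h L : ℂ → ℝ} {z : ℂ} (hh : ContDiffAt ℝ ∞ h z)
    (hL : ContDiffAt ℝ ∞ L z) (R T ε : ℝ) (v : ℂ) :
    q2 (newF h L R T ε) z v =
      (1 + cA h L R T ε z) * q2 h z v + cg h ε z * R * q2 L z v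
        - cA h L R T ε z / ε * (fderiv ℝ h z v) ^ 2
        + 2 * (R * (Real.exp (-(h z / ε)) / ε)) * (fderiv ℝ h z v * fderiv ℝ L z v) := by
  have hz : z + (0 : ℝ) • v = z := by simp
  have hF := contDiffAt_newF hh hL R T ε
  have h0 : HasDerivAt (fun s : ℝ => fderiv ℝ (newF h L R T ε) (z + s • v) v)
      (q2 (newF h L R T ε) (z + (0:ℝ) • v) v) 0 :=
    line2 (by rw [hz]; exact diffFderiv hF)
  rw [hz] at h0
  have hcont : Tendsto (fun s : ℝ => z + s • v) (𝓝 0) (𝓝 z) := by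
    have : ContinuousAt (fun s : ℝ => z + s • v) 0 := (hline z v 0).continuousAt
    have h2 : Tendsto (fun s : ℝ => z + s • v) (𝓝 0) (𝓝 (z + (0:ℝ) • v)) := this
    rwa [hz] at h2
  have hev : (fun s : ℝ => fderiv ℝ (newF h L R T ε) (z + s • v) v) =ᶠ[𝓝 0]
      fun s : ℝ => (1 + cA h L R T ε (z + s • v)) * fderiv ℝ h (z + s • v) v +
        cg h ε (z + s • v) * R * fderiv ℝ L (z + s • v) v := by
    filter_upwards [hcont.eventually (evDiff hh), hcont.eventually (evDiff hL)] with s h1 h2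
    exact fd_newF h1 h2 R T ε v
  have a1 : HasDerivAt (fun s : ℝ => h (z + s • v)) (fderiv ℝ h z v) 0 := by
    have := line1 (f := h) (z := z) (v := v) (s := 0) (by rw [hz]; exact diffAt hh)
    rwa [hz] at this
  have a2 : HasDerivAt (fun s : ℝ => L (z + s • v)) (fderiv ℝ L z v) 0 := by
    have := line1 (f := L) (z := z) (v := v) (s := 0) (by rw [hz]; exact diffAt hL)
    rwa [hz] at this
  have b1 : HasDerivAt (fun s : ℝ => fderiv ℝ h (z + s • v) v) (q2 h z v) 0 := by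
    have := line2 (f := h) (z := z) (v := v) (s := 0) (by rw [hz]; exact diffFderiv hh)
    rwa [hz] at this
  have b2 : HasDerivAt (fun s : ℝ => fderiv ℝ L (z + s • v) v) (q2 L z v) 0 := by
    have := line2 (f := L) (z := z) (v := v) (s := 0) (by rw [hz]; exact diffFderiv hL)
    rwa [hz] at this
  have e1 : HasDerivAt (fun s : ℝ => Real.exp (-(h (z + s • v) / ε)))
      (Real.exp (-(h z / ε)) * (-(fderiv ℝ h z v / ε))) 0 := by
    have := ((a1.div_const ε).neg).exp
    simpa [hz] using this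
  have c1 : HasDerivAt (fun s : ℝ => cA h L R T ε (z + s • v))
      (R * fderiv ℝ L z v * (Real.exp (-(h z / ε)) / ε) +
        (R * L z + T) * (Real.exp (-(h z / ε)) * (-(fderiv ℝ h z v / ε)) / ε)) 0 := by
    have := ((a2.const_mul R).add_const T).mul (e1.div_const ε)
    exact this.congr_deriv (by simp only [hz])
  have c2 : HasDerivAt (fun s : ℝ => cg h ε (z + s • v))
      (-(Real.exp (-(h z / ε)) * (-(fderiv ℝ h z v / ε)))) 0 := by
    exact e1.const_sub 1
  have d1 := ((c1.const_add 1).mul b1).add (((c2.mul_const R)).mul b2)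
  have h3 := h0.unique (d1.congr_of_eventuallyEq hev)
  rw [h3]
  simp only [hz, cA, cg]
  ring

end Run7.h421.RP
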