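import Mathlib
import Pool.Agent.Run7.h421.RPa

/-!
Slice discs and their projections: the covering lemma.
-/

set_option autoImplicit false

namespace Run7.h421.RP

open scoped ContDiff RealInnerProductSpace Topology
open Set Metric Filter

/-- the data of a ball around a nondegenerate minimum -/
structure CB (L : ℂ → ℝ) (κ : ℝ) (p : ℂ × ℝ) : Prop where
  cup : p.1 ∈ cups L
  pos : 0 < p.2
  sub : closedBall p.1 p.2 ⊆ ball (0 : ℂ) 1
  conv : ∀ w ∈ closedBall p.1 p.2, ∀ v, κ * ‖v‖ ^ 2 ≤ q2 L w v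

/-- the three cases at a point -/
def Case3 (L : ℂ → ℝ) (κ : ℝ) (S : Finset (ℂ × ℝ)) (w : ℂ) : Prop :=
  κ ≤ ‖fderiv ℝ L w‖ ∨ (∃ v, ‖v‖ ≤ 1 ∧ q2 L w v ≤ -κ) ∨ ∃ p ∈ S, w ∈ ball p.1 p.2

theorem q2_smul (f : ℂ → ℝ) (z v : ℂ) (c : ℝ) : q2 f z (c • v) = c ^ 2 * q2 f z v := by
  unfold q2
  rw [map_smul]
  simp only [ContinuousLinearMap.smul_apply, map_smul, smul_eq_mul]
  ring

/-- the distance of the second derivatives -/
noncomputable def E2 (L : ℂ → ℝ) (z w : ℂ) : ℝ :=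
  |fderiv ℝ (fderiv ℝ L) w 1 1 - fderiv ℝ (fderiv ℝ L) z 1 1| +
  |fderiv ℝ (fderiv ℝ L) w 1 Complex.I - fderiv ℝ (fderiv ℝ L) z 1 Complex.I| +
  |fderiv ℝ (fderiv ℝ L) w Complex.I 1 - fderiv ℝ (fderiv ℝ L) z Complex.I 1| +
  |fderiv ℝ (fderiv ℝ L) w Complex.I Complex.I - fderiv ℝ (fderiv ℝ L) z Complex.I Complex.I|

theorem q2_expand (L : ℂ → ℝ) (w v : ℂ) : q2 L w v =
    v.re ^ 2 * fderiv ℝ (fderiv ℝ L) w 1 1 + v.re * v.im * fderiv ℝ (fderiv ℝ L) w 1 Complex.I +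
    v.re * v.im * fderiv ℝ (fderiv ℝ L) w Complex.I 1 +
    v.im ^ 2 * fderiv ℝ (fderiv ℝ L) w Complex.I Complex.I := by
  have hv : v = v.re • (1 : ℂ) + v.im • Complex.I := by
    apply Complex.ext <;> simp
  unfold q2
  conv_lhs => rw [hv]
  simp only [map_add, map_smul, ContinuousLinearMap.add_apply, ContinuousLinearMap.smul_apply,
    smul_eq_mul]
  ring

theorem q2_diff (L : ℂ → ℝ) (z w v : ℂ) : |q2 L w v - q2 L z v| ≤ E2 L z w * ‖v‖ ^ 2 := by
  rw [q2_expand, q2_expand]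
  unfold E2
  obtain ⟨a, ha⟩ : ∃ a, a = fderiv ℝ (fderiv ℝ L) w 1 1 - fderiv ℝ (fderiv ℝ L) z 1 1 := ⟨_, rfl⟩
  obtain ⟨b, hb⟩ : ∃ b, b = fderiv ℝ (fderiv ℝ L) w 1 Complex.I -
    fderiv ℝ (fderiv ℝ L) z 1 Complex.I := ⟨_, rfl⟩
  obtain ⟨c, hc⟩ : ∃ c, c = fderiv ℝ (fderiv ℝ L) w Complex.I 1 -
    fderiv ℝ (fderiv ℝ L) z Complex.I 1 := ⟨_, rfl⟩
  obtain ⟨d, hd⟩ : ∃ d, d = fderiv ℝ (fderiv ℝ L) w Complex.I Complex.I -
    fderiv ℝ (fderiv ℝ L) z Complex.I Complex.I := ⟨_, rfl⟩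
  have hn : ‖v‖ ^ 2 = v.re ^ 2 + v.im ^ 2 := by
    rw [← Complex.normSq_eq_norm_sq, Complex.normSq_apply]
    ring
  have e : v.re ^ 2 * fderiv ℝ (fderiv ℝ L) w 1 1 +
      v.re * v.im * fderiv ℝ (fderiv ℝ L) w 1 Complex.I +
      v.re * v.im * fderiv ℝ (fderiv ℝ L) w Complex.I 1 +
      v.im ^ 2 * fderiv ℝ (fderiv ℝ L) w Complex.I Complex.I -
      (v.re ^ 2 * fderiv ℝ (fderiv ℝ L) z 1 1 +
      v.re * v.im * fderiv ℝ (fderiv ℝ L) z 1 Complex.I +
      v.re * v.im * fderiv ℝ (fderiv ℝ L) z Complex.I 1 +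
      v.im ^ 2 * fderiv ℝ (fderiv ℝ L) z Complex.I Complex.I) =
      v.re ^ 2 * a + v.re * v.im * b + v.re * v.im * c + v.im ^ 2 * d := by
    rw [ha, hb, hc, hd]
    ring
  rw [e, ← ha, ← hb, ← hc, ← hd, hn]
  have h1 : |v.re ^ 2 * a| ≤ |a| * (v.re ^ 2 + v.im ^ 2) := by
    rw [abs_mul, abs_of_nonneg (sq_nonneg v.re)]
    nlinarith [abs_nonneg a, sq_nonneg v.re, sq_nonneg v.im]
  have h4 : |v.im ^ 2 * d| ≤ |d| * (v.re ^ 2 + v.im ^ 2) := by
    rw [abs_mul, abs_of_nonneg (sq_nonneg v.im)]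
    nlinarith [abs_nonneg d, sq_nonneg v.re, sq_nonneg v.im]
  have hri : |v.re * v.im| ≤ v.re ^ 2 + v.im ^ 2 := by
    rw [abs_le]
    constructor <;> nlinarith [sq_nonneg (v.re + v.im), sq_nonneg (v.re - v.im), sq_nonneg v.re,
      sq_nonneg v.im]
  have h2 : |v.re * v.im * b| ≤ |b| * (v.re ^ 2 + v.im ^ 2) := by
    rw [abs_mul, mul_comm]
    exact mul_le_mul_of_nonneg_left hri (abs_nonneg b)
  have h3 : |v.re * v.im * c| ≤ |c| * (v.re ^ 2 + v.im ^ 2) := by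
    rw [abs_mul, mul_comm]
    exact mul_le_mul_of_nonneg_left hri (abs_nonneg c)
  calc |v.re ^ 2 * a + v.re * v.im * b + v.re * v.im * c + v.im ^ 2 * d|
      ≤ |v.re ^ 2 * a| + |v.re * v.im * b| + |v.re * v.im * c| + |v.im ^ 2 * d| := by
        refine (abs_add_le _ _).trans (add_le_add_left ?_ _)
        refine (abs_add_le _ _).trans (add_le_add_left ?_ _)
        exact abs_add_le _ _
    _ ≤ _ := by linarith

theorem q2_cont {L : ℂ → ℝ} {W : Set ℂ} (hW : IsOpen W) (hs : ContDiffOn ℝ ∞ L W) :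
    ContinuousOn (fun z => fderiv ℝ (fderiv ℝ L) z) W := by
  have h1 : ContDiffOn ℝ ∞ (fun z => fderiv ℝ L z) W := hs.fderiv_of_isOpen hW (by simp)
  exact h1.continuousOn_fderiv_of_isOpen hW (by simp)

theorem fd_cont {L : ℂ → ℝ} {W : Set ℂ} (hW : IsOpen W) (hs : ContDiffOn ℝ ∞ L W) :
    ContinuousOn (fun z => fderiv ℝ L z) W :=
  hs.continuousOn_fderiv_of_isOpen hW (by simp)

theorem pos_def {f : ℂ → ℝ} {z : ℂ} (h : ∀ v, v ≠ 0 → 0 < q2 f z v) :
    ∃ κ > 0, ∀ v, κ * ‖v‖ ^ 2 ≤ q2 f z v := by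
  have hc : Continuous (fun v => q2 f z v) := by
    unfold q2
    fun_prop
  obtain ⟨v₀, hv₀, hmin⟩ := (isCompact_sphere (0 : ℂ) 1).exists_isMinOn ⟨1, by simp⟩
    hc.continuousOn
  have hv0 : v₀ ≠ 0 := by
    rintro rfl
    simp at hv₀
  refine ⟨q2 f z v₀, h v₀ hv0, fun v => ?_⟩
  by_cases hv : v = 0
  · subst hv
    simp [q2]
  · have hn : 0 < ‖v‖ := norm_pos_iff.2 hv
    have h1 : q2 f z v₀ ≤ q2 f z (‖v‖⁻¹ • v) := hmin (by
      rw [mem_sphere_zero_iff_norm, norm_smul, norm_inv, norm_norm, inv_mul_cancel₀ hn.ne'])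
    rw [q2_smul] at h1
    have h2 : (‖v‖⁻¹) ^ 2 * q2 f z v * ‖v‖ ^ 2 = q2 f z v := by
      field_simp
    have h3 := mul_le_mul_of_nonneg_right h1 (sq_nonneg ‖v‖)
    rw [h2] at h3
    exact h3

theorem covering {L : ℂ → ℝ} {W : Set ℂ} (hW : IsOpen W) (hWs : closedBall (0 : ℂ) 1 ⊆ W)
    (hs : ContDiffOn ℝ ∞ L W) (hg : Good L) :
    ∃ κ > 0, ∃ S : Finset (ℂ × ℝ), (∀ p ∈ S, CB L κ p) ∧
      ∀ w ∈ closedBall (0 : ℂ) 1, Case3 L κ S w := by
  classical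
  refine (isCompact_closedBall (0 : ℂ) 1).induction_on (p := fun K =>
    ∃ κ > 0, ∃ S : Finset (ℂ × ℝ), (∀ p ∈ S, CB L κ p) ∧ ∀ w ∈ K, Case3 L κ S w) ?_ ?_ ?_ ?_
  · exact ⟨1, one_pos, ∅, by simp, by simp⟩
  · rintro s t hst ⟨κ, hκ, S, h1, h2⟩
    exact ⟨κ, hκ, S, h1, fun w hw => h2 w (hst hw)⟩
  · rintro s t ⟨κ, hκ, S, h1, h2⟩ ⟨κ', hκ', S', h1', h2'⟩
    have hm : 0 < min κ κ' := lt_min hκ hκ'
    refine ⟨min κ κ', hm, S ∪ S', ?_, ?_⟩
    · intro p hp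
      rcases Finset.mem_union.1 hp with hp | hp
      · have := h1 p hp
        exact ⟨this.cup, this.pos, this.sub, fun w hw v =>
          (mul_le_mul_of_nonneg_right (min_le_left _ _) (sq_nonneg _)).trans (this.conv w hw v)⟩
      · have := h1' p hp
        exact ⟨this.cup, this.pos, this.sub, fun w hw v =>
          (mul_le_mul_of_nonneg_right (min_le_right _ _) (sq_nonneg _)).trans (this.conv w hw v)⟩
    · intro w hw
      rcases hw with hw | hw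
      · rcases h2 w hw with h | ⟨v, hv, h⟩ | ⟨p, hp, h⟩
        · exact Or.inl ((min_le_left _ _).trans h)
        · exact Or.inr (Or.inl ⟨v, hv, h.trans (neg_le_neg (min_le_left _ _))⟩)
        · exact Or.inr (Or.inr ⟨p, Finset.mem_union_left _ hp, h⟩)
      · rcases h2' w hw with h | ⟨v, hv, h⟩ | ⟨p, hp, h⟩
        · exact Or.inl ((min_le_right _ _).trans h)
        · exact Or.inr (Or.inl ⟨v, hv, h.trans (neg_le_neg (min_le_right _ _))⟩)
        · exact Or.inr (Or.inr ⟨p, Finset.mem_union_right _ hp, h⟩)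
  · intro z hz
    have hzW := hWs hz
    have hWn : W ∈ 𝓝 z := hW.mem_nhds hzW
    have c1 : ContinuousAt (fun z => fderiv ℝ L z) z := (fd_cont hW hs).continuousAt hWn
    have c2 : ContinuousAt (fun z => fderiv ℝ (fderiv ℝ L) z) z := (q2_cont hW hs).continuousAt hWn
    by_cases h0 : fderiv ℝ L z = 0
    · obtain ⟨hzb, h | h⟩ := hg z hz h0
      · obtain ⟨v, hv⟩ := h
        have hv0 : v ≠ 0 := by
          rintro rfl
          simp [q2] at hv
        have hn : 0 < ‖v‖ := norm_pos_iff.2 hv0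
        have hu : q2 L z (‖v‖⁻¹ • v) < 0 := by
          rw [q2_smul]
          exact mul_neg_of_pos_of_neg (by positivity) hv
        obtain ⟨u, hu1, hu2⟩ : ∃ u : ℂ, ‖u‖ ≤ 1 ∧ q2 L z u < 0 :=
          ⟨‖v‖⁻¹ • v, by rw [norm_smul, norm_inv, norm_norm, inv_mul_cancel₀ hn.ne'], hu⟩
        have c3 : ContinuousAt (fun w => q2 L w u) z := by
          unfold q2
          exact (c2.clm_apply continuousAt_const).clm_apply continuousAt_const
        have h3 : ∀ᶠ w in 𝓝 z, q2 L w u < q2 L z u / 2 :=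
          c3.eventually (gt_mem_nhds (by linarith))
        refine ⟨{w | q2 L w u < q2 L z u / 2}, mem_nhdsWithin_of_mem_nhds h3, -(q2 L z u) / 2,
          by linarith, ∅, by simp, fun w hw => Or.inr (Or.inl ⟨u, hu1, ?_⟩)⟩
        have : q2 L w u < q2 L z u / 2 := hw
        linarith
      · obtain ⟨κ, hκ, hκ'⟩ := pos_def h
        have c4 : ∀ a b : ℂ, ContinuousAt (fun w => fderiv ℝ (fderiv ℝ L) w a b) z := fun a b =>
          (c2.clm_apply continuousAt_const).clm_apply continuousAt_const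
        have c5 : ContinuousAt (fun w => E2 L z w) z := by
          unfold E2
          exact ((((c4 1 1).sub continuousAt_const).abs.add ((c4 1 Complex.I).sub
            continuousAt_const).abs).add ((c4 Complex.I 1).sub continuousAt_const).abs).add
            ((c4 Complex.I Complex.I).sub continuousAt_const).abs
        have h3 : ∀ᶠ w in 𝓝 z, E2 L z w < κ / 2 := by
          refine c5.eventually (gt_mem_nhds ?_)
          have : E2 L z z = 0 := by simp [E2]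
          show E2 L z z < κ / 2
          rw [this]
          positivity
        obtain ⟨r, hr, hr'⟩ := Metric.nhds_basis_closedBall.mem_iff.1
          (h3.and (isOpen_ball.mem_nhds hzb))
        refine ⟨ball z r, mem_nhdsWithin_of_mem_nhds (ball_mem_nhds z hr), κ / 2, by positivity,
          {(z, r)}, ?_, fun w hw => Or.inr (Or.inr ⟨(z, r), by simp, hw⟩)⟩
        intro p hp
        rw [Finset.mem_singleton] at hp
        subst hp
        refine ⟨⟨hzb, h0, h⟩, hr, fun w hw => (hr' hw).2, fun w hw v => ?_⟩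
        have h4 : E2 L z w < κ / 2 := (hr' hw).1
        have h5 : |q2 L w v - q2 L z v| ≤ κ / 2 * ‖v‖ ^ 2 :=
          (q2_diff L z w v).trans (mul_le_mul_of_nonneg_right h4.le (sq_nonneg _))
        have h6 := hκ' v
        have h7 := (abs_le.1 h5).1
        linarith
    · have hn : 0 < ‖fderiv ℝ L z‖ := norm_pos_iff.2 h0
      have h3 : ∀ᶠ w in 𝓝 z, ‖fderiv ℝ L z‖ / 2 < ‖fderiv ℝ L w‖ :=
        c1.norm.eventually (lt_mem_nhds (by linarith))
      exact ⟨{w | ‖fderiv ℝ L z‖ / 2 < ‖fderiv ℝ L w‖}, mem_nhdsWithin_of_mem_nhds h3,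
        ‖fderiv ℝ L z‖ / 2, by linarith, ∅, by simp, fun w hw => Or.inl (le_of_lt hw)⟩

end Run7.h421.RP
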