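import Mathlib
import Pool.Agent.N503.MLHess
import Pool.Agent.Run7.h421.RPb

/-!
Slice discs and their projections: at most one critical point in a ball of convexity; counting.
-/

set_option autoImplicit false

namespace Run7.h421.RP

open scoped ContDiff RealInnerProductSpace Topology
open Set Metric Filter

theorem soc {f : ℂ → ℝ} {z : ℂ} (hf : ContDiffAt ℝ ∞ f z) (hmin : IsLocalMin f z) (u : ℂ) :
    0 ≤ q2 f z u := by
  have := Pool.Agent.Y640.RB.soc f z hf hmin u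
  exact this

/-- at most one critical point in a convex set on which the second derivative is positive -/
theorem one_crit {f : ℂ → ℝ} {K : Set ℂ} (hK : Convex ℝ K) (hs : ∀ z ∈ K, ContDiffAt ℝ ∞ f z)
    (hp : ∀ z ∈ K, ∀ v, v ≠ 0 → 0 < q2 f z v) {a b : ℂ} (ha : a ∈ K) (hb : b ∈ K)
    (ha' : fderiv ℝ f a = 0) (hb' : fderiv ℝ f b = 0) : a = b := by
  by_contra hab
  have hv : b - a ≠ 0 := sub_ne_zero.2 (Ne.symm hab)
  have hmem : ∀ s ∈ Icc (0 : ℝ) 1, a + s • (b - a) ∈ K := by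
    intro s hs
    have := hK.add_smul_sub_mem ha hb hs
    exact this
  have hd : ∀ s ∈ Icc (0 : ℝ) 1, HasDerivAt (fun s : ℝ => fderiv ℝ f (a + s • (b - a)) (b - a))
      (q2 f (a + s • (b - a)) (b - a)) s := fun s hs' =>
    line2 (diffFderiv (hs _ (hmem s hs')))
  have hm : StrictMonoOn (fun s : ℝ => fderiv ℝ f (a + s • (b - a)) (b - a)) (Icc 0 1) := by
    apply strictMonoOn_of_deriv_pos (convex_Icc 0 1)
    · exact fun s hs' => (hd s hs').continuousAt.continuousWithinAt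
    · intro s hs'
      rw [interior_Icc] at hs'
      rw [(hd s (Ioo_subset_Icc_self hs')).deriv]
      exact hp _ (hmem s (Ioo_subset_Icc_self hs')) _ hv
  have h1 := hm (left_mem_Icc.2 zero_le_one) (right_mem_Icc.2 zero_le_one) zero_lt_one
  simp [ha', hb'] at h1

/-- the critical points in the balls -/
theorem count_set {f L : ℂ → ℝ} {κ : ℝ} {S : Finset (ℂ × ℝ)} (hS : ∀ p ∈ S, CB L κ p)
    (hs : ∀ z ∈ ball (0 : ℂ) 1, ContDiffAt ℝ ∞ f z)
    (hp : ∀ p ∈ S, ∀ z ∈ closedBall p.1 p.2, ∀ v, v ≠ 0 → 0 < q2 f z v) {A : Set ℂ}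
    (hA : ∀ z ∈ A, fderiv ℝ f z = 0) (h1 : ∀ z ∈ A, ∃ p ∈ S, z ∈ ball p.1 p.2) :
    A.encard ≤ (cups L).encard := by
  choose! p hpS hpm using h1
  refine encard_le_encard_of_injOn (f := fun z => (p z).1) ?_ ?_
  · intro z hz
    exact (hS _ (hpS z hz)).cup
  · intro a ha b hb hab
    have hab' : (p a).1 = (p b).1 := hab
    have key : ∀ q : ℂ × ℝ, q ∈ S → a ∈ closedBall q.1 q.2 → b ∈ closedBall q.1 q.2 → a = b := by
      intro q hq h2 h3
      exact one_crit (convex_closedBall q.1 q.2) (fun z hz => hs z ((hS q hq).sub hz))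
        (hp q hq) h2 h3 (hA a ha) (hA b hb)
    have h2 : dist a (p a).1 < (p a).2 := hpm a ha
    have h3 : dist b (p b).1 < (p b).2 := hpm b hb
    rcases le_total (p a).2 (p b).2 with h | h
    · refine key (p b) (hpS b hb) ?_ h3.le
      show dist a (p b).1 ≤ (p b).2
      rw [← hab']
      linarith
    · refine key (p a) (hpS a ha) h2.le ?_
      show dist b (p a).1 ≤ (p a).2
      rw [hab']
      linarith

/-- the number of local minima is at most the number of cups -/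
theorem count {f L : ℂ → ℝ} {κ : ℝ} {S : Finset (ℂ × ℝ)} (hS : ∀ p ∈ S, CB L κ p)
    (hs : ∀ z ∈ ball (0 : ℂ) 1, ContDiffAt ℝ ∞ f z)
    (hp : ∀ p ∈ S, ∀ z ∈ closedBall p.1 p.2, ∀ v, v ≠ 0 → 0 < q2 f z v)
    (hc : ∀ z ∈ ball (0 : ℂ) 1, fderiv ℝ f z = 0 →
      (∃ v, q2 f z v < 0) ∨ ∃ p ∈ S, z ∈ ball p.1 p.2) :
    {z | z ∈ ball (0 : ℂ) 1 ∧ IsLocalMin f z}.encard ≤ (cups L).encard := by
  refine count_set hS hs hp (fun z hz => hz.2.fderiv_eq_zero) ?_
  rintro z ⟨hz, hm⟩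
  rcases hc z hz hm.fderiv_eq_zero with ⟨v, hv⟩ | h
  · exact absurd (soc (hs z hz) hm v) (not_le.2 hv)
  · exact h

/-- nonnegative along segments -/
theorem min_of_conv {f : ℂ → ℝ} {K : Set ℂ} (hK : Convex ℝ K)
    (hs : ∀ z ∈ K, ContDiffAt ℝ ∞ f z) (hp : ∀ z ∈ K, ∀ v, 0 ≤ q2 f z v) {a b : ℂ}
    (ha : a ∈ K) (hb : b ∈ K) (ha' : fderiv ℝ f a = 0) : f a ≤ f b := by
  have hmem : ∀ s ∈ Icc (0 : ℝ) 1, a + s • (b - a) ∈ K := fun s hs =>
    hK.add_smul_sub_mem ha hb hs
  have hd : ∀ s ∈ Icc (0 : ℝ) 1, HasDerivAt (fun s : ℝ => fderiv ℝ f (a + s • (b - a)) (b - a))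
      (q2 f (a + s • (b - a)) (b - a)) s := fun s hs' =>
    line2 (diffFderiv (hs _ (hmem s hs')))
  have hd1 : ∀ s ∈ Icc (0 : ℝ) 1, HasDerivAt (fun s : ℝ => f (a + s • (b - a)))
      (fderiv ℝ f (a + s • (b - a)) (b - a)) s := fun s hs' =>
    line1 (diffAt (hs _ (hmem s hs')))
  have hm : MonotoneOn (fun s : ℝ => fderiv ℝ f (a + s • (b - a)) (b - a)) (Icc 0 1) := by
    apply monotoneOn_of_deriv_nonneg (convex_Icc 0 1)
    · exact fun s hs' => (hd s hs').continuousAt.continuousWithinAt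
    · intro s hs'
      rw [interior_Icc] at hs'
      exact (hd s (Ioo_subset_Icc_self hs')).differentiableAt.differentiableWithinAt
    · intro s hs'
      rw [interior_Icc] at hs'
      rw [(hd s (Ioo_subset_Icc_self hs')).deriv]
      exact hp _ (hmem s (Ioo_subset_Icc_self hs')) _
  have hm1 : MonotoneOn (fun s : ℝ => f (a + s • (b - a))) (Icc 0 1) := by
    apply monotoneOn_of_deriv_nonneg (convex_Icc 0 1)
    · exact fun s hs' => (hd1 s hs').continuousAt.continuousWithinAt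
    · intro s hs'
      rw [interior_Icc] at hs'
      exact (hd1 s (Ioo_subset_Icc_self hs')).differentiableAt.differentiableWithinAt
    · intro s hs'
      rw [interior_Icc] at hs'
      rw [(hd1 s (Ioo_subset_Icc_self hs')).deriv]
      have h1 := hm (left_mem_Icc.2 zero_le_one) (Ioo_subset_Icc_self hs') hs'.1.le
      simpa [ha'] using h1
  have h1 := hm1 (left_mem_Icc.2 zero_le_one) (right_mem_Icc.2 zero_le_one) zero_le_one
  simpa using h1

/-- a critical point with positive definite second derivative is a local minimum -/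
theorem pd_min {f : ℂ → ℝ} (hs : ∀ z ∈ ball (0 : ℂ) 1, ContDiffAt ℝ ∞ f z) {z : ℂ}
    (hz : z ∈ cups f) : z ∈ ball (0 : ℂ) 1 ∧ IsLocalMin f z := by
  obtain ⟨hzb, h0, h⟩ := hz
  refine ⟨hzb, ?_⟩
  obtain ⟨κ, hκ, hκ'⟩ := pos_def h
  have hsO : ContDiffOn ℝ ∞ f (ball (0 : ℂ) 1) := fun w hw => (hs w hw).contDiffWithinAt
  have c2 : ContinuousAt (fun z => fderiv ℝ (fderiv ℝ f) z) z :=
    (q2_cont isOpen_ball hsO).continuousAt (isOpen_ball.mem_nhds hzb)
  have c4 : ∀ a b : ℂ, ContinuousAt (fun w => fderiv ℝ (fderiv ℝ f) w a b) z := fun a b =>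
    (c2.clm_apply continuousAt_const).clm_apply continuousAt_const
  have c5 : ContinuousAt (fun w => E2 f z w) z := by
    unfold E2
    exact ((((c4 1 1).sub continuousAt_const).abs.add ((c4 1 Complex.I).sub
      continuousAt_const).abs).add ((c4 Complex.I 1).sub continuousAt_const).abs).add
      ((c4 Complex.I Complex.I).sub continuousAt_const).abs
  have h3 : ∀ᶠ w in 𝓝 z, E2 f z w < κ / 2 := by
    refine c5.eventually (gt_mem_nhds ?_)
    have : E2 f z z = 0 := by simp [E2]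
    show E2 f z z < κ / 2
    rw [this]
    positivity
  obtain ⟨r, hr, hr'⟩ := Metric.nhds_basis_ball.mem_iff.1
    (h3.and (isOpen_ball.mem_nhds hzb))
  refine Filter.mem_of_superset (ball_mem_nhds z hr) fun w hw => ?_
  refine min_of_conv (convex_ball z r) (fun w hw => hs w (hr' hw).2) (fun w hw v => ?_)
    (mem_ball_self hr) hw h0
  have h4 : E2 f z w < κ / 2 := (hr' hw).1
  have h5 : |q2 f w v - q2 f z v| ≤ κ / 2 * ‖v‖ ^ 2 :=
    (q2_diff f z w v).trans (mul_le_mul_of_nonneg_right h4.le (sq_nonneg _))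
  have h6 := hκ' v
  have h7 := (abs_le.1 h5).1
  have h8 : 0 ≤ κ * ‖v‖ ^ 2 := by positivity
  linarith

/-- the second derivative is symmetric -/
theorem fd2_symm {f : ℂ → ℝ} {z : ℂ} (h : ContDiffAt ℝ ∞ f z) (u v : ℂ) :
    fderiv ℝ (fderiv ℝ f) z u v = fderiv ℝ (fderiv ℝ f) z v u := by
  have h4 : IsSymmSndFDerivAt ℝ f z := h.isSymmSndFDerivAt (by
    simp only [minSmoothness_of_isRCLikeNormedField]
    have h7 : (2 : ℕ∞ω) = ((2 : ℕ∞) : ℕ∞ω) := by norm_num
    rw [h7]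
    exact_mod_cast (le_top : (2 : ℕ∞) ≤ ⊤))
  exact h4 u v

/-- nondegenerate and semidefinite: definite -/
theorem desc_or_pd {f : ℂ → ℝ} {z : ℂ} (h : ContDiffAt ℝ ∞ f z)
    (hn : ∀ u, (∀ v, fderiv ℝ (fderiv ℝ f) z u v = 0) → u = 0) :
    (∃ v, q2 f z v < 0) ∨ ∀ v, v ≠ 0 → 0 < q2 f z v := by
  by_cases hd : ∃ v, q2 f z v < 0
  · exact Or.inl hd
  · push Not at hd
    right
    intro v hv
    refine lt_of_le_of_ne (hd v) fun h0 => hv (hn v fun u => ?_)
    have h1 : ∀ t : ℝ, 0 ≤ q2 f z u + 2 * t * fderiv ℝ (fderiv ℝ f) z v u := by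
      intro t
      have h2 := hd (u + t • v)
      have h3 : q2 f z (u + t • v) = q2 f z u + 2 * t * fderiv ℝ (fderiv ℝ f) z v u +
          t ^ 2 * q2 f z v := by
        unfold q2
        simp only [map_add, map_smul, ContinuousLinearMap.add_apply,
          ContinuousLinearMap.smul_apply, smul_eq_mul]
        rw [fd2_symm h u v]
        ring
      rw [h3, ← h0] at h2
      linarith
    by_contra hne
    have h4 := h1 (-(q2 f z u + 1) / (2 * fderiv ℝ (fderiv ℝ f) z v u))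
    have h5 : 2 * (-(q2 f z u + 1) / (2 * fderiv ℝ (fderiv ℝ f) z v u)) *
        fderiv ℝ (fderiv ℝ f) z v u = -(q2 f z u + 1) := by
      field_simp
    rw [h5] at h4
    linarith

end Run7.h421.RP
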