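import Mathlib
import Pool.Agent.Run7.h421.RPc

/-!
Slice discs and their projections: choice of the constants.
-/

set_option autoImplicit false

namespace Run7.h421.RP

open scoped ContDiff RealInnerProductSpace Topology
open Set Metric Filter

theorem small (b δ c : ℝ) (hb : 0 < b) (hδ : 0 < δ) (hc : 0 < c) :
    ∃ ε : ℝ, 0 < ε ∧ ε ≤ 1 / 2 ∧ ε < c ∧ Real.exp (-(b / ε)) / ε ^ 2 < δ := by
  have h1 := Real.tendsto_pow_mul_exp_neg_atTop_nhds_zero 2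
  have h2 : ∀ᶠ y : ℝ in atTop, y ^ 2 * Real.exp (-y) < δ * b ^ 2 :=
    h1.eventually (gt_mem_nhds (by positivity))
  obtain ⟨y, hy1, hy2, hy3, hy4⟩ := (h2.and ((eventually_gt_atTop (b / c)).and
    ((eventually_ge_atTop (2 * b)).and (eventually_gt_atTop 0)))).exists
  refine ⟨b / y, by positivity, ?_, ?_, ?_⟩
  · rw [div_le_iff₀ hy4]
    linarith
  · rw [div_lt_iff₀ hy4]
    rw [div_lt_iff₀ hc] at hy2
    linarith
  · have e1 : b / (b / y) = y := by field_simp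
    rw [e1]
    have e2 : Real.exp (-y) / (b / y) ^ 2 = y ^ 2 * Real.exp (-y) / b ^ 2 := by
      field_simp
    rw [e2, div_lt_iff₀ (by positivity)]
    exact hy1

theorem exists_dir {l : ℂ →L[ℝ] ℝ} {m : ℝ} (hm : 0 < m) (hl : m ≤ ‖l‖) :
    ∃ v : ℂ, ‖v‖ ≤ 1 ∧ m ^ 2 / 4 ≤ (l v) ^ 2 := by
  have h1 : m / 2 < ‖l‖ := by linarith
  by_contra hcon
  push Not at hcon
  have h2 : ‖l‖ ≤ m / 2 := by
    refine l.opNorm_le_of_unit_norm (by positivity) ?_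
    intro v hv
    have h3 := hcon v hv.le
    rw [Real.norm_eq_abs]
    have h4 : (l v) ^ 2 < (m / 2) ^ 2 := by
      calc (l v) ^ 2 < m ^ 2 / 4 := h3
        _ = (m / 2) ^ 2 := by ring
    exact (abs_lt_of_sq_lt_sq h4 (by positivity)).le
  linarith

theorem q2_le {f : ℂ → ℝ} {z : ℂ} {C : ℝ} (hC : ‖fderiv ℝ (fderiv ℝ f) z‖ ≤ C) (v : ℂ) :
    |q2 f z v| ≤ C * ‖v‖ ^ 2 := by
  unfold q2
  have h1 := (fderiv ℝ (fderiv ℝ f) z).le_opNorm₂ v v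
  rw [Real.norm_eq_abs] at h1
  calc _ ≤ ‖fderiv ℝ (fderiv ℝ f) z‖ * ‖v‖ * ‖v‖ := h1
    _ ≤ C * ‖v‖ * ‖v‖ := by gcongr
    _ = C * ‖v‖ ^ 2 := by ring

/-- bounds on the closed disc -/
theorem bounds {f : ℂ → ℝ} {W : Set ℂ} (hW : IsOpen W) (hWs : closedBall (0 : ℂ) 1 ⊆ W)
    (hs : ContDiffOn ℝ ∞ f W) : ∃ C : ℝ, 1 ≤ C ∧ ∀ z ∈ closedBall (0 : ℂ) 1,
      |f z| ≤ C ∧ ‖fderiv ℝ f z‖ ≤ C ∧ ‖fderiv ℝ (fderiv ℝ f) z‖ ≤ C := by
  obtain ⟨C0, h0⟩ := (isCompact_closedBall (0 : ℂ) 1).exists_bound_of_continuousOn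
    (hs.continuousOn.mono hWs)
  obtain ⟨C1, h1⟩ := (isCompact_closedBall (0 : ℂ) 1).exists_bound_of_continuousOn
    ((fd_cont hW hs).mono hWs)
  have hq : ContinuousOn (fun z => ‖fderiv ℝ (fderiv ℝ f) z‖) (closedBall (0 : ℂ) 1) :=
    ContinuousOn.norm (E := ℂ →L[ℝ] ℂ →L[ℝ] ℝ) ((q2_cont hW hs).mono hWs)
  obtain ⟨C2, h2⟩ := (isCompact_closedBall (0 : ℂ) 1).exists_bound_of_continuousOn hq
  refine ⟨max 1 (max C0 (max C1 C2)), le_max_left _ _, fun z hz => ⟨?_, ?_, ?_⟩⟩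
  · exact (h0 z hz).trans ((le_max_left _ _).trans (le_max_right _ _))
  · exact (h1 z hz).trans ((le_max_left _ _).trans ((le_max_right _ _).trans (le_max_right _ _)))
  · have := h2 z hz
    rw [Real.norm_eq_abs] at this
    exact ((le_abs_self _).trans this).trans ((le_max_right _ _).trans ((le_max_right _ _).trans (le_max_right _ _)))

/-- near the boundary the height is regular -/
theorem reg_bdry {h : ℂ → ℝ} {W : Set ℂ} (hW : IsOpen W) (hWs : closedBall (0 : ℂ) 1 ⊆ W)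
    (hh : ContDiffOn ℝ ∞ h W) (hin : ∀ z ∈ ball (0 : ℂ) 1, 0 < h z)
    (ht : ∀ z ∈ sphere (0 : ℂ) 1, fderiv ℝ h z ≠ 0) :
    ∃ m0 : ℝ, 0 < m0 ∧ ∀ z ∈ closedBall (0 : ℂ) 1, h z < m0 → m0 ≤ ‖fderiv ℝ h z‖ := by
  have hc : ContinuousOn (fun z => max (h z) ‖fderiv ℝ h z‖) (closedBall (0 : ℂ) 1) :=
    continuous_max.comp_continuousOn
      ((hh.continuousOn.mono hWs).prodMk ((fd_cont hW hh).mono hWs).norm)
  obtain ⟨a, ha, ha'⟩ := (isCompact_closedBall (0 : ℂ) 1).exists_forall_le' hc (a := 0) (by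
    intro z hz
    by_cases h1 : z ∈ ball (0 : ℂ) 1
    · exact lt_max_of_lt_left (hin z h1)
    · have h2 : z ∈ sphere (0 : ℂ) 1 := by
        rw [mem_closedBall_zero_iff] at hz
        rw [mem_ball_zero_iff, not_lt] at h1
        rw [mem_sphere_zero_iff_norm]
        exact le_antisymm hz h1
      exact lt_max_of_lt_right (norm_pos_iff.2 (ht z h2)))
  refine ⟨a, ha, fun z hz hlt => ?_⟩
  rcases le_max_iff.1 (ha' z hz) with h1 | h1
  · exact absurd hlt (not_lt.2 h1)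
  · exact h1

theorem low_balls {h L : ℂ → ℝ} {κ : ℝ} {W : Set ℂ} (hWs : closedBall (0 : ℂ) 1 ⊆ W)
    (hh : ContDiffOn ℝ ∞ h W) (hin : ∀ z ∈ ball (0 : ℂ) 1, 0 < h z)
    {S : Finset (ℂ × ℝ)} (hS : ∀ p ∈ S, CB L κ p) :
    ∃ a : ℝ, 0 < a ∧ ∀ p ∈ S, ∀ z ∈ closedBall p.1 p.2, a ≤ h z := by
  have hK : IsCompact (⋃ p ∈ S, closedBall (p : ℂ × ℝ).1 p.2) :=
    S.isCompact_biUnion fun p _ => isCompact_closedBall p.1 p.2
  have hKb : (⋃ p ∈ S, closedBall (p : ℂ × ℝ).1 p.2) ⊆ ball (0 : ℂ) 1 :=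
    iUnion₂_subset fun p hp => (hS p hp).sub
  obtain ⟨a, ha, ha'⟩ := hK.exists_forall_le' (f := h) (a := 0)
    (hh.continuousOn.mono (hKb.trans (ball_subset_closedBall.trans hWs)))
    (fun z hz => hin z (hKb hz))
  exact ⟨a, ha, fun p hp z hz => ha' z (mem_iUnion₂.2 ⟨p, hp, hz⟩)⟩

end Run7.h421.RP
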