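import Mathlib
import Pool.Agent.Run7.h421.RPd

/-!
Slice discs and their projections: the new height has no other local minima.
-/

set_option autoImplicit false

namespace Run7.h421.RP

open scoped ContDiff RealInnerProductSpace Topology
open Set Metric Filter

/-- the cross term is nonpositive at critical points -/
theorem cross {R e ε g A x y : ℝ} (hR : 0 < R) (he : 0 ≤ e) (hε : 0 < ε) (hg : 0 < g)
    (hA : 0 ≤ A) (hcr : (1 + A) * x + g * R * y = 0) :
    2 * (R * (e / ε)) * (x * y) ≤ 0 := by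
  have h1 : g * R * (x * y) = -((1 + A) * x ^ 2) := by linear_combination x * hcr
  have h2 : g * R * (x * y) ≤ 0 := by
    rw [h1]
    have : 0 ≤ (1 + A) * x ^ 2 := by positivity
    linarith
  have h3 : x * y ≤ 0 := by
    by_contra hc
    push Not at hc
    have := mul_pos (mul_pos hg hR) hc
    linarith
  have h4 : 0 ≤ 2 * (R * (e / ε)) := by positivity
  exact mul_nonpos_of_nonneg_of_nonpos h4 h3

theorem step1 {h L : ℂ → ℝ} {W : Set ℂ} (hW : IsOpen W) (hWs : closedBall (0 : ℂ) 1 ⊆ W)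
    (hh : ContDiffOn ℝ ∞ h W) (hL : ContDiffOn ℝ ∞ L W)
    (hin : ∀ z ∈ ball (0 : ℂ) 1, 0 < h z) (hb : ∀ z ∈ sphere (0 : ℂ) 1, h z = 0)
    (ht : ∀ z ∈ sphere (0 : ℂ) 1, fderiv ℝ h z ≠ 0) {κ : ℝ} (hκ : 0 < κ)
    {S : Finset (ℂ × ℝ)} (hS : ∀ p ∈ S, CB L κ p)
    (hc : ∀ w ∈ closedBall (0 : ℂ) 1, Case3 L κ S w) (N : ℝ) :
    ∃ R T ε : ℝ, 0 < R ∧ 0 < ε ∧ (∀ z ∈ closedBall (0 : ℂ) 1, 1 ≤ R * L z + T) ∧ R * N ≤ T ∧
      (∀ z ∈ closedBall (0 : ℂ) 1, fderiv ℝ (newF h L R T ε) z = 0 →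
        z ∈ ball (0 : ℂ) 1 ∧ ((∃ v, q2 (newF h L R T ε) z v < 0) ∨ ∃ p ∈ S, z ∈ ball p.1 p.2)) ∧
      (∀ p ∈ S, ∀ z ∈ closedBall p.1 p.2, ∀ v, v ≠ 0 → 0 < q2 (newF h L R T ε) z v) := by
  obtain ⟨C1, hC1, hB1⟩ := bounds hW hWs hh
  obtain ⟨C2, hC2, hB2⟩ := bounds hW hWs hL
  obtain ⟨m0, hm0, hm⟩ := reg_bdry hW hWs hh hin ht
  obtain ⟨a, ha, hlow⟩ := low_balls hWs hh hin hS
  obtain ⟨C, hC⟩ : ∃ C, C = max C1 C2 := ⟨_, rfl⟩
  have hC0 : 1 ≤ C := by rw [hC]; exact hC1.trans (le_max_left _ _)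
  have hCpos : 0 < C := by linarith
  have b1 : ∀ z ∈ closedBall (0 : ℂ) 1, ‖fderiv ℝ h z‖ ≤ C ∧
      ‖fderiv ℝ (fderiv ℝ h) z‖ ≤ C := fun z hz => by
    rw [hC]
    exact ⟨(hB1 z hz).2.1.trans (le_max_left _ _), (hB1 z hz).2.2.trans (le_max_left _ _)⟩
  have b2 : ∀ z ∈ closedBall (0 : ℂ) 1, |L z| ≤ C ∧ ‖fderiv ℝ L z‖ ≤ C ∧
      ‖fderiv ℝ (fderiv ℝ L) z‖ ≤ C := fun z hz => by
    rw [hC]
    exact ⟨(hB2 z hz).1.trans (le_max_right _ _), (hB2 z hz).2.1.trans (le_max_right _ _),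
      (hB2 z hz).2.2.trans (le_max_right _ _)⟩
  obtain ⟨R, hR⟩ : ∃ R, R = 16 * C / κ := ⟨_, rfl⟩
  have hRpos : 0 < R := by rw [hR]; positivity
  have hRκ : R * κ = 16 * C := by rw [hR]; field_simp
  obtain ⟨T, hT⟩ : ∃ T, T = R * (C + |N|) + 1 := ⟨_, rfl⟩
  obtain ⟨M, hM⟩ : ∃ M, M = R * C + T := ⟨_, rfl⟩
  have hTpos : 0 < T := by rw [hT]; positivity
  have hMpos : 0 < M := by rw [hM]; positivity
  -- the choice of ε
  obtain ⟨b, hbdef⟩ : ∃ b, b = min m0 a := ⟨_, rfl⟩
  have hbpos : 0 < b := by rw [hbdef]; exact lt_min hm0 ha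
  have hbm : b ≤ m0 := by rw [hbdef]; exact min_le_left _ _
  have hba : b ≤ a := by rw [hbdef]; exact min_le_right _ _
  obtain ⟨δ, hδ⟩ : ∃ δ, δ = min (1 / 2) (min (1 / (2 * M)) (min (1 / (M * C)) (1 / (2 * R * C)))) :=
    ⟨_, rfl⟩
  have hδpos : 0 < δ := by rw [hδ]; positivity
  have hδ1 : δ ≤ 1 / 2 := by rw [hδ]; exact min_le_left _ _
  have hδ2 : δ ≤ 1 / (2 * M) := by
    rw [hδ]; exact (min_le_right _ _).trans (min_le_left _ _)
  have hδ3 : δ ≤ 1 / (M * C) := by
    rw [hδ]; exact (min_le_right _ _).trans ((min_le_right _ _).trans (min_le_left _ _))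
  have hδ4 : δ ≤ 1 / (2 * R * C) := by
    rw [hδ]; exact (min_le_right _ _).trans ((min_le_right _ _).trans (min_le_right _ _))
  obtain ⟨ε, hε, hε2, hεc, hεe⟩ := small b δ (m0 ^ 2 / (8 * C + 4 * R * C)) hbpos hδpos
    (by positivity)
  have hεc' : ε * (8 * C + 4 * R * C) < m0 ^ 2 := by
    rwa [lt_div_iff₀ (by positivity)] at hεc
  -- small exponentials
  have sm : ∀ t : ℝ, b ≤ t → Real.exp (-(t / ε)) / ε / ε < δ ∧ Real.exp (-(t / ε)) / ε < δ ∧
      Real.exp (-(t / ε)) < δ := by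
    intro t htb
    have h1 : Real.exp (-(t / ε)) ≤ Real.exp (-(b / ε)) := by
      apply Real.exp_le_exp.2
      have : b / ε ≤ t / ε := div_le_div_of_nonneg_right htb hε.le
      linarith
    have h2 : Real.exp (-(t / ε)) / ε / ε < δ := by
      rw [div_div, ← pow_two]
      exact (div_le_div_of_nonneg_right h1 (by positivity)).trans_lt hεe
    have h0 : 0 < Real.exp (-(t / ε)) := Real.exp_pos _
    have h3 : Real.exp (-(t / ε)) / ε ≤ Real.exp (-(t / ε)) / ε / ε := by
      rw [le_div_iff₀ hε]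
      have : 0 ≤ Real.exp (-(t / ε)) / ε := by positivity
      nlinarith
    have h4 : Real.exp (-(t / ε)) ≤ Real.exp (-(t / ε)) / ε := by
      rw [le_div_iff₀ hε]
      nlinarith
    exact ⟨h2, h3.trans_lt h2, (h4.trans h3).trans_lt h2⟩
  have hRL : ∀ z ∈ closedBall (0 : ℂ) 1, 1 ≤ R * L z + T ∧ R * L z + T ≤ M := by
    intro z hz
    have h1 := abs_le.1 (b2 z hz).1
    have h2 : R * L z ≤ R * C := mul_le_mul_of_nonneg_left h1.2 hRpos.le
    have h3 : R * (-C) ≤ R * L z := mul_le_mul_of_nonneg_left h1.1 hRpos.le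
    have h4 : 0 ≤ R * |N| := by positivity
    constructor
    · rw [hT]
      nlinarith
    · rw [hM]
      linarith
  have hA : ∀ z ∈ closedBall (0 : ℂ) 1,
      Real.exp (-(h z / ε)) / ε ≤ cA h L R T ε z ∧
      cA h L R T ε z ≤ M * (Real.exp (-(h z / ε)) / ε) := by
    intro z hz
    have h0 : 0 < Real.exp (-(h z / ε)) / ε := by positivity
    unfold cA
    constructor
    · have := mul_le_mul_of_nonneg_right (hRL z hz).1 h0.le
      linarith
    · exact mul_le_mul_of_nonneg_right (hRL z hz).2 h0.le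
  have hApos : ∀ z ∈ closedBall (0 : ℂ) 1, 0 < cA h L R T ε z := fun z hz =>
    lt_of_lt_of_le (by positivity) (hA z hz).1
  have hsm : ∀ z ∈ closedBall (0 : ℂ) 1, ContDiffAt ℝ ∞ h z ∧ ContDiffAt ℝ ∞ L z := fun z hz =>
    ⟨hh.contDiffAt (hW.mem_nhds (hWs hz)), hL.contDiffAt (hW.mem_nhds (hWs hz))⟩
  have hh0 : ∀ z ∈ closedBall (0 : ℂ) 1, 0 ≤ h z := by
    intro z hz
    by_cases h1 : z ∈ ball (0 : ℂ) 1
    · exact (hin z h1).le
    · rw [hb z (by
        rw [mem_closedBall_zero_iff] at hz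
        rw [mem_ball_zero_iff, not_lt] at h1
        rw [mem_sphere_zero_iff_norm]
        exact le_antisymm hz h1)]
  have hg1 : ∀ z ∈ closedBall (0 : ℂ) 1, cg h ε z ≤ 1 := by
    intro z hz
    unfold cg
    linarith [Real.exp_pos (-(h z / ε))]
  have hMδ : M * δ ≤ 1 / 2 := by
    calc M * δ ≤ M * (1 / (2 * M)) := mul_le_mul_of_nonneg_left hδ2 hMpos.le
      _ = 1 / 2 := by field_simp
  have hMCδ : M * δ * C ≤ 1 := by
    calc M * δ * C = (M * C) * δ := by ring
      _ ≤ (M * C) * (1 / (M * C)) := mul_le_mul_of_nonneg_left hδ3 (by positivity)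
      _ = 1 := by field_simp
  have hRCδ : 2 * R * C * δ ≤ 1 := by
    calc 2 * R * C * δ ≤ 2 * R * C * (1 / (2 * R * C)) :=
        mul_le_mul_of_nonneg_left hδ4 (by positivity)
      _ = 1 := by field_simp
  refine ⟨R, T, ε, hRpos, hε, fun z hz => (hRL z hz).1, ?_, ?_, ?_⟩
  · rw [hT]
    have h1 := le_abs_self N
    have h2 : R * N ≤ R * |N| := mul_le_mul_of_nonneg_left h1 hRpos.le
    have h3 : 0 ≤ R * C := by positivity
    nlinarith
  · intro z hz hcr
    have hcr' : ∀ v, (1 + cA h L R T ε z) * fderiv ℝ h z v + cg h ε z * R * fderiv ℝ L z v = 0 := by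
      intro v
      rw [← fd_newF (diffAt (hsm z hz).1) (diffAt (hsm z hz).2) R T ε v, hcr]
      rfl
    have hAz := hApos z hz
    have hzb : z ∈ ball (0 : ℂ) 1 := by
      by_contra h1
      have h2 : z ∈ sphere (0 : ℂ) 1 := by
        have hz' := hz
        rw [mem_closedBall_zero_iff] at hz'
        rw [mem_ball_zero_iff, not_lt] at h1
        rw [mem_sphere_zero_iff_norm]
        exact le_antisymm hz' h1
      apply ht z h2
      ext v
      have h3 := hcr' v
      have h4 : cg h ε z = 0 := by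
        unfold cg
        rw [hb z h2]
        simp
      rw [h4] at h3
      have h5 : (1 + cA h L R T ε z) * fderiv ℝ h z v = 0 := by linarith
      rcases mul_eq_zero.1 h5 with h6 | h6
      · linarith
      · exact h6
    refine ⟨hzb, ?_⟩
    have hgpos : 0 < cg h ε z := by
      unfold cg
      have h1 : 0 < h z / ε := div_pos (hin z hzb) hε
      have h2 : Real.exp (-(h z / ε)) < 1 := by
        rw [← Real.exp_zero]
        exact Real.exp_lt_exp.2 (by linarith)
      linarith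
    have hcross : ∀ v, 2 * (R * (Real.exp (-(h z / ε)) / ε)) *
        (fderiv ℝ h z v * fderiv ℝ L z v) ≤ 0 := fun v =>
      cross hRpos (Real.exp_pos _).le hε hgpos hAz.le (hcr' v)
    have hq : ∀ v, ‖v‖ ≤ 1 → q2 h z v ≤ C ∧ q2 L z v ≤ C := by
      intro v hv
      have h1 := q2_le (b1 z hz).2 v
      have h2 := q2_le (b2 z hz).2.2 v
      have h3 : C * ‖v‖ ^ 2 ≤ C := by
        have : ‖v‖ ^ 2 ≤ 1 := pow_le_one₀ (norm_nonneg _) hv
        nlinarith
      exact ⟨(le_abs_self _).trans (h1.trans h3), (le_abs_self _).trans (h2.trans h3)⟩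
    by_cases hA1 : 1 ≤ cA h L R T ε z
    · -- near the boundary
      left
      have hlt : h z < m0 := by
        by_contra hcon
        push Not at hcon
        have h1 := (sm (h z) (hbm.trans hcon)).2.1
        have h2 := (hA z hz).2
        have h3 : M * (Real.exp (-(h z / ε)) / ε) ≤ M * δ :=
          mul_le_mul_of_nonneg_left h1.le hMpos.le
        linarith
      obtain ⟨v, hv1, hv2⟩ := exists_dir hm0 (hm z hz hlt)
      refine ⟨v, ?_⟩
      rw [q2_newF (hsm z hz).1 (hsm z hz).2]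
      have h1 := hcross v
      obtain ⟨h2, h3⟩ := hq v hv1
      have h4 : (1 + cA h L R T ε z) * q2 h z v ≤ 2 * cA h L R T ε z * C := by
        calc (1 + cA h L R T ε z) * q2 h z v ≤ (1 + cA h L R T ε z) * C :=
              mul_le_mul_of_nonneg_left h2 (by linarith)
          _ ≤ 2 * cA h L R T ε z * C := mul_le_mul_of_nonneg_right (by linarith) hCpos.le
      have h5 : cg h ε z * R * q2 L z v ≤ cA h L R T ε z * (R * C) := by
        calc cg h ε z * R * q2 L z v ≤ cg h ε z * R * C :=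
              mul_le_mul_of_nonneg_left h3 (by positivity)
          _ = cg h ε z * (R * C) := by ring
          _ ≤ cA h L R T ε z * (R * C) :=
              mul_le_mul_of_nonneg_right ((hg1 z hz).trans hA1) (by positivity)
      have h6 : cA h L R T ε z * (2 * C + R * C) < cA h L R T ε z / ε * (fderiv ℝ h z v) ^ 2 := by
        rw [div_mul_eq_mul_div, lt_div_iff₀ hε]
        have h7 : (2 * C + R * C) * ε < (fderiv ℝ h z v) ^ 2 := by
          calc (2 * C + R * C) * ε = (ε * (8 * C + 4 * R * C)) / 4 := by ring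
            _ < m0 ^ 2 / 4 := by linarith
            _ ≤ _ := hv2
        calc cA h L R T ε z * (2 * C + R * C) * ε = cA h L R T ε z * ((2 * C + R * C) * ε) := by ring
          _ < _ := mul_lt_mul_of_pos_left h7 hAz
      nlinarith
    · push Not at hA1
      have he : Real.exp (-(h z / ε)) / ε < 1 := (hA z hz).1.trans_lt hA1
      have hg : 1 / 2 ≤ cg h ε z := by
        unfold cg
        rw [div_lt_one hε] at he
        linarith
      have hdL : ‖fderiv ℝ L z‖ < κ := by
        have h1 : ∀ v, ‖fderiv ℝ L z v‖ ≤ (4 * C / R) * ‖v‖ := by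
          intro v
          have h2 := hcr' v
          have h3 : fderiv ℝ L z v = -((1 + cA h L R T ε z) * fderiv ℝ h z v) / (cg h ε z * R) := by
            rw [eq_div_iff (by positivity)]
            linarith
          rw [h3, norm_div, norm_neg, norm_mul, Real.norm_eq_abs, Real.norm_eq_abs (cg h ε z * R),
            abs_of_pos (by linarith), abs_of_pos (by positivity), div_le_iff₀ (by positivity)]
          have h4 : ‖fderiv ℝ h z v‖ ≤ C * ‖v‖ :=
            ((fderiv ℝ h z).le_opNorm v).trans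
              (mul_le_mul_of_nonneg_right (b1 z hz).1 (norm_nonneg v))
          calc (1 + cA h L R T ε z) * ‖fderiv ℝ h z v‖ ≤ 2 * (C * ‖v‖) :=
                mul_le_mul (by linarith) h4 (norm_nonneg _) (by norm_num)
            _ = 4 * C / R * ‖v‖ * (1 / 2 * R) := by field_simp; ring
            _ ≤ 4 * C / R * ‖v‖ * (cg h ε z * R) := by
                apply mul_le_mul_of_nonneg_left _ (by positivity)
                exact mul_le_mul_of_nonneg_right hg hRpos.le
        have h2 : ‖fderiv ℝ L z‖ ≤ 4 * C / R :=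
          ContinuousLinearMap.opNorm_le_bound _ (by positivity) h1
        refine h2.trans_lt ?_
        rw [div_lt_iff₀ hRpos]
        nlinarith
      rcases hc z hz with h1 | ⟨v, hv1, hv2⟩ | h1
      · exact absurd h1 (not_le.2 hdL)
      · left
        refine ⟨v, ?_⟩
        rw [q2_newF (hsm z hz).1 (hsm z hz).2]
        have h1 := hcross v
        obtain ⟨h2, -⟩ := hq v hv1
        have h4 : (1 + cA h L R T ε z) * q2 h z v ≤ 2 * C := by
          calc (1 + cA h L R T ε z) * q2 h z v ≤ (1 + cA h L R T ε z) * C :=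
                mul_le_mul_of_nonneg_left h2 (by linarith)
            _ ≤ 2 * C := mul_le_mul_of_nonneg_right (by linarith) hCpos.le
        have h5 : cg h ε z * R * q2 L z v ≤ -(8 * C) := by
          calc cg h ε z * R * q2 L z v ≤ cg h ε z * R * (-κ) :=
                mul_le_mul_of_nonneg_left hv2 (by positivity)
            _ = -(cg h ε z * (R * κ)) := by ring
            _ ≤ -(8 * C) := by
                rw [hRκ]
                nlinarith
        have h6 : 0 ≤ cA h L R T ε z / ε * (fderiv ℝ h z v) ^ 2 := by positivity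
        linarith
      · exact Or.inr h1
  · intro p hp z hz v hv
    have hzb := (hS p hp).sub hz
    have hzc := ball_subset_closedBall hzb
    have hAz := hApos z hzc
    have hn : 0 < ‖v‖ ^ 2 := by positivity
    obtain ⟨s1, s2, s3⟩ := sm (h z) (hba.trans (hlow p hp z hz))
    rw [q2_newF (hsm z hzc).1 (hsm z hzc).2]
    have hA1 : cA h L R T ε z ≤ 1 := by
      have h2 := (hA z hzc).2
      have h3 : M * (Real.exp (-(h z / ε)) / ε) ≤ M * δ :=
        mul_le_mul_of_nonneg_left s2.le hMpos.le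
      linarith
    have hg : 1 / 2 ≤ cg h ε z := by
      unfold cg
      linarith
    have e1 : -(2 * C * ‖v‖ ^ 2) ≤ (1 + cA h L R T ε z) * q2 h z v := by
      have h1 := (abs_le.1 (q2_le (b1 z hzc).2 v)).1
      calc -(2 * C * ‖v‖ ^ 2) ≤ (1 + cA h L R T ε z) * (-(C * ‖v‖ ^ 2)) := by
            have : 0 ≤ C * ‖v‖ ^ 2 := by positivity
            nlinarith
        _ ≤ _ := mul_le_mul_of_nonneg_left h1 (by linarith)
    have e2 : 8 * C * ‖v‖ ^ 2 ≤ cg h ε z * R * q2 L z v := by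
      have h1 := (hS p hp).conv z hz v
      calc 8 * C * ‖v‖ ^ 2 = 1 / 2 * R * (κ * ‖v‖ ^ 2) := by
            have : 1 / 2 * R * (κ * ‖v‖ ^ 2) = 1 / 2 * (R * κ) * ‖v‖ ^ 2 := by ring
            rw [this, hRκ]
            ring
        _ ≤ cg h ε z * R * (κ * ‖v‖ ^ 2) := by
            apply mul_le_mul_of_nonneg_right _ (by positivity)
            exact mul_le_mul_of_nonneg_right hg hRpos.le
        _ ≤ _ := mul_le_mul_of_nonneg_left h1 (by positivity)
    have hx : |fderiv ℝ h z v| ≤ C * ‖v‖ := by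
      rw [← Real.norm_eq_abs]
      exact ((fderiv ℝ h z).le_opNorm v).trans
        (mul_le_mul_of_nonneg_right (b1 z hzc).1 (norm_nonneg v))
    have hy : |fderiv ℝ L z v| ≤ C * ‖v‖ := by
      rw [← Real.norm_eq_abs]
      exact ((fderiv ℝ L z).le_opNorm v).trans
        (mul_le_mul_of_nonneg_right (b2 z hzc).2.1 (norm_nonneg v))
    have e3 : cA h L R T ε z / ε * (fderiv ℝ h z v) ^ 2 ≤ C * ‖v‖ ^ 2 := by
      have h1 : cA h L R T ε z / ε ≤ M * δ := by
        calc cA h L R T ε z / ε ≤ M * (Real.exp (-(h z / ε)) / ε) / ε :=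
              div_le_div_of_nonneg_right (hA z hzc).2 hε.le
          _ = M * (Real.exp (-(h z / ε)) / ε / ε) := by ring
          _ ≤ M * δ := mul_le_mul_of_nonneg_left s1.le hMpos.le
      have h2 : (fderiv ℝ h z v) ^ 2 ≤ (C * ‖v‖) ^ 2 := by
        rw [← sq_abs (fderiv ℝ h z v)]
        exact pow_le_pow_left₀ (abs_nonneg _) hx 2
      calc cA h L R T ε z / ε * (fderiv ℝ h z v) ^ 2 ≤ M * δ * (C * ‖v‖) ^ 2 :=
            mul_le_mul h1 h2 (sq_nonneg _) (by positivity)
        _ = M * δ * C * (C * ‖v‖ ^ 2) := by ring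
        _ ≤ 1 * (C * ‖v‖ ^ 2) := mul_le_mul_of_nonneg_right hMCδ (by positivity)
        _ = _ := one_mul _
    have e4 : -(C * ‖v‖ ^ 2) ≤ 2 * (R * (Real.exp (-(h z / ε)) / ε)) *
        (fderiv ℝ h z v * fderiv ℝ L z v) := by
      have h0 : 0 < Real.exp (-(h z / ε)) / ε := by positivity
      have h1 : |fderiv ℝ h z v * fderiv ℝ L z v| ≤ (C * ‖v‖) * (C * ‖v‖) := by
        rw [abs_mul]
        exact mul_le_mul hx hy (abs_nonneg _) (by positivity)
      have h2 : |2 * (R * (Real.exp (-(h z / ε)) / ε)) *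
          (fderiv ℝ h z v * fderiv ℝ L z v)| ≤ C * ‖v‖ ^ 2 := by
        rw [abs_mul, abs_of_pos (by positivity : 0 < 2 * (R * (Real.exp (-(h z / ε)) / ε)))]
        calc 2 * (R * (Real.exp (-(h z / ε)) / ε)) * |fderiv ℝ h z v * fderiv ℝ L z v|
            ≤ 2 * (R * δ) * ((C * ‖v‖) * (C * ‖v‖)) := by
              apply mul_le_mul _ h1 (abs_nonneg _) (by positivity)
              apply mul_le_mul_of_nonneg_left _ (by norm_num)
              exact mul_le_mul_of_nonneg_left s2.le hRpos.le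
          _ = 2 * R * C * δ * (C * ‖v‖ ^ 2) := by ring
          _ ≤ 1 * (C * ‖v‖ ^ 2) := mul_le_mul_of_nonneg_right hRCδ (by positivity)
          _ = _ := one_mul _
      exact (abs_le.1 h2).1
    have h9 : 0 < C * ‖v‖ ^ 2 := by positivity
    nlinarith

end Run7.h421.RP
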