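import Mathlib
import Pool.Agent.Run7.h421.RPe

/-!
Slice discs and their projections: small perturbations.
-/

set_option autoImplicit false

namespace Run7.h421.RP

open scoped ContDiff RealInnerProductSpace Topology
open Set Metric Filter
open Pool.Agent.Y503.RB (E4 d1 d2 sff)
open Pool.Agent.N503.ML (vert)

theorem hess0 {Ψ : ℂ → E4} {z : ℂ} (h : ContDiffAt ℝ ∞ Ψ z) (x : E4) :
    (∀ v, fderiv ℝ (fun w => ⟪x, Ψ w⟫) z v = ⟪x, fderiv ℝ Ψ z v⟫) ∧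
    (∀ u v, fderiv ℝ (fderiv ℝ (fun w => ⟪x, Ψ w⟫)) z u v =
      ⟪x, fderiv ℝ (fderiv ℝ Ψ) z u v⟫) := by
  have h1 := Pool.Agent.N503.ML.hess h x 0
  simp only [add_zero] at h1
  refine ⟨h1.1, fun u v => ?_⟩
  rw [h1.2 u v]
  unfold sff
  rw [Pool.Agent.N503.ML.d2_eq h]

theorem q2_inner {Ψ : ℂ → E4} {z : ℂ} (h : ContDiffAt ℝ ∞ Ψ z) (x : E4) (v : ℂ) :
    q2 (fun w => ⟪x, Ψ w⟫) z v = ⟪x, fderiv ℝ (fderiv ℝ Ψ) z v v⟫ := (hess0 h x).2 v v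

theorem cont_fd {Ψ : ℂ → E4} {z : ℂ} (h : ContDiffAt ℝ ∞ Ψ z) :
    ContinuousAt (fderiv ℝ Ψ) z := (diffFderiv h).continuousAt

theorem cont_fd2 {Ψ : ℂ → E4} {z : ℂ} (h : ContDiffAt ℝ ∞ Ψ z) :
    ContinuousAt (fderiv ℝ (fderiv ℝ Ψ)) z := by
  have h1 : ContDiffAt ℝ 1 (fderiv ℝ Ψ) z :=
    h.fderiv_right (m := 1) (by
      have : ((1 : ℕ∞ω) + 1) = ((2 : ℕ∞) : ℕ∞ω) := by norm_num
      rw [this]
      exact_mod_cast (le_top : (2 : ℕ∞) ≤ ⊤))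
  exact (h1.continuousAt_fderiv (by simp))

/-- the three cases for the function `⟪x, Ψ⟫` -/
def Cases (Ψ : ℂ → E4) (S : Finset (ℂ × ℝ)) (x : E4) : Prop :=
  ∀ z ∈ closedBall (0 : ℂ) 1, (∃ v, ⟪x, fderiv ℝ Ψ z v⟫ ≠ 0) ∨
    (z ∈ ball (0 : ℂ) 1 ∧ ∃ v, ⟪x, fderiv ℝ (fderiv ℝ Ψ) z v v⟫ < 0) ∨
    ∃ p ∈ S, z ∈ ball p.1 p.2

theorem ev_cases {Ψ : ℂ → E4} (hs : ∀ z ∈ closedBall (0 : ℂ) 1, ContDiffAt ℝ ∞ Ψ z)
    {S : Finset (ℂ × ℝ)} {x0 : E4} (h : Cases Ψ S x0) : ∀ᶠ x in 𝓝 x0, Cases Ψ S x := by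
  refine (isCompact_closedBall (0 : ℂ) 1).eventually_forall_of_forall_eventually ?_
  intro z hz
  have hf : Tendsto (fun q : E4 × ℂ => q.1) (𝓝 (x0, z)) (𝓝 x0) := continuous_fst.tendsto _
  have hsnd : Tendsto (fun q : E4 × ℂ => q.2) (𝓝 (x0, z)) (𝓝 z) := continuous_snd.tendsto _
  rcases h z hz with ⟨v, hv⟩ | ⟨hzb, v, hv⟩ | ⟨p, hp, hzp⟩
  · have h1 : Tendsto (fun q : E4 × ℂ => fderiv ℝ Ψ q.2 v) (𝓝 (x0, z)) (𝓝 (fderiv ℝ Ψ z v)) :=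
      (((cont_fd (hs z hz)).clm_apply continuousAt_const).tendsto).comp hsnd
    have h2 := hf.inner h1 (𝕜 := ℝ)
    refine (h2.eventually (isOpen_ne.mem_nhds hv)).mono fun q hq => Or.inl ⟨v, hq⟩
  · have h1 : Tendsto (fun q : E4 × ℂ => fderiv ℝ (fderiv ℝ Ψ) q.2 v v) (𝓝 (x0, z))
        (𝓝 (fderiv ℝ (fderiv ℝ Ψ) z v v)) :=
      ((((cont_fd2 (hs z hz)).clm_apply continuousAt_const).clm_apply
        continuousAt_const).tendsto).comp hsnd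
    have h2 := hf.inner h1 (𝕜 := ℝ)
    refine ((h2.eventually (gt_mem_nhds hv)).and (hsnd.eventually
      (isOpen_ball.mem_nhds hzb))).mono fun q hq => Or.inr (Or.inl ⟨hq.2, v, hq.1⟩)
  · exact (hsnd.eventually (isOpen_ball.mem_nhds hzp)).mono fun q hq => Or.inr (Or.inr ⟨p, hp, hq⟩)

/-- positivity of the second derivative on the closed balls -/
def Conv (Ψ : ℂ → E4) (S : Finset (ℂ × ℝ)) (x : E4) : Prop :=
  ∀ p ∈ S, ∀ z ∈ closedBall p.1 p.2, ∀ v, v ≠ 0 → 0 < ⟪x, fderiv ℝ (fderiv ℝ Ψ) z v v⟫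

theorem ev_conv {Ψ : ℂ → E4} (hs : ∀ z ∈ closedBall (0 : ℂ) 1, ContDiffAt ℝ ∞ Ψ z)
    {S : Finset (ℂ × ℝ)} (hS : ∀ p ∈ S, closedBall p.1 p.2 ⊆ ball (0 : ℂ) 1)
    {x0 : E4} (h : Conv Ψ S x0) : ∀ᶠ x in 𝓝 x0, Conv Ψ S x := by
  rw [show (∀ᶠ x in 𝓝 x0, Conv Ψ S x) ↔ ∀ p ∈ S, ∀ᶠ x in 𝓝 x0, ∀ z ∈ closedBall p.1 p.2,
    ∀ v, v ≠ 0 → 0 < ⟪x, fderiv ℝ (fderiv ℝ Ψ) z v v⟫ from Filter.eventually_all_finset S]
  intro p hp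
  have hK : IsCompact (closedBall p.1 p.2 ×ˢ sphere (0 : ℂ) 1) :=
    (isCompact_closedBall p.1 p.2).prod (isCompact_sphere (0 : ℂ) 1)
  have h3 : ∀ᶠ x in 𝓝 x0, ∀ q ∈ closedBall p.1 p.2 ×ˢ sphere (0 : ℂ) 1,
      0 < ⟪x, fderiv ℝ (fderiv ℝ Ψ) q.1 q.2 q.2⟫ := by
    refine hK.eventually_forall_of_forall_eventually ?_
    rintro ⟨z, v⟩ ⟨hz, hv⟩
    simp only at hz hv
    have hz1 : z ∈ closedBall (0 : ℂ) 1 := ball_subset_closedBall (hS p hp hz)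
    have hf : Tendsto (fun q : E4 × (ℂ × ℂ) => q.1) (𝓝 (x0, (z, v))) (𝓝 x0) :=
      continuous_fst.tendsto _
    have h1 : Tendsto (fun q : E4 × (ℂ × ℂ) => q.2.1) (𝓝 (x0, (z, v))) (𝓝 z) :=
      (continuous_fst.comp continuous_snd).tendsto _
    have h2 : ContinuousAt (fun q : E4 × (ℂ × ℂ) => q.2.2) (x0, (z, v)) :=
      (continuous_snd.comp continuous_snd).continuousAt
    have h4 : ContinuousAt (fun q : E4 × (ℂ × ℂ) => fderiv ℝ (fderiv ℝ Ψ) q.2.1) (x0, (z, v)) :=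
      (cont_fd2 (hs z hz1)).tendsto.comp h1
    have h5 : Tendsto (fun q : E4 × (ℂ × ℂ) => fderiv ℝ (fderiv ℝ Ψ) q.2.1 q.2.2 q.2.2)
        (𝓝 (x0, (z, v))) (𝓝 (fderiv ℝ (fderiv ℝ Ψ) z v v)) :=
      ((h4.clm_apply h2).clm_apply h2).tendsto
    have hv0 : v ≠ 0 := by
      rintro rfl
      simp at hv
    exact (hf.inner h5 (𝕜 := ℝ)).eventually (lt_mem_nhds (h p hp z hz v hv0))
  refine h3.mono fun x hx z hz v hv => ?_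
  have hn : 0 < ‖v‖ := norm_pos_iff.2 hv
  have h4 := hx (z, ‖v‖⁻¹ • v) ⟨hz, by
    simp only
    rw [mem_sphere_zero_iff_norm, norm_smul, norm_inv, norm_norm, inv_mul_cancel₀ hn.ne']⟩
  simp only [map_smul, ContinuousLinearMap.smul_apply, real_inner_smul_right] at h4
  have h5 : 0 < ‖v‖⁻¹ := by positivity
  by_contra hcon
  push Not at hcon
  have := mul_nonpos_of_nonneg_of_nonpos h5.le
    (mul_nonpos_of_nonneg_of_nonpos h5.le hcon)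
  linarith

end Run7.h421.RP
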