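import Mathlib
import Pool.Agent.Run7.h421.RPf

/-!
Slice discs and their projections: the new disc.
-/

set_option autoImplicit false

namespace Run7.h421.RP

open scoped ContDiff RealInnerProductSpace Topology
open Set Metric Filter
open Pool.Agent.N503.ML (vert vert_three inner_vert norm_vert)

theorem coord_contDiff (i : Fin 4) : ContDiff ℝ ∞ (fun x : R4 => x i) :=
  (EuclideanSpace.proj i : R4 →L[ℝ] ℝ).contDiff

theorem coord_fd {φ : ℂ → R4} {z : ℂ} (h : DifferentiableAt ℝ φ z) (i : Fin 4) :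
    HasFDerivAt (fun w => φ w i) ((EuclideanSpace.proj i : R4 →L[ℝ] ℝ).comp (fderiv ℝ φ z)) z :=
  (EuclideanSpace.proj i : R4 →L[ℝ] ℝ).hasFDerivAt.comp z h.hasFDerivAt

theorem coord_fd' {φ : ℂ → R4} {z : ℂ} (h : DifferentiableAt ℝ φ z) (i : Fin 4) (v : ℂ) :
    fderiv ℝ (fun w => φ w i) z v = fderiv ℝ φ z v i := by
  rw [(coord_fd h i).fderiv]
  rfl

theorem SliceDisc.at {φ : ℂ → R4} (h : SliceDisc φ) {z : ℂ} (hz : z ∈ closedBall (0 : ℂ) 1) :
    ContDiffAt ℝ ∞ φ z := by
  obtain ⟨W, hW, hsub, hs⟩ := h.smooth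
  exact hs.contDiffAt (hW.mem_nhds (hsub hz))

theorem SliceDisc.nonneg {φ : ℂ → R4} (h : SliceDisc φ) {z : ℂ}
    (hz : z ∈ closedBall (0 : ℂ) 1) : 0 ≤ φ z 3 := by
  by_cases h1 : z ∈ ball (0 : ℂ) 1
  · exact (h.inside z h1).le
  · rw [h.bdry z (by
      rw [mem_closedBall_zero_iff] at hz
      rw [mem_ball_zero_iff, not_lt] at h1
      rw [mem_sphere_zero_iff_norm]
      exact le_antisymm hz h1)]

/-- a function with nonnegative vertical derivative is monotone in the vertical direction -/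
theorem mono_vert {G : R4 → ℝ} (hG : ContDiff ℝ ∞ G) (hv : ∀ x, 0 ≤ fderiv ℝ G x vert)
    (x : R4) {t : ℝ} (ht : 0 ≤ t) : G x ≤ G (x + t • vert) := by
  have h2 : ∀ s : ℝ, HasDerivAt (fun t : ℝ => x + t • vert) vert s := fun s => by
    simpa using ((hasDerivAt_id s).smul_const vert).const_add x
  have h3 : ∀ s : ℝ, HasDerivAt (fun t : ℝ => G (x + t • vert))
      (fderiv ℝ G (x + s • vert) vert) s := fun s =>
    ((hG.differentiable (by simp)) _).hasFDerivAt.comp_hasDerivAt s (h2 s)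
  have h4 : Monotone (fun t : ℝ => G (x + t • vert)) := by
    apply monotone_of_deriv_nonneg (fun s => (h3 s).differentiableAt)
    intro s
    rw [(h3 s).deriv]
    exact hv _
  have := h4 ht
  simpa using this

theorem fd_G {φ : ℂ → R4} {G : R4 → ℝ} (hG : ContDiff ℝ ∞ G) {z : ℂ}
    (h : DifferentiableAt ℝ φ z) (v : ℂ) :
    fderiv ℝ (fun w => G (φ w)) z v = fderiv ℝ G (φ z) (fderiv ℝ φ z v) := by
  have h1 : HasFDerivAt (fun w => G (φ w)) ((fderiv ℝ G (φ z)).comp (fderiv ℝ φ z)) z :=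
    ((hG.differentiable (by simp)) (φ z)).hasFDerivAt.comp z h.hasFDerivAt
  rw [h1.fderiv]
  rfl

/-- the disc with the new height -/
noncomputable def newD (φ : ℂ → R4) (G : R4 → ℝ) (R T ε : ℝ) : ℂ → R4 := fun w =>
  φ w + (newF (fun w => φ w 3) (fun w => G (φ w)) R T ε w - φ w 3) • vert

theorem newD_three (φ : ℂ → R4) (G : R4 → ℝ) (R T ε : ℝ) (w : ℂ) :
    newD φ G R T ε w 3 = newF (fun w => φ w 3) (fun w => G (φ w)) R T ε w := by
  unfold newD
  rw [PiLp.add_apply, PiLp.smul_apply, vert_three]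
  simp

theorem exp_lt {ε s t : ℝ} (hε : 0 < ε) (hst : s < t) :
    Real.exp (-(t / ε)) < Real.exp (-(s / ε)) := by
  have h1 : s / ε < t / ε := div_lt_div_of_pos_right hst hε
  exact Real.exp_lt_exp.2 (by linarith)

theorem exp_le_one {ε s : ℝ} (hε : 0 < ε) (hs : 0 ≤ s) : Real.exp (-(s / ε)) ≤ 1 := by
  rw [← Real.exp_zero]
  have : 0 ≤ s / ε := div_nonneg hs hε.le
  exact Real.exp_le_exp.2 (by linarith)

/-- the height increases in the vertical direction -/
theorem lt_of_above {φ : ℂ → R4} (h : SliceDisc φ) {G : R4 → ℝ} (hG : ContDiff ℝ ∞ G)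
    (hv : ∀ x, 0 ≤ fderiv ℝ G x vert) {R T ε : ℝ} (hR : 0 ≤ R) (hε : 0 < ε)
    (hpos : ∀ z ∈ closedBall (0 : ℂ) 1, 0 < R * G (φ z) + T) {a b : ℂ}
    (ha : a ∈ closedBall (0 : ℂ) 1) (hb : b ∈ closedBall (0 : ℂ) 1) {c : ℝ} (hc : 0 < c)
    (hab : φ b = φ a + c • vert) :
    newF (fun w => φ w 3) (fun w => G (φ w)) R T ε a <
      newF (fun w => φ w 3) (fun w => G (φ w)) R T ε b := by
  have h3 : φ b 3 = φ a 3 + c := by
    rw [hab, PiLp.add_apply, PiLp.smul_apply, vert_three]
    simp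
  have hG' : G (φ a) ≤ G (φ b) := by
    rw [hab]
    exact mono_vert hG hv _ hc.le
  unfold newF
  beta_reduce
  have e1 : Real.exp (-(φ b 3 / ε)) < Real.exp (-(φ a 3 / ε)) := exp_lt hε (by linarith)
  have e2 : Real.exp (-(φ b 3 / ε)) ≤ 1 := exp_le_one hε (h.nonneg hb)
  have e3 := hpos a ha
  have e4 : R * G (φ a) ≤ R * G (φ b) := mul_le_mul_of_nonneg_left hG' hR
  have e5 : (R * G (φ a) + T) * (1 - Real.exp (-(φ a 3 / ε))) ≤
      (R * G (φ a) + T) * (1 - Real.exp (-(φ b 3 / ε))) :=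
    mul_le_mul_of_nonneg_left (by linarith) e3.le
  have e6 : (R * G (φ a) + T) * (1 - Real.exp (-(φ b 3 / ε))) ≤
      (R * G (φ b) + T) * (1 - Real.exp (-(φ b 3 / ε))) :=
    mul_le_mul_of_nonneg_right (by linarith) (by linarith)
  linarith

theorem disc {φ : ℂ → R4} (h : SliceDisc φ) {G : R4 → ℝ} (hG : ContDiff ℝ ∞ G)
    (hv : ∀ x, 0 ≤ fderiv ℝ G x vert) {R T ε : ℝ} (hR : 0 ≤ R) (hε : 0 < ε)
    (hpos : ∀ z ∈ closedBall (0 : ℂ) 1, 0 < R * G (φ z) + T) : SliceDisc (newD φ G R T ε) := by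
  obtain ⟨hf, hhf⟩ : ∃ hf : ℂ → ℝ, hf = fun w => φ w 3 := ⟨_, rfl⟩
  obtain ⟨L, hLdef⟩ : ∃ L : ℂ → ℝ, L = fun w => G (φ w) := ⟨_, rfl⟩
  have h3 : (fun w => newD φ G R T ε w 3) = newF hf L R T ε := by
    funext w
    rw [newD_three, hhf, hLdef]
  have sh : ∀ z ∈ closedBall (0 : ℂ) 1, ContDiffAt ℝ ∞ hf z := fun z hz => by
    rw [hhf]
    exact (coord_contDiff 3).contDiffAt.comp z (h.at hz)
  have sL : ∀ z ∈ closedBall (0 : ℂ) 1, ContDiffAt ℝ ∞ L z := fun z hz => by
    rw [hLdef]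
    exact hG.contDiffAt.comp z (h.at hz)
  have hApos : ∀ z ∈ closedBall (0 : ℂ) 1, 0 < cA hf L R T ε z := fun z hz => by
    unfold cA
    have := hpos z hz
    rw [hLdef]
    positivity
  have hgnn : ∀ z ∈ closedBall (0 : ℂ) 1, 0 ≤ cg hf ε z := fun z hz => by
    unfold cg
    rw [hhf]
    have := exp_le_one hε (h.nonneg hz)
    simp only
    linarith
  refine ⟨?_, ?_, ?_, ?_, ?_, ?_⟩
  · obtain ⟨W, hW, hsub, hs⟩ := h.smooth
    refine ⟨W, hW, hsub, fun z hz => ContDiffAt.contDiffWithinAt ?_⟩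
    have hz' := hs.contDiffAt (hW.mem_nhds hz)
    have e1 : ContDiffAt ℝ ∞ (fun w => φ w 3) z := (coord_contDiff 3).contDiffAt.comp z hz'
    have e2 : ContDiffAt ℝ ∞ (fun w => G (φ w)) z := hG.contDiffAt.comp z hz'
    unfold newD
    exact hz'.add (((contDiffAt_newF e1 e2 R T ε).sub e1).smul contDiffAt_const)
  · intro a ha b hb hab
    have e3 : newF hf L R T ε a = newF hf L R T ε b := by
      rw [← h3]
      simp only
      rw [hab]
    have e1 : φ a = φ b + (hf a - hf b) • vert := by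
      have : φ a + (newF hf L R T ε a - hf a) • vert = φ b + (newF hf L R T ε b - hf b) • vert := by
        rw [hhf, hLdef]
        exact hab
      rw [e3] at this
      have e7 : (hf a - hf b) • vert = (newF hf L R T ε b - hf b) • vert -
          (newF hf L R T ε b - hf a) • vert := by
        rw [← sub_smul]
        congr 1
        ring
      rw [e7, ← add_sub_assoc, ← this]
      abel
    rcases lt_trichotomy (hf a) (hf b) with hlt | heq | hgt
    · exfalso
      have e4 : φ b = φ a + (hf b - hf a) • vert := by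
        rw [e1, add_assoc, ← add_smul]
        simp
      have := lt_of_above h hG hv hR hε hpos ha hb (by linarith : 0 < hf b - hf a) e4
      rw [hhf, hLdef] at e3
      exact absurd e3 this.ne
    · apply h.inj ha hb
      rw [e1, heq]
      simp
    · exfalso
      have := lt_of_above h hG hv hR hε hpos hb ha (by linarith : 0 < hf a - hf b) e1
      rw [hhf, hLdef] at e3
      exact absurd e3 this.ne'
  · intro z hz
    have d0 := diffAt (h.at hz)
    have dF := hasFD_newF (diffAt (sh z hz)) (diffAt (sL z hz)) R T ε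
    have dN : HasFDerivAt (newD φ G R T ε) (fderiv ℝ φ z +
        (fderiv ℝ (newF hf L R T ε) z - fderiv ℝ hf z).smulRight vert) z := by
      have : newD φ G R T ε = fun w => φ w + (newF hf L R T ε w - hf w) • vert := by
        rw [hhf, hLdef]
        rfl
      rw [this]
      exact d0.hasFDerivAt.add (((dF.differentiableAt.hasFDerivAt).sub
        (diffAt (sh z hz)).hasFDerivAt).smul_const vert)
    rw [dN.fderiv]
    rw [injective_iff_map_eq_zero]
    intro v hv0
    have e0 : fderiv ℝ φ z v + (fderiv ℝ (newF hf L R T ε) z v - fderiv ℝ hf z v) • vert = 0 := hv0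
    have e1 : fderiv ℝ φ z v = (fderiv ℝ hf z v - fderiv ℝ (newF hf L R T ε) z v) • vert := by
      rw [eq_neg_of_add_eq_zero_left e0, ← neg_smul]
      congr 1
      ring
    have e3 : fderiv ℝ hf z v = fderiv ℝ hf z v - fderiv ℝ (newF hf L R T ε) z v := by
      have : fderiv ℝ hf z v = fderiv ℝ φ z v 3 := by rw [hhf, coord_fd' d0]
      have e6 : fderiv ℝ φ z v 3 = fderiv ℝ hf z v - fderiv ℝ (newF hf L R T ε) z v := by
        rw [e1, PiLp.smul_apply, vert_three, smul_eq_mul, mul_one]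
      rw [← e6, ← this]
    have e4 : fderiv ℝ (newF hf L R T ε) z v = 0 := by linarith
    have e2 : fderiv ℝ L z v = fderiv ℝ hf z v * fderiv ℝ G (φ z) vert := by
      rw [hLdef, fd_G hG d0, e1, map_smul, ← e3, smul_eq_mul]
    rw [fd_newF (diffAt (sh z hz)) (diffAt (sL z hz)), e2] at e4
    have e7 : fderiv ℝ hf z v * (1 + cA hf L R T ε z +
        cg hf ε z * R * fderiv ℝ G (φ z) vert) = 0 := by linear_combination e4
    have e5 : fderiv ℝ hf z v = 0 := by
      rcases mul_eq_zero.1 e7 with h6 | h6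
      · exact h6
      · exfalso
        have h7 := hApos z hz
        have h8 : 0 ≤ cg hf ε z * R * fderiv ℝ G (φ z) vert :=
          mul_nonneg (mul_nonneg (hgnn z hz) hR) (hv _)
        linarith
    apply (injective_iff_map_eq_zero _).1 (h.imm z hz)
    rw [e1, ← e3, e5, zero_smul]
  · intro z hz
    rw [newD_three]
    unfold newF
    have h1 := hpos z (ball_subset_closedBall hz)
    have h2 := h.inside z hz
    have h4 : Real.exp (-(φ z 3 / ε)) < 1 := by
      rw [← Real.exp_zero]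
      have : 0 < φ z 3 / ε := div_pos h2 hε
      exact Real.exp_lt_exp.2 (by linarith)
    have := mul_pos h1 (by linarith : 0 < 1 - Real.exp (-(φ z 3 / ε)))
    simp only
    linarith
  · intro z hz
    rw [newD_three]
    unfold newF
    simp [h.bdry z hz]
  · intro z hz
    rw [h3]
    have hzc := sphere_subset_closedBall hz
    intro h0
    apply h.transv z hz
    ext v
    have e1 := fd_newF (diffAt (sh z hzc)) (diffAt (sL z hzc)) R T ε v
    rw [h0] at e1
    have e2 : cg hf ε z = 0 := by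
      unfold cg
      rw [hhf]
      simp [h.bdry z hz]
    rw [e2, zero_mul, zero_mul, add_zero] at e1
    have e3 : (1 + cA hf L R T ε z) * fderiv ℝ hf z v = 0 := e1.symm
    rcases mul_eq_zero.1 e3 with h6 | h6
    · have := hApos z hzc
      linarith
    · rw [hhf] at h6
      exact h6

end Run7.h421.RP
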