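import Mathlib
import Pool.Agent.Run7.h421.RPg

/-!
Slice discs and their projections: the auxiliary surface, Sard's lemma, first main theorem.
-/

set_option autoImplicit false

namespace Run7.h421.RP

open scoped ContDiff RealInnerProductSpace Topology
open Set Metric Filter MeasureTheory
open Pool.Agent.N503.ML (vert vert_three inner_vert norm_vert IPatch kdet)
open Pool.Agent.Y503.RB (d1 sff)

theorem hasFD_cg {h : ℂ → ℝ} {w : ℂ} (hh : DifferentiableAt ℝ h w) (ε : ℝ) :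
    HasFDerivAt (cg h ε) ((Real.exp (-(h w / ε)) / ε) • fderiv ℝ h w) w := by
  have h1 := hh.hasFDerivAt
  have h4 : HasFDerivAt (fun w => -(h w / ε)) (-((ε⁻¹) • fderiv ℝ h w)) w := by
    have e : (fun w => -(h w / ε)) = -fun y => h y * ε⁻¹ := by
      funext y
      simp [div_eq_mul_inv]
    rw [e]
    exact (h1.mul_const ε⁻¹).neg
  have h5 := h4.exp.const_sub 1
  refine h5.congr_fderiv ?_
  ext v
  simp only [ContinuousLinearMap.smul_apply, ContinuousLinearMap.neg_apply, smul_eq_mul]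
  ring

/-- the auxiliary surface -/
noncomputable def Psi (φ : ℂ → R4) (G : R4 → ℝ) (R T ε : ℝ) : ℂ → R4 := fun w =>
  cg (fun w => φ w 3) ε w • φ w + (newF (fun w => φ w 3) (fun w => G (φ w)) R T ε w -
    cg (fun w => φ w 3) ε w * φ w 3) • vert

theorem Psi_smooth {φ : ℂ → R4} {G : R4 → ℝ} (hG : ContDiff ℝ ∞ G) (R T ε : ℝ) {z : ℂ}
    (h : ContDiffAt ℝ ∞ φ z) : ContDiffAt ℝ ∞ (Psi φ G R T ε) z := by
  have e1 : ContDiffAt ℝ ∞ (fun w => φ w 3) z := (coord_contDiff 3).contDiffAt.comp z h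
  have e2 : ContDiffAt ℝ ∞ (fun w => G (φ w)) z := hG.contDiffAt.comp z h
  have e3 : ContDiffAt ℝ ∞ (cg (fun w => φ w 3) ε) z := by
    unfold cg
    exact contDiffAt_const.sub (e1.div_const ε).neg.exp
  unfold Psi
  exact (e3.smul h).add (((contDiffAt_newF e1 e2 R T ε).sub (e3.mul e1)).smul contDiffAt_const)

theorem Psi_inner {φ : ℂ → R4} {G : R4 → ℝ} {R T ε : ℝ} (hR : 0 < R) {x : R4} (hx : x 3 = 1)
    (w : ℂ) : ⟪x, Psi φ G R T ε w⟫ =
      newF (fun w => φ w 3) (fun w => G (φ w) + ⟪R⁻¹ • (x - vert), φ w⟫) R T ε w := by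
  unfold Psi newF cg
  beta_reduce
  rw [inner_add_right, real_inner_smul_right, real_inner_smul_right, real_inner_comm vert x,
    inner_vert, hx, real_inner_smul_left, inner_sub_left, inner_vert]
  field_simp
  ring

theorem Psi_imm {φ : ℂ → R4} {G : R4 → ℝ} (hG : ContDiff ℝ ∞ G)
    (hv : ∀ x, 0 ≤ fderiv ℝ G x vert) {R T ε : ℝ} (hR : 0 ≤ R) (hε : 0 < ε) {z : ℂ}
    (h : ContDiffAt ℝ ∞ φ z) (hi : Function.Injective (fderiv ℝ φ z)) (h0 : 0 < φ z 3)
    (hN : R * (fderiv ℝ G (φ z) (φ z) - φ z 3 * fderiv ℝ G (φ z) vert - G (φ z)) ≤ T) :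
    Function.Injective (fderiv ℝ (Psi φ G R T ε) z) := by
  obtain ⟨hf, hhf⟩ : ∃ hf : ℂ → ℝ, hf = fun w => φ w 3 := ⟨_, rfl⟩
  obtain ⟨L, hLdef⟩ : ∃ L : ℂ → ℝ, L = fun w => G (φ w) := ⟨_, rfl⟩
  have e1 : ContDiffAt ℝ ∞ hf z := by
    rw [hhf]
    exact (coord_contDiff 3).contDiffAt.comp z h
  have e2 : ContDiffAt ℝ ∞ L z := by
    rw [hLdef]
    exact hG.contDiffAt.comp z h
  have d0 := diffAt h
  have d1 := diffAt e1
  have dF := (hasFD_newF d1 (diffAt e2) R T ε).differentiableAt.hasFDerivAt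
  have dg := hasFD_cg d1 ε
  have hP : Psi φ G R T ε = fun w => cg hf ε w • φ w + (newF hf L R T ε w -
      cg hf ε w * hf w) • vert := by
    rw [hhf, hLdef]
    rfl
  have dP : HasFDerivAt (Psi φ G R T ε)
      ((cg hf ε z • fderiv ℝ φ z +
        ((Real.exp (-(hf z / ε)) / ε) • fderiv ℝ hf z).smulRight (φ z)) +
       ((fderiv ℝ (newF hf L R T ε) z - (cg hf ε z • fderiv ℝ hf z +
        hf z • ((Real.exp (-(hf z / ε)) / ε) • fderiv ℝ hf z))).smulRight vert)) z := by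
    rw [hP]
    exact (dg.smul d0.hasFDerivAt).add ((dF.sub (dg.mul d1.hasFDerivAt)).smul_const vert)
  rw [dP.fderiv, injective_iff_map_eq_zero]
  intro v hv0
  obtain ⟨E, hE⟩ : ∃ E, E = Real.exp (-(hf z / ε)) / ε := ⟨_, rfl⟩
  obtain ⟨g, hg⟩ : ∃ g, g = cg hf ε z := ⟨_, rfl⟩
  have e0 : g • fderiv ℝ φ z v + (E * fderiv ℝ hf z v) • φ z +
      (fderiv ℝ (newF hf L R T ε) z v - (g * fderiv ℝ hf z v + hf z * (E * fderiv ℝ hf z v))) •
        vert = 0 := by
    rw [hg, hE]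
    exact hv0
  have hz3 : φ z 3 = hf z := by rw [hhf]
  have hd3 : fderiv ℝ φ z v 3 = fderiv ℝ hf z v := by rw [hhf, coord_fd' d0]
  -- the height
  have e3 : fderiv ℝ (newF hf L R T ε) z v = 0 := by
    have := congrArg (fun x : R4 => x 3) e0
    simp only [PiLp.add_apply, PiLp.smul_apply, vert_three, smul_eq_mul, hz3, hd3,
      PiLp.zero_apply] at this
    linarith
  -- apply the derivative of `G`
  have e4 : g * fderiv ℝ L z v + (E * fderiv ℝ hf z v) * fderiv ℝ G (φ z) (φ z) -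
      (g * fderiv ℝ hf z v + hf z * (E * fderiv ℝ hf z v)) * fderiv ℝ G (φ z) vert = 0 := by
    have := congrArg (fun x : R4 => fderiv ℝ G (φ z) x) e0
    simp only [map_add, map_smul, smul_eq_mul, map_zero, e3] at this
    rw [hLdef, fd_G hG d0]
    linarith
  have e5 := fd_newF d1 (diffAt e2) R T ε v
  rw [e3] at e5
  have hLz : L z = G (φ z) := by rw [hLdef]
  have e6 : fderiv ℝ hf z v * (1 + E * (R * L z + T - R * fderiv ℝ G (φ z) (φ z) +
      R * (hf z * fderiv ℝ G (φ z) vert)) + R * g * fderiv ℝ G (φ z) vert) = 0 := by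
    unfold cA at e5
    rw [← hE, ← hg] at e5
    linear_combination (-1 : ℝ) * e5 - R * e4
  have hEpos : 0 < E := by rw [hE]; positivity
  have hgpos : 0 < g := by
    rw [hg]
    unfold cg
    have h1 : 0 < hf z / ε := div_pos (by rw [← hz3]; exact h0) hε
    have h2 : Real.exp (-(hf z / ε)) < 1 := by
      rw [← Real.exp_zero]
      exact Real.exp_lt_exp.2 (by linarith)
    linarith
  have e7 : 0 < 1 + E * (R * L z + T - R * fderiv ℝ G (φ z) (φ z) +
      R * (hf z * fderiv ℝ G (φ z) vert)) + R * g * fderiv ℝ G (φ z) vert := by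
    have h1 : 0 ≤ R * L z + T - R * fderiv ℝ G (φ z) (φ z) +
        R * (hf z * fderiv ℝ G (φ z) vert) := by
      rw [hLz, ← hz3]
      nlinarith
    have h2 : 0 ≤ R * g * fderiv ℝ G (φ z) vert :=
      mul_nonneg (mul_nonneg hR hgpos.le) (hv _)
    positivity
  have e8 : fderiv ℝ hf z v = 0 := (mul_eq_zero.1 e6).resolve_right e7.ne'
  rw [e3, e8] at e0
  simp only [mul_zero, zero_smul, add_zero, sub_zero] at e0
  apply (injective_iff_map_eq_zero _).1 hi
  exact (smul_eq_zero.1 e0).resolve_left hgpos.ne'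

/-- a point near the vertical vector for which all critical points are nondegenerate -/
theorem sard_near {Ψ : ℂ → R4} (hP : IPatch Ψ (ball 0 1)) {Q : R4 → Prop}
    (hQ : ∀ᶠ x in 𝓝 vert, Q x) : ∃ x : R4, x 3 = 1 ∧ Q x ∧
      ∀ z ∈ ball (0 : ℂ) 1, (∀ v : ℂ, ⟪x, fderiv ℝ Ψ z v⟫ = 0) →
        ∀ u, (∀ v, ⟪x, fderiv ℝ (fderiv ℝ Ψ) z u v⟫ = 0) → u = 0 := by
  obtain ⟨Z, hZ, hZ'⟩ := Pool.Agent.N503.ML.sard hP
  have hc : ContinuousAt (fun y : R4 => y 3) vert := (coord_contDiff 3).continuous.continuousAt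
  have h1 : ContinuousAt (fun y : R4 => (y 3)⁻¹ • y) vert :=
    (hc.inv₀ (by rw [vert_three]; norm_num)).smul continuousAt_id
  have h2 : Tendsto (fun y : R4 => (y 3)⁻¹ • y) (𝓝 vert) (𝓝 vert) := by
    have : (vert 3)⁻¹ • vert = vert := by rw [vert_three, inv_one, one_smul]
    have h3 := h1.tendsto
    rwa [this] at h3
  have h3 : ∀ᶠ y : R4 in 𝓝 vert, 0 < y 3 :=
    hc.eventually (lt_mem_nhds (by
      show (0 : ℝ) < vert 3
      rw [vert_three]; norm_num))
  have h4 : Dense Zᶜ := by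
    have h5 : ∀ᵐ x : R4, x ∈ Zᶜ := by
      rw [ae_iff]
      simpa using hZ
    exact Measure.dense_of_ae h5
  obtain ⟨y, hyZ, hy1, hy2⟩ := h4.inter_nhds_nonempty ((h2.eventually hQ).and h3)
  have hy0 : y ≠ 0 := by
    rintro rfl
    simp at hy2
  refine ⟨(y 3)⁻¹ • y, ?_, hy1, ?_⟩
  · rw [PiLp.smul_apply, smul_eq_mul, inv_mul_cancel₀ hy2.ne']
  · intro z hz hcr u hu
    have hi : 0 < (y 3)⁻¹ := by positivity
    have hs : ContDiffAt ℝ ∞ Ψ z := hP.smooth.contDiffAt (isOpen_ball.mem_nhds hz)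
    have k1 : ∀ v : ℂ, ⟪y, d1 Ψ v z⟫ = 0 := by
      intro v
      have := hcr v
      rw [real_inner_smul_left] at this
      exact (mul_eq_zero.1 this).resolve_left hi.ne'
    refine Pool.Agent.N503.ML.nondegE hs (hZ' y hyZ hy0 z hz k1) (u := u) fun v => ?_
    have := hu v
    rw [real_inner_smul_left] at this
    unfold sff
    rw [Pool.Agent.N503.ML.d2_eq hs]
    exact (mul_eq_zero.1 this).resolve_left hi.ne'

end Run7.h421.RP
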