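import Mathlib
import Pool.Agent.Run7.h421.RPh

/-!
Slice discs and their projections: first main theorem.
-/

set_option autoImplicit false

namespace Run7.h421.RP

open scoped ContDiff RealInnerProductSpace Topology
open Set Metric Filter MeasureTheory
open Pool.Agent.N503.ML (vert vert_three inner_vert norm_vert IPatch kdet)

theorem main1 {φ : ℂ → R4} (hφ : SliceDisc φ) {G : R4 → ℝ} (hG : ContDiff ℝ ∞ G)
    (hv : ∀ x, 0 ≤ fderiv ℝ G x vert) (hg : Good (fun w => G (φ w))) :
    ∃ f : ℂ → ℝ, Push φ vert f ∧ MorseHt (fun z => φ z + f z • vert) ∧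
      (minima (fun z => φ z + f z • vert)).encard ≤ (cups (fun w => G (φ w))).encard := by
  obtain ⟨W, hW, hsub, hs⟩ := hφ.smooth
  have hh : ContDiffOn ℝ ∞ (fun w => φ w 3) W := (coord_contDiff 3).comp_contDiffOn hs
  have hL : ContDiffOn ℝ ∞ (fun w => G (φ w)) W := hG.comp_contDiffOn hs
  obtain ⟨κ, hκ, S, hS, hc⟩ := covering hW hsub hL hg
  obtain ⟨N, hN⟩ := (isCompact_closedBall (0 : ℂ) 1).exists_bound_of_continuousOn
    (f := fun z => fderiv ℝ G (φ z) (φ z) - φ z 3 * fderiv ℝ G (φ z) vert - G (φ z)) (by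
      have c0 : ContinuousOn φ (closedBall (0 : ℂ) 1) := hs.continuousOn.mono hsub
      have c1 : Continuous (fderiv ℝ G) := hG.continuous_fderiv (by simp)
      exact (((c1.comp_continuousOn c0).clm_apply c0).sub
        (((coord_contDiff 3).continuous.comp_continuousOn c0).mul
          ((c1.comp_continuousOn c0).clm_apply continuousOn_const))).sub
        (hG.continuous.comp_continuousOn c0))
  obtain ⟨R, T, ε, hR, hε, hRL, hRN, hcr, hcv⟩ :=
    step1 hW hsub hh hL hφ.inside hφ.bdry hφ.transv hκ hS hc N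
  have hΨs : ∀ z ∈ closedBall (0 : ℂ) 1, ContDiffAt ℝ ∞ (Psi φ G R T ε) z := fun z hz =>
    Psi_smooth hG R T ε (hφ.at hz)
  have hΨv : (fun w => ⟪vert, Psi φ G R T ε w⟫) =
      newF (fun w => φ w 3) (fun w => G (φ w)) R T ε := by
    funext w
    rw [Psi_inner hR vert_three]
    simp
  have hP : IPatch (Psi φ G R T ε) (ball 0 1) := by
    refine ⟨isOpen_ball, fun z hz => (hΨs z (ball_subset_closedBall hz)).contDiffWithinAt,
      fun z hz => Psi_imm hG hv hR.le hε (hφ.at (ball_subset_closedBall hz))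
        (hφ.imm z (ball_subset_closedBall hz)) (hφ.inside z hz) ?_⟩
    have h1 := hN z (ball_subset_closedBall hz)
    rw [Real.norm_eq_abs] at h1
    have h2 := (le_abs_self _).trans h1
    exact (mul_le_mul_of_nonneg_left h2 hR.le).trans hRN
  have hcase : Cases (Psi φ G R T ε) S vert := by
    intro z hz
    by_cases h0 : ∃ v, ⟪vert, fderiv ℝ (Psi φ G R T ε) z v⟫ ≠ 0
    · exact Or.inl h0
    · push Not at h0
      right
      have h1 : fderiv ℝ (newF (fun w => φ w 3) (fun w => G (φ w)) R T ε) z = 0 := by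
        rw [← hΨv]
        ext v
        rw [(hess0 (hΨs z hz) vert).1 v, h0 v]
        rfl
      obtain ⟨h2, ⟨v, hv'⟩ | h3⟩ := hcr z hz h1
      · left
        refine ⟨h2, v, ?_⟩
        rw [← hΨv, q2_inner (hΨs z hz)] at hv'
        exact hv'
      · exact Or.inr h3
  have hconv : Conv (Psi φ G R T ε) S vert := by
    intro p hp z hz v hv0
    have h1 := hcv p hp z hz v hv0
    rw [← hΨv, q2_inner (hΨs z (ball_subset_closedBall ((hS p hp).sub hz)))] at h1
    exact h1
  have hev3 : ∀ᶠ x in 𝓝 vert, ∀ z ∈ closedBall (0 : ℂ) 1,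
      0 < R * G (φ z) + T + ⟪x - vert, φ z⟫ := by
    refine (isCompact_closedBall (0 : ℂ) 1).eventually_forall_of_forall_eventually ?_
    intro z hz
    have c0 : ContinuousAt φ z := (hφ.at hz).continuousAt
    have t1 : Tendsto (fun q : R4 × ℂ => q.1) (𝓝 (vert, z)) (𝓝 vert) := continuous_fst.tendsto _
    have t2 : Tendsto (fun q : R4 × ℂ => φ q.2) (𝓝 (vert, z)) (𝓝 (φ z)) :=
      c0.tendsto.comp (continuous_snd.tendsto _)
    have t3 : Tendsto (fun q : R4 × ℂ => G (φ q.2)) (𝓝 (vert, z)) (𝓝 (G (φ z))) :=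
      (hG.continuous.tendsto _).comp t2
    have t4 := ((t3.const_mul R).add_const T).add
      (((t1.sub_const vert)).inner t2 (𝕜 := ℝ))
    refine t4.eventually (lt_mem_nhds ?_)
    have := hRL z hz
    rw [sub_self, inner_zero_left, add_zero]
    linarith
  obtain ⟨x, hx3, ⟨hx1, hx2, hx4⟩, hsard⟩ := sard_near hP
    ((ev_cases hΨs hcase).and ((ev_conv hΨs (fun p hp => (hS p hp).sub) hconv).and hev3))
  obtain ⟨q, hq⟩ : ∃ q : R4, q = R⁻¹ • (x - vert) := ⟨_, rfl⟩
  have hq3 : q 3 = 0 := by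
    rw [hq, PiLp.smul_apply, PiLp.sub_apply, hx3, vert_three, sub_self, smul_zero]
  have hGq : ContDiff ℝ ∞ (fun y => G y + ⟪q, y⟫) :=
    hG.add (contDiff_const.inner ℝ contDiff_id)
  have hvq : ∀ y, 0 ≤ fderiv ℝ (fun y => G y + ⟪q, y⟫) y vert := by
    intro y
    have h1 : HasFDerivAt (fun y => G y + ⟪q, y⟫) (fderiv ℝ G y + innerSL ℝ q) y :=
      ((hG.differentiable (by simp)) y).hasFDerivAt.add (innerSL ℝ q).hasFDerivAt
    rw [h1.fderiv]
    have h2 : (fderiv ℝ G y + innerSL ℝ q) vert = fderiv ℝ G y vert + ⟪q, vert⟫ := rfl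
    rw [h2, real_inner_comm vert q, inner_vert, hq3, add_zero]
    exact hv y
  have hpos : ∀ z ∈ closedBall (0 : ℂ) 1, 0 < R * (fun y => G y + ⟪q, y⟫) (φ z) + T := by
    intro z hz
    have h1 := hx4 z hz
    simp only
    rw [hq, real_inner_smul_left]
    have : R * (G (φ z) + R⁻¹ * ⟪x - vert, φ z⟫) + T = R * G (φ z) + T + ⟪x - vert, φ z⟫ := by
      field_simp
      ring
    rw [this]
    exact h1
  have hht : (fun w => newD φ (fun y => G y + ⟪q, y⟫) R T ε w 3) =
      fun w => ⟪x, Psi φ G R T ε w⟫ := by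
    funext w
    rw [newD_three, Psi_inner hR hx3, hq]
  obtain ⟨f, hf⟩ : ∃ f : ℂ → ℝ, f = fun z =>
    newF (fun w => φ w 3) (fun w => G (φ w) + ⟪q, φ w⟫) R T ε z - φ z 3 := ⟨_, rfl⟩
  have hnd : (fun z => φ z + f z • vert) = newD φ (fun y => G y + ⟪q, y⟫) R T ε := by
    rw [hf]
    rfl
  have hpush : Push φ vert f := by
    refine ⟨⟨W, hW, hsub, hs, fun z hz => ContDiffAt.contDiffWithinAt ?_⟩, ?_, ?_⟩
    · have hz' := hs.contDiffAt (hW.mem_nhds hz)
      have e1 : ContDiffAt ℝ ∞ (fun w => φ w 3) z := (coord_contDiff 3).contDiffAt.comp z hz'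
      have e2 : ContDiffAt ℝ ∞ (fun w => G (φ w) + ⟪q, φ w⟫) z := hGq.contDiffAt.comp z hz'
      rw [hf]
      exact (contDiffAt_newF e1 e2 R T ε).sub e1
    · intro t ht
      rcases eq_or_lt_of_le ht.1 with h0 | h0
      · rw [← h0]
        simpa using hφ
      · have h1 : (fun z => φ z + (t * f z) • vert) =
            newD φ (fun y => G y + ⟪q, y⟫) (t * R) (t * T) ε := by
          funext z
          unfold newD newF
          rw [hf]
          unfold newF
          beta_reduce
          congr 2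
          ring
        rw [h1]
        refine disc hφ hGq hvq (by positivity) hε fun z hz => ?_
        have h2 := mul_pos h0 (hpos z hz)
        beta_reduce at h2 ⊢
        linarith
    · intro z hz
      rw [hf]
      unfold newF
      simp [hφ.bdry z hz]
  refine ⟨f, hpush, ?_, ?_⟩
  · intro z hz hcz u hu
    rw [hnd, hht] at hcz hu
    have hzc := ball_subset_closedBall hz
    refine hsard z hz (fun v => ?_) u (fun v => ?_)
    · rw [← (hess0 (hΨs z hzc) x).1 v, hcz]
      rfl
    · rw [← (hess0 (hΨs z hzc) x).2 u v]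
      exact hu v
  · unfold minima
    rw [hnd, hht]
    refine count hS (fun z hz => ?_) (fun p hp z hz v hv0 => ?_) (fun z hz hcz => ?_)
    · exact contDiffAt_const.inner ℝ (hΨs z (ball_subset_closedBall hz))
    · rw [q2_inner (hΨs z (ball_subset_closedBall ((hS p hp).sub hz)))]
      exact hx2 p hp z hz v hv0
    · have hzc := ball_subset_closedBall hz
      rcases hx1 z hzc with ⟨v, hv'⟩ | ⟨-, v, hv'⟩ | h
      · exfalso
        apply hv'
        rw [← (hess0 (hΨs z hzc) x).1 v, hcz]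
        rfl
      · left
        exact ⟨v, by rw [q2_inner (hΨs z hzc)]; exact hv'⟩
      · exact Or.inr h

end Run7.h421.RP
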