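import Mathlib
import Pool.Agent.Run7.h421.RPi

/-!
Slice discs and their projections: arbitrary directions, isotopies.
-/

set_option autoImplicit false

namespace Run7.h421.RP

open scoped ContDiff RealInnerProductSpace Topology
open Set Metric Filter MeasureTheory
open Pool.Agent.N503.ML (vert vert_three inner_vert norm_vert IPatch kdet)

theorem three_add_smul (a : R4) {s : R4} (hs : s 3 = 0) (c : ℝ) : (a + c • s) 3 = a 3 := by
  rw [PiLp.add_apply, PiLp.smul_apply, hs]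
  simp

/-- the image of a slice disc under a shear -/
theorem shear {φ : ℂ → R4} (h : SliceDisc φ) {s : R4} (hs : s 3 = 0) :
    SliceDisc (fun z => φ z + φ z 3 • s) := by
  have h3 : (fun z => (φ z + φ z 3 • s) 3) = fun z => φ z 3 := by
    funext z
    rw [PiLp.add_apply, PiLp.smul_apply, hs]
    simp
  refine ⟨?_, ?_, ?_, ?_, ?_, ?_⟩
  · obtain ⟨W, hW, hsub, hsm⟩ := h.smooth
    exact ⟨W, hW, hsub, hsm.add (((coord_contDiff 3).comp_contDiffOn hsm).smul contDiffOn_const)⟩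
  · intro a ha b hb hab
    have e1 : φ a 3 = φ b 3 := by
      have := congrFun h3 a
      have h4 := congrFun h3 b
      simp only at this h4 hab
      rw [← this, ← h4, hab]
    apply h.inj ha hb
    simp only at hab
    rw [e1] at hab
    exact add_right_cancel hab
  · intro z hz
    have d0 := diffAt (h.at hz)
    have d3 := coord_fd d0 3
    have dN : HasFDerivAt (fun z => φ z + φ z 3 • s) (fderiv ℝ φ z +
        ((EuclideanSpace.proj 3 : R4 →L[ℝ] ℝ).comp (fderiv ℝ φ z)).smulRight s) z :=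
      d0.hasFDerivAt.add (d3.smul_const s)
    rw [dN.fderiv, injective_iff_map_eq_zero]
    intro v hv0
    have e0 : fderiv ℝ φ z v + (fderiv ℝ φ z v 3) • s = 0 := hv0
    have e1 : fderiv ℝ φ z v 3 = 0 := by
      have := congrArg (fun x : R4 => x 3) e0
      simp only [PiLp.add_apply, PiLp.smul_apply, hs, smul_eq_mul, mul_zero, add_zero,
        PiLp.zero_apply] at this
      exact this
    apply (injective_iff_map_eq_zero _).1 (h.imm z hz)
    rw [e1, zero_smul, add_zero] at e0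
    exact e0
  · intro z hz
    have := congrFun h3 z
    simp only at this
    rw [this]
    exact h.inside z hz
  · intro z hz
    have := congrFun h3 z
    simp only at this
    rw [this]
    exact h.bdry z hz
  · intro z hz
    rw [h3]
    exact h.transv z hz

/-- the Morse condition depends only on the height -/
theorem morse_congr {φ ψ : ℂ → R4} (h : (fun w => φ w 3) = fun w => ψ w 3) (hM : MorseHt φ) :
    MorseHt ψ := by
  unfold MorseHt at hM ⊢
  rw [← h]
  exact hM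

theorem minima_congr {φ ψ : ℂ → R4} (h : (fun w => φ w 3) = fun w => ψ w 3) :
    minima φ = minima ψ := by
  unfold minima
  rw [h]

/-- **First theorem**: functions which grow in some direction. -/
theorem main_dir {φ : ℂ → R4} (hφ : SliceDisc φ) {G : R4 → ℝ} (hG : ContDiff ℝ ∞ G) {w : R4}
    (hw : 0 < w 3) (hv : ∀ x, 0 ≤ fderiv ℝ G x w) (hg : Good (fun z => G (φ z))) :
    ∃ f : ℂ → ℝ, Push φ w f ∧ MorseHt (fun z => φ z + f z • w) ∧
      (minima (fun z => φ z + f z • w)).encard ≤ (cups (fun z => G (φ z))).encard := by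
  obtain ⟨s, hs⟩ : ∃ s : R4, s = (w 3)⁻¹ • w - vert := ⟨_, rfl⟩
  have hs3 : s 3 = 0 := by
    rw [hs, PiLp.sub_apply, PiLp.smul_apply, vert_three, smul_eq_mul, inv_mul_cancel₀ hw.ne',
      sub_self]
  have hwv : vert + s = (w 3)⁻¹ • w := by rw [hs]; abel
  have hns : (-s) 3 = 0 := by rw [PiLp.neg_apply, hs3, neg_zero]
  have hφ' := shear hφ hns
  -- the sheared function
  have hSd : ContDiff ℝ ∞ (fun x : R4 => x + x 3 • s) :=
    contDiff_id.add ((coord_contDiff 3).smul contDiff_const)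
  have hG' : ContDiff ℝ ∞ (fun x : R4 => G (x + x 3 • s)) := hG.comp hSd
  have hv' : ∀ x : R4, 0 ≤ fderiv ℝ (fun x : R4 => G (x + x 3 • s)) x vert := by
    intro x
    have h1 : HasFDerivAt (fun x : R4 => x + x 3 • s)
        (ContinuousLinearMap.id ℝ R4 + (EuclideanSpace.proj 3 : R4 →L[ℝ] ℝ).smulRight s) x :=
      (hasFDerivAt_id x).add ((EuclideanSpace.proj 3 : R4 →L[ℝ] ℝ).hasFDerivAt.smul_const s)
    have h2 : HasFDerivAt (fun x : R4 => G (x + x 3 • s))
        ((fderiv ℝ G (x + x 3 • s)).comp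
          (ContinuousLinearMap.id ℝ R4 + (EuclideanSpace.proj 3 : R4 →L[ℝ] ℝ).smulRight s)) x :=
      ((hG.differentiable (by simp)) (x + x 3 • s)).hasFDerivAt.comp x h1
    rw [h2.fderiv]
    have h3 : ((fderiv ℝ G (x + x 3 • s)).comp
          (ContinuousLinearMap.id ℝ R4 + (EuclideanSpace.proj 3 : R4 →L[ℝ] ℝ).smulRight s)) vert =
        fderiv ℝ G (x + x 3 • s) (vert + (vert 3) • s) := rfl
    rw [h3, vert_three, one_smul, hwv, map_smul, smul_eq_mul]
    exact mul_nonneg (inv_pos.2 hw).le (hv _)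
  have hGφ : (fun z => (fun x : R4 => G (x + x 3 • s)) (φ z + φ z 3 • (-s))) =
      fun z => G (φ z) := by
    funext z
    simp only
    have h1 : (φ z + φ z 3 • (-s)) 3 = φ z 3 := by
      rw [PiLp.add_apply, PiLp.smul_apply, hns]
      simp
    rw [h1]
    congr 1
    rw [smul_neg]
    abel
  obtain ⟨f, hpush, hM, hc⟩ := main1 hφ' hG' hv' (by rw [hGφ]; exact hg)
  rw [hGφ] at hc
  have hkey : ∀ (t : ℝ) (z : ℂ), φ z + (t * (f z / w 3)) • w =
      (φ z + φ z 3 • (-s) + (t * f z) • vert) +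
        (φ z + φ z 3 • (-s) + (t * f z) • vert) 3 • s := by
    intro t z
    have h1 : (φ z + φ z 3 • (-s) + (t * f z) • vert) 3 = φ z 3 + t * f z := by
      rw [PiLp.add_apply, PiLp.add_apply, PiLp.smul_apply, PiLp.smul_apply, hns, vert_three]
      simp
    have h2 : (t * (f z / w 3)) • w = (t * f z) • (vert + s) := by
      rw [hwv, smul_smul]
      congr 1
      ring
    rw [h1, h2, smul_add, add_smul, smul_neg]
    abel
  have hht : (fun z => (φ z + φ z 3 • (-s) + f z • vert) 3) =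
      fun z => (φ z + (f z / w 3) • w) 3 := by
    funext z
    have h1 := hkey 1 z
    rw [one_mul, one_mul] at h1
    rw [h1]
    exact (three_add_smul _ hs3 _).symm
  refine ⟨fun z => f z / w 3, ⟨?_, ?_, ?_⟩, morse_congr hht hM, ?_⟩
  · obtain ⟨W, hW, hsub, h1, h2⟩ := hpush.smooth
    obtain ⟨W', hW', hsub', h1'⟩ := hφ.smooth
    exact ⟨W ∩ W', hW.inter hW', subset_inter hsub hsub', h1'.mono inter_subset_right,
      (h2.mono inter_subset_left).div_const _⟩
  · intro t ht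
    have h1 := shear (hpush.disc t ht) hs3
    have h2 : (fun z => φ z + (t * (f z / w 3)) • w) = fun z =>
      (φ z + φ z 3 • (-s) + (t * f z) • vert) +
        (φ z + φ z 3 • (-s) + (t * f z) • vert) 3 • s := funext (hkey t)
    rw [h2]
    exact h1
  · intro z hz
    simp only
    rw [hpush.bdry z hz, zero_div]
  · rw [← minima_congr hht]
    exact hc

theorem push_step {φ : ℂ → R4} {w : R4} {f : ℂ → ℝ} (h : Push φ w f) :
    Step φ (fun z => φ z + f z • w) := by
  obtain ⟨W, hW, hsub, h1, h2⟩ := h.smooth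
  refine ⟨fun t z => φ z + (t * f z) • w, ⟨W, hW, hsub, ?_⟩, fun t ht => ⟨h.disc t ht, ?_⟩,
    ?_, ?_⟩
  · have m : MapsTo (fun p : ℝ × ℂ => p.2) (univ ×ˢ W) W := fun p hp => hp.2
    have a1 : ContDiffOn ℝ ∞ (fun p : ℝ × ℂ => φ p.2) (univ ×ˢ W) :=
      h1.comp contDiff_snd.contDiffOn m
    have a2 : ContDiffOn ℝ ∞ (fun p : ℝ × ℂ => f p.2) (univ ×ˢ W) :=
      h2.comp contDiff_snd.contDiffOn m
    exact a1.add ((contDiff_fst.contDiffOn.mul a2).smul contDiffOn_const)
  · intro z hz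
    simp [h.bdry z hz]
  · funext z
    simp
  · funext z
    simp

theorem shear_step {φ : ℂ → R4} (h : SliceDisc φ) {s : R4} (hs : s 3 = 0) (R : ℝ) :
    Step φ (fun z => φ z + (R * φ z 3) • s) := by
  obtain ⟨W, hW, hsub, h1⟩ := h.smooth
  refine push_step (w := s) (f := fun z => R * φ z 3) ⟨⟨W, hW, hsub, h1, ?_⟩, ?_, ?_⟩
  · exact contDiffOn_const.mul ((coord_contDiff 3).comp_contDiffOn h1)
  · intro t _
    have h2 : ((t * R) • s) 3 = 0 := by rw [PiLp.smul_apply, hs, smul_zero]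
    have h3 := shear h h2
    have h4 : (fun z => φ z + (t * (R * φ z 3)) • s) = fun z => φ z + φ z 3 • ((t * R) • s) := by
      funext z
      rw [smul_smul]
      congr 2
      ring
    rw [h4]
    exact h3
  · intro z hz
    simp [h.bdry z hz]

/-! ### Scaling -/

theorem fd_scale (L : ℂ → ℝ) (c : ℝ) : fderiv ℝ (fun z => c * L z) = c • fderiv ℝ L := by
  funext z
  have h1 : (fun z => c * L z) = c • L := rfl
  rw [h1, fderiv_const_smul_field]

theorem fd2_scale (L : ℂ → ℝ) (c : ℝ) (z : ℂ) :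
    fderiv ℝ (fderiv ℝ (fun z => c * L z)) z = c • fderiv ℝ (fderiv ℝ L) z := by
  rw [fd_scale]
  exact congrFun (fderiv_const_smul_field (𝕜 := ℝ) (F := ℂ →L[ℝ] ℝ) (f := fderiv ℝ L) c) z

theorem q2_scale (L : ℂ → ℝ) (c : ℝ) (z v : ℂ) : q2 (fun z => c * L z) z v = c * q2 L z v := by
  unfold q2
  rw [fd2_scale]
  rfl

theorem good_scale {L : ℂ → ℝ} {c : ℝ} (hc : 0 < c) (h : Good L) : Good (fun z => c * L z) := by
  intro z hz h0
  have h1 : fderiv ℝ L z = 0 := by
    rw [fd_scale] at h0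
    exact (smul_eq_zero.1 (h0 : c • fderiv ℝ L z = 0)).resolve_left hc.ne'
  obtain ⟨h2, ⟨v, hv⟩ | h3⟩ := h z hz h1
  · exact ⟨h2, Or.inl ⟨v, by rw [q2_scale]; exact mul_neg_of_pos_of_neg hc hv⟩⟩
  · exact ⟨h2, Or.inr fun v hv => by rw [q2_scale]; exact mul_pos hc (h3 v hv)⟩

theorem cups_scale {L : ℂ → ℝ} {c : ℝ} (hc : 0 < c) : cups (fun z => c * L z) = cups L := by
  ext z
  unfold cups
  simp only [mem_setOf_eq]
  refine and_congr_right fun _ => and_congr ?_ (forall_congr' fun v => imp_congr_right fun _ => ?_)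
  · rw [fd_scale]
    exact ⟨fun h => (smul_eq_zero.1 (h : c • fderiv ℝ L z = 0)).resolve_left hc.ne',
      fun h => by show c • fderiv ℝ L z = 0; rw [h, smul_zero]⟩
  · rw [q2_scale]
    exact ⟨fun h => (mul_pos_iff_of_pos_left hc).1 h, fun h => mul_pos hc h⟩

/-! ### Perturbation of linear functions -/

theorem lin_smooth {φ : ℂ → R4} (h : SliceDisc φ) (y : R4) {z : ℂ}
    (hz : z ∈ closedBall (0 : ℂ) 1) : ContDiffAt ℝ ∞ (fun w => ⟪y, φ w⟫) z :=
  contDiffAt_const.inner ℝ (h.at hz)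

theorem ev_lin {φ : ℂ → R4} (h : SliceDisc φ) {y : R4} (hg : Good (fun w => ⟪y, φ w⟫)) :
    ∀ᶠ x in 𝓝 y, Good (fun w => ⟪x, φ w⟫) ∧
      (cups (fun w => ⟪x, φ w⟫)).encard ≤ (cups (fun w => ⟪y, φ w⟫)).encard := by
  obtain ⟨W, hW, hsub, hs⟩ := h.smooth
  have hL : ContDiffOn ℝ ∞ (fun w => ⟪y, φ w⟫) W := contDiffOn_const.inner ℝ hs
  obtain ⟨κ, hκ, S, hS, hc⟩ := covering hW hsub hL hg
  have hφs : ∀ z ∈ closedBall (0 : ℂ) 1, ContDiffAt ℝ ∞ φ z := fun z hz => h.at hz
  have hcase : Cases φ S y := by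
    intro z hz
    by_cases h0 : ∃ v, ⟪y, fderiv ℝ φ z v⟫ ≠ 0
    · exact Or.inl h0
    · push Not at h0
      right
      have h1 : fderiv ℝ (fun w => ⟪y, φ w⟫) z = 0 := by
        ext v
        rw [(hess0 (hφs z hz) y).1 v, h0 v]
        rfl
      rcases hc z hz with h2 | ⟨v, -, hv⟩ | h2
      · exfalso
        rw [h1, norm_zero] at h2
        linarith
      · left
        refine ⟨(hg z hz h1).1, v, ?_⟩
        rw [q2_inner (hφs z hz)] at hv
        linarith
      · exact Or.inr h2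
  have hconv : Conv φ S y := by
    intro p hp z hz v hv0
    have h1 := (hS p hp).conv z hz v
    rw [q2_inner (hφs z (ball_subset_closedBall ((hS p hp).sub hz)))] at h1
    have : 0 < κ * ‖v‖ ^ 2 := by positivity
    linarith
  filter_upwards [ev_cases hφs hcase, ev_conv hφs (fun p hp => (hS p hp).sub) hconv] with x hx1 hx2
  have hcrit : ∀ z ∈ closedBall (0 : ℂ) 1, fderiv ℝ (fun w => ⟪x, φ w⟫) z = 0 →
      (z ∈ ball (0 : ℂ) 1 ∧ ∃ v, q2 (fun w => ⟪x, φ w⟫) z v < 0) ∨ ∃ p ∈ S, z ∈ ball p.1 p.2 := by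
    intro z hz h0
    rcases hx1 z hz with ⟨v, hv⟩ | ⟨hzb, v, hv⟩ | h2
    · exfalso
      apply hv
      rw [← (hess0 (hφs z hz) x).1 v, h0]
      rfl
    · exact Or.inl ⟨hzb, v, by rw [q2_inner (hφs z hz)]; exact hv⟩
    · exact Or.inr h2
  have hpos : ∀ p ∈ S, ∀ z ∈ closedBall p.1 p.2, ∀ v, v ≠ 0 →
      0 < q2 (fun w => ⟪x, φ w⟫) z v := fun p hp z hz v hv => by
    rw [q2_inner (hφs z (ball_subset_closedBall ((hS p hp).sub hz)))]
    exact hx2 p hp z hz v hv
  refine ⟨fun z hz h0 => ?_, ?_⟩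
  · rcases hcrit z hz h0 with ⟨hzb, h1⟩ | ⟨p, hp, hzp⟩
    · exact ⟨hzb, Or.inl h1⟩
    · have hzc := ball_subset_closedBall hzp
      exact ⟨(hS p hp).sub hzc, Or.inr (hpos p hp z hzc)⟩
  · refine count_set hS (fun z hz => lin_smooth h x (ball_subset_closedBall hz)) hpos
      (fun z hz => hz.2.1) ?_
    rintro z ⟨hzb, h0, hpd⟩
    rcases hcrit z (ball_subset_closedBall hzb) h0 with ⟨-, v, hv⟩ | h1
    · exfalso
      by_cases hv0 : v = 0
      · rw [hv0] at hv
        simp [q2] at hv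
      · exact absurd (hpd v hv0) (not_lt.2 hv.le)
    · exact h1

/-- **Second theorem**: linear functions. -/
theorem lin {φ : ℂ → R4} (h : SliceDisc φ) {y : R4} (hg : Good (fun z => ⟪y, φ z⟫)) :
    ∃ (w : R4) (f : ℂ → ℝ), 0 < w 3 ∧ Push φ w f ∧ MorseHt (fun z => φ z + f z • w) ∧
      (minima (fun z => φ z + f z • w)).encard ≤ (cups (fun z => ⟪y, φ z⟫)).encard := by
  -- a direction with a horizontal component
  obtain ⟨x, hx0, hxg, hxc⟩ : ∃ x : R4, x 0 ≠ 0 ∧ Good (fun w => ⟪x, φ w⟫) ∧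
      (cups (fun w => ⟪x, φ w⟫)).encard ≤ (cups (fun w => ⟪y, φ w⟫)).encard := by
    by_cases hy0 : y 0 = 0
    · have hev := ev_lin h hg
      have ht : Tendsto (fun δ : ℝ => y + δ • (EuclideanSpace.single 0 1 : R4)) (𝓝[>] 0) (𝓝 y) := by
        have hc : Continuous (fun δ : ℝ => y + δ • (EuclideanSpace.single 0 1 : R4)) := by fun_prop
        have := hc.tendsto 0
        rw [zero_smul, add_zero] at this
        exact this.mono_left nhdsWithin_le_nhds
      obtain ⟨δ, hδ1, hδ2⟩ := ((ht.eventually hev).and self_mem_nhdsWithin).exists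
      refine ⟨_, ?_, hδ1.1, hδ1.2⟩
      have : (0 : ℝ) < δ := hδ2
      simp [hy0, this.ne']
    · exact ⟨y, hy0, hg, le_rfl⟩
  obtain ⟨s, hs⟩ : ∃ s : R4, s = x - (x 3) • vert := ⟨_, rfl⟩
  have hs3 : s 3 = 0 := by
    rw [hs, PiLp.sub_apply, PiLp.smul_apply, vert_three]
    simp
  have hs0 : s ≠ 0 := by
    intro h0
    apply hx0
    have h1 : s 0 = x 0 := by
      rw [hs, PiLp.sub_apply, PiLp.smul_apply]
      simp [vert]
    rw [← h1, h0]
    rfl
  have hn : 0 < ‖s‖ ^ 2 := by positivity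
  have hxs : ⟪x, s⟫ = ‖s‖ ^ 2 := by
    have h1 : x = s + (x 3) • vert := by rw [hs]; abel
    calc ⟪x, s⟫ = ⟪s + (x 3) • vert, s⟫ := by rw [← h1]
      _ = ‖s‖ ^ 2 := by
        rw [inner_add_left, real_inner_smul_left, inner_vert, hs3, real_inner_self_eq_norm_sq]
        ring
  obtain ⟨w, hw⟩ : ∃ w : R4, w = vert + (|x 3| / ‖s‖ ^ 2) • s := ⟨_, rfl⟩
  have hw3 : w 3 = 1 := by
    rw [hw, PiLp.add_apply, PiLp.smul_apply, vert_three, hs3]
    simp
  have hxw : 0 ≤ ⟪x, w⟫ := by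
    rw [hw, inner_add_right, real_inner_smul_right, hxs, real_inner_comm, inner_vert]
    have : |x 3| / ‖s‖ ^ 2 * ‖s‖ ^ 2 = |x 3| := by field_simp
    rw [this]
    linarith [neg_abs_le (x 3)]
  obtain ⟨f, h1, h2, h3⟩ := main_dir h (G := fun p => ⟪x, p⟫) (contDiff_const.inner ℝ contDiff_id)
    (w := w) (by rw [hw3]; norm_num) (fun p => by
      have h1 : HasFDerivAt (fun p : R4 => ⟪x, p⟫) (innerSL ℝ x) p := (innerSL ℝ x).hasFDerivAt
      rw [h1.fderiv]
      exact hxw) hxg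
  exact ⟨w, f, by rw [hw3]; norm_num, h1, h2, h3.trans hxc⟩

end Run7.h421.RP
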