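import Mathlib
import Pool.Agent.Run7.h421.RPj

/-!
Slice discs and their projections: Morse functions, characterisation.
-/

set_option autoImplicit false

namespace Run7.h421.RP

open scoped ContDiff RealInnerProductSpace Topology
open Set Metric Filter MeasureTheory
open Pool.Agent.N503.ML (vert vert_three inner_vert norm_vert IPatch kdet)

theorem step_disc {φ ψ : ℂ → R4} (h : Step φ ψ) : SliceDisc ψ := by
  obtain ⟨H, -, h1, -, h3⟩ := h
  rw [← h3]
  exact (h1 1 ⟨zero_le_one, le_rfl⟩).1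

theorem iso_disc {φ ψ : ℂ → R4} (h : Isotopic φ ψ) (hφ : SliceDisc φ) : SliceDisc ψ := by
  rcases Relation.ReflTransGen.cases_tail h with h1 | ⟨χ, -, h1⟩
  · rw [h1]
    exact hφ
  · exact step_disc h1

theorem vert_fun (φ : ℂ → R4) : (fun z => ⟪vert, φ z⟫) = fun z => φ z 3 := by
  funext z
  exact inner_vert _

theorem height_smooth {φ : ℂ → R4} (h : SliceDisc φ) {z : ℂ} (hz : z ∈ closedBall (0 : ℂ) 1) :
    ContDiffAt ℝ ∞ (fun w => φ w 3) z := (coord_contDiff 3).contDiffAt.comp z (h.at hz)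

/-- a multiple of a Morse height -/
theorem good_of_morse {φ : ℂ → R4} (h : SliceDisc φ) (hM : MorseHt φ) {c : ℝ} (hc : c ≠ 0) :
    Good (fun z => c * φ z 3) := by
  intro z hz h0
  have h1 : fderiv ℝ (fun w => φ w 3) z = 0 := by
    rw [fd_scale] at h0
    exact (smul_eq_zero.1 (h0 : c • fderiv ℝ (fun w => φ w 3) z = 0)).resolve_left hc
  have hzb : z ∈ ball (0 : ℂ) 1 := by
    by_contra h2
    refine h.transv z ?_ h1
    rw [mem_closedBall_zero_iff] at hz
    rw [mem_ball_zero_iff, not_lt] at h2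
    rw [mem_sphere_zero_iff_norm]
    exact le_antisymm hz h2
  refine ⟨hzb, desc_or_pd (contDiffAt_const.mul (height_smooth h hz)) fun u hu => ?_⟩
  refine hM z hzb h1 u fun v => ?_
  have h2 := hu v
  rw [fd2_scale] at h2
  have h3 : c * fderiv ℝ (fderiv ℝ (fun w => φ w 3)) z u v = 0 := h2
  exact (mul_eq_zero.1 h3).resolve_left hc

theorem cups_min {φ : ℂ → R4} (h : SliceDisc φ) : cups (fun z => φ z 3) ⊆ minima φ := fun _ hz =>
  pd_min (fun _ hw => height_smooth h (ball_subset_closedBall hw)) hz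

theorem cups_max {φ : ℂ → R4} (h : SliceDisc φ) :
    cups (fun z => (-1) * φ z 3) ⊆ maxima φ := fun z hz => by
  obtain ⟨h1, h2⟩ := pd_min (f := fun z => (-1) * φ z 3)
    (fun _ hw => contDiffAt_const.mul (height_smooth h (ball_subset_closedBall hw))) hz
  refine ⟨h1, ?_⟩
  have h3 : ∀ᶠ w in 𝓝 z, (-1) * φ z 3 ≤ (-1) * φ w 3 := h2
  show ∀ᶠ w in 𝓝 z, φ w 3 ≤ φ z 3
  filter_upwards [h3] with w hw
  linarith

/-- **Turning the disc**: at most as many minima as there were maxima. -/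
theorem turn {φ : ℂ → R4} (h : SliceDisc φ) (hM : MorseHt φ) :
    ∃ (w : R4) (f : ℂ → ℝ), 0 < w 3 ∧ Push φ w f ∧ MorseHt (fun z => φ z + f z • w) ∧
      (minima (fun z => φ z + f z • w)).encard ≤ (maxima φ).encard := by
  have h1 : (fun z => ⟪(-1 : ℝ) • vert, φ z⟫) = fun z => (-1) * φ z 3 := by
    funext z
    rw [real_inner_smul_left, inner_vert]
  obtain ⟨w, f, a, b, c, d⟩ := lin h (y := (-1 : ℝ) • vert) (by
    rw [h1]
    exact good_of_morse h hM (by norm_num))
  refine ⟨w, f, a, b, c, d.trans ?_⟩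
  rw [h1]
  exact encard_le_encard (cups_max h)

/-- **Characterisation**: one linear function instead of the height. -/
theorem char_lin {φ : ℂ → R4} (h : SliceDisc φ) (m : ℕ∞) {y : R4}
    (hy : ∀ c : ℝ, c ≤ 0 → y ≠ c • vert) :
    (∃ ψ : ℂ → R4, Isotopic φ ψ ∧ MorseHt ψ ∧ (minima ψ).encard ≤ m) ↔
    (∃ ψ : ℂ → R4, Isotopic φ ψ ∧ Good (fun z => ⟪y, ψ z⟫) ∧
      (cups (fun z => ⟪y, ψ z⟫)).encard ≤ m) := by
  constructor
  · rintro ⟨ψ, hi, hM, hm⟩
    have hψ := iso_disc hi h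
    have hg1 : Good (fun z => ⟪vert, ψ z⟫) := by
      have := good_of_morse hψ hM (c := 1) one_ne_zero
      rw [vert_fun]
      simpa using this
    have hc1 : (cups (fun z => ⟪vert, ψ z⟫)).encard ≤ m := by
      rw [vert_fun]
      exact (encard_le_encard (cups_min hψ)).trans hm
    obtain ⟨s, hs⟩ : ∃ s : R4, s = y - (y 3) • vert := ⟨_, rfl⟩
    have hys : y = s + (y 3) • vert := by rw [hs]; abel
    have hs3 : s 3 = 0 := by
      rw [hs, PiLp.sub_apply, PiLp.smul_apply, vert_three]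
      simp
    by_cases hs0 : s = 0
    · rw [hs0, zero_add] at hys
      have hy3 : 0 < y 3 := by
        by_contra hcon
        exact hy _ (not_lt.1 hcon) hys
      have h1 : (fun z => ⟪y, ψ z⟫) = fun z => y 3 * ⟪vert, ψ z⟫ := by
        funext z
        conv_lhs => rw [hys]
        rw [real_inner_smul_left]
      refine ⟨ψ, hi, ?_, ?_⟩
      · rw [h1]
        exact good_scale hy3 hg1
      · rw [h1, cups_scale hy3]
        exact hc1
    · have hn : 0 < ‖s‖ ^ 2 := by positivity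
      have hyy : ⟪y, s⟫ = ‖s‖ ^ 2 := by
        calc ⟪y, s⟫ = ⟪s + (y 3) • vert, s⟫ := by rw [← hys]
          _ = ‖s‖ ^ 2 := by
            rw [inner_add_left, real_inner_smul_left, inner_vert, hs3,
              real_inner_self_eq_norm_sq]
            ring
      have hev := ev_lin hψ hg1
      have ht : Tendsto (fun δ : ℝ => vert + δ • y) (𝓝[>] 0) (𝓝 vert) := by
        have hc : Continuous (fun δ : ℝ => vert + δ • y) := by fun_prop
        have := hc.tendsto 0
        rw [zero_smul, add_zero] at this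
        exact this.mono_left nhdsWithin_le_nhds
      obtain ⟨δ, hδ1, hδ2⟩ := ((ht.eventually hev).and self_mem_nhdsWithin).exists
      have hδ : 0 < δ := hδ2
      have hfun : (fun z => ⟪y, ψ z + ((δ * ‖s‖ ^ 2)⁻¹ * ψ z 3) • s⟫) =
          fun z => δ⁻¹ * ⟪vert + δ • y, ψ z⟫ := by
        funext z
        rw [inner_add_right, real_inner_smul_right, hyy, inner_add_left, real_inner_smul_left,
          inner_vert]
        field_simp
        ring
      refine ⟨_, hi.tail (shear_step hψ hs3 ((δ * ‖s‖ ^ 2)⁻¹)), ?_, ?_⟩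
      · rw [hfun]
        exact good_scale (inv_pos.2 hδ) hδ1.1
      · rw [hfun, cups_scale (inv_pos.2 hδ)]
        exact hδ1.2.trans hc1
  · rintro ⟨ψ, hi, hg, hm⟩
    obtain ⟨w, f, -, hp, hM, hc⟩ := lin (iso_disc hi h) hg
    exact ⟨_, hi.tail (push_step hp), hM, hc.trans hm⟩

/-- the same for functions which grow in some direction -/
theorem char_fun {φ : ℂ → R4} (h : SliceDisc φ) (m : ℕ∞) :
    (∃ ψ : ℂ → R4, Isotopic φ ψ ∧ MorseHt ψ ∧ (minima ψ).encard ≤ m) ↔
    (∃ (ψ : ℂ → R4) (G : R4 → ℝ) (w : R4), Isotopic φ ψ ∧ ContDiff ℝ ∞ G ∧ 0 < w 3 ∧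
      (∀ x, 0 ≤ fderiv ℝ G x w) ∧ Good (fun z => G (ψ z)) ∧
      (cups (fun z => G (ψ z))).encard ≤ m) := by
  constructor
  · rintro ⟨ψ, hi, hM, hm⟩
    have hψ := iso_disc hi h
    refine ⟨ψ, fun x => x 3, vert, hi, coord_contDiff 3, by rw [vert_three]; norm_num, ?_, ?_, ?_⟩
    · intro x
      have h1 : HasFDerivAt (fun x : R4 => x 3) (EuclideanSpace.proj 3 : R4 →L[ℝ] ℝ) x :=
        (EuclideanSpace.proj 3 : R4 →L[ℝ] ℝ).hasFDerivAt
      rw [h1.fderiv]
      show 0 ≤ vert 3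
      rw [vert_three]
      norm_num
    · have := good_of_morse hψ hM (c := 1) one_ne_zero
      simpa using this
    · exact (encard_le_encard (cups_min hψ)).trans hm
  · rintro ⟨ψ, G, w, hi, hG, hw, hv, hg, hm⟩
    obtain ⟨f, hp, hM, hc⟩ := main_dir (iso_disc hi h) hG hw hv hg
    exact ⟨_, hi.tail (push_step hp), hM, hc.trans hm⟩

end Run7.h421.RP
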