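import Mathlib
import Pool.Agent.N15.RC.Fin
import Pool.Agent.Run7.h421.RPk

/-!
Slice discs and their projections: curvature.
-/

set_option autoImplicit false

namespace Run7.h421.RP

open scoped ContDiff RealInnerProductSpace Topology ENNReal
open Set Metric Filter MeasureTheory
open Pool.Agent.N503.ML (vert vert_three inner_vert norm_vert IPatch kdet curvE counting sard
  framed_cover cE cE_det CritCap HB vol_HB measurable_HB hess nondegE neg_of_semidef frame_unit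
  d2_eq)
open Pool.Agent.N15.RC (lowE uppE opp uppE_opp encard_le_ennreal)
open Pool.Agent.Y503.RB (E4 d1 d2 sff zc mk4 mk4_zc mk4_two mk4_three)

/-- the preimage of a null set of the plane -/
theorem null_zc {C : Set ℂ} (hCm : MeasurableSet C) (hC : volume C = 0) :
    volume {x : E4 | zc x ∈ C} = 0 := by
  have h1 : {x : E4 | zc x ∈ C} =
      Pool.Agent.Y919.RB.coE ⁻¹' ((univ : Set ℝ) ×ˢ ((univ : Set ℝ) ×ˢ C)) := by
    ext x
    simp [Pool.Agent.Y919.RB.coE_apply]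
  rw [h1, Pool.Agent.Y919.RB.coE_mp.measure_preimage
    (MeasurableSet.univ.prod (MeasurableSet.univ.prod hCm)).nullMeasurableSet]
  have h2 : (volume : Measure (ℝ × (ℝ × ℂ))) =
      (volume : Measure ℝ).prod ((volume : Measure ℝ).prod (volume : Measure ℂ)) := rfl
  rw [h2, Measure.prod_prod, Measure.prod_prod, hC, mul_zero, mul_zero]

theorem null_circle : volume (sphere (0 : ℂ) 1) = 0 := by
  exact Measure.addHaar_sphere _ _ _

/-- for almost all `y` there are no critical points on a null set -/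
theorem no_crit {φ : ℂ → E4} {U : Set ℂ} (hP : IPatch φ U) {C : Set ℂ} (hCU : C ⊆ U)
    (hCm : MeasurableSet C) (hC : volume C = 0) :
    ∃ Z : Set E4, volume Z = 0 ∧ ∀ y ∉ Z, y ≠ 0 → ∀ z ∈ C, ¬ ∀ v : ℂ, ⟪y, d1 φ v z⟫ = 0 := by
  obtain ⟨N₁, N₂, V, h, hU⟩ := framed_cover hP
  have hPj : ∀ j, IPatch φ (V j) := fun j =>
    ⟨(h j).1, hP.smooth.mono (h j).2.2, fun z hz => hP.imm z ((h j).2.2 hz)⟩
  refine ⟨⋃ j, cE (N₁ j) (N₂ j) '' {x | zc x ∈ V j ∩ C}, ?_, ?_⟩
  · rw [measure_iUnion_null_iff]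
    intro j
    refine addHaar_image_eq_zero_of_differentiableOn_of_addHaar_eq_zero volume ?_ ?_
    · intro x hx
      exact ((cE_det (hPj j) (h j).2.1 hx.1).1.differentiableAt
        (by simp)).differentiableWithinAt
    · refine measure_mono_null ?_ (null_zc hCm hC)
      intro x hx
      exact hx.2
  · intro y hy hy0 z hz hc
    obtain ⟨j, hj⟩ := mem_iUnion.1 (hU (hCU hz))
    have hy0' : 0 < ‖y‖ := norm_pos_iff.2 hy0
    have hyr : ‖y‖ • (‖y‖⁻¹ • y) = y := by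
      rw [smul_smul, mul_inv_cancel₀ hy0'.ne', one_smul]
    have hc' : ∀ v : ℂ, ⟪‖y‖⁻¹ • y, d1 φ v z⟫ = 0 := fun v => by
      rw [real_inner_smul_left, hc, mul_zero]
    obtain ⟨θ, hθ, hn⟩ := frame_unit (hPj j) (h j).2.1 hj (n := ‖y‖⁻¹ • y)
      (by rw [norm_smul, norm_inv, norm_norm, inv_mul_cancel₀ hy0'.ne']) hc'
    apply hy
    refine mem_iUnion.2 ⟨j, mk4 z θ ‖y‖, ?_, ?_⟩
    · show zc (mk4 z θ ‖y‖) ∈ V j ∩ C
      rw [mk4_zc]
      exact ⟨hj, hz⟩
    · unfold cE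
      rw [mk4_zc, mk4_two, mk4_three, ← hn, hyr]

/-- an open neighbourhood of the closed disc on which a slice disc is an immersion -/
theorem SliceDisc.patch {φ : ℂ → R4} (h : SliceDisc φ) :
    ∃ U : Set ℂ, closedBall 0 1 ⊆ U ∧ IPatch φ U := by
  obtain ⟨W, hW, hsub, hs⟩ := h.smooth
  have hc : ContinuousOn (fun z => fderiv ℝ φ z) W :=
    hs.continuousOn_fderiv_of_isOpen hW (by simp)
  have ho : IsOpen (W ∩ (fun z => fderiv ℝ φ z) ⁻¹' {L : ℂ →L[ℝ] R4 | Function.Injective L}) :=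
    hc.isOpen_inter_preimage hW ContinuousLinearMap.isOpen_injective
  exact ⟨W ∩ (fun z => fderiv ℝ φ z) ⁻¹' {L : ℂ →L[ℝ] R4 | Function.Injective L},
    fun z hz => ⟨hsub hz, h.imm z hz⟩, ho, hs.mono inter_subset_left, fun z hz => hz.2⟩

/-- a direction with few maxima -/
theorem few_caps {θ : ℂ → E4} {U : Set ℂ} (hU : closedBall 0 1 ⊆ U) (hP : IPatch θ U) :
    ∃ y : E4, Good (fun z => ⟪-y, θ z⟫) ∧
      ENNReal.ofReal (Real.pi ^ 2) *
        (((cups (fun z => ⟪-y, θ z⟫)).encard : ℕ∞) : ℝ≥0∞) ≤ uppE θ := by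
  have hPb : IPatch θ (ball 0 1) :=
    ⟨isOpen_ball, hP.smooth.mono (ball_subset_closedBall.trans hU),
      fun z hz => hP.imm z (hU (ball_subset_closedBall hz))⟩
  have hat : ∀ z ∈ closedBall (0 : ℂ) 1, ContDiffAt ℝ ∞ θ z := fun z hz =>
    hP.smooth.contDiffAt (hP.isOpen.mem_nhds (hU hz))
  obtain ⟨c, hc1, hc2, hc3, -, -⟩ := counting hPb isOpen_ball.measurableSet subset_rfl
  obtain ⟨Z, hZ, hZ2⟩ := sard hP
  obtain ⟨Z', hZ', hZ2'⟩ := no_crit hP (sphere_subset_closedBall.trans hU)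
    isClosed_sphere.measurableSet null_circle
  set μ : Measure E4 := volume.restrict HB with hμ
  have hvol : volume HB = ENNReal.ofReal (Real.pi ^ 2 / 4) := vol_HB
  have hμu : μ univ = ENNReal.ofReal (Real.pi ^ 2 / 4) := by
    rw [hμ, Measure.restrict_apply_univ, hvol]
  have hμ0 : μ ≠ 0 := by
    intro h
    have : μ univ = 0 := by rw [h]; rfl
    rw [hμu, ENNReal.ofReal_eq_zero] at this
    have := Real.pi_pos
    nlinarith [sq_nonneg Real.pi, mul_pos this this]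
  have : IsFiniteMeasure μ := ⟨by rw [hμu]; exact ENNReal.ofReal_lt_top⟩
  have hN : μ ((Z ∪ Z') ∪ HBᶜ) = 0 := by
    refine measure_union_null ?_ ?_
    · exact nonpos_iff_eq_zero.1 ((Measure.restrict_apply_le _ _).trans
        (measure_union_null hZ hZ').le)
    · rw [hμ, Measure.restrict_apply measurable_HB.compl, compl_inter_self, measure_empty]
  obtain ⟨y, hyN, hy⟩ := exists_notMem_null_le_laverage hμ0 hc1.aemeasurable hN
  rw [mem_union, not_or, mem_union, not_or, notMem_compl_iff] at hyN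
  obtain ⟨⟨hyZ, hyZ'⟩, hyH⟩ := hyN
  have hy0 : y ≠ 0 := by
    rintro rfl
    exact lt_irrefl _ hyH.2
  have hpi : 0 < Real.pi ^ 2 := by positivity
  have hbound : ENNReal.ofReal (Real.pi ^ 2) * c y ≤ uppE θ := by
    have h1 : ∫⁻ y, c y ∂μ ≤ ENNReal.ofReal (1 / 4) * uppE θ := by
      calc ∫⁻ y, c y ∂μ ≤ ∫⁻ y, c y := setLIntegral_le_lintegral _ _
        _ = _ := hc2
    have h2 : ⨍⁻ y, c y ∂μ = (ENNReal.ofReal (Real.pi ^ 2 / 4))⁻¹ * ∫⁻ y, c y ∂μ := by
      rw [laverage_eq, hμu, ENNReal.div_eq_inv_mul]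
    rw [h2] at hy
    calc ENNReal.ofReal (Real.pi ^ 2) * c y
        ≤ ENNReal.ofReal (Real.pi ^ 2) * ((ENNReal.ofReal (Real.pi ^ 2 / 4))⁻¹ *
          (ENNReal.ofReal (1 / 4) * uppE θ)) :=
          mul_le_mul_right (hy.trans (mul_le_mul_right h1 _)) _
      _ = (ENNReal.ofReal (Real.pi ^ 2) * ((ENNReal.ofReal (Real.pi ^ 2 / 4))⁻¹ *
          ENNReal.ofReal (1 / 4))) * uppE θ := by ring
      _ = uppE θ := by
          rw [← ENNReal.ofReal_inv_of_pos (by positivity), ← ENNReal.ofReal_mul (by positivity),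
            ← ENNReal.ofReal_mul (by positivity)]
          have : Real.pi ^ 2 * ((Real.pi ^ 2 / 4)⁻¹ * (1 / 4)) = 1 := by field_simp
          rw [this, ENNReal.ofReal_one, one_mul]
  -- critical points
  have hcr : ∀ z ∈ closedBall (0 : ℂ) 1, fderiv ℝ (fun w => ⟪-y, θ w⟫) z = 0 →
      ∀ v : ℂ, ⟪y, d1 θ v z⟫ = 0 := by
    intro z hz h0 v
    have h1 := (hess0 (hat z hz) (-y)).1 v
    rw [h0, inner_neg_left] at h1
    have h2 : (0 : ℝ) = -⟪y, d1 θ v z⟫ := h1
    linarith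
  have h2d : ∀ z ∈ closedBall (0 : ℂ) 1, ∀ u v,
      fderiv ℝ (fderiv ℝ (fun w => ⟪-y, θ w⟫)) z u v = -sff θ y u v z := by
    intro z hz u v
    rw [(hess0 (hat z hz) (-y)).2 u v, inner_neg_left]
    unfold sff
    rw [d2_eq (hat z hz)]
  refine ⟨y, ?_, le_trans (mul_le_mul_right ?_ _) hbound⟩
  · intro z hz h0
    have hv := hcr z hz h0
    have hzb : z ∈ ball (0 : ℂ) 1 := by
      by_contra h2
      refine hZ2' y hyZ' hy0 z ?_ hv
      rw [mem_closedBall_zero_iff] at hz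
      rw [mem_ball_zero_iff, not_lt] at h2
      rw [mem_sphere_zero_iff_norm]
      exact le_antisymm hz h2
    refine ⟨hzb, desc_or_pd (contDiffAt_const.inner ℝ (hat z hz)) fun u hu => ?_⟩
    refine nondegE (hat z hz) (hZ2 y hyZ hy0 z (hU hz) hv) fun v => ?_
    have h3 := hu v
    rw [h2d z hz] at h3
    linarith
  · refine encard_le_ennreal fun s hs => hc3 y hyH.1 s fun z hz => ?_
    obtain ⟨hzb, h0, hpd⟩ := hs z hz
    have hzc := ball_subset_closedBall hzb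
    have hv := hcr z hzc h0
    have hneg : ∀ w, sff θ y w w z ≤ 0 := by
      intro w
      by_cases hw : w = 0
      · rw [hw]
        have : sff θ y 0 0 z = 0 := by
          have h4 := h2d z hzc 0 0
          rw [map_zero] at h4
          have h5 : (0 : ℝ) = -sff θ y 0 0 z := h4
          linarith
        rw [this]
      · have h4 := hpd w hw
        unfold q2 at h4
        rw [h2d z hzc] at h4
        linarith
    obtain ⟨a, b⟩ := neg_of_semidef (hat z hzc) hneg (hZ2 y hyZ hy0 z (hU hzc) hv)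
    exact ⟨hzb, hv, hyH.2, a, b⟩

theorem ipatch_opp' {φ : ℂ → E4} {U : Set ℂ} (h : IPatch φ U) : IPatch (opp φ) U :=
  Pool.Agent.N15.RC.ipatch_opp h

/-- **Curvature**: the number of minima is at most the lower and the upper curvature. -/
theorem curvature {φ : ℂ → R4} (h : SliceDisc φ) :
    ∃ (w : R4) (f : ℂ → ℝ), 0 < w 3 ∧ Push φ w f ∧ MorseHt (fun z => φ z + f z • w) ∧
      ENNReal.ofReal (Real.pi ^ 2) *
        (((minima (fun z => φ z + f z • w)).encard : ℕ∞) : ℝ≥0∞) ≤ min (lowE φ) (uppE φ) := by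
  obtain ⟨U, hU, hP⟩ := h.patch
  have key : ∀ y : R4, Good (fun z => ⟪y, φ z⟫) → ENNReal.ofReal (Real.pi ^ 2) *
      (((cups (fun z => ⟪y, φ z⟫)).encard : ℕ∞) : ℝ≥0∞) ≤ min (lowE φ) (uppE φ) →
      ∃ (w : R4) (f : ℂ → ℝ), 0 < w 3 ∧ Push φ w f ∧ MorseHt (fun z => φ z + f z • w) ∧
      ENNReal.ofReal (Real.pi ^ 2) *
        (((minima (fun z => φ z + f z • w)).encard : ℕ∞) : ℝ≥0∞) ≤ min (lowE φ) (uppE φ) := by
    intro y hg hy
    obtain ⟨w, f, a, b, c, d⟩ := lin h hg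
    refine ⟨w, f, a, b, c, le_trans (mul_le_mul_right ?_ _) hy⟩
    exact_mod_cast d
  rcases le_total (lowE φ) (uppE φ) with hle | hle
  · rw [min_eq_left hle] at key ⊢
    obtain ⟨y, hg, hy⟩ := few_caps hU (ipatch_opp' hP)
    have h1 : (fun z => ⟪-y, opp φ z⟫) = fun z => ⟪y, φ z⟫ := by
      funext z
      show ⟪-y, -φ z⟫ = ⟪y, φ z⟫
      rw [inner_neg_neg]
    rw [h1] at hg hy
    rw [uppE_opp] at hy
    exact key y hg hy
  · rw [min_eq_right hle] at key ⊢
    obtain ⟨y, hg, hy⟩ := few_caps hU hP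
    exact key (-y) hg hy

end Run7.h421.RP
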