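import Mathlib
import Pool.Agent.Run7.h421.RPDef

/-!
Surfaces in the half-space and functions other than the height: definitions.
-/

set_option autoImplicit false

namespace Run7.h421.RS

open scoped ContDiff
open Set Metric
open Run7.h421.RP (R4 q2)

/-- `φ` is a smooth embedding of the open set `U` of the plane, transversal to the hyperplane
`x 3 = 0`. -/
structure TPatch (φ : ℂ → R4) (U : Set ℂ) : Prop where
  isOpen : IsOpen U
  smooth : ContDiffOn ℝ ∞ φ U
  imm : ∀ z ∈ U, Function.Injective (fderiv ℝ φ z)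
  emb : Topology.IsEmbedding (fun z : U => φ z)
  transv : ∀ z ∈ U, φ z 3 = 0 → fderiv ℝ (fun w => φ w 3) z ≠ 0

/-- `φ` is a parametrisation of the part of `F` in the open set `V`: this part is the part of the
surface `φ '' U` in the half-space `x 3 ≥ 0`. -/
structure Param (F : Set R4) (φ : ℂ → R4) (U : Set ℂ) (V : Set R4) : Prop where
  patch : TPatch φ U
  isOpen : IsOpen V
  eq : F ∩ V = φ '' U ∩ {x | 0 ≤ x 3}

/-- Compact smoothly embedded surface in the half-space `x 3 ≥ 0` of four-space, with boundary in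
the hyperplane `x 3 = 0` and transversal to it (any genus, any number of components). -/
structure TSurf (F : Set R4) : Prop where
  compact : IsCompact F
  nonneg : ∀ x ∈ F, 0 ≤ x 3
  loc : ∀ p ∈ F, ∃ (φ : ℂ → R4) (U : Set ℂ) (V : Set R4), Param F φ U V ∧ p ∈ V

/-- The height is a Morse function on the interior of `F`. -/
def MorseS (F : Set R4) : Prop := ∀ p ∈ F, 0 < p 3 →
  ∃ (φ : ℂ → R4) (U : Set ℂ) (V : Set R4) (z : ℂ), Param F φ U V ∧ z ∈ U ∧ φ z = p ∧
    (fderiv ℝ (fun w => φ w 3) z = 0 → ∀ u : ℂ,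
      (∀ v : ℂ, fderiv ℝ (fderiv ℝ (fun w => φ w 3)) z u v = 0) → u = 0)

/-- The local minima of the height in the interior of `F`. A surface whose height is a Morse
function without local minima in the interior is a ribbon surface. -/
def minS (F : Set R4) : Set R4 := {p | p ∈ F ∧ 0 < p 3 ∧ IsLocalMinOn (fun x => x 3) F p}

/-- The local maxima of the height in the interior of `F`. -/
def maxS (F : Set R4) : Set R4 := {p | p ∈ F ∧ 0 < p 3 ∧ IsLocalMaxOn (fun x => x 3) F p}

/-- `G` is good on `F`: it has no critical points (as a function on `F`) on the boundary, and at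
every critical point there is a direction with negative second derivative, or the second derivative
is positive definite. -/
def GoodS (F : Set R4) (G : R4 → ℝ) : Prop := ∀ p ∈ F,
  ∃ (φ : ℂ → R4) (U : Set ℂ) (V : Set R4) (z : ℂ), Param F φ U V ∧ z ∈ U ∧ φ z = p ∧
    (fderiv ℝ (fun w => G (φ w)) z = 0 →
      0 < p 3 ∧ ((∃ v, q2 (fun w => G (φ w)) z v < 0) ∨
        ∀ v, v ≠ 0 → 0 < q2 (fun w => G (φ w)) z v))

/-- The cups of `G` on `F`: the critical points in the interior of `F` with positive definite second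
derivative. -/
def cupsS (F : Set R4) (G : R4 → ℝ) : Set R4 := {p | p ∈ F ∧ 0 < p 3 ∧
  ∃ (φ : ℂ → R4) (U : Set ℂ) (V : Set R4) (z : ℂ), Param F φ U V ∧ z ∈ U ∧ φ z = p ∧
    fderiv ℝ (fun w => G (φ w)) z = 0 ∧ ∀ v, v ≠ 0 → 0 < q2 (fun w => G (φ w)) z v}

/-- The surface `F` can be pushed along the parallel lines of direction `w` by the ambient isotopy
`x ↦ x + t f x w` (`0 ≤ t ≤ 1`), which is the identity on the hyperplane `x 3 = 0`: for each `t` this
is a diffeomorphism of a neighbourhood of `F` onto an open set, and the image of `F` is again a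
surface as in `TSurf`, with the same boundary. -/
structure PushS (F : Set R4) (w : R4) (f : R4 → ℝ) : Prop where
  smooth : ContDiff ℝ ∞ f
  bdry : ∀ x : R4, x 3 = 0 → f x = 0
  diffeo : ∀ t ∈ Icc (0 : ℝ) 1, ∃ D : Set R4, IsOpen D ∧ F ⊆ D ∧
    InjOn (fun x => x + (t * f x) • w) D ∧
    ∀ x ∈ D, Function.Injective (fderiv ℝ (fun x => x + (t * f x) • w) x)
  surf : ∀ t ∈ Icc (0 : ℝ) 1, TSurf ((fun x => x + (t * f x) • w) '' F) ∧
    ∀ x ∈ F, ((x + (t * f x) • w) 3 = 0 ↔ x 3 = 0)

/-- One step of an isotopy of surfaces. -/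
def StepS (F F' : Set R4) : Prop := ∃ (w : R4) (f : R4 → ℝ), PushS F w f ∧
  F' = (fun x => x + f x • w) '' F

/-- Surfaces which are connected by finitely many isotopies of this kind. -/
def IsotopicS : Set R4 → Set R4 → Prop := Relation.ReflTransGen StepS

end Run7.h421.RS
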