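import Mathlib
import Pool.Agent.Run7.h421.RSDef
import Pool.Agent.Run7.h421.RPk

/-!
Surfaces in the half-space: the pointwise estimates.
-/

set_option autoImplicit false

namespace Run7.h421.RS

open scoped ContDiff RealInnerProductSpace Topology
open Set Metric Filter
open Run7.h421.RP

/-- the constants -/
structure Con (C κ m0 a N R T ε : ℝ) : Prop where
  hC : 1 ≤ C
  hκ : 0 < κ
  hm0 : 0 < m0
  hR : 0 < R
  hRκ : R * κ = 16 * C
  hT1 : R * C + 1 ≤ T
  hRN : R * N ≤ T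
  hε : 0 < ε
  hεc : ε * (8 * C + 4 * R * C) < m0 ^ 2
  M : ∀ t : ℝ, m0 ≤ t → (R * C + T) * (Real.exp (-(t / ε)) / ε) < 1
  a1 : ∀ t : ℝ, a ≤ t → Real.exp (-(t / ε)) ≤ 1 / 2
  a2 : ∀ t : ℝ, a ≤ t → (R * C + T) * (Real.exp (-(t / ε)) / ε) ≤ 1
  a3 : ∀ t : ℝ, a ≤ t → (R * C + T) * (Real.exp (-(t / ε)) / ε / ε) * C ≤ 1
  a4 : ∀ t : ℝ, a ≤ t → 2 * R * C * (Real.exp (-(t / ε)) / ε) ≤ 1
  eps : ∀ t : ℝ, Real.exp (-(t / ε)) / ε < 1 → Real.exp (-(t / ε)) ≤ 1 / 2

theorem exists_con {C κ m0 a : ℝ} (N : ℝ) (hC : 1 ≤ C) (hκ : 0 < κ) (hm0 : 0 < m0) (ha : 0 < a) :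
    ∃ R T ε : ℝ, Con C κ m0 a N R T ε := by
  have hCpos : 0 < C := by linarith
  obtain ⟨R, hR⟩ : ∃ R, R = 16 * C / κ := ⟨_, rfl⟩
  have hRpos : 0 < R := by rw [hR]; positivity
  have hRκ : R * κ = 16 * C := by rw [hR]; field_simp
  obtain ⟨T, hT⟩ : ∃ T, T = R * (C + |N|) + 1 := ⟨_, rfl⟩
  obtain ⟨M, hM⟩ : ∃ M, M = R * C + T := ⟨_, rfl⟩
  have hTpos : 0 < T := by rw [hT]; positivity
  have hMpos : 0 < M := by rw [hM]; positivity
  obtain ⟨b, hbdef⟩ : ∃ b, b = min m0 a := ⟨_, rfl⟩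
  have hbpos : 0 < b := by rw [hbdef]; exact lt_min hm0 ha
  have hbm : b ≤ m0 := by rw [hbdef]; exact min_le_left _ _
  have hba : b ≤ a := by rw [hbdef]; exact min_le_right _ _
  obtain ⟨δ, hδ⟩ : ∃ δ, δ = min (1 / 2) (min (1 / (2 * M)) (min (1 / (M * C)) (1 / (2 * R * C)))) :=
    ⟨_, rfl⟩
  have hδpos : 0 < δ := by rw [hδ]; positivity
  have hδ1 : δ ≤ 1 / 2 := by rw [hδ]; exact min_le_left _ _
  have hδ2 : δ ≤ 1 / (2 * M) := by
    rw [hδ]; exact (min_le_right _ _).trans (min_le_left _ _)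
  have hδ3 : δ ≤ 1 / (M * C) := by
    rw [hδ]; exact (min_le_right _ _).trans ((min_le_right _ _).trans (min_le_left _ _))
  have hδ4 : δ ≤ 1 / (2 * R * C) := by
    rw [hδ]; exact (min_le_right _ _).trans ((min_le_right _ _).trans (min_le_right _ _))
  obtain ⟨ε, hε, hε2, hεc, hεe⟩ := small b δ (m0 ^ 2 / (8 * C + 4 * R * C)) hbpos hδpos
    (by positivity)
  have hεc' : ε * (8 * C + 4 * R * C) < m0 ^ 2 := by
    rwa [lt_div_iff₀ (by positivity)] at hεc
  have sm : ∀ t : ℝ, b ≤ t → Real.exp (-(t / ε)) / ε / ε < δ ∧ Real.exp (-(t / ε)) / ε < δ ∧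
      Real.exp (-(t / ε)) < δ := by
    intro t htb
    have h1 : Real.exp (-(t / ε)) ≤ Real.exp (-(b / ε)) := by
      apply Real.exp_le_exp.2
      have : b / ε ≤ t / ε := div_le_div_of_nonneg_right htb hε.le
      linarith
    have h2 : Real.exp (-(t / ε)) / ε / ε < δ := by
      rw [div_div, ← pow_two]
      exact (div_le_div_of_nonneg_right h1 (by positivity)).trans_lt hεe
    have h0 : 0 < Real.exp (-(t / ε)) := Real.exp_pos _
    have h3 : Real.exp (-(t / ε)) / ε ≤ Real.exp (-(t / ε)) / ε / ε := by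
      rw [le_div_iff₀ hε]
      have : 0 ≤ Real.exp (-(t / ε)) / ε := by positivity
      nlinarith
    have h4 : Real.exp (-(t / ε)) ≤ Real.exp (-(t / ε)) / ε := by
      rw [le_div_iff₀ hε]
      nlinarith
    exact ⟨h2, h3.trans_lt h2, (h4.trans h3).trans_lt h2⟩
  have hMδ : M * δ ≤ 1 / 2 := by
    calc M * δ ≤ M * (1 / (2 * M)) := mul_le_mul_of_nonneg_left hδ2 hMpos.le
      _ = 1 / 2 := by field_simp
  have hMCδ : M * δ * C ≤ 1 := by
    calc M * δ * C = (M * C) * δ := by ring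
      _ ≤ (M * C) * (1 / (M * C)) := mul_le_mul_of_nonneg_left hδ3 (by positivity)
      _ = 1 := by field_simp
  have hRCδ : 2 * R * C * δ ≤ 1 := by
    calc 2 * R * C * δ ≤ 2 * R * C * (1 / (2 * R * C)) :=
        mul_le_mul_of_nonneg_left hδ4 (by positivity)
      _ = 1 := by field_simp
  have h4 : 0 ≤ R * |N| := by positivity
  refine ⟨R, T, ε, ⟨hC, hκ, hm0, hRpos, hRκ, ?_, ?_, hε, hεc', ?_, ?_, ?_, ?_, ?_, ?_⟩⟩
  · rw [hT]
    linarith
  · rw [hT]
    have h1 := le_abs_self N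
    have h2 : R * N ≤ R * |N| := mul_le_mul_of_nonneg_left h1 hRpos.le
    have h3 : 0 ≤ R * C := by positivity
    linarith
  · intro t ht
    rw [← hM]
    have h1 := (sm t (hbm.trans ht)).2.1
    have h3 : M * (Real.exp (-(t / ε)) / ε) ≤ M * δ := mul_le_mul_of_nonneg_left h1.le hMpos.le
    linarith
  · intro t ht
    exact ((sm t (hba.trans ht)).2.2.le).trans hδ1
  · intro t ht
    rw [← hM]
    have h1 := (sm t (hba.trans ht)).2.1
    have h3 : M * (Real.exp (-(t / ε)) / ε) ≤ M * δ := mul_le_mul_of_nonneg_left h1.le hMpos.le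
    linarith
  · intro t ht
    rw [← hM]
    have h1 := (sm t (hba.trans ht)).1
    have h3 : M * (Real.exp (-(t / ε)) / ε / ε) ≤ M * δ := mul_le_mul_of_nonneg_left h1.le hMpos.le
    exact (mul_le_mul_of_nonneg_right h3 hCpos.le).trans hMCδ
  · intro t ht
    have h1 := (sm t (hba.trans ht)).2.1
    exact (mul_le_mul_of_nonneg_left h1.le (by positivity)).trans hRCδ
  · intro t ht
    rw [div_lt_one hε] at ht
    linarith

variable {C κ m0 a N R T ε : ℝ}

theorem Con.range (c : Con C κ m0 a N R T ε) {l : ℝ} (hl : |l| ≤ C) :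
    1 ≤ R * l + T ∧ R * l + T ≤ R * C + T := by
  have h1 := abs_le.1 hl
  have hR := c.hR
  have h2 : R * l ≤ R * C := mul_le_mul_of_nonneg_left h1.2 hR.le
  have h3 : R * (-C) ≤ R * l := mul_le_mul_of_nonneg_left h1.1 hR.le
  have h4 := c.hT1
  constructor
  · nlinarith
  · linarith

theorem Con.cA_range (c : Con C κ m0 a N R T ε) {h L : ℂ → ℝ} {z : ℂ} (hL0 : |L z| ≤ C) :
    0 < cA h L R T ε z ∧ Real.exp (-(h z / ε)) / ε ≤ cA h L R T ε z ∧
      cA h L R T ε z ≤ (R * C + T) * (Real.exp (-(h z / ε)) / ε) := by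
  have hε := c.hε
  have h0 : 0 < Real.exp (-(h z / ε)) / ε := by positivity
  obtain ⟨h1, h2⟩ := c.range hL0
  have h3 : Real.exp (-(h z / ε)) / ε ≤ cA h L R T ε z := by
    unfold cA
    have := mul_le_mul_of_nonneg_right h1 h0.le
    linarith
  refine ⟨h0.trans_le h3, h3, ?_⟩
  unfold cA
  exact mul_le_mul_of_nonneg_right h2 h0.le

/-- critical points of the new height -/
theorem Con.crit (c : Con C κ m0 a N R T ε) {h L : ℂ → ℝ} {z : ℂ} (hh : ContDiffAt ℝ ∞ h z)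
    (hL : ContDiffAt ℝ ∞ L z) (h0 : 0 ≤ h z) (ht : h z = 0 → fderiv ℝ h z ≠ 0)
    (hm : h z < m0 → m0 ≤ ‖fderiv ℝ h z‖)
    (b1 : ‖fderiv ℝ h z‖ ≤ C) (b2 : ‖fderiv ℝ (fderiv ℝ h) z‖ ≤ C) (b3 : |L z| ≤ C)
    (b5 : ‖fderiv ℝ (fderiv ℝ L) z‖ ≤ C)
    (hcr : fderiv ℝ (newF h L R T ε) z = 0) :
    0 < h z ∧ ((∃ v, q2 (newF h L R T ε) z v < 0) ∨
      (‖fderiv ℝ L z‖ < κ ∧ ∀ v, ‖v‖ ≤ 1 → ¬ q2 L z v ≤ -κ)) := by
  have hε := c.hε
  have hR := c.hR
  have hCpos : 0 < C := by linarith [c.hC]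
  obtain ⟨hAz, hA1', hA2'⟩ := c.cA_range (h := h) b3
  have hcr' : ∀ v, (1 + cA h L R T ε z) * fderiv ℝ h z v + cg h ε z * R * fderiv ℝ L z v = 0 := by
    intro v
    rw [← fd_newF (diffAt hh) (diffAt hL) R T ε v, hcr]
    rfl
  have hzb : 0 < h z := by
    refine lt_of_le_of_ne h0 fun h2 => ht h2.symm ?_
    ext v
    have h3 := hcr' v
    have h4 : cg h ε z = 0 := by
      unfold cg
      rw [← h2]
      simp
    rw [h4] at h3
    have h5 : (1 + cA h L R T ε z) * fderiv ℝ h z v = 0 := by linarith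
    rcases mul_eq_zero.1 h5 with h6 | h6
    · linarith
    · exact h6
  refine ⟨hzb, ?_⟩
  have hgpos : 0 < cg h ε z := by
    unfold cg
    have h1 : 0 < h z / ε := div_pos hzb hε
    have h2 : Real.exp (-(h z / ε)) < 1 := by
      rw [← Real.exp_zero]
      exact Real.exp_lt_exp.2 (by linarith)
    linarith
  have hg1 : cg h ε z ≤ 1 := by
    unfold cg
    linarith [Real.exp_pos (-(h z / ε))]
  have hcross : ∀ v, 2 * (R * (Real.exp (-(h z / ε)) / ε)) *
      (fderiv ℝ h z v * fderiv ℝ L z v) ≤ 0 := fun v =>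
    cross hR (Real.exp_pos _).le hε hgpos hAz.le (hcr' v)
  have hq : ∀ v, ‖v‖ ≤ 1 → q2 h z v ≤ C ∧ q2 L z v ≤ C := by
    intro v hv
    have h1 := q2_le b2 v
    have h2 := q2_le b5 v
    have h3 : C * ‖v‖ ^ 2 ≤ C := by
      have : ‖v‖ ^ 2 ≤ 1 := pow_le_one₀ (norm_nonneg _) hv
      nlinarith
    exact ⟨(le_abs_self _).trans (h1.trans h3), (le_abs_self _).trans (h2.trans h3)⟩
  by_cases hA1 : 1 ≤ cA h L R T ε z
  · left
    have hlt : h z < m0 := by
      by_contra hcon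
      push Not at hcon
      have h1 := c.M (h z) hcon
      linarith
    obtain ⟨v, hv1, hv2⟩ := exists_dir c.hm0 (hm hlt)
    refine ⟨v, ?_⟩
    rw [q2_newF hh hL]
    have h1 := hcross v
    obtain ⟨h2, h3⟩ := hq v hv1
    have h4 : (1 + cA h L R T ε z) * q2 h z v ≤ 2 * cA h L R T ε z * C := by
      calc (1 + cA h L R T ε z) * q2 h z v ≤ (1 + cA h L R T ε z) * C :=
            mul_le_mul_of_nonneg_left h2 (by linarith)
        _ ≤ 2 * cA h L R T ε z * C := mul_le_mul_of_nonneg_right (by linarith) hCpos.le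
    have h5 : cg h ε z * R * q2 L z v ≤ cA h L R T ε z * (R * C) := by
      calc cg h ε z * R * q2 L z v ≤ cg h ε z * R * C :=
            mul_le_mul_of_nonneg_left h3 (by positivity)
        _ = cg h ε z * (R * C) := by ring
        _ ≤ cA h L R T ε z * (R * C) :=
            mul_le_mul_of_nonneg_right (hg1.trans hA1) (by positivity)
    have h6 : cA h L R T ε z * (2 * C + R * C) < cA h L R T ε z / ε * (fderiv ℝ h z v) ^ 2 := by
      rw [div_mul_eq_mul_div, lt_div_iff₀ hε]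
      have h7 : (2 * C + R * C) * ε < (fderiv ℝ h z v) ^ 2 := by
        calc (2 * C + R * C) * ε = (ε * (8 * C + 4 * R * C)) / 4 := by ring
          _ < m0 ^ 2 / 4 := by linarith [c.hεc]
          _ ≤ _ := hv2
      calc cA h L R T ε z * (2 * C + R * C) * ε = cA h L R T ε z * ((2 * C + R * C) * ε) := by ring
        _ < _ := mul_lt_mul_of_pos_left h7 hAz
    nlinarith
  · push Not at hA1
    have he : Real.exp (-(h z / ε)) / ε < 1 := hA1'.trans_lt hA1
    have hg : 1 / 2 ≤ cg h ε z := by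
      unfold cg
      have := c.eps _ he
      linarith
    by_cases hd : ∃ v, ‖v‖ ≤ 1 ∧ q2 L z v ≤ -κ
    · left
      obtain ⟨v, hv1, hv2⟩ := hd
      refine ⟨v, ?_⟩
      rw [q2_newF hh hL]
      have h1 := hcross v
      obtain ⟨h2, -⟩ := hq v hv1
      have h4 : (1 + cA h L R T ε z) * q2 h z v ≤ 2 * C := by
        calc (1 + cA h L R T ε z) * q2 h z v ≤ (1 + cA h L R T ε z) * C :=
              mul_le_mul_of_nonneg_left h2 (by linarith)
          _ ≤ 2 * C := mul_le_mul_of_nonneg_right (by linarith) hCpos.le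
      have h5 : cg h ε z * R * q2 L z v ≤ -(8 * C) := by
        calc cg h ε z * R * q2 L z v ≤ cg h ε z * R * (-κ) :=
              mul_le_mul_of_nonneg_left hv2 (by positivity)
          _ = -(cg h ε z * (R * κ)) := by ring
          _ ≤ -(8 * C) := by
              rw [c.hRκ]
              nlinarith
      have h6 : 0 ≤ cA h L R T ε z / ε * (fderiv ℝ h z v) ^ 2 := by positivity
      linarith
    · right
      push Not at hd
      refine ⟨?_, fun v hv => not_le.2 (hd v hv)⟩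
      have h1 : ∀ v, ‖fderiv ℝ L z v‖ ≤ (4 * C / R) * ‖v‖ := by
        intro v
        have h2 := hcr' v
        have h3 : fderiv ℝ L z v = -((1 + cA h L R T ε z) * fderiv ℝ h z v) / (cg h ε z * R) := by
          rw [eq_div_iff (by positivity)]
          linarith
        rw [h3, norm_div, norm_neg, norm_mul, Real.norm_eq_abs, Real.norm_eq_abs (cg h ε z * R),
          abs_of_pos (by linarith), abs_of_pos (by positivity), div_le_iff₀ (by positivity)]
        have h4 : ‖fderiv ℝ h z v‖ ≤ C * ‖v‖ :=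
          ((fderiv ℝ h z).le_opNorm v).trans (mul_le_mul_of_nonneg_right b1 (norm_nonneg v))
        calc (1 + cA h L R T ε z) * ‖fderiv ℝ h z v‖ ≤ 2 * (C * ‖v‖) :=
              mul_le_mul (by linarith) h4 (norm_nonneg _) (by norm_num)
          _ = 4 * C / R * ‖v‖ * (1 / 2 * R) := by field_simp; ring
          _ ≤ 4 * C / R * ‖v‖ * (cg h ε z * R) := by
              apply mul_le_mul_of_nonneg_left _ (by positivity)
              exact mul_le_mul_of_nonneg_right hg hR.le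
      have h2 : ‖fderiv ℝ L z‖ ≤ 4 * C / R :=
        ContinuousLinearMap.opNorm_le_bound _ (by positivity) h1
      refine h2.trans_lt ?_
      rw [div_lt_iff₀ hR]
      nlinarith [c.hRκ]

/-- positivity near the cups -/
theorem Con.conv (c : Con C κ m0 a N R T ε) {h L : ℂ → ℝ} {z : ℂ} (hh : ContDiffAt ℝ ∞ h z)
    (hL : ContDiffAt ℝ ∞ L z) (h0 : a ≤ h z)
    (b1 : ‖fderiv ℝ h z‖ ≤ C) (b2 : ‖fderiv ℝ (fderiv ℝ h) z‖ ≤ C) (b3 : |L z| ≤ C)
    (b4 : ‖fderiv ℝ L z‖ ≤ C) (hc : ∀ v, κ * ‖v‖ ^ 2 ≤ q2 L z v) {v : ℂ} (hv : v ≠ 0) :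
    0 < q2 (newF h L R T ε) z v := by
  have hε := c.hε
  have hR := c.hR
  have hCpos : 0 < C := by linarith [c.hC]
  obtain ⟨hAz, hA1', hA2'⟩ := c.cA_range (h := h) b3
  have hn : 0 < ‖v‖ ^ 2 := by positivity
  rw [q2_newF hh hL]
  have hA1 : cA h L R T ε z ≤ 1 := hA2'.trans (c.a2 _ h0)
  have hg : 1 / 2 ≤ cg h ε z := by
    unfold cg
    linarith [c.a1 _ h0]
  have e1 : -(2 * C * ‖v‖ ^ 2) ≤ (1 + cA h L R T ε z) * q2 h z v := by
    have h1 := (abs_le.1 (q2_le b2 v)).1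
    calc -(2 * C * ‖v‖ ^ 2) ≤ (1 + cA h L R T ε z) * (-(C * ‖v‖ ^ 2)) := by
          have : 0 ≤ C * ‖v‖ ^ 2 := by positivity
          nlinarith
      _ ≤ _ := mul_le_mul_of_nonneg_left h1 (by linarith)
  have e2 : 8 * C * ‖v‖ ^ 2 ≤ cg h ε z * R * q2 L z v := by
    have h1 := hc v
    have hκ := c.hκ
    calc 8 * C * ‖v‖ ^ 2 = 1 / 2 * R * (κ * ‖v‖ ^ 2) := by
          have : 1 / 2 * R * (κ * ‖v‖ ^ 2) = 1 / 2 * (R * κ) * ‖v‖ ^ 2 := by ring
          rw [this, c.hRκ]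
          ring
      _ ≤ cg h ε z * R * (κ * ‖v‖ ^ 2) := by
          apply mul_le_mul_of_nonneg_right _ (by positivity)
          exact mul_le_mul_of_nonneg_right hg hR.le
      _ ≤ _ := mul_le_mul_of_nonneg_left h1 (by positivity)
  have hx : |fderiv ℝ h z v| ≤ C * ‖v‖ := by
    rw [← Real.norm_eq_abs]
    exact ((fderiv ℝ h z).le_opNorm v).trans (mul_le_mul_of_nonneg_right b1 (norm_nonneg v))
  have hy : |fderiv ℝ L z v| ≤ C * ‖v‖ := by
    rw [← Real.norm_eq_abs]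
    exact ((fderiv ℝ L z).le_opNorm v).trans (mul_le_mul_of_nonneg_right b4 (norm_nonneg v))
  have e3 : cA h L R T ε z / ε * (fderiv ℝ h z v) ^ 2 ≤ C * ‖v‖ ^ 2 := by
    have h1 : cA h L R T ε z / ε ≤ (R * C + T) * (Real.exp (-(h z / ε)) / ε / ε) := by
      calc cA h L R T ε z / ε ≤ (R * C + T) * (Real.exp (-(h z / ε)) / ε) / ε :=
            div_le_div_of_nonneg_right hA2' hε.le
        _ = _ := by ring
    have h2 : (fderiv ℝ h z v) ^ 2 ≤ (C * ‖v‖) ^ 2 := by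
      rw [← sq_abs (fderiv ℝ h z v)]
      exact pow_le_pow_left₀ (abs_nonneg _) hx 2
    have h3 := c.a3 _ h0
    have h4 : 0 ≤ cA h L R T ε z / ε := by positivity
    calc cA h L R T ε z / ε * (fderiv ℝ h z v) ^ 2 ≤
          (R * C + T) * (Real.exp (-(h z / ε)) / ε / ε) * (C * ‖v‖) ^ 2 :=
          mul_le_mul h1 h2 (sq_nonneg _) (h4.trans h1)
      _ = (R * C + T) * (Real.exp (-(h z / ε)) / ε / ε) * C * (C * ‖v‖ ^ 2) := by ring
      _ ≤ 1 * (C * ‖v‖ ^ 2) := mul_le_mul_of_nonneg_right h3 (by positivity)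
      _ = _ := one_mul _
  have e4 : -(C * ‖v‖ ^ 2) ≤ 2 * (R * (Real.exp (-(h z / ε)) / ε)) *
      (fderiv ℝ h z v * fderiv ℝ L z v) := by
    have h0' : 0 < Real.exp (-(h z / ε)) / ε := by positivity
    have h1 : |fderiv ℝ h z v * fderiv ℝ L z v| ≤ (C * ‖v‖) * (C * ‖v‖) := by
      rw [abs_mul]
      exact mul_le_mul hx hy (abs_nonneg _) (by positivity)
    have h2 : |2 * (R * (Real.exp (-(h z / ε)) / ε)) *
        (fderiv ℝ h z v * fderiv ℝ L z v)| ≤ C * ‖v‖ ^ 2 := by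
      rw [abs_mul, abs_of_pos (by positivity : 0 < 2 * (R * (Real.exp (-(h z / ε)) / ε)))]
      have h3 := c.a4 _ h0
      calc 2 * (R * (Real.exp (-(h z / ε)) / ε)) * |fderiv ℝ h z v * fderiv ℝ L z v|
          ≤ 2 * (R * (Real.exp (-(h z / ε)) / ε)) * ((C * ‖v‖) * (C * ‖v‖)) :=
            mul_le_mul_of_nonneg_left h1 (by positivity)
        _ = 2 * R * C * (Real.exp (-(h z / ε)) / ε) * (C * ‖v‖ ^ 2) := by ring
        _ ≤ 1 * (C * ‖v‖ ^ 2) := mul_le_mul_of_nonneg_right h3 (by positivity)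
        _ = _ := one_mul _
    exact (abs_le.1 h2).1
  have h9 : 0 < C * ‖v‖ ^ 2 := by positivity
  nlinarith

end Run7.h421.RS
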