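import Mathlib
import Pool.Agent.Run7.h421.RSa

/-!
Surfaces in the half-space: finite families of parametrisations.
-/

set_option autoImplicit false

namespace Run7.h421.RS

open scoped ContDiff RealInnerProductSpace Topology
open Set Metric Filter
open Run7.h421.RP
open Pool.Agent.N503.ML (vert vert_three inner_vert norm_vert)

/-- data of a parametrised piece with a marked disc -/
structure Dat where
  φ : ℂ → R4
  U : Set ℂ
  V : Set R4
  z : ℂ
  r : ℝ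
  N : Set R4

/-- pieces without cups -/
def TyA (G : R4 → ℝ) (κ : ℝ) (d : Dat) : Prop :=
  ∀ w ∈ closedBall d.z d.r, κ ≤ ‖fderiv ℝ (fun w => G (d.φ w)) w‖ ∨
    ∃ v, ‖v‖ ≤ 1 ∧ q2 (fun w => G (d.φ w)) w v ≤ -κ

/-- pieces around a cup -/
def TyB (F : Set R4) (G : R4 → ℝ) (κ : ℝ) (p : R4) (d : Dat) : Prop :=
  p ∈ cupsS F G ∧ ∀ w ∈ closedBall d.z d.r, 0 < d.φ w 3 ∧
    ∀ v, κ * ‖v‖ ^ 2 ≤ q2 (fun w => G (d.φ w)) w v

structure LC (F : Set R4) (G : R4 → ℝ) (κ : ℝ) (p : R4) (d : Dat) : Prop where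
  par : Param F d.φ d.U d.V
  sub : closedBall d.z d.r ⊆ d.U
  pos : 0 < d.r
  isOpen : IsOpen d.N
  mem : p ∈ d.N
  cov : F ∩ d.N ⊆ d.φ '' (ball d.z d.r)
  typ : TyA G κ d ∨ TyB F G κ p d

theorem TyA.mono {G : R4 → ℝ} {κ κ' : ℝ} {d : Dat} (h : TyA G κ d) (hk : κ' ≤ κ) : TyA G κ' d := by
  intro w hw
  rcases h w hw with h1 | ⟨v, hv, h1⟩
  · exact Or.inl (hk.trans h1)
  · exact Or.inr ⟨v, hv, h1.trans (neg_le_neg hk)⟩

theorem TyB.mono {F : Set R4} {G : R4 → ℝ} {κ κ' : ℝ} {p : R4} {d : Dat} (h : TyB F G κ p d)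
    (hk : κ' ≤ κ) : TyB F G κ' p d :=
  ⟨h.1, fun w hw => ⟨(h.2 w hw).1, fun v =>
    (mul_le_mul_of_nonneg_right hk (sq_nonneg _)).trans ((h.2 w hw).2 v)⟩⟩

theorem LC.mono {F : Set R4} {G : R4 → ℝ} {κ κ' : ℝ} {p : R4} {d : Dat} (h : LC F G κ p d)
    (hk : κ' ≤ κ) : LC F G κ' p d :=
  ⟨h.par, h.sub, h.pos, h.isOpen, h.mem, h.cov, h.typ.imp (fun a => a.mono hk) fun a => a.mono hk⟩

/-- the image of a small disc is open in the surface -/
theorem exists_nbhd {F : Set R4} {φ : ℂ → R4} {U : Set ℂ} {V : Set R4} (h : Param F φ U V)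
    (hF : ∀ x ∈ F, 0 ≤ x 3) {O : Set ℂ} (hO : IsOpen O) {z : ℂ} (hz : z ∈ U) (hzO : z ∈ O)
    (hzF : φ z ∈ F) : ∃ N : Set R4, IsOpen N ∧ φ z ∈ N ∧ F ∩ N ⊆ φ '' (U ∩ O) ∧ N ⊆ V := by
  have h1 : IsOpen ((fun z : U => (z : ℂ)) ⁻¹' O) := hO.preimage continuous_subtype_val
  rw [h.patch.emb.isInducing.isOpen_iff] at h1
  obtain ⟨N, hN, hN'⟩ := h1
  have hV : φ z ∈ V := by
    have : φ z ∈ φ '' U ∩ {x | 0 ≤ x 3} := ⟨mem_image_of_mem φ hz, hF _ hzF⟩
    rw [← h.eq] at this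
    exact this.2
  refine ⟨V ∩ N, h.isOpen.inter hN, ⟨hV, ?_⟩, ?_, inter_subset_left⟩
  · have h2 : (⟨z, hz⟩ : U) ∈ (fun z : U => φ z) ⁻¹' N := by
      rw [hN']
      exact hzO
    exact h2
  · rintro x ⟨hxF, hxV, hxN⟩
    have h2 : x ∈ φ '' U ∩ {x | 0 ≤ x 3} := by
      rw [← h.eq]
      exact ⟨hxF, hxV⟩
    obtain ⟨⟨w, hw, rfl⟩, -⟩ := h2
    have h3 : (⟨w, hw⟩ : U) ∈ (fun z : U => φ z) ⁻¹' N := hxN
    rw [hN'] at h3
    exact ⟨w, ⟨hw, h3⟩, rfl⟩

theorem Param.at {F : Set R4} {φ : ℂ → R4} {U : Set ℂ} {V : Set R4} (h : Param F φ U V) {z : ℂ}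
    (hz : z ∈ U) : ContDiffAt ℝ ∞ φ z :=
  h.patch.smooth.contDiffAt (h.patch.isOpen.mem_nhds hz)

theorem Param.memF {F : Set R4} {φ : ℂ → R4} {U : Set ℂ} {V : Set R4} (h : Param F φ U V) {z : ℂ}
    (hz : z ∈ U) (h0 : 0 ≤ φ z 3) : φ z ∈ F := by
  have : φ z ∈ φ '' U ∩ {x | 0 ≤ x 3} := ⟨mem_image_of_mem φ hz, h0⟩
  rw [← h.eq] at this
  exact this.1

/-- the choice at one point -/
theorem local_choice {F : Set R4} (hF : TSurf F) {G : R4 → ℝ} (hG : ContDiff ℝ ∞ G)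
    (hg : GoodS F G) {p : R4} (hp : p ∈ F) : ∃ (κ : ℝ) (d : Dat), 0 < κ ∧ LC F G κ p d := by
  obtain ⟨φ, U, V, z, hP, hz, hzp, hcr⟩ := hg p hp
  have hUn : U ∈ 𝓝 z := hP.patch.isOpen.mem_nhds hz
  have hLs : ContDiffOn ℝ ∞ (fun w => G (φ w)) U := hG.comp_contDiffOn hP.patch.smooth
  have c1 : ContinuousAt (fun w => fderiv ℝ (fun w => G (φ w)) w) z :=
    (fd_cont hP.patch.isOpen hLs).continuousAt hUn
  have c2 : ContinuousAt (fun w => fderiv ℝ (fderiv ℝ (fun w => G (φ w))) w) z :=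
    (q2_cont hP.patch.isOpen hLs).continuousAt hUn
  obtain ⟨L, hL⟩ : ∃ L : ℂ → ℝ, L = fun w => G (φ w) := ⟨_, rfl⟩
  -- it is enough to have the properties near `z`
  have key : ∀ (κ : ℝ) (P : ℂ → Prop), 0 < κ → (∀ᶠ w in 𝓝 z, P w) →
      (∀ r N, 0 < r → (∀ w ∈ closedBall z r, P w) →
        TyA G κ ⟨φ, U, V, z, r, N⟩ ∨ TyB F G κ p ⟨φ, U, V, z, r, N⟩) →
      ∃ (κ : ℝ) (d : Dat), 0 < κ ∧ LC F G κ p d := by
    intro κ P hκ hP1 hP2
    obtain ⟨r, hr, hr'⟩ := Metric.nhds_basis_closedBall.mem_iff.1 (hP1.and hUn)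
    obtain ⟨N, hN, hzN, hN2, -⟩ := exists_nbhd hP hF.nonneg (isOpen_ball (x := z) (ε := r)) hz
      (mem_ball_self hr) (by rw [hzp]; exact hp)
    refine ⟨κ, ⟨φ, U, V, z, r, N⟩, hκ, hP, fun w hw => (hr' hw).2, hr, hN, by rw [← hzp]; exact hzN,
      hN2.trans (image_mono inter_subset_right), hP2 r N hr fun w hw => (hr' hw).1⟩
  by_cases h0 : fderiv ℝ (fun w => G (φ w)) z = 0
  · obtain ⟨hp3, h | h⟩ := hcr h0
    · obtain ⟨v, hv⟩ := h
      have hv0 : v ≠ 0 := by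
        rintro rfl
        simp [q2] at hv
      have hn : 0 < ‖v‖ := norm_pos_iff.2 hv0
      have hu : q2 (fun w => G (φ w)) z (‖v‖⁻¹ • v) < 0 := by
        rw [q2_smul]
        exact mul_neg_of_pos_of_neg (by positivity) hv
      obtain ⟨u, hu1, hu2⟩ : ∃ u : ℂ, ‖u‖ ≤ 1 ∧ q2 (fun w => G (φ w)) z u < 0 :=
        ⟨‖v‖⁻¹ • v, by rw [norm_smul, norm_inv, norm_norm, inv_mul_cancel₀ hn.ne'], hu⟩
      have c3 : ContinuousAt (fun w => q2 (fun w => G (φ w)) w u) z := by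
        unfold q2
        exact (c2.clm_apply continuousAt_const).clm_apply continuousAt_const
      have h3 : ∀ᶠ w in 𝓝 z, q2 (fun w => G (φ w)) w u < q2 (fun w => G (φ w)) z u / 2 :=
        c3.eventually (gt_mem_nhds (by linarith))
      refine key (-(q2 (fun w => G (φ w)) z u) / 2) _ (by linarith) h3 fun r N _ hr => Or.inl ?_
      intro w hw
      refine Or.inr ⟨u, hu1, ?_⟩
      have := hr w hw
      simp only
      linarith
    · obtain ⟨κ, hκ, hκ'⟩ := pos_def h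
      have c4 : ∀ a b : ℂ, ContinuousAt
          (fun w => fderiv ℝ (fderiv ℝ (fun w => G (φ w))) w a b) z := fun a b =>
        (c2.clm_apply continuousAt_const).clm_apply continuousAt_const
      have c5 : ContinuousAt (fun w => E2 (fun w => G (φ w)) z w) z := by
        unfold E2
        exact ((((c4 1 1).sub continuousAt_const).abs.add ((c4 1 Complex.I).sub
          continuousAt_const).abs).add ((c4 Complex.I 1).sub continuousAt_const).abs).add
          ((c4 Complex.I Complex.I).sub continuousAt_const).abs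
      have h3 : ∀ᶠ w in 𝓝 z, E2 (fun w => G (φ w)) z w < κ / 2 := by
        refine c5.eventually (gt_mem_nhds ?_)
        have : E2 (fun w => G (φ w)) z z = 0 := by simp [E2]
        show E2 (fun w => G (φ w)) z z < κ / 2
        rw [this]
        positivity
      have h4 : ∀ᶠ w in 𝓝 z, 0 < φ w 3 := by
        have : ContinuousAt (fun w => φ w 3) z :=
          ((coord_contDiff 3).contDiffAt.comp z (hP.at hz)).continuousAt
        exact this.eventually (lt_mem_nhds (by show 0 < φ z 3; rw [hzp]; exact hp3))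
      refine key (κ / 2) _ (by positivity) (h3.and h4) fun r N _ hr => Or.inr ⟨?_, ?_⟩
      · exact ⟨hp, hp3, φ, U, V, z, hP, hz, hzp, h0, h⟩
      · intro w hw
        obtain ⟨h5, h6⟩ := hr w hw
        refine ⟨h6, fun v => ?_⟩
        have h7 : |q2 (fun w => G (φ w)) w v - q2 (fun w => G (φ w)) z v| ≤ κ / 2 * ‖v‖ ^ 2 :=
          (q2_diff _ z w v).trans (mul_le_mul_of_nonneg_right h5.le (sq_nonneg _))
        have h8 := hκ' v
        have h9 := (abs_le.1 h7).1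
        simp only
        linarith
  · have hn : 0 < ‖fderiv ℝ (fun w => G (φ w)) z‖ := norm_pos_iff.2 h0
    have h3 : ∀ᶠ w in 𝓝 z, ‖fderiv ℝ (fun w => G (φ w)) z‖ / 2 <
        ‖fderiv ℝ (fun w => G (φ w)) w‖ := c1.norm.eventually (lt_mem_nhds (by linarith))
    exact key _ _ (by linarith) h3 fun r N _ hr => Or.inl fun w hw => Or.inl (hr w hw).le

theorem fin_max {ι : Type*} (t : Finset ι) (P : ι → ℝ → Prop)
    (mono : ∀ i C C', C ≤ C' → P i C → P i C') (h : ∀ i ∈ t, ∃ C, P i C) :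
    ∃ C, 1 ≤ C ∧ ∀ i ∈ t, P i C := by
  classical
  induction t using Finset.induction_on with
  | empty => exact ⟨1, le_rfl, by simp⟩
  | insert a s ha ih =>
    obtain ⟨C, hC, h1⟩ := ih fun i hi => h i (Finset.mem_insert_of_mem hi)
    obtain ⟨C', h2⟩ := h a (Finset.mem_insert_self a s)
    refine ⟨max C C', hC.trans (le_max_left _ _), fun i hi => ?_⟩
    rcases Finset.mem_insert.1 hi with rfl | hi
    · exact mono _ _ _ (le_max_right _ _) h2
    · exact mono _ _ _ (le_max_left _ _) (h1 i hi)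

theorem fin_min {ι : Type*} (t : Finset ι) (P : ι → ℝ → Prop)
    (mono : ∀ i C C', C' ≤ C → P i C → P i C') (h : ∀ i ∈ t, ∃ C, 0 < C ∧ P i C) :
    ∃ C, 0 < C ∧ ∀ i ∈ t, P i C := by
  classical
  induction t using Finset.induction_on with
  | empty => exact ⟨1, one_pos, by simp⟩
  | insert a s ha ih =>
    obtain ⟨C, hC, h1⟩ := ih fun i hi => h i (Finset.mem_insert_of_mem hi)
    obtain ⟨C', hC', h2⟩ := h a (Finset.mem_insert_self a s)
    refine ⟨min C C', lt_min hC hC', fun i hi => ?_⟩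
    rcases Finset.mem_insert.1 hi with rfl | hi
    · exact mono _ _ _ (min_le_right _ _) h2
    · exact mono _ _ _ (min_le_left _ _) (h1 i hi)

/-- a finite family of pieces -/
theorem family {F : Set R4} (hF : TSurf F) {G : R4 → ℝ} (hG : ContDiff ℝ ∞ G)
    (hg : GoodS F G) : ∃ (t : Finset R4) (d : R4 → Dat) (κ : ℝ), 0 < κ ∧
      (∀ p ∈ t, LC F G κ p (d p)) ∧ ∀ x ∈ F, ∃ p ∈ t, x ∈ (d p).N := by
  have h1 : ∀ p : R4, ∃ (κ : ℝ) (d : Dat), p ∈ F → 0 < κ ∧ LC F G κ p d := by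
    intro p
    by_cases hp : p ∈ F
    · obtain ⟨κ, d, h⟩ := local_choice hF hG hg hp
      exact ⟨κ, d, fun _ => h⟩
    · exact ⟨1, ⟨0, ∅, ∅, 0, 0, ∅⟩, fun h => absurd h hp⟩
  choose κ d hd using h1
  obtain ⟨t, ht, htc⟩ := hF.compact.elim_nhds_subcover (fun p => (d p).N)
    (fun p hp => (hd p hp).2.isOpen.mem_nhds (hd p hp).2.mem)
  obtain ⟨k, hk, hk'⟩ := fin_min t (fun p k => k ≤ κ p) (fun _ _ _ h h' => h.trans h')
    (fun p hp => ⟨κ p, (hd p (ht p hp)).1, le_rfl⟩)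
  refine ⟨t, d, k, hk, fun p hp => (hd p (ht p hp)).2.mono (hk' p hp), fun x hx => ?_⟩
  obtain ⟨p, hp, hxp⟩ := mem_iUnion₂.1 (htc hx)
  exact ⟨p, hp, hxp⟩

/-- bounds on a compact set -/
theorem bounds' {f : ℂ → ℝ} {W K : Set ℂ} (hK : IsCompact K) (hW : IsOpen W) (hWs : K ⊆ W)
    (hs : ContDiffOn ℝ ∞ f W) : ∃ C : ℝ, ∀ z ∈ K,
      |f z| ≤ C ∧ ‖fderiv ℝ f z‖ ≤ C ∧ ‖fderiv ℝ (fderiv ℝ f) z‖ ≤ C := by
  obtain ⟨C0, h0⟩ := hK.exists_bound_of_continuousOn (hs.continuousOn.mono hWs)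
  obtain ⟨C1, h1⟩ := hK.exists_bound_of_continuousOn ((fd_cont hW hs).mono hWs)
  have hq : ContinuousOn (fun z => ‖fderiv ℝ (fderiv ℝ f) z‖) K :=
    ContinuousOn.norm (E := ℂ →L[ℝ] ℂ →L[ℝ] ℝ) ((q2_cont hW hs).mono hWs)
  obtain ⟨C2, h2⟩ := hK.exists_bound_of_continuousOn hq
  refine ⟨max C0 (max C1 C2), fun z hz => ⟨?_, ?_, ?_⟩⟩
  · exact (h0 z hz).trans (le_max_left _ _)
  · exact (h1 z hz).trans ((le_max_left _ _).trans (le_max_right _ _))
  · have := h2 z hz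
    rw [Real.norm_eq_abs] at this
    exact ((le_abs_self _).trans this).trans ((le_max_right _ _).trans (le_max_right _ _))

/-- the bounds for the family -/
structure Bd (F : Set R4) (G : R4 → ℝ) (t : Finset R4) (d : R4 → Dat) (C m0 a N : ℝ) : Prop where
  hC : 1 ≤ C
  hm0 : 0 < m0
  ha : 0 < a
  bd : ∀ p ∈ t, ∀ w ∈ closedBall (d p).z (d p).r,
    ‖fderiv ℝ (fun w => (d p).φ w 3) w‖ ≤ C ∧
    ‖fderiv ℝ (fderiv ℝ (fun w => (d p).φ w 3)) w‖ ≤ C ∧
    |G ((d p).φ w)| ≤ C ∧ ‖fderiv ℝ (fun w => G ((d p).φ w)) w‖ ≤ C ∧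
    ‖fderiv ℝ (fderiv ℝ (fun w => G ((d p).φ w))) w‖ ≤ C
  bdF : ∀ x ∈ F, |G x| ≤ C
  reg : ∀ p ∈ t, ∀ w ∈ closedBall (d p).z (d p).r, 0 ≤ (d p).φ w 3 → (d p).φ w 3 < m0 →
    m0 ≤ ‖fderiv ℝ (fun w => (d p).φ w 3) w‖
  low : ∀ p ∈ t, (∀ w ∈ closedBall (d p).z (d p).r, 0 < (d p).φ w 3) →
    ∀ w ∈ closedBall (d p).z (d p).r, a ≤ (d p).φ w 3
  hN : ∀ x ∈ F, fderiv ℝ G x x - x 3 * fderiv ℝ G x vert - G x ≤ N

theorem exists_bd {F : Set R4} (hF : TSurf F) {G : R4 → ℝ} (hG : ContDiff ℝ ∞ G) {κ : ℝ}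
    {t : Finset R4} {d : R4 → Dat} (hd : ∀ p ∈ t, LC F G κ p (d p)) :
    ∃ C m0 a N : ℝ, Bd F G t d C m0 a N := by
  have hh : ∀ p ∈ t, ContDiffOn ℝ ∞ (fun w => (d p).φ w 3) (d p).U := fun p hp =>
    (coord_contDiff 3).comp_contDiffOn (hd p hp).par.patch.smooth
  have hL : ∀ p ∈ t, ContDiffOn ℝ ∞ (fun w => G ((d p).φ w)) (d p).U := fun p hp =>
    hG.comp_contDiffOn (hd p hp).par.patch.smooth
  -- `C`
  obtain ⟨C1, hC1, hC1'⟩ := fin_max t (fun p C => ∀ w ∈ closedBall (d p).z (d p).r,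
    ‖fderiv ℝ (fun w => (d p).φ w 3) w‖ ≤ C ∧
    ‖fderiv ℝ (fderiv ℝ (fun w => (d p).φ w 3)) w‖ ≤ C ∧
    |G ((d p).φ w)| ≤ C ∧ ‖fderiv ℝ (fun w => G ((d p).φ w)) w‖ ≤ C ∧
    ‖fderiv ℝ (fderiv ℝ (fun w => G ((d p).φ w))) w‖ ≤ C)
    (fun i C C' hCC h w hw => by
      obtain ⟨a, b, c, e, f⟩ := h w hw
      exact ⟨a.trans hCC, b.trans hCC, c.trans hCC, e.trans hCC, f.trans hCC⟩)
    (fun p hp => by
      have hK := isCompact_closedBall (d p).z (d p).r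
      obtain ⟨A, hA⟩ := bounds' hK (hd p hp).par.patch.isOpen (hd p hp).sub (hh p hp)
      obtain ⟨B, hB⟩ := bounds' hK (hd p hp).par.patch.isOpen (hd p hp).sub (hL p hp)
      refine ⟨max A B, fun w hw => ?_⟩
      obtain ⟨-, a1, a2⟩ := hA w hw
      obtain ⟨b0, b1, b2⟩ := hB w hw
      exact ⟨a1.trans (le_max_left _ _), a2.trans (le_max_left _ _), b0.trans (le_max_right _ _),
        b1.trans (le_max_right _ _), b2.trans (le_max_right _ _)⟩)
  obtain ⟨C2, hC2⟩ := hF.compact.exists_bound_of_continuousOn (f := G) hG.continuous.continuousOn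
  -- `m0`
  obtain ⟨m0, hm0, hm0'⟩ := fin_min t (fun p m => ∀ w ∈ closedBall (d p).z (d p).r,
    0 ≤ (d p).φ w 3 → m ≤ max ((d p).φ w 3) ‖fderiv ℝ (fun w => (d p).φ w 3) w‖)
    (fun i C C' hCC h w hw h0 => hCC.trans (h w hw h0))
    (fun p hp => by
      have c0 : ContinuousOn (fun w => (d p).φ w 3) (closedBall (d p).z (d p).r) :=
        (hh p hp).continuousOn.mono (hd p hp).sub
      have c1 : ContinuousOn (fun w => max ((d p).φ w 3) ‖fderiv ℝ (fun w => (d p).φ w 3) w‖)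
          (closedBall (d p).z (d p).r) :=
        continuous_max.comp_continuousOn (c0.prodMk
          ((fd_cont (hd p hp).par.patch.isOpen (hh p hp)).mono (hd p hp).sub).norm)
      have hK : IsCompact (closedBall (d p).z (d p).r ∩ {w | 0 ≤ (d p).φ w 3}) := by
        have h1 : IsClosed (closedBall (d p).z (d p).r ∩ (fun w => (d p).φ w 3) ⁻¹' Ici 0) :=
          c0.preimage_isClosed_of_isClosed isClosed_closedBall isClosed_Ici
        exact (isCompact_closedBall (d p).z (d p).r).of_isClosed_subset h1 inter_subset_left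
      obtain ⟨a, ha, ha'⟩ := hK.exists_forall_le' (c1.mono inter_subset_left) (a := 0) (by
        rintro w ⟨hw, hw0⟩
        rcases eq_or_lt_of_le (show 0 ≤ (d p).φ w 3 from hw0) with h1 | h1
        · exact lt_max_of_lt_right (norm_pos_iff.2
            ((hd p hp).par.patch.transv w ((hd p hp).sub hw) h1.symm))
        · exact lt_max_of_lt_left h1)
      exact ⟨a, ha, fun w hw h0 => ha' w ⟨hw, h0⟩⟩)
  -- `a`
  obtain ⟨a, ha, ha'⟩ := fin_min t (fun p a => (∀ w ∈ closedBall (d p).z (d p).r,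
    0 < (d p).φ w 3) → ∀ w ∈ closedBall (d p).z (d p).r, a ≤ (d p).φ w 3)
    (fun i C C' hCC h h0 w hw => hCC.trans (h h0 w hw))
    (fun p hp => by
      by_cases h0 : ∀ w ∈ closedBall (d p).z (d p).r, 0 < (d p).φ w 3
      · obtain ⟨a, ha, ha'⟩ := (isCompact_closedBall (d p).z (d p).r).exists_forall_le'
          ((hh p hp).continuousOn.mono (hd p hp).sub) (a := 0) h0
        exact ⟨a, ha, fun _ => ha'⟩
      · exact ⟨1, one_pos, fun h => absurd h h0⟩)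
  -- `N`
  obtain ⟨N, hN⟩ := hF.compact.exists_bound_of_continuousOn
    (f := fun x => fderiv ℝ G x x - x 3 * fderiv ℝ G x vert - G x) (by
      have c1 : Continuous (fderiv ℝ G) := hG.continuous_fderiv (by simp)
      have c3 : Continuous (fun x : R4 => x 3) := (coord_contDiff 3).continuous
      exact (((c1.clm_apply continuous_id).sub (c3.mul (c1.clm_apply continuous_const))).sub
        hG.continuous).continuousOn)
  refine ⟨max C1 C2, m0, a, N, hC1.trans (le_max_left _ _), hm0, ha, ?_, ?_, ?_, ha', ?_⟩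
  · intro p hp w hw
    obtain ⟨a, b, c, e, f⟩ := hC1' p hp w hw
    exact ⟨a.trans (le_max_left _ _), b.trans (le_max_left _ _), c.trans (le_max_left _ _),
      e.trans (le_max_left _ _), f.trans (le_max_left _ _)⟩
  · intro x hx
    exact (hC2 x hx).trans (le_max_right _ _)
  · intro p hp w hw h0 hlt
    rcases le_max_iff.1 (hm0' p hp w hw h0) with h1 | h1
    · exact absurd hlt (not_lt.2 h1)
    · exact h1
  · intro x hx
    have := hN x hx
    rw [Real.norm_eq_abs] at this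
    exact (le_abs_self _).trans this

end Run7.h421.RS
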