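import Mathlib
import Pool.Agent.Run7.h421.RSb

/-!
Surfaces in the half-space: images under diffeomorphisms.
-/

set_option autoImplicit false

namespace Run7.h421.RS

open scoped ContDiff RealInnerProductSpace Topology
open Set Metric Filter
open Run7.h421.RP
open Pool.Agent.N503.ML (vert vert_three inner_vert norm_vert)

/-- the conditions on the diffeomorphism -/
structure Dif (Θ : R4 → R4) (D : Set R4) : Prop where
  smooth : ContDiff ℝ ∞ Θ
  isOpen : IsOpen D
  inj : InjOn Θ D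
  imm : ∀ x ∈ D, Function.Injective (fderiv ℝ Θ x)
  sign : ∀ x ∈ D, (0 ≤ Θ x 3 ↔ 0 ≤ x 3) ∧ (Θ x 3 = 0 ↔ x 3 = 0)
  tr : ∀ x ∈ D, x 3 = 0 → ∃ c : ℝ, c ≠ 0 ∧ ∀ v, (fderiv ℝ Θ x v) 3 = c * v 3

theorem strict {Θ : R4 → R4} (h : ContDiff ℝ ∞ Θ) (x : R4) :
    HasStrictFDerivAt Θ (fderiv ℝ Θ x) x :=
  h.contDiffAt.hasStrictFDerivAt (by simp)

theorem det_ne {L : R4 →L[ℝ] R4} (h : Function.Injective L) : L.det ≠ 0 := by
  have h1 : LinearMap.ker (L : R4 →ₗ[ℝ] R4) = ⊥ := LinearMap.ker_eq_bot.2 h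
  intro h0
  have h2 : LinearMap.det (L : R4 →ₗ[ℝ] R4) = 0 := h0
  exact absurd h1 (LinearMap.bot_lt_ker_of_det_eq_zero h2).ne'

theorem local_inj {Θ : R4 → R4} (h : ContDiff ℝ ∞ Θ) {x : R4}
    (hi : Function.Injective (fderiv ℝ Θ x)) : ∃ u ∈ 𝓝 x, InjOn Θ u := by
  have h3 := strict h x
  let e : R4 ≃L[ℝ] R4 := (fderiv ℝ Θ x).toContinuousLinearEquivOfDetNeZero (det_ne hi)
  have he : (e : R4 →L[ℝ] R4) = fderiv ℝ Θ x := by
    ext1 v
    rfl
  have h5 : HasStrictFDerivAt Θ (e : R4 →L[ℝ] R4) x := by rw [he]; exact h3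
  let p := h5.toOpenPartialHomeomorph Θ
  exact ⟨p.source, p.open_source.mem_nhds h5.mem_toOpenPartialHomeomorph_source, p.injOn⟩

theorem open_image {Θ : R4 → R4} (h : ContDiff ℝ ∞ Θ) {W : Set R4} (hW : IsOpen W)
    (hi : ∀ x ∈ W, Function.Injective (fderiv ℝ Θ x)) : IsOpen (Θ '' W) := by
  rw [isOpen_iff_mem_nhds]
  rintro _ ⟨x, hx, rfl⟩
  have h1 := strict h x
  have h2 : Function.Surjective (fderiv ℝ Θ x) :=
    (LinearMap.injective_iff_surjective (f := (fderiv ℝ Θ x).toLinearMap)).1 (hi x hx)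
  have h3 := h1.map_nhds_eq_of_surj (LinearMap.range_eq_top.2 h2)
  rw [← h3]
  exact image_mem_map (hW.mem_nhds hx)

theorem comp_fd {Θ : R4 → R4} (h : ContDiff ℝ ∞ Θ) {φ : ℂ → R4} {z : ℂ}
    (hφ : DifferentiableAt ℝ φ z) :
    HasFDerivAt (fun w => Θ (φ w)) ((fderiv ℝ Θ (φ z)).comp (fderiv ℝ φ z)) z :=
  ((h.differentiable (by simp)) (φ z)).hasFDerivAt.comp z hφ.hasFDerivAt

theorem Param.image {F : Set R4} {φ : ℂ → R4} {U : Set ℂ} {V : Set R4} (h : Param F φ U V)
    {Θ : R4 → R4} {D : Set R4} (hD : Dif Θ D) (hFD : F ⊆ D) :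
    Param (Θ '' F) (fun w => Θ (φ w)) (U ∩ φ ⁻¹' D) (Θ '' (V ∩ D)) := by
  have hUo : IsOpen (U ∩ φ ⁻¹' D) :=
    h.patch.smooth.continuousOn.isOpen_inter_preimage h.patch.isOpen hD.isOpen
  refine ⟨⟨hUo, ?_, ?_, ?_, ?_⟩, ?_, ?_⟩
  · exact hD.smooth.comp_contDiffOn (h.patch.smooth.mono inter_subset_left)
  · intro z hz
    rw [(comp_fd hD.smooth (diffAt (h.at hz.1))).fderiv]
    exact (hD.imm _ hz.2).comp (h.patch.imm z hz.1)
  · -- embedding
    have hΘ : Topology.IsOpenEmbedding (fun x : D => Θ x) := by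
      refine Topology.IsOpenEmbedding.of_continuous_injective_isOpenMap
        (hD.smooth.continuous.comp continuous_subtype_val) (fun a b hab => ?_) (fun W hW => ?_)
      · exact Subtype.ext (hD.inj a.2 b.2 hab)
      · have h1 : (fun x : D => Θ x) '' W = Θ '' ((fun x : D => (x : R4)) '' W) := by
          rw [image_image]
        rw [h1]
        refine open_image hD.smooth (hD.isOpen.isOpenMap_subtype_val W hW) ?_
        rintro _ ⟨x, -, rfl⟩
        exact hD.imm _ x.2
    have hφ : Topology.IsEmbedding (fun z : (U ∩ φ ⁻¹' D : Set ℂ) => φ z) :=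
      h.patch.emb.comp (Topology.IsEmbedding.inclusion inter_subset_left)
    have hφ' : Topology.IsEmbedding
        (fun z : (U ∩ φ ⁻¹' D : Set ℂ) => (⟨φ z, z.2.2⟩ : D)) :=
      hφ.codRestrict D (fun z => z.2.2)
    exact hΘ.isEmbedding.comp hφ'
  · intro z hz h0
    have h1 : φ z 3 = 0 := (hD.sign _ hz.2).2.1 h0
    obtain ⟨c, hc, hc'⟩ := hD.tr _ hz.2 h1
    intro h2
    apply h.patch.transv z hz.1 h1
    ext v
    have h3 := coord_fd' (comp_fd hD.smooth (diffAt (h.at hz.1))).differentiableAt 3 v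
    rw [h2, (comp_fd hD.smooth (diffAt (h.at hz.1))).fderiv] at h3
    have h4 : (0 : ℝ) = (fderiv ℝ Θ (φ z) (fderiv ℝ φ z v)) 3 := h3
    rw [hc', ← coord_fd' (diffAt (h.at hz.1)) 3 v] at h4
    exact (mul_eq_zero.1 h4.symm).resolve_left hc
  · exact open_image hD.smooth (h.isOpen.inter hD.isOpen) fun x hx => hD.imm x hx.2
  · ext y
    constructor
    · rintro ⟨⟨x, hx, rfl⟩, x', hx', hxx⟩
      have h1 : x' = x := hD.inj hx'.2 (hFD hx) hxx
      rw [h1] at hx'
      have h2 : x ∈ φ '' U ∩ {x | 0 ≤ x 3} := by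
        rw [← h.eq]
        exact ⟨hx, hx'.1⟩
      obtain ⟨⟨z, hz, rfl⟩, h3⟩ := h2
      exact ⟨⟨z, ⟨hz, hx'.2⟩, rfl⟩, (hD.sign _ hx'.2).1.2 h3⟩
    · rintro ⟨⟨z, hz, rfl⟩, h0⟩
      have h1 : φ z ∈ F ∩ V := by
        rw [h.eq]
        exact ⟨mem_image_of_mem φ hz.1, (hD.sign _ hz.2).1.1 h0⟩
      exact ⟨mem_image_of_mem Θ h1.1, mem_image_of_mem Θ ⟨h1.2, hz.2⟩⟩

theorem Dif.surf {F : Set R4} (hF : TSurf F) {Θ : R4 → R4} {D : Set R4} (hD : Dif Θ D)
    (hFD : F ⊆ D) : TSurf (Θ '' F) := by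
  refine ⟨hF.compact.image hD.smooth.continuous, ?_, ?_⟩
  · rintro _ ⟨x, hx, rfl⟩
    exact (hD.sign x (hFD hx)).1.2 (hF.nonneg x hx)
  · rintro _ ⟨x, hx, rfl⟩
    obtain ⟨φ, U, V, hP, hV⟩ := hF.loc x hx
    exact ⟨_, _, _, hP.image hD hFD, mem_image_of_mem Θ ⟨hV, hFD hx⟩⟩

/-! ### The vertical push -/

/-- the amount of the push -/
noncomputable def push (G : R4 → ℝ) (R T ε : ℝ) (x : R4) : ℝ :=
  (R * G x + T) * (1 - Real.exp (-(x 3 / ε)))

theorem push_smooth {G : R4 → ℝ} (hG : ContDiff ℝ ∞ G) (R T ε : ℝ) :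
    ContDiff ℝ ∞ (push G R T ε) := by
  unfold push
  exact ((contDiff_const.mul hG).add contDiff_const).mul
    (contDiff_const.sub ((coord_contDiff 3).div_const ε).neg.exp)

theorem push_fd {G : R4 → ℝ} (hG : ContDiff ℝ ∞ G) (R T ε : ℝ) (x v : R4) :
    fderiv ℝ (push G R T ε) x v = (1 - Real.exp (-(x 3 / ε))) * (R * fderiv ℝ G x v) +
      (R * G x + T) * (Real.exp (-(x 3 / ε)) / ε) * v 3 := by
  have h1 : HasFDerivAt G (fderiv ℝ G x) x := ((hG.differentiable (by simp)) x).hasFDerivAt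
  have h2 : HasFDerivAt (fun x : R4 => x 3) (EuclideanSpace.proj 3 : R4 →L[ℝ] ℝ) x :=
    (EuclideanSpace.proj 3 : R4 →L[ℝ] ℝ).hasFDerivAt
  have h4 : HasFDerivAt (fun w : R4 => -(w 3 / ε))
      (-((ε⁻¹) • (EuclideanSpace.proj 3 : R4 →L[ℝ] ℝ))) x := by
    have e : (fun w : R4 => -(w 3 / ε)) = -fun y : R4 => y 3 * ε⁻¹ := by
      funext y
      simp [div_eq_mul_inv]
    rw [e]
    exact (h2.mul_const ε⁻¹).neg
  have h5 := ((h1.const_mul R).add_const T).mul (h4.exp.const_sub 1)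
  have h6 : HasFDerivAt (push G R T ε) _ x := h5
  rw [h6.fderiv]
  simp only [ContinuousLinearMap.add_apply, ContinuousLinearMap.smul_apply,
    ContinuousLinearMap.neg_apply, smul_eq_mul]
  have h7 : (EuclideanSpace.proj 3 : R4 →L[ℝ] ℝ) v = v 3 := rfl
  rw [h7]
  ring

/-- the vertical push -/
noncomputable def Th (G : R4 → ℝ) (R T ε : ℝ) (x : R4) : R4 := x + push G R T ε x • vert

theorem Th_smooth {G : R4 → ℝ} (hG : ContDiff ℝ ∞ G) (R T ε : ℝ) :
    ContDiff ℝ ∞ (Th G R T ε) := contDiff_id.add ((push_smooth hG R T ε).smul contDiff_const)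

theorem Th_three (G : R4 → ℝ) (R T ε : ℝ) (x : R4) :
    Th G R T ε x 3 = x 3 + (R * G x + T) * (1 - Real.exp (-(x 3 / ε))) := by
  unfold Th push
  rw [PiLp.add_apply, PiLp.smul_apply, vert_three]
  simp

theorem Th_fd {G : R4 → ℝ} (hG : ContDiff ℝ ∞ G) (R T ε : ℝ) (x v : R4) :
    fderiv ℝ (Th G R T ε) x v = v + (fderiv ℝ (push G R T ε) x v) • vert := by
  have h1 : HasFDerivAt (push G R T ε) (fderiv ℝ (push G R T ε) x) x :=
    (((push_smooth hG R T ε).differentiable (by simp)) x).hasFDerivAt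
  have h2 : HasFDerivAt (Th G R T ε)
      (ContinuousLinearMap.id ℝ R4 + (fderiv ℝ (push G R T ε) x).smulRight vert) x :=
    (hasFDerivAt_id x).add (h1.smul_const vert)
  rw [h2.fderiv]
  rfl

theorem Th_dif {F : Set R4} (hF : TSurf F) {G : R4 → ℝ} (hG : ContDiff ℝ ∞ G)
    (hv : ∀ x, 0 ≤ fderiv ℝ G x vert) {R T ε : ℝ} (hR : 0 ≤ R) (hε : 0 < ε)
    (hpos : ∀ x ∈ F, 0 < R * G x + T) : ∃ D, F ⊆ D ∧ Dif (Th G R T ε) D := by
  have hs := Th_smooth hG R T ε
  -- injectivity of the derivative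
  have himm : ∀ x ∈ F, Function.Injective (fderiv ℝ (Th G R T ε) x) := by
    intro x hx
    rw [injective_iff_map_eq_zero]
    intro v hv0
    rw [Th_fd hG] at hv0
    have e1 : v = (-fderiv ℝ (push G R T ε) x v) • vert := by
      rw [neg_smul]
      exact eq_neg_of_add_eq_zero_left hv0
    have e2 : v 3 = -fderiv ℝ (push G R T ε) x v := by
      have := congrArg (fun x : R4 => x 3) e1
      simp only [PiLp.smul_apply, vert_three, smul_eq_mul, mul_one] at this
      exact this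
    have e3 : v = v 3 • vert := by rw [e2]; exact e1
    have e4 : fderiv ℝ G x v = v 3 * fderiv ℝ G x vert := by
      conv_lhs => rw [e3]
      rw [map_smul, smul_eq_mul]
    rw [push_fd hG, e4] at e2
    have h1 := hpos x hx
    have h2 := exp_le_one hε (hF.nonneg x hx)
    have h3 : 0 ≤ (1 - Real.exp (-(x 3 / ε))) * (R * fderiv ℝ G x vert) :=
      mul_nonneg (by linarith) (mul_nonneg hR (hv x))
    have h4 : 0 ≤ (R * G x + T) * (Real.exp (-(x 3 / ε)) / ε) := by positivity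
    have e5 : v 3 * (1 + (1 - Real.exp (-(x 3 / ε))) * (R * fderiv ℝ G x vert) +
        (R * G x + T) * (Real.exp (-(x 3 / ε)) / ε)) = 0 := by linear_combination e2
    have e6 : v 3 = 0 := by
      rcases mul_eq_zero.1 e5 with h | h
      · exact h
      · exfalso
        linarith
    rw [e3, e6, zero_smul]
  -- injectivity on the surface
  have hup : ∀ x ∈ F, ∀ c : ℝ, 0 < c → x + c • vert ∈ F →
      Th G R T ε x 3 < Th G R T ε (x + c • vert) 3 := by
    intro x hx c hc hx'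
    rw [Th_three, Th_three]
    have h3 : (x + c • vert) 3 = x 3 + c := by
      rw [PiLp.add_apply, PiLp.smul_apply, vert_three]
      simp
    rw [h3]
    have hG' : G x ≤ G (x + c • vert) := mono_vert hG hv _ hc.le
    have e1 : Real.exp (-((x 3 + c) / ε)) < Real.exp (-(x 3 / ε)) := exp_lt hε (by linarith)
    have e2 : Real.exp (-((x 3 + c) / ε)) ≤ 1 := exp_le_one hε (by
      have := hF.nonneg x hx
      linarith)
    have e3 := hpos x hx
    have e4 : R * G x ≤ R * G (x + c • vert) := mul_le_mul_of_nonneg_left hG' hR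
    have e5 : (R * G x + T) * (1 - Real.exp (-(x 3 / ε))) ≤
        (R * G x + T) * (1 - Real.exp (-((x 3 + c) / ε))) :=
      mul_le_mul_of_nonneg_left (by linarith) e3.le
    have e6 : (R * G x + T) * (1 - Real.exp (-((x 3 + c) / ε))) ≤
        (R * G (x + c • vert) + T) * (1 - Real.exp (-((x 3 + c) / ε))) :=
      mul_le_mul_of_nonneg_right (by linarith) (by linarith)
    linarith
  have hinj : InjOn (Th G R T ε) F := by
    have key : ∀ x ∈ F, ∀ y ∈ F, Th G R T ε x = Th G R T ε y →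
        ¬ 0 < push G R T ε x - push G R T ε y := by
      intro x hx y hy hxy hc
      have e1 : y = x + (push G R T ε x - push G R T ε y) • vert := by
        unfold Th at hxy
        rw [sub_smul, ← add_sub_assoc, hxy]
        abel
      have h1 := hup x hx _ hc (by rw [← e1]; exact hy)
      rw [← e1, hxy] at h1
      exact lt_irrefl _ h1
    intro x hx y hy hxy
    have h1 := key x hx y hy hxy
    have h2 := key y hy x hx hxy.symm
    have h3 : push G R T ε x = push G R T ε y := le_antisymm (by linarith) (by linarith)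
    unfold Th at hxy
    rw [h3] at hxy
    exact add_right_cancel hxy
  obtain ⟨D3, hD3o, hFD3, hD3⟩ := hinj.exists_isOpen_superset hF.compact
    (fun x _ => hs.continuous.continuousAt) (fun x hx => local_inj hs (himm x hx))
  have hD1o : IsOpen {x : R4 | 0 < R * G x + T} :=
    isOpen_lt continuous_const ((continuous_const.mul hG.continuous).add continuous_const)
  have hD2o : IsOpen ((fun x => fderiv ℝ (Th G R T ε) x) ⁻¹'
      {L : R4 →L[ℝ] R4 | Function.Injective L}) :=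
    ContinuousLinearMap.isOpen_injective.preimage (hs.continuous_fderiv (by simp))
  refine ⟨({x : R4 | 0 < R * G x + T} ∩ (fun x => fderiv ℝ (Th G R T ε) x) ⁻¹'
      {L : R4 →L[ℝ] R4 | Function.Injective L}) ∩ D3,
    fun x hx => ⟨⟨hpos x hx, himm x hx⟩, hFD3 hx⟩, hs, (hD1o.inter hD2o).inter hD3o,
    hD3.mono inter_subset_right, fun x hx => hx.1.2, ?_, ?_⟩
  · rintro x ⟨⟨hx, -⟩, -⟩
    have hx' : 0 < R * G x + T := hx
    rw [Th_three]
    rcases lt_trichotomy (x 3) 0 with h | h | h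
    · have h1 : 1 < Real.exp (-(x 3 / ε)) := by
        rw [← Real.exp_zero]
        have : x 3 / ε < 0 := div_neg_of_neg_of_pos h hε
        exact Real.exp_lt_exp.2 (by linarith)
      have h2 : (R * G x + T) * (1 - Real.exp (-(x 3 / ε))) < 0 :=
        mul_neg_of_pos_of_neg hx' (by linarith)
      constructor
      · constructor
        · intro h3; linarith
        · intro h3; linarith
      · constructor
        · intro h3; linarith
        · intro h3; linarith
    · rw [h]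
      simp
    · have h1 : Real.exp (-(x 3 / ε)) < 1 := by
        rw [← Real.exp_zero]
        have : 0 < x 3 / ε := div_pos h hε
        exact Real.exp_lt_exp.2 (by linarith)
      have h2 : 0 < (R * G x + T) * (1 - Real.exp (-(x 3 / ε))) := mul_pos hx' (by linarith)
      constructor
      · constructor
        · intro h3; linarith
        · intro h3; linarith
      · constructor
        · intro h3; linarith
        · intro h3; linarith
  · rintro x ⟨⟨hx, -⟩, -⟩ h0
    have hx' : 0 < R * G x + T := hx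
    refine ⟨1 + (R * G x + T) / ε, by positivity, fun v => ?_⟩
    rw [Th_fd hG, PiLp.add_apply, PiLp.smul_apply, vert_three, push_fd hG, h0]
    simp
    ring

end Run7.h421.RS
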