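import Mathlib
import Pool.Agent.Run7.h421.RSc

/-!
Surfaces in the half-space: the first theorem (vertical direction).
-/

set_option autoImplicit false

namespace Run7.h421.RS

open scoped ContDiff RealInnerProductSpace Topology
open Set Metric Filter MeasureTheory
open Run7.h421.RP
open Pool.Agent.N503.ML (vert vert_three inner_vert norm_vert IPatch kdet)
open Pool.Agent.Y503.RB (d1 sff)

theorem evA {Ψ : ℂ → R4} {K : Set ℂ} (hK : IsCompact K) (hs : ∀ z ∈ K, ContDiffAt ℝ ∞ Ψ z)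
    {h : ℂ → ℝ} (hh : ∀ z ∈ K, ContinuousAt h z) {x0 : R4}
    (H : ∀ z ∈ K, (∃ v, ⟪x0, fderiv ℝ Ψ z v⟫ ≠ 0) ∨
      (0 < h z ∧ ∃ v, ⟪x0, fderiv ℝ (fderiv ℝ Ψ) z v v⟫ < 0)) :
    ∀ᶠ x in 𝓝 x0, ∀ z ∈ K, (∃ v, ⟪x, fderiv ℝ Ψ z v⟫ ≠ 0) ∨
      (0 < h z ∧ ∃ v, ⟪x, fderiv ℝ (fderiv ℝ Ψ) z v v⟫ < 0) := by
  refine hK.eventually_forall_of_forall_eventually ?_
  intro z hz
  have hf : Tendsto (fun q : R4 × ℂ => q.1) (𝓝 (x0, z)) (𝓝 x0) := continuous_fst.tendsto _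
  have hsnd : Tendsto (fun q : R4 × ℂ => q.2) (𝓝 (x0, z)) (𝓝 z) := continuous_snd.tendsto _
  rcases H z hz with ⟨v, hv⟩ | ⟨hzb, v, hv⟩
  · have h1 : Tendsto (fun q : R4 × ℂ => fderiv ℝ Ψ q.2 v) (𝓝 (x0, z)) (𝓝 (fderiv ℝ Ψ z v)) :=
      (((cont_fd (hs z hz)).clm_apply continuousAt_const).tendsto).comp hsnd
    have h2 := hf.inner h1 (𝕜 := ℝ)
    refine (h2.eventually (isOpen_ne.mem_nhds hv)).mono fun q hq => Or.inl ⟨v, hq⟩
  · have h1 : Tendsto (fun q : R4 × ℂ => fderiv ℝ (fderiv ℝ Ψ) q.2 v v) (𝓝 (x0, z))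
        (𝓝 (fderiv ℝ (fderiv ℝ Ψ) z v v)) :=
      ((((cont_fd2 (hs z hz)).clm_apply continuousAt_const).clm_apply
        continuousAt_const).tendsto).comp hsnd
    have h2 := hf.inner h1 (𝕜 := ℝ)
    have h3 : Tendsto (fun q : R4 × ℂ => h q.2) (𝓝 (x0, z)) (𝓝 (h z)) :=
      (hh z hz).tendsto.comp hsnd
    refine ((h2.eventually (gt_mem_nhds hv)).and (h3.eventually
      (lt_mem_nhds hzb))).mono fun q hq => Or.inr ⟨hq.2, v, hq.1⟩

theorem evB {Ψ : ℂ → R4} {K : Set ℂ} (hK0 : IsCompact K) (hs : ∀ z ∈ K, ContDiffAt ℝ ∞ Ψ z)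
    {x0 : R4} (H : ∀ z ∈ K, ∀ v, v ≠ 0 → 0 < ⟪x0, fderiv ℝ (fderiv ℝ Ψ) z v v⟫) :
    ∀ᶠ x in 𝓝 x0, ∀ z ∈ K, ∀ v, v ≠ 0 → 0 < ⟪x, fderiv ℝ (fderiv ℝ Ψ) z v v⟫ := by
  have hK : IsCompact (K ×ˢ sphere (0 : ℂ) 1) := hK0.prod (isCompact_sphere (0 : ℂ) 1)
  have h3 : ∀ᶠ x in 𝓝 x0, ∀ q ∈ K ×ˢ sphere (0 : ℂ) 1,
      0 < ⟪x, fderiv ℝ (fderiv ℝ Ψ) q.1 q.2 q.2⟫ := by
    refine hK.eventually_forall_of_forall_eventually ?_
    rintro ⟨z, v⟩ ⟨hz, hv⟩
    simp only at hz hv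
    have hf : Tendsto (fun q : R4 × (ℂ × ℂ) => q.1) (𝓝 (x0, (z, v))) (𝓝 x0) :=
      continuous_fst.tendsto _
    have h1 : Tendsto (fun q : R4 × (ℂ × ℂ) => q.2.1) (𝓝 (x0, (z, v))) (𝓝 z) :=
      (continuous_fst.comp continuous_snd).tendsto _
    have h2 : ContinuousAt (fun q : R4 × (ℂ × ℂ) => q.2.2) (x0, (z, v)) :=
      (continuous_snd.comp continuous_snd).continuousAt
    have h4 : ContinuousAt (fun q : R4 × (ℂ × ℂ) => fderiv ℝ (fderiv ℝ Ψ) q.2.1) (x0, (z, v)) :=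
      (cont_fd2 (hs z hz)).tendsto.comp h1
    have h5 : Tendsto (fun q : R4 × (ℂ × ℂ) => fderiv ℝ (fderiv ℝ Ψ) q.2.1 q.2.2 q.2.2)
        (𝓝 (x0, (z, v))) (𝓝 (fderiv ℝ (fderiv ℝ Ψ) z v v)) :=
      ((h4.clm_apply h2).clm_apply h2).tendsto
    have hv0 : v ≠ 0 := by
      rintro rfl
      simp at hv
    exact (hf.inner h5 (𝕜 := ℝ)).eventually (lt_mem_nhds (H z hz v hv0))
  refine h3.mono fun x hx z hz v hv => ?_
  have hn : 0 < ‖v‖ := norm_pos_iff.2 hv
  have h4 := hx (z, ‖v‖⁻¹ • v) ⟨hz, by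
    simp only
    rw [mem_sphere_zero_iff_norm, norm_smul, norm_inv, norm_norm, inv_mul_cancel₀ hn.ne']⟩
  simp only [map_smul, ContinuousLinearMap.smul_apply, real_inner_smul_right] at h4
  have h5 : 0 < ‖v‖⁻¹ := by positivity
  by_contra hcon
  push Not at hcon
  have := mul_nonpos_of_nonneg_of_nonpos h5.le
    (mul_nonpos_of_nonneg_of_nonpos h5.le hcon)
  linarith

/-- Sard's lemma for a finite family -/
theorem sard_fam {ι : Type*} {t : Finset ι} {Ψ : ι → ℂ → R4} {U : ι → Set ℂ}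
    (hP : ∀ p ∈ t, IPatch (Ψ p) (U p)) {Q : R4 → Prop}
    (hQ : ∀ᶠ x in 𝓝 vert, Q x) : ∃ x : R4, x 3 = 1 ∧ Q x ∧
      ∀ p ∈ t, ∀ z ∈ U p, (∀ v : ℂ, ⟪x, fderiv ℝ (Ψ p) z v⟫ = 0) →
        ∀ u, (∀ v, ⟪x, fderiv ℝ (fderiv ℝ (Ψ p)) z u v⟫ = 0) → u = 0 := by
  have hZ0 : ∀ p, ∃ Z : Set R4, volume Z = 0 ∧ (p ∈ t → ∀ y ∉ Z, y ≠ 0 → ∀ z ∈ U p,
      (∀ v : ℂ, ⟪y, d1 (Ψ p) v z⟫ = 0) → kdet (Ψ p) y z ≠ 0) := by
    intro p
    by_cases hp : p ∈ t
    · obtain ⟨Z, h1, h2⟩ := Pool.Agent.N503.ML.sard (hP p hp)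
      exact ⟨Z, h1, fun _ => h2⟩
    · exact ⟨∅, measure_empty, fun h => absurd h hp⟩
  choose Z hZ hZ' using hZ0
  have hZn : volume (⋃ p ∈ t, Z p) = 0 :=
    (measure_biUnion_null_iff t.countable_toSet).2 fun p _ => hZ p
  have hc : ContinuousAt (fun y : R4 => y 3) vert := (coord_contDiff 3).continuous.continuousAt
  have h1 : ContinuousAt (fun y : R4 => (y 3)⁻¹ • y) vert :=
    (hc.inv₀ (by rw [vert_three]; norm_num)).smul continuousAt_id
  have h2 : Tendsto (fun y : R4 => (y 3)⁻¹ • y) (𝓝 vert) (𝓝 vert) := by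
    have : (vert 3)⁻¹ • vert = vert := by rw [vert_three, inv_one, one_smul]
    have h3 := h1.tendsto
    rwa [this] at h3
  have h3 : ∀ᶠ y : R4 in 𝓝 vert, 0 < y 3 :=
    hc.eventually (lt_mem_nhds (by
      show (0 : ℝ) < vert 3
      rw [vert_three]; norm_num))
  have h4 : Dense (⋃ p ∈ t, Z p)ᶜ := by
    have h5 : ∀ᵐ x : R4, x ∈ (⋃ p ∈ t, Z p)ᶜ := by
      rw [ae_iff]
      have : {a : R4 | ¬ a ∈ (⋃ p ∈ t, Z p)ᶜ} = ⋃ p ∈ t, Z p := by
        ext a
        simp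
      rw [this]
      exact hZn
    exact Measure.dense_of_ae h5
  obtain ⟨y, hyZ, hy1, hy2⟩ := h4.inter_nhds_nonempty ((h2.eventually hQ).and h3)
  have hy0 : y ≠ 0 := by
    rintro rfl
    simp at hy2
  refine ⟨(y 3)⁻¹ • y, ?_, hy1, ?_⟩
  · rw [PiLp.smul_apply, smul_eq_mul, inv_mul_cancel₀ hy2.ne']
  · intro p hp z hz hcr u hu
    have hi : 0 < (y 3)⁻¹ := by positivity
    have hs : ContDiffAt ℝ ∞ (Ψ p) z :=
      (hP p hp).smooth.contDiffAt ((hP p hp).isOpen.mem_nhds hz)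
    have k1 : ∀ v : ℂ, ⟪y, d1 (Ψ p) v z⟫ = 0 := by
      intro v
      have := hcr v
      rw [real_inner_smul_left] at this
      exact (mul_eq_zero.1 this).resolve_left hi.ne'
    have hyp : y ∉ Z p := fun h => hyZ (mem_iUnion₂.2 ⟨p, hp, h⟩)
    refine Pool.Agent.N503.ML.nondegE hs (hZ' p hp y hyp hy0 z hz k1) (u := u) fun v => ?_
    have := hu v
    rw [real_inner_smul_left] at this
    unfold sff
    rw [Pool.Agent.N503.ML.d2_eq hs]
    exact (mul_eq_zero.1 this).resolve_left hi.ne'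

theorem Th_comp (φ : ℂ → R4) (G : R4 → ℝ) (R T ε : ℝ) :
    (fun w => Th G R T ε (φ w) 3) = newF (fun w => φ w 3) (fun w => G (φ w)) R T ε := by
  funext w
  rw [Th_three]
  rfl

/-- **First theorem**, vertical direction. -/
theorem mainS {F : Set R4} (hF : TSurf F) {G : R4 → ℝ} (hG : ContDiff ℝ ∞ G)
    (hv : ∀ x, 0 ≤ fderiv ℝ G x vert) (hg : GoodS F G) :
    ∃ f : R4 → ℝ, PushS F vert f ∧ MorseS ((fun x => x + f x • vert) '' F) ∧
      (minS ((fun x => x + f x • vert) '' F)).encard ≤ (cupsS F G).encard := by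
  obtain ⟨t, d, κ, hκ, hd, hcov⟩ := family hF hG hg
  obtain ⟨C, m0, a, N, B⟩ := exists_bd hF hG hd
  obtain ⟨R, T, ε, c⟩ := exists_con N B.hC hκ B.hm0 B.ha
  have hR := c.hR
  have hε := c.hε
  have hφs : ∀ p ∈ t, ∀ w ∈ (d p).U, ContDiffAt ℝ ∞ (d p).φ w := fun p hp w hw =>
    (hd p hp).par.at hw
  have hhs : ∀ p ∈ t, ∀ w ∈ (d p).U, ContDiffAt ℝ ∞ (fun w => (d p).φ w 3) w := fun p hp w hw =>
    (coord_contDiff 3).contDiffAt.comp w (hφs p hp w hw)
  have hLs : ∀ p ∈ t, ∀ w ∈ (d p).U, ContDiffAt ℝ ∞ (fun w => G ((d p).φ w)) w :=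
    fun p hp w hw => hG.contDiffAt.comp w (hφs p hp w hw)
  have hΨs : ∀ p ∈ t, ∀ w ∈ (d p).U, ContDiffAt ℝ ∞ (Psi (d p).φ G R T ε) w := fun p hp w hw =>
    Psi_smooth hG R T ε (hφs p hp w hw)
  have hΨv : ∀ φ : ℂ → R4, (fun w => ⟪vert, Psi φ G R T ε w⟫) =
      newF (fun w => φ w 3) (fun w => G (φ w)) R T ε := by
    intro φ
    funext w
    rw [Psi_inner hR vert_three]
    simp
  -- the immersed patches
  have hP : ∀ p ∈ t, IPatch (Psi (d p).φ G R T ε) ((d p).U ∩ {w | 0 < (d p).φ w 3}) := by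
    intro p hp
    refine ⟨?_, fun w hw => (hΨs p hp w hw.1).contDiffWithinAt, fun w hw =>
      Psi_imm hG hv hR.le hε (hφs p hp w hw.1) ((hd p hp).par.patch.imm w hw.1) hw.2 ?_⟩
    · exact ((coord_contDiff 3).continuous.comp_continuousOn
        (hd p hp).par.patch.smooth.continuousOn).isOpen_inter_preimage
        (hd p hp).par.patch.isOpen isOpen_Ioi
    · exact (mul_le_mul_of_nonneg_left (B.hN _ ((hd p hp).par.memF hw.1 (le_of_lt hw.2)))
        hR.le).trans c.hRN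
  -- compact sets
  have hK : ∀ p ∈ t, IsCompact (closedBall (d p).z (d p).r ∩ {w | 0 ≤ (d p).φ w 3}) := by
    intro p hp
    have c0 : ContinuousOn (fun w => (d p).φ w 3) (closedBall (d p).z (d p).r) :=
      (coord_contDiff 3).continuous.comp_continuousOn
        ((hd p hp).par.patch.smooth.continuousOn.mono (hd p hp).sub)
    have h1 : IsClosed (closedBall (d p).z (d p).r ∩ (fun w => (d p).φ w 3) ⁻¹' Ici 0) :=
      c0.preimage_isClosed_of_isClosed isClosed_closedBall isClosed_Ici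
    exact (isCompact_closedBall (d p).z (d p).r).of_isClosed_subset h1 inter_subset_left
  -- pieces without cups
  have hA : ∀ p ∈ t, TyA G κ (d p) → ∀ᶠ x in 𝓝 vert,
      ∀ z ∈ closedBall (d p).z (d p).r ∩ {w | 0 ≤ (d p).φ w 3},
      (∃ v, ⟪x, fderiv ℝ (Psi (d p).φ G R T ε) z v⟫ ≠ 0) ∨
      (0 < (d p).φ z 3 ∧ ∃ v, ⟪x, fderiv ℝ (fderiv ℝ (Psi (d p).φ G R T ε)) z v v⟫ < 0) := by
    intro p hp hty
    refine evA (hK p hp) (fun z hz => hΨs p hp z ((hd p hp).sub hz.1))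
      (h := fun w => (d p).φ w 3) (fun z hz => (hhs p hp z ((hd p hp).sub hz.1)).continuousAt) ?_
    rintro z ⟨hz, hz0⟩
    have hzU := (hd p hp).sub hz
    by_cases h0 : ∃ v, ⟪vert, fderiv ℝ (Psi (d p).φ G R T ε) z v⟫ ≠ 0
    · exact Or.inl h0
    · push Not at h0
      right
      have h1 : fderiv ℝ (newF (fun w => (d p).φ w 3) (fun w => G ((d p).φ w)) R T ε) z = 0 := by
        rw [← hΨv]
        ext v
        rw [(hess0 (hΨs p hp z hzU) vert).1 v, h0 v]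
        rfl
      obtain ⟨b1, b2, b3, b4, b5⟩ := B.bd p hp z hz
      obtain ⟨h2, ⟨v, hv'⟩ | ⟨h3, h4⟩⟩ := c.crit (hhs p hp z hzU) (hLs p hp z hzU) hz0
        (fun h => (hd p hp).par.patch.transv z hzU h) (B.reg p hp z hz hz0) b1 b2 b3 b5 h1
      · refine ⟨h2, v, ?_⟩
        rw [← hΨv, q2_inner (hΨs p hp z hzU)] at hv'
        exact hv'
      · exfalso
        rcases hty z hz with h5 | ⟨v, hv1, hv2⟩
        · exact absurd h5 (not_le.2 h3)
        · exact h4 v hv1 hv2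
  -- pieces with a cup
  have hB : ∀ p ∈ t, TyB F G κ p (d p) → ∀ᶠ x in 𝓝 vert,
      ∀ z ∈ closedBall (d p).z (d p).r, ∀ v, v ≠ 0 →
        0 < ⟪x, fderiv ℝ (fderiv ℝ (Psi (d p).φ G R T ε)) z v v⟫ := by
    intro p hp hty
    refine evB (isCompact_closedBall _ _) (fun z hz => hΨs p hp z ((hd p hp).sub hz)) ?_
    intro z hz v hv0
    have hzU := (hd p hp).sub hz
    obtain ⟨b1, b2, b3, b4, b5⟩ := B.bd p hp z hz
    have h1 := c.conv (hhs p hp z hzU) (hLs p hp z hzU)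
      (B.low p hp (fun w hw => (hty.2 w hw).1) z hz) b1 b2 b3 b4 (hty.2 z hz).2 hv0
    rw [← hΨv, q2_inner (hΨs p hp z hzU)] at h1
    exact h1
  -- positivity
  have hpe : ∀ᶠ x in 𝓝 vert, ∀ y ∈ F, 0 < R * G y + T + ⟪x - vert, y⟫ := by
    refine hF.compact.eventually_forall_of_forall_eventually ?_
    intro y hy
    have t1 : Tendsto (fun q : R4 × R4 => q.1) (𝓝 (vert, y)) (𝓝 vert) := continuous_fst.tendsto _
    have t2 : Tendsto (fun q : R4 × R4 => q.2) (𝓝 (vert, y)) (𝓝 y) := continuous_snd.tendsto _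
    have t3 : Tendsto (fun q : R4 × R4 => G q.2) (𝓝 (vert, y)) (𝓝 (G y)) :=
      (hG.continuous.tendsto _).comp t2
    have t4 := ((t3.const_mul R).add_const T).add
      (((t1.sub_const vert)).inner t2 (𝕜 := ℝ))
    refine t4.eventually (lt_mem_nhds ?_)
    have := (c.range (B.bdF y hy)).1
    rw [sub_self, inner_zero_left, add_zero]
    linarith
  have hall : ∀ᶠ x in 𝓝 vert, (∀ p ∈ t, (TyA G κ (d p) →
      ∀ z ∈ closedBall (d p).z (d p).r ∩ {w | 0 ≤ (d p).φ w 3},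
      (∃ v, ⟪x, fderiv ℝ (Psi (d p).φ G R T ε) z v⟫ ≠ 0) ∨
      (0 < (d p).φ z 3 ∧ ∃ v, ⟪x, fderiv ℝ (fderiv ℝ (Psi (d p).φ G R T ε)) z v v⟫ < 0)) ∧
      (TyB F G κ p (d p) → ∀ z ∈ closedBall (d p).z (d p).r, ∀ v, v ≠ 0 →
        0 < ⟪x, fderiv ℝ (fderiv ℝ (Psi (d p).φ G R T ε)) z v v⟫)) ∧
      ∀ y ∈ F, 0 < R * G y + T + ⟪x - vert, y⟫ := by
    refine Filter.Eventually.and ?_ hpe
    rw [Filter.eventually_all_finset]
    intro p hp
    refine Filter.Eventually.and ?_ ?_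
    · by_cases hty : TyA G κ (d p)
      · exact (hA p hp hty).mono fun x hx _ => hx
      · exact Filter.Eventually.of_forall fun x h => absurd h hty
    · by_cases hty : TyB F G κ p (d p)
      · exact (hB p hp hty).mono fun x hx _ => hx
      · exact Filter.Eventually.of_forall fun x h => absurd h hty
  obtain ⟨x, hx3, ⟨hxt, hx4⟩, hsard⟩ := sard_fam hP hall
  obtain ⟨q, hq⟩ : ∃ q : R4, q = R⁻¹ • (x - vert) := ⟨_, rfl⟩
  have hq3 : q 3 = 0 := by
    rw [hq, PiLp.smul_apply, PiLp.sub_apply, hx3, vert_three, sub_self, smul_zero]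
  have hGq : ContDiff ℝ ∞ (fun y => G y + ⟪q, y⟫) :=
    hG.add (contDiff_const.inner ℝ contDiff_id)
  have hvq : ∀ y, 0 ≤ fderiv ℝ (fun y => G y + ⟪q, y⟫) y vert := by
    intro y
    have h1 : HasFDerivAt (fun y => G y + ⟪q, y⟫) (fderiv ℝ G y + innerSL ℝ q) y :=
      ((hG.differentiable (by simp)) y).hasFDerivAt.add (innerSL ℝ q).hasFDerivAt
    rw [h1.fderiv]
    have h2 : (fderiv ℝ G y + innerSL ℝ q) vert = fderiv ℝ G y vert + ⟪q, vert⟫ := rfl
    rw [h2, real_inner_comm vert q, inner_vert, hq3, add_zero]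
    exact hv y
  have hpos : ∀ y ∈ F, 0 < R * (fun y => G y + ⟪q, y⟫) y + T := by
    intro y hy
    have h1 := hx4 y hy
    simp only
    rw [hq, real_inner_smul_left]
    have : R * (G y + R⁻¹ * ⟪x - vert, y⟫) + T = R * G y + T + ⟪x - vert, y⟫ := by
      field_simp
      ring
    rw [this]
    exact h1
  have hht : ∀ φ : ℂ → R4, (fun w => Th (fun y => G y + ⟪q, y⟫) R T ε (φ w) 3) =
      fun w => ⟪x, Psi φ G R T ε w⟫ := by
    intro φ
    rw [Th_comp]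
    funext w
    rw [Psi_inner hR hx3, hq]
  obtain ⟨D, hFD, hDif⟩ := Th_dif hF hGq hvq hR.le hε hpos
  -- points of the new surface
  have hpt : ∀ y ∈ F, 0 < y 3 → ∃ p ∈ t, ∃ w ∈ ball (d p).z (d p).r, (d p).φ w = y := by
    intro y hy _
    obtain ⟨p, hp, hyp⟩ := hcov y hy
    obtain ⟨w, hw, hwy⟩ := (hd p hp).cov ⟨hy, hyp⟩
    exact ⟨p, hp, w, hw, hwy⟩
  have hsg : ∀ y ∈ F, 0 < Th (fun y => G y + ⟪q, y⟫) R T ε y 3 → 0 < y 3 := by
    intro y hy h0
    refine lt_of_le_of_ne (hF.nonneg y hy) fun h1 => ?_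
    have := (hDif.sign y (hFD hy)).2.2 h1.symm
    linarith
  have himg : (fun x => x + push (fun y => G y + ⟪q, y⟫) R T ε x • vert) '' F =
      Th (fun y => G y + ⟪q, y⟫) R T ε '' F := rfl
  refine ⟨push (fun y => G y + ⟪q, y⟫) R T ε, ⟨push_smooth hGq R T ε, ?_, ?_, ?_⟩, ?_, ?_⟩
  · intro y hy
    unfold push
    rw [hy]
    simp
  · intro s hs
    rcases eq_or_lt_of_le hs.1 with h0 | h0
    · refine ⟨univ, isOpen_univ, subset_univ _, ?_, ?_⟩
      · rw [← h0]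
        intro a _ b _ hab
        simpa using hab
      · intro y _
        have : (fun x : R4 => x + (s * push (fun y => G y + ⟪q, y⟫) R T ε x) • vert) = id := by
          funext y
          rw [← h0]
          simp
        rw [this, fderiv_id]
        exact Function.injective_id
    · obtain ⟨D', hFD', hDif'⟩ := Th_dif hF hGq hvq (R := s * R) (T := s * T) (by positivity) hε
        (fun y hy => by
          have := mul_pos h0 (hpos y hy)
          beta_reduce at this ⊢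
          linarith)
      have : (fun x : R4 => x + (s * push (fun y => G y + ⟪q, y⟫) R T ε x) • vert) =
          Th (fun y => G y + ⟪q, y⟫) (s * R) (s * T) ε := by
        funext y
        unfold Th push
        congr 2
        ring
      rw [this]
      exact ⟨D', hDif'.isOpen, hFD', hDif'.inj, hDif'.imm⟩
  · intro s hs
    rcases eq_or_lt_of_le hs.1 with h0 | h0
    · have : (fun x : R4 => x + (s * push (fun y => G y + ⟪q, y⟫) R T ε x) • vert) = id := by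
        funext y
        rw [← h0]
        simp
      refine ⟨?_, fun y _ => ?_⟩
      · rw [this, image_id]
        exact hF
      · rw [← h0]
        simp
    · obtain ⟨D', hFD', hDif'⟩ := Th_dif hF hGq hvq (R := s * R) (T := s * T) (by positivity) hε
        (fun y hy => by
          have := mul_pos h0 (hpos y hy)
          beta_reduce at this ⊢
          linarith)
      have h1 : (fun x : R4 => x + (s * push (fun y => G y + ⟪q, y⟫) R T ε x) • vert) =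
          Th (fun y => G y + ⟪q, y⟫) (s * R) (s * T) ε := by
        funext y
        unfold Th push
        congr 2
        ring
      refine ⟨?_, fun y hy => ?_⟩
      · rw [h1]
        exact hDif'.surf hF hFD'
      · have h2 : y + (s * push (fun y => G y + ⟪q, y⟫) R T ε y) • vert =
            Th (fun y => G y + ⟪q, y⟫) (s * R) (s * T) ε y := congrFun h1 y
        rw [h2]
        exact (hDif'.sign y (hFD' hy)).2
  · -- Morse
    rw [himg]
    rintro _ ⟨y, hy, rfl⟩ hy3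
    have hy3' := hsg y hy hy3
    obtain ⟨p, hp, w, hw, rfl⟩ := hpt y hy hy3'
    have hwU := (hd p hp).sub (ball_subset_closedBall hw)
    refine ⟨_, _, _, w, (hd p hp).par.image hDif hFD, ⟨hwU, hFD hy⟩, rfl, ?_⟩
    intro hcz u hu
    rw [hht] at hcz hu
    refine hsard p hp w ⟨hwU, hy3'⟩ (fun v => ?_) u (fun v => ?_)
    · rw [← (hess0 (hΨs p hp w hwU) x).1 v, hcz]
      rfl
    · rw [← (hess0 (hΨs p hp w hwU) x).2 u v]
      exact hu v
  · -- counting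
    rw [himg]
    have h1 : ∀ y' ∈ minS (Th (fun y => G y + ⟪q, y⟫) R T ε '' F), ∃ p : R4, ∃ w : ℂ,
        p ∈ t ∧ TyB F G κ p (d p) ∧ w ∈ closedBall (d p).z (d p).r ∧
        Th (fun y => G y + ⟪q, y⟫) R T ε ((d p).φ w) = y' ∧
        fderiv ℝ (fun w => ⟪x, Psi (d p).φ G R T ε w⟫) w = 0 := by
      rintro _ ⟨⟨y, hy, rfl⟩, hy3, hmin⟩
      have hy3' := hsg y hy hy3
      obtain ⟨p, hp, w, hw, rfl⟩ := hpt y hy hy3'
      have hwc := ball_subset_closedBall hw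
      have hwU := (hd p hp).sub hwc
      have hloc : IsLocalMin (fun w => ⟪x, Psi (d p).φ G R T ε w⟫) w := by
        rw [← hht]
        have hcont : Tendsto (fun w => Th (fun y => G y + ⟪q, y⟫) R T ε ((d p).φ w)) (𝓝 w)
            (𝓝[Th (fun y => G y + ⟪q, y⟫) R T ε '' F]
              (Th (fun y => G y + ⟪q, y⟫) R T ε ((d p).φ w))) := by
          rw [tendsto_nhdsWithin_iff]
          refine ⟨(Th_smooth hGq R T ε).continuous.continuousAt.tendsto.comp
            (hφs p hp w hwU).continuousAt, ?_⟩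
          have e1 : ∀ᶠ w' in 𝓝 w, 0 < (d p).φ w' 3 :=
            (hhs p hp w hwU).continuousAt.eventually (lt_mem_nhds hy3')
          filter_upwards [e1, (hd p hp).par.patch.isOpen.mem_nhds hwU] with w' h2 h3
          exact mem_image_of_mem _ ((hd p hp).par.memF h3 h2.le)
        exact hcont.eventually hmin
      have hcr := hloc.fderiv_eq_zero
      have hsm : ContDiffAt ℝ ∞ (fun w => ⟪x, Psi (d p).φ G R T ε w⟫) w :=
        contDiffAt_const.inner ℝ (hΨs p hp w hwU)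
      have hty : TyB F G κ p (d p) := by
        rcases (hd p hp).typ with hA' | hB'
        · exfalso
          rcases (hxt p hp).1 hA' w ⟨hwc, hy3'.le⟩ with ⟨v, hv'⟩ | ⟨-, v, hv'⟩
          · apply hv'
            rw [← (hess0 (hΨs p hp w hwU) x).1 v, hcr]
            rfl
          · have h2 := soc hsm hloc v
            rw [q2_inner (hΨs p hp w hwU)] at h2
            linarith
        · exact hB'
      exact ⟨p, w, hp, hty, hwc, rfl, hcr⟩
    choose! p w hpt' hty hwc hwy hcr using h1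
    refine encard_le_encard_of_injOn (f := p) (fun y' hy' => (hty y' hy').1) ?_
    intro y1 hy1 y2 hy2 h12
    rw [← hwy y1 hy1, ← hwy y2 hy2, h12]
    congr 2
    have g1 := hwc y1 hy1
    have g2 := hwc y2 hy2
    have g3 := hcr y1 hy1
    rw [h12] at g1 g3
    refine one_crit (f := fun w => ⟪x, Psi (d (p y2)).φ G R T ε w⟫)
      (convex_closedBall (d (p y2)).z (d (p y2)).r) (fun z hz => ?_) (fun z hz v hv0 => ?_)
      g1 g2 g3 (hcr y2 hy2)
    · exact contDiffAt_const.inner ℝ (hΨs _ (hpt' y2 hy2) z ((hd _ (hpt' y2 hy2)).sub hz))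
    · rw [q2_inner (hΨs _ (hpt' y2 hy2) z ((hd _ (hpt' y2 hy2)).sub hz))]
      exact (hxt _ (hpt' y2 hy2)).2 (hty y2 hy2) z hz v hv0

end Run7.h421.RS
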