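import Mathlib
import Pool.Agent.Run7.h421.RSd

/-!
Surfaces in the half-space: critical points do not depend on the parametrisation; arbitrary
directions.
-/

set_option autoImplicit false

namespace Run7.h421.RS

open scoped ContDiff RealInnerProductSpace Topology
open Set Metric Filter
open Run7.h421.RP
open Pool.Agent.N503.ML (vert vert_three inner_vert norm_vert)

/-! ### Change of parametrisation -/

theorem ev_on {F : Set R4} (hF : ∀ x ∈ F, 0 ≤ x 3) {φ : ℂ → R4} {U : Set ℂ} {V : Set R4}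
    (h : Param F φ U V) {z : ℂ} (hz : z ∈ U) (hzF : φ z ∈ F) {P : R4 → Prop}
    (hP : ∀ᶠ w in 𝓝 z, P (φ w)) : ∀ᶠ x in 𝓝[F] (φ z), P x := by
  obtain ⟨O, hO, hOo, hzO⟩ := _root_.eventually_nhds_iff.1 hP
  obtain ⟨N, hN, hzN, hsub, -⟩ := exists_nbhd h hF hOo hz hzO hzF
  filter_upwards [self_mem_nhdsWithin, mem_nhdsWithin_of_mem_nhds (hN.mem_nhds hzN)]
    with x hxF hxN
  obtain ⟨w, ⟨-, hwO⟩, rfl⟩ := hsub ⟨hxF, hxN⟩
  exact hO w hwO

theorem ev_off {F : Set R4} {φ : ℂ → R4} {U : Set ℂ} {V : Set R4}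
    (h : Param F φ U V) {z : ℂ} (hz : z ∈ U) (h3 : 0 < φ z 3) {P : R4 → Prop}
    (hP : ∀ᶠ x in 𝓝[F] (φ z), P x) : ∀ᶠ w in 𝓝 z, P (φ w) := by
  have hcont : Tendsto φ (𝓝 z) (𝓝[F] (φ z)) := by
    rw [tendsto_nhdsWithin_iff]
    refine ⟨(h.at hz).continuousAt, ?_⟩
    have e1 : ∀ᶠ w' in 𝓝 z, 0 < φ w' 3 := by
      have : ContinuousAt (fun w => φ w 3) z :=
        ((coord_contDiff 3).contDiffAt.comp z (h.at hz)).continuousAt
      exact this.eventually (lt_mem_nhds h3)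
    filter_upwards [e1, h.patch.isOpen.mem_nhds hz] with w' h2 h3
    exact h.memF h3 h2.le
  exact hcont.eventually hP

theorem lower_bound {φ : ℂ → R4} {z : ℂ} (h : DifferentiableAt ℝ φ z)
    (hi : Function.Injective (fderiv ℝ φ z)) :
    ∃ K : ℝ, 0 < K ∧ ∀ᶠ w in 𝓝 z, ‖w - z‖ ≤ K * ‖φ w - φ z‖ := by
  obtain ⟨K, hK0, hK⟩ := LinearMap.exists_antilipschitzWith (fderiv ℝ φ z).toLinearMap
    (LinearMap.ker_eq_bot.2 hi)
  have hK0' : (0 : ℝ) < K := hK0
  have h1 := h.hasFDerivAt.isLittleO.def (c := 1 / (2 * (K : ℝ))) (by positivity)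
  refine ⟨2 * K, by positivity, h1.mono fun w hw => ?_⟩
  have h2 : ‖w - z‖ ≤ K * ‖fderiv ℝ φ z (w - z)‖ :=
    ContinuousLinearMap.bound_of_antilipschitz (fderiv ℝ φ z) hK (w - z)
  have h3 : ‖fderiv ℝ φ z (w - z)‖ ≤ ‖φ w - φ z‖ + ‖φ w - φ z - fderiv ℝ φ z (w - z)‖ := by
    have : fderiv ℝ φ z (w - z) = (φ w - φ z) - (φ w - φ z - fderiv ℝ φ z (w - z)) := by abel
    calc ‖fderiv ℝ φ z (w - z)‖ = ‖(φ w - φ z) - (φ w - φ z - fderiv ℝ φ z (w - z))‖ := by
          rw [← this]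
      _ ≤ _ := norm_sub_le _ _
  have h4 : (K : ℝ) * (1 / (2 * K) * ‖w - z‖) = ‖w - z‖ / 2 := by field_simp
  have h5 : (K : ℝ) * ‖fderiv ℝ φ z (w - z)‖ ≤
      K * (‖φ w - φ z‖ + 1 / (2 * K) * ‖w - z‖) :=
    mul_le_mul_of_nonneg_left (h3.trans (by linarith)) hK0'.le
  rw [mul_add, h4] at h5
  linarith

theorem comp_at {G : R4 → ℝ} (hG : ContDiff ℝ ∞ G) {φ : ℂ → R4} {z : ℂ} (h : ContDiffAt ℝ ∞ φ z) :
    ContDiffAt ℝ ∞ (fun w => G (φ w)) z := hG.contDiffAt.comp z h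

/-- a critical point in a parametrisation is a critical point on the surface -/
theorem crit_on {F : Set R4} (hF : ∀ x ∈ F, 0 ≤ x 3) {φ : ℂ → R4} {U : Set ℂ} {V : Set R4}
    (h : Param F φ U V) {z : ℂ} (hz : z ∈ U) (hzF : φ z ∈ F) {G : R4 → ℝ}
    (hG : ContDiff ℝ ∞ G) (h0 : fderiv ℝ (fun w => G (φ w)) z = 0) :
    HasFDerivWithinAt G (0 : R4 →L[ℝ] ℝ) F (φ z) := by
  obtain ⟨K, hK, h1⟩ := lower_bound (diffAt (h.at hz)) (h.patch.imm z hz)
  have h2 := (diffAt (comp_at hG (h.at hz))).hasFDerivAt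
  rw [h0] at h2
  apply HasFDerivWithinAt.of_isLittleO
  rw [Asymptotics.isLittleO_iff]
  intro c hc
  have h3 := h2.isLittleO.def (c := c / K) (by positivity)
  refine ev_on hF h hz hzF
    (P := fun x => ‖G x - G (φ z) - (0 : R4 →L[ℝ] ℝ) (x - φ z)‖ ≤ c * ‖x - φ z‖) ?_
  filter_upwards [h1, h3] with w e1 e2
  simp only [zero_apply, sub_zero] at e2 ⊢
  calc ‖G (φ w) - G (φ z)‖ ≤ c / K * ‖w - z‖ := e2
    _ ≤ c / K * (K * ‖φ w - φ z‖) := mul_le_mul_of_nonneg_left e1 (by positivity)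
    _ = c * ‖φ w - φ z‖ := by field_simp

/-- and conversely -/
theorem crit_off {F : Set R4} {φ : ℂ → R4} {U : Set ℂ} {V : Set R4}
    (h : Param F φ U V) {z : ℂ} (hz : z ∈ U) (h3 : 0 ≤ φ z 3) {G : R4 → ℝ}
    (hG : ContDiff ℝ ∞ G) (hd : HasFDerivWithinAt G (0 : R4 →L[ℝ] ℝ) F (φ z)) :
    fderiv ℝ (fun w => G (φ w)) z = 0 := by
  have key : ∀ v : ℂ, (∀ᶠ s in 𝓝[>] (0 : ℝ), 0 ≤ φ (z + s • v) 3) →
      fderiv ℝ (fun w => G (φ w)) z v = 0 := by
    intro v hv
    have hγ : HasDerivAt (fun s : ℝ => φ (z + s • v)) (fderiv ℝ φ z v) 0 := by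
      have e2 : HasFDerivAt φ (fderiv ℝ φ z) (z + (0 : ℝ) • v) := by
        rw [zero_smul, add_zero]; exact (diffAt (h.at hz)).hasFDerivAt
      exact e2.comp_hasDerivAt (0 : ℝ) (hline z v 0)
    have e5 : HasDerivAt (fun s : ℝ => G (φ (z + s • v)))
        (fderiv ℝ (fun w => G (φ w)) z v) 0 := by
      have e2 : HasFDerivAt (fun w => G (φ w)) (fderiv ℝ (fun w => G (φ w)) z)
          (z + (0 : ℝ) • v) := by
        rw [zero_smul, add_zero]; exact (diffAt (comp_at hG (h.at hz))).hasFDerivAt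
      exact e2.comp_hasDerivAt (0 : ℝ) (hline z v 0)
    obtain ⟨S, hS⟩ : ∃ S : Set ℝ, S = {s | φ (z + s • v) ∈ F} := ⟨_, rfl⟩
    have hS1 : S ∈ 𝓝[>] (0 : ℝ) := by
      have e1 : ∀ᶠ s in 𝓝[>] (0 : ℝ), z + s • v ∈ U := by
        have hc : Continuous (fun s : ℝ => z + s • v) := by fun_prop
        have ht := hc.tendsto 0
        rw [zero_smul, add_zero] at ht
        exact (ht.mono_left nhdsWithin_le_nhds).eventually (h.patch.isOpen.mem_nhds hz)
      rw [hS]
      filter_upwards [hv, e1] with s a b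
      exact h.memF b a
    have e3 : HasDerivWithinAt (fun s : ℝ => G (φ (z + s • v)))
        ((0 : R4 →L[ℝ] ℝ) (fderiv ℝ φ z v)) S 0 := by
      have e4 : HasFDerivWithinAt G (0 : R4 →L[ℝ] ℝ) F (φ (z + (0 : ℝ) • v)) := by
        rw [zero_smul, add_zero]; exact hd
      exact e4.comp_hasDerivWithinAt (0 : ℝ) hγ.hasDerivWithinAt
        (fun s hs => by rw [hS] at hs; exact hs)
    have e6 : UniqueDiffWithinAt ℝ S 0 :=
      (uniqueDiffWithinAt_Ioi 0).mono_nhds (nhdsWithin_le_of_mem hS1)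
    exact e6.eq_deriv _ e5.hasDerivWithinAt e3
  rcases eq_or_lt_of_le h3 with h0 | h0
  · -- a point of the boundary
    have ht := h.patch.transv z hz h0.symm
    obtain ⟨v0, hv0⟩ : ∃ v0 : ℂ, 0 < fderiv ℝ (fun w => φ w 3) z v0 := by
      obtain ⟨v, hv⟩ : ∃ v, fderiv ℝ (fun w => φ w 3) z v ≠ 0 := by
        by_contra hcon
        push Not at hcon
        exact ht (ContinuousLinearMap.ext hcon)
      rcases lt_or_gt_of_ne hv with h1 | h1
      · exact ⟨-v, by rw [map_neg]; linarith⟩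
      · exact ⟨v, h1⟩
    have key2 : ∀ v : ℂ, 0 < fderiv ℝ (fun w => φ w 3) z v →
        fderiv ℝ (fun w => G (φ w)) z v = 0 := by
      intro v hv
      refine key v ?_
      have e2 : HasFDerivAt (fun w => φ w 3) (fderiv ℝ (fun w => φ w 3) z) (z + (0 : ℝ) • v) := by
        rw [zero_smul, add_zero]
        exact (diffAt (comp_at (coord_contDiff 3) (h.at hz))).hasFDerivAt
      have e3' : HasDerivAt ((fun w => φ w 3) ∘ fun s : ℝ => z + s • v)
          (fderiv ℝ (fun w => φ w 3) z v) 0 := e2.comp_hasDerivAt (0 : ℝ) (hline z v 0)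
      have e3 : HasDerivAt (fun s : ℝ => φ (z + s • v) 3) (fderiv ℝ (fun w => φ w 3) z v) 0 :=
        e3'
      have e4 := hasDerivAt_iff_tendsto_slope.1 e3
      have e5 : ∀ᶠ s in 𝓝[>] (0 : ℝ), 0 < slope (fun s : ℝ => φ (z + s • v) 3) 0 s :=
        (e4.mono_left (nhdsWithin_mono _ (fun s hs => ne_of_gt hs))).eventually (lt_mem_nhds hv)
      filter_upwards [e5, self_mem_nhdsWithin] with s hs hs0
      have hs0' : (0 : ℝ) < s := hs0
      rw [slope_def_field, sub_zero, zero_smul, add_zero, ← h0, sub_zero] at hs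
      have := mul_pos hs hs0'
      rw [div_mul_cancel₀ _ hs0'.ne'] at this
      exact this.le
    ext v
    obtain ⟨c, hc⟩ : ∃ c : ℝ, 0 < fderiv ℝ (fun w => φ w 3) z (v + c • v0) := by
      refine ⟨(1 - fderiv ℝ (fun w => φ w 3) z v) / fderiv ℝ (fun w => φ w 3) z v0, ?_⟩
      rw [map_add, map_smul, smul_eq_mul, div_mul_cancel₀ _ hv0.ne']
      norm_num
    have e1 := key2 _ hc
    rw [map_add, map_smul, key2 v0 hv0, smul_zero, add_zero] at e1
    exact e1
  · ext v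
    refine key v ?_
    have hc : ContinuousAt (fun s : ℝ => φ (z + s • v) 3) 0 := by
      have e1 : ContinuousAt (fun w => φ w 3) (z + (0 : ℝ) • v) := by
        rw [zero_smul, add_zero]
        exact (comp_at (coord_contDiff 3) (h.at hz)).continuousAt
      exact ContinuousAt.comp (f := fun s : ℝ => z + s • v) e1 (hline z v 0).continuousAt
    have h1 : ∀ᶠ s in 𝓝 (0 : ℝ), 0 < φ (z + s • v) 3 :=
      hc.eventually (lt_mem_nhds (by simpa using h0))
    exact (h1.filter_mono nhdsWithin_le_nhds).mono fun s hs => hs.le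

/-- critical points do not depend on the parametrisation -/
theorem crit_indep {F : Set R4} (hF : ∀ x ∈ F, 0 ≤ x 3) {φ φ' : ℂ → R4} {U U' : Set ℂ}
    {V V' : Set R4} (h : Param F φ U V) (h' : Param F φ' U' V') {z z' : ℂ} (hz : z ∈ U)
    (hz' : z' ∈ U') (hzz : φ z = φ' z') (hzF : φ z ∈ F) {G : R4 → ℝ} (hG : ContDiff ℝ ∞ G)
    (h0 : fderiv ℝ (fun w => G (φ w)) z = 0) : fderiv ℝ (fun w => G (φ' w)) z' = 0 := by
  have h1 := crit_on hF h hz hzF hG h0
  rw [hzz] at h1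
  exact crit_off h' hz' (by rw [← hzz]; exact hF _ hzF) hG h1

/-- a critical point with positive definite second derivative is a local minimum -/
theorem pd_min' {f : ℂ → ℝ} {U : Set ℂ} (hU : IsOpen U) (hs : ContDiffOn ℝ ∞ f U) {z : ℂ}
    (hz : z ∈ U) (h0 : fderiv ℝ f z = 0) (h : ∀ v, v ≠ 0 → 0 < q2 f z v) : IsLocalMin f z := by
  obtain ⟨κ, hκ, hκ'⟩ := pos_def h
  have c2 : ContinuousAt (fun z => fderiv ℝ (fderiv ℝ f) z) z :=
    (q2_cont hU hs).continuousAt (hU.mem_nhds hz)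
  have c4 : ∀ a b : ℂ, ContinuousAt (fun w => fderiv ℝ (fderiv ℝ f) w a b) z := fun a b =>
    (c2.clm_apply continuousAt_const).clm_apply continuousAt_const
  have c5 : ContinuousAt (fun w => E2 f z w) z := by
    unfold E2
    exact ((((c4 1 1).sub continuousAt_const).abs.add ((c4 1 Complex.I).sub
      continuousAt_const).abs).add ((c4 Complex.I 1).sub continuousAt_const).abs).add
      ((c4 Complex.I Complex.I).sub continuousAt_const).abs
  have h3 : ∀ᶠ w in 𝓝 z, E2 f z w < κ / 2 := by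
    refine c5.eventually (gt_mem_nhds ?_)
    have : E2 f z z = 0 := by simp [E2]
    show E2 f z z < κ / 2
    rw [this]
    positivity
  obtain ⟨r, hr, hr'⟩ := Metric.nhds_basis_ball.mem_iff.1 (h3.and (hU.mem_nhds hz))
  refine Filter.mem_of_superset (ball_mem_nhds z hr) fun w hw => ?_
  refine min_of_conv (convex_ball z r) (fun w hw => hs.contDiffAt (hU.mem_nhds (hr' hw).2))
    (fun w hw v => ?_) (mem_ball_self hr) hw h0
  have h4 : E2 f z w < κ / 2 := (hr' hw).1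
  have h5 : |q2 f w v - q2 f z v| ≤ κ / 2 * ‖v‖ ^ 2 :=
    (q2_diff f z w v).trans (mul_le_mul_of_nonneg_right h4.le (sq_nonneg _))
  have h6 := hκ' v
  have h7 := (abs_le.1 h5).1
  have h8 : 0 ≤ κ * ‖v‖ ^ 2 := by positivity
  linarith

/-- cups are local minima -/
theorem cups_min' {F : Set R4} (hF : ∀ x ∈ F, 0 ≤ x 3) {G : R4 → ℝ} (hG : ContDiff ℝ ∞ G) {p : R4}
    (hp : p ∈ cupsS F G) : IsLocalMinOn G F p := by
  obtain ⟨hpF, hp3, φ, U, V, z, hP, hz, rfl, h0, h⟩ := hp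
  have h1 : IsLocalMin (fun w => G (φ w)) z :=
    pd_min' hP.patch.isOpen (hG.comp_contDiffOn hP.patch.smooth) hz h0 h
  exact ev_on hF hP hz hpF h1

/-! ### Images under shears -/

theorem shear_dif {s : R4} (hs : s 3 = 0) : Dif (fun x : R4 => x + x 3 • s) univ := by
  have h3 : ∀ x : R4, (x + x 3 • s) 3 = x 3 := fun x => three_add_smul x hs _
  have hd : ∀ x v : R4, fderiv ℝ (fun x : R4 => x + x 3 • s) x v = v + v 3 • s := by
    intro x v
    have h1 : HasFDerivAt (fun x : R4 => x + x 3 • s)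
        (ContinuousLinearMap.id ℝ R4 + (EuclideanSpace.proj 3 : R4 →L[ℝ] ℝ).smulRight s) x :=
      (hasFDerivAt_id x).add ((EuclideanSpace.proj 3 : R4 →L[ℝ] ℝ).hasFDerivAt.smul_const s)
    rw [h1.fderiv]
    rfl
  refine ⟨contDiff_id.add ((coord_contDiff 3).smul contDiff_const), isOpen_univ, ?_, ?_, ?_, ?_⟩
  · intro x _ y _ hxy
    have e1 : x 3 = y 3 := by rw [← h3 x, ← h3 y]; exact congrArg (fun x : R4 => x 3) hxy
    simp only at hxy
    rw [e1] at hxy
    exact add_right_cancel hxy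
  · intro x _
    rw [injective_iff_map_eq_zero]
    intro v hv
    rw [hd] at hv
    have e1 : v 3 = 0 := by
      have := congrArg (fun x : R4 => x 3) hv
      simp only [h3] at this
      exact this
    rw [e1, zero_smul, add_zero] at hv
    exact hv
  · intro x _
    show (0 ≤ (x + x 3 • s) 3 ↔ 0 ≤ x 3) ∧ ((x + x 3 • s) 3 = 0 ↔ x 3 = 0)
    rw [h3]
    exact ⟨Iff.rfl, Iff.rfl⟩
  · intro x _ _
    refine ⟨1, one_ne_zero, fun v => ?_⟩
    rw [hd, h3, one_mul]

theorem good_image {F : Set R4} {G G' : R4 → ℝ} {Θ : R4 → R4} {D : Set R4} (hD : Dif Θ D)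
    (hFD : F ⊆ D) (hGG : ∀ x, G' (Θ x) = G x) (hs : ∀ x, Θ x 3 = x 3)
    (hg : GoodS F G) : GoodS (Θ '' F) G' := by
  rintro _ ⟨p, hp, rfl⟩
  obtain ⟨φ, U, V, z, hP, hz, hzp, h⟩ := hg p hp
  have hfun : (fun w => G' (Θ (φ w))) = fun w => G (φ w) := funext fun w => hGG _
  refine ⟨_, _, _, z, hP.image hD hFD, ⟨hz, by
    show φ z ∈ D
    rw [hzp]; exact hFD hp⟩, by
    show Θ (φ z) = Θ p
    rw [hzp], ?_⟩
  rw [hs]
  show fderiv ℝ (fun w => G' (Θ (φ w))) z = 0 → _
  simp only [hfun]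
  exact h

theorem cups_image {F : Set R4} {G G' : R4 → ℝ} {Θ : R4 → R4} {D : Set R4} (hD : Dif Θ D)
    (hFD : F ⊆ D) (hGG : ∀ x, G' (Θ x) = G x) (hs : ∀ x, Θ x 3 = x 3) {p : R4}
    (hp : p ∈ cupsS F G) : Θ p ∈ cupsS (Θ '' F) G' := by
  obtain ⟨hpF, hp3, φ, U, V, z, hP, hz, hzp, h0, h⟩ := hp
  have hfun : (fun w => G' (Θ (φ w))) = fun w => G (φ w) := funext fun w => hGG _
  refine ⟨mem_image_of_mem Θ hpF, by rw [hs]; exact hp3, _, _, _, z, hP.image hD hFD, ⟨hz, by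
    show φ z ∈ D
    rw [hzp]; exact hFD hpF⟩, by
    show Θ (φ z) = Θ p
    rw [hzp], ?_⟩
  simp only [hfun]
  exact ⟨h0, h⟩

theorem morse_image {F : Set R4} {Θ : R4 → R4} {D : Set R4} (hD : Dif Θ D)
    (hFD : F ⊆ D) (hs : ∀ x, Θ x 3 = x 3) (hM : MorseS F) : MorseS (Θ '' F) := by
  rintro _ ⟨p, hp, rfl⟩ hp3
  rw [hs] at hp3
  obtain ⟨φ, U, V, z, hP, hz, hzp, h⟩ := hM p hp hp3
  have hfun : (fun w => (Θ (φ w)) 3) = fun w => φ w 3 := funext fun w => hs _
  refine ⟨_, _, _, z, hP.image hD hFD, ⟨hz, by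
    show φ z ∈ D
    rw [hzp]; exact hFD hp⟩, by
    show Θ (φ z) = Θ p
    rw [hzp], ?_⟩
  simp only [hfun]
  exact h

theorem min_image {F : Set R4} {Θ : R4 → R4} (hΘ : Continuous Θ) (hs : ∀ x, Θ x 3 = x 3) :
    (minS (Θ '' F)).encard ≤ (minS F).encard := by
  have h1 : minS (Θ '' F) ⊆ Θ '' minS F := by
    rintro _ ⟨⟨p, hp, rfl⟩, hp3, hm⟩
    rw [hs] at hp3
    refine ⟨p, ⟨hp, hp3, ?_⟩, rfl⟩
    have ht : Tendsto Θ (𝓝[F] p) (𝓝[Θ '' F] (Θ p)) :=
      hΘ.continuousWithinAt.tendsto_nhdsWithin (mapsTo_image Θ F)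
    have h2 := ht.eventually hm
    simp only [hs] at h2
    exact h2
  exact (encard_le_encard h1).trans (encard_image_le _ _)

/-- **First theorem**: functions which grow in some direction. -/
theorem main_dirS {F : Set R4} (hF : TSurf F) {G : R4 → ℝ} (hG : ContDiff ℝ ∞ G) {w : R4}
    (hw : 0 < w 3) (hv : ∀ x, 0 ≤ fderiv ℝ G x w) (hg : GoodS F G) :
    ∃ f : R4 → ℝ, PushS F w f ∧ MorseS ((fun x => x + f x • w) '' F) ∧
      (minS ((fun x => x + f x • w) '' F)).encard ≤ (cupsS F G).encard := by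
  obtain ⟨s, hs⟩ : ∃ s : R4, s = (w 3)⁻¹ • w - vert := ⟨_, rfl⟩
  have hs3 : s 3 = 0 := by
    rw [hs, PiLp.sub_apply, PiLp.smul_apply, vert_three, smul_eq_mul, inv_mul_cancel₀ hw.ne',
      sub_self]
  have hwv : vert + s = (w 3)⁻¹ • w := by rw [hs]; abel
  have hns : (-s) 3 = 0 := by rw [PiLp.neg_apply, hs3, neg_zero]
  -- the shears
  obtain ⟨S, hS⟩ : ∃ S : R4 → R4, S = fun x => x + x 3 • s := ⟨_, rfl⟩
  obtain ⟨S', hS'⟩ : ∃ S' : R4 → R4, S' = fun x => x + x 3 • (-s) := ⟨_, rfl⟩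
  have dS : Dif S univ := by rw [hS]; exact shear_dif hs3
  have dS' : Dif S' univ := by rw [hS']; exact shear_dif hns
  have S3 : ∀ x, S x 3 = x 3 := fun x => by rw [hS]; exact three_add_smul x hs3 _
  have S'3 : ∀ x, S' x 3 = x 3 := fun x => by rw [hS']; exact three_add_smul x hns _
  have SS' : ∀ x, S (S' x) = x := by
    intro x
    have h1 : S (S' x) = S' x + (S' x) 3 • s := by rw [hS]
    rw [h1, S'3]
    have h2 : S' x = x + x 3 • (-s) := by rw [hS']
    rw [h2, smul_neg]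
    abel
  have S'S : ∀ x, S' (S x) = x := by
    intro x
    have h1 : S' (S x) = S x + (S x) 3 • (-s) := by rw [hS']
    rw [h1, S3]
    have h2 : S x = x + x 3 • s := by rw [hS]
    rw [h2, smul_neg]
    abel
  have hF' : TSurf (S' '' F) := dS'.surf hF (subset_univ _)
  have hG' : ContDiff ℝ ∞ (fun x : R4 => G (S x)) := hG.comp dS.smooth
  have hv' : ∀ x : R4, 0 ≤ fderiv ℝ (fun x : R4 => G (S x)) x vert := by
    intro x
    have h1 : HasFDerivAt S
        (ContinuousLinearMap.id ℝ R4 + (EuclideanSpace.proj 3 : R4 →L[ℝ] ℝ).smulRight s) x := by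
      rw [hS]
      exact (hasFDerivAt_id x).add
        ((EuclideanSpace.proj 3 : R4 →L[ℝ] ℝ).hasFDerivAt.smul_const s)
    have h2 : HasFDerivAt (fun x : R4 => G (S x))
        ((fderiv ℝ G (S x)).comp
          (ContinuousLinearMap.id ℝ R4 + (EuclideanSpace.proj 3 : R4 →L[ℝ] ℝ).smulRight s)) x :=
      ((hG.differentiable (by simp)) (S x)).hasFDerivAt.comp x h1
    rw [h2.fderiv]
    have h3 : ((fderiv ℝ G (S x)).comp
          (ContinuousLinearMap.id ℝ R4 + (EuclideanSpace.proj 3 : R4 →L[ℝ] ℝ).smulRight s)) vert =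
        fderiv ℝ G (S x) (vert + (vert 3) • s) := rfl
    rw [h3, vert_three, one_smul, hwv, map_smul, smul_eq_mul]
    exact mul_nonneg (inv_pos.2 hw).le (hv _)
  have hg' : GoodS (S' '' F) (fun x => G (S x)) :=
    good_image dS' (subset_univ _) (fun x => by simp only [SS']) S'3 hg
  have hSF : S '' (S' '' F) = F := by
    rw [image_image]
    simp only [SS', image_id']
  have hcc : (cupsS (S' '' F) (fun x => G (S x))).encard ≤ (cupsS F G).encard := by
    refine encard_le_encard_of_injOn (f := S) (fun p hp => ?_) (dS.inj.mono (subset_univ _))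
    have := cups_image dS (subset_univ _) (G' := G) (fun x => rfl) S3 hp
    rwa [hSF] at this
  obtain ⟨f, hpush, hM, hc⟩ := mainS hF' hG' hv' hg'
  have hkey : ∀ (t : ℝ) (x : R4), x + (t * (f (S' x) / w 3)) • w =
      S (S' x + (t * f (S' x)) • vert) := by
    intro t x
    have h1 : (S' x + (t * f (S' x)) • vert) 3 = x 3 + t * f (S' x) := by
      rw [PiLp.add_apply, PiLp.smul_apply, S'3, vert_three]
      simp
    have h2 : (t * (f (S' x) / w 3)) • w = (t * f (S' x)) • (vert + s) := by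
      rw [hwv, smul_smul]
      congr 1
      ring
    have h3 : S (S' x + (t * f (S' x)) • vert) = (S' x + (t * f (S' x)) • vert) +
        (S' x + (t * f (S' x)) • vert) 3 • s := by rw [hS]
    have h4 : S' x = x + x 3 • (-s) := by rw [hS']
    rw [h3, h1, h2, smul_add, add_smul]
    rw [h4, smul_neg]
    abel
  have hfun : ∀ t : ℝ, (fun x : R4 => x + (t * (f (S' x) / w 3)) • w) =
      fun x => S ((fun y => y + (t * f y) • vert) (S' x)) := fun t => funext (hkey t)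
  have himg : ∀ t : ℝ, (fun x : R4 => x + (t * (f (S' x) / w 3)) • w) '' F =
      S '' ((fun y => y + (t * f y) • vert) '' (S' '' F)) := by
    intro t
    rw [hfun t, image_image, image_image]
  have himg1 : (fun x : R4 => x + (f (S' x) / w 3) • w) '' F =
      S '' ((fun y => y + f y • vert) '' (S' '' F)) := by
    have := himg 1
    simp only [one_mul] at this
    exact this
  refine ⟨fun x => f (S' x) / w 3, ⟨?_, ?_, ?_, ?_⟩, ?_, ?_⟩
  · exact (hpush.smooth.comp dS'.smooth).div_const _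
  · intro x hx
    simp only
    rw [hpush.bdry (S' x) (by rw [S'3]; exact hx), zero_div]
  · intro t ht
    obtain ⟨D, hD, hFD, hinj, himm⟩ := hpush.diffeo t ht
    refine ⟨S' ⁻¹' D, hD.preimage dS'.smooth.continuous, fun x hx =>
      hFD (mem_image_of_mem S' hx), ?_, ?_⟩
    · rw [hfun t]
      intro x hx y hy hxy
      exact dS'.inj (mem_univ x) (mem_univ y)
        (hinj hx hy (dS.inj (mem_univ _) (mem_univ _) hxy))
    · intro x hx
      rw [hfun t]
      have e0 : ContDiff ℝ ∞ (fun y : R4 => y + (t * f y) • vert) :=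
        contDiff_id.add ((contDiff_const.mul hpush.smooth).smul contDiff_const)
      have e1 : HasFDerivAt S' (fderiv ℝ S' x) x :=
        ((dS'.smooth.differentiable (by simp)) x).hasFDerivAt
      have e2 := ((e0.differentiable (by simp)) (S' x)).hasFDerivAt
      have e3 := ((dS.smooth.differentiable (by simp))
        ((fun y : R4 => y + (t * f y) • vert) (S' x))).hasFDerivAt
      have e4 : HasFDerivAt (fun x => S ((fun y => y + (t * f y) • vert) (S' x)))
          ((fderiv ℝ S ((fun y : R4 => y + (t * f y) • vert) (S' x))).comp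
            ((fderiv ℝ (fun y : R4 => y + (t * f y) • vert) (S' x)).comp (fderiv ℝ S' x))) x :=
        e3.comp x (e2.comp x e1)
      rw [e4.fderiv]
      exact (dS.imm _ (mem_univ _)).comp ((himm _ hx).comp (dS'.imm _ (mem_univ _)))
  · intro t ht
    obtain ⟨h1, h2⟩ := hpush.surf t ht
    refine ⟨?_, fun x hx => ?_⟩
    · show TSurf ((fun x : R4 => x + (t * (f (S' x) / w 3)) • w) '' F)
      rw [himg t]
      exact dS.surf h1 (subset_univ _)
    · show (x + (t * (f (S' x) / w 3)) • w) 3 = 0 ↔ x 3 = 0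
      rw [hkey, S3, h2 _ (mem_image_of_mem S' hx), S'3]
  · show MorseS ((fun x : R4 => x + (f (S' x) / w 3) • w) '' F)
    rw [himg1]
    exact morse_image dS (subset_univ _) S3 hM
  · show (minS ((fun x : R4 => x + (f (S' x) / w 3) • w) '' F)).encard ≤ _
    rw [himg1]
    exact (min_image dS.smooth.continuous S3).trans (hc.trans hcc)

end Run7.h421.RS
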