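import Mathlib
import Pool.Agent.Run7.h421.RSe

/-!
Surfaces in the half-space: linear functions, turning upside down, isotopies.
-/

set_option autoImplicit false

namespace Run7.h421.RS

open scoped ContDiff RealInnerProductSpace Topology
open Set Metric Filter
open Run7.h421.RP
open Pool.Agent.N503.ML (vert vert_three inner_vert norm_vert)

theorem lin_cd (y : R4) : ContDiff ℝ ∞ (fun x : R4 => ⟪y, x⟫) := contDiff_const.inner ℝ contDiff_id

/-- the local minima of a linear function in the interior -/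
def lmin (F : Set R4) (x : R4) : Set R4 :=
  {p | p ∈ F ∧ 0 < p 3 ∧ IsLocalMinOn (fun q => ⟪x, q⟫) F p}

/-- **Perturbation** of linear functions. -/
theorem ev_linS' {F : Set R4} (hF : TSurf F) {y : R4} (hg : GoodS F (fun x => ⟪y, x⟫)) :
    ∀ᶠ x in 𝓝 y, GoodS F (fun p => ⟪x, p⟫) ∧
      (lmin F x).encard ≤ (cupsS F (fun p => ⟪y, p⟫)).encard := by
  obtain ⟨t, d, κ, hκ, hd, hcov⟩ := family hF (lin_cd y) hg
  have hφs : ∀ p ∈ t, ∀ w ∈ (d p).U, ContDiffAt ℝ ∞ (d p).φ w := fun p hp w hw =>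
    (hd p hp).par.at hw
  have hhs : ∀ p ∈ t, ∀ w ∈ (d p).U, ContDiffAt ℝ ∞ (fun w => (d p).φ w 3) w := fun p hp w hw =>
    (coord_contDiff 3).contDiffAt.comp w (hφs p hp w hw)
  have hK : ∀ p ∈ t, IsCompact (closedBall (d p).z (d p).r ∩ {w | 0 ≤ (d p).φ w 3}) := by
    intro p hp
    have c0 : ContinuousOn (fun w => (d p).φ w 3) (closedBall (d p).z (d p).r) :=
      (coord_contDiff 3).continuous.comp_continuousOn
        ((hd p hp).par.patch.smooth.continuousOn.mono (hd p hp).sub)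
    have h1 : IsClosed (closedBall (d p).z (d p).r ∩ (fun w => (d p).φ w 3) ⁻¹' Ici 0) :=
      c0.preimage_isClosed_of_isClosed isClosed_closedBall isClosed_Ici
    exact (isCompact_closedBall (d p).z (d p).r).of_isClosed_subset h1 inter_subset_left
  -- pieces without cups
  have hA : ∀ p ∈ t, TyA (fun x => ⟪y, x⟫) κ (d p) → ∀ᶠ x in 𝓝 y,
      ∀ z ∈ closedBall (d p).z (d p).r ∩ {w | 0 ≤ (d p).φ w 3},
      (∃ v, ⟪x, fderiv ℝ (d p).φ z v⟫ ≠ 0) ∨
      (0 < (d p).φ z 3 ∧ ∃ v, ⟪x, fderiv ℝ (fderiv ℝ (d p).φ) z v v⟫ < 0) := by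
    intro p hp hty
    refine evA (hK p hp) (fun z hz => hφs p hp z ((hd p hp).sub hz.1))
      (h := fun w => (d p).φ w 3) (fun z hz => (hhs p hp z ((hd p hp).sub hz.1)).continuousAt) ?_
    rintro z ⟨hz, hz0⟩
    have hzU := (hd p hp).sub hz
    by_cases h0 : ∃ v, ⟪y, fderiv ℝ (d p).φ z v⟫ ≠ 0
    · exact Or.inl h0
    · push Not at h0
      right
      have h1 : fderiv ℝ (fun w => ⟪y, (d p).φ w⟫) z = 0 := by
        ext v
        rw [(hess0 (hφs p hp z hzU) y).1 v, h0 v]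
        rfl
      have hzF : (d p).φ z ∈ F := (hd p hp).par.memF hzU hz0
      obtain ⟨φ', U', V', z', hP', hz', hzz', hcr⟩ := hg _ hzF
      have h2 : fderiv ℝ (fun w => ⟪y, φ' w⟫) z' = 0 :=
        crit_indep hF.nonneg (hd p hp).par hP' hzU hz' hzz'.symm hzF (lin_cd y) h1
      refine ⟨(hcr h2).1, ?_⟩
      rcases hty z hz with h5 | ⟨v, hv1, hv2⟩
      · exfalso
        have h6 : fderiv ℝ (fun w => (fun x : R4 => ⟪y, x⟫) ((d p).φ w)) z = 0 := h1
        rw [h6, norm_zero] at h5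
        linarith
      · refine ⟨v, ?_⟩
        have h6 : q2 (fun w => ⟪y, (d p).φ w⟫) z v ≤ -κ := hv2
        rw [q2_inner (hφs p hp z hzU)] at h6
        linarith
  -- pieces with a cup
  have hB : ∀ p ∈ t, TyB F (fun x => ⟪y, x⟫) κ p (d p) → ∀ᶠ x in 𝓝 y,
      ∀ z ∈ closedBall (d p).z (d p).r, ∀ v, v ≠ 0 →
        0 < ⟪x, fderiv ℝ (fderiv ℝ (d p).φ) z v v⟫ := by
    intro p hp hty
    refine evB (isCompact_closedBall _ _) (fun z hz => hφs p hp z ((hd p hp).sub hz)) ?_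
    intro z hz v hv0
    have h1 : κ * ‖v‖ ^ 2 ≤ q2 (fun w => ⟪y, (d p).φ w⟫) z v := (hty.2 z hz).2 v
    rw [q2_inner (hφs p hp z ((hd p hp).sub hz))] at h1
    have : 0 < κ * ‖v‖ ^ 2 := by positivity
    linarith
  have hall : ∀ᶠ x in 𝓝 y, ∀ p ∈ t, (TyA (fun x => ⟪y, x⟫) κ (d p) →
      ∀ z ∈ closedBall (d p).z (d p).r ∩ {w | 0 ≤ (d p).φ w 3},
      (∃ v, ⟪x, fderiv ℝ (d p).φ z v⟫ ≠ 0) ∨
      (0 < (d p).φ z 3 ∧ ∃ v, ⟪x, fderiv ℝ (fderiv ℝ (d p).φ) z v v⟫ < 0)) ∧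
      (TyB F (fun x => ⟪y, x⟫) κ p (d p) → ∀ z ∈ closedBall (d p).z (d p).r, ∀ v, v ≠ 0 →
        0 < ⟪x, fderiv ℝ (fderiv ℝ (d p).φ) z v v⟫) := by
    rw [Filter.eventually_all_finset]
    intro p hp
    refine Filter.Eventually.and ?_ ?_
    · by_cases hty : TyA (fun x => ⟪y, x⟫) κ (d p)
      · exact (hA p hp hty).mono fun x hx _ => hx
      · exact Filter.Eventually.of_forall fun x h => absurd h hty
    · by_cases hty : TyB F (fun x => ⟪y, x⟫) κ p (d p)
      · exact (hB p hp hty).mono fun x hx _ => hx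
      · exact Filter.Eventually.of_forall fun x h => absurd h hty
  filter_upwards [hall] with x hxt
  have hsm : ∀ p ∈ t, ∀ w ∈ (d p).U, ContDiffAt ℝ ∞ (fun w => ⟪x, (d p).φ w⟫) w :=
    fun p hp w hw => contDiffAt_const.inner ℝ (hφs p hp w hw)
  refine ⟨?_, ?_⟩
  · intro p' hp'
    obtain ⟨p, hp, hpN⟩ := hcov p' hp'
    obtain ⟨w, hw, rfl⟩ := (hd p hp).cov ⟨hp', hpN⟩
    have hwc := ball_subset_closedBall hw
    have hwU := (hd p hp).sub hwc
    have hw0 := hF.nonneg _ hp'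
    refine ⟨_, _, _, w, (hd p hp).par, hwU, rfl, fun h0 => ?_⟩
    have h0' : fderiv ℝ (fun w => ⟪x, (d p).φ w⟫) w = 0 := h0
    rcases (hd p hp).typ with hty | hty
    · rcases (hxt p hp).1 hty w ⟨hwc, hw0⟩ with ⟨v, hv⟩ | ⟨h3, v, hv⟩
      · exfalso
        apply hv
        rw [← (hess0 (hφs p hp w hwU) x).1 v, h0']
        rfl
      · refine ⟨h3, Or.inl ⟨v, ?_⟩⟩
        show q2 (fun w => ⟪x, (d p).φ w⟫) w v < 0
        rw [q2_inner (hφs p hp w hwU)]
        exact hv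
    · refine ⟨(hty.2 w hwc).1, Or.inr fun v hv => ?_⟩
      show 0 < q2 (fun w => ⟪x, (d p).φ w⟫) w v
      rw [q2_inner (hφs p hp w hwU)]
      exact (hxt p hp).2 hty w hwc v hv
  · -- counting
    have h1 : ∀ y' ∈ lmin F x, ∃ p : R4, ∃ w : ℂ,
        p ∈ t ∧ TyB F (fun x => ⟪y, x⟫) κ p (d p) ∧ w ∈ closedBall (d p).z (d p).r ∧
        (d p).φ w = y' ∧ fderiv ℝ (fun w => ⟪x, (d p).φ w⟫) w = 0 := by
      intro y' hy'
      have hmin := hy'.2.2
      obtain ⟨p, hp, hpN⟩ := hcov y' hy'.1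
      obtain ⟨w, hw, rfl⟩ := (hd p hp).cov ⟨hy'.1, hpN⟩
      have hwc := ball_subset_closedBall hw
      have hwU := (hd p hp).sub hwc
      have hloc : IsLocalMin (fun w => ⟪x, (d p).φ w⟫) w :=
        ev_off (hd p hp).par hwU hy'.2.1 hmin
      have hcr := hloc.fderiv_eq_zero
      have hty : TyB F (fun x => ⟪y, x⟫) κ p (d p) := by
        rcases (hd p hp).typ with hA' | hB'
        · exfalso
          rcases (hxt p hp).1 hA' w ⟨hwc, hy'.2.1.le⟩ with ⟨v, hv'⟩ | ⟨-, v, hv'⟩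
          · apply hv'
            rw [← (hess0 (hφs p hp w hwU) x).1 v, hcr]
            rfl
          · have h2 := soc (hsm p hp w hwU) hloc v
            rw [q2_inner (hφs p hp w hwU)] at h2
            linarith
        · exact hB'
      exact ⟨p, w, hp, hty, hwc, rfl, hcr⟩
    choose! p w hpt' hty hwc hwy hcr using h1
    refine encard_le_encard_of_injOn (f := p) (fun y' hy' => (hty y' hy').1) ?_
    intro y1 hy1 y2 hy2 h12
    rw [← hwy y1 hy1, ← hwy y2 hy2, h12]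
    congr 1
    have g1 := hwc y1 hy1
    have g2 := hwc y2 hy2
    have g3 := hcr y1 hy1
    rw [h12] at g1 g3
    refine one_crit (f := fun w => ⟪x, (d (p y2)).φ w⟫)
      (convex_closedBall (d (p y2)).z (d (p y2)).r) (fun z hz => ?_) (fun z hz v hv0 => ?_)
      g1 g2 g3 (hcr y2 hy2)
    · exact hsm _ (hpt' y2 hy2) z ((hd _ (hpt' y2 hy2)).sub hz)
    · rw [q2_inner (hφs _ (hpt' y2 hy2) z ((hd _ (hpt' y2 hy2)).sub hz))]
      exact (hxt _ (hpt' y2 hy2)).2 (hty y2 hy2) z hz v hv0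

theorem cups_lmin {F : Set R4} (hF : TSurf F) (x : R4) :
    cupsS F (fun p => ⟪x, p⟫) ⊆ lmin F x := fun _ hp =>
  ⟨hp.1, hp.2.1, cups_min' hF.nonneg (lin_cd x) hp⟩

theorem ev_linS {F : Set R4} (hF : TSurf F) {y : R4} (hg : GoodS F (fun x => ⟪y, x⟫)) :
    ∀ᶠ x in 𝓝 y, GoodS F (fun p => ⟪x, p⟫) ∧
      (cupsS F (fun p => ⟪x, p⟫)).encard ≤ (cupsS F (fun p => ⟪y, p⟫)).encard :=
  (ev_linS' hF hg).mono fun x hx => ⟨hx.1, (encard_le_encard (cups_lmin hF x)).trans hx.2⟩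

/-- **Second theorem**: linear functions. -/
theorem linS {F : Set R4} (hF : TSurf F) {y : R4} (hg : GoodS F (fun x => ⟪y, x⟫)) :
    ∃ (w : R4) (f : R4 → ℝ), 0 < w 3 ∧ PushS F w f ∧ MorseS ((fun x => x + f x • w) '' F) ∧
      (minS ((fun x => x + f x • w) '' F)).encard ≤ (cupsS F (fun x => ⟪y, x⟫)).encard := by
  -- a direction with a horizontal component
  obtain ⟨x, hx0, hxg, hxc⟩ : ∃ x : R4, x 0 ≠ 0 ∧ GoodS F (fun p => ⟪x, p⟫) ∧
      (cupsS F (fun p => ⟪x, p⟫)).encard ≤ (cupsS F (fun p => ⟪y, p⟫)).encard := by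
    by_cases hy0 : y 0 = 0
    · have hev := ev_linS hF hg
      have ht : Tendsto (fun δ : ℝ => y + δ • (EuclideanSpace.single 0 1 : R4)) (𝓝[>] 0) (𝓝 y) := by
        have hc : Continuous (fun δ : ℝ => y + δ • (EuclideanSpace.single 0 1 : R4)) := by fun_prop
        have := hc.tendsto 0
        rw [zero_smul, add_zero] at this
        exact this.mono_left nhdsWithin_le_nhds
      obtain ⟨δ, hδ1, hδ2⟩ := ((ht.eventually hev).and self_mem_nhdsWithin).exists
      refine ⟨_, ?_, hδ1.1, hδ1.2⟩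
      have : (0 : ℝ) < δ := hδ2
      simp [hy0, this.ne']
    · exact ⟨y, hy0, hg, le_rfl⟩
  obtain ⟨s, hs⟩ : ∃ s : R4, s = x - (x 3) • vert := ⟨_, rfl⟩
  have hs3 : s 3 = 0 := by
    rw [hs, PiLp.sub_apply, PiLp.smul_apply, vert_three]
    simp
  have hs0 : s ≠ 0 := by
    intro h0
    apply hx0
    have h1 : s 0 = x 0 := by
      rw [hs, PiLp.sub_apply, PiLp.smul_apply]
      simp [vert]
    rw [← h1, h0]
    rfl
  have hn : 0 < ‖s‖ ^ 2 := by positivity
  have hxs : ⟪x, s⟫ = ‖s‖ ^ 2 := by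
    have h1 : x = s + (x 3) • vert := by rw [hs]; abel
    calc ⟪x, s⟫ = ⟪s + (x 3) • vert, s⟫ := by rw [← h1]
      _ = ‖s‖ ^ 2 := by
        rw [inner_add_left, real_inner_smul_left, inner_vert, hs3, real_inner_self_eq_norm_sq]
        ring
  obtain ⟨w, hw⟩ : ∃ w : R4, w = vert + (|x 3| / ‖s‖ ^ 2) • s := ⟨_, rfl⟩
  have hw3 : w 3 = 1 := by
    rw [hw, PiLp.add_apply, PiLp.smul_apply, vert_three, hs3]
    simp
  have hxw : 0 ≤ ⟪x, w⟫ := by
    rw [hw, inner_add_right, real_inner_smul_right, hxs, real_inner_comm, inner_vert]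
    have : |x 3| / ‖s‖ ^ 2 * ‖s‖ ^ 2 = |x 3| := by field_simp
    rw [this]
    linarith [neg_abs_le (x 3)]
  obtain ⟨f, h1, h2, h3⟩ := main_dirS hF (G := fun p => ⟪x, p⟫) (lin_cd x)
    (w := w) (by rw [hw3]; norm_num) (fun p => by
      have h1 : HasFDerivAt (fun p : R4 => ⟪x, p⟫) (innerSL ℝ x) p := (innerSL ℝ x).hasFDerivAt
      rw [h1.fderiv]
      exact hxw) hxg
  exact ⟨w, f, by rw [hw3]; norm_num, h1, h2, h3.trans hxc⟩

/-! ### Isotopies -/

theorem stepS_surf {F F' : Set R4} (h : StepS F F') : TSurf F' := by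
  obtain ⟨w, f, hp, rfl⟩ := h
  have := (hp.surf 1 (right_mem_Icc.2 zero_le_one)).1
  simpa using this

theorem isoS_surf {F F' : Set R4} (h : IsotopicS F F') (hF : TSurf F) : TSurf F' := by
  unfold IsotopicS at h
  induction h with
  | refl => exact hF
  | tail _ hs _ => exact stepS_surf hs

theorem pushS_step {F : Set R4} {w : R4} {f : R4 → ℝ} (h : PushS F w f) :
    StepS F ((fun x => x + f x • w) '' F) := ⟨w, f, h, rfl⟩

theorem shearS_step {F : Set R4} (hF : TSurf F) {s : R4} (hs : s 3 = 0) (R : ℝ) :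
    StepS F ((fun x => x + (R * x 3) • s) '' F) := by
  have hts : ∀ t : ℝ, ((t * R) • s) 3 = 0 := fun t => by rw [PiLp.smul_apply, hs, smul_zero]
  have hfun : ∀ t : ℝ, (fun x : R4 => x + (t * (R * x 3)) • s) =
      fun x => x + x 3 • ((t * R) • s) := by
    intro t
    funext x
    rw [smul_smul]
    congr 2
    ring
  refine ⟨s, fun x => R * x 3, ⟨contDiff_const.mul (coord_contDiff 3), ?_, ?_, ?_⟩, rfl⟩
  · intro x hx
    simp only
    rw [hx, mul_zero]
  · intro t _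
    refine ⟨univ, isOpen_univ, subset_univ _, ?_, ?_⟩
    · rw [hfun t]
      exact (shear_dif (hts t)).inj
    · rw [hfun t]
      exact (shear_dif (hts t)).imm
  · intro t _
    refine ⟨?_, fun x _ => ?_⟩
    · rw [hfun t]
      exact (shear_dif (hts t)).surf hF (subset_univ _)
    · rw [three_add_smul _ hs]

/-! ### The height -/

theorem height_good {F : Set R4} (hF : TSurf F) (hM : MorseS F) {c : ℝ} (hc : c ≠ 0) :
    GoodS F (fun x => ⟪c • vert, x⟫) := by
  have hfun : ∀ φ : ℂ → R4, (fun w => ⟪c • vert, φ w⟫) = fun w => c * φ w 3 := by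
    intro φ
    funext w
    rw [real_inner_smul_left, inner_vert]
  intro p hp
  rcases eq_or_lt_of_le (hF.nonneg p hp) with h0 | h0
  · obtain ⟨φ, U, V, hP, hV⟩ := hF.loc p hp
    have h1 : p ∈ φ '' U ∩ {x | 0 ≤ x 3} := by
      rw [← hP.eq]
      exact ⟨hp, hV⟩
    obtain ⟨⟨z, hz, rfl⟩, -⟩ := h1
    refine ⟨φ, U, V, z, hP, hz, rfl, fun h2 => ?_⟩
    exfalso
    have h3 : fderiv ℝ (fun w => c * φ w 3) z = 0 := by rw [← hfun]; exact h2
    rw [fd_scale] at h3
    exact hP.patch.transv z hz h0.symm ((smul_eq_zero.1 (h3 :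
      c • fderiv ℝ (fun w => φ w 3) z = 0)).resolve_left hc)
  · obtain ⟨φ, U, V, z, hP, hz, hzp, h⟩ := hM p hp h0
    refine ⟨φ, U, V, z, hP, hz, hzp, fun h2 => ⟨h0, ?_⟩⟩
    have h3 : fderiv ℝ (fun w => c * φ w 3) z = 0 := by rw [← hfun]; exact h2
    rw [fd_scale] at h3
    have h4 : fderiv ℝ (fun w => φ w 3) z = 0 := (smul_eq_zero.1 (h3 :
      c • fderiv ℝ (fun w => φ w 3) z = 0)).resolve_left hc
    have h5 := h h4
    have h6 := desc_or_pd (f := fun w => c * φ w 3) (z := z)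
      (contDiffAt_const.mul (comp_at (coord_contDiff 3) (hP.at hz))) (fun u hu => h5 u fun v => by
        have := hu v
        rw [fd2_scale] at this
        exact (mul_eq_zero.1 (this :
          c * fderiv ℝ (fderiv ℝ (fun w => φ w 3)) z u v = 0)).resolve_left hc)
    rw [← hfun] at h6
    exact h6

theorem cups_minS {F : Set R4} (hF : TSurf F) {c : ℝ} (hc : 0 < c) :
    cupsS F (fun x => ⟪c • vert, x⟫) ⊆ minS F := by
  intro p hp
  refine ⟨hp.1, hp.2.1, ?_⟩
  have h1 := cups_min' hF.nonneg (lin_cd _) hp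
  refine Filter.Eventually.mono h1 fun x hx => ?_
  simp only [real_inner_smul_left, inner_vert] at hx
  exact le_of_mul_le_mul_left hx hc

theorem cups_maxS {F : Set R4} (hF : TSurf F) {c : ℝ} (hc : c < 0) :
    cupsS F (fun x => ⟪c • vert, x⟫) ⊆ maxS F := by
  intro p hp
  refine ⟨hp.1, hp.2.1, ?_⟩
  have h1 := cups_min' hF.nonneg (lin_cd _) hp
  refine Filter.Eventually.mono h1 fun x hx => ?_
  simp only [real_inner_smul_left, inner_vert] at hx
  show x 3 ≤ p 3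
  by_contra hcon
  push Not at hcon
  have := mul_lt_mul_of_neg_left hcon hc
  linarith

/-- **Third theorem**: turning the surface upside down. -/
theorem turnS {F : Set R4} (hF : TSurf F) (hM : MorseS F) :
    ∃ (w : R4) (f : R4 → ℝ), 0 < w 3 ∧ PushS F w f ∧ MorseS ((fun x => x + f x • w) '' F) ∧
      (minS ((fun x => x + f x • w) '' F)).encard ≤ (maxS F).encard := by
  obtain ⟨w, f, h1, h2, h3, h4⟩ := linS hF (height_good hF hM (c := -1) (by norm_num))
  exact ⟨w, f, h1, h2, h3, h4.trans (encard_le_encard (cups_maxS hF (by norm_num)))⟩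

/-! ### Characterisation -/

theorem good_scaleS {F : Set R4} {y : R4} {c : ℝ} (hc : 0 < c)
    (h : GoodS F (fun x => ⟪y, x⟫)) : GoodS F (fun x => ⟪c • y, x⟫) := by
  intro p hp
  obtain ⟨φ, U, V, z, hP, hz, hzp, h1⟩ := h p hp
  have hfun : (fun w => (fun x : R4 => ⟪c • y, x⟫) (φ w)) = fun w => c * ⟪y, φ w⟫ := by
    funext w
    exact real_inner_smul_left _ _ _
  refine ⟨φ, U, V, z, hP, hz, hzp, fun h0 => ?_⟩
  rw [hfun] at h0 ⊢
  rw [fd_scale] at h0
  obtain ⟨h2, h3⟩ := h1 ((smul_eq_zero.1 (h0 : c • fderiv ℝ (fun w => ⟪y, φ w⟫) z = 0)).resolve_left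
    hc.ne')
  refine ⟨h2, ?_⟩
  rcases h3 with ⟨v, hv⟩ | h3
  · exact Or.inl ⟨v, by rw [q2_scale]; exact mul_neg_of_pos_of_neg hc hv⟩
  · exact Or.inr fun v hv => by rw [q2_scale]; exact mul_pos hc (h3 v hv)

theorem cups_scaleS {F : Set R4} {y : R4} {c : ℝ} (hc : 0 < c) :
    cupsS F (fun x => ⟪c • y, x⟫) ⊆ cupsS F (fun x => ⟪y, x⟫) := by
  rintro p ⟨hp, hp3, φ, U, V, z, hP, hz, hzp, h0, h⟩
  have hfun : (fun w => (fun x : R4 => ⟪c • y, x⟫) (φ w)) = fun w => c * ⟪y, φ w⟫ := by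
    funext w
    exact real_inner_smul_left _ _ _
  rw [hfun] at h0 h
  rw [fd_scale] at h0
  refine ⟨hp, hp3, φ, U, V, z, hP, hz, hzp, (smul_eq_zero.1 (h0 :
    c • fderiv ℝ (fun w => ⟪y, φ w⟫) z = 0)).resolve_left hc.ne', fun v hv => ?_⟩
  have h1 := h v hv
  rw [q2_scale] at h1
  exact (mul_pos_iff_of_pos_left hc).1 h1

/-- **Fourth theorem**: the number of minima in the isotopy class, through linear functions. -/
theorem char_linS {F : Set R4} (hF : TSurf F) (m : ℕ∞) {y : R4}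
    (hy : ∀ c : ℝ, c ≤ 0 → y ≠ c • vert) :
    (∃ F' : Set R4, IsotopicS F F' ∧ MorseS F' ∧ (minS F').encard ≤ m) ↔
    (∃ F' : Set R4, IsotopicS F F' ∧ GoodS F' (fun x => ⟪y, x⟫) ∧
      (cupsS F' (fun x => ⟪y, x⟫)).encard ≤ m) := by
  constructor
  · rintro ⟨F', hi, hM, hm⟩
    have hF' := isoS_surf hi hF
    have hg1 : GoodS F' (fun x => ⟪vert, x⟫) := by
      have := height_good hF' hM (c := 1) one_ne_zero
      rwa [one_smul] at this
    have hc1 : (cupsS F' (fun x => ⟪vert, x⟫)).encard ≤ m := by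
      have := cups_minS hF' one_pos
      rw [one_smul] at this
      exact (encard_le_encard this).trans hm
    obtain ⟨s, hs⟩ : ∃ s : R4, s = y - (y 3) • vert := ⟨_, rfl⟩
    have hys : y = s + (y 3) • vert := by rw [hs]; abel
    have hs3 : s 3 = 0 := by
      rw [hs, PiLp.sub_apply, PiLp.smul_apply, vert_three]
      simp
    by_cases hs0 : s = 0
    · rw [hs0, zero_add] at hys
      have hy3 : 0 < y 3 := by
        by_contra hcon
        exact hy _ (not_lt.1 hcon) hys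
      rw [hys]
      exact ⟨F', hi, good_scaleS hy3 hg1, (encard_le_encard (cups_scaleS hy3)).trans hc1⟩
    · have hn : 0 < ‖s‖ ^ 2 := by positivity
      have hyy : ⟪y, s⟫ = ‖s‖ ^ 2 := by
        calc ⟪y, s⟫ = ⟪s + (y 3) • vert, s⟫ := by rw [← hys]
          _ = ‖s‖ ^ 2 := by
            rw [inner_add_left, real_inner_smul_left, inner_vert, hs3,
              real_inner_self_eq_norm_sq]
            ring
      have hev := ev_linS hF' hg1
      have ht : Tendsto (fun δ : ℝ => vert + δ • y) (𝓝[>] 0) (𝓝 vert) := by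
        have hc : Continuous (fun δ : ℝ => vert + δ • y) := by fun_prop
        have := hc.tendsto 0
        rw [zero_smul, add_zero] at this
        exact this.mono_left nhdsWithin_le_nhds
      obtain ⟨δ, hδ1, hδ2⟩ := ((ht.eventually hev).and self_mem_nhdsWithin).exists
      have hδ : 0 < δ := hδ2
      -- the shear takes `⟨y, ·⟩` to a multiple of `⟨vert + δ y, ·⟩`
      have hR3 : ((δ * ‖s‖ ^ 2)⁻¹ • s) 3 = 0 := by rw [PiLp.smul_apply, hs3, smul_zero]
      have dS := shear_dif hR3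
      have hSfun : (fun x : R4 => x + ((δ * ‖s‖ ^ 2)⁻¹ * x 3) • s) =
          fun x => x + x 3 • ((δ * ‖s‖ ^ 2)⁻¹ • s) := by
        funext x
        rw [smul_smul, mul_comm]
      have hS3 : ∀ x : R4, (x + x 3 • ((δ * ‖s‖ ^ 2)⁻¹ • s)) 3 = x 3 := fun x =>
        three_add_smul x hR3 _
      have hval : ∀ x : R4, ⟪y, x + x 3 • ((δ * ‖s‖ ^ 2)⁻¹ • s)⟫ =
          ⟪δ⁻¹ • (vert + δ • y), x⟫ := by
        intro x
        rw [inner_add_right, real_inner_smul_right, real_inner_smul_right, hyy,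
          real_inner_smul_left, inner_add_left, real_inner_smul_left, inner_vert]
        field_simp
        ring
      have hR3' : (-((δ * ‖s‖ ^ 2)⁻¹ • s)) 3 = 0 := by rw [PiLp.neg_apply, hR3, neg_zero]
      have dS' := shear_dif hR3'
      have hS3' : ∀ x : R4, (x + x 3 • (-((δ * ‖s‖ ^ 2)⁻¹ • s))) 3 = x 3 := fun x =>
        three_add_smul x hR3' _
      have hinv : ∀ x : R4, (fun x : R4 => x + x 3 • (-((δ * ‖s‖ ^ 2)⁻¹ • s)))
          ((fun x : R4 => x + x 3 • ((δ * ‖s‖ ^ 2)⁻¹ • s)) x) = x := by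
        intro x
        simp only
        rw [hS3, smul_neg]
        abel
      have hinv' : ∀ x : R4, (fun x : R4 => x + x 3 • ((δ * ‖s‖ ^ 2)⁻¹ • s))
          ((fun x : R4 => x + x 3 • (-((δ * ‖s‖ ^ 2)⁻¹ • s))) x) = x := by
        intro x
        simp only
        rw [hS3', smul_neg]
        abel
      have hgs : GoodS F' (fun x => ⟪δ⁻¹ • (vert + δ • y), x⟫) :=
        good_scaleS (inv_pos.2 hδ) hδ1.1
      have hcs : (cupsS F' (fun x => ⟪δ⁻¹ • (vert + δ • y), x⟫)).encard ≤ m :=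
        (encard_le_encard (cups_scaleS (inv_pos.2 hδ))).trans (hδ1.2.trans hc1)
      refine ⟨_, hi.tail (shearS_step hF' hs3 ((δ * ‖s‖ ^ 2)⁻¹)), ?_, ?_⟩
      · rw [hSfun]
        exact good_image dS (subset_univ _) (fun x => hval x) hS3 hgs
      · refine le_trans ?_ hcs
        rw [hSfun]
        refine encard_le_encard_of_injOn
          (f := fun x : R4 => x + x 3 • (-((δ * ‖s‖ ^ 2)⁻¹ • s))) (fun p hp => ?_)
          (dS'.inj.mono (subset_univ _))
        have := cups_image dS' (subset_univ _) (G' := fun x => ⟪δ⁻¹ • (vert + δ • y), x⟫)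
          (fun x => by
            have h1 := hval (x + x 3 • (-((δ * ‖s‖ ^ 2)⁻¹ • s)))
            have h2 := hinv' x
            simp only at h2
            rw [h2] at h1
            exact h1.symm) hS3' hp
        rw [image_image] at this
        simp only [hinv] at this
        rwa [image_id'] at this
  · rintro ⟨F', hi, hg, hm⟩
    obtain ⟨w, f, -, hp, hM, hc⟩ := linS (isoS_surf hi hF) hg
    exact ⟨_, hi.tail (pushS_step hp), hM, hc.trans hm⟩

/-- the same for functions which grow in some direction -/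
theorem char_funS {F : Set R4} (hF : TSurf F) (m : ℕ∞) :
    (∃ F' : Set R4, IsotopicS F F' ∧ MorseS F' ∧ (minS F').encard ≤ m) ↔
    (∃ (F' : Set R4) (G : R4 → ℝ) (w : R4), IsotopicS F F' ∧ ContDiff ℝ ∞ G ∧ 0 < w 3 ∧
      (∀ x, 0 ≤ fderiv ℝ G x w) ∧ GoodS F' G ∧ (cupsS F' G).encard ≤ m) := by
  constructor
  · rintro ⟨F', hi, hM, hm⟩
    have hF' := isoS_surf hi hF
    refine ⟨F', fun x => ⟪(1 : ℝ) • vert, x⟫, vert, hi, lin_cd _, by rw [vert_three]; norm_num,
      ?_, height_good hF' hM one_ne_zero, (encard_le_encard (cups_minS hF' one_pos)).trans hm⟩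
    intro x
    have h1 : HasFDerivAt (fun x : R4 => ⟪(1 : ℝ) • vert, x⟫) (innerSL ℝ ((1 : ℝ) • vert)) x :=
      (innerSL ℝ ((1 : ℝ) • vert)).hasFDerivAt
    rw [h1.fderiv]
    show 0 ≤ ⟪(1 : ℝ) • vert, vert⟫
    rw [real_inner_smul_left, inner_vert, vert_three]
    norm_num
  · rintro ⟨F', G, w, hi, hG, hw, hv, hg, hm⟩
    obtain ⟨f, hp, hM, hc⟩ := main_dirS (isoS_surf hi hF) hG hw hv hg
    exact ⟨_, hi.tail (pushS_step hp), hM, hc.trans hm⟩

end Run7.h421.RS
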