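import Mathlib
import Pool.Agent.N15.SF.Half
import Pool.Agent.Run7.h421.RPl
import Pool.Agent.Run7.h421.RSf

/-!
Surfaces in the half-space: curvature.
-/

set_option autoImplicit false

namespace Run7.h421.RS

open scoped ContDiff RealInnerProductSpace Topology ENNReal
open Set Metric Filter MeasureTheory
open Run7.h421.RP
open Pool.Agent.N503.ML (vert vert_three inner_vert norm_vert IPatch kdet curvE sard
  CritCap HB vol_HB measurable_HB hess nondegE neg_of_semidef d2_eq)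
open Pool.Agent.N15.RC (opp curvL curvE_opp ipatch_opp encard_le_ennreal)
open Pool.Agent.N15.SF (CoverS lowS uppS cnt')
open Pool.Agent.Y503.RB (E4 d1 d2 sff)

/-- a level curve of a submersion is a null set -/
theorem null_level {h : ℂ → ℝ} {U : Set ℂ} (hU : IsOpen U) (hs : ContDiffOn ℝ ∞ h U)
    (hr : ∀ z ∈ U, h z = 0 → fderiv ℝ h z ≠ 0) : volume {z | z ∈ U ∧ h z = 0} = 0 := by
  obtain ⟨C, hC⟩ : ∃ C : Set ℂ, C = {z | z ∈ U ∧ h z = 0} := ⟨_, rfl⟩
  have hn : ∀ z : ℂ, ∃ n : ℂ, z ∈ C → fderiv ℝ h z n = 1 := by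
    intro z
    by_cases hz : z ∈ C
    · rw [hC] at hz
      obtain ⟨v, hv⟩ : ∃ v, fderiv ℝ h z v ≠ 0 := by
        by_contra hcon
        push Not at hcon
        exact hr z hz.1 hz.2 (ContinuousLinearMap.ext hcon)
      exact ⟨(fderiv ℝ h z v)⁻¹ • v, fun _ => by
        rw [map_smul, smul_eq_mul, inv_mul_cancel₀ hv]⟩
    · exact ⟨0, fun h => absurd h hz⟩
  choose n hn using hn
  have h1 : volume ((fun z : ℂ => z) '' C) = 0 := by
    refine addHaar_image_eq_zero_of_det_fderivWithin_eq_zero volume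
      (f' := fun z => ContinuousLinearMap.id ℝ ℂ - (fderiv ℝ h z).smulRight (n z)) ?_ ?_
    · intro z hz
      have hz' := hz
      rw [hC] at hz'
      apply HasFDerivWithinAt.of_isLittleO
      have hd : HasFDerivAt h (fderiv ℝ h z) z :=
        (diffAt (hs.contDiffAt (hU.mem_nhds hz'.1))).hasFDerivAt
      rw [Asymptotics.isLittleO_iff]
      intro c hc
      have h3 := hd.isLittleO.def (c := c / (‖n z‖ + 1)) (by positivity)
      filter_upwards [nhdsWithin_le_nhds h3, self_mem_nhdsWithin] with w hw hwC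
      rw [hC] at hwC
      rw [hwC.2, hz'.2, sub_zero, zero_sub, norm_neg] at hw
      have h4 : w - z - (ContinuousLinearMap.id ℝ ℂ - (fderiv ℝ h z).smulRight (n z)) (w - z) =
          (fderiv ℝ h z (w - z)) • n z := by
        simp
      rw [h4, norm_smul]
      have h5 : 0 < ‖n z‖ + 1 := by positivity
      calc ‖fderiv ℝ h z (w - z)‖ * ‖n z‖ ≤ (c / (‖n z‖ + 1) * ‖w - z‖) * (‖n z‖ + 1) :=
            mul_le_mul hw (by linarith) (norm_nonneg _) (by positivity)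
        _ = c * ‖w - z‖ := by field_simp
    · intro z hz
      by_contra hdet
      have hn0 : n z ≠ 0 := by
        intro h0
        have := hn z hz
        rw [h0, map_zero] at this
        norm_num at this
      have h2 : (ContinuousLinearMap.id ℝ ℂ - (fderiv ℝ h z).smulRight (n z)) (n z) = 0 := by
        simp [hn z hz]
      let e := (ContinuousLinearMap.id ℝ ℂ -
        (fderiv ℝ h z).smulRight (n z)).toContinuousLinearEquivOfDetNeZero hdet
      have h3 : e (n z) = 0 := h2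
      exact hn0 ((map_eq_zero_iff e e.injective).1 h3)
  rw [← hC]
  simpa using h1

theorem level_meas {h : ℂ → ℝ} {U : Set ℂ} (hU : IsOpen U) (hs : ContDiffOn ℝ ∞ h U) :
    MeasurableSet {z | z ∈ U ∧ h z = 0} := by
  have h1 : IsOpen (U ∩ h ⁻¹' {0}ᶜ) :=
    hs.continuousOn.isOpen_inter_preimage hU isOpen_compl_singleton
  have h2 : {z | z ∈ U ∧ h z = 0} = U \ (U ∩ h ⁻¹' {0}ᶜ) := by
    ext z
    constructor
    · rintro ⟨a, b⟩
      exact ⟨a, fun hc => hc.2 b⟩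
    · rintro ⟨a, b⟩
      refine ⟨a, ?_⟩
      by_contra hc
      exact b ⟨a, hc⟩
  rw [h2]
  exact hU.measurableSet.diff h1.measurableSet

theorem TPatch.ip {φ : ℂ → R4} {U : Set ℂ} (h : TPatch φ U) : IPatch φ U :=
  ⟨h.isOpen, h.smooth, h.imm⟩

theorem TPatch.h_smooth {φ : ℂ → R4} {U : Set ℂ} (h : TPatch φ U) :
    ContDiffOn ℝ ∞ (fun w => φ w 3) U := (coord_contDiff 3).comp_contDiffOn h.smooth

/-- **Almost all linear functions are good**. -/
theorem ae_good {F : Set R4} (hF : TSurf F) : ∃ Z : Set R4, volume Z = 0 ∧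
    ∀ y ∉ Z, y ≠ 0 → ∀ c : ℝ, c ≠ 0 → GoodS F (fun x => ⟪c • y, x⟫) := by
  classical
  have hch : ∀ p : R4, ∃ (φ : ℂ → R4) (U : Set ℂ) (V : Set R4),
      p ∈ F → Param F φ U V ∧ p ∈ V := by
    intro p
    by_cases hp : p ∈ F
    · obtain ⟨φ, U, V, h⟩ := hF.loc p hp
      exact ⟨φ, U, V, fun _ => h⟩
    · exact ⟨0, ∅, ∅, fun h => absurd h hp⟩
  choose φ U V hP using hch
  obtain ⟨t, ht, htc⟩ := hF.compact.elim_nhds_subcover V
    (fun p hp => (hP p hp).1.isOpen.mem_nhds (hP p hp).2)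
  have hZ0 : ∀ p, ∃ Z : Set R4, volume Z = 0 ∧ (p ∈ t → ∀ y ∉ Z, y ≠ 0 → ∀ z ∈ U p,
      (∀ v : ℂ, ⟪y, d1 (φ p) v z⟫ = 0) → φ p z 3 ≠ 0 ∧ kdet (φ p) y z ≠ 0) := by
    intro p
    by_cases hp : p ∈ t
    · have hT := (hP p (ht p hp)).1.patch
      obtain ⟨Z, h1, h2⟩ := sard hT.ip
      obtain ⟨Z', h1', h2'⟩ := no_crit hT.ip (C := {z | z ∈ U p ∧ φ p z 3 = 0})
        (fun z hz => hz.1) (level_meas hT.isOpen hT.h_smooth)
        (null_level hT.isOpen hT.h_smooth hT.transv)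
      refine ⟨Z ∪ Z', measure_union_null h1 h1', fun _ y hy hy0 z hz hc => ⟨fun h3 => ?_, ?_⟩⟩
      · exact h2' y (fun h => hy (Or.inr h)) hy0 z ⟨hz, h3⟩ hc
      · exact h2 y (fun h => hy (Or.inl h)) hy0 z hz hc
    · exact ⟨∅, measure_empty, fun h => absurd h hp⟩
  choose Z hZ hZ' using hZ0
  refine ⟨⋃ p ∈ t, Z p, (measure_biUnion_null_iff t.countable_toSet).2 fun p _ => hZ p, ?_⟩
  intro y hy hy0 c hc p' hp'
  obtain ⟨p, hp, hpV⟩ := mem_iUnion₂.1 (htc hp')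
  have hPp := (hP p (ht p hp)).1
  have h1 : p' ∈ φ p '' U p ∩ {x | 0 ≤ x 3} := by
    rw [← hPp.eq]
    exact ⟨hp', hpV⟩
  obtain ⟨⟨z, hz, rfl⟩, -⟩ := h1
  have hat := hPp.at hz
  refine ⟨φ p, U p, V p, z, hPp, hz, rfl, fun h0 => ?_⟩
  have h0' : fderiv ℝ (fun w => ⟪c • y, φ p w⟫) z = 0 := h0
  have hv : ∀ v : ℂ, ⟪y, d1 (φ p) v z⟫ = 0 := by
    intro v
    have h1 := (hess0 hat (c • y)).1 v
    rw [h0', real_inner_smul_left] at h1
    have h2 : (0 : ℝ) = c * ⟪y, d1 (φ p) v z⟫ := h1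
    exact (mul_eq_zero.1 h2.symm).resolve_left hc
  obtain ⟨h3, h4⟩ := hZ' p hp y (fun h => hy (mem_iUnion₂.2 ⟨p, hp, h⟩)) hy0 z hz hv
  refine ⟨lt_of_le_of_ne (hF.nonneg _ hp') (Ne.symm h3), ?_⟩
  refine desc_or_pd (f := fun w => ⟪c • y, φ p w⟫)
    (contDiffAt_const.inner ℝ hat) fun u hu => ?_
  refine nondegE hat h4 fun v => ?_
  have h5 := hu v
  rw [(hess0 hat (c • y)).2 u v, real_inner_smul_left] at h5
  unfold sff
  rw [d2_eq hat]
  exact (mul_eq_zero.1 h5).resolve_left hc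

/-- a direction with few cups -/
theorem few_capsS {F : Set R4} (hF : TSurf F) {φ : ℕ → ℂ → R4} {U A : ℕ → Set ℂ}
    (hC : CoverS F φ U A) {σ : ℝ} (hσ : σ = 1 ∨ σ = -1) {χ : ℕ → ℂ → R4}
    (hχ : ∀ i w, χ i w = σ • φ i w) (hχP : ∀ i, IPatch (χ i) (U i)) {m : ℕ}
    (hK : ∑' i, ∫⁻ z in A i, curvE (χ i) z < ENNReal.ofReal (Real.pi ^ 2 * (m + 1))) :
    ∃ y : R4, GoodS F (fun x => ⟪y, x⟫) ∧ (cupsS F (fun x => ⟪y, x⟫)).encard ≤ m := by
  have hσ0 : σ ≠ 0 := by rcases hσ with rfl | rfl <;> norm_num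
  obtain ⟨c, hc1, hc2, hc3, -, -⟩ := cnt' χ U A hχP hC.meas hC.sub'
  obtain ⟨Z, hZ, hZ2⟩ := ae_good hF
  choose S hS hS2 using fun i => sard (hχP i)
  set μ : Measure R4 := volume.restrict HB with hμ
  have hvol : volume HB = ENNReal.ofReal (Real.pi ^ 2 / 4) := vol_HB
  have hμu : μ univ = ENNReal.ofReal (Real.pi ^ 2 / 4) := by
    rw [hμ, Measure.restrict_apply_univ, hvol]
  have hμ0 : μ ≠ 0 := by
    intro h
    have : μ univ = 0 := by rw [h]; rfl
    rw [hμu, ENNReal.ofReal_eq_zero] at this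
    have := Real.pi_pos
    nlinarith [sq_nonneg Real.pi, mul_pos this this]
  have : IsFiniteMeasure μ := ⟨by rw [hμu]; exact ENNReal.ofReal_lt_top⟩
  have hN : μ ((Z ∪ ⋃ i, S i) ∪ HBᶜ) = 0 := by
    refine measure_union_null ?_ ?_
    · exact nonpos_iff_eq_zero.1 ((Measure.restrict_apply_le _ _).trans
        (measure_union_null hZ (measure_iUnion_null hS)).le)
    · rw [hμ, Measure.restrict_apply measurable_HB.compl, compl_inter_self, measure_empty]
  obtain ⟨y, hyN, hy⟩ := exists_notMem_null_le_laverage hμ0 hc1.aemeasurable hN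
  rw [mem_union, not_or, mem_union, not_or, notMem_compl_iff] at hyN
  obtain ⟨⟨hyZ, hyS⟩, hyH⟩ := hyN
  have hy0 : y ≠ 0 := by
    rintro rfl
    exact lt_irrefl _ hyH.2
  have hpi : 0 < Real.pi ^ 2 := by positivity
  have hbound : ENNReal.ofReal (Real.pi ^ 2) * c y ≤ ∑' i, ∫⁻ z in A i, curvE (χ i) z := by
    have h1 : ∫⁻ y, c y ∂μ ≤ ENNReal.ofReal (1 / 4) * ∑' i, ∫⁻ z in A i, curvE (χ i) z := by
      calc ∫⁻ y, c y ∂μ ≤ ∫⁻ y, c y := setLIntegral_le_lintegral _ _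
        _ = _ := hc2
    have h2 : ⨍⁻ y, c y ∂μ = (ENNReal.ofReal (Real.pi ^ 2 / 4))⁻¹ * ∫⁻ y, c y ∂μ := by
      rw [laverage_eq, hμu, ENNReal.div_eq_inv_mul]
    rw [h2] at hy
    calc ENNReal.ofReal (Real.pi ^ 2) * c y
        ≤ ENNReal.ofReal (Real.pi ^ 2) * ((ENNReal.ofReal (Real.pi ^ 2 / 4))⁻¹ *
          (ENNReal.ofReal (1 / 4) * ∑' i, ∫⁻ z in A i, curvE (χ i) z)) :=
          mul_le_mul_right (hy.trans (mul_le_mul_right h1 _)) _
      _ = (ENNReal.ofReal (Real.pi ^ 2) * ((ENNReal.ofReal (Real.pi ^ 2 / 4))⁻¹ *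
          ENNReal.ofReal (1 / 4))) * ∑' i, ∫⁻ z in A i, curvE (χ i) z := by ring
      _ = ∑' i, ∫⁻ z in A i, curvE (χ i) z := by
          rw [← ENNReal.ofReal_inv_of_pos (by positivity), ← ENNReal.ofReal_mul (by positivity),
            ← ENNReal.ofReal_mul (by positivity)]
          have : Real.pi ^ 2 * ((Real.pi ^ 2 / 4)⁻¹ * (1 / 4)) = 1 := by field_simp
          rw [this, ENNReal.ofReal_one, one_mul]
  have hcm : c y < (m : ℝ≥0∞) + 1 := by
    have h1 := hbound.trans_lt hK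
    rw [ENNReal.ofReal_mul hpi.le] at h1
    have h2 : ENNReal.ofReal (m + 1) = (m : ℝ≥0∞) + 1 := by
      rw [ENNReal.ofReal_add (by positivity) zero_le_one, ENNReal.ofReal_natCast,
        ENNReal.ofReal_one]
    rw [h2] at h1
    exact lt_of_mul_lt_mul_left' h1
  refine ⟨(-σ) • y, hZ2 y hyZ hy0 (-σ) (neg_ne_zero.2 hσ0), ?_⟩
  -- cups and caps
  have hcap : ∀ p ∈ cupsS F (fun x => ⟪(-σ) • y, x⟫), ∃ x : ℕ × ℂ, φ x.1 x.2 = p ∧
      x.2 ∈ A x.1 ∧ CritCap (χ x.1) y x.2 := by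
    intro p hp
    obtain ⟨i, hi⟩ := mem_iUnion.1 (hC.cov ⟨hp.1, hp.2.1⟩)
    obtain ⟨z, hz, rfl⟩ := hi
    have hmin := cups_min' hF.nonneg (lin_cd _) hp
    have hzU := hC.sub' i hz
    have hχs : ContDiffAt ℝ ∞ (χ i) z := (hχP i).smooth.contDiffAt ((hχP i).isOpen.mem_nhds hzU)
    have hφs : ContDiffAt ℝ ∞ (φ i) z :=
      (hC.patch i).smooth.contDiffAt ((hC.patch i).isOpen.mem_nhds hzU)
    have hfun : (fun w => ⟪(-σ) • y, φ i w⟫) = fun w => ⟪-y, χ i w⟫ := by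
      funext w
      rw [hχ, real_inner_smul_left, real_inner_smul_right, inner_neg_left]
      ring
    have hloc : IsLocalMin (fun w => ⟪-y, χ i w⟫) z := by
      rw [← hfun]
      have hcont : Tendsto (φ i) (𝓝 z) (𝓝[F] (φ i z)) := by
        rw [tendsto_nhdsWithin_iff]
        refine ⟨hφs.continuousAt, ?_⟩
        filter_upwards [(hC.patch i).isOpen.mem_nhds hzU] with w hw
        exact hC.sub i (mem_image_of_mem _ hw)
      exact hcont.eventually hmin
    have hcr := hloc.fderiv_eq_zero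
    have hv : ∀ v : ℂ, ⟪y, d1 (χ i) v z⟫ = 0 := by
      intro v
      have h1 := (hess0 hχs (-y)).1 v
      rw [hcr, inner_neg_left] at h1
      have h2 : (0 : ℝ) = -⟪y, d1 (χ i) v z⟫ := h1
      linarith
    have hneg : ∀ w, sff (χ i) y w w z ≤ 0 := by
      intro w
      have h1 := soc (contDiffAt_const.inner ℝ hχs) hloc w
      rw [q2_inner hχs, inner_neg_left] at h1
      unfold sff
      rw [d2_eq hχs]
      linarith
    obtain ⟨a, b⟩ := neg_of_semidef hχs hneg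
      (hS2 i y (fun h => hyS (mem_iUnion.2 ⟨i, h⟩)) hy0 z hzU hv)
    exact ⟨(i, z), rfl, hz, hv, hyH.2, a, b⟩
  classical
  have hfin : ∀ s : Finset R4, (s : Set R4) ⊆ cupsS F (fun x => ⟪(-σ) • y, x⟫) →
      s.card ≤ m := by
    intro s hs
    choose! x hx1 hx2 hx3 using hcap
    have h1 : (s.image x).card = s.card := by
      refine Finset.card_image_of_injOn fun a ha b hb hab => ?_
      rw [← hx1 a (hs ha), ← hx1 b (hs hb), hab]
    have h2 : ((s.image x).card : ℝ≥0∞) ≤ c y := by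
      refine hc3 y hyH.1 _ fun q hq => ?_
      obtain ⟨a, ha, rfl⟩ := Finset.mem_image.1 hq
      exact ⟨hx2 a (hs ha), hx3 a (hs ha)⟩
    rw [h1] at h2
    have h3 := h2.trans_lt hcm
    have h4 : s.card < m + 1 := by exact_mod_cast h3
    omega
  by_contra hcon
  push Not at hcon
  have h1 : ((m + 1 : ℕ) : ℕ∞) ≤ (cupsS F (fun x => ⟪(-σ) • y, x⟫)).encard := by
    rw [Nat.cast_add, Nat.cast_one]
    exact Order.add_one_le_of_lt hcon
  obtain ⟨t, ht, htc⟩ := Set.exists_subset_encard_eq h1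
  have hfi : t.Finite := by
    rw [← Set.encard_lt_top_iff, htc]
    exact ENat.coe_lt_top _
  have h2 := hfin hfi.toFinset (by simpa using ht)
  have h3 : t.encard = hfi.toFinset.card := hfi.encard_eq_coe_toFinset_card
  rw [htc] at h3
  have h4 : m + 1 = hfi.toFinset.card := by exact_mod_cast h3
  omega

/-- **Curvature**. -/
theorem curvS {F : Set R4} (hF : TSurf F) {m : ℕ}
    (hK : min (lowS F) (uppS F) < ENNReal.ofReal (Real.pi ^ 2 * (m + 1))) :
    ∃ y : R4, GoodS F (fun x => ⟪y, x⟫) ∧ (cupsS F (fun x => ⟪y, x⟫)).encard ≤ m := by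
  rcases min_lt_iff.1 hK with h | h
  · unfold lowS at h
    simp only [iInf_lt_iff] at h
    obtain ⟨φ, U, A, hC, h⟩ := h
    refine few_capsS hF hC (σ := -1) (Or.inr rfl) (χ := fun i => opp (φ i)) ?_
      (fun i => ipatch_opp (hC.patch i)) (by simp only [curvE_opp]; exact h)
    intro i w
    rw [neg_smul, one_smul]
    rfl
  · unfold uppS at h
    simp only [iInf_lt_iff] at h
    obtain ⟨φ, U, A, hC, h⟩ := h
    exact few_capsS hF hC (σ := 1) (Or.inl rfl) (χ := φ) (fun i w => by rw [one_smul]) hC.patch h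

end Run7.h421.RS
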