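import Mathlib
import Pool.Agent.Run7.h421.RSg

/-!
Surfaces in the half-space: stretching, from extrema to curvature.
-/

set_option autoImplicit false

namespace Run7.h421.RS

open scoped ContDiff RealInnerProductSpace Topology ENNReal
open Set Metric Filter MeasureTheory
open Run7.h421.RP
open Pool.Agent.N503.ML (vert vert_three inner_vert norm_vert IPatch kdet curvE lam lam_apply
  lam_three lam_inj CritCap)
open Pool.Agent.N15.RC (opp curvL curvE_opp ipatch_opp ipatch_lam lam_opp)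
open Pool.Agent.N15.SF (CoverS lowS uppS cnt' stretch card_pairs capmin capmax ups)

/-- A piece of finite curvature. -/
structure PcS (F : Set R4) (φ : ℂ → R4) (U : Set ℂ) (V : Set R4) : Prop where
  ip : IPatch φ U
  emb : Topology.IsEmbedding (fun z : U => φ z)
  op : IsOpen V
  sub : V ⊆ {x | 0 < x 3}
  eq : F ∩ V = φ '' U
  fE : ∫⁻ z in U, curvE φ z ≠ ⊤
  fL : ∫⁻ z in U, curvL φ z ≠ ⊤

theorem exists_pcS {F : Set R4} (hF : TSurf F) (p : R4) :
    ∃ (φ : ℂ → R4) (U : Set ℂ) (V N : Set R4), PcS F φ U V ∧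
      (p ∈ F → IsOpen N ∧ p ∈ N ∧ V = N ∩ {x | 0 < x 3}) ∧ (p ∉ F → U = ∅) := by
  by_cases hp : p ∈ F
  swap
  · refine ⟨fun _ => 0, ∅, ∅, ∅, ⟨⟨isOpen_empty, contDiffOn_const, fun z hz =>
      absurd hz (notMem_empty z)⟩, Topology.IsEmbedding.of_subsingleton _, isOpen_empty,
      empty_subset _, by simp, by simp, by simp⟩, fun h => absurd h hp, fun _ => rfl⟩
  obtain ⟨φ, U, V, hP, hV⟩ := hF.loc p hp
  have h1 : p ∈ φ '' U ∩ {x | 0 ≤ x 3} := by
    rw [← hP.eq]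
    exact ⟨hp, hV⟩
  obtain ⟨⟨z, hz, rfl⟩, -⟩ := h1
  obtain ⟨r, hr, hrU⟩ := Metric.nhds_basis_closedBall.mem_iff.1 (hP.patch.isOpen.mem_nhds hz)
  obtain ⟨N, hN, hzN, hsub, hNV⟩ := exists_nbhd hP hF.nonneg (isOpen_ball (x := z) (ε := r)) hz
    (mem_ball_self hr) hp
  have hups : IsOpen {x : R4 | 0 < x 3} := isOpen_lt continuous_const (coord_contDiff 3).continuous
  have hVo : IsOpen (N ∩ {x : R4 | 0 < x 3}) := hN.inter hups
  have hUo : IsOpen ((U ∩ φ ⁻¹' (N ∩ {x : R4 | 0 < x 3})) ∩ ball z r) :=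
    (hP.patch.smooth.continuousOn.isOpen_inter_preimage hP.patch.isOpen hVo).inter isOpen_ball
  have hUs : (U ∩ φ ⁻¹' (N ∩ {x : R4 | 0 < x 3})) ∩ ball z r ⊆ U := fun w hw => hw.1.1
  refine ⟨φ, (U ∩ φ ⁻¹' (N ∩ {x | 0 < x 3})) ∩ ball z r, N ∩ {x | 0 < x 3}, N,
    ⟨⟨hUo, hP.patch.smooth.mono hUs, fun w hw => hP.patch.imm w (hUs hw)⟩,
      hP.patch.emb.comp (Topology.IsEmbedding.inclusion hUs), hVo, inter_subset_right, ?_, ?_, ?_⟩,
    fun _ => ⟨hN, hzN, rfl⟩, fun h => absurd hp h⟩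
  · ext x
    constructor
    · rintro ⟨hxF, hxN, hx3⟩
      obtain ⟨w, ⟨hwU, hwb⟩, rfl⟩ := hsub ⟨hxF, hxN⟩
      exact ⟨w, ⟨⟨hwU, hxN, hx3⟩, hwb⟩, rfl⟩
    · rintro ⟨w, ⟨⟨hwU, hwN, hw3⟩, -⟩, rfl⟩
      exact ⟨hP.memF hwU (le_of_lt hw3), hwN, hw3⟩
  · exact ne_top_of_le_ne_top (Pool.Agent.N15.SF.FIN.curv_fin hP.patch.ip hrU)
      (lintegral_mono_set inter_subset_right)
  · have h1 := Pool.Agent.N15.SF.FIN.curv_fin (ipatch_opp hP.patch.ip) hrU
    simp only [curvE_opp] at h1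
    exact ne_top_of_le_ne_top h1 (lintegral_mono_set inter_subset_right)

/-- A disjoint covering of finite curvature. -/
theorem finS {F : Set R4} (hF : TSurf F) : ∃ (φ : ℕ → ℂ → R4) (U A : ℕ → Set ℂ) (V : ℕ → Set R4),
    CoverS F φ U A ∧ (∀ i, PcS F (φ i) (U i) (V i)) ∧
    (∀ i j, i ≠ j → Disjoint (φ i '' A i) (φ j '' A j)) ∧
    ∑' i, ∫⁻ z in A i, curvE (φ i) z ≠ ⊤ ∧ ∑' i, ∫⁻ z in A i, curvL (φ i) z ≠ ⊤ := by
  classical
  choose φ U V N hP hN hU using exists_pcS hF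
  obtain ⟨T1, hT1, hT1c⟩ := hF.compact.elim_nhds_subcover N
    (fun x hx => (hN x hx).1.mem_nhds (hN x hx).2.1)
  have hq : (-vert : R4) ∉ F := by
    intro h
    have := hF.nonneg _ h
    rw [PiLp.neg_apply, vert_three] at this
    linarith
  obtain ⟨n0, hn0⟩ : ∃ n0, n0 = T1.toList.length := ⟨_, rfl⟩
  obtain ⟨f, hf⟩ : ∃ f : ℕ → R4, f = fun n => T1.toList.getD n (-vert) := ⟨_, rfl⟩
  have hf2 : ∀ n, n0 ≤ n → U (f n) = ∅ := by
    intro n hn
    have e : f n = -vert := by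
      rw [hf]
      exact List.getD_eq_default _ _ (by rw [← hn0]; exact hn)
    rw [e]
    exact hU _ hq
  have hcov : ∀ x ∈ F ∩ ups, ∃ n, x ∈ V (f n) := by
    intro x hx
    obtain ⟨p, hp, hxp⟩ := mem_iUnion₂.1 (hT1c hx.1)
    obtain ⟨n, hn, hnp⟩ := List.getElem_of_mem (Finset.mem_toList.2 hp)
    refine ⟨n, ?_⟩
    have e : f n = p := by
      rw [hf]
      show T1.toList.getD n (-vert) = p
      rw [List.getD_eq_getElem _ _ hn, hnp]
    rw [e, (hN p (hT1 p hp)).2.2]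
    exact ⟨hxp, hx.2⟩
  obtain ⟨A, hA⟩ : ∃ A : ℕ → Set ℂ, A = fun i =>
    U (f i) \ ⋃ j ∈ Finset.range i, (U (f i) ∩ φ (f i) ⁻¹' V (f j)) := ⟨_, rfl⟩
  have hAU : ∀ i, A i ⊆ U (f i) := fun i => by rw [hA]; exact sdiff_subset
  have hAn : ∀ i, ∀ z ∈ A i, ∀ j < i, φ (f i) z ∉ V (f j) := by
    intro i z hz j hj hV
    rw [hA] at hz
    exact hz.2 (mem_iUnion₂.2 ⟨j, Finset.mem_range.2 hj, hz.1, hV⟩)
  have hAm : ∀ i, MeasurableSet (A i) := by
    intro i
    rw [hA]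
    refine (hP (f i)).ip.isOpen.measurableSet.diff ?_
    refine Finset.measurableSet_biUnion _ fun j _ => ?_
    exact ((hP (f i)).ip.smooth.continuousOn.isOpen_inter_preimage (hP (f i)).ip.isOpen
      (hP (f j)).op).measurableSet
  have hAF : ∀ i, φ (f i) '' A i ⊆ F ∩ V (f i) := fun i => by
    rw [(hP (f i)).eq]; exact image_mono (hAU i)
  have hA0 : ∀ i, n0 ≤ i → A i = ∅ := fun i hi =>
    subset_empty_iff.1 (by rw [← hf2 i hi]; exact hAU i)
  refine ⟨fun i => φ (f i), fun i => U (f i), A, fun i => V (f i), ⟨fun i => (hP (f i)).ip,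
    fun i => ?_, hAm, hAU, ?_⟩, fun i => hP (f i), ?_, ?_, ?_⟩
  · show φ (f i) '' U (f i) ⊆ F
    rw [← (hP (f i)).eq]; exact inter_subset_left
  · intro x hx
    have hex := hcov x hx
    have h1 := Nat.find_spec hex
    have h2 : x ∈ φ (f (Nat.find hex)) '' U (f (Nat.find hex)) := by
      rw [← (hP _).eq]; exact ⟨hx.1, h1⟩
    obtain ⟨z, hz, hzx⟩ := h2
    refine mem_iUnion.2 ⟨Nat.find hex, z, ?_, hzx⟩
    rw [hA]
    refine ⟨hz, ?_⟩
    intro h3
    obtain ⟨j, hj, h4⟩ := mem_iUnion₂.1 h3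
    have h5 : x ∈ V (f j) := by rw [← hzx]; exact h4.2
    exact Nat.find_min hex (Finset.mem_range.1 hj) h5
  · have key : ∀ i j, i < j → Disjoint (φ (f i) '' A i) (φ (f j) '' A j) := by
      intro i j hij
      rw [Set.disjoint_left]
      intro x hx hx2
      obtain ⟨w, hw, rfl⟩ := hx2
      exact hAn j w hw i hij (hAF i hx).2
    intro i j hij
    rcases lt_or_gt_of_ne hij with h | h
    · exact key i j h
    · exact (key j i h).symm
  · rw [tsum_eq_sum (s := Finset.range n0)]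
    · refine (ENNReal.sum_ne_top).2 fun i _ => ?_
      exact ne_top_of_le_ne_top (hP (f i)).fE (lintegral_mono_set (hAU i))
    · intro i hi
      have hi' : n0 ≤ i := not_lt.1 fun h => hi (Finset.mem_range.2 h)
      rw [hA0 i hi']
      simp
  · rw [tsum_eq_sum (s := Finset.range n0)]
    · refine (ENNReal.sum_ne_top).2 fun i _ => ?_
      exact ne_top_of_le_ne_top (hP (f i)).fL (lintegral_mono_set (hAU i))
    · intro i hi
      have hi' : n0 ≤ i := not_lt.1 fun h => hi (Finset.mem_range.2 h)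
      rw [hA0 i hi']
      simp

/-! ### Stretching -/

theorem lam_dif {l : ℝ} (hl : 0 < l) : Dif (fun x : R4 => lam l x) univ := by
  refine ⟨(lam l).contDiff, isOpen_univ, (lam_inj hl).injOn, ?_, ?_, ?_⟩
  · intro x _
    have : fderiv ℝ (fun x : R4 => lam l x) x = lam l := (lam l).fderiv
    rw [this]
    exact lam_inj hl
  · intro x _
    rw [lam_three]
    constructor
    · exact mul_nonneg_iff_of_pos_left hl
    · exact ⟨fun h => (mul_eq_zero.1 h).resolve_left hl.ne', fun h => by rw [h, mul_zero]⟩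
  · intro x _ _
    refine ⟨l, hl.ne', fun v => ?_⟩
    have : fderiv ℝ (fun x : R4 => lam l x) x = lam l := (lam l).fderiv
    rw [this, lam_three]

theorem lam_step {F : Set R4} (hF : TSurf F) {l : ℝ} (hl : 0 < l) :
    StepS F ((fun x : R4 => lam l x) '' F) := by
  have hpos : ∀ t ∈ Icc (0 : ℝ) 1, 0 < 1 + t * (l - 1) := by
    intro t ht
    rcases eq_or_lt_of_le ht.1 with h | h
    · rw [← h]; norm_num
    · nlinarith [ht.2, mul_pos h hl]
  have hfun : ∀ t : ℝ, (fun x : R4 => x + (t * ((l - 1) * x 3)) • vert) =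
      fun x => lam (1 + t * (l - 1)) x := by
    intro t
    funext x
    rw [lam_apply]
    congr 2
    ring
  refine ⟨vert, fun x => (l - 1) * x 3, ⟨contDiff_const.mul (coord_contDiff 3), ?_, ?_, ?_⟩, ?_⟩
  · intro x hx
    simp only
    rw [hx, mul_zero]
  · intro t ht
    refine ⟨univ, isOpen_univ, subset_univ _, ?_, ?_⟩
    · rw [hfun t]
      exact (lam_dif (hpos t ht)).inj
    · rw [hfun t]
      exact (lam_dif (hpos t ht)).imm
  · intro t ht
    refine ⟨?_, fun x hx => ?_⟩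
    · rw [hfun t]
      exact (lam_dif (hpos t ht)).surf hF (subset_univ _)
    · have h1 := congrFun (hfun t) x
      have h2 : x + (t * ((l - 1) * x 3)) • vert = lam (1 + t * (l - 1)) x := h1
      rw [h2]
      exact ((lam_dif (hpos t ht)).sign x (mem_univ x)).2
  · rfl

theorem cover_lamS {F : Set R4} {φ : ℕ → ℂ → R4} {U A : ℕ → Set ℂ} (h : CoverS F φ U A)
    {l : ℝ} (hl : 0 < l) :
    CoverS ((fun x : R4 => lam l x) '' F) (fun i w => lam l (φ i w)) U A := by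
  refine ⟨fun i => ipatch_lam (h.patch i) hl, fun i => ?_, h.meas, h.sub', ?_⟩
  · rintro _ ⟨w, hw, rfl⟩
    exact ⟨φ i w, h.sub i ⟨w, hw, rfl⟩, rfl⟩
  · rintro _ ⟨⟨p, hp, rfl⟩, h1⟩
    have h1' : 0 < lam l p 3 := h1
    rw [lam_three] at h1'
    have hpo : p ∈ F ∩ ups := ⟨hp, (mul_pos_iff_of_pos_left hl).1 h1'⟩
    obtain ⟨i, hi⟩ := mem_iUnion.1 (h.cov hpo)
    obtain ⟨w, hw, rfl⟩ := hi
    exact mem_iUnion.2 ⟨i, w, hw, rfl⟩

/-- **From extrema to curvature**. -/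
theorem stretchS {F : Set R4} (hF : TSurf F) (hM : MorseS F) {m : ℕ}
    (hm : (minS F).encard ≤ m) {η : ℝ} (hη : 0 < η) :
    ∃ F' : Set R4, StepS F F' ∧ lowS F' ≤ ENNReal.ofReal (Real.pi ^ 2 * m + η) := by
  obtain ⟨φ, U, A, V, hC, hV, hdis, -, hK2⟩ := finS hF
  have hinj : ∀ i, InjOn (φ i) (U i) := by
    intro i a ha b hb hab
    exact congrArg Subtype.val ((hV i).emb.injective (a₁ := ⟨a, ha⟩) (a₂ := ⟨b, hb⟩) hab)
  have hin : ∀ i, ∀ z ∈ A i, φ i z ∈ F ∧ 0 < φ i z 3 := by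
    intro i z hz
    have h1 : φ i z ∈ F ∩ V i := by
      rw [(hV i).eq]
      exact ⟨z, hC.sub' i hz, rfl⟩
    exact ⟨h1.1, (hV i).sub h1.2⟩
  -- directions near the vertical one
  have hg1 : GoodS F (fun x => ⟪vert, x⟫) := by
    have := height_good hF hM (c := 1) one_ne_zero
    rwa [one_smul] at this
  have hc1 : (cupsS F (fun x => ⟪vert, x⟫)).encard ≤ m := by
    have := cups_minS hF one_pos
    rw [one_smul] at this
    exact (encard_le_encard this).trans hm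
  obtain ⟨ε, hε, hnear⟩ := Metric.eventually_nhds_iff.1 (ev_linS' hF hg1)
  obtain ⟨D, hD0, hDb⟩ := stretch cnt' (fun i => ipatch_opp (hC.patch i)) hC.meas hC.sub'
    (by simp only [curvE_opp]; exact hK2) (m := m) hε
    (fun p hp s hs => card_pairs hC.sub' hinj hdis (S := lmin F p)
      (((hnear (by rw [dist_eq_norm]; exact hp)).2.trans hc1).trans le_rfl)
      (fun x hx => ⟨(hs x hx).1, (hin x.1 x.2 (hs x hx).1).1, (hin x.1 x.2 (hs x hx).1).2,
        capmin capmax (hC.patch x.1) (hinj x.1) (hV x.1).op (hV x.1).eq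
          (hV x.1).emb (hC.sub' _ (hs x hx).1) (hs x hx).2⟩))
  have hl : 0 < D / η + 1 := by positivity
  refine ⟨_, lam_step hF hl, ?_⟩
  have h0 : lowS ((fun x : R4 => lam (D / η + 1) x) '' F) ≤
      ∑' i, ∫⁻ z in A i, curvL (fun w => lam (D / η + 1) (φ i w)) z := by
    unfold lowS
    exact iInf_le_of_le _ (iInf_le_of_le U (iInf_le_of_le A
      (iInf_le_of_le (cover_lamS hC hl) le_rfl)))
  refine h0.trans ?_
  have h1 : ∀ i z, curvL (fun w => lam (D / η + 1) (φ i w)) z =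
      curvE (fun w => lam (D / η + 1) (opp (φ i) w)) z := by
    intro i z
    rw [lam_opp, curvE_opp]
  simp only [h1]
  refine (hDb _ hl).trans (ENNReal.ofReal_le_ofReal ?_)
  have h2 : D / (D / η + 1) ≤ η := by
    rw [div_le_iff₀ hl]
    have : η * (D / η + 1) = D + η := by field_simp
    rw [this]
    linarith
  linarith

/-- **Curvature and extrema in an isotopy class**. -/
theorem tfaeS {F : Set R4} (hF : TSurf F) (m : ℕ) :
    List.TFAE [
      ∃ F', IsotopicS F F' ∧ MorseS F' ∧ (minS F').encard ≤ m,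
      ∃ F', IsotopicS F F' ∧ lowS F' < ENNReal.ofReal (Real.pi ^ 2 * (m + 1)),
      ∃ F', IsotopicS F F' ∧ min (lowS F') (uppS F') < ENNReal.ofReal (Real.pi ^ 2 * (m + 1)),
      ∀ η : ℝ, 0 < η → ∃ F', IsotopicS F F' ∧ lowS F' ≤ ENNReal.ofReal (Real.pi ^ 2 * m + η)] := by
  have hpi : 0 < Real.pi ^ 2 := by positivity
  tfae_have 1 → 4 := by
    rintro ⟨F', hi, hM, hm⟩ η hη
    obtain ⟨F'', hs, hl⟩ := stretchS (isoS_surf hi hF) hM hm hη
    exact ⟨F'', hi.tail hs, hl⟩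
  tfae_have 4 → 2 := by
    intro h
    obtain ⟨F', hi, hl⟩ := h (Real.pi ^ 2 / 2) (by positivity)
    refine ⟨F', hi, hl.trans_lt ?_⟩
    rw [ENNReal.ofReal_lt_ofReal_iff (by positivity)]
    linarith
  tfae_have 2 → 3 := by
    rintro ⟨F', hi, hl⟩
    exact ⟨F', hi, (min_le_left _ _).trans_lt hl⟩
  tfae_have 3 → 1 := by
    rintro ⟨F', hi, hl⟩
    have hF' := isoS_surf hi hF
    obtain ⟨y, hg, hc⟩ := curvS hF' hl
    obtain ⟨w, f, -, hp, hM, hc'⟩ := linS hF' hg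
    exact ⟨_, hi.tail (pushS_step hp), hM, hc'.trans hc⟩
  tfae_finish

end Run7.h421.RS
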