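import Mathlib
import Pool.Agent.Run7.h421.RSh

/-!
Surfaces in the half-space: the ribbon genus.
-/

set_option autoImplicit false

namespace Run7.h421.RS

open scoped ContDiff RealInnerProductSpace Topology ENNReal
open Set Metric Filter MeasureTheory
open Run7.h421.RP
open Pool.Agent.N503.ML (vert vert_three inner_vert norm_vert)
open Pool.Agent.N15.SF (lowS uppS)

/-- `F` is a surface in the half-space as in `TSurf`, with boundary `K` and homeomorphic to `S`. -/
structure Bounds (S : Type) [TopologicalSpace S] (K F : Set R4) : Prop where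
  surf : TSurf F
  bdry : F ∩ {x | x 3 = 0} = K
  homeo : Nonempty (S ≃ₜ F)

variable {S : Type} [TopologicalSpace S] {K : Set R4}

theorem Bounds.step {F F' : Set R4} (h : Bounds S K F) (hs : StepS F F') : Bounds S K F' := by
  have hF' := stepS_surf hs
  obtain ⟨w, f, hp, rfl⟩ := hs
  have hfun : (fun x : R4 => x + (1 * f x) • w) = fun x => x + f x • w := by
    funext x
    rw [one_mul]
  have hz : ∀ x ∈ F, ((x + f x • w) 3 = 0 ↔ x 3 = 0) := by
    intro x hx
    have := (hp.surf 1 (right_mem_Icc.2 zero_le_one)).2 x hx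
    rwa [one_mul] at this
  refine ⟨hF', ?_, ?_⟩
  · rw [← h.bdry]
    ext x
    constructor
    · rintro ⟨⟨a, ha, rfl⟩, h0⟩
      have h1 := (hz a ha).1 h0
      have h2 := hp.bdry a h1
      simp only [h2, zero_smul, add_zero]
      exact ⟨ha, h1⟩
    · rintro ⟨ha, h0⟩
      have h2 := hp.bdry x h0
      refine ⟨⟨x, ha, ?_⟩, h0⟩
      simp only [h2, zero_smul, add_zero]
  · obtain ⟨D, -, hFD, hinj, -⟩ := hp.diffeo 1 (right_mem_Icc.2 zero_le_one)
    rw [hfun] at hinj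
    have hinj' : InjOn (fun x : R4 => x + f x • w) F := hinj.mono hFD
    have hcont : Continuous (fun x : R4 => x + f x • w) :=
      continuous_id.add (hp.smooth.continuous.smul continuous_const)
    have : CompactSpace F := isCompact_iff_compactSpace.1 h.surf.compact
    let e : F ≃ ((fun x : R4 => x + f x • w) '' F) := Equiv.Set.imageOfInjOn _ F hinj'
    have he : Continuous e := by
      refine Continuous.subtype_mk (hcont.comp continuous_subtype_val) _
    obtain ⟨g⟩ := h.homeo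
    exact ⟨g.trans (he.homeoOfEquivCompactToT2)⟩

theorem Bounds.iso {F F' : Set R4} (h : Bounds S K F) (hs : IsotopicS F F') : Bounds S K F' := by
  unfold IsotopicS at hs
  induction hs with
  | refl => exact h
  | tail _ hs ih => exact ih.step hs

/-- **The number of local minima of surfaces of a given type with given boundary**. -/
theorem tfaeB (S : Type) [TopologicalSpace S] (K : Set R4) (m : ℕ) :
    List.TFAE [
      ∃ F, Bounds S K F ∧ MorseS F ∧ (minS F).encard ≤ m,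
      ∃ (F : Set R4) (y : R4), Bounds S K F ∧ GoodS F (fun x => ⟪y, x⟫) ∧
        (cupsS F (fun x => ⟪y, x⟫)).encard ≤ m,
      ∃ (F : Set R4) (G : R4 → ℝ) (w : R4), Bounds S K F ∧ ContDiff ℝ ∞ G ∧ 0 < w 3 ∧
        (∀ x, 0 ≤ fderiv ℝ G x w) ∧ GoodS F G ∧ (cupsS F G).encard ≤ m,
      ∃ F, Bounds S K F ∧ min (lowS F) (uppS F) < ENNReal.ofReal (Real.pi ^ 2 * (m + 1))] := by
  have hpi : 0 < Real.pi ^ 2 := by positivity
  tfae_have 1 → 2 := by
    rintro ⟨F, hB, hM, hm⟩
    exact ⟨F, (1 : ℝ) • vert, hB, height_good hB.surf hM one_ne_zero,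
      (encard_le_encard (cups_minS hB.surf one_pos)).trans hm⟩
  tfae_have 2 → 1 := by
    rintro ⟨F, y, hB, hg, hm⟩
    obtain ⟨w, f, -, hp, hM, hc⟩ := linS hB.surf hg
    exact ⟨_, hB.step (pushS_step hp), hM, hc.trans hm⟩
  tfae_have 1 → 3 := by
    rintro ⟨F, hB, hM, hm⟩
    obtain ⟨F', G, w, hi, h1, h2, h3, h4, h5⟩ :=
      (char_funS hB.surf m).1 ⟨F, Relation.ReflTransGen.refl, hM, hm⟩
    exact ⟨F', G, w, hB.iso hi, h1, h2, h3, h4, h5⟩
  tfae_have 3 → 1 := by
    rintro ⟨F, G, w, hB, hG, hw, hv, hg, hm⟩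
    obtain ⟨f, hp, hM, hc⟩ := main_dirS hB.surf hG hw hv hg
    exact ⟨_, hB.step (pushS_step hp), hM, hc.trans hm⟩
  tfae_have 1 → 4 := by
    rintro ⟨F, hB, hM, hm⟩
    obtain ⟨F', hs, hl⟩ := stretchS hB.surf hM hm (η := Real.pi ^ 2 / 2) (by positivity)
    refine ⟨F', hB.step hs, (min_le_left _ _).trans_lt (hl.trans_lt ?_)⟩
    rw [ENNReal.ofReal_lt_ofReal_iff (by positivity)]
    linarith
  tfae_have 4 → 2 := by
    rintro ⟨F, hB, hl⟩
    obtain ⟨y, hg, hc⟩ := curvS hB.surf hl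
    exact ⟨F, y, hB, hg, hc⟩
  tfae_finish

/-- pushing, from curvature -/
theorem curv_push {F : Set R4} (hF : TSurf F) {m : ℕ}
    (hK : min (lowS F) (uppS F) < ENNReal.ofReal (Real.pi ^ 2 * (m + 1))) :
    ∃ (w : R4) (f : R4 → ℝ), 0 < w 3 ∧ PushS F w f ∧ MorseS ((fun x => x + f x • w) '' F) ∧
      (minS ((fun x => x + f x • w) '' F)).encard ≤ m := by
  obtain ⟨y, hg, hc⟩ := curvS hF hK
  obtain ⟨w, f, h0, hp, hM, hc'⟩ := linS hF hg
  exact ⟨w, f, h0, hp, hM, hc'.trans hc⟩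

/-- **The ribbon genus**. -/
theorem genusS (S : ℕ → Type) [∀ g, TopologicalSpace (S g)] (K : Set R4) (g : ℕ)
    (hg : IsLeast {g | ∃ F, Bounds (S g) K F} g) :
    List.TFAE [
      IsLeast {g | ∃ F, Bounds (S g) K F ∧ MorseS F ∧ minS F = ∅} g,
      ∃ (F : Set R4) (y : R4), Bounds (S g) K F ∧ GoodS F (fun x => ⟪y, x⟫) ∧
        cupsS F (fun x => ⟪y, x⟫) = ∅,
      ∃ (F : Set R4) (G : R4 → ℝ) (w : R4), Bounds (S g) K F ∧ ContDiff ℝ ∞ G ∧ 0 < w 3 ∧
        (∀ x, 0 ≤ fderiv ℝ G x w) ∧ GoodS F G ∧ cupsS F G = ∅,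
      ∃ F, Bounds (S g) K F ∧ min (lowS F) (uppS F) < ENNReal.ofReal (Real.pi ^ 2)] := by
  have h := tfaeB (S g) K 0
  simp only [Nat.cast_zero, zero_add, mul_one, nonpos_iff_eq_zero, encard_eq_zero] at h
  have h01 := h.out 0 1
  have h02 := h.out 0 2
  have h03 := h.out 0 3
  have h1 : IsLeast {g | ∃ F, Bounds (S g) K F ∧ MorseS F ∧ minS F = ∅} g ↔
      ∃ F, Bounds (S g) K F ∧ MorseS F ∧ minS F = ∅ := by
    constructor
    · intro h
      exact h.1
    · intro h
      refine ⟨h, fun g' hg' => ?_⟩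
      obtain ⟨F, hF, -⟩ := hg'
      exact hg.2 ⟨F, hF⟩
  tfae_have 1 ↔ 2 := h1.trans h01
  tfae_have 1 ↔ 3 := h1.trans h02
  tfae_have 1 ↔ 4 := h1.trans h03
  tfae_finish

end Run7.h421.RS
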