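import Pool.Agent.Run7.h421.Spec

/-!
# The left regular representation
-/

set_option autoImplicit false
set_option linter.unusedSectionVars false

namespace Run7.h421

open MeasureTheory InnerProductSpace Topology

noncomputable section

section reg

variable {G : Type*} [TopologicalSpace G] [Group G] [IsTopologicalGroup G]
  [MeasurableSpace G] [BorelSpace G] (μ : Measure G) [μ.IsHaarMeasure]

lemma mpl (g : G) : MeasurePreserving (fun x => g⁻¹ * x) μ μ := measurePreserving_mul_left μ g⁻¹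

/-- translation by `g` -/
def ltr (g : G) : Lp ℂ 2 μ →ₗᵢ[ℂ] Lp ℂ 2 μ :=
  Lp.compMeasurePreservingₗᵢ ℂ (fun x => g⁻¹ * x) (mpl μ g)

lemma ltr_coe (g : G) (f : Lp ℂ 2 μ) : ltr μ g f =ᵐ[μ] fun x => f (g⁻¹ * x) :=
  Lp.coeFn_compMeasurePreserving f (mpl μ g)

lemma ltr_mul (g h : G) (f : Lp ℂ 2 μ) : ltr μ (g * h) f = ltr μ g (ltr μ h f) := by
  apply Lp.ext
  refine (ltr_coe μ _ f).trans ?_
  refine Filter.EventuallyEq.trans ?_ (ltr_coe μ g _).symm
  have h1 := (mpl μ g).quasiMeasurePreserving.ae_eq_comp (ltr_coe μ h f)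
  refine Filter.EventuallyEq.trans ?_ h1.symm
  refine Filter.Eventually.of_forall fun x => ?_
  simp only [Function.comp_apply, mul_inv_rev, mul_assoc]

lemma ltr_one (f : Lp ℂ 2 μ) : ltr μ (1 : G) f = f := by
  apply Lp.ext
  refine (ltr_coe μ _ f).trans ?_
  refine Filter.Eventually.of_forall fun x => ?_
  simp

/-- The left regular representation. -/
def lreg : G →* (Lp ℂ 2 μ ≃ₗᵢ[ℂ] Lp ℂ 2 μ) where
  toFun g :=
    { toLinearEquiv := LinearEquiv.ofLinearMap (ltr μ g).toLinearMap (ltr μ g⁻¹).toLinearMap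
        (by
          ext1 f
          show ltr μ g (ltr μ g⁻¹ f) = f
          rw [← ltr_mul, mul_inv_cancel, ltr_one])
        (by
          ext1 f
          show ltr μ g⁻¹ (ltr μ g f) = f
          rw [← ltr_mul, inv_mul_cancel, ltr_one])
      norm_map' := fun f => (ltr μ g).norm_map f }
  map_one' := by
    ext1 f
    exact ltr_one μ f
  map_mul' g h := by
    ext1 f
    exact ltr_mul μ g h f

lemma lreg_coe (g : G) (f : Lp ℂ 2 μ) : lreg μ g f =ᵐ[μ] fun x => f (g⁻¹ * x) :=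
  ltr_coe μ g f

lemma lreg_cont [R1Space G] [CompactSpace G] [μ.InnerRegularCompactLTTop] (f : Lp ℂ 2 μ) :
    Continuous fun g => lreg μ g f := by
  let F : G → C(G, G) := fun g => ⟨fun x => g⁻¹ * x, by fun_prop⟩
  have hF : Continuous F := by
    have h : Continuous (fun g : G =>
      (ContinuousMap.curry (⟨fun q : G × G => q.1⁻¹ * q.2, by fun_prop⟩ : C(G × G, G))) g) :=
      ContinuousMap.continuous _
    exact h
  have h := Continuous.compMeasurePreservingLp (f := fun _ : G => f) continuous_const hF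
    (fun g => mpl μ g) (by norm_num)
  exact h

/-- The exceptional space: the span in `L²(G)` of the eigenfunctions of `f ↦ ∑ s ∈ S, f (s ·)`
with eigenvalue outside `[-|S| + ε, |S| - ε]`. -/
def excSpace (S : Finset G) (ε : ℝ) : Submodule ℂ (Lp ℂ 2 μ) :=
  Submodule.span ℂ {f | ∃ c : ℂ, ¬ (c.im = 0 ∧ -(S.card : ℝ) + ε ≤ c.re ∧
    c.re ≤ (S.card : ℝ) - ε) ∧ ∀ᵐ x ∂μ, (∑ s ∈ S, f (s * x)) = c * f x}

lemma Dl_coe (S : Finset G) (hS : ∀ s ∈ S, s⁻¹ ∈ S) (f : Lp ℂ 2 μ) :
    Dl (lreg μ) S f =ᵐ[μ] fun x => ∑ s ∈ S, f (s * x) := by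
  rw [Dl_apply]
  have h1 : ((∑ s ∈ S, lreg μ s f : Lp ℂ 2 μ) : G → ℂ) =ᵐ[μ]
      fun x => ∑ s ∈ S, (lreg μ s f : G → ℂ) x := by
    have := Lp.coeFn_finsetSum S (fun s => lreg μ s f)
    refine this.trans (Filter.Eventually.of_forall fun x => ?_)
    simp
  refine h1.trans ?_
  have h2 : ∀ᵐ x ∂μ, ∀ s ∈ S, (lreg μ s f : G → ℂ) x = f (s⁻¹ * x) := by
    rw [Filter.eventually_all_finset]
    intro s _
    exact lreg_coe μ s f
  filter_upwards [h2] with x hx
  rw [← sum_inv S hS (fun s => f (s * x))]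
  exact Finset.sum_congr rfl fun s hs => hx s hs

lemma excSpace_eq (S : Finset G) (hS : ∀ s ∈ S, s⁻¹ ∈ S) (ε : ℝ) :
    excSpace μ S ε = eSpan (Dl (lreg μ) S) (Out S.card ε) := by
  have key : ∀ (f : Lp ℂ 2 μ) (c : ℂ), (∀ᵐ x ∂μ, (∑ s ∈ S, f (s * x)) = c * f x) ↔
      Dl (lreg μ) S f = c • f := by
    intro f c
    have h1 := Dl_coe μ S hS f
    have h2 := Lp.coeFn_smul c f
    constructor
    · intro h
      apply Lp.ext
      filter_upwards [h1, h2, h] with x h1 h2 h
      rw [h1, h2, h]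
      rfl
    · intro h
      rw [h] at h1
      filter_upwards [h1, h2] with x h1 h2
      rw [← h1, h2]
      rfl
  apply le_antisymm
  · refine Submodule.span_le.2 ?_
    rintro f ⟨c, hc, hf⟩
    exact mem_eSpan_of hc ((key f c).1 hf)
  · unfold eSpan
    refine iSup₂_le fun c hc => ?_
    intro f hf
    refine Submodule.subset_span ⟨c, hc, ?_⟩
    exact (key f c).2 (Module.End.mem_eigenspace_iff.1 hf)

end reg

end

end Run7.h421
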