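import Pool.Agent.Run7.h421.ThmL
import Mathlib.Analysis.CStarAlgebra.Matrix

/-!
# The special orthogonal groups: rotations in coordinate planes generate
-/

set_option autoImplicit false
set_option linter.unusedSectionVars false

namespace Run7.h421

open Matrix Set Topology

noncomputable section

/-- the group `SO(n)` -/
abbrev SOn (n : ℕ) := Matrix.specialOrthogonalGroup (Fin n) ℝ

lemma mem_SOn {n : ℕ} {A : Matrix (Fin n) (Fin n) ℝ} :
    A ∈ Matrix.specialOrthogonalGroup (Fin n) ℝ ↔ A * Aᵀ = 1 ∧ A.det = 1 := by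
  rw [Matrix.mem_specialOrthogonalGroup_iff, Matrix.mem_orthogonalGroup_iff]

variable {n : ℕ}

lemma SOn.mul_tr (x : SOn n) : (x : Matrix (Fin n) (Fin n) ℝ) * (x : Matrix (Fin n) (Fin n) ℝ)ᵀ = 1 :=
  (mem_SOn.1 x.2).1

lemma SOn.tr_mul (x : SOn n) : (x : Matrix (Fin n) (Fin n) ℝ)ᵀ * (x : Matrix (Fin n) (Fin n) ℝ) = 1 :=
  mul_eq_one_comm.1 (SOn.mul_tr x)

lemma SOn.inv_coe (x : SOn n) : ((x⁻¹ : SOn n) : Matrix (Fin n) (Fin n) ℝ) =
    (x : Matrix (Fin n) (Fin n) ℝ)ᵀ := by
  have h1 : ((x⁻¹ : SOn n) : Matrix (Fin n) (Fin n) ℝ) * (x : Matrix (Fin n) (Fin n) ℝ) = 1 :=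
    congrArg Subtype.val (inv_mul_cancel x)
  have h2 := SOn.mul_tr x
  calc ((x⁻¹ : SOn n) : Matrix (Fin n) (Fin n) ℝ) =
      ((x⁻¹ : SOn n) : Matrix (Fin n) (Fin n) ℝ) * ((x : Matrix (Fin n) (Fin n) ℝ) *
        (x : Matrix (Fin n) (Fin n) ℝ)ᵀ) := by rw [h2, mul_one]
    _ = _ := by rw [← mul_assoc, h1, one_mul]

lemma SOn.topGroup : IsTopologicalGroup (SOn n) where
  continuous_mul := by
    refine Continuous.subtype_mk ?_ _
    exact (continuous_subtype_val.comp continuous_fst).matrix_mul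
      (continuous_subtype_val.comp continuous_snd)
  continuous_inv := by
    rw [continuous_induced_rng]
    have h1 : (Subtype.val ∘ fun x : SOn n => x⁻¹) =
        fun x : SOn n => (x : Matrix (Fin n) (Fin n) ℝ)ᵀ := by
      funext x
      exact SOn.inv_coe x
    rw [h1]
    exact continuous_subtype_val.matrix_transpose

lemma SOn.entry_le (x : SOn n) (i j : Fin n) : |(x : Matrix (Fin n) (Fin n) ℝ) i j| ≤ 1 := by
  have h1 := congrFun (congrFun (SOn.mul_tr x) i) i
  rw [Matrix.mul_apply, Matrix.one_apply_eq] at h1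
  simp only [Matrix.transpose_apply] at h1
  have h2 := Finset.single_le_sum (f := fun j => (x : Matrix (Fin n) (Fin n) ℝ) i j *
    (x : Matrix (Fin n) (Fin n) ℝ) i j) (fun _ _ => mul_self_nonneg _) (Finset.mem_univ j)
  have h3 : (x : Matrix (Fin n) (Fin n) ℝ) i j * (x : Matrix (Fin n) (Fin n) ℝ) i j ≤ 1 :=
    h2.trans (le_of_eq h1)
  nlinarith [abs_nonneg ((x : Matrix (Fin n) (Fin n) ℝ) i j),
    abs_mul_abs_self ((x : Matrix (Fin n) (Fin n) ℝ) i j)]

lemma SOn.compact : CompactSpace (SOn n) := by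
  refine (isCompact_iff_compactSpace
    (s := (Matrix.specialOrthogonalGroup (Fin n) ℝ : Set (Matrix (Fin n) (Fin n) ℝ)))).1 ?_
  have h1 : IsClosed ((Matrix.specialOrthogonalGroup (Fin n) ℝ : Set (Matrix (Fin n) (Fin n) ℝ))) := by
    have h2 : ((Matrix.specialOrthogonalGroup (Fin n) ℝ : Set (Matrix (Fin n) (Fin n) ℝ))) =
        {A | A * Aᵀ = 1} ∩ {A | A.det = 1} := by
      ext A
      exact mem_SOn
    rw [h2]
    refine IsClosed.inter ?_ ?_
    · exact isClosed_eq (continuous_id.matrix_mul continuous_id.matrix_transpose) continuous_const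
    · exact isClosed_eq (continuous_id.matrix_det) continuous_const
  have h3 : IsCompact (Set.pi univ fun _ : Fin n => Set.pi univ fun _ : Fin n =>
      Set.Icc (-1 : ℝ) 1) :=
    isCompact_univ_pi fun _ => isCompact_univ_pi fun _ => isCompact_Icc
  refine IsCompact.of_isClosed_subset h3 h1 ?_
  intro A hA i _ j _
  exact abs_le.1 (SOn.entry_le ⟨A, hA⟩ i j)

end

end Run7.h421
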