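import Pool.Agent.Run7.h421.SOa

/-!
# Rotations in coordinate planes
-/

set_option autoImplicit false
set_option linter.unusedSectionVars false

namespace Run7.h421

open Matrix Set Topology

noncomputable section

variable {n : ℕ}

/-- rotation by `t` in the plane of `p`, `q` -/
def rotM (p q : Fin n → ℝ) (t : ℝ) : Matrix (Fin n) (Fin n) ℝ :=
  1 + (Real.cos t - 1) • (vecMulVec p p + vecMulVec q q) +
    Real.sin t • (vecMulVec q p - vecMulVec p q)

lemma vmv_mulVec (u v w : Fin n → ℝ) : vecMulVec u v *ᵥ w = (v ⬝ᵥ w) • u := by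
  rw [vecMulVec_mulVec]
  ext i
  simp [mul_comm]

lemma rotM_mulVec (p q : Fin n → ℝ) (t : ℝ) (v : Fin n → ℝ) :
    rotM p q t *ᵥ v = v + (Real.cos t - 1) • ((p ⬝ᵥ v) • p + (q ⬝ᵥ v) • q) +
      Real.sin t • ((p ⬝ᵥ v) • q - (q ⬝ᵥ v) • p) := by
  unfold rotM
  rw [add_mulVec, add_mulVec, one_mulVec, smul_mulVec, smul_mulVec, add_mulVec, sub_mulVec,
    vmv_mulVec, vmv_mulVec, vmv_mulVec, vmv_mulVec]

lemma rotM_tr (p q : Fin n → ℝ) (t : ℝ) : (rotM p q t)ᵀ = rotM p q (-t) := by
  unfold rotM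
  rw [transpose_add, transpose_add, transpose_one, transpose_smul, transpose_smul, transpose_add,
    transpose_sub, transpose_vecMulVec, transpose_vecMulVec, transpose_vecMulVec,
    transpose_vecMulVec, Real.cos_neg, Real.sin_neg, neg_smul, ← smul_neg, neg_sub]

lemma rotM_zero (p q : Fin n → ℝ) : rotM p q 0 = 1 := by
  simp [rotM]

lemma mat_ext {A B : Matrix (Fin n) (Fin n) ℝ} (h : ∀ v, A *ᵥ v = B *ᵥ v) : A = B :=
  Matrix.mulVec_injective (funext h)

lemma rotM_mul {p q : Fin n → ℝ} (hp : p ⬝ᵥ p = 1) (hq : q ⬝ᵥ q = 1) (hpq : p ⬝ᵥ q = 0) (t s : ℝ) :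
    rotM p q t * rotM p q s = rotM p q (t + s) := by
  have hqp : q ⬝ᵥ p = 0 := by rw [dotProduct_comm, hpq]
  refine mat_ext fun v => ?_
  have h1 : p ⬝ᵥ (rotM p q s *ᵥ v) = Real.cos s * (p ⬝ᵥ v) - Real.sin s * (q ⬝ᵥ v) := by
    rw [rotM_mulVec]
    simp only [dotProduct_add, dotProduct_sub, dotProduct_smul, smul_eq_mul, hp, hpq]
    ring
  have h2 : q ⬝ᵥ (rotM p q s *ᵥ v) = Real.cos s * (q ⬝ᵥ v) + Real.sin s * (p ⬝ᵥ v) := by
    rw [rotM_mulVec]
    simp only [dotProduct_add, dotProduct_sub, dotProduct_smul, smul_eq_mul, hq, hqp]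
    ring
  rw [← mulVec_mulVec, rotM_mulVec p q t, h1, h2, rotM_mulVec p q s, rotM_mulVec p q (t + s),
    Real.cos_add, Real.sin_add]
  ext i
  simp only [Pi.add_apply, Pi.sub_apply, Pi.smul_apply, smul_eq_mul]
  ring

lemma rotM_mem {p q : Fin n → ℝ} (hp : p ⬝ᵥ p = 1) (hq : q ⬝ᵥ q = 1) (hpq : p ⬝ᵥ q = 0) (t : ℝ) :
    rotM p q t ∈ Matrix.specialOrthogonalGroup (Fin n) ℝ := by
  have h1 : ∀ t, rotM p q t * (rotM p q t)ᵀ = 1 := by
    intro t
    rw [rotM_tr, rotM_mul hp hq hpq, add_neg_cancel, rotM_zero]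
  rw [mem_SOn]
  refine ⟨h1 t, ?_⟩
  have h2 : rotM p q t = rotM p q (t / 2) * rotM p q (t / 2) := by
    rw [rotM_mul hp hq hpq, add_halves]
  have h3 := congrArg Matrix.det (h1 (t / 2))
  rw [det_mul, det_transpose, det_one] at h3
  rw [h2, det_mul, h3]

/-- rotations, as elements of the group -/
def rot {p q : Fin n → ℝ} (hp : p ⬝ᵥ p = 1) (hq : q ⬝ᵥ q = 1) (hpq : p ⬝ᵥ q = 0) (t : ℝ) : SOn n :=
  ⟨rotM p q t, rotM_mem hp hq hpq t⟩

lemma conj_rotM (g : Matrix (Fin n) (Fin n) ℝ) (hg : g * gᵀ = 1) (p q : Fin n → ℝ) (t : ℝ) :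
    g * rotM p q t * gᵀ = rotM (g *ᵥ p) (g *ᵥ q) t := by
  have h1 : ∀ u v : Fin n → ℝ, g * vecMulVec u v * gᵀ = vecMulVec (g *ᵥ u) (g *ᵥ v) := by
    intro u v
    rw [mul_vecMulVec, vecMulVec_mul, vecMul_transpose]
  unfold rotM
  rw [mul_add, mul_add, add_mul, add_mul, mul_one, hg, Matrix.mul_smul, Matrix.mul_smul,
    Matrix.smul_mul, Matrix.smul_mul, mul_add, mul_sub, add_mul, sub_mul, h1, h1, h1, h1]

/-- coordinate vectors -/
abbrev eb (i : Fin n) : Fin n → ℝ := Pi.single i 1

lemma eb_self (i : Fin n) : eb i ⬝ᵥ eb i = 1 := by simp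
lemma eb_ne {i j : Fin n} (h : i ≠ j) : eb i ⬝ᵥ eb j = 0 := by
  simp [h]
lemma eb_app (i : Fin n) : eb i i = 1 := Pi.single_eq_same i 1
lemma eb_app_ne {i j : Fin n} (h : j ≠ i) : eb i j = 0 := Pi.single_eq_of_ne h 1

lemma exists_polar (c b : ℝ) : ∃ θ ρ : ℝ, 0 ≤ ρ ∧ b = ρ * Real.cos θ ∧ c = ρ * Real.sin θ := by
  refine ⟨Complex.arg ⟨b, c⟩, ‖(⟨b, c⟩ : ℂ)‖, norm_nonneg _, ?_, ?_⟩
  · rw [Complex.norm_mul_cos_arg]
  · rw [Complex.norm_mul_sin_arg]

/-- Transitivity. -/
lemma trans_aux {m : ℕ} (H : Subgroup (SOn (m + 1)))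
    (hH : ∀ (i : Fin m) (t : ℝ), ∃ h ∈ H, h.1 =
      rotM (eb i.castSucc) (eb i.succ) t) (k : ℕ) (hk : k < m + 1) (v : Fin (m + 1) → ℝ)
    (hv : ∀ j : Fin (m + 1), k < j.val → v j = 0) :
    ∃ h ∈ H, (∀ j : Fin (m + 1), k < j.val →
      h.1 *ᵥ eb j = eb j) ∧
      ∃ c : ℝ, h.1 *ᵥ v = c • eb ⟨k, hk⟩ ∧
        (0 < k → 0 ≤ c) := by
  induction k generalizing v with
  | zero =>
    refine ⟨1, H.one_mem, fun j _ => ?_, v 0, ?_, fun h => absurd h (lt_irrefl 0)⟩
    · show (1 : Matrix (Fin (m + 1)) (Fin (m + 1)) ℝ) *ᵥ eb j = eb j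
      rw [one_mulVec]
    · show (1 : Matrix (Fin (m + 1)) (Fin (m + 1)) ℝ) *ᵥ v = _
      rw [one_mulVec]
      ext j
      by_cases hj : j = 0
      · subst hj
        simp
      · have h1 : 0 < j.val := Nat.pos_of_ne_zero fun h => hj (Fin.ext h)
        rw [hv j h1]
        have h2 : (⟨0, hk⟩ : Fin (m + 1)) = 0 := rfl
        rw [h2, Pi.smul_apply, eb_app_ne hj]
        simp
  | succ k ih =>
    have hk' : k < m + 1 := by omega
    set i : Fin m := ⟨k, by omega⟩ with hi
    have hi1 : i.castSucc = ⟨k, hk'⟩ := rfl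
    have hi2 : i.succ = ⟨k + 1, hk⟩ := rfl
    have hne : i.castSucc ≠ i.succ := by
      intro h
      have := congrArg Fin.val h
      simp at this
    set w : Fin (m + 1) → ℝ := v - v i.succ • eb i.succ with hw
    have hwj : ∀ j : Fin (m + 1), k < j.val → w j = 0 := by
      intro j hj
      by_cases hj2 : j = i.succ
      · rw [hj2, hw, Pi.sub_apply, Pi.smul_apply, eb_app]
        simp
      · have h1 : k + 1 < j.val := by
          rcases Nat.lt_or_ge (k + 1) j.val with h | h
          · exact h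
          · exact absurd (Fin.ext (by rw [hi2]; show j.val = k + 1; omega)) hj2
        rw [hw, Pi.sub_apply, Pi.smul_apply, eb_app_ne hj2, hv j h1]
        simp
    obtain ⟨h, hhH, hfix, c, hc, -⟩ := ih hk' w hwj
    have hfix1 := hfix i.succ (by rw [hi2]; exact Nat.lt_succ_self k)
    have hhv : h.1 *ᵥ v =
        c • eb i.castSucc + v i.succ • eb i.succ := by
      have h1 : v = w + v i.succ • eb i.succ := by rw [hw]; abel
      conv_lhs => rw [h1]
      rw [mulVec_add, mulVec_smul, hc, hfix1, hi1]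
    obtain ⟨θ, r, hr, hb, hcc⟩ := exists_polar c (v i.succ)
    obtain ⟨h', hh'H, hh'⟩ := hH i θ
    refine ⟨h' * h, H.mul_mem hh'H hhH, fun j hj => ?_, r, ?_, fun _ => hr⟩
    · show (h'.1 * h.1) *ᵥ eb j = eb j
      have hj1 : i.castSucc ≠ j := fun h => by
        have h2 := congrArg Fin.val h
        rw [hi1] at h2
        have h3 : k = j.val := h2
        omega
      have hj2 : i.succ ≠ j := fun h => by
        have h2 := congrArg Fin.val h
        rw [hi2] at h2
        have h3 : k + 1 = j.val := h2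
        omega
      rw [← mulVec_mulVec, hfix j (by omega), hh', rotM_mulVec, eb_ne hj1, eb_ne hj2]
      simp
    · show (h'.1 * h.1) *ᵥ v = _
      rw [← mulVec_mulVec, hhv, hh', rotM_mulVec, ← hi2]
      simp only [dotProduct_add, dotProduct_smul, eb_self, eb_ne hne, eb_ne hne.symm, smul_eq_mul,
        mul_one, mul_zero, add_zero, zero_add]
      ext j
      simp only [Pi.add_apply, Pi.sub_apply, Pi.smul_apply, smul_eq_mul]
      rw [hb]
      nth_rewrite 1 2 3 4 [hcc]
      have h1 := Real.sin_sq_add_cos_sq θ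
      by_cases hj1 : j = i.castSucc
      · rw [hj1, eb_app, eb_app_ne hne]
        ring
      · rw [eb_app_ne hj1]
        linear_combination (r * eb i.succ j) * h1

/-- Rotations in the planes of consecutive coordinate vectors generate. -/
theorem mem_of_rot {m : ℕ} (H : Subgroup (SOn (m + 1)))
    (hH : ∀ (i : Fin m) (t : ℝ), ∃ h ∈ H, h.1 =
      rotM (eb i.castSucc) (eb i.succ) t) (g : SOn (m + 1)) : g ∈ H := by
  have hone : ∀ g : SOn (m + 1), (∀ j, g.1 *ᵥ eb j = eb j) →
      g = 1 := by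
    intro g hg
    apply Subtype.ext
    show g.1 = 1
    ext i j
    have h1 := congrFun (hg j) i
    rw [mulVec_single_one] at h1
    rw [Matrix.one_apply]
    have h2 : g.1 i j = (Pi.single j (1 : ℝ) : Fin (m + 1) → ℝ) i := h1
    rw [h2, Pi.single_apply]
  have hdot : ∀ (g : SOn (m + 1)) (u v : Fin (m + 1) → ℝ),
      (g.1 *ᵥ u) ⬝ᵥ
        (g.1 *ᵥ v) = u ⬝ᵥ v := by
    intro g u v
    rw [dotProduct_mulVec, vecMul_mulVec, SOn.tr_mul, vecMul_one]
  have key : ∀ k : ℕ, k ≤ m + 1 → ∀ g : SOn (m + 1), (∀ j : Fin (m + 1), k ≤ j.val →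
      g.1 *ᵥ eb j = eb j) → g ∈ H := by
    intro k
    induction k with
    | zero =>
      intro _ g hg
      rw [hone g fun j => hg j (Nat.zero_le _)]
      exact H.one_mem
    | succ k ih =>
      intro hk g hg
      have hk' : k < m + 1 := hk
      set v := g.1 *ᵥ eb ⟨k, hk'⟩ with hv
      have hvj : ∀ j : Fin (m + 1), k < j.val → v j = 0 := by
        intro j hj
        have h1 := hdot g (eb j) (eb ⟨k, hk'⟩)
        rw [hg j hj, ← hv, eb_ne (by intro h; rw [h] at hj; exact lt_irrefl _ hj)] at h1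
        simpa using h1
      rcases Nat.eq_zero_or_pos k with hk0 | hk0
      · -- the last coordinate
        subst hk0
        have h1 : g = 1 := by
          have h2 : g.1 =
              Matrix.diagonal (fun j => if j = 0 then v 0 else 1) := by
            ext i j
            by_cases hj : j = 0
            · subst hj
              have h3 : g.1 i 0 = v i := by
                rw [hv, mulVec_single_one]
                rfl
              rw [h3]
              by_cases hi : i = 0
              · subst hi; simp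
              · rw [hvj i (Nat.pos_of_ne_zero fun h => hi (Fin.ext h)),
                  Matrix.diagonal_apply_ne _ hi]
            · have h3 := congrFun (hg j (Nat.pos_of_ne_zero fun h => hj (Fin.ext h))) i
              rw [mulVec_single_one] at h3
              have h4 : g.1 i j =
                (Pi.single j (1 : ℝ) : Fin (m + 1) → ℝ) i := h3
              rw [h4, Pi.single_apply, Matrix.diagonal_apply]
              by_cases hij : i = j
              · rw [if_pos hij, if_pos hij, if_neg (by rw [hij]; exact hj)]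
              · rw [if_neg hij, if_neg hij]
          have h3 := (mem_SOn.1 g.2).2
          rw [h2, Matrix.det_diagonal, Finset.prod_ite_eq' Finset.univ (0 : Fin (m + 1)) (fun _ => v 0)]
            at h3
          simp only [Finset.mem_univ, if_true] at h3
          apply Subtype.ext
          show g.1 = 1
          rw [h2, h3]
          simp
        rw [h1]
        exact H.one_mem
      · obtain ⟨h, hhH, hfix, c, hc, hc0⟩ := trans_aux H hH k hk' v hvj
        have hc0 := hc0 hk0
        have hc1 : c = 1 := by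
          have h1 := hdot h v v
          have h2 : v ⬝ᵥ v = 1 := by rw [hv, hdot g, eb_self]
          rw [hc, h2, dotProduct_smul, smul_dotProduct, eb_self, smul_eq_mul, smul_eq_mul,
            mul_one] at h1
          nlinarith
        have h1 : h * g ∈ H := by
          refine ih (by omega) (h * g) fun j hj => ?_
          show (h.1 * g.1) *ᵥ eb j = eb j
          rw [← mulVec_mulVec]
          rcases Nat.eq_or_lt_of_le hj with h2 | h2
          · have h3 : j = ⟨k, hk'⟩ := Fin.ext h2.symm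
            rw [h3, ← hv, hc, hc1, one_smul]
          · rw [hg j h2, hfix j h2]
        have h2 : g = h⁻¹ * (h * g) := by group
        rw [h2]
        exact H.mul_mem (H.inv_mem hhH) h1
  exact key (m + 1) le_rfl g fun j hj => absurd j.2 (by omega)

end

end Run7.h421
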