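import Pool.Agent.Run7.h421.SOb
import Mathlib.Topology.Instances.AddCircle.DenseSubgroup
import Mathlib.LinearAlgebra.Matrix.Permutation

/-!
# The signed cyclic shift and a rotation generate a dense subgroup of `SO(n)`
-/

set_option autoImplicit false
set_option linter.unusedSectionVars false

namespace Run7.h421

open Matrix Set Topology

noncomputable section

section shift

variable (M : ℕ)

/-- the sign of the cyclic shift -/
def epsS : ℝ := ((Equiv.Perm.sign (finRotate (M + 1)) : ℤ) : ℝ)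

lemma epsS_sq : epsS M * epsS M = 1 := by
  unfold epsS
  rcases Int.units_eq_one_or (Equiv.Perm.sign (finRotate (M + 1))) with h | h <;> rw [h] <;> simp

/-- the signs -/
def dS (i : Fin (M + 1)) : ℝ := if i = 0 then epsS M else 1

lemma dS_sq (i : Fin (M + 1)) : dS M i * dS M i = 1 := by
  unfold dS
  split_ifs
  · exact epsS_sq M
  · norm_num

/-- the signed cyclic shift: `e_j ↦ d_{j+1} e_{j+1}` -/
def shM : Matrix (Fin (M + 1)) (Fin (M + 1)) ℝ :=
  Matrix.diagonal (dS M) * Equiv.Perm.permMatrix ℝ ((finRotate (M + 1))⁻¹ : Equiv.Perm (Fin (M + 1)))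

lemma shM_apply (i j : Fin (M + 1)) : shM M i j = if i = j + 1 then dS M i else 0 := by
  unfold shM
  rw [Matrix.diagonal_mul]
  have h0 : Equiv.Perm.permMatrix ℝ ((finRotate (M + 1))⁻¹ : Equiv.Perm (Fin (M + 1))) i j =
      if (finRotate (M + 1))⁻¹ i = j then 1 else 0 := by
    have h := congrFun (PEquiv.toMatrix_toPEquiv_apply (α := ℝ)
      ((finRotate (M + 1))⁻¹ : Equiv.Perm (Fin (M + 1))) i) j
    refine h.trans ?_
    rw [Pi.single_apply]
    by_cases h1 : j = (finRotate (M + 1))⁻¹ i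
    · rw [if_pos h1, if_pos h1.symm]
    · rw [if_neg h1, if_neg (Ne.symm h1)]
  rw [h0]
  have h : (finRotate (M + 1))⁻¹ i = j ↔ i = j + 1 := by
    rw [Equiv.Perm.inv_eq_iff_eq, finRotate_succ_apply]
  by_cases h1 : i = j + 1
  · rw [if_pos h1, if_pos (h.2 h1), mul_one]
  · rw [if_neg h1, if_neg (fun h2 => h1 (h.1 h2)), mul_zero]

lemma shM_mem : shM M ∈ Matrix.specialOrthogonalGroup (Fin (M + 1)) ℝ := by
  rw [mem_SOn]
  constructor
  · ext i j
    rw [Matrix.mul_apply, Matrix.one_apply]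
    simp only [Matrix.transpose_apply, shM_apply]
    by_cases hij : i = j
    · subst hij
      rw [if_pos rfl, Finset.sum_eq_single (i - 1)]
      · rw [if_pos (sub_add_cancel i 1).symm, dS_sq]
      · intro b _ hb
        rw [if_neg (fun h => hb (eq_sub_of_add_eq h.symm)), zero_mul]
      · intro h; exact absurd (Finset.mem_univ _) h
    · rw [if_neg hij]
      refine Finset.sum_eq_zero fun b _ => ?_
      by_cases h1 : i = b + 1
      · rw [if_neg (fun h : j = b + 1 => hij (h1.trans h.symm)), mul_zero]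
      · rw [if_neg h1, zero_mul]
  · unfold shM
    rw [det_mul, det_diagonal, Matrix.det_permutation, Equiv.Perm.sign_inv]
    have h1 : ∏ i, dS M i = epsS M := by
      unfold dS
      rw [Finset.prod_ite_eq' Finset.univ (0 : Fin (M + 1)) (fun _ => epsS M)]
      simp
    rw [h1]
    exact epsS_sq M

/-- the signed cyclic shift -/
def sh : SOn (M + 1) := ⟨shM M, shM_mem M⟩

lemma sh_mulVec (j : Fin (M + 1)) : (sh M).1 *ᵥ eb j = dS M (j + 1) • eb (j + 1) := by
  rw [mulVec_single_one]
  ext i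
  show shM M i j = _
  rw [shM_apply, Pi.smul_apply, smul_eq_mul]
  by_cases h : i = j + 1
  · rw [if_pos h, h, eb_app, mul_one]
  · rw [if_neg h, eb_app_ne h, mul_zero]

lemma sh_mul_apply (x : SOn (M + 1)) (i c : Fin (M + 1)) :
    (sh M * x).1 i c = dS M i * x.1 (i - 1) c := by
  show (shM M * x.1) i c = _
  rw [Matrix.mul_apply, Finset.sum_eq_single (i - 1)]
  · rw [shM_apply, if_pos (sub_add_cancel i 1).symm]
  · intro b _ hb
    rw [shM_apply, if_neg (fun h => hb (eq_sub_of_add_eq h.symm)), zero_mul]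
  · intro h; exact absurd (Finset.mem_univ _) h

/-- rotations in the plane of the first and the last coordinate vector -/
def rr (hM : 1 ≤ M) (t : ℝ) : SOn (M + 1) :=
  rot (eb_self (0 : Fin (M + 1))) (eb_self (Fin.last M))
    (eb_ne (by intro h; have := congrArg Fin.val h; simp at this; omega)) t

variable {M} (hM : 2 ≤ M)

lemma rr_add (h1 : 1 ≤ M) (t s : ℝ) : rr M h1 t * rr M h1 s = rr M h1 (t + s) := by
  apply Subtype.ext
  exact rotM_mul (eb_self _) (eb_self _)
    (eb_ne (by intro h; have := congrArg Fin.val h; simp at this; omega)) t s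

lemma rr_zero (h1 : 1 ≤ M) : rr M h1 0 = 1 := Subtype.ext (rotM_zero _ _)

/-- rotations do not change the other coordinates -/
lemma rr_mul_apply (h1 : 1 ≤ M) (t : ℝ) (x : SOn (M + 1)) (i c : Fin (M + 1)) (hi0 : i ≠ 0)
    (hiM : i ≠ Fin.last M) : (rr M h1 t * x).1 i c = x.1 i c := by
  show (rotM (eb 0) (eb (Fin.last M)) t * x.1) i c = _
  rw [Matrix.mul_apply, Finset.sum_eq_single i]
  · have : rotM (eb (0 : Fin (M + 1))) (eb (Fin.last M)) t i i = 1 := by
      unfold rotM
      simp [vecMulVec_apply, hi0, hiM]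
    rw [this, one_mul]
  · intro b _ hb
    have : rotM (eb (0 : Fin (M + 1))) (eb (Fin.last M)) t i b = 0 := by
      unfold rotM
      simp [vecMulVec_apply, hi0, hiM, Matrix.one_apply_ne (Ne.symm hb)]
    rw [this, zero_mul]
  · intro h; exact absurd (Finset.mem_univ _) h

lemma rr_eq_one (h1 : 1 ≤ M) {t : ℝ} (h : rr M h1 t = 1) : Real.cos t = 1 := by
  have h2 := congrFun (congrFun (congrArg Subtype.val h) 0) 0
  have h3 : rotM (eb (0 : Fin (M + 1))) (eb (Fin.last M)) t 0 0 = 1 := by
    refine Eq.trans h2 ?_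
    show (1 : Matrix (Fin (M + 1)) (Fin (M + 1)) ℝ) 0 0 = 1
    simp
  have h4 : (0 : Fin (M + 1)) ≠ Fin.last M := by
    intro h; have := congrArg Fin.val h; simp at this; omega
  unfold rotM at h3
  simp [vecMulVec_apply, h4] at h3
  linarith

lemma int_cos {j : ℤ} (h : Real.cos j = 1) : j = 0 := by
  obtain ⟨l, hl⟩ := (Real.cos_eq_one_iff _).1 h
  by_contra hj
  have hl0 : l ≠ 0 := by
    rintro rfl
    apply hj
    have : (j : ℝ) = 0 := by rw [← hl]; simp
    exact_mod_cast this
  apply irrational_pi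
  refine ⟨(j : ℚ) / (2 * l), ?_⟩
  have hl1 : (l : ℝ) ≠ 0 := by exact_mod_cast hl0
  push_cast
  rw [div_eq_iff (by positivity), ← hl]
  ring

/-- Density. -/
theorem dense_shift (h1 : 1 ≤ M) (H : Subgroup (SOn (M + 1))) (hH : IsClosed (H : Set (SOn (M + 1))))
    (hs : sh M ∈ H) (hr : rr M h1 1 ∈ H) (g : SOn (M + 1)) : g ∈ H := by
  have hrc : Continuous (fun t : ℝ => rr M h1 t) := by
    refine Continuous.subtype_mk ?_ _
    unfold rotM
    fun_prop
  -- all rotations in the plane
  have hall : ∀ t, rr M h1 t ∈ H := by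
    let A : AddSubgroup ℝ :=
      { carrier := {t | rr M h1 t ∈ H}
        zero_mem' := by
          show rr M h1 0 ∈ H
          rw [rr_zero]; exact H.one_mem
        add_mem' := by
          intro a b ha hb
          show rr M h1 (a + b) ∈ H
          rw [← rr_add]
          exact H.mul_mem ha hb
        neg_mem' := by
          intro a ha
          show rr M h1 (-a) ∈ H
          have : rr M h1 (-a) = (rr M h1 a)⁻¹ := by
            rw [eq_inv_iff_mul_eq_one, rr_add, neg_add_cancel, rr_zero]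
          rw [this]
          exact H.inv_mem ha }
    have hAc : IsClosed (A : Set ℝ) := hH.preimage hrc
    have h2pi : (2 * Real.pi) ∈ A := by
      show rr M h1 (2 * Real.pi) ∈ H
      have : rr M h1 (2 * Real.pi) = 1 := by
        apply Subtype.ext
        show rotM _ _ (2 * Real.pi) = 1
        unfold rotM
        rw [Real.cos_two_pi, Real.sin_two_pi]
        simp
      rw [this]
      exact H.one_mem
    have hd : Dense (AddSubgroup.closure {(1 : ℝ), 2 * Real.pi} : Set ℝ) := by
      rw [dense_addSubgroupClosure_pair_iff]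
      have : Irrational (2 * Real.pi) := by
        have := irrational_pi.natCast_mul (m := 2) (by norm_num)
        exact_mod_cast this
      simpa using this.inv
    have hle : AddSubgroup.closure {(1 : ℝ), 2 * Real.pi} ≤ A := by
      rw [AddSubgroup.closure_le]
      rintro x (rfl | rfl)
      · exact hr
      · exact h2pi
    intro t
    have h3 : t ∈ closure (AddSubgroup.closure {(1 : ℝ), 2 * Real.pi} : Set ℝ) := hd t
    exact closure_minimal hle hAc h3
  have hconj : ∀ h ∈ H, ∀ p q t, h.1 = rotM p q t →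
      ∃ h' ∈ H, h'.1 = rotM ((sh M).1 *ᵥ p) ((sh M).1 *ᵥ q) t := by
    intro h hh p q t e
    refine ⟨sh M * h * (sh M)⁻¹, H.mul_mem (H.mul_mem hs hh) (H.inv_mem hs), ?_⟩
    show (sh M).1 * h.1 * ((sh M)⁻¹ : SOn (M + 1)).1 = _
    rw [SOn.inv_coe, e, conj_rotM _ (SOn.mul_tr _)]
  refine mem_of_rot H ?_ g
  intro i
  rcases i with ⟨i, hi⟩
  induction i with
  | zero =>
    intro t
    obtain ⟨h', hh', e⟩ := hconj _ (hall (-epsS M * t)) _ _ _ rfl
    refine ⟨h', hh', ?_⟩
    rw [e, sh_mulVec, sh_mulVec]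
    have h2 : (0 : Fin (M + 1)) + 1 = (⟨0, hi⟩ : Fin M).succ := by
      apply Fin.ext
      rw [Fin.val_add_one_of_lt' (by show 0 + 1 < M + 1; omega)]
      rfl
    have h3 : Fin.last M + 1 = (⟨0, hi⟩ : Fin M).castSucc := by
      rw [Fin.last_add_one]
      rfl
    have h4 : (⟨0, hi⟩ : Fin M).castSucc = (0 : Fin (M + 1)) := rfl
    have h5 : (⟨0, hi⟩ : Fin M).succ ≠ (0 : Fin (M + 1)) := Fin.succ_ne_zero _
    rw [h2, h3, h4]
    have h6 : dS M (⟨0, hi⟩ : Fin M).succ = 1 := if_neg h5
    have h7 : dS M 0 = epsS M := if_pos rfl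
    rw [h6, h7, one_smul]
    have h8 : epsS M = 1 ∨ epsS M = -1 := mul_self_eq_one_iff.1 (epsS_sq M)
    unfold rotM
    rcases h8 with h8 | h8
    · rw [h8, neg_one_mul, Real.cos_neg, Real.sin_neg, one_smul, neg_smul, ← smul_neg, neg_sub,
        add_comm (vecMulVec (eb (⟨0, hi⟩ : Fin M).succ) (eb (⟨0, hi⟩ : Fin M).succ))]
    · rw [h8, neg_neg, one_mul, neg_one_smul, vecMulVec_neg, neg_vecMulVec, vecMulVec_neg,
        neg_vecMulVec, neg_neg, sub_neg_eq_add, neg_add_eq_sub,
        add_comm (vecMulVec (eb (⟨0, hi⟩ : Fin M).succ) (eb (⟨0, hi⟩ : Fin M).succ))]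
  | succ i ih =>
    intro t
    obtain ⟨h, hh, e⟩ := ih (by omega) t
    obtain ⟨h', hh', e'⟩ := hconj h hh _ _ _ e
    refine ⟨h', hh', ?_⟩
    rw [e', sh_mulVec, sh_mulVec]
    have h2 : (⟨i, by omega⟩ : Fin M).castSucc + 1 = (⟨i + 1, hi⟩ : Fin M).castSucc := by
      apply Fin.ext
      rw [Fin.val_add_one_of_lt' (by show i + 1 < M + 1; omega)]
      rfl
    have h3 : (⟨i, by omega⟩ : Fin M).succ + 1 = (⟨i + 1, hi⟩ : Fin M).succ := by
      apply Fin.ext
      rw [Fin.val_add_one_of_lt' (by show i + 1 + 1 < M + 1; omega)]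
      rfl
    rw [h2, h3]
    have h4 : dS M (⟨i + 1, hi⟩ : Fin M).castSucc = 1 := if_neg (by
      intro h; have := congrArg Fin.val h; simp at this)
    have h5 : dS M (⟨i + 1, hi⟩ : Fin M).succ = 1 := if_neg (Fin.succ_ne_zero _)
    rw [h4, h5, one_smul, one_smul]

end shift

end

end Run7.h421
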