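import Pool.Agent.Run7.h421.SOc

/-!
# Functions on `SO(n)` which are almost invariant under the shift and the rotation
-/

set_option autoImplicit false
set_option linter.unusedSectionVars false

namespace Run7.h421

open Matrix MeasureTheory Set Topology

noncomputable section

/-- the odd functions `t ↦ t q(t²)` -/
def hq (q : Polynomial ℂ) (t : ℝ) : ℂ := (t : ℂ) * q.eval ((t : ℂ) ^ 2)

lemma hq_neg (q : Polynomial ℂ) (t : ℝ) : hq q (-t) = - hq q t := by
  unfold hq
  push_cast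
  rw [neg_sq]
  ring

lemma hq_sign (q : Polynomial ℂ) {d : ℝ} (hd : d * d = 1) (t : ℝ) : hq q (d * t) = (d : ℂ) * hq q t := by
  rcases mul_self_eq_one_iff.1 hd with rfl | rfl
  · simp
  · rw [neg_one_mul, hq_neg]; simp

lemma hq_cont (q : Polynomial ℂ) : Continuous (hq q) := by
  unfold hq
  exact Complex.continuous_ofReal.mul (q.continuous.comp (Complex.continuous_ofReal.pow 2))

section fn

variable {M : ℕ}

/-- the function `x ↦ ∑ b_j h(x_{j0})` -/
def Fb (b : Fin (M + 1) → ℝ) (q : Polynomial ℂ) : C(SOn (M + 1), ℂ) :=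
  ⟨fun x => ∑ j, (b j : ℂ) * hq q (x.1 j 0), by
    refine continuous_finset_sum _ fun j _ => continuous_const.mul ((hq_cont q).comp ?_)
    exact (continuous_subtype_val (p := fun A => A ∈ Matrix.specialOrthogonalGroup (Fin (M + 1)) ℝ)).matrix_elem j 0⟩

lemma Fb_apply (b : Fin (M + 1) → ℝ) (q : Polynomial ℂ) (x : SOn (M + 1)) :
    Fb b q x = ∑ j, (b j : ℂ) * hq q (x.1 j 0) := rfl

lemma Fb_sub (b b' : Fin (M + 1) → ℝ) (q : Polynomial ℂ) :
    Fb (b - b') q = Fb b q - Fb b' q := by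
  ext x
  rw [ContinuousMap.sub_apply, Fb_apply, Fb_apply, Fb_apply, ← Finset.sum_sub_distrib]
  refine Finset.sum_congr rfl fun j _ => ?_
  rw [Pi.sub_apply]
  push_cast
  ring

lemma Fb_shift (b : Fin (M + 1) → ℝ) (hb0 : b 0 = 0) (q : Polynomial ℂ) (x : SOn (M + 1)) :
    Fb b q (sh M * x) = Fb (fun j => b (j + 1)) q x := by
  rw [Fb_apply, Fb_apply]
  have h1 : ∀ j : Fin (M + 1), (b j : ℂ) * hq q ((sh M * x).1 j 0) =
      (b j : ℂ) * hq q (x.1 (j - 1) 0) := by
    intro j
    rw [sh_mul_apply, hq_sign q (dS_sq M j)]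
    by_cases hj : j = 0
    · rw [hj, hb0]; simp
    · have : dS M j = 1 := if_neg hj
      rw [this]; simp
  rw [Finset.sum_congr rfl fun j _ => h1 j]
  refine (Fintype.sum_equiv (Equiv.addRight (1 : Fin (M + 1))) _ _ fun j => ?_).symm
  show (b (j + 1) : ℂ) * hq q (x.1 j 0) = (b (j + 1) : ℂ) * hq q (x.1 (j + 1 - 1) 0)
  rw [add_sub_cancel_right]

lemma Fb_rot (b : Fin (M + 1) → ℝ) (hb0 : b 0 = 0) (hbl : b (Fin.last M) = 0) (h1 : 1 ≤ M) (t : ℝ)
    (q : Polynomial ℂ) (x : SOn (M + 1)) : Fb b q (rr M h1 t * x) = Fb b q x := by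
  rw [Fb_apply, Fb_apply]
  refine Finset.sum_congr rfl fun j _ => ?_
  by_cases hj0 : j = 0
  · rw [hj0, hb0]; simp
  by_cases hjl : j = Fin.last M
  · rw [hjl, hbl]; simp
  rw [rr_mul_apply h1 t x j 0 hj0 hjl]

/-- two sign changes -/
def sgM (i l : Fin (M + 1)) : Matrix (Fin (M + 1)) (Fin (M + 1)) ℝ :=
  Matrix.diagonal (fun j => (if j = i then -1 else 1) * (if j = l then -1 else 1))

lemma sgM_mem (i l : Fin (M + 1)) : sgM i l ∈ Matrix.specialOrthogonalGroup (Fin (M + 1)) ℝ := by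
  rw [mem_SOn]
  constructor
  · unfold sgM
    rw [Matrix.diagonal_transpose, Matrix.diagonal_mul_diagonal, ← Matrix.diagonal_one]
    congr 1
    funext j
    split_ifs <;> norm_num
  · unfold sgM
    rw [Matrix.det_diagonal, Finset.prod_mul_distrib,
      Finset.prod_ite_eq' Finset.univ i (fun _ => (-1 : ℝ)),
      Finset.prod_ite_eq' Finset.univ l (fun _ => (-1 : ℝ))]
    simp

lemma sg_mul_apply (i l : Fin (M + 1)) (x : SOn (M + 1)) (j c : Fin (M + 1)) :
    ((⟨sgM i l, sgM_mem i l⟩ : SOn (M + 1)) * x).1 j c =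
      ((if j = i then -1 else 1) * (if j = l then -1 else 1)) * x.1 j c := by
  show (sgM i l * x.1) j c = _
  unfold sgM
  rw [Matrix.diagonal_mul]

variable [MeasurableSpace (SOn (M + 1))] [BorelSpace (SOn (M + 1))]
  (μ : Measure (SOn (M + 1))) [μ.IsHaarMeasure]

/-- the correlations -/
def cor (q : Polynomial ℂ) (i j : Fin (M + 1)) : ℝ :=
  ∫ x : SOn (M + 1), ((hq q (x.1 i 0)) * (starRingEnd ℂ) (hq q (x.1 j 0))).re ∂μ

lemma cor_off (hM : 2 ≤ M) (q : Polynomial ℂ) {i j : Fin (M + 1)} (hij : i ≠ j) :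
    cor μ q i j = 0 := by
  haveI : IsTopologicalGroup (SOn (M + 1)) := SOn.topGroup
  obtain ⟨l, hl⟩ : ∃ l : Fin (M + 1), l ∉ ({i, j} : Finset (Fin (M + 1))) := by
    by_contra hcon
    push Not at hcon
    have h1 := Finset.card_le_card (show (Finset.univ : Finset (Fin (M + 1))) ⊆ {i, j} from
      fun l _ => hcon l)
    rw [Finset.card_univ, Fintype.card_fin] at h1
    have h2 := Finset.card_le_two (a := i) (b := j)
    omega
  rw [Finset.mem_insert, Finset.mem_singleton, not_or] at hl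
  have h1 := integral_mul_left_eq_self (μ := μ)
    (fun x : SOn (M + 1) => ((hq q (x.1 i 0)) * (starRingEnd ℂ) (hq q (x.1 j 0))).re)
    (⟨sgM i l, sgM_mem i l⟩ : SOn (M + 1))
  have h2 : ∀ x : SOn (M + 1),
      ((hq q (((⟨sgM i l, sgM_mem i l⟩ : SOn (M + 1)) * x).1 i 0)) *
        (starRingEnd ℂ) (hq q (((⟨sgM i l, sgM_mem i l⟩ : SOn (M + 1)) * x).1 j 0))).re =
      - ((hq q (x.1 i 0)) * (starRingEnd ℂ) (hq q (x.1 j 0))).re := by
    intro x
    rw [sg_mul_apply, sg_mul_apply, if_pos rfl, if_neg (Ne.symm hl.1), if_neg (Ne.symm hij),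
      if_neg (Ne.symm hl.2), mul_one, one_mul, one_mul, neg_one_mul, hq_neg, neg_mul, Complex.neg_re]
  simp_rw [h2] at h1
  rw [integral_neg] at h1
  unfold cor
  linarith

lemma cor_diag (q : Polynomial ℂ) (i : Fin (M + 1)) : cor μ q i i = cor μ q 0 0 := by
  haveI : IsTopologicalGroup (SOn (M + 1)) := SOn.topGroup
  have key : ∀ j : Fin (M + 1), cor μ q (j - 1) (j - 1) = cor μ q j j := by
    intro j
    have h1 := integral_mul_left_eq_self (μ := μ)
      (fun x : SOn (M + 1) => ((hq q (x.1 j 0)) * (starRingEnd ℂ) (hq q (x.1 j 0))).re) (sh M)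
    have h2 : ∀ x : SOn (M + 1), ((hq q ((sh M * x).1 j 0)) *
        (starRingEnd ℂ) (hq q ((sh M * x).1 j 0))).re =
        ((hq q (x.1 (j - 1) 0)) * (starRingEnd ℂ) (hq q (x.1 (j - 1) 0))).re := by
      intro x
      rw [sh_mul_apply, hq_sign q (dS_sq M j), map_mul, Complex.conj_ofReal]
      rcases mul_self_eq_one_iff.1 (dS_sq M j) with h | h <;> rw [h] <;> simp
    simp_rw [h2] at h1
    exact h1
  induction i using Fin.induction with
  | zero => rfl
  | succ i ih =>
    rw [← key i.succ]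
    have : i.succ - 1 = i.castSucc := by
      rw [sub_eq_iff_eq_add]
      exact (Fin.coeSucc_eq_succ).symm
    rw [this]
    exact ih

lemma norm_Fb (hM : 2 ≤ M) (b : Fin (M + 1) → ℝ) (q : Polynomial ℂ) [CompactSpace (SOn (M + 1))] :
    ‖ContinuousMap.toLp 2 μ ℂ (Fb b q)‖ ^ 2 = cor μ q 0 0 * ∑ j, b j ^ 2 := by
  haveI : IsTopologicalGroup (SOn (M + 1)) := SOn.topGroup
  rw [norm_toLp_sq]
  have h1 : ∀ x : SOn (M + 1), ‖Fb b q x‖ ^ 2 = ∑ i, ∑ j, (b i * b j) *
      ((hq q (x.1 i 0)) * (starRingEnd ℂ) (hq q (x.1 j 0))).re := by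
    intro x
    have h2 : ((‖Fb b q x‖ ^ 2 : ℝ) : ℂ) = Fb b q x * (starRingEnd ℂ) (Fb b q x) := by
      rw [Complex.mul_conj, Complex.normSq_eq_norm_sq]
    have h3 : ‖Fb b q x‖ ^ 2 = (Fb b q x * (starRingEnd ℂ) (Fb b q x)).re := by
      rw [← h2, Complex.ofReal_re]
    rw [h3, Fb_apply, map_sum, Finset.sum_mul_sum, Complex.re_sum]
    refine Finset.sum_congr rfl fun i _ => ?_
    rw [Complex.re_sum]
    refine Finset.sum_congr rfl fun j _ => ?_
    rw [map_mul, Complex.conj_ofReal]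
    have h4 : (b i : ℂ) * hq q (x.1 i 0) * ((b j : ℂ) * (starRingEnd ℂ) (hq q (x.1 j 0))) =
        ((b i * b j : ℝ) : ℂ) * (hq q (x.1 i 0) * (starRingEnd ℂ) (hq q (x.1 j 0))) := by
      push_cast; ring
    rw [h4, Complex.re_ofReal_mul]
  have hc : ∀ i j : Fin (M + 1), Continuous (fun x : SOn (M + 1) =>
      ((hq q (x.1 i 0)) * (starRingEnd ℂ) (hq q (x.1 j 0))).re) := by
    intro i j
    have h2 : ∀ i, Continuous (fun x : SOn (M + 1) => hq q (x.1 i 0)) := fun i =>
      (hq_cont q).comp ((continuous_subtype_val (p := fun A => A ∈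
        Matrix.specialOrthogonalGroup (Fin (M + 1)) ℝ)).matrix_elem i 0)
    exact Complex.continuous_re.comp ((h2 i).mul (Complex.continuous_conj.comp (h2 j)))
  simp_rw [h1]
  rw [integral_finset_sum]
  · rw [Finset.mul_sum]
    refine Finset.sum_congr rfl fun i _ => ?_
    rw [integral_finset_sum]
    · rw [Finset.sum_eq_single i]
      · rw [integral_const_mul]
        have := cor_diag μ q i
        unfold cor at this ⊢
        rw [this]
        ring
      · intro j _ hji
        rw [integral_const_mul]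
        have := cor_off μ hM q (Ne.symm hji)
        unfold cor at this
        rw [this, mul_zero]
      · intro h; exact absurd (Finset.mem_univ _) h
    · intro j _
      exact integrable_cont μ (continuous_const.mul (hc i j))
  · intro i _
    exact integrable_cont μ (continuous_finset_sum _ fun j _ => continuous_const.mul (hc i j))

end fn

end

end Run7.h421
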