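import Pool.Agent.Run7.h421.SOd

/-!
# In `SO(n)` the `ε` of Q1 is at most `2 - 2 cos (π / (n - 1))`
-/

set_option autoImplicit false
set_option linter.unusedSectionVars false

namespace Run7.h421

open Matrix MeasureTheory Set Topology

noncomputable section

/-- the profile -/
def bs (M : ℕ) (j : Fin (M + 1)) : ℝ := Real.sin (Real.pi / M * (j.val : ℝ))

lemma bs_zero (M : ℕ) : bs M 0 = 0 := by simp [bs]

lemma bs_last {M : ℕ} (h1 : 1 ≤ M) : bs M (Fin.last M) = 0 := by
  unfold bs
  have h2 : (M : ℝ) ≠ 0 := by exact_mod_cast (by omega : M ≠ 0)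
  rw [Fin.val_last, div_mul_cancel₀ _ h2, Real.sin_pi]

lemma bs_sum {M : ℕ} (h1 : 1 ≤ M) :
    ∑ j, (bs M (j + 1) - bs M j) ^ 2 = (2 - 2 * Real.cos (Real.pi / M)) * ∑ j, bs M j ^ 2 := by
  have hA : ∑ j, bs M (j + 1) ^ 2 = ∑ j, bs M j ^ 2 :=
    Fintype.sum_equiv (Equiv.addRight (1 : Fin (M + 1))) _ _ fun j => rfl
  have hC : ∑ j, bs M (j + 1) * bs M j = ∑ j, bs M j * bs M (j - 1) := by
    refine Fintype.sum_equiv (Equiv.addRight (1 : Fin (M + 1))) _ _ fun j => ?_
    show _ = bs M (j + 1) * bs M (j + 1 - 1)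
    rw [add_sub_cancel_right]
  have hE : ∀ j : Fin (M + 1), bs M (j + 1) * bs M j + bs M j * bs M (j - 1) =
      2 * Real.cos (Real.pi / M) * bs M j ^ 2 := by
    intro j
    by_cases hj0 : j = 0
    · rw [hj0, bs_zero]; ring
    by_cases hjl : j = Fin.last M
    · rw [hjl, bs_last h1]; ring
    have hlt : j.val + 1 < M + 1 := by
      have := j.2
      rcases Nat.lt_or_ge (j.val + 1) (M + 1) with h | h
      · exact h
      · exact absurd (Fin.ext (by rw [Fin.val_last]; omega)) hjl
    have hv1 : (j + 1).val = j.val + 1 := Fin.val_add_one_of_lt' hlt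
    have hv2 : (j - 1).val = j.val - 1 := Fin.val_sub_one_of_ne_zero hj0
    have hpos : 1 ≤ j.val := Nat.one_le_iff_ne_zero.2 fun h => hj0 (Fin.ext h)
    have h2 : bs M (j + 1) = Real.sin (Real.pi / M * j.val + Real.pi / M) := by
      unfold bs; rw [hv1]; push_cast; ring_nf
    have h3 : bs M (j - 1) = Real.sin (Real.pi / M * j.val - Real.pi / M) := by
      unfold bs; rw [hv2, Nat.cast_sub hpos]; push_cast; ring_nf
    rw [h2, h3, Real.sin_add, Real.sin_sub]
    unfold bs
    ring
  have hS := Finset.sum_congr rfl fun (j : Fin (M + 1)) (_ : j ∈ Finset.univ) => hE j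
  rw [Finset.sum_add_distrib, ← Finset.mul_sum, ← hC] at hS
  have hL : ∀ j : Fin (M + 1), (bs M (j + 1) - bs M j) ^ 2 =
      bs M (j + 1) ^ 2 + bs M j ^ 2 - 2 * (bs M (j + 1) * bs M j) := fun j => by ring
  simp_rw [hL]
  rw [Finset.sum_sub_distrib, Finset.sum_add_distrib, hA, ← Finset.mul_sum]
  linarith

lemma exists_J {k : ℕ} (hk : 4 ≤ k) : ∃ J : Finset ℤ, J.card = k - 2 ∧ (∀ j ∈ J, -j ∈ J) ∧
    (1 : ℤ) ∈ J := by
  rcases Nat.even_or_odd k with ⟨a, ha⟩ | ⟨a, ha⟩
  · refine ⟨(Finset.Icc (-((a : ℤ) - 1)) ((a : ℤ) - 1)).erase 0, ?_, ?_, ?_⟩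
    · rw [Finset.card_erase_of_mem (by rw [Finset.mem_Icc]; omega), Int.card_Icc]
      omega
    · intro j hj
      rw [Finset.mem_erase, Finset.mem_Icc] at hj ⊢
      omega
    · rw [Finset.mem_erase, Finset.mem_Icc]
      omega
  · refine ⟨Finset.Icc (-((a : ℤ) - 1)) ((a : ℤ) - 1), ?_, ?_, ?_⟩
    · rw [Int.card_Icc]
      omega
    · intro j hj
      rw [Finset.mem_Icc] at hj ⊢
      omega
    · rw [Finset.mem_Icc]
      omega

section fin

variable {M : ℕ} [MeasurableSpace (SOn (M + 1))] [BorelSpace (SOn (M + 1))]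
  (μ : Measure (SOn (M + 1))) [μ.IsHaarMeasure]

/-- the linear map -/
def PhiS [CompactSpace (SOn (M + 1))] : Polynomial ℂ →ₗ[ℂ] Lp ℂ 2 μ where
  toFun q := ContinuousMap.toLp 2 μ ℂ (Fb (bs M) q)
  map_add' q q' := by
    rw [← map_add]
    congr 1
    ext x
    rw [ContinuousMap.add_apply, Fb_apply, Fb_apply, Fb_apply, ← Finset.sum_add_distrib]
    refine Finset.sum_congr rfl fun j _ => ?_
    unfold hq
    rw [Polynomial.eval_add]
    ring
  map_smul' c q := by
    rw [RingHom.id_apply, ← map_smul]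
    congr 1
    ext x
    rw [ContinuousMap.smul_apply, Fb_apply, Fb_apply, Finset.smul_sum]
    refine Finset.sum_congr rfl fun j _ => ?_
    unfold hq
    rw [Polynomial.eval_smul, smul_eq_mul, smul_eq_mul]
    ring

lemma PhiS_inj [CompactSpace (SOn (M + 1))] (hM : 2 ≤ M) : Function.Injective (PhiS μ) := by
  rw [← LinearMap.ker_eq_bot, LinearMap.ker_eq_bot']
  intro q hq0
  have h0 : ContinuousMap.toLp 2 μ ℂ (Fb (bs M) q) = 0 := hq0
  have h1 : Fb (bs M) q = 0 := by
    have := ContinuousMap.toLp_injective (p := 2) (𝕜 := ℂ) (E := ℂ) μ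
    exact this (by rw [h0, map_zero])
  set one : Fin (M + 1) := ⟨1, by omega⟩ with hone
  have hne : (0 : Fin (M + 1)) ≠ one := by
    intro h; have := congrArg Fin.val h; simp [hone] at this
  have hM0 : (0 : ℝ) < M := by exact_mod_cast (by omega : 0 < M)
  have hb1 : bs M one ≠ 0 := by
    have h2 : 0 < bs M one := by
      unfold bs
      apply Real.sin_pos_of_pos_of_lt_pi
      · rw [hone]; simp only [Nat.cast_one, mul_one]; positivity
      · rw [hone]; simp only [Nat.cast_one, mul_one]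
        rw [div_lt_iff₀ hM0]
        have : (2 : ℝ) ≤ M := by exact_mod_cast hM
        nlinarith [Real.pi_pos]
    exact h2.ne'
  have h2 : ∀ t : ℝ, hq q (Real.sin t) = 0 := by
    intro t
    have h3 := congrArg (fun φ => φ (rot (eb_self (0 : Fin (M + 1))) (eb_self one) (eb_ne hne) t)) h1
    simp only [ContinuousMap.zero_apply] at h3
    rw [Fb_apply, Finset.sum_eq_single one] at h3
    · have h4 : (rot (eb_self (0 : Fin (M + 1))) (eb_self one) (eb_ne hne) t).1 one 0 =
          Real.sin t := by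
        show rotM (eb 0) (eb one) t one 0 = _
        unfold rotM
        simp [vecMulVec_apply, hne, hne.symm]
      rw [h4] at h3
      rcases mul_eq_zero.1 h3 with h5 | h5
      · exact absurd (by exact_mod_cast h5) hb1
      · exact h5
    · intro j _ hj
      by_cases hj0 : j = 0
      · rw [hj0, bs_zero]; simp
      · have h4 : (rot (eb_self (0 : Fin (M + 1))) (eb_self one) (eb_ne hne) t).1 j 0 = 0 := by
          show rotM (eb 0) (eb one) t j 0 = _
          unfold rotM
          simp [vecMulVec_apply, hj0, hj]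
        rw [h4]
        simp [hq]
    · intro h; exact absurd (Finset.mem_univ _) h
  have h3 : ∀ s : ℝ, s ∈ Set.Ioc (0 : ℝ) 1 → q.IsRoot ((s : ℂ) ^ 2) := by
    intro s hs
    have h4 := h2 (Real.arcsin s)
    rw [Real.sin_arcsin (by linarith [hs.1]) hs.2] at h4
    unfold hq at h4
    rcases mul_eq_zero.1 h4 with h5 | h5
    · exact absurd (by exact_mod_cast h5) hs.1.ne'
    · exact h5
  refine Polynomial.eq_zero_of_infinite_isRoot q ?_
  have h4 : ((fun s : ℝ => ((s : ℂ) ^ 2)) '' Set.Ioc (0 : ℝ) 1).Infinite := by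
    refine (Set.Ioc_infinite (by norm_num)).image ?_
    intro s hs t ht hst
    have h5 : s ^ 2 = t ^ 2 := by
      have h7 : ((s : ℂ) ^ 2) = ((t : ℂ) ^ 2) := hst
      exact_mod_cast h7
    have h6 : (s - t) * (s + t) = 0 := by ring_nf; linarith
    rcases mul_eq_zero.1 h6 with h7 | h7
    · linarith
    · linarith [hs.1, ht.1]
  refine h4.mono ?_
  rintro _ ⟨s, hs, rfl⟩
  exact h3 s hs

/-- **Infinitely many eigenvalues greater than `k - ε` in `SO(n)`**, for all `k ≥ 4` and all
`ε > 2 - 2 cos (π / (n - 1))`. -/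
theorem SO_top (hM : 2 ≤ M) {k : ℕ} (hk : 4 ≤ k) {ε : ℝ} (hε : 2 - 2 * Real.cos (Real.pi / M) < ε) :
    ∃ S : Finset (SOn (M + 1)), S.card = k ∧ (∀ s ∈ S, s⁻¹ ∈ S) ∧
      Dense ((Subgroup.closure (S : Set (SOn (M + 1))) : Subgroup (SOn (M + 1))) :
        Set (SOn (M + 1))) ∧ ¬ FiniteDimensional ℂ (topSpace μ S ε) := by
  classical
  haveI : IsTopologicalGroup (SOn (M + 1)) := SOn.topGroup
  haveI : CompactSpace (SOn (M + 1)) := SOn.compact
  have h1M : 1 ≤ M := by omega
  obtain ⟨J, hJc, hJs, hJ1⟩ := exists_J hk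
  set T : Finset (SOn (M + 1)) := J.image (fun j : ℤ => rr M h1M (j : ℝ)) with hT
  -- the elements
  set one : Fin (M + 1) := ⟨1, by omega⟩ with hone
  have hone0 : one ≠ 0 := by
    intro h; have := congrArg Fin.val h; simp [hone] at this
  have honel : one ≠ Fin.last M := by
    intro h; have := congrArg Fin.val h; simp [hone] at this; omega
  have hval : (one + 1).val = 2 := Fin.val_add_one_of_lt' (by rw [hone]; show 1 + 1 < M + 1; omega)
  have h11 : (sh M).1 one one = 0 := by
    show shM M one one = 0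
    rw [shM_apply, if_neg]
    intro h
    have h2 := congrArg Fin.val h
    rw [hval] at h2
    simp [hone] at h2
  have h10 : (sh M).1 one 0 = 1 := by
    show shM M one 0 = 1
    have h2 : one = 0 + 1 := by
      apply Fin.ext
      rw [Fin.val_add_one_of_lt' (by show 0 + 1 < M + 1; omega)]
      simp [hone]
    rw [shM_apply, if_pos h2]
    exact if_neg hone0
  have h01 : (sh M).1 0 one = 0 := by
    show shM M 0 one = 0
    rw [shM_apply, if_neg]
    intro h
    have h2 := congrArg Fin.val h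
    rw [hval] at h2
    simp at h2
  have hr11 : ∀ t, (rr M h1M t).1 one one = 1 := by
    intro t
    have h2 := rr_mul_apply h1M t 1 one one hone0 honel
    rw [mul_one] at h2
    rw [h2]
    show (1 : Matrix (Fin (M + 1)) (Fin (M + 1)) ℝ) one one = 1
    simp
  have hrinv : ∀ t, (rr M h1M t)⁻¹ = rr M h1M (-t) := by
    intro t
    rw [inv_eq_iff_mul_eq_one, rr_add, add_neg_cancel, rr_zero]
  have hshT : sh M ∉ T := by
    intro h
    obtain ⟨j, -, hj⟩ := Finset.mem_image.1 h
    have h2 := hr11 (j : ℝ)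
    rw [hj, h11] at h2
    exact zero_ne_one h2
  have hshiT : (sh M)⁻¹ ∉ T := by
    intro h
    obtain ⟨j, -, hj⟩ := Finset.mem_image.1 h
    have h2 := hr11 (j : ℝ)
    rw [hj, SOn.inv_coe, Matrix.transpose_apply, h11] at h2
    exact zero_ne_one h2
  have hshi : sh M ≠ (sh M)⁻¹ := by
    intro h
    have h2 : (sh M).1 one 0 = ((sh M)⁻¹ : SOn (M + 1)).1 one 0 := by rw [← h]
    rw [SOn.inv_coe, Matrix.transpose_apply, h10, h01] at h2
    exact one_ne_zero h2
  have hTc : T.card = k - 2 := by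
    rw [hT, Finset.card_image_of_injective, hJc]
    intro i j hij
    have h2 : rr M h1M ((i - j : ℤ) : ℝ) = 1 := by
      have h3 : rr M h1M (i : ℝ) * (rr M h1M (j : ℝ))⁻¹ = 1 := by
        have h4 : rr M h1M (i : ℝ) = rr M h1M (j : ℝ) := hij
        rw [h4, mul_inv_cancel]
      rw [hrinv, rr_add] at h3
      rw [← h3]
      push_cast
      ring_nf
    have h3 := int_cos (rr_eq_one h1M h2)
    omega
  set S : Finset (SOn (M + 1)) := insert (sh M) (insert (sh M)⁻¹ T) with hS
  have hni : sh M ∉ insert (sh M)⁻¹ T := by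
    rw [Finset.mem_insert, not_or]
    exact ⟨hshi, hshT⟩
  have hScard : S.card = k := by
    rw [hS, Finset.card_insert_of_notMem hni, Finset.card_insert_of_notMem hshiT, hTc]
    omega
  have hSs : ∀ s ∈ S, s⁻¹ ∈ S := by
    intro s hs
    rw [hS, Finset.mem_insert, Finset.mem_insert] at hs ⊢
    rcases hs with rfl | rfl | hs
    · exact Or.inr (Or.inl rfl)
    · exact Or.inl (inv_inv _)
    · refine Or.inr (Or.inr ?_)
      obtain ⟨j, hj, rfl⟩ := Finset.mem_image.1 hs
      refine Finset.mem_image.2 ⟨-j, hJs j hj, ?_⟩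
      rw [hrinv]
      push_cast
      rfl
  refine ⟨S, hScard, hSs, ?_, ?_⟩
  · -- density
    set H := (Subgroup.closure (S : Set (SOn (M + 1)))).topologicalClosure with hH
    have hall : ∀ g, g ∈ H := by
      refine dense_shift h1M H (Subgroup.isClosed_topologicalClosure _) ?_ ?_
      · refine Subgroup.le_topologicalClosure _ (Subgroup.subset_closure ?_)
        rw [Finset.mem_coe, hS]
        exact Finset.mem_insert_self _ _
      · refine Subgroup.le_topologicalClosure _ (Subgroup.subset_closure ?_)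
        rw [Finset.mem_coe, hS]
        refine Finset.mem_insert_of_mem (Finset.mem_insert_of_mem ?_)
        exact Finset.mem_image.2 ⟨1, hJ1, by simp⟩
    intro g
    exact hall g
  · intro hfd
    rw [topSpace_eq μ S hSs] at hfd
    -- the defect
    have hdfc : ∀ f ∈ LinearMap.range (PhiS μ), dfc (lreg μ) S 1 f ≤
        (2 - 2 * Real.cos (Real.pi / M)) * ‖f‖ ^ 2 := by
      rintro _ ⟨q, rfl⟩
      set f : Lp ℂ 2 μ := PhiS μ q with hf
      have hf' : f = ContinuousMap.toLp 2 μ ℂ (Fb (bs M) q) := rfl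
      have hrot : ∀ s ∈ T, ‖lreg μ s f - ((1 : ℝ) : ℂ) • f‖ ^ 2 = 0 := by
        intro s hs
        obtain ⟨j, -, rfl⟩ := Finset.mem_image.1 hs
        have h2 : lreg μ (rr M h1M (j : ℝ)) f = f := by
          rw [hf', lreg_toLp]
          congr 1
          ext x
          show Fb (bs M) q ((rr M h1M (j : ℝ))⁻¹ * x) = Fb (bs M) q x
          rw [hrinv]
          exact Fb_rot _ (bs_zero M) (bs_last h1M) h1M _ q x
        rw [h2]
        simp
      have hshf : ‖lreg μ (sh M)⁻¹ f - f‖ ^ 2 = (2 - 2 * Real.cos (Real.pi / M)) * ‖f‖ ^ 2 := by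
        have h2 : lreg μ (sh M)⁻¹ f - f =
            ContinuousMap.toLp 2 μ ℂ (Fb ((fun j => bs M (j + 1)) - bs M) q) := by
          rw [Fb_sub, map_sub, hf', lreg_toLp]
          congr 2
          ext x
          show Fb (bs M) q (((sh M)⁻¹)⁻¹ * x) = _
          rw [inv_inv, Fb_shift _ (bs_zero M)]
        rw [h2, norm_Fb μ hM, hf', norm_Fb μ hM]
        have h3 : ∑ j, ((fun j => bs M (j + 1)) - bs M) j ^ 2 = ∑ j, (bs M (j + 1) - bs M j) ^ 2 :=
          rfl
        rw [h3, bs_sum h1M]
        ring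
      rw [dfc_eq (lreg μ) S (Or.inl rfl), hS, Finset.sum_insert hni, Finset.sum_insert hshiT,
        Finset.sum_eq_zero hrot]
      simp only [Complex.ofReal_one, one_smul]
      have h2 := inv_near (lreg μ) (sh M) f
      rw [← h2, hshf]
      linarith
    have hV := fd_of_top (lreg μ) S (lreg_cont μ) hSs (LinearMap.range (PhiS μ)) hε hdfc
    have h2 : FiniteDimensional ℂ (Polynomial ℂ) := by
      refine FiniteDimensional.of_injective (PhiS μ).rangeRestrict ?_
      intro a b hab
      exact PhiS_inj μ hM (congrArg Subtype.val hab)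
    exact Polynomial.not_finite h2

end fin

end

end Run7.h421
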