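import Pool.Agent.Run7.h421.PW

/-!
# Spectral theory of the operators `∑ s ∈ S, π s`
-/

set_option autoImplicit false
set_option linter.unusedSectionVars false

namespace Run7.h421

open MeasureTheory InnerProductSpace Topology

noncomputable section

variable {E : Type*} [NormedAddCommGroup E] [InnerProductSpace ℂ E]

/-- The span of the eigenvectors with eigenvalue in `P`. -/
def eSpan (T : Module.End ℂ E) (P : Set ℂ) : Submodule ℂ E := ⨆ c ∈ P, T.eigenspace c

/-- The complement of the interval `[-k + ε, k - ε]` in the plane. -/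
def Out (k : ℕ) (ε : ℝ) : Set ℂ := {c | ¬ (c.im = 0 ∧ -(k : ℝ) + ε ≤ c.re ∧ c.re ≤ (k : ℝ) - ε)}

lemma mem_eSpan_of {T : Module.End ℂ E} {P : Set ℂ} {c : ℂ} (hc : c ∈ P) {v : E}
    (hv : T v = c • v) : v ∈ eSpan T P := by
  have h : T.eigenspace c ≤ eSpan T P := le_iSup₂_of_le c hc le_rfl
  exact h (Module.End.mem_eigenspace_iff.2 hv)

lemma eSpan_induction {T : Module.End ℂ E} {P : Set ℂ} {v : E} (hv : v ∈ eSpan T P) :
    ∃ (s : Finset ℂ) (f : ℂ → E), (∀ c ∈ s, c ∈ P) ∧ (∀ c, T (f c) = c • f c) ∧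
      v = ∑ c ∈ s, f c := by
  classical
  unfold eSpan at hv
  rw [iSup_subtype' (p := fun c => c ∈ P) (f := fun c _ => T.eigenspace c)] at hv
  rw [Submodule.mem_iSup_iff_exists_finsupp] at hv
  obtain ⟨f, hf, rfl⟩ := hv
  refine ⟨f.support.map (Function.Embedding.subtype _),
    fun c => if h : c ∈ P then f ⟨c, h⟩ else 0, ?_, ?_, ?_⟩
  · intro c hc
    simp only [Finset.mem_map, Function.Embedding.subtype_apply] at hc
    obtain ⟨a, -, rfl⟩ := hc
    exact a.2
  · intro c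
    by_cases h : c ∈ P
    · simp only [h, dif_pos]
      exact Module.End.mem_eigenspace_iff.1 (hf ⟨c, h⟩)
    · simp [h]
  · rw [Finset.sum_map, Finsupp.sum]
    refine Finset.sum_congr rfl fun a _ => ?_
    simp only [Function.Embedding.subtype_apply]
    rw [dif_pos a.2]

lemma eigen_orth {T : Module.End ℂ E} (hT : T.IsSymmetric) {a b : ℂ} (hab : a ≠ b) {v w : E}
    (hv : T v = a • v) (hw : T w = b • w) : inner ℂ v w = 0 := by
  have h := hT.orthogonalFamily_eigenspaces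
  have h1 := h.pairwise hab
  exact Submodule.isOrtho_iff_inner_eq.1 h1 v (Module.End.mem_eigenspace_iff.2 hv) w
    (Module.End.mem_eigenspace_iff.2 hw)

lemma eigen_real {T : Module.End ℂ E} (hT : T.IsSymmetric) {a : ℂ} {v : E} (hv0 : v ≠ 0)
    (hv : T v = a • v) : a.im = 0 := by
  have h := hT v v
  rw [hv, inner_smul_left, inner_smul_right] at h
  have h1 : inner ℂ v v ≠ 0 := inner_self_ne_zero.2 hv0
  have h2 := mul_right_cancel₀ h1 h
  exact Complex.conj_eq_iff_im.1 h2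

lemma norm_sq_sum {T : Module.End ℂ E} (hT : T.IsSymmetric) (s : Finset ℂ) (f : ℂ → E)
    (hf : ∀ c, T (f c) = c • f c) : ‖∑ c ∈ s, f c‖ ^ 2 = ∑ c ∈ s, ‖f c‖ ^ 2 := by
  have h1 : ((‖∑ c ∈ s, f c‖ ^ 2 : ℝ) : ℂ) = ∑ c ∈ s, ((‖f c‖ ^ 2 : ℝ) : ℂ) := by
    have h2 : inner ℂ (∑ c ∈ s, f c) (∑ c ∈ s, f c) = ∑ c ∈ s, inner ℂ (f c) (f c) := by
      rw [sum_inner]
      refine Finset.sum_congr rfl fun a ha => ?_
      rw [inner_sum, Finset.sum_eq_single a]
      · intro b _ hb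
        exact eigen_orth hT hb.symm (hf a) (hf b)
      · intro h; exact absurd ha h
    rw [inner_self_eq_norm_sq_to_K] at h2
    push_cast
    simp only [Complex.coe_algebraMap] at h2
    rw [h2]
    refine Finset.sum_congr rfl fun a _ => ?_
    rw [inner_self_eq_norm_sq_to_K]
    simp
  exact_mod_cast h1

lemma inner_sum_eig {T : Module.End ℂ E} (hT : T.IsSymmetric) (s : Finset ℂ) (f : ℂ → E)
    (hf : ∀ c, T (f c) = c • f c) :
    (inner ℂ (T (∑ c ∈ s, f c)) (∑ c ∈ s, f c)).re = ∑ c ∈ s, c.re * ‖f c‖ ^ 2 := by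
  rw [map_sum, sum_inner, Complex.re_sum]
  refine Finset.sum_congr rfl fun a ha => ?_
  rw [hf, inner_smul_left, inner_sum, Finset.sum_eq_single a]
  · rw [inner_self_eq_norm_sq_to_K]
    by_cases h0 : f a = 0
    · simp [h0]
    · have him := eigen_real hT h0 (hf a)
      rw [Complex.mul_re, Complex.conj_re, Complex.conj_im, him]
      simp
      left
      norm_cast
  · intro b _ hb
    exact eigen_orth hT hb.symm (hf a) (hf b)
  · intro h; exact absurd ha h

lemma eSpan_inner_le {T : Module.End ℂ E} (hT : T.IsSymmetric) {P : Set ℂ} {σ a : ℝ}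
    (hP : ∀ c ∈ P, c.im = 0 → σ * c.re ≤ a) {v : E} (hv : v ∈ eSpan T P) :
    σ * (inner ℂ (T v) v).re ≤ a * ‖v‖ ^ 2 := by
  obtain ⟨s, f, hs, hf, rfl⟩ := eSpan_induction hv
  rw [inner_sum_eig hT s f hf, norm_sq_sum hT s f hf, Finset.mul_sum, Finset.mul_sum]
  refine Finset.sum_le_sum fun c hc => ?_
  by_cases h0 : f c = 0
  · simp [h0]
  · rw [← mul_assoc]
    exact mul_le_mul_of_nonneg_right (hP c (hs c hc) (eigen_real hT h0 (hf c))) (by positivity)

lemma eSpan_orth {T : Module.End ℂ E} (hT : T.IsSymmetric) {P Q : Set ℂ} (hPQ : Disjoint P Q)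
    {v w : E} (hv : v ∈ eSpan T P) (hw : w ∈ eSpan T Q) : inner ℂ v w = 0 := by
  obtain ⟨s, f, hs, hf, rfl⟩ := eSpan_induction hv
  obtain ⟨t, g, ht, hg, rfl⟩ := eSpan_induction hw
  rw [sum_inner]
  refine Finset.sum_eq_zero fun a ha => ?_
  rw [inner_sum]
  refine Finset.sum_eq_zero fun b hb => ?_
  refine eigen_orth hT ?_ (hf a) (hg b)
  rintro rfl
  exact Set.disjoint_left.1 hPQ (hs _ ha) (ht _ hb)

lemma eSpan_map {T : Module.End ℂ E} {P : Set ℂ} {v : E} (hv : v ∈ eSpan T P) :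
    T v ∈ eSpan T P := by
  obtain ⟨s, f, hs, hf, rfl⟩ := eSpan_induction hv
  rw [map_sum]
  refine Submodule.sum_mem _ fun c hc => ?_
  rw [hf]
  exact Submodule.smul_mem _ _ (mem_eSpan_of (hs c hc) (hf c))

lemma eSpan_mono {T : Module.End ℂ E} {P Q : Set ℂ} (h : P ⊆ Q) : eSpan T P ≤ eSpan T Q := by
  intro v hv
  obtain ⟨s, f, hs, hf, rfl⟩ := eSpan_induction hv
  exact Submodule.sum_mem _ fun c hc => mem_eSpan_of (h (hs c hc)) (hf c)

/-- Orthogonality to the eigenvectors with eigenvalue in `P`, when the eigenvectors are complete. -/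
lemma inner_le_of_orth [CompleteSpace E] {T : Module.End ℂ E} (hT : T.IsSymmetric)
    (hTc : Continuous T)
    (hcomp : (eSpan T Set.univ)ᗮ = ⊥) {P : Set ℂ} {σ a : ℝ}
    (hP : ∀ c ∉ P, c.im = 0 → σ * c.re ≤ a) {v : E} (hv : v ∈ (eSpan T P)ᗮ) :
    σ * (inner ℂ (T v) v).re ≤ a * ‖v‖ ^ 2 := by
  set M := eSpan T Pᶜ with hM
  have hv' : v ∈ M.topologicalClosure := by
    have hcl : IsClosed (M.topologicalClosure : Set E) := M.isClosed_topologicalClosure
    haveI : CompleteSpace M.topologicalClosure := hcl.completeSpace_coe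
    obtain ⟨m, hm, m', hm', hsum⟩ :=
      M.topologicalClosure.exists_add_mem_mem_orthogonal v
    have h1 : m' ∈ (eSpan T Set.univ)ᗮ := by
      rw [Submodule.mem_orthogonal]
      intro u hu
      obtain ⟨s, f, -, hf, rfl⟩ := eSpan_induction hu
      rw [sum_inner]
      refine Finset.sum_eq_zero fun c _ => ?_
      by_cases hc : c ∈ P
      · have h2 : inner ℂ (f c) v = 0 :=
          (Submodule.mem_orthogonal _ _).1 hv _ (mem_eSpan_of hc (hf c))
        have h3 : inner ℂ (f c) m = 0 := by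
          have h4 : M.topologicalClosure ≤ (eSpan T P)ᗮ := by
            refine Submodule.topologicalClosure_minimal _ ?_ (Submodule.isClosed_orthogonal _)
            intro x hx
            rw [Submodule.mem_orthogonal]
            intro y hy
            exact eSpan_orth hT disjoint_compl_right hy hx
          exact (Submodule.mem_orthogonal _ _).1 (h4 hm) _ (mem_eSpan_of hc (hf c))
        rw [hsum, inner_add_right, h3, zero_add] at h2
        exact h2
      · refine (Submodule.mem_orthogonal _ _).1 hm' _ ?_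
        exact Submodule.le_topologicalClosure _ (mem_eSpan_of hc (hf c))
    rw [hcomp, Submodule.mem_bot] at h1
    rw [hsum, h1, add_zero]
    exact hm
  have hset : IsClosed {x : E | σ * (inner ℂ (T x) x).re ≤ a * ‖x‖ ^ 2} := by
    refine isClosed_le ?_ (by fun_prop)
    exact continuous_const.mul (Complex.continuous_re.comp (hTc.inner continuous_id))
  have hsub : (M : Set E) ⊆ {x : E | σ * (inner ℂ (T x) x).re ≤ a * ‖x‖ ^ 2} := by
    intro x hx
    exact eSpan_inner_le hT (fun c hc him => hP c hc him) hx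
  exact (closure_minimal hsub hset) hv'

section rep

variable {G : Type*} [TopologicalSpace G] [Group G] [IsTopologicalGroup G] [CompactSpace G]
variable [CompleteSpace E] (π : G →* (E ≃ₗᵢ[ℂ] E)) (hπ : ∀ v, Continuous fun g => π g v)
  (S : Finset G) (hS : ∀ s ∈ S, s⁻¹ ∈ S)

lemma Dl_cont {Γ : Type*} [Group Γ] (π : Γ →* (E ≃ₗᵢ[ℂ] E)) (S : Finset Γ) :
    Continuous (Dl π S) := by
  have : (Dl π S : E → E) = fun v => ∑ s ∈ S, π s v := funext (Dl_apply π S)
  rw [this]
  exact continuous_finset_sum _ fun s _ => (π s).continuous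

include hπ hS in
/-- The eigenvectors are complete. -/
theorem complete : (eSpan (Dl π S) Set.univ)ᗮ = ⊥ := by
  rw [Submodule.eq_bot_iff]
  intro v hv
  by_contra hv0
  obtain ⟨V, hfin, hinv, x, hx, hxv⟩ := exists_fd' π hπ v hv0
  apply hxv
  have hTV : ∀ y ∈ V, Dl π S y ∈ V := by
    intro y hy
    rw [Dl_apply]
    exact Submodule.sum_mem _ fun s _ => hinv s y hy
  have hsym := (Dl_symm π S hS).restrict_invariant hTV
  have htop := hsym.orthogonalComplement_iSup_eigenspaces_eq_bot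
  rw [Submodule.orthogonal_eq_bot_iff] at htop
  have hle : (⨆ c, Module.End.eigenspace ((Dl π S).restrict hTV) c).map V.subtype ≤
      eSpan (Dl π S) Set.univ := by
    rw [Submodule.map_iSup]
    refine iSup_le fun c => ?_
    rintro _ ⟨y, hy, rfl⟩
    refine mem_eSpan_of (Set.mem_univ c) ?_
    have h1 := Module.End.mem_eigenspace_iff.1 hy
    have h2 := congrArg (Subtype.val) h1
    exact h2
  rw [htop] at hle
  have hxm : x ∈ eSpan (Dl π S) Set.univ := hle ⟨⟨x, hx⟩, trivial, rfl⟩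
  exact (Submodule.mem_orthogonal _ _).1 hv x hxm

lemma out_le {k : ℕ} {η : ℝ} {σ : ℝ} (hσ : σ = 1 ∨ σ = -1) {c : ℂ} (hc : c ∉ Out k η) :
    σ * c.re ≤ k - η := by
  have h : c.im = 0 ∧ -(k : ℝ) + η ≤ c.re ∧ c.re ≤ (k : ℝ) - η := by
    by_contra h
    exact hc h
  rcases hσ with rfl | rfl
  · linarith [h.2.2]
  · linarith [h.2.1]

include hπ hS in
/-- the part of a vector which is orthogonal to the exceptional space is small, if the vector is
almost an eigenvector with eigenvalue `± |S|` -/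
theorem orth_part {η : ℝ} {σ : ℝ} (hσ : σ = 1 ∨ σ = -1)
    {w u : E} (hw : w ∈ eSpan (Dl π S) (Out S.card η)) (hu : u ∈ (eSpan (Dl π S) (Out S.card η))ᗮ) :
    η * ‖u‖ ^ 2 ≤ S.card * ‖w + u‖ ^ 2 - σ * (inner ℂ (Dl π S (w + u)) (w + u)).re := by
  have hT := Dl_symm π S hS
  have h1 : σ * (inner ℂ (Dl π S u) u).re ≤ (S.card - η) * ‖u‖ ^ 2 :=
    inner_le_of_orth hT (Dl_cont π S) (complete π hπ S hS) (fun c hc _ => out_le hσ hc) hu
  have h2 := inner_Dl_le π S σ hσ w
  have h3 : inner ℂ w u = 0 := (Submodule.mem_orthogonal _ _).1 hu w hw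
  have h3' : inner ℂ u w = 0 := by rw [← inner_conj_symm, h3, map_zero]
  have h4 : inner ℂ (Dl π S w) u = 0 := (Submodule.mem_orthogonal _ _).1 hu _ (eSpan_map hw)
  have h5 : inner ℂ (Dl π S u) w = 0 := by
    rw [hT u w, ← inner_conj_symm, h4, map_zero]
  have h6 : ‖w + u‖ ^ 2 = ‖w‖ ^ 2 + ‖u‖ ^ 2 := by
    have := norm_add_sq (𝕜 := ℂ) w u
    rw [h3] at this
    simpa using this
  have h7 : inner ℂ (Dl π S (w + u)) (w + u) = inner ℂ (Dl π S w) w + inner ℂ (Dl π S u) u := by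
    rw [map_add, inner_add_left, inner_add_right, inner_add_right, h4, h5]
    ring
  rw [h6, h7, Complex.add_re]
  linarith

include hπ in
/-- Vectors of a finite-dimensional space are moved uniformly little. -/
lemma fd_small (W : Submodule ℂ E) [FiniteDimensional ℂ W] {ε : ℝ} (hε : 0 < ε) :
    ∀ᶠ g in 𝓝 (1 : G), ∀ w ∈ W, ‖π g w - w‖ ≤ ε * ‖w‖ := by
  let b := stdOrthonormalBasis ℂ W
  have h1 : Filter.Tendsto (fun g => ∑ i, ‖π g (b i : E) - b i‖) (𝓝 (1 : G)) (𝓝 0) := by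
    have hc : Continuous (fun g => ∑ i, ‖π g (b i : E) - b i‖) :=
      continuous_finset_sum _ fun i _ => ((hπ _).sub continuous_const).norm
    have h := hc.tendsto 1
    simpa [map_one] using h
  filter_upwards [h1.eventually (gt_mem_nhds hε)] with g hg w hw
  have h2 : (w : E) = ∑ i, (inner ℂ (b i) (⟨w, hw⟩ : W)) • (b i : E) := by
    have h3 := b.sum_repr' ⟨w, hw⟩
    have h4 := congrArg Subtype.val h3
    simp only [Submodule.coe_sum, Submodule.coe_smul] at h4
    exact h4.symm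
  have h5 : ∀ i, ‖(inner ℂ (b i) (⟨w, hw⟩ : W))‖ ≤ ‖w‖ := by
    intro i
    have h6 := norm_inner_le_norm (𝕜 := ℂ) (b i) (⟨w, hw⟩ : W)
    rw [b.orthonormal.1 i, one_mul] at h6
    exact h6
  calc ‖π g w - w‖ = ‖∑ i, (inner ℂ (b i) (⟨w, hw⟩ : W)) • (π g (b i : E) - b i)‖ := by
        congr 1
        conv_lhs => rw [h2]
        rw [map_sum, ← Finset.sum_sub_distrib]
        refine Finset.sum_congr rfl fun i _ => ?_
        rw [map_smul, smul_sub]
    _ ≤ ∑ i, ‖w‖ * ‖π g (b i : E) - b i‖ := by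
        refine (norm_sum_le _ _).trans (Finset.sum_le_sum fun i _ => ?_)
        rw [norm_smul]
        exact mul_le_mul_of_nonneg_right (h5 i) (norm_nonneg _)
    _ = ‖w‖ * ∑ i, ‖π g (b i : E) - b i‖ := (Finset.mul_sum _ _ _).symm
    _ ≤ ε * ‖w‖ := by
        rw [mul_comm]
        exact mul_le_mul_of_nonneg_right hg.le (norm_nonneg _)

/-- The defect of a vector. -/
def dfc {Γ : Type*} [Group Γ] (π : Γ →* (E ≃ₗᵢ[ℂ] E)) (S : Finset Γ) (σ : ℝ) (v : E) : ℝ :=
  S.card * ‖v‖ ^ 2 - σ * (inner ℂ (Dl π S v) v).re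

lemma dfc_nonneg {Γ : Type*} [Group Γ] (π : Γ →* (E ≃ₗᵢ[ℂ] E)) (S : Finset Γ) {σ : ℝ}
    (hσ : σ = 1 ∨ σ = -1) (v : E) : 0 ≤ dfc π S σ v := by
  have := inner_Dl_le π S σ hσ v
  unfold dfc
  linarith

include hπ hS in
/-- Almost `± |S|`-eigenvectors are moved little by a neighbourhood of the identity, if the
exceptional space is finite-dimensional. -/
theorem near_of_finExc {η : ℝ} (hη : 0 < η) [FiniteDimensional ℂ (eSpan (Dl π S) (Out S.card η))]
    {ε : ℝ} (hε : 0 < ε) :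
    ∀ᶠ g in 𝓝 (1 : G), ∀ (v : E) (σ : ℝ), σ = 1 ∨ σ = -1 →
      ‖π g v - v‖ ^ 2 ≤ 8 / η * dfc π S σ v + 2 * ε ^ 2 * ‖v‖ ^ 2 := by
  filter_upwards [fd_small π hπ (eSpan (Dl π S) (Out S.card η)) hε] with g hg v σ hσ
  set W := eSpan (Dl π S) (Out S.card η) with hW
  obtain ⟨w, hw, u, hu, rfl⟩ := W.exists_add_mem_mem_orthogonal v
  have h1 := orth_part π hπ S hS (η := η) hσ hw hu
  have h2 : ‖π g (w + u) - (w + u)‖ ≤ ε * ‖w‖ + 2 * ‖u‖ := by
    have e : π g (w + u) - (w + u) = (π g w - w) + (π g u - u) := by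
      rw [map_add]; abel
    rw [e]
    refine (norm_add_le _ _).trans (add_le_add (hg w hw) ?_)
    refine (norm_sub_le _ _).trans ?_
    rw [LinearIsometryEquiv.norm_map]
    linarith
  have h3 : inner ℂ w u = 0 := (Submodule.mem_orthogonal _ _).1 hu w hw
  have h6 : ‖w + u‖ ^ 2 = ‖w‖ ^ 2 + ‖u‖ ^ 2 := by
    have := norm_add_sq (𝕜 := ℂ) w u
    rw [h3] at this
    simpa using this
  have h4 : ‖π g (w + u) - (w + u)‖ ^ 2 ≤ 2 * (ε ^ 2 * ‖w‖ ^ 2) + 8 * ‖u‖ ^ 2 := by
    have h5 : ‖π g (w + u) - (w + u)‖ ^ 2 ≤ (ε * ‖w‖ + 2 * ‖u‖) ^ 2 :=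
      pow_le_pow_left₀ (norm_nonneg _) h2 2
    nlinarith [sq_nonneg (ε * ‖w‖ - 2 * ‖u‖)]
  have h7 : 8 * ‖u‖ ^ 2 ≤ 8 / η * dfc π S σ (w + u) := by
    rw [div_mul_eq_mul_div, le_div_iff₀ hη]
    unfold dfc
    nlinarith
  have h8 : ε ^ 2 * ‖w‖ ^ 2 ≤ ε ^ 2 * ‖w + u‖ ^ 2 := by
    refine mul_le_mul_of_nonneg_left ?_ (by positivity)
    rw [h6]
    nlinarith [norm_nonneg u]
  linarith

/-- If the exceptional space is finite-dimensional, then so is every space of vectors with smaller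
defect. -/
theorem fd_of_dfc {η : ℝ} [FiniteDimensional ℂ (eSpan (Dl π S) (Out S.card η))]
    (hπ : ∀ v, Continuous fun g => π g v) (hS : ∀ s ∈ S, s⁻¹ ∈ S)
    {σ : ℝ} (hσ : σ = 1 ∨ σ = -1) (V : Submodule ℂ E) {η' : ℝ} (hη' : η' < η)
    (hV : ∀ v ∈ V, dfc π S σ v ≤ η' * ‖v‖ ^ 2) : FiniteDimensional ℂ V := by
  set W := eSpan (Dl π S) (Out S.card η) with hW
  let P : V →ₗ[ℂ] W := (W.orthogonalProjection : E →ₗ[ℂ] W).comp V.subtype
  have hinj : Function.Injective P := by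
    rw [← LinearMap.ker_eq_bot, LinearMap.ker_eq_bot']
    intro v hv
    have h1 : W.orthogonalProjection (v : E) = 0 := hv
    have h2 : (v : E) ∈ Wᗮ := (Submodule.orthogonalProjection_eq_zero_iff).1 h1
    have h3 := orth_part π hπ S hS (η := η) hσ (w := 0) (u := (v : E)) W.zero_mem h2
    rw [zero_add] at h3
    have h4 := hV v v.2
    unfold dfc at h4
    have h5 : (η - η') * ‖(v : E)‖ ^ 2 ≤ 0 := by nlinarith
    have h6 : ‖(v : E)‖ ^ 2 ≤ 0 := by
      by_contra hcon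
      push Not at hcon
      have : 0 < (η - η') * ‖(v : E)‖ ^ 2 := mul_pos (by linarith) hcon
      linarith
    have h7 : ‖(v : E)‖ = 0 := by
      have := sq_nonneg ‖(v : E)‖
      exact pow_eq_zero_iff two_ne_zero |>.1 (le_antisymm h6 this)
    exact Subtype.ext (norm_eq_zero.1 h7)
  exact FiniteDimensional.of_injective P hinj

/-- To bound the exceptional space it is enough to bound the spaces of vectors with small
defect. -/
theorem finExc_of {Γ : Type*} [Group Γ] (π : Γ →* (E ≃ₗᵢ[ℂ] E)) (S : Finset Γ)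
    (hS : ∀ s ∈ S, s⁻¹ ∈ S) {ε : ℝ}
    (h : ∀ σ : ℝ, σ = 1 ∨ σ = -1 → ∀ V : Submodule ℂ E, (∀ v ∈ V, dfc π S σ v ≤ ε * ‖v‖ ^ 2) →
      FiniteDimensional ℂ V) : FiniteDimensional ℂ (eSpan (Dl π S) (Out S.card ε)) := by
  have hT := Dl_symm π S hS
  have key : ∀ σ : ℝ, σ = 1 ∨ σ = -1 →
      FiniteDimensional ℂ (eSpan (Dl π S) {c : ℂ | (S.card : ℝ) - ε < σ * c.re}) := by
    intro σ hσ
    refine h σ hσ _ fun v hv => ?_
    have h1 : (-σ) * (inner ℂ (Dl π S v) v).re ≤ (-(S.card - ε)) * ‖v‖ ^ 2 := by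
      refine eSpan_inner_le hT (fun c hc _ => ?_) hv
      have : (S.card : ℝ) - ε < σ * c.re := hc
      linarith
    unfold dfc
    linarith
  have hle : eSpan (Dl π S) (Out S.card ε) ≤
      eSpan (Dl π S) {c : ℂ | (S.card : ℝ) - ε < 1 * c.re} ⊔
      eSpan (Dl π S) {c : ℂ | (S.card : ℝ) - ε < (-1) * c.re} := by
    intro v hv
    obtain ⟨s, f, hs, hf, rfl⟩ := eSpan_induction hv
    refine Submodule.sum_mem _ fun c hc => ?_
    by_cases h0 : f c = 0
    · rw [h0]; exact Submodule.zero_mem _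
    · have him := eigen_real hT h0 (hf c)
      have h1 := hs c hc
      by_cases h2 : (S.card : ℝ) - ε < c.re
      · refine Submodule.mem_sup_left (mem_eSpan_of ?_ (hf c))
        show (S.card : ℝ) - ε < 1 * c.re
        linarith
      · refine Submodule.mem_sup_right (mem_eSpan_of ?_ (hf c))
        show (S.card : ℝ) - ε < (-1) * c.re
        by_contra h3
        exact h1 ⟨him, by linarith, by linarith⟩
  haveI := key 1 (Or.inl rfl)
  haveI := key (-1) (Or.inr rfl)
  exact Submodule.finiteDimensional_of_le hle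

end rep

end

end Run7.h421
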