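import Pool.Agent.Run7.h421.WordL

/-!
# The uniform gap does not depend on the number of elements, and is a local question
-/

set_option autoImplicit false
set_option linter.unusedSectionVars false

namespace Run7.h421

open MeasureTheory Set Filter Topology

noncomputable section

/-- The span in `L²(G)` of the eigenfunctions of `f ↦ ∑ s ∈ S, f (s ·)` with eigenvalue greater
than `|S| - ε`. -/
def topSpace {G : Type*} [Group G] [MeasurableSpace G] (μ : Measure G) (S : Finset G) (ε : ℝ) :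
    Submodule ℂ (Lp ℂ 2 μ) :=
  Submodule.span ℂ {f | ∃ c : ℝ, (S.card : ℝ) - ε < c ∧ ∀ᵐ x ∂μ, (∑ s ∈ S, f (s * x)) = c * f x}

section top

variable {G : Type*} [TopologicalSpace G] [Group G] [IsTopologicalGroup G]
  [MeasurableSpace G] [BorelSpace G] (μ : Measure G) [μ.IsHaarMeasure]

lemma lreg_eig (S : Finset G) (hS : ∀ s ∈ S, s⁻¹ ∈ S) (f : Lp ℂ 2 μ) (c : ℂ) :
    (∀ᵐ x ∂μ, (∑ s ∈ S, f (s * x)) = c * f x) ↔ Dl (lreg μ) S f = c • f := by
  have h1 := Dl_coe μ S hS f
  have h2 := Lp.coeFn_smul c f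
  constructor
  · intro h
    apply Lp.ext
    filter_upwards [h1, h2, h] with x h1 h2 h
    rw [h1, h2, h]
    rfl
  · intro h
    rw [h] at h1
    filter_upwards [h1, h2] with x h1 h2
    rw [← h1, h2]
    rfl

lemma topSpace_eq (S : Finset G) (hS : ∀ s ∈ S, s⁻¹ ∈ S) (ε : ℝ) :
    topSpace μ S ε = eSpan (Dl (lreg μ) S) {c : ℂ | (S.card : ℝ) - ε < c.re} := by
  apply le_antisymm
  · refine Submodule.span_le.2 ?_
    rintro f ⟨c, hc, hf⟩
    refine mem_eSpan_of (c := (c : ℂ)) ?_ ((lreg_eig μ S hS f c).1 hf)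
    simpa using hc
  · unfold eSpan
    refine iSup₂_le fun c hc => ?_
    intro f hf
    by_cases h0 : f = 0
    · rw [h0]; exact Submodule.zero_mem _
    have him := eigen_real (Dl_symm (lreg μ) S hS) h0 (Module.End.mem_eigenspace_iff.1 hf)
    refine Submodule.subset_span ⟨c.re, hc, ?_⟩
    have hcc : ((c.re : ℝ) : ℂ) = c := by
      apply Complex.ext
      · simp
      · simp [him]
    rw [hcc]
    exact (lreg_eig μ S hS f c).2 (Module.End.mem_eigenspace_iff.1 hf)

end top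

section rep

variable {G : Type*} [TopologicalSpace G] [Group G] [IsTopologicalGroup G] [CompactSpace G]
variable {E : Type*} [NormedAddCommGroup E] [InnerProductSpace ℂ E] [CompleteSpace E]
  (π : G →* (E ≃ₗᵢ[ℂ] E)) (S : Finset G)

/-- If the top space is finite-dimensional, then so is every space of vectors with smaller
defect. -/
theorem fd_of_top {η : ℝ} [FiniteDimensional ℂ (eSpan (Dl π S) {c : ℂ | (S.card : ℝ) - η < c.re})]
    (hπ : ∀ v, Continuous fun g => π g v) (hS : ∀ s ∈ S, s⁻¹ ∈ S)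
    (V : Submodule ℂ E) {η' : ℝ} (hη' : η' < η)
    (hV : ∀ v ∈ V, dfc π S 1 v ≤ η' * ‖v‖ ^ 2) : FiniteDimensional ℂ V := by
  set W := eSpan (Dl π S) {c : ℂ | (S.card : ℝ) - η < c.re} with hW
  let P : V →ₗ[ℂ] W := (W.orthogonalProjectionOnto : E →ₗ[ℂ] W).comp V.subtype
  have hinj : Function.Injective P := by
    rw [← LinearMap.ker_eq_bot, LinearMap.ker_eq_bot']
    intro v hv
    have h1 : W.orthogonalProjectionOnto (v : E) = 0 := hv
    have h2 : (v : E) ∈ Wᗮ := (Submodule.orthogonalProjectionOnto_eq_zero_iff).1 h1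
    have h3 : (1 : ℝ) * (inner ℂ (Dl π S (v : E)) (v : E)).re ≤ (S.card - η) * ‖(v : E)‖ ^ 2 := by
      refine inner_le_of_orth (Dl_symm π S hS) (Dl_cont π S) (complete π hπ S hS)
        (fun c hc _ => ?_) h2
      have : ¬ ((S.card : ℝ) - η < c.re) := hc
      linarith
    have h4 := hV v v.2
    unfold dfc at h4
    have h5 : (η - η') * ‖(v : E)‖ ^ 2 ≤ 0 := by nlinarith
    have h6 : ‖(v : E)‖ ^ 2 ≤ 0 := by
      by_contra hcon
      push Not at hcon
      have : 0 < (η - η') * ‖(v : E)‖ ^ 2 := mul_pos (by linarith) hcon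
      linarith
    have h7 : ‖(v : E)‖ = 0 := by
      have := sq_nonneg ‖(v : E)‖
      exact pow_eq_zero_iff two_ne_zero |>.1 (le_antisymm h6 this)
    exact Subtype.ext (norm_eq_zero.1 h7)
  exact FiniteDimensional.of_injective P hinj

/-- words -/
lemma wd_near {ε : ℝ} (hε : 0 ≤ ε) {v : E} (hv : dfc π S 1 v ≤ ε * ‖v‖ ^ 2) {N : ℕ} {w : G}
    (hw : Wd (S : Set G) N w) : ‖π w v - v‖ ≤ N * (Real.sqrt (2 * ε) * ‖v‖) := by
  obtain ⟨l, hl1, hl2, rfl⟩ := hw
  have h := word_near π S (Or.inl rfl) hε hv l hl2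
  simp only [one_pow, Complex.ofReal_one, one_smul] at h
  refine h.trans ?_
  refine mul_le_mul_of_nonneg_right ?_ (by positivity)
  exact_mod_cast hl1

lemma ev_near {σ : ℝ} (hσ : σ = 1 ∨ σ = -1) {ε : ℝ} (hε : 0 ≤ ε) {v : E}
    (hv : dfc π S σ v ≤ ε * ‖v‖ ^ 2) {N : ℕ} {w : G}
    (hw : Ev (S : Set G) N w) : ‖π w v - v‖ ≤ N * (Real.sqrt (2 * ε) * ‖v‖) := by
  obtain ⟨l, hl1, hl2, hl3, rfl⟩ := hw
  have h := word_near π S hσ hε hv l hl3
  have h1 : σ ^ l.length = 1 := by
    rcases hσ with rfl | rfl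
    · simp
    · exact hl2.neg_one_pow
  rw [h1] at h
  simp only [Complex.ofReal_one, one_smul] at h
  refine h.trans ?_
  refine mul_le_mul_of_nonneg_right ?_ (by positivity)
  exact_mod_cast hl1

lemma inv_near (w : G) (v : E) : ‖π w⁻¹ v - v‖ = ‖π w v - v‖ := by
  have h : π w⁻¹ v - v = - π w⁻¹ (π w v - v) := by
    rw [map_sub, pi_inv']
    abel
  rw [h, norm_neg, LinearIsometryEquiv.norm_map]

end rep

section combi

/-- growth of balls -/
lemma ball_card {G : Type*} [Group G] (T : Finset G)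
    (hinf : ((Subgroup.closure (T : Set G) : Subgroup G) : Set G).Infinite)
    (hT : ∀ s ∈ T, s⁻¹ ∈ T) (n : ℕ) :
    {g | Wd (T : Set G) n g}.Finite ∧ n + 1 ≤ {g | Wd (T : Set G) n g}.ncard := by
  have hfin : ∀ n, {g | Wd (T : Set G) n g}.Finite := by
    intro n
    have h1 := (List.finite_length_le T n).image (fun l : List T => (l.map Subtype.val).prod)
    refine h1.subset ?_
    rintro g ⟨l, hl1, hl2, rfl⟩
    refine ⟨l.attach.map (fun x => (⟨x.1, hl2 x.1 x.2⟩ : T)), ?_, ?_⟩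
    · simpa using hl1
    · simp [List.map_map, Function.comp_def]
  refine ⟨hfin n, ?_⟩
  induction n with
  | zero =>
    rw [zero_add, Nat.one_le_iff_ne_zero]
    intro h
    have := (ncard_eq_zero (hfin 0)).1 h
    have h1 : (1 : G) ∈ {g | Wd (T : Set G) 0 g} := Wd.one _ 0
    rw [this] at h1
    exact h1
  | succ n ih =>
    have hsub : {g | Wd (T : Set G) n g} ⊆ {g | Wd (T : Set G) (n + 1) g} :=
      fun g hg => Wd.mono (Nat.le_succ n) hg
    have hne : {g | Wd (T : Set G) n g} ≠ {g | Wd (T : Set G) (n + 1) g} := by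
      intro he
      apply hinf
      refine (hfin n).subset ?_
      intro g hg
      have hstep : ∀ t ∈ T, ∀ g, Wd (T : Set G) n g → Wd (T : Set G) n (t * g) := by
        intro t ht g hg
        have h1 : t * g ∈ {g | Wd (T : Set G) (n + 1) g} := by
          rw [mem_setOf_eq, add_comm]
          exact (Wd.of_mem (by exact_mod_cast ht)).mul hg
        rw [← he] at h1
        exact h1
      induction hg using Subgroup.closure_induction_left with
      | one => exact Wd.one _ n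
      | mul_left t ht g _ ih => exact hstep t (by exact_mod_cast ht) g ih
      | inv_mul_cancel t ht g _ ih => exact hstep _ (hT t (by exact_mod_cast ht)) g ih
    have h1 := ncard_lt_ncard (hsub.ssubset_of_ne hne) (hfin (n + 1))
    omega

/-- Enlarging a symmetric set by short words to a symmetric set with a given number of
elements. -/
lemma exists_enlarge {G : Type*} [Group G] (T : Finset G)
    (hinf : ((Subgroup.closure (T : Set G) : Subgroup G) : Set G).Infinite)
    (hT : ∀ s ∈ T, s⁻¹ ∈ T) (h1T : (1 : G) ∉ T) {k : ℕ} (hk : T.card ≤ k) :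
    ∃ S : Finset G, T ⊆ S ∧ (∀ s ∈ S, s⁻¹ ∈ S) ∧ S.card = k ∧
      ∀ s ∈ S, Wd (T : Set G) (2 * k + 1) s := by
  classical
  obtain ⟨hBf, hBc⟩ := ball_card T hinf hT (2 * k + 1)
  set B : Finset G := hBf.toFinset.erase 1 with hB
  have hBmem : ∀ g, g ∈ B ↔ g ≠ 1 ∧ Wd (T : Set G) (2 * k + 1) g := by
    intro g
    rw [hB, Finset.mem_erase, Set.Finite.mem_toFinset]
    rfl
  have hBcard : 2 * k + 1 ≤ B.card := by
    have h2 := Finset.card_erase_add_one (s := hBf.toFinset) (a := 1)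
      ((Set.Finite.mem_toFinset _).2 (Wd.one _ _))
    rw [← Set.ncard_eq_toFinset_card _ hBf, ← hB] at h2
    omega
  have hTB : T ⊆ B := by
    intro t ht
    rw [hBmem]
    refine ⟨fun h => h1T (h ▸ ht), ?_⟩
    exact (Wd.of_mem (by exact_mod_cast ht)).mono (by omega)
  let F : Finset (Finset G) := B.powerset.filter
    (fun S => T ⊆ S ∧ (∀ s ∈ S, s⁻¹ ∈ S) ∧ S.card ≤ k)
  have hFmem : ∀ S, S ∈ F ↔ S ⊆ B ∧ (T ⊆ S ∧ (∀ s ∈ S, s⁻¹ ∈ S) ∧ S.card ≤ k) := by
    intro S
    simp only [F, Finset.mem_filter, Finset.mem_powerset]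
  obtain ⟨S₁, hS₁, hmax⟩ := Finset.exists_max_image F Finset.card
    ⟨T, (hFmem T).2 ⟨hTB, Finset.Subset.refl T, hT, hk⟩⟩
  obtain ⟨hS₁B, hTS₁, hsym, hcard⟩ := (hFmem S₁).1 hS₁
  have hbig : k ≤ S₁.card + 1 := by
    by_contra hlt
    push Not at hlt
    obtain ⟨g, hgB, hgS⟩ : ∃ g ∈ B, g ∉ S₁ := by
      by_contra hcon
      push Not at hcon
      have := Finset.card_le_card (show B ⊆ S₁ from hcon)
      omega
    have hgi : g⁻¹ ∈ B := by
      rw [hBmem] at hgB ⊢
      exact ⟨fun h => hgB.1 (inv_eq_one.1 h), hgB.2.inv (by exact_mod_cast hT)⟩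
    set S₂ := insert g (insert g⁻¹ S₁) with hS₂
    have h2 : S₂ ∈ F := by
      rw [hFmem]
      refine ⟨?_, ?_, ?_, ?_⟩
      · intro x hx
        rw [hS₂, Finset.mem_insert, Finset.mem_insert] at hx
        rcases hx with rfl | rfl | hx
        · exact hgB
        · exact hgi
        · exact hS₁B hx
      · exact hTS₁.trans ((Finset.subset_insert _ _).trans (Finset.subset_insert _ _))
      · intro x hx
        rw [hS₂, Finset.mem_insert, Finset.mem_insert] at hx ⊢
        rcases hx with rfl | rfl | hx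
        · right; left; rfl
        · left; exact inv_inv g
        · right; right; exact hsym x hx
      · have h3 := Finset.card_insert_le g (insert g⁻¹ S₁)
        have h4 := Finset.card_insert_le g⁻¹ S₁
        rw [← hS₂] at h3
        omega
    have h3 := hmax S₂ h2
    have h4 : S₁.card < S₂.card := by
      refine Finset.card_lt_card ⟨(Finset.subset_insert _ _).trans (Finset.subset_insert _ _), ?_⟩
      intro h
      exact hgS (h (Finset.mem_insert_self _ _))
    omega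
  rcases Nat.lt_or_ge S₁.card k with hlt | hge
  · refine ⟨insert 1 S₁, hTS₁.trans (Finset.subset_insert _ _), ?_, ?_, ?_⟩
    · intro s hs
      rw [Finset.mem_insert] at hs ⊢
      rcases hs with rfl | hs
      · left; exact inv_one
      · right; exact hsym s hs
    · have h1S : (1 : G) ∉ S₁ := fun h => ((hBmem 1).1 (hS₁B h)).1 rfl
      rw [Finset.card_insert_of_notMem h1S]
      omega
    · intro s hs
      rw [Finset.mem_insert] at hs
      rcases hs with rfl | hs
      · exact Wd.one _ _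
      · exact ((hBmem s).1 (hS₁B hs)).2
  · refine ⟨S₁, hTS₁, hsym, le_antisymm hcard hge, fun s hs => ((hBmem s).1 (hS₁B hs)).2⟩

open Classical in
/-- the symmetric set `{u, v, u⁻¹, v⁻¹}` -/
def sym4 {G : Type*} [Group G] (u v : G) : Finset G := {u, v, u⁻¹, v⁻¹}

lemma mem_sym4 {G : Type*} [Group G] {u v x : G} :
    x ∈ sym4 u v ↔ x = u ∨ x = v ∨ x = u⁻¹ ∨ x = v⁻¹ := by
  classical
  simp [sym4]

lemma sym4_symm {G : Type*} [Group G] (u v : G) : ∀ s ∈ sym4 u v, s⁻¹ ∈ sym4 u v := by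
  intro s hs
  rw [mem_sym4] at hs ⊢
  rcases hs with rfl | rfl | rfl | rfl <;> simp

lemma card_sym4 {G : Type*} [Group G] {u v : G} (h1 : u ≠ u⁻¹) (h2 : v ≠ v⁻¹) (h3 : u ≠ v)
    (h4 : u ≠ v⁻¹) : (sym4 u v).card = 4 := by
  classical
  have h5 : v ≠ u⁻¹ := fun h => h4 (by rw [h, inv_inv])
  have h6 : u⁻¹ ≠ v⁻¹ := fun h => h3 (inv_injective h)
  unfold sym4
  rw [Finset.card_insert_of_notMem, Finset.card_insert_of_notMem, Finset.card_insert_of_notMem,
    Finset.card_singleton]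
  · simp [h6]
  · simp [h5, h2]
  · simp [h3, h1, h4]

lemma card_sym4_le {G : Type*} [Group G] (u v : G) : (sym4 u v).card ≤ 4 := by
  classical
  exact Finset.card_le_four

lemma closure_sym4 {G : Type*} [Group G] (u v : G) :
    Subgroup.closure ((sym4 u v : Finset G) : Set G) = Subgroup.closure {u, v} := by
  apply le_antisymm
  · rw [Subgroup.closure_le]
    intro x hx
    have hu : u ∈ Subgroup.closure ({u, v} : Set G) := Subgroup.subset_closure (by simp)
    have hv : v ∈ Subgroup.closure ({u, v} : Set G) := Subgroup.subset_closure (by simp)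
    rw [Finset.mem_coe, mem_sym4] at hx
    rcases hx with rfl | rfl | rfl | rfl
    · exact hu
    · exact hv
    · exact Subgroup.inv_mem _ hu
    · exact Subgroup.inv_mem _ hv
  · refine Subgroup.closure_mono ?_
    rintro x (rfl | rfl)
    · exact Finset.mem_coe.2 (mem_sym4.2 (Or.inl rfl))
    · exact Finset.mem_coe.2 (mem_sym4.2 (Or.inr (Or.inl rfl)))

end combi

section main

variable {G : Type} [TopologicalSpace G] [T2Space G] [Group G] [IsTopologicalGroup G]
    [CompactSpace G] [ConnectedSpace G] [MeasurableSpace G] [BorelSpace G] (μ : Measure G)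
    [μ.IsHaarMeasure]

/-- From pairs near the identity to all sets. -/
theorem from_pairs (hG : Simp G) {U : Set G} (hU : U ∈ 𝓝 (1 : G)) {δ : ℝ} (hδ : 0 < δ)
    (hyp : ∀ u v : G, u ∈ U → v ∈ U → u ≠ u⁻¹ → v ≠ v⁻¹ → u ≠ v → u ≠ v⁻¹ →
      Dense ((Subgroup.closure {u, v} : Subgroup G) : Set G) →
      ∀ V : Submodule ℂ (Lp ℂ 2 μ), (∀ f ∈ V, dfc (lreg μ) (sym4 u v) 1 f ≤ δ * ‖f‖ ^ 2) →
        FiniteDimensional ℂ V) :
    ∃ ε : ℝ, 0 < ε ∧ ∀ S : Finset G, (∀ s ∈ S, s⁻¹ ∈ S) →
      Dense ((Subgroup.closure (S : Set G) : Subgroup G) : Set G) →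
      FiniteDimensional ℂ (excSpace μ S ε) := by
  obtain ⟨r, ρ, hρ⟩ := exists_rep G hG
  obtain ⟨N, hN⟩ := lemmaW hρ hG hU
  set ε : ℝ := δ / (4 * ((N : ℝ) + 1) ^ 2) with hε
  have hε0 : 0 < ε := by positivity
  refine ⟨ε, hε0, fun S hS hd => ?_⟩
  obtain ⟨u, v, huU, hvU, hu, hv, hdense, h1, h2, h3, h4⟩ :=
    hN (S : Set G) (by exact_mod_cast hS) hd
  rw [excSpace_eq μ S hS]
  refine finExc_of (lreg μ) S hS fun σ hσ V hV => ?_
  refine hyp u v huU hvU h1 h2 h3 h4 hdense V fun f hf => ?_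
  have hdf := hV f hf
  have hun := ev_near (lreg μ) S hσ hε0.le hdf hu
  have hvn := ev_near (lreg μ) S hσ hε0.le hdf hv
  have hT : ∀ s ∈ sym4 u v, ‖lreg μ s f - ((1 : ℝ) : ℂ) • f‖ ^ 2 ≤
      (N * (Real.sqrt (2 * ε) * ‖f‖)) ^ 2 := by
    intro s hs
    rw [Complex.ofReal_one, one_smul]
    refine pow_le_pow_left₀ (norm_nonneg _) ?_ 2
    rw [mem_sym4] at hs
    rcases hs with rfl | rfl | rfl | rfl
    · exact hun
    · exact hvn
    · rw [inv_near]; exact hun
    · rw [inv_near]; exact hvn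
  rw [dfc_eq (lreg μ) _ (Or.inl rfl)]
  have h5 := Finset.sum_le_card_nsmul _ _ _ hT
  rw [nsmul_eq_mul] at h5
  have h6 : ((sym4 u v).card : ℝ) ≤ 4 := by exact_mod_cast card_sym4_le u v
  have h7 : (N * (Real.sqrt (2 * ε) * ‖f‖)) ^ 2 = N ^ 2 * (2 * ε) * ‖f‖ ^ 2 := by
    rw [mul_pow, mul_pow, Real.sq_sqrt (by positivity)]
    ring
  rw [h7] at h5
  have h8 : ((sym4 u v).card : ℝ) * (N ^ 2 * (2 * ε) * ‖f‖ ^ 2) ≤
      4 * (N ^ 2 * (2 * ε) * ‖f‖ ^ 2) := mul_le_mul_of_nonneg_right h6 (by positivity)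
  have h9 : 4 * ((N : ℝ) ^ 2 * ε) ≤ δ := by
    have : 4 * ((N : ℝ) ^ 2 * ε) ≤ 4 * (((N : ℝ) + 1) ^ 2 * ε) := by
      gcongr
      linarith
    refine this.trans (le_of_eq ?_)
    rw [hε]
    field_simp
  have h10 : 4 * ((N : ℝ) ^ 2 * ε) * ‖f‖ ^ 2 ≤ δ * ‖f‖ ^ 2 :=
    mul_le_mul_of_nonneg_right h9 (by positivity)
  linarith

/-- The exceptional space contains the top space. -/
lemma top_le_exc (S : Finset G) (ε : ℝ) : topSpace μ S ε ≤ excSpace μ S ε := by
  refine Submodule.span_mono ?_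
  rintro f ⟨c, hc, hf⟩
  refine ⟨(c : ℂ), ?_, hf⟩
  rintro ⟨-, -, h⟩
  rw [Complex.ofReal_re] at h
  linarith

theorem thmL (hG : Simp G) :
    ((∃ k : ℕ, 4 ≤ k ∧ ∃ ε : ℝ, 0 < ε ∧ ∀ S : Finset G, S.card = k → (∀ s ∈ S, s⁻¹ ∈ S) →
      Dense ((Subgroup.closure (S : Set G) : Subgroup G) : Set G) →
      FiniteDimensional ℂ (topSpace μ S ε)) →
    (∃ ε : ℝ, 0 < ε ∧ ∀ S : Finset G, (∀ s ∈ S, s⁻¹ ∈ S) →
      Dense ((Subgroup.closure (S : Set G) : Subgroup G) : Set G) →
      FiniteDimensional ℂ (excSpace μ S ε))) ∧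
    ((∃ U ∈ 𝓝 (1 : G), ∃ ε : ℝ, 0 < ε ∧ ∀ S : Finset G, (S : Set G) ⊆ U → S.card = 4 →
      (∀ s ∈ S, s⁻¹ ∈ S) → Dense ((Subgroup.closure (S : Set G) : Subgroup G) : Set G) →
      FiniteDimensional ℂ (topSpace μ S ε)) →
    (∃ ε : ℝ, 0 < ε ∧ ∀ S : Finset G, (∀ s ∈ S, s⁻¹ ∈ S) →
      Dense ((Subgroup.closure (S : Set G) : Subgroup G) : Set G) →
      FiniteDimensional ℂ (excSpace μ S ε))) := by
  constructor
  · rintro ⟨k, hk, ε, hε, hyp⟩
    set δ : ℝ := ε / (4 * (k : ℝ) * (2 * (k : ℝ) + 1) ^ 2) with hδ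
    have hk0 : (0 : ℝ) < k := by
      have : 0 < k := by omega
      exact_mod_cast this
    have hδ0 : 0 < δ := by positivity
    refine from_pairs μ hG Filter.univ_mem hδ0 ?_
    intro u v _ _ h1 h2 h3 h4 hd V hV
    set T := sym4 u v with hT
    have hTd : Dense ((Subgroup.closure (T : Set G) : Subgroup G) : Set G) := by
      rw [hT, closure_sym4]; exact hd
    have hinf : ((Subgroup.closure (T : Set G) : Subgroup G) : Set G).Infinite := by
      intro hfin
      have h5 := hfin.isClosed.closure_eq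
      rw [hTd.closure_eq] at h5
      haveI : Finite G := by
        rw [← h5] at hfin
        exact finite_univ_iff.1 hfin
      obtain ⟨a, b, hab⟩ := hG.nonab
      have h6 : (id : G → G) a = id b := PreconnectedSpace.constant inferInstance continuous_id
      exact hab (by rw [show a = b from h6])
    have h1T : (1 : G) ∉ T := by
      intro h
      rw [hT, mem_sym4] at h
      rcases h with h | h | h | h
      · exact h1 (by rw [← h, inv_one])
      · exact h2 (by rw [← h, inv_one])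
      · exact h1 (by rw [inv_eq_one.1 h.symm, inv_one])
      · exact h2 (by rw [inv_eq_one.1 h.symm, inv_one])
    obtain ⟨S, hTS, hSsym, hScard, hSw⟩ := exists_enlarge T hinf (sym4_symm u v) h1T
      (k := k) ((card_sym4_le u v).trans hk)
    have hSd : Dense ((Subgroup.closure (S : Set G) : Subgroup G) : Set G) := by
      refine hTd.mono ?_
      exact Subgroup.closure_mono (by exact_mod_cast hTS)
    have hfd := hyp S hScard hSsym hSd
    rw [topSpace_eq μ S hSsym] at hfd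
    refine fd_of_top (lreg μ) S (lreg_cont μ) hSsym V (η := ε) (η' := ε / 2) (by linarith) ?_
    intro f hf
    have hdf := hV f hf
    rw [dfc_eq (lreg μ) _ (Or.inl rfl)]
    have h5 : ∀ s ∈ S, ‖lreg μ s f - ((1 : ℝ) : ℂ) • f‖ ^ 2 ≤
        (2 * (k : ℝ) + 1) ^ 2 * (2 * δ) * ‖f‖ ^ 2 := by
      intro s hs
      rw [Complex.ofReal_one, one_smul]
      have h6 := wd_near (lreg μ) T hδ0.le hdf (hSw s hs)
      have h7 := pow_le_pow_left₀ (norm_nonneg _) h6 2
      rw [mul_pow, mul_pow, Real.sq_sqrt (by positivity)] at h7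
      push_cast at h7
      linarith
    have h6 := Finset.sum_le_card_nsmul _ _ _ h5
    rw [nsmul_eq_mul, hScard] at h6
    have h7 : (k : ℝ) * ((2 * (k : ℝ) + 1) ^ 2 * (2 * δ) * ‖f‖ ^ 2) = ε / 2 * ‖f‖ ^ 2 := by
      rw [hδ]
      field_simp
      ring
    rw [h7] at h6
    have h8 : 0 ≤ ε * ‖f‖ ^ 2 := by positivity
    linarith
  · rintro ⟨U, hU, ε, hε, hyp⟩
    have hU' : U ∩ (fun x => x⁻¹) ⁻¹' U ∈ 𝓝 (1 : G) := by
      refine Filter.inter_mem hU ?_
      refine (continuous_inv (G := G)).continuousAt.preimage_mem_nhds ?_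
      simpa using hU
    refine from_pairs μ hG hU' (δ := ε / 2) (by positivity) ?_
    intro u v hu hv h1 h2 h3 h4 hd V hV
    have hfd := hyp (sym4 u v) ?_ (card_sym4 h1 h2 h3 h4) (sym4_symm u v) ?_
    · rw [topSpace_eq μ _ (sym4_symm u v)] at hfd
      exact fd_of_top (lreg μ) _ (lreg_cont μ) (sym4_symm u v) V (η := ε) (η' := ε / 2)
        (by linarith) hV
    · intro x hx
      rw [Finset.mem_coe, mem_sym4] at hx
      rcases hx with rfl | rfl | rfl | rfl
      · exact hu.1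
      · exact hv.1
      · exact hu.2
      · exact hv.2
    · rw [closure_sym4]; exact hd

end main

end

end Run7.h421
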