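import Pool.Agent.Run7.h421.AdA
import Pool.Agent.Run7.h421.Esc

/-!
# Short words which are close to the identity and generate a dense subgroup
-/

set_option autoImplicit false
set_option linter.unusedSectionVars false

namespace Run7.h421

open Set Filter Topology Matrix
open scoped Matrix.Norms.L2Operator
open Pool.Agent.E8helper46.FL

noncomputable section

/-- Dirichlet's principle in compact groups. -/
lemma exists_pow_mem {G : Type*} [TopologicalSpace G] [Group G] [IsTopologicalGroup G]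
    [CompactSpace G] {U : Set G} (hU : U ∈ 𝓝 (1 : G)) :
    ∃ M : ℕ, ∀ g : G, ∃ m : ℕ, 1 ≤ m ∧ m ≤ M ∧ g ^ m ∈ U := by
  have h1 : (fun p : G × G => p.1⁻¹ * p.2) ⁻¹' U ∈ 𝓝 ((1 : G), (1 : G)) := by
    have hc : Continuous (fun p : G × G => p.1⁻¹ * p.2) := by fun_prop
    refine hc.continuousAt.preimage_mem_nhds ?_
    simpa using hU
  rw [nhds_prod_eq, Filter.mem_prod_self_iff] at h1
  obtain ⟨V, hV, hVU⟩ := h1
  obtain ⟨t, -, ht⟩ := isCompact_univ.elim_nhds_subcover (fun x : G => (fun y => x * y) '' V)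
    (fun x _ => by
      have : (fun y => x * y) '' V = (fun y => x⁻¹ * y) ⁻¹' V := by
        rw [← Set.image_eq_preimage_of_inverse]
        · intro y; simp
        · intro y; simp
      rw [this]
      refine (continuous_const_mul x⁻¹).continuousAt.preimage_mem_nhds ?_
      simpa using hV)
  refine ⟨t.card, fun g => ?_⟩
  have h2 : ∀ n : ℕ, ∃ x ∈ t, ∃ v ∈ V, g ^ n = x * v := by
    intro n
    have := ht (mem_univ (g ^ n))
    rw [mem_iUnion₂] at this
    obtain ⟨x, hx, v, hv, h3⟩ := this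
    exact ⟨x, hx, v, hv, h3.symm⟩
  choose x hx v hv hxv using h2
  obtain ⟨i, hi, j, hj, hij, he⟩ := Finset.exists_ne_map_eq_of_card_lt_of_maps_to
    (s := Finset.range (t.card + 1)) (t := t) (by simp) (f := x) (fun n _ => hx n)
  have key : ∀ i j : ℕ, i < j → j < t.card + 1 → x i = x j →
      ∃ m : ℕ, 1 ≤ m ∧ m ≤ t.card ∧ g ^ m ∈ U := by
    intro i j hlt hj he
    refine ⟨j - i, by omega, by omega, ?_⟩
    have h3 : g ^ (j - i) = (v i)⁻¹ * v j := by
      have h4 : g ^ i * g ^ (j - i) = g ^ j := by rw [← pow_add]; congr 1; omega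
      rw [hxv i, hxv j, ← he, mul_assoc] at h4
      have h5 := mul_left_cancel h4
      rw [← h5]; group
    rw [h3]
    exact hVU (show (v i, v j) ∈ V ×ˢ V from ⟨hv i, hv j⟩)
  rcases lt_or_gt_of_ne hij with h | h
  · exact key i j h (Finset.mem_range.1 hj) he
  · exact key j i h (Finset.mem_range.1 hi) he.symm

section cont

variable {Ω : Type*} [TopologicalSpace Ω] {𝓔 : Type*} [Ring 𝓔] [Algebra ℝ 𝓔]

/-- weak continuity -/
def ECont (T : Ω → 𝓔) : Prop := ∀ φ : 𝓔 →ₗ[ℝ] ℝ, Continuous (fun ω => φ (T ω))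

lemma ECont.one : ECont (fun _ : Ω => (1 : 𝓔)) := fun _ => continuous_const

variable [FiniteDimensional ℝ 𝓔]

lemma ECont.mul {T T' : Ω → 𝓔} (hT : ECont T) (hT' : ECont T') :
    ECont (fun ω => T ω * T' ω) := by
  intro φ
  let b := Module.finBasis ℝ 𝓔
  have h1 : (fun ω => φ (T ω * T' ω)) = fun ω => ∑ i, ∑ j,
      (b.coord i (T ω) * b.coord j (T' ω)) * φ (b i * b j) := by
    ext ω
    conv_lhs => rw [← b.sum_repr (T ω), ← b.sum_repr (T' ω)]
    rw [Finset.sum_mul, map_sum]
    refine Finset.sum_congr rfl fun i _ => ?_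
    rw [Finset.mul_sum, map_sum]
    refine Finset.sum_congr rfl fun j _ => ?_
    rw [smul_mul_smul_comm, map_smul, smul_eq_mul]
    rfl
  rw [h1]
  refine continuous_finsetSum _ fun i _ => continuous_finsetSum _ fun j _ => ?_
  exact ((hT (b.coord i)).mul (hT' (b.coord j))).mul continuous_const

lemma ECont.pow {T : Ω → 𝓔} (hT : ECont T) (n : ℕ) : ECont (fun ω => T ω ^ n) := by
  induction n with
  | zero => simpa using ECont.one
  | succ n ih =>
    simp_rw [pow_succ]
    exact ih.mul hT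

lemma ECont.list {ι : Type*} (T : ι → Ω → 𝓔) (hT : ∀ i, ECont (T i)) (l : List ι) :
    ECont (fun ω => (l.map fun i => T i ω).prod) := by
  induction l with
  | nil => simpa using ECont.one
  | cons i l ih =>
    simp only [List.map_cons, List.prod_cons]
    exact (hT i).mul ih

end cont

/-- values of words in two letters -/
def wv {𝓔 : Type*} [Monoid 𝓔] (a b : 𝓔) (l : List Bool) : 𝓔 :=
  (l.map fun i => if i then a else b).prod

lemma span_wv {𝓔 : Type*} [Ring 𝓔] [Algebra ℝ 𝓔] (a b : 𝓔) :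
    Submodule.span ℝ (range (wv a b)) = Subalgebra.toSubmodule (Algebra.adjoin ℝ {a, b}) := by
  rw [Algebra.adjoin_eq_span]
  congr 1
  ext z
  constructor
  · rintro ⟨l, rfl⟩
    refine Submonoid.list_prod_mem _ fun x hx => ?_
    obtain ⟨i, -, rfl⟩ := List.mem_map.1 hx
    apply Submonoid.subset_closure
    cases i <;> simp
  · intro hz
    obtain ⟨l, hl, rfl⟩ := Submonoid.exists_list_of_mem_closure hz
    clear hz
    induction l with
    | nil => exact ⟨[], rfl⟩
    | cons x l ih =>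
      obtain ⟨l', hl'⟩ := ih fun y hy => hl y (by simp [hy])
      rcases hl x (by simp) with h | h
      · refine ⟨true :: l', ?_⟩
        rw [List.prod_cons, ← hl', h]
        simp [wv]
      · refine ⟨false :: l', ?_⟩
        rw [List.prod_cons, ← hl', mem_singleton_iff.1 h]
        simp [wv]

/-- A function which detects the pairs whose given powers generate the algebra. -/
theorem detect {W : Type*} [AddCommGroup W] [Module ℝ W] [FiniteDimensional ℝ W]
    {G : Type*} [TopologicalSpace G] [Group G] [IsTopologicalGroup G] (Θ : G →* Module.End ℝ W)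
    (hΘ : ECont (fun g => Θ g)) (m m' : ℕ) (x y : G)
    (h : ∀ g, Θ g ∈ Algebra.adjoin ℝ {Θ (x ^ m), Θ (y ^ m')}) :
    ∃ F : G × G → ℝ, IsRepr F ∧ Continuous F ∧ F (x, y) ≠ 0 ∧ ∀ u v, F (u, v) ≠ 0 →
      ∀ g, Θ g ∈ Algebra.adjoin ℝ {Θ (u ^ m), Θ (v ^ m')} := by
  set A : Subalgebra ℝ (Module.End ℝ W) := Algebra.adjoin ℝ (range Θ) with hA
  have hle : ∀ u v : G, Algebra.adjoin ℝ {Θ (u ^ m), Θ (v ^ m')} ≤ A := by
    intro u v
    refine Algebra.adjoin_mono ?_
    rintro T (rfl | rfl)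
    · exact ⟨_, rfl⟩
    · exact ⟨_, rfl⟩
  have hAeq : Algebra.adjoin ℝ {Θ (x ^ m), Θ (y ^ m')} = A := by
    refine le_antisymm (hle x y) (Algebra.adjoin_le ?_)
    rintro _ ⟨g, rfl⟩
    exact h g
  let V : List Bool → G × G → Module.End ℝ W := fun l p =>
    wv (Θ (p.1 ^ m)) (Θ (p.2 ^ m')) l
  obtain ⟨D, f, hD, hf1, hf3⟩ : ∃ (D : ℕ) (f : Fin D → Module.End ℝ W),
      D = Module.finrank ℝ (Submodule.span ℝ (range (wv (Θ (x ^ m)) (Θ (y ^ m'))))) ∧
      (∀ i, f i ∈ range (wv (Θ (x ^ m)) (Θ (y ^ m')))) ∧ LinearIndependent ℝ f := by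
    obtain ⟨f, hf1, hf2, hf3⟩ := Submodule.exists_fun_fin_finrank_span_eq ℝ
      (range (wv (Θ (x ^ m)) (Θ (y ^ m'))))
    exact ⟨_, f, rfl, hf1, hf3⟩
  have hDA : D = Module.finrank ℝ (Subalgebra.toSubmodule A) := by
    rw [hD, span_wv, hAeq]
  choose l hl using hf1
  -- the coordinate functions
  have hinj : LinearMap.ker (Fintype.linearCombination ℝ f) = ⊥ :=
    LinearMap.ker_eq_bot.2 (linearIndependent_iff_injective_fintypeLinearCombination.1 hf3)
  obtain ⟨φ, hφ⟩ := (Fintype.linearCombination ℝ f).exists_leftInverse_of_injective hinj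
  have hφf : ∀ i, φ (f i) = Pi.single i 1 := by
    intro i
    have h1 := LinearMap.congr_fun hφ (Pi.single i 1)
    have h2 : (Fintype.linearCombination ℝ f) (Pi.single i (1 : ℝ)) = f i := by
      rw [Fintype.linearCombination_apply_single, one_smul]
    rw [LinearMap.comp_apply, h2] at h1
    exact h1
  let N : G × G → Matrix (Fin D) (Fin D) ℝ := fun p => Matrix.of fun i j => φ (V (l i) p) j
  have hNij : ∀ p i j, N p i j = ((LinearMap.proj j).comp φ) (V (l i) p) := fun _ _ _ => rfl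
  refine ⟨fun p => (N p).det, ?_, ?_, ?_, ?_⟩
  · refine IsRepr.det N fun i j => ?_
    simp_rw [hNij]
    have h1 : ERepr (fun p : G × G => V (l i) p) := by
      have h2 := ERepr.list (Ω := G × G) (𝓔 := Module.End ℝ W)
        (fun (i : Bool) (p : G × G) => if i then Θ (p.1 ^ m) else Θ (p.2 ^ m')) (fun i => by
          cases i
          · simp only [Bool.false_eq_true, if_false, map_pow]
            exact (ERepr.hom (Θ.comp (MonoidHom.snd G G))).pow m'
          · simp only [if_true, map_pow]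
            exact (ERepr.hom (Θ.comp (MonoidHom.fst G G))).pow m) (l i)
      exact h2
    exact h1 _
  · refine Continuous.matrix_det (continuous_matrix fun i j => ?_)
    simp_rw [hNij]
    have h1 : ECont (fun p : G × G => V (l i) p) := by
      have h2 := ECont.list (Ω := G × G) (𝓔 := Module.End ℝ W)
        (fun (i : Bool) (p : G × G) => if i then Θ (p.1 ^ m) else Θ (p.2 ^ m')) (fun i => by
          cases i
          · simp only [Bool.false_eq_true, if_false]
            intro ψ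
            exact (hΘ ψ).comp (continuous_snd.pow m')
          · simp only [if_true]
            intro ψ
            exact (hΘ ψ).comp (continuous_fst.pow m)) (l i)
      exact h2
    exact h1 _
  · have h1 : N (x, y) = 1 := by
      ext i j
      have h2 : V (l i) (x, y) = f i := hl i
      show φ (V (l i) (x, y)) j = _
      rw [h2, hφf, Matrix.one_apply]
      by_cases hij : i = j
      · subst hij; simp
      · rw [Pi.single_eq_of_ne (Ne.symm hij), if_neg hij]
    show (N (x, y)).det ≠ 0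
    rw [h1, Matrix.det_one]
    exact one_ne_zero
  · intro u v huv g
    have hli : LinearIndependent ℝ (fun i => V (l i) (u, v)) := by
      have h1 : LinearIndependent ℝ (fun i => N (u, v) i) := by
        have h2 : IsUnit (N (u, v)) := (Matrix.isUnit_iff_isUnit_det _).2 (isUnit_iff_ne_zero.2 huv)
        exact Matrix.linearIndependent_rows_iff_isUnit.2 h2
      exact LinearIndependent.of_comp φ h1
    have h1 : Subalgebra.toSubmodule (Algebra.adjoin ℝ {Θ (u ^ m), Θ (v ^ m')}) =
        Subalgebra.toSubmodule A := by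
      refine Submodule.eq_of_le_of_finrank_le (hle u v) ?_
      rw [← hDA]
      have h2 : ∀ i, V (l i) (u, v) ∈
          Subalgebra.toSubmodule (Algebra.adjoin ℝ {Θ (u ^ m), Θ (v ^ m')}) := by
        intro i
        rw [← span_wv]
        exact Submodule.subset_span ⟨l i, rfl⟩
      have h3 : LinearIndependent ℝ (fun i => (⟨V (l i) (u, v), h2 i⟩ :
          Subalgebra.toSubmodule (Algebra.adjoin ℝ {Θ (u ^ m), Θ (v ^ m')}))) := by
        refine LinearIndependent.of_comp (Submodule.subtype _) ?_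
        exact hli
      have h4 := h3.fintype_card_le_finrank
      rwa [Fintype.card_fin] at h4
    have h2 : Θ g ∈ Subalgebra.toSubmodule A := Algebra.subset_adjoin ⟨g, rfl⟩
    rw [← h1] at h2
    exact h2

variable {G : Type*} [TopologicalSpace G] [Group G] [IsTopologicalGroup G] [CompactSpace G]
  [T2Space G] {r : ℕ} {ρ : G →* (Mt r)ˣ} (hρ : IsFRep ρ)

variable [ConnectedSpace G] (hG : Simp G)

include hG hρ

/-- **Short words generating densely**: for every neighbourhood `U` of the identity there is `N`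
such that for every symmetric set `S` generating a dense subgroup there are two words of even
length at most `N` in `U` which generate a dense subgroup. -/
theorem lemmaW {U : Set G} (hU : U ∈ 𝓝 (1 : G)) : ∃ N : ℕ, ∀ S : Set G, (∀ s ∈ S, s⁻¹ ∈ S) →
    Dense ((Subgroup.closure S : Subgroup G) : Set G) → ∃ u v : G, u ∈ U ∧ v ∈ U ∧
      Ev S N u ∧ Ev S N v ∧ Dense ((Subgroup.closure {u, v} : Subgroup G) : Set G) ∧
      u ≠ u⁻¹ ∧ v ≠ v⁻¹ ∧ u ≠ v ∧ u ≠ v⁻¹ := by
  obtain ⟨δ, hδ, hdense⟩ := dense_of_gen hρ hG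
  have hsmall : ∀ᶠ g : G in 𝓝 1, ‖(ρ g : Mt r) - 1‖ < min δ 1 := by
    have hc : Continuous fun g => ‖(ρ g : Mt r) - 1‖ :=
      ((Units.continuous_val.comp hρ.cont).sub continuous_const).norm
    have h1 := hc.tendsto 1
    simp only [map_one, Units.val_one, sub_self, norm_zero] at h1
    exact h1.eventually (gt_mem_nhds (lt_min hδ one_pos))
  obtain ⟨M, hM⟩ := exists_pow_mem (Filter.inter_mem hU hsmall)
  obtain ⟨x, y, hxy⟩ := exists_gen hρ hG M
  have hdet : ∀ p : ℕ × ℕ, ∃ F : G × G → ℝ, p ∈ Finset.Icc 1 M ×ˢ Finset.Icc 1 M →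
      (IsRepr F ∧ Continuous F ∧ F (x, y) ≠ 0 ∧ ∀ u v, F (u, v) ≠ 0 →
      ∀ g, Adg hρ g ∈ Algebra.adjoin ℝ {Adg hρ (u ^ p.1), Adg hρ (v ^ p.2)}) := by
    intro p
    by_cases hp : p ∈ Finset.Icc 1 M ×ˢ Finset.Icc 1 M
    · have hp' := Finset.mem_product.1 hp
      rw [Finset.mem_Icc, Finset.mem_Icc] at hp'
      obtain ⟨F, hF⟩ := detect (Adg hρ) (fun φ => Adg_functional hρ φ) p.1 p.2 x y
        (hxy p.1 p.2 hp'.1.1 hp'.1.2 hp'.2.1 hp'.2.2)
      exact ⟨F, fun _ => hF⟩
    · exact ⟨0, fun h => absurd h hp⟩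
  choose F hF using hdet
  set P : G × G → ℝ := fun ω => ∏ p ∈ Finset.Icc 1 M ×ˢ Finset.Icc 1 M, F p ω with hP
  have hPr : IsRepr P := IsRepr.prod _ _ fun p hp => (hF p hp).1
  have hPc : Continuous P := continuous_finsetProd _ fun p hp => (hF p hp).2.1
  have hPxy : P (x, y) ≠ 0 := Finset.prod_ne_zero_iff.2 fun p hp => (hF p hp).2.2.1
  obtain ⟨N, hN⟩ := escape hPr
  haveI : Nontrivial G := by
    obtain ⟨a, b, hab⟩ := hG.nonab
    refine ⟨⟨a, b, fun h => hab (by rw [h])⟩⟩
  refine ⟨M * (2 * N), fun S hS hd => ?_⟩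
  obtain ⟨ω, hω, hPω⟩ : ∃ ω, Wd (PT S) N ω ∧ P ω ≠ 0 := by
    by_contra hcon
    push Not at hcon
    exact hPxy (eq_zero_of_words hS hd hPc (fun n p hp => hN (PT S) hcon n p hp) (x, y))
  obtain ⟨a, b⟩ := ω
  have hab := Wd_PT hω
  obtain ⟨m, hm1, hmM, hmU, hms⟩ := hM a
  obtain ⟨m', hm1', hmM', hmU', hms'⟩ := hM b
  have hmem : (m, m') ∈ Finset.Icc 1 M ×ˢ Finset.Icc 1 M :=
    Finset.mem_product.2 ⟨Finset.mem_Icc.2 ⟨hm1, hmM⟩, Finset.mem_Icc.2 ⟨hm1', hmM'⟩⟩
  have hgen := (hF (m, m') hmem).2.2.2 a b (Finset.prod_ne_zero_iff.1 hPω _ hmem)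
  simp only at hgen
  have hs1 : ‖(ρ (a ^ m) : Mt r) - 1‖ < min δ 1 := hms
  have hs2 : ‖(ρ (b ^ m') : Mt r) - 1‖ < min δ 1 := hms'
  have hinvol : ∀ u : G, ‖(ρ u : Mt r) - 1‖ < 1 → u = u⁻¹ → Adg hρ u = 1 := by
    intro u hu huu
    have h1 : ρ u * ρ u = 1 := by
      rw [← map_mul]
      nth_rewrite 2 [huu]
      rw [mul_inv_cancel, map_one]
    have h2 : (ρ u : Mt r) * ρ u = 1 := by
      rw [← Units.val_mul, h1, Units.val_one]
    set z := (ρ u : Mt r) - 1 with hz
    have h3 : z = (-(1 / 2) : ℝ) • (z * z) := by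
      have h4 : z * z = - (2 : ℝ) • z := by
        have : z * z = (ρ u : Mt r) * ρ u - (2 : ℝ) • (ρ u : Mt r) + 1 := by
          rw [hz, two_smul]
          noncomm_ring
        rw [this, h2, hz, neg_smul, two_smul, two_smul]
        abel
      rw [h4, smul_smul]
      norm_num
    have h4 : ‖z‖ ≤ 1 / 2 * (‖z‖ * ‖z‖) := by
      conv_lhs => rw [h3]
      rw [norm_smul]
      have : ‖(-(1 / 2) : ℝ)‖ = 1 / 2 := by norm_num
      rw [this]
      exact mul_le_mul_of_nonneg_left (norm_mul_le z z) (by norm_num)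
    have h5 : ‖z‖ = 0 := by nlinarith [norm_nonneg z]
    have h6 : (ρ u : Mt r) = 1 := sub_eq_zero.1 (norm_eq_zero.1 h5)
    have h7 : ρ u = ρ 1 := by
      rw [map_one]
      exact Units.ext h6
    rw [Adg_congr hρ h7, map_one]
  refine ⟨a ^ m, b ^ m', hmU, hmU', (hab.1.pow m).mono (Nat.mul_le_mul_right _ hmM),
    (hab.2.pow m').mono (Nat.mul_le_mul_right _ hmM'),
    hdense _ _ (hs1.trans_le (min_le_left _ _)) (hs2.trans_le (min_le_left _ _)) hgen, ?_, ?_, ?_, ?_⟩
  · intro h
    refine Adg_ne_one_of hρ hG hgen ?_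
    rw [hinvol _ (hs1.trans_le (min_le_right _ _)) h, one_mul, mul_one]
  · intro h
    refine Adg_ne_one_of hρ hG hgen ?_
    rw [hinvol _ (hs2.trans_le (min_le_right _ _)) h, one_mul, mul_one]
  · intro h
    refine Adg_ne_one_of hρ hG hgen ?_
    rw [h]
  · intro h
    refine Adg_ne_one_of hρ hG hgen ?_
    rw [← map_mul, ← map_mul, h, inv_mul_cancel, mul_inv_cancel]

end

end Run7.h421
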