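import Pool.Agent.Run7.h421.ThmL

/-!
# Zero-one law: preliminaries
-/

set_option autoImplicit false
set_option linter.unusedSectionVars false

namespace Run7.h421

open MeasureTheory Set Filter Topology

noncomputable section

section top

variable {E : Type*} [NormedAddCommGroup E] [InnerProductSpace ℂ E]
variable {G : Type*} [TopologicalSpace G] [Group G] [IsTopologicalGroup G] [CompactSpace G]
variable [CompleteSpace E] (π : G →* (E ≃ₗᵢ[ℂ] E)) (hπ : ∀ v, Continuous fun g => π g v)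
  (S : Finset G) (hS : ∀ s ∈ S, s⁻¹ ∈ S)

include hπ hS in
/-- Almost invariant vectors are moved little by a neighbourhood of the identity, if the
top space is finite-dimensional. -/
theorem near_of_top {η : ℝ} (hη : 0 < η)
    [FiniteDimensional ℂ (eSpan (Dl π S) {c : ℂ | (S.card : ℝ) - η < c.re})]
    {ε : ℝ} (hε : 0 < ε) :
    ∀ᶠ g in 𝓝 (1 : G), ∀ v : E,
      ‖π g v - v‖ ^ 2 ≤ 8 / η * dfc π S 1 v + 2 * ε ^ 2 * ‖v‖ ^ 2 := by
  filter_upwards [fd_small π hπ (eSpan (Dl π S) {c : ℂ | (S.card : ℝ) - η < c.re}) hε] with g hg v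
  set W := eSpan (Dl π S) {c : ℂ | (S.card : ℝ) - η < c.re} with hW
  obtain ⟨w, hw, u, hu, rfl⟩ := W.exists_add_mem_mem_orthogonal v
  have h1 : η * ‖u‖ ^ 2 ≤ dfc π S 1 (w + u) := by
    have hT := Dl_symm π S hS
    have h1 : (1 : ℝ) * (inner ℂ (Dl π S u) u).re ≤ (S.card - η) * ‖u‖ ^ 2 := by
      refine inner_le_of_orth hT (Dl_cont π S) (complete π hπ S hS) (fun c hc _ => ?_) hu
      have : ¬ ((S.card : ℝ) - η < c.re) := hc
      linarith
    have h2 := inner_Dl_le π S 1 (Or.inl rfl) w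
    have h4 : inner ℂ (Dl π S w) u = 0 := (Submodule.mem_orthogonal _ _).1 hu _ (eSpan_map hw)
    have h5 : inner ℂ (Dl π S u) w = 0 := by
      rw [hT u w, ← inner_conj_symm, h4, map_zero]
    have h3 : inner ℂ w u = 0 := (Submodule.mem_orthogonal _ _).1 hu w hw
    have h6 : ‖w + u‖ ^ 2 = ‖w‖ ^ 2 + ‖u‖ ^ 2 := by
      have := norm_add_sq (𝕜 := ℂ) w u
      rw [h3] at this
      simpa using this
    have h7 : inner ℂ (Dl π S (w + u)) (w + u) = inner ℂ (Dl π S w) w + inner ℂ (Dl π S u) u := by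
      rw [map_add, inner_add_left, inner_add_right, inner_add_right, h4, h5]
      ring
    unfold dfc
    rw [h6, h7, Complex.add_re]
    linarith
  have h2 : ‖π g (w + u) - (w + u)‖ ≤ ε * ‖w‖ + 2 * ‖u‖ := by
    have e : π g (w + u) - (w + u) = (π g w - w) + (π g u - u) := by
      rw [map_add]; abel
    rw [e]
    refine (norm_add_le _ _).trans (add_le_add (hg w hw) ?_)
    refine (norm_sub_le _ _).trans ?_
    rw [LinearIsometryEquiv.norm_map]
    linarith
  have h3 : inner ℂ w u = 0 := (Submodule.mem_orthogonal _ _).1 hu w hw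
  have h6 : ‖w + u‖ ^ 2 = ‖w‖ ^ 2 + ‖u‖ ^ 2 := by
    have := norm_add_sq (𝕜 := ℂ) w u
    rw [h3] at this
    simpa using this
  have h4 : ‖π g (w + u) - (w + u)‖ ^ 2 ≤ 2 * (ε ^ 2 * ‖w‖ ^ 2) + 8 * ‖u‖ ^ 2 := by
    have h5 : ‖π g (w + u) - (w + u)‖ ^ 2 ≤ (ε * ‖w‖ + 2 * ‖u‖) ^ 2 :=
      pow_le_pow_left₀ (norm_nonneg _) h2 2
    nlinarith [sq_nonneg (ε * ‖w‖ - 2 * ‖u‖)]
  have h7 : 8 * ‖u‖ ^ 2 ≤ 8 / η * dfc π S 1 (w + u) := by
    rw [div_mul_eq_mul_div, le_div_iff₀ hη]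
    nlinarith
  have h8 : ε ^ 2 * ‖w‖ ^ 2 ≤ ε ^ 2 * ‖w + u‖ ^ 2 := by
    refine mul_le_mul_of_nonneg_left ?_ (by positivity)
    rw [h6]
    nlinarith [norm_nonneg u]
  linarith

end top

section base

variable {G : Type*} [TopologicalSpace G] [Group G] [IsTopologicalGroup G] [CompactSpace G]
  [T2Space G] {r : ℕ} {ρ : G →* (Mt r)ˣ} (hρ : IsFRep ρ)

open scoped Matrix.Norms.L2Operator in
include hρ in
/-- a countable basis of neighbourhoods of the identity -/
lemma exists_base : ∃ U : ℕ → Set G, (∀ n, U n ∈ 𝓝 (1 : G)) ∧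
    ∀ O ∈ 𝓝 (1 : G), ∃ n, U n ⊆ O := by
  obtain ⟨O₀, hO₀, h1O₀, hinj⟩ := inj_near hρ
  obtain ⟨W, hW, hWc, hWO⟩ := exists_mem_nhds_isClosed_subset (hO₀.mem_nhds h1O₀)
  have hc : Continuous fun g : G => ‖(ρ g : Mt r) - 1‖ :=
    ((Units.continuous_val.comp hρ.cont).sub continuous_const).norm
  refine ⟨fun n => W ∩ {g | ‖(ρ g : Mt r) - 1‖ < 1 / ((n : ℝ) + 1)}, fun n => ?_, fun O hO => ?_⟩
  · refine Filter.inter_mem hW ?_
    have h1 := hc.tendsto 1
    simp only [map_one, Units.val_one, sub_self, norm_zero] at h1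
    exact h1.eventually (gt_mem_nhds (by positivity))
  · obtain ⟨O', hO'O, hO', h1O'⟩ := mem_nhds_iff.1 hO
    have hC : IsCompact (W \ O') := (hWc.isCompact).diff hO'
    have hpos : ∀ g ∈ W \ O', 0 < ‖(ρ g : Mt r) - 1‖ := by
      intro g hg
      rw [norm_pos_iff, Ne, sub_eq_zero]
      intro h
      have h2 : ρ g = ρ 1 := by rw [map_one]; exact Units.ext h
      have h3 := hinj g (hWO hg.1) 1 h1O₀ h2
      exact hg.2 (h3 ▸ h1O')
    rcases (W \ O').eq_empty_or_nonempty with he | hne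
    · refine ⟨0, fun g hg => hO'O ?_⟩
      by_contra hcon
      have : g ∈ W \ O' := ⟨hg.1, hcon⟩
      rw [he] at this
      exact this
    · obtain ⟨g₀, hg₀, hmin⟩ := hC.exists_isMinOn hne hc.continuousOn
      obtain ⟨n, hn⟩ := exists_nat_one_div_lt (hpos g₀ hg₀)
      refine ⟨n, fun g hg => hO'O ?_⟩
      by_contra hcon
      have h4 : ‖(ρ g₀ : Mt r) - 1‖ ≤ ‖(ρ g : Mt r) - 1‖ := hmin ⟨hg.1, hcon⟩
      have h5 : ‖(ρ g : Mt r) - 1‖ < 1 / ((n : ℝ) + 1) := hg.2
      linarith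

end base

section words

/-- the value of a word -/
def ev {G : Type*} [Group G] {k : ℕ} (l : List (Fin k × Bool)) (x : Fin k → G) : G :=
  (l.map fun p => if p.2 then x p.1 else (x p.1)⁻¹).prod

variable {G : Type*} [Group G] {k : ℕ}

lemma ev_nil (x : Fin k → G) : ev [] x = 1 := rfl

lemma ev_cons (p : Fin k × Bool) (l : List (Fin k × Bool)) (x : Fin k → G) :
    ev (p :: l) x = (if p.2 then x p.1 else (x p.1)⁻¹) * ev l x := by
  simp [ev]

lemma ev_append (l l' : List (Fin k × Bool)) (x : Fin k → G) :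
    ev (l ++ l') x = ev l x * ev l' x := by
  simp [ev]

lemma ev_cont [TopologicalSpace G] [IsTopologicalGroup G] (l : List (Fin k × Bool)) :
    Continuous fun x : Fin k → G => ev l x := by
  induction l with
  | nil => simpa [ev_nil] using continuous_const
  | cons p l ih =>
    simp_rw [ev_cons]
    refine Continuous.mul ?_ ih
    rcases p with ⟨i, b⟩
    cases b
    · simp only [Bool.false_eq_true, if_false]
      exact (continuous_apply i).inv
    · simp only [if_true]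
      exact continuous_apply i

/-- the subgroup of even words -/
def evSub (x : Fin k → G) : Subgroup G where
  carrier := {g | ∃ l, Even l.length ∧ ev l x = g}
  one_mem' := ⟨[], ⟨0, rfl⟩, rfl⟩
  mul_mem' := by
    rintro _ _ ⟨l, hl, rfl⟩ ⟨l', hl', rfl⟩
    exact ⟨l ++ l', by rw [List.length_append]; exact hl.add hl', ev_append l l' x⟩
  inv_mem' := by
    rintro _ ⟨l, hl, rfl⟩
    refine ⟨(l.map fun p => (p.1, !p.2)).reverse, by simpa using hl, ?_⟩
    clear hl
    induction l with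
    | nil => simp [ev_nil]
    | cons p l ih =>
      rw [List.map_cons, List.reverse_cons, ev_append, ih, ev_cons, ev_cons, ev_nil, mul_one,
        mul_inv_rev]
      rcases p with ⟨i, b⟩
      cases b <;> simp

lemma mem_evSub {x : Fin k → G} {g : G} : g ∈ evSub x ↔ ∃ l, Even l.length ∧ ev l x = g := Iff.rfl

lemma dense_ev [TopologicalSpace G] [IsTopologicalGroup G] [ConnectedSpace G] [Nontrivial G]
    [T2Space G] {x : Fin k → G}
    (hd : Dense ((Subgroup.closure (range x) : Subgroup G) : Set G)) :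
    Dense ((evSub x : Subgroup G) : Set G) := by
  set S : Set G := {g | ∃ i, g = x i ∨ g = (x i)⁻¹} with hS
  have hSs : ∀ s ∈ S, s⁻¹ ∈ S := by
    rintro s ⟨i, rfl | rfl⟩
    · exact ⟨i, Or.inr rfl⟩
    · exact ⟨i, Or.inl (inv_inv _)⟩
  have hSd : Dense ((Subgroup.closure S : Subgroup G) : Set G) := by
    refine hd.mono (Subgroup.closure_mono ?_)
    rintro _ ⟨i, rfl⟩
    exact ⟨i, Or.inl rfl⟩
  refine (dense_even hSs hSd).mono ?_
  rw [SetLike.coe_subset_coe, Subgroup.closure_le]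
  have h1 : ∀ s ∈ S, ∃ p : Fin k × Bool, (if p.2 then x p.1 else (x p.1)⁻¹) = s := by
    rintro s ⟨i, rfl | rfl⟩
    · exact ⟨(i, true), by simp⟩
    · exact ⟨(i, false), by simp⟩
  rintro g ⟨s, hs, t, ht, rfl⟩
  obtain ⟨p, rfl⟩ := h1 s hs
  obtain ⟨q, rfl⟩ := h1 t ht
  exact ⟨[p, q], ⟨1, rfl⟩, by simp [ev_cons, ev_nil]⟩

/-- Uniformly short words in a given open set. -/
lemma unif_words [TopologicalSpace G] [IsTopologicalGroup G] [ConnectedSpace G] [Nontrivial G]
    [T2Space G] {K : Set (Fin k → G)} (hK : IsCompact K)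
    (hd : ∀ x ∈ K, Dense ((Subgroup.closure (range x) : Subgroup G) : Set G)) {m : ℕ}
    {O : Set (Fin m → G)} (hO : IsOpen O) (hne : O.Nonempty) :
    ∃ L : ℕ, ∀ x ∈ K, ∃ ls : Fin m → List (Fin k × Bool),
      (∀ j, Even (ls j).length ∧ (ls j).length ≤ L) ∧ (fun j => ev (ls j) x) ∈ O := by
  let ι := {ls : Fin m → List (Fin k × Bool) // ∀ j, Even (ls j).length}
  let V : ι → Set (Fin k → G) := fun ls => {x | (fun j => ev (ls.1 j) x) ∈ O}
  have hV : ∀ ls, IsOpen (V ls) := fun ls =>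
    hO.preimage (continuous_pi fun j => ev_cont (ls.1 j))
  have hcov : K ⊆ ⋃ ls, V ls := by
    intro x hx
    have h1 : Dense (Set.pi univ (fun _ : Fin m => ((evSub x : Subgroup G) : Set G))) :=
      dense_pi univ fun _ _ => dense_ev (hd x hx)
    obtain ⟨y, hy, hyO⟩ := h1.inter_open_nonempty O hO hne
    have h2 : ∀ j, ∃ l, Even l.length ∧ ev l x = y j := fun j => hyO j (mem_univ j)
    choose ls hls1 hls2 using h2
    rw [mem_iUnion]
    refine ⟨⟨ls, hls1⟩, ?_⟩
    show (fun j => ev (ls j) x) ∈ O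
    have h3 : (fun j => ev (ls j) x) = y := funext hls2
    rw [h3]
    exact hy
  obtain ⟨t, ht⟩ := hK.elim_finite_subcover V hV hcov
  refine ⟨∑ ls ∈ t, ∑ j, (ls.1 j).length, fun x hx => ?_⟩
  have h1 := ht hx
  rw [mem_iUnion₂] at h1
  obtain ⟨ls, hls, h2⟩ := h1
  refine ⟨ls.1, fun j => ⟨ls.2 j, ?_⟩, h2⟩
  refine (Finset.single_le_sum (f := fun j => (ls.1 j).length) (fun _ _ => Nat.zero_le _)
    (Finset.mem_univ j)).trans ?_
  exact Finset.single_le_sum (f := fun ls : ι => ∑ j, (ls.1 j).length)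
    (fun _ _ => Nat.zero_le _) hls

/-- Uniformly short words are uniformly dense. -/
lemma unif_cover [TopologicalSpace G] [IsTopologicalGroup G] [ConnectedSpace G] [Nontrivial G]
    [T2Space G] [CompactSpace G] {K : Set (Fin k → G)} (hK : IsCompact K)
    (hd : ∀ x ∈ K, Dense ((Subgroup.closure (range x) : Subgroup G) : Set G))
    {U : Set G} (hU : U ∈ 𝓝 (1 : G)) :
    ∃ L : ℕ, ∀ x ∈ K, ∀ g : G, ∃ l : List (Fin k × Bool), Even l.length ∧ l.length ≤ L ∧
      (ev l x)⁻¹ * g ∈ U := by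
  obtain ⟨U', hU'U, hU', h1U'⟩ := mem_nhds_iff.1 hU
  let ι := {l : List (Fin k × Bool) // Even l.length}
  let V : ι → Set ((Fin k → G) × G) := fun l => {p | (ev l.1 p.1)⁻¹ * p.2 ∈ U'}
  have hV : ∀ l, IsOpen (V l) := fun l =>
    hU'.preimage ((((ev_cont l.1).comp continuous_fst).inv).mul continuous_snd)
  have hcov : K ×ˢ (univ : Set G) ⊆ ⋃ l, V l := by
    rintro ⟨x, g⟩ ⟨hx, -⟩
    have h1 : IsOpen {w : G | w⁻¹ * g ∈ U'} := hU'.preimage (by fun_prop)
    obtain ⟨w, hw, l, hl, rfl⟩ := (dense_ev (hd x hx)).inter_open_nonempty _ h1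
      ⟨g, by show g⁻¹ * g ∈ U'; rwa [inv_mul_cancel]⟩
    rw [mem_iUnion]
    exact ⟨⟨l, hl⟩, hw⟩
  obtain ⟨t, ht⟩ := (hK.prod isCompact_univ).elim_finite_subcover V hV hcov
  refine ⟨∑ l ∈ t, l.1.length, fun x hx g => ?_⟩
  have h1 := ht (⟨hx, mem_univ g⟩ : (x, g) ∈ K ×ˢ (univ : Set G))
  rw [mem_iUnion₂] at h1
  obtain ⟨l, hl, h2⟩ := h1
  refine ⟨l.1, l.2, ?_, hU'U h2⟩
  exact Finset.single_le_sum (f := fun l : ι => l.1.length) (fun _ _ => Nat.zero_le _) hl

variable {E : Type*} [NormedAddCommGroup E] [InnerProductSpace ℂ E] [CompleteSpace E]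
  (π : G →* (E ≃ₗᵢ[ℂ] E))

/-- vectors which are almost multiplied by `σ` by the letters -/
lemma ev_move {σ : ℝ} (hσ : σ = 1 ∨ σ = -1) (x : Fin k → G) {f : E} {η : ℝ}
    (h : ∀ i, ‖π (x i) f - (σ : ℂ) • f‖ ≤ η) (l : List (Fin k × Bool)) :
    ‖π (ev l x) f - ((σ ^ l.length : ℝ) : ℂ) • f‖ ≤ l.length * η := by
  have hsq : (σ : ℂ) * (σ : ℂ) = 1 := by
    rcases hσ with rfl | rfl <;> norm_num
  have hnσ : ‖(σ : ℂ)‖ = 1 := by
    rcases hσ with rfl | rfl <;> simp
  induction l with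
  | nil => simp [ev_nil]
  | cons p l ih =>
    have h1 : ‖π (if p.2 then x p.1 else (x p.1)⁻¹) f - (σ : ℂ) • f‖ ≤ η := by
      rcases p with ⟨i, b⟩
      cases b
      · simp only [Bool.false_eq_true, if_false]
        have h2 : π (x i)⁻¹ f - (σ : ℂ) • f =
            - ((σ : ℂ) • π (x i)⁻¹ (π (x i) f - (σ : ℂ) • f)) := by
          have h3 : π (x i)⁻¹ (π (x i) f) = f := by
            rw [← pi_mul, inv_mul_cancel, map_one]
            rfl
          rw [map_sub, h3, map_smul, smul_sub, smul_smul, hsq, one_smul]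
          abel
        rw [h2, norm_neg, norm_smul, hnσ, one_mul, LinearIsometryEquiv.norm_map]
        exact h i
      · simpa using h i
    have h2 : π (ev (p :: l) x) f - ((σ ^ (p :: l).length : ℝ) : ℂ) • f =
        π (if p.2 then x p.1 else (x p.1)⁻¹) (π (ev l x) f - ((σ ^ l.length : ℝ) : ℂ) • f) +
        ((σ ^ l.length : ℝ) : ℂ) • (π (if p.2 then x p.1 else (x p.1)⁻¹) f - (σ : ℂ) • f) := by
      rw [ev_cons, pi_mul, map_sub, map_smul, smul_sub, smul_smul,
        List.length_cons, pow_succ]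
      push_cast
      abel
    have hn : ‖((σ ^ l.length : ℝ) : ℂ)‖ = 1 := by
      push_cast
      rw [norm_pow, hnσ, one_pow]
    rw [h2]
    refine (norm_add_le _ _).trans ?_
    rw [LinearIsometryEquiv.norm_map, norm_smul, hn, one_mul, List.length_cons, Nat.cast_succ]
    linarith

end words

end

end Run7.h421
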