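import Pool.Agent.Run7.h421.Zero

/-!
# The zero-one law
-/

set_option autoImplicit false
set_option linter.unusedSectionVars false

namespace Run7.h421

open MeasureTheory Set Filter Topology

noncomputable section

section meanzero

variable {G : Type*} [TopologicalSpace G] [Group G] [IsTopologicalGroup G] [CompactSpace G]
  [T2Space G] [MeasurableSpace G] [BorelSpace G] (μ : Measure G) [μ.IsHaarMeasure]

/-- A function of mean zero is moved by some translation. -/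
lemma eq_zero_of_near {f : Lp ℂ 2 μ} (h0 : ∫ x, f x ∂μ = 0)
    (h : ∀ g, ‖lreg μ g f - f‖ ≤ (1 / 2) * ‖f‖) : f = 0 := by
  have hpos : 0 < μ.real univ := by
    have h1 : μ univ ≠ 0 := ((isOpen_univ (X := G)).measure_pos μ ⟨1, trivial⟩).ne'
    exact ENNReal.toReal_pos h1 (measure_lt_top μ univ).ne
  have hB : Bop μ (1 : C(G, ℝ)) f = 0 := by
    ext x
    rw [Bop_apply, L2.inner_def]
    have h1 : (kl μ (1 : C(G, ℝ)) x) =ᵐ[μ] fun _ => (1 : ℂ) := by
      refine (ContinuousMap.coeFn_toLp (p := 2) (𝕜 := ℂ) μ _).trans ?_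
      refine Filter.Eventually.of_forall fun y => ?_
      show (((1 : C(G, ℝ)) (x * y⁻¹) : ℝ) : ℂ) = 1
      simp
    rw [ContinuousMap.zero_apply, ← h0]
    refine integral_congr_ae ?_
    filter_upwards [h1] with y hy
    rw [hy]
    simp
  have h1 := Bop_eq μ (1 : C(G, ℝ)) f
  rw [hB, map_zero] at h1
  have h2 : ∫ g, lreg μ g f ∂μ = 0 := by
    rw [h1]
    refine integral_congr_ae (Filter.Eventually.of_forall fun g => ?_)
    simp
  have hi1 : Integrable (fun g => lreg μ g f) μ := integrable_cont μ (lreg_cont μ f)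
  have hi2 : Integrable (fun _ : G => f) μ := integrable_const _
  have h3 : ∫ g, (lreg μ g f - f) ∂μ = - (μ.real univ) • f := by
    rw [integral_sub hi1 hi2, h2, integral_const, zero_sub, neg_smul]
  have h4 : ‖∫ g, (lreg μ g f - f) ∂μ‖ ≤ μ.real univ * ((1 / 2) * ‖f‖) := by
    refine (norm_integral_le_integral_norm _).trans ?_
    have h5 : μ.real univ * ((1 / 2) * ‖f‖) = ∫ _g : G, (1 / 2) * ‖f‖ ∂μ := by
      rw [integral_const, smul_eq_mul]
    rw [h5]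
    exact integral_mono_of_nonneg (Filter.Eventually.of_forall fun g => norm_nonneg _)
      (integrable_const _) (Filter.Eventually.of_forall h)
  rw [h3, norm_smul, norm_neg, Real.norm_of_nonneg hpos.le] at h4
  have h5 := le_of_mul_le_mul_left h4 hpos
  have h6 : ‖f‖ = 0 := by linarith [norm_nonneg f]
  exact norm_eq_zero.1 h6

end meanzero

lemma sum_fs_le {G : Type*} [Group G] {k : ℕ} (x : Fin k → G) (S : Finset G)
    (hS : (S : Set G) = range x ∪ (range x)⁻¹) (φ : G → ℝ) (hφ : ∀ g, 0 ≤ φ g) :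
    ∑ s ∈ S, φ s ≤ ∑ i, (φ (x i) + φ (x i)⁻¹) := by
  classical
  have h1 : S ⊆ (Finset.univ.image x) ∪ (Finset.univ.image fun i => (x i)⁻¹) := by
    intro s hs
    have h2 : s ∈ (S : Set G) := hs
    rw [hS] at h2
    rw [Finset.mem_union, Finset.mem_image, Finset.mem_image]
    rcases h2 with ⟨i, rfl⟩ | ⟨i, hi⟩
    · exact Or.inl ⟨i, Finset.mem_univ _, rfl⟩
    · exact Or.inr ⟨i, Finset.mem_univ _, by rw [hi, inv_inv]⟩
  refine (Finset.sum_le_sum_of_subset_of_nonneg h1 fun g _ _ => hφ g).trans ?_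
  have h2 := Finset.sum_union_inter (s₁ := Finset.univ.image x)
    (s₂ := Finset.univ.image fun i => (x i)⁻¹) (f := φ)
  have h3 : 0 ≤ ∑ g ∈ (Finset.univ.image x) ∩ (Finset.univ.image fun i => (x i)⁻¹), φ g :=
    Finset.sum_nonneg fun g _ => hφ g
  have h4 : ∑ g ∈ Finset.univ.image x, φ g ≤ ∑ i, φ (x i) :=
    Finset.sum_image_le_of_nonneg fun g _ => hφ g
  have h5 : ∑ g ∈ (Finset.univ.image fun i => (x i)⁻¹), φ g ≤ ∑ i, φ (x i)⁻¹ :=
    Finset.sum_image_le_of_nonneg fun g _ => hφ g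
  rw [Finset.sum_add_distrib]
  linarith

section main

variable {G : Type} [TopologicalSpace G] [T2Space G] [Group G] [IsTopologicalGroup G]
    [CompactSpace G] [ConnectedSpace G] [MeasurableSpace G] [BorelSpace G] (μ : Measure G)
    [μ.IsHaarMeasure]

/-- the tuples for which almost invariant functions are moved little by `U` -/
def Cst (U : Set G) (k a : ℕ) : Set (Fin k → G) :=
  {x | ∀ u ∈ U, ∀ f : Lp ℂ 2 μ,
    ‖lreg μ u f - f‖ ^ 2 ≤ a * ∑ i, ‖lreg μ (x i) f - f‖ ^ 2 + 1 / 16 * ‖f‖ ^ 2}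

lemma Cst_closed (U : Set G) (k a : ℕ) : IsClosed (Cst μ U k a) := by
  have h1 : Cst μ U k a = ⋂ u ∈ U, ⋂ f : Lp ℂ 2 μ, {x : Fin k → G |
    ‖lreg μ u f - f‖ ^ 2 ≤ a * ∑ i, ‖lreg μ (x i) f - f‖ ^ 2 + 1 / 16 * ‖f‖ ^ 2} := by
    ext x
    simp only [Cst, mem_setOf_eq, mem_iInter]
  rw [h1]
  refine isClosed_biInter fun u _ => isClosed_iInter fun f => ?_
  refine isClosed_le continuous_const ?_
  refine (continuous_const.mul (continuous_finset_sum _ fun i _ => ?_)).add continuous_const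
  exact (((lreg_cont μ f).comp (continuous_apply i)).sub continuous_const).norm.pow 2

/-- the sum of the squares in terms of the inner products -/
lemma sum_sq_eq {k : ℕ} {σ : ℝ} (hσ : σ = 1 ∨ σ = -1) (x : Fin k → G) (f : Lp ℂ 2 μ) :
    ∑ i, ‖lreg μ (x i) f - (σ : ℂ) • f‖ ^ 2 =
      2 * (k * ‖f‖ ^ 2 - σ * ∑ i, (inner ℂ (lreg μ (x i) f) f).re) := by
  have h1 : ∀ i, ‖lreg μ (x i) f - (σ : ℂ) • f‖ ^ 2 =
      2 * ‖f‖ ^ 2 - 2 * (σ * (inner ℂ (lreg μ (x i) f) f).re) := by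
    intro i
    rw [@norm_sub_sq ℂ, LinearIsometryEquiv.norm_map, inner_smul_right, norm_smul]
    have h2 : ‖(σ : ℂ)‖ = 1 := by rcases hσ with rfl | rfl <;> simp
    rw [h2, one_mul]
    have h3 : RCLike.re ((σ : ℂ) * inner ℂ (lreg μ (x i) f) f) =
        σ * (inner ℂ (lreg μ (x i) f) f).re := by
      show ((σ : ℂ) * inner ℂ (lreg μ (x i) f) f).re = _
      rw [Complex.re_ofReal_mul]
    rw [h3]
    ring
  simp_rw [h1]
  rw [Finset.sum_sub_distrib, Finset.sum_const, Finset.card_univ, Fintype.card_fin,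
    ← Finset.mul_sum, ← Finset.mul_sum, nsmul_eq_mul]
  ring

/-- The uniform gap on compact sets of tuples, from one open set of tuples. -/
theorem gap_of_interior [Nontrivial G] {U : Set G} (hU : U ∈ 𝓝 (1 : G)) {m a : ℕ}
    (hne : (interior (Cst μ U m a)).Nonempty) {k : ℕ} {K : Set (Fin k → G)} (hK : IsCompact K)
    (hd : ∀ x ∈ K, Dense ((Subgroup.closure (range x) : Subgroup G) : Set G)) :
    ∃ ε : ℝ, 0 < ε ∧ ∀ x ∈ K, ∀ f : Lp ℂ 2 μ, ∫ y, f y ∂μ = 0 →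
      |∑ i, (inner ℂ (lreg μ (x i) f) f).re| ≤ (k - ε) * ‖f‖ ^ 2 := by
  obtain ⟨L₁, hL₁⟩ := unif_words hK hd isOpen_interior hne
  obtain ⟨L₂, hL₂⟩ := unif_cover hK hd hU
  set A : ℝ := 32 * (a + 1) * (m + 1) * ((L₁ : ℝ) + 1) ^ 2 * ((L₂ : ℝ) + 1) ^ 2 + 128 * ((L₂ : ℝ) + 1) ^ 2
    with hA
  have hA0 : 0 < A := by positivity
  set ε : ℝ := 1 / A with hε
  have hε0 : 0 < ε := by positivity
  refine ⟨ε, hε0, fun x hx f h0 => ?_⟩
  have key : ∀ σ : ℝ, σ = 1 ∨ σ = -1 →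
      σ * ∑ i, (inner ℂ (lreg μ (x i) f) f).re ≤ (k - ε) * ‖f‖ ^ 2 := by
    intro σ hσ
    by_contra hcon
    push Not at hcon
    have hsum := sum_sq_eq μ hσ x f
    have hlt : ∑ i, ‖lreg μ (x i) f - (σ : ℂ) • f‖ ^ 2 ≤ 2 * ε * ‖f‖ ^ 2 := by
      rw [hsum]
      nlinarith
    have hmove : ∀ i, ‖lreg μ (x i) f - (σ : ℂ) • f‖ ≤ Real.sqrt (2 * ε) * ‖f‖ := by
      intro i
      have h1 := (Finset.single_le_sum (f := fun i => ‖lreg μ (x i) f - (σ : ℂ) • f‖ ^ 2)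
        (fun _ _ => by positivity) (Finset.mem_univ i)).trans hlt
      have h2 : 2 * ε * ‖f‖ ^ 2 = (Real.sqrt (2 * ε) * ‖f‖) ^ 2 := by
        rw [mul_pow, Real.sq_sqrt (by positivity)]
      rw [h2] at h1
      exact le_of_sq_le_sq h1 (by positivity)
    have hword : ∀ (l : List (Fin k × Bool)) (L : ℕ), Even l.length → l.length ≤ L →
        ‖lreg μ (ev l x) f - f‖ ≤ L * (Real.sqrt (2 * ε) * ‖f‖) := by
      intro l L he hl
      have h1 := ev_move (lreg μ) hσ x hmove l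
      have h2 : σ ^ l.length = 1 := by
        rcases hσ with rfl | rfl
        · simp
        · exact he.neg_one_pow
      rw [h2, Complex.ofReal_one, one_smul] at h1
      refine h1.trans ?_
      have : (l.length : ℝ) ≤ L := by exact_mod_cast hl
      exact mul_le_mul_of_nonneg_right this (by positivity)
    have hsq : (Real.sqrt (2 * ε)) ^ 2 = 2 * ε := Real.sq_sqrt (by positivity)
    have hL2 : (L₂ : ℝ) * (Real.sqrt (2 * ε)) ≤ 1 / 8 := by
      have h1 : ((L₂ : ℝ) * (Real.sqrt (2 * ε))) ^ 2 ≤ (1 / 8) ^ 2 := by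
        rw [mul_pow, hsq, hε]
        have h2 : 128 * ((L₂ : ℝ) + 1) ^ 2 ≤ A := by
          rw [hA]
          have : (0 : ℝ) ≤ 32 * (a + 1) * (m + 1) * ((L₁ : ℝ) + 1) ^ 2 * ((L₂ : ℝ) + 1) ^ 2 := by
            positivity
          linarith
        have h3 : (L₂ : ℝ) ^ 2 ≤ ((L₂ : ℝ) + 1) ^ 2 := by gcongr; linarith
        rw [← mul_assoc, mul_one_div, div_le_iff₀ hA0]
        nlinarith
      exact le_of_sq_le_sq h1 (by norm_num)
    obtain ⟨ls, hls1, hls2⟩ := hL₁ x hx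
    have hC := interior_subset hls2
    have hU2 : ∀ u ∈ U, ‖lreg μ u f - f‖ ≤ 3 / 8 * ‖f‖ := by
      intro u hu
      have h1 := hC u hu f
      have h2 : ∑ j, ‖lreg μ (ev (ls j) x) f - f‖ ^ 2 ≤
          m * ((L₁ : ℝ) * (Real.sqrt (2 * ε) * ‖f‖)) ^ 2 := by
        have h3 : ∀ j ∈ (Finset.univ : Finset (Fin m)), ‖lreg μ (ev (ls j) x) f - f‖ ^ 2 ≤
            ((L₁ : ℝ) * (Real.sqrt (2 * ε) * ‖f‖)) ^ 2 := fun j _ =>
          pow_le_pow_left₀ (norm_nonneg _) (hword (ls j) L₁ (hls1 j).1 (hls1 j).2) 2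
        have h4 := Finset.sum_le_card_nsmul _ _ _ h3
        rwa [Finset.card_univ, Fintype.card_fin, nsmul_eq_mul] at h4
      have h5 : (a : ℝ) * (m * ((L₁ : ℝ) * (Real.sqrt (2 * ε) * ‖f‖)) ^ 2) ≤ 1 / 16 * ‖f‖ ^ 2 := by
        have h6 : (a : ℝ) * (m * ((L₁ : ℝ) * (Real.sqrt (2 * ε) * ‖f‖)) ^ 2) =
            (a * m * (L₁ : ℝ) ^ 2 * (2 * ε)) * ‖f‖ ^ 2 := by
          rw [mul_pow, mul_pow, hsq]; ring
        rw [h6]
        refine mul_le_mul_of_nonneg_right ?_ (by positivity)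
        rw [hε, ← mul_assoc, mul_one_div, div_le_iff₀ hA0, hA]
        have h7 : (a : ℝ) * m * (L₁ : ℝ) ^ 2 ≤ (a + 1) * (m + 1) * ((L₁ : ℝ) + 1) ^ 2 *
            ((L₂ : ℝ) + 1) ^ 2 := by
          have h8 : (a : ℝ) * m * (L₁ : ℝ) ^ 2 ≤ (a + 1) * (m + 1) * ((L₁ : ℝ) + 1) ^ 2 := by
            gcongr <;> linarith
          have h9 : (1 : ℝ) ≤ ((L₂ : ℝ) + 1) ^ 2 := by
            have : (0 : ℝ) ≤ L₂ := Nat.cast_nonneg _
            nlinarith
          have h10 : (0 : ℝ) ≤ (a + 1) * (m + 1) * ((L₁ : ℝ) + 1) ^ 2 := by positivity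
          nlinarith
        have h11 : (0 : ℝ) ≤ 128 * ((L₂ : ℝ) + 1) ^ 2 := by positivity
        linarith
      have h12 : ‖lreg μ u f - f‖ ^ 2 ≤ (3 / 8 * ‖f‖) ^ 2 := by
        have h13 : (a : ℝ) * ∑ j, ‖lreg μ (ev (ls j) x) f - f‖ ^ 2 ≤
            a * (m * ((L₁ : ℝ) * (Real.sqrt (2 * ε) * ‖f‖)) ^ 2) :=
          mul_le_mul_of_nonneg_left h2 (Nat.cast_nonneg _)
        nlinarith [sq_nonneg ‖f‖]
      exact le_of_sq_le_sq h12 (by positivity)
    have hall : ∀ g, ‖lreg μ g f - f‖ ≤ (1 / 2) * ‖f‖ := by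
      intro g
      obtain ⟨l, hl1, hl2, hl3⟩ := hL₂ x hx g
      have h1 := hU2 _ hl3
      have h2 := hword l L₂ hl1 hl2
      have h3 : lreg μ g f - f = lreg μ (ev l x) (lreg μ ((ev l x)⁻¹ * g) f - f) +
          (lreg μ (ev l x) f - f) := by
        rw [map_sub, ← pi_mul, mul_inv_cancel_left]
        abel
      rw [h3]
      refine (norm_add_le _ _).trans ?_
      rw [LinearIsometryEquiv.norm_map]
      have h4 : (L₂ : ℝ) * (Real.sqrt (2 * ε) * ‖f‖) ≤ 1 / 8 * ‖f‖ := by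
        rw [← mul_assoc]
        exact mul_le_mul_of_nonneg_right hL2 (norm_nonneg _)
      linarith
    have hf := eq_zero_of_near μ h0 hall
    rw [hf] at hcon
    simp at hcon
  rw [abs_le]
  constructor
  · have := key (-1) (Or.inr rfl)
    linarith
  · have := key 1 (Or.inl rfl)
    linarith

/-- If the top space is finite-dimensional then the tuple lies in one of the closed sets. -/
theorem mem_Cst_of_fd {k : ℕ} (x : Fin k → G) (S : Finset G)
    (hS : (S : Set G) = range x ∪ (range x)⁻¹) {ε : ℝ} (hε : 0 < ε)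
    (h : FiniteDimensional ℂ (topSpace μ S ε)) :
    ∃ a : ℕ, ∃ O ∈ 𝓝 (1 : G), ∀ U ⊆ O, x ∈ Cst μ U k a := by
  have hSs : ∀ s ∈ S, s⁻¹ ∈ S := by
    intro s hs
    have h1 : s ∈ (S : Set G) := hs
    have h2 : s⁻¹ ∈ (S : Set G) := by
      rw [hS] at h1 ⊢
      rcases h1 with h1 | h1
      · right; rwa [Set.mem_inv, inv_inv]
      · left; exact h1
    exact h2
  rw [topSpace_eq μ S hSs] at h
  have h1 := near_of_top (lreg μ) (lreg_cont μ) S hSs hε (ε := 1 / 6) (by norm_num)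
  obtain ⟨O, hO, h2⟩ := h1.exists_mem
  obtain ⟨a, ha⟩ := exists_nat_gt (8 / ε)
  refine ⟨a, O, hO, fun U hU u hu f => ?_⟩
  have h3 := h2 u (hU hu) f
  have h4 : dfc (lreg μ) S 1 f ≤ ∑ i, ‖lreg μ (x i) f - f‖ ^ 2 := by
    rw [dfc_eq (lreg μ) S (Or.inl rfl)]
    have h5 := sum_fs_le x S hS (fun s => ‖lreg μ s f - ((1 : ℝ) : ℂ) • f‖ ^ 2)
      (fun _ => by positivity)
    have h6 : ∀ i, ‖lreg μ (x i) f - ((1 : ℝ) : ℂ) • f‖ ^ 2 +
        ‖lreg μ (x i)⁻¹ f - ((1 : ℝ) : ℂ) • f‖ ^ 2 = 2 * ‖lreg μ (x i) f - f‖ ^ 2 := by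
      intro i
      rw [Complex.ofReal_one, one_smul, inv_near]
      ring
    simp_rw [h6] at h5
    rw [← Finset.mul_sum] at h5
    linarith
  have h5 : 8 / ε * dfc (lreg μ) S 1 f ≤ a * ∑ i, ‖lreg μ (x i) f - f‖ ^ 2 := by
    refine mul_le_mul ha.le h4 (dfc_nonneg (lreg μ) S (Or.inl rfl) f) (Nat.cast_nonneg _)
  have h6 : 2 * (1 / 6 : ℝ) ^ 2 * ‖f‖ ^ 2 ≤ 1 / 16 * ‖f‖ ^ 2 := by
    refine mul_le_mul_of_nonneg_right (by norm_num) (by positivity)
  linarith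

end main

end

end Run7.h421
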