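import Pool.Agent.Run7.h421.Zero2

/-!
# The zero-one law: conclusion
-/

set_option autoImplicit false
set_option linter.unusedSectionVars false

namespace Run7.h421

open MeasureTheory Set Filter Topology

noncomputable section

section pairs

open scoped Matrix.Norms.L2Operator

variable {G : Type*} [TopologicalSpace G] [Group G] [IsTopologicalGroup G] [CompactSpace G]
  [T2Space G] {r : ℕ} {ρ : G →* (Mt r)ˣ} (hρ : IsFRep ρ)

include hρ in
lemma invol_near {u : G} (hu : ‖(ρ u : Mt r) - 1‖ < 1) (huu : u = u⁻¹) : Adg hρ u = 1 := by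
  have h1 : ρ u * ρ u = 1 := by
    rw [← map_mul]
    nth_rewrite 2 [huu]
    rw [mul_inv_cancel, map_one]
  have h2 : (ρ u : Mt r) * ρ u = 1 := by
    rw [← Units.val_mul, h1, Units.val_one]
  set z := (ρ u : Mt r) - 1 with hz
  have h3 : z = (-(1 / 2) : ℝ) • (z * z) := by
    have h4 : z * z = - (2 : ℝ) • z := by
      have : z * z = (ρ u : Mt r) * ρ u - (2 : ℝ) • (ρ u : Mt r) + 1 := by
        rw [hz, two_smul]
        noncomm_ring
      rw [this, h2, hz, neg_smul, two_smul, two_smul]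
      abel
    rw [h4, smul_smul]
    norm_num
  have h4 : ‖z‖ ≤ 1 / 2 * (‖z‖ * ‖z‖) := by
    conv_lhs => rw [h3]
    rw [norm_smul]
    have : ‖(-(1 / 2) : ℝ)‖ = 1 / 2 := by norm_num
    rw [this]
    exact mul_le_mul_of_nonneg_left (norm_mul_le z z) (by norm_num)
  have h5 : ‖z‖ = 0 := by nlinarith [norm_nonneg z]
  have h6 : (ρ u : Mt r) = 1 := sub_eq_zero.1 (norm_eq_zero.1 h5)
  have h7 : ρ u = ρ 1 := by
    rw [map_one]
    exact Units.ext h6
  rw [Adg_congr hρ h7, map_one]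

variable [ConnectedSpace G] (hG : Simp G)

include hG hρ in
/-- A nonempty open set of pairs which generate dense subgroups. -/
theorem open_pairs : ∃ O : Set (G × G), IsOpen O ∧ O.Nonempty ∧ ∀ u v, (u, v) ∈ O →
    Dense ((Subgroup.closure {u, v} : Subgroup G) : Set G) ∧
      u ≠ u⁻¹ ∧ v ≠ v⁻¹ ∧ u ≠ v ∧ u ≠ v⁻¹ := by
  obtain ⟨δ, hδ, hdense⟩ := dense_of_gen hρ hG
  have hc : Continuous fun g => ‖(ρ g : Mt r) - 1‖ :=
    ((Units.continuous_val.comp hρ.cont).sub continuous_const).norm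
  have hsmall : ∀ᶠ g : G in 𝓝 1, ‖(ρ g : Mt r) - 1‖ < min δ 1 := by
    have h1 := hc.tendsto 1
    simp only [map_one, Units.val_one, sub_self, norm_zero] at h1
    exact h1.eventually (gt_mem_nhds (lt_min hδ one_pos))
  obtain ⟨M, hM⟩ := exists_pow_mem hsmall
  obtain ⟨x, y, hxy⟩ := exists_gen hρ hG M
  obtain ⟨m, hm1, hmM, hms⟩ := hM x
  obtain ⟨m', hm1', hmM', hms'⟩ := hM y
  obtain ⟨F, -, hFc, hFne, hF⟩ := detect (Adg hρ) (fun φ => Adg_functional hρ φ) 1 1 (x ^ m)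
    (y ^ m') (by simpa using hxy m m' hm1 hmM hm1' hmM')
  refine ⟨{p | F p ≠ 0} ∩ ({p | ‖(ρ p.1 : Mt r) - 1‖ < min δ 1} ∩
    {p | ‖(ρ p.2 : Mt r) - 1‖ < min δ 1}), ?_, ⟨(x ^ m, y ^ m'), hFne, hms, hms'⟩, ?_⟩
  · refine (isOpen_ne_fun hFc continuous_const).inter (IsOpen.inter ?_ ?_)
    · exact isOpen_lt (hc.comp continuous_fst) continuous_const
    · exact isOpen_lt (hc.comp continuous_snd) continuous_const
  · rintro u v ⟨hFuv, hs1, hs2⟩
    have hs1 : ‖(ρ u : Mt r) - 1‖ < min δ 1 := hs1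
    have hs2 : ‖(ρ v : Mt r) - 1‖ < min δ 1 := hs2
    have hgen : ∀ g, Adg hρ g ∈ Algebra.adjoin ℝ {Adg hρ u, Adg hρ v} := by
      simpa using hF u v hFuv
    refine ⟨hdense _ _ (hs1.trans_le (min_le_left _ _)) (hs2.trans_le (min_le_left _ _)) hgen,
      ?_, ?_, ?_, ?_⟩
    · intro h
      refine Adg_ne_one_of hρ hG hgen ?_
      rw [invol_near hρ (hs1.trans_le (min_le_right _ _)) h, one_mul, mul_one]
    · intro h
      refine Adg_ne_one_of hρ hG hgen ?_
      rw [invol_near hρ (hs2.trans_le (min_le_right _ _)) h, one_mul, mul_one]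
    · intro h
      refine Adg_ne_one_of hρ hG hgen ?_
      rw [h]
    · intro h
      refine Adg_ne_one_of hρ hG hgen ?_
      rw [← map_mul, ← map_mul, h, inv_mul_cancel, mul_inv_cancel]

end pairs

section main

variable {G : Type} [TopologicalSpace G] [T2Space G] [Group G] [IsTopologicalGroup G]
    [CompactSpace G] [ConnectedSpace G] [MeasurableSpace G] [BorelSpace G] (μ : Measure G)
    [μ.IsHaarMeasure]

lemma inner_lreg (g : G) (f : Lp ℂ 2 μ) :
    inner ℂ (lreg μ g f) f = ∫ y, f (g * y) * (starRingEnd ℂ) (f y) ∂μ := by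
  have h1 : inner ℂ (lreg μ g f) f = inner ℂ f (lreg μ g⁻¹ f) := by
    have h2 : f = lreg μ g (lreg μ g⁻¹ f) := (pi_inv (lreg μ) g f).symm
    conv_lhs => rw [h2]
    rw [LinearIsometryEquiv.inner_map_map, ← h2]
  rw [h1, L2.inner_def]
  refine integral_congr_ae ?_
  filter_upwards [lreg_coe μ g⁻¹ f] with y hy
  rw [hy, inv_inv]
  rfl

/-- The uniform gap on compact sets of tuples. -/
def GapA : Prop := ∀ (k : ℕ) (K : Set (Fin k → G)), IsCompact K →
  (∀ x ∈ K, Dense ((Subgroup.closure (range x) : Subgroup G) : Set G)) →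
  ∃ ε : ℝ, 0 < ε ∧ ∀ x ∈ K, ∀ f : Lp ℂ 2 μ, ∫ y, f y ∂μ = 0 →
    |∑ i, (∫ y, f (x i * y) * (starRingEnd ℂ) (f y) ∂μ).re| ≤ (k - ε) * ‖f‖ ^ 2

/-- Generic absence of a gap. -/
def GenB : Prop := ∀ k : ℕ, ∀ᶠ x : Fin k → G in residual (Fin k → G), ∀ ε : ℝ, 0 < ε →
  ∀ S : Finset G, (S : Set G) = range x ∪ (range x)⁻¹ → ¬ FiniteDimensional ℂ (topSpace μ S ε)

/-- If all the closed sets have empty interior, then there is generically no gap. -/
theorem genB_of {U : ℕ → Set G} (hU : ∀ O ∈ 𝓝 (1 : G), ∃ n, U n ⊆ O)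
    (h : ∀ k n a, interior (Cst μ (U n) k a) = ∅) : GenB μ := by
  intro k
  have h1 : ∀ n a, (Cst μ (U n) k a)ᶜ ∈ residual (Fin k → G) := by
    intro n a
    refine residual_of_dense_open (Cst_closed μ (U n) k a).isOpen_compl ?_
    rw [← interior_eq_empty_iff_dense_compl]
    exact h k n a
  have h2 : (⋂ n, ⋂ a, (Cst μ (U n) k a)ᶜ) ∈ residual (Fin k → G) :=
    countable_iInter_mem.2 fun n => countable_iInter_mem.2 fun a => h1 n a
  filter_upwards [h2] with x hx ε hε S hS hfd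
  obtain ⟨a, O, hO, h3⟩ := mem_Cst_of_fd μ x S hS hε hfd
  obtain ⟨n, hn⟩ := hU O hO
  rw [mem_iInter] at hx
  have h4 := hx n
  rw [mem_iInter] at h4
  exact h4 a (h3 (U n) hn)

/-- With a uniform gap, the top space is finite-dimensional. -/
theorem fd_of_gapA (hA : GapA μ) {k : ℕ} {x : Fin k → G}
    (hd : Dense ((Subgroup.closure (range x) : Subgroup G) : Set G)) {S : Finset G}
    (hS : (S : Set G) = range x ∪ (range x)⁻¹) :
    ∃ ε : ℝ, 0 < ε ∧ FiniteDimensional ℂ (topSpace μ S ε) := by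
  obtain ⟨ε, hε, h⟩ := hA k {x} isCompact_singleton (by rintro _ rfl; exact hd)
  have hSs : ∀ s ∈ S, s⁻¹ ∈ S := by
    intro s hs
    have h1 : s ∈ (S : Set G) := hs
    have h2 : s⁻¹ ∈ (S : Set G) := by
      rw [hS] at h1 ⊢
      rcases h1 with h1 | h1
      · right; rwa [Set.mem_inv, inv_inv]
      · left; exact h1
    exact h2
  set η : ℝ := ε / (2 * (k + 1)) with hη
  have hη0 : 0 < η := by positivity
  refine ⟨η, hη0, ?_⟩
  set V := topSpace μ S η with hV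
  -- vectors of the top space have small defect
  have hdfc : ∀ f ∈ V, dfc (lreg μ) S 1 f ≤ η * ‖f‖ ^ 2 := by
    intro f hf
    rw [hV, topSpace_eq μ S hSs] at hf
    have h1 := eSpan_inner_le (Dl_symm (lreg μ) S hSs) (σ := -1) (a := -(S.card - η))
      (fun c hc _ => by
        have : (S.card : ℝ) - η < c.re := hc
        linarith) hf
    unfold dfc
    linarith
  let J : V →ₗ[ℂ] ℂ :=
    { toFun := fun f => ∫ y, (f : Lp ℂ 2 μ) y ∂μ
      map_add' := by
        intro f g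
        have h1 : ∀ f : Lp ℂ 2 μ, Integrable f μ := fun f =>
          (Lp.memLp f).integrable (by norm_num)
        rw [← integral_add (h1 _) (h1 _)]
        exact integral_congr_ae (Lp.coeFn_add _ _)
      map_smul' := by
        intro c f
        rw [RingHom.id_apply, ← integral_smul]
        exact integral_congr_ae (Lp.coeFn_smul _ _) }
  have hJ : Function.Injective J := by
    rw [← LinearMap.ker_eq_bot, LinearMap.ker_eq_bot']
    intro f hf
    have h0 : ∫ y, (f : Lp ℂ 2 μ) y ∂μ = 0 := hf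
    have h1 := h x rfl f h0
    simp_rw [← inner_lreg μ] at h1
    have h2 := (abs_le.1 h1).2
    have h3 := sum_sq_eq μ (Or.inl rfl : (1 : ℝ) = 1 ∨ (1 : ℝ) = -1) x (f : Lp ℂ 2 μ)
    have h4 : 2 * ε * ‖(f : Lp ℂ 2 μ)‖ ^ 2 ≤
        ∑ i, ‖lreg μ (x i) (f : Lp ℂ 2 μ) - ((1 : ℝ) : ℂ) • (f : Lp ℂ 2 μ)‖ ^ 2 := by
      rw [h3]; nlinarith
    have h5 : ∑ i, ‖lreg μ (x i) (f : Lp ℂ 2 μ) - ((1 : ℝ) : ℂ) • (f : Lp ℂ 2 μ)‖ ^ 2 ≤
        k * (2 * (η * ‖(f : Lp ℂ 2 μ)‖ ^ 2)) := by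
      have h6 : ∀ i ∈ (Finset.univ : Finset (Fin k)),
          ‖lreg μ (x i) (f : Lp ℂ 2 μ) - ((1 : ℝ) : ℂ) • (f : Lp ℂ 2 μ)‖ ^ 2 ≤
          2 * (η * ‖(f : Lp ℂ 2 μ)‖ ^ 2) := by
        intro i _
        have hxi : x i ∈ S := by
          have : x i ∈ (S : Set G) := by rw [hS]; exact Or.inl ⟨i, rfl⟩
          exact this
        have h7 := norm_sub_le_dfc (lreg μ) S (Or.inl rfl : (1 : ℝ) = 1 ∨ (1 : ℝ) = -1)
          (f : Lp ℂ 2 μ) hxi
        have h8 := hdfc f f.2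
        linarith
      have h7 := Finset.sum_le_card_nsmul _ _ _ h6
      rwa [Finset.card_univ, Fintype.card_fin, nsmul_eq_mul] at h7
    have h6 : (k : ℝ) * (2 * (η * ‖(f : Lp ℂ 2 μ)‖ ^ 2)) ≤ ε * ‖(f : Lp ℂ 2 μ)‖ ^ 2 := by
      have h7 : (k : ℝ) * (2 * η) ≤ ε := by
        rw [hη]
        have h8 : (k : ℝ) * (2 * (ε / (2 * (k + 1)))) = ε * (k / (k + 1)) := by
          field_simp
        rw [h8]
        have h9 : (k : ℝ) / (k + 1) ≤ 1 := by
          rw [div_le_one (by positivity)]; linarith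
        nlinarith
      nlinarith [sq_nonneg ‖(f : Lp ℂ 2 μ)‖]
    have h7 : ‖(f : Lp ℂ 2 μ)‖ ^ 2 ≤ 0 := by
      by_contra hcon
      push Not at hcon
      have : 0 < ε * ‖(f : Lp ℂ 2 μ)‖ ^ 2 := mul_pos hε hcon
      linarith
    have h8 : ‖(f : Lp ℂ 2 μ)‖ = 0 := by
      have := sq_nonneg ‖(f : Lp ℂ 2 μ)‖
      exact pow_eq_zero_iff two_ne_zero |>.1 (le_antisymm h7 this)
    exact Subtype.ext (norm_eq_zero.1 h8)
  exact FiniteDimensional.of_injective J hJ

/-- **The zero-one law.** -/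
theorem zeroOne (hG : Simp G) : (GapA μ ∧ ¬ GenB μ) ∨ (¬ GapA μ ∧ GenB μ ∧
    ∀ k : ℕ, 4 ≤ k → ∀ ε : ℝ, 0 < ε → ∃ S : Finset G, S.card = k ∧ (∀ s ∈ S, s⁻¹ ∈ S) ∧
      Dense ((Subgroup.closure (S : Set G) : Subgroup G) : Set G) ∧
      ¬ FiniteDimensional ℂ (topSpace μ S ε)) := by
  obtain ⟨r, ρ, hρ⟩ := exists_rep G hG
  haveI : Nontrivial G := by
    obtain ⟨a, b, hab⟩ := hG.nonab
    refine ⟨⟨a, b, fun h => hab (by rw [h])⟩⟩
  -- generic pairs
  have hgen : GenB μ → ∃ u v : G, Dense ((Subgroup.closure {u, v} : Subgroup G) : Set G) ∧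
      (u ≠ u⁻¹ ∧ v ≠ v⁻¹ ∧ u ≠ v ∧ u ≠ v⁻¹) ∧
      ∀ ε : ℝ, 0 < ε → ¬ FiniteDimensional ℂ (topSpace μ (sym4 u v) ε) := by
    intro hB
    obtain ⟨O, hO, ⟨⟨a, b⟩, hab⟩, hOd⟩ := open_pairs hρ hG
    have h1 := dense_of_mem_residual (hB 2)
    have hO2 : IsOpen {x : Fin 2 → G | (x 0, x 1) ∈ O} :=
      hO.preimage ((continuous_apply 0).prodMk (continuous_apply 1))
    obtain ⟨x, hx1, hx2⟩ := h1.inter_open_nonempty _ hO2 ⟨![a, b], by simpa using hab⟩
    obtain ⟨h2, h3⟩ := hOd _ _ hx1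
    refine ⟨x 0, x 1, h2, h3, fun ε hε => hx2 ε hε _ ?_⟩
    ext g
    rw [Finset.mem_coe, mem_sym4, mem_union, Set.mem_inv, mem_range, mem_range]
    simp only [Fin.exists_fin_two]
    constructor
    · rintro (rfl | rfl | rfl | rfl)
      · exact Or.inl (Or.inl rfl)
      · exact Or.inl (Or.inr rfl)
      · exact Or.inr (Or.inl (inv_inv _).symm)
      · exact Or.inr (Or.inr (inv_inv _).symm)
    · rintro ((h | h) | (h | h))
      · exact Or.inl h.symm
      · exact Or.inr (Or.inl h.symm)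
      · exact Or.inr (Or.inr (Or.inl (by rw [h, inv_inv])))
      · exact Or.inr (Or.inr (Or.inr (by rw [h, inv_inv])))
  have hexcl : GapA μ → GenB μ → False := by
    intro hA hB
    obtain ⟨u, v, hd, -, h⟩ := hgen hB
    have hr : range ![u, v] = {u, v} := by
      ext g
      simp [eq_comm]
      tauto
    have hS : ((sym4 u v : Finset G) : Set G) = range ![u, v] ∪ (range ![u, v])⁻¹ := by
      ext g
      rw [Finset.mem_coe, mem_sym4, hr, mem_union, Set.mem_inv, mem_insert_iff, mem_insert_iff,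
        mem_singleton_iff, mem_singleton_iff, inv_eq_iff_eq_inv, inv_eq_iff_eq_inv]
      tauto
    obtain ⟨ε, hε, hfd⟩ := fd_of_gapA μ hA (x := ![u, v]) (by rw [hr]; exact hd) hS
    exact h ε hε hfd
  obtain ⟨U, hU1, hU2⟩ := exists_base hρ
  by_cases h : ∃ k n a, (interior (Cst μ (U n) k a)).Nonempty
  · left
    obtain ⟨m, n, a, hne⟩ := h
    have hA : GapA μ := by
      intro k K hK hd
      obtain ⟨ε, hε, h1⟩ := gap_of_interior μ (hU1 n) hne hK hd
      refine ⟨ε, hε, fun x hx f hf => ?_⟩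
      simp_rw [← inner_lreg μ]
      exact h1 x hx f hf
    exact ⟨hA, fun hB => hexcl hA hB⟩
  · right
    push Not at h
    have hB : GenB μ := genB_of μ hU2 fun k n a => by
      exact h k n a
    refine ⟨fun hA => hexcl hA hB, hB, fun k hk ε hε => ?_⟩
    by_contra hcon
    push Not at hcon
    obtain ⟨ε', hε', h1⟩ := (thmL μ hG).1 ⟨k, hk, ε, hε, fun S h1 h2 h3 => hcon S h1 h2 h3⟩
    obtain ⟨u, v, hd, -, h2⟩ := hgen hB
    haveI := h1 (sym4 u v) (sym4_symm u v) (by rw [closure_sym4]; exact hd)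
    exact h2 ε' hε' (Submodule.finiteDimensional_of_le (top_le_exc μ _ ε'))

end main

end

end Run7.h421
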